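import Pool.Agent.Lib.MP_40dc3c_ag.T.BDefs

/-! Products of affine Fermat curves, the dual object, the diagonal and the Frobenius map. -/

namespace Pool.Agent.Lib.MP_40dc3c_ag.T

open scoped TensorProduct
open Function MvPolynomial

variable {k : Type} [Field k] (ω : kˣ →* ℂˣ)

/-- the ideal of the product of affine Fermat curves. -/
noncomputable def ferI (k : Type) [Field k] (ι : Type) (m : ℕ) :
    Ideal (MvPolynomial (ι × Fin 2) k) :=
  Ideal.span (Set.range fun i : ι => ∑ s, X (i, s) ^ m + 1)

theorem ferN_inv (ι : Type) (m : ℕ) (ζ : ι × Fin 2 → rootsOfUnity m k)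
    (a : MvPolynomial (ι × Fin 2) k) (ha : a ∈ ferI k ι m) :
    diagAct (ι × Fin 2) m ζ a ∈ ferI k ι m := by
  have : ferI k ι m ≤ (ferI k ι m).comap (diagAct (ι × Fin 2) m ζ) := by
    rw [ferI, Ideal.span_le]
    rintro _ ⟨i, rfl⟩
    refine Ideal.subset_span ⟨i, ?_⟩
    simp only [map_add, map_sum, diagAct_X_pow, map_one]
  exact this ha

/-- the product of affine Fermat curves with the character `c`. -/
@[reducible] noncomputable def ferN (ι : Type) [Fintype ι] (m : ℕ) [NeZero m]
    (c : ι × Fin 2 → ℤ) : Obj k :=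
  (aff ω (ι × Fin 2) m c).quot (ferI k ι m) (ferN_inv ι m)

/-- the coordinate ring of the product of affine Fermat curves. -/
@[reducible] noncomputable def ferA (k : Type) [Field k] (ι : Type) [Fintype ι] (m : ℕ) : Alg k :=
  ⟨MvPolynomial (ι × Fin 2) k ⧸ ferI k ι m⟩

/-- the class of the diagonal. -/
noncomputable def diag (A : Alg k) : KK A A := q (RingHom.ker (Algebra.TensorProduct.lmul' k))

/-- the action on the right factor. -/
noncomputable def Obj.autR (X : Obj k) (g : X.G) (B : Alg k) : KK B X.A →ₗ[ℂ] KK B X.A :=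
  pullR B (X.act g) (RingHom.Flat.of_bijective (hom_bij X.act g))

end Pool.Agent.Lib.MP_40dc3c_ag.T
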