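import Pool.Agent.Lib.MP_40dc3c_ag.T.KDefs

/-! Devissage, surjectivity of push forward and pull back, localisation, homotopy. -/

namespace Pool.Agent.Lib.MP_40dc3c_ag.T

open scoped TensorProduct
open Function Module

set_option linter.style.haveILetI false

variable {R R' : Type} [CommRing R] [CommRing R']

theorem dev [IsNoetherianRing R] (M : Type) [AddCommGroup M] [Module R M] [Module.Finite R M] :
    ∃ s : Multiset (Ideal R), cl R M = (s.map q).sum ∧ (∀ P ∈ s, P.IsPrime ∧ annihilator R M ≤ P) ∧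
      s.prod ≤ annihilator R M := by
  induction ‹Module.Finite R M› using IsNoetherianRing.induction_on_isQuotientEquivQuotientPrime R with
  | subsingleton N => exact ⟨0, by simp [cl_zero], by simp, by simp [annihilator_eq_top_iff.2 ‹_›]⟩
  | quotient N p f =>
    have := f.annihilator_eq.trans Ideal.annihilator_quotient
    exact ⟨{p.1}, by simp [cl_equiv f, q], by simp [this, p.2], by simp [this]⟩
  | exact N₁ N₂ N₃ f g hf hg hfg h₁ h₃ =>
    obtain ⟨s, a, b, c⟩ := h₁
    obtain ⟨t, a', b', c'⟩ := h₃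
    refine ⟨s + t, by simp [cl_exact f g hf hfg hg, a, a'], fun P hP => ?_, ?_⟩
    · exact (Multiset.mem_add.1 hP).elim
        (fun h => ⟨(b P h).1, (f.annihilator_le_of_injective hf).trans (b P h).2⟩)
        fun h => ⟨(b' P h).1, (g.annihilator_le_of_surjective hg).trans (b' P h).2⟩
    · rw [Multiset.prod_add, Ideal.mul_le]
      refine fun x hx y hy => mem_annihilator.2 fun m => ?_
      obtain ⟨u, hu⟩ := (hfg (y • m)).1 (by rw [map_smul, mem_annihilator.1 (c' hy)])
      rw [mul_smul, ← hu, ← map_smul, mem_annihilator.1 (c hx), map_zero]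

theorem cl_mem [IsNoetherianRing R] (M : Type) [AddCommGroup M] [Module R M] [Module.Finite R M]
    {T : Submodule ℂ (K R)} (h : ∀ P : Ideal R, P.IsPrime → annihilator R M ≤ P → q P ∈ T) : cl R M ∈ T := by
  obtain ⟨s, a, b, -⟩ := dev (R := R) M
  rw [a]
  exact multiset_sum_mem _ (Multiset.forall_mem_map_iff.2 fun P hP => h P (b P hP).1 (b P hP).2)

theorem eq_top_of_q [IsNoetherianRing R] {T : Submodule ℂ (K R)} (h : ∀ P : Ideal R, P.IsPrime → q P ∈ T) :
    T = ⊤ := by
  rw [eq_top_iff, ← span_prime, Submodule.span_le]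
  rintro _ ⟨P, hP, rfl⟩
  exact h P hP

lemma mem_of_sum {ι V : Type*} [AddCommGroup V] [Module ℂ V] {T : Submodule ℂ V} {s : Multiset ι} {g : ι → V}
    {v : V} (h : (s.map g).sum ∈ T) (h1 : ∀ i ∈ s, g i = v ∨ g i ∈ T) (h2 : ∃ i ∈ s, g i = v) : v ∈ T := by
  classical
  by_contra hv
  rw [← s.filter_add_not (g · ∈ T), Multiset.map_add, Multiset.sum_add, T.add_mem_iff_right
    (multiset_sum_mem _ (Multiset.forall_mem_map_iff.2 fun i hi => (Multiset.mem_filter.1 hi).2)),
    Multiset.map_congr rfl (g := fun _ => v) fun i hi =>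
      (h1 i (Multiset.mem_filter.1 hi).1).resolve_right (Multiset.mem_filter.1 hi).2,
    Multiset.map_const', Multiset.sum_replicate, ← Nat.cast_smul_eq_nsmul ℂ, T.smul_mem_iff] at h
  · exact hv h
  obtain ⟨i, a, b⟩ := h2
  exact_mod_cast (Multiset.card_pos_iff_exists_mem.2 ⟨i, Multiset.mem_filter.2 ⟨a, b ▸ hv⟩⟩).ne'

/-- the push forward of a prime class -/
theorem push_dev [IsNoetherianRing R] (f : R →+* R') (hf : f.Finite) (Q : Ideal R') :
    ∃ s : Multiset (Ideal R), push f hf (q Q) = (s.map q).sum ∧ (∀ P ∈ s, P.IsPrime ∧ Q.comap f ≤ P) ∧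
      s.prod ≤ Q.comap f := by
  letI := f.toAlgebra
  haveI : Module.Finite R R' := hf
  haveI : Module.Finite R (R' ⧸ Q) := Module.Finite.trans R' _
  have : annihilator R (R' ⧸ Q) = Q.comap f := by
    rw [← comap_annihilator (R := R'), Ideal.annihilator_quotient]; rfl
  rw [q, push_cl f hf (R' ⧸ Q) (fun r x => (algebraMap_smul R' r x).symm), ← this]
  exact dev _

/-- the class of any ideal -/
theorem q_dev [IsNoetherianRing R] (I : Ideal R) :
    ∃ s : Multiset (Ideal R), q I = (s.map q).sum ∧ (∀ P ∈ s, P.IsPrime ∧ I ≤ P) ∧ s.prod ≤ I := by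
  have := dev (R := R) (R ⧸ I)
  rwa [Ideal.annihilator_quotient] at this

theorem push_surj [IsNoetherianRing R] (f : R →+* R') (hf : f.Finite)
    (h : ∀ P : Ideal R, P.IsPrime → ∃ Q : Ideal R', Q.comap f = P) : Surjective (push f hf) := by
  refine LinearMap.range_eq_top.1 (eq_top_of_q fun P => ?_)
  induction P using WellFoundedGT.induction with
  | _ P ih =>
  intro hP
  obtain ⟨Q, rfl⟩ := h P hP
  obtain ⟨s, a, b, c⟩ := push_dev f hf Q
  obtain ⟨P', d, e⟩ := hP.multiset_prod_le.1 c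
  exact mem_of_sum (a ▸ LinearMap.mem_range_self _ _)
    (fun I hI => (b I hI).2.eq_or_lt.imp (fun e => by rw [e]) fun e => ih I e (b I hI).1)
    ⟨P', d, by rw [e.antisymm (b _ d).2]⟩

theorem range_le_pull [IsNoetherianRing R] [IsNoetherianRing R'] (f : R →+* R') (hf : f.Flat)
    (Pj : K R' →ₗ[ℂ] K R') (h1 : ∀ x, Pj (pull f hf x) = pull f hf x)
    (h2 : ∀ Q Q' : Ideal R', Q.IsPrime → Q'.IsPrime → Q.comap f = Q'.comap f → Pj (q Q) = Pj (q Q')) :
    LinearMap.range Pj ≤ LinearMap.range (pull f hf) := by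
  rw [LinearMap.range_le_iff_comap]
  suffices ∀ P, ∀ Q : Ideal R', Q.IsPrime → Q.comap f = P → Pj (q Q) ∈ LinearMap.range (pull f hf) from
    eq_top_of_q fun Q hQ => this _ Q hQ rfl
  intro P
  induction P using WellFoundedGT.induction with
  | _ P ih =>
  rintro Q hQ rfl
  obtain ⟨s, a, b, c⟩ := q_dev ((Q.comap f).map f)
  obtain ⟨Q', d, e⟩ := hQ.multiset_prod_le.1 (c.trans Ideal.map_comap_le)
  have l := fun I hI => Ideal.map_le_iff_le_comap.1 (b I hI).2
  refine mem_of_sum (s := s) (g := fun I => Pj (q I)) ⟨q (Q.comap f), ?_⟩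
    (fun I hI => (l I hI).eq_or_lt.imp (fun e => h2 _ _ (b I hI).1 hQ e.symm) fun e => ih _ e I (b I hI).1 rfl)
    ⟨Q', d, h2 _ _ (b _ d).1 hQ ((Ideal.comap_mono e).antisymm (l _ d))⟩
  rw [← h1, pull_q, a, map_multiset_sum, Multiset.map_map]
  rfl

/-- an element which is regular modulo an ideal -/
theorem q_reg [IsNoetherianRing R] (I : Ideal R) {g : R} (h : ∀ x, g * x ∈ I → x ∈ I) :
    q (I ⊔ Ideal.span {g}) = 0 := by
  have := cl_exact (R := R) (g • LinearMap.id : R ⧸ I →ₗ[R] R ⧸ I)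
    (Submodule.factor (le_sup_left : I ≤ I ⊔ Ideal.span {g})) (by
      refine (injective_iff_map_eq_zero _).2 fun x hx => ?_
      obtain ⟨x, rfl⟩ := Submodule.Quotient.mk_surjective _ x
      exact (Submodule.Quotient.mk_eq_zero _).2 (h x ((Submodule.Quotient.mk_eq_zero _).1 hx))) (fun x => by
      obtain ⟨x, rfl⟩ := Submodule.Quotient.mk_surjective _ x
      refine ((Submodule.Quotient.mk_eq_zero _).trans Submodule.mem_sup).trans ⟨?_, ?_⟩
      · rintro ⟨a, ha, b, hb, rfl⟩
        obtain ⟨c, rfl⟩ := Ideal.mem_span_singleton.1 hb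
        exact ⟨Submodule.Quotient.mk c, (Submodule.Quotient.eq _).2 (by simpa using ha)⟩
      · rintro ⟨c, hc⟩
        obtain ⟨c, rfl⟩ := Submodule.Quotient.mk_surjective _ c
        exact ⟨-(g * c - x), I.neg_mem ((Submodule.Quotient.eq _).1 hc), g * c,
          Ideal.mem_span_singleton.2 (dvd_mul_right _ _), show _ = x by ring⟩) (Submodule.factor_surjective _)
  exact left_eq_add.1 this

/-- comparison of two cyclic classes -/
theorem q_sub_mem [IsNoetherianRing R] {I J : Ideal R} (h : I ≤ J) {T : Submodule ℂ (K R)}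
    (hT : ∀ P : Ideal R, P.IsPrime → (∀ a, (∀ x ∈ J, a * x ∈ I) → a ∈ P) → q P ∈ T) : q I - q J ∈ T := by
  have := cl_exact (R := R) (LinearMap.ker (Submodule.factor h)).subtype _ (Submodule.injective_subtype _)
    (LinearMap.exact_subtype_ker_map _) (Submodule.factor_surjective h)
  rw [q, q, this, add_sub_cancel_right]
  refine cl_mem _ fun P hP l => hT P hP fun a ha => l (mem_annihilator.2 fun ⟨x, hx⟩ => Subtype.ext ?_)
  obtain ⟨x, rfl⟩ := Submodule.Quotient.mk_surjective _ x
  exact (Submodule.Quotient.mk_eq_zero _).2 (ha x ((Submodule.Quotient.mk_eq_zero _).1 hx))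

open Polynomial in
theorem pull_poly_surj [IsNoetherianRing R] (hf : (C : R →+* R[X]).Flat) : Surjective (pull C hf) := by
  suffices ∀ P, ∀ Q : Ideal R[X], Q.IsPrime → Q.comap C = P → q Q ∈ LinearMap.range (pull C hf) from
    LinearMap.range_eq_top.1 (eq_top_of_q fun Q hQ => this _ Q hQ rfl)
  intro P
  induction P using WellFoundedGT.induction with
  | _ P ih =>
  intro Q hQ e
  have hP : P.IsPrime := e ▸ Ideal.comap_isPrime _ _
  have l : P.map C ≤ Q := Ideal.map_le_iff_le_comap.2 e.ge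
  rcases l.eq_or_lt with c | c
  · exact ⟨q P, by rw [pull_q, c]⟩
  classical
  have km : ∀ x : R[X], x ∈ P.map C ↔ x.map (Ideal.Quotient.mk P) = 0 := fun x => by
    rw [← Ideal.mk_ker (I := P), ← ker_mapRingHom, Ideal.mk_ker]; rfl
  have ex : ∃ n, ∃ g ∈ Q, g ∉ P.map C ∧ g.natDegree = n := by
    obtain ⟨g, a, b⟩ := SetLike.exists_of_lt c
    exact ⟨_, g, a, b, rfl⟩
  obtain ⟨g, g1, g2, g3⟩ := Nat.find_spec ex
  have mn : ∀ x ∈ Q, x.natDegree < g.natDegree → x ∈ P.map C := fun x a b => by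
    by_contra c
    exact Nat.find_min ex (g3 ▸ b) ⟨x, a, c, rfl⟩
  have lc : g.leadingCoeff ∉ P := fun h => by
    have m : C g.leadingCoeff * X ^ g.natDegree ∈ P.map C := Ideal.mul_mem_right _ _ (Ideal.mem_map_of_mem _ h)
    refine g2 (g.eraseLead_add_C_mul_X_pow ▸ add_mem ?_ m)
    refine g.eraseLead_natDegree_lt_or_eraseLead_eq_zero.elim (mn _ ?_) fun h => h ▸ zero_mem _
    exact eq_sub_of_add_eq g.eraseLead_add_C_mul_X_pow ▸ sub_mem g1 (l m)
  have dv : ∀ n, ∀ x ∈ Q, x.natDegree = n → ∃ k, C g.leadingCoeff ^ k * x ∈ P.map C ⊔ Ideal.span {g} := by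
    intro n
    induction n using Nat.strong_induction_on with
    | _ n ih =>
    intro x hx hn
    rcases lt_or_ge x.natDegree g.natDegree with c | c
    · exact ⟨0, by simpa using Ideal.mem_sup_left (mn x hx c)⟩
    have m : g * (C x.leadingCoeff * X ^ (x.natDegree - g.natDegree)) ∈ P.map C ⊔ Ideal.span {g} :=
      Ideal.mem_sup_right (Ideal.mem_span_singleton.2 (dvd_mul_right _ _))
    obtain ⟨y, hy⟩ : ∃ y, y = C g.leadingCoeff * x - g * (C x.leadingCoeff * X ^ (x.natDegree - g.natDegree)) :=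
      ⟨_, rfl⟩
    have y1 : y.natDegree ≤ x.natDegree := by
      rw [hy]
      refine (natDegree_sub_le _ _).trans (max_le (natDegree_C_mul_le _ _) (natDegree_mul_le.trans ?_))
      have := natDegree_C_mul_X_pow_le x.leadingCoeff (x.natDegree - g.natDegree)
      omega
    have y2 : y.coeff x.natDegree = 0 := by
      rw [hy, coeff_sub, coeff_C_mul, mul_left_comm, coeff_C_mul, coeff_mul_X_pow', if_pos (by omega),
        Nat.sub_sub_self c, coeff_natDegree, coeff_natDegree, mul_comm, sub_self]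
    obtain ⟨k, hk⟩ : ∃ k, C g.leadingCoeff ^ k * y ∈ P.map C ⊔ Ideal.span {g} := by
      rcases y1.eq_or_lt with c | c
      · exact ⟨0, by rw [leadingCoeff_eq_zero.1 (c ▸ y2 :), mul_zero]; exact zero_mem _⟩
      · exact ih _ (hn ▸ c) y (hy ▸ sub_mem (Q.mul_mem_left _ hx) (Q.mul_mem_right _ g1)) rfl
    refine ⟨k + 1, ?_⟩
    rw [pow_succ, mul_assoc, eq_add_of_sub_eq hy.symm, mul_add]
    exact add_mem hk (Ideal.mul_mem_left _ _ m)
  obtain ⟨k, hk⟩ : ∃ k, ∀ x ∈ Q, C g.leadingCoeff ^ k * x ∈ P.map C ⊔ Ideal.span {g} := by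
    obtain ⟨t, rfl⟩ := IsNoetherian.noetherian Q
    choose! k hk using fun x hx => dv _ x hx rfl
    refine ⟨t.sup k, fun x hx => ?_⟩
    induction hx using Submodule.span_induction with
    | mem x h =>
      rw [← Nat.sub_add_cancel (Finset.le_sup (f := k) h), pow_add, mul_assoc]
      exact Ideal.mul_mem_left _ _ (hk x (Submodule.subset_span h))
    | zero => simp
    | add x y _ _ a b => rw [mul_add]; exact add_mem a b
    | smul a x _ b => rw [smul_eq_mul, mul_left_comm]; exact Ideal.mul_mem_left _ _ b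
  have := q_sub_mem (sup_le l ((Ideal.span_singleton_le_iff_mem _).2 g1)) (T := LinearMap.range (pull C hf))
    fun Q' a b => ih _ (lt_of_le_of_ne (fun x hx => b _ fun y _ => Ideal.mem_sup_left
      (Ideal.mul_mem_right _ _ (Ideal.mem_map_of_mem _ hx))) fun e => lc (by
        rw [e]; exact a.mem_of_pow_mem k (b _ hk))) Q' a rfl
  rwa [q_reg _ fun x h => ((Ideal.isPrime_map_C_of_isPrime (P := P)).mem_or_mem h).resolve_left g2, zero_sub,
    neg_mem_iff] at this

section loc

variable (S : Submonoid R)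

/-- the span of the primes which meet `S` -/
noncomputable def Tor : Submodule ℂ (K R) :=
  Submodule.span ℂ {x | ∃ P : Ideal R, P.IsPrime ∧ (∃ s ∈ S, s ∈ P) ∧ x = q P}

variable {S}

theorem cl_tor [IsNoetherianRing R] (M : Type) [AddCommGroup M] [Module R M] [Module.Finite R M]
    (h : ∀ x : M, ∃ s ∈ S, s • x = 0) : cl R M ∈ Tor S := by
  obtain ⟨s, a, b⟩ : ∃ s ∈ S, s ∈ annihilator R M := by
    classical
    obtain ⟨t, ht⟩ := Module.Finite.fg_top (R := R) (M := M)
    choose s a b using h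
    refine ⟨∏ x ∈ t, s x, prod_mem fun x _ => a x, ?_⟩
    rw [← Submodule.annihilator_top, ← ht, Submodule.mem_annihilator_span]
    rintro ⟨x, hx⟩
    rw [← Finset.prod_erase_mul _ _ hx, mul_smul, b, smul_zero]
  exact cl_mem _ fun P c d => Submodule.subset_span ⟨P, c, ⟨s, a, d b⟩, rfl⟩

lemma lat_cmp [IsNoetherianRing R] {N : Type} [AddCommGroup N] [Module R N] (L L' : Submodule R N)
    [Module.Finite R L] [Module.Finite R L'] (h : ∀ n, ∃ s ∈ S, s • n ∈ L) (h' : ∀ n, ∃ s ∈ S, s • n ∈ L') :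
    (Tor S).mkQ (cl R L) = (Tor S).mkQ (cl R L') := by
  have key : ∀ (L L' : Submodule R N) [Module.Finite R L] [Module.Finite R L'], L ≤ L' →
      (∀ n, ∃ s ∈ S, s • n ∈ L) → (Tor S).mkQ (cl R L') = (Tor S).mkQ (cl R L) := fun L L' _ _ l h => by
    rw [cl_quot (L.comap L'.subtype), cl_equiv (Submodule.comapSubtypeEquivOfLe l), map_add, add_eq_left]
    refine (Submodule.Quotient.mk_eq_zero _).2 (cl_tor _ fun x => ?_)
    obtain ⟨x, rfl⟩ := Submodule.Quotient.mk_surjective _ x
    obtain ⟨s, a, b⟩ := h x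
    exact ⟨s, a, (Submodule.Quotient.mk_eq_zero _).2 b⟩
  rw [← key L (L ⊔ L') le_sup_left h, key L' (L ⊔ L') le_sup_right h']

variable (S) [Algebra R R'] [IsLocalization S R']

lemma exists_lat (N : Type) [AddCommGroup N] [Module R N] [Module R' N] [IsScalarTower R R' N]
    [Module.Finite R' N] : ∃ L : Submodule R N, Module.Finite R L ∧ ∀ n, ∃ s ∈ S, s • n ∈ L := by
  obtain ⟨t, ht⟩ := Module.Finite.fg_top (R := R') (M := N)
  refine ⟨Submodule.span R t, inferInstance, fun n => ?_⟩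
  obtain ⟨s, hs⟩ := multiple_mem_span_of_mem_localization_span S R' t n (ht ▸ trivial)
  exact ⟨s, s.2, hs⟩

include S in
theorem pull_loc_surj [IsNoetherianRing R'] (f : R →+* R') (hf : f.Flat) (e : f = algebraMap R R') :
    Surjective (pull f hf) :=
  LinearMap.range_eq_top.1 (eq_top_of_q fun Q _ => ⟨q (Q.comap f), by
    rw [pull_q, e]; exact congrArg q (IsLocalization.map_under S R' Q)⟩)

theorem ker_pull_loc [IsNoetherianRing R] (f : R →+* R') (hf : f.Flat) (e : f = algebraMap R R') :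
    LinearMap.ker (pull f hf) ≤ Tor S := by
  letI : ∀ N : FG R', Module R N.M := fun N => Module.compHom N.M (algebraMap R R')
  haveI : ∀ N : FG R', IsScalarTower R R' N.M := fun N => .of_algebraMap_smul fun _ _ => rfl
  choose L fin hL using fun N : FG R' => exists_lat S (R' := R') N.M
  have : (lift (fun N => (Tor S).mkQ (cl R (L N))) fun A B C a b ha hab hb => by
      let a' := a.restrictScalars R
      let b' := b.restrictScalars R
      have i : Injective (a'.restrict (p := (L B).comap a') fun _ h => h) := fun x y h =>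
        Subtype.ext (ha (congrArg Subtype.val h))
      haveI := Module.Finite.of_injective _ i
      rw [lat_cmp (L A) ((L B).comap a') (hL A) fun n => by simpa using hL B (a' n),
        lat_cmp (L C) ((L B).map b') (hL C) fun n => by
          obtain ⟨n, rfl⟩ := hb n
          obtain ⟨s, c, d⟩ := hL B n
          exact ⟨s, c, _, d, b'.map_smul s n⟩, ← map_add]
      refine congrArg _ (cl_exact _ (b'.submoduleMap (L B)) i (fun x => ⟨fun h => ?_, ?_⟩)
        (b'.submoduleMap_surjective _))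
      · obtain ⟨y, hy⟩ := (hab x).1 (congrArg Subtype.val h)
        exact ⟨⟨y, show a y ∈ L B from hy ▸ x.2⟩, Subtype.ext hy⟩
      · rintro ⟨y, rfl⟩
        exact Subtype.ext (hab.apply_apply_eq_zero y)) ∘ₗ pull f hf = (Tor S).mkQ := ext_cl fun M => by
    rw [LinearMap.comp_apply, pull_cl f hf e, lift_cl]
    let j : M.M →ₗ[R] (⟨R' ⊗[R] M.M⟩ : FG R').M :=
      { toFun := fun m => 1 ⊗ₜ m
        map_add' := TensorProduct.tmul_add _
        map_smul' := fun r m => by
          change _ = algebraMap R R' r • ((1 : R') ⊗ₜ[R] m)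
          rw [algebraMap_smul, TensorProduct.tmul_smul] }
    have loc := (isLocalizedModule_iff_isBaseChange S R' _).2 (TensorProduct.isBaseChange R M.M R')
    rw [lat_cmp _ (LinearMap.range j) (hL _) fun n => by
      obtain ⟨⟨m, s⟩, h⟩ := loc.surj n
      exact ⟨s, s.2, m, h.symm.trans (algebraMap_smul R' s.1 _).symm⟩, cl_quot (LinearMap.ker j),
      cl_equiv j.quotKerEquivRange, map_add, eq_comm, add_eq_right]
    refine (Submodule.Quotient.mk_eq_zero _).2 (cl_tor _ fun x => ?_)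
    obtain ⟨s, hs⟩ := (IsLocalizedModule.eq_zero_iff S (TensorProduct.mk R R' M.M 1)).1 x.2
    exact ⟨s, s.2, Subtype.ext hs⟩
  intro x hx
  rw [← Submodule.Quotient.mk_eq_zero, ← Submodule.mkQ_apply, ← this, LinearMap.comp_apply, hx, map_zero]

end loc

theorem tor_powers (g : R) : Tor (Submonoid.powers g) =
    Submodule.span ℂ {x | ∃ P : Ideal R, P.IsPrime ∧ g ∈ P ∧ x = q P} := by
  refine congrArg _ (Set.ext fun x => exists_congr fun P => and_congr_right fun hP => and_congr_left' ?_)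
  exact ⟨fun ⟨_, ⟨n, e⟩, h⟩ => hP.mem_of_pow_mem n (e ▸ h :), fun h => ⟨g, ⟨1, pow_one g⟩, h⟩⟩

end Pool.Agent.Lib.MP_40dc3c_ag.T
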