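import Pool.Agent.Lib.MP_40dc3c_ag.T.KA

/-! The dimension filtration and the eigenvalues of Frobenius. -/

namespace Pool.Agent.Lib.MP_40dc3c_ag.T

open Function Module Finset

set_option linter.style.haveILetI false

variable {D A : Type} [CommRing D] [CommRing A]

/-- the rank -/
noncomputable def rk (D : Type) [CommRing D] [IsDomain D] : K D →ₗ[ℂ] ℂ :=
  lift (fun M => finrank D M.M) fun A B C f g hf hfg hg => by
    rw [← (LinearMap.ker g).finrank_quotient_add_finrank, (g.quotKerEquivOfSurjective hg).finrank_eq,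
      hfg.linearMap_ker_eq, LinearMap.finrank_range_of_inj hf, add_comm, Nat.cast_add]

theorem rk_cl [IsDomain D] (M : Type) [AddCommGroup M] [Module D M] [Module.Finite D M] :
    rk D (cl D M) = finrank D M := lift_cl _ _ _

theorem rk_push_q [IsDomain D] (f : D →+* A) (hf : f.Finite) (I : Ideal A) :
    rk D (push f hf (q I)) = 0 ↔ I.comap f ≠ ⊥ := by
  letI := f.toAlgebra
  haveI : Module.Finite D A := hf
  haveI : Module.Finite D (A ⧸ I) := Module.Finite.trans A _
  rw [q, push_cl f hf (A ⧸ I) (fun r x => (algebraMap_smul A r x).symm), rk_cl, Nat.cast_eq_zero,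
    finrank_eq_zero_iff, Submodule.ne_bot_iff]
  refine ⟨fun h => ?_, fun ⟨a, b, c⟩ x => ⟨a, c, ?_⟩⟩
  · obtain ⟨a, b, c⟩ := h 1
    rw [← Algebra.algebraMap_eq_smul_one] at c
    exact ⟨a, (Ideal.Quotient.eq_zero_iff_mem (I := I)).1 c, b⟩
  · rw [Algebra.smul_def, show algebraMap D (A ⧸ I) a = 0 from Ideal.Quotient.eq_zero_iff_mem.2 b, zero_mul]

lemma comap_bot_iff [Nontrivial D] [IsDomain A] {f : D →+* A} (hf : f.Finite) (hi : Injective f) {I : Ideal A} :
    I.comap f = ⊥ ↔ I = ⊥ := by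
  letI := f.toAlgebra
  haveI : Module.Finite D A := hf
  exact ⟨Ideal.eq_bot_of_comap_eq_bot (R := D), fun h => h ▸ Ideal.comap_bot_of_injective f hi⟩

theorem q_bot : q (⊥ : Ideal A) = cl A A := cl_equiv (Submodule.quotEquivOfEqBot _ rfl)

theorem cl_pi (ι : Type) [Fintype ι] : cl D (ι → D) = Fintype.card ι • cl D D := by
  refine Fintype.induction_empty_option (P := fun ι _ => cl D (ι → D) = Fintype.card ι • cl D D)
    (fun α β _ e ih => ?_) (by simp [cl_zero]) (fun α _ ih => ?_) ι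
  · letI := Fintype.ofEquiv β e.symm
    rw [← cl_equiv (LinearEquiv.funCongrLeft D D e.symm), ih, Fintype.card_congr e]
  · rw [cl_equiv (LinearEquiv.piOptionEquivProd D), cl_exact (LinearMap.inl D _ _) (LinearMap.snd D _ _)
      LinearMap.inl_injective .inl_snd LinearMap.snd_surjective, ih, Fintype.card_option, succ_nsmul']

theorem push_free (f : D →+* A) {ι : Type} [Fintype ι] (b : ι → A)
    (h : Bijective fun c : ι → D => ∑ i, f (c i) * b i) :
    ∃ hf : f.Finite, push f hf (q ⊥) = Fintype.card ι • q ⊥ := by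
  letI := f.toAlgebra
  let e : (ι → D) ≃ₗ[D] A := .ofBijective (Fintype.linearCombination D b) (by
    convert h using 2
    simp [Fintype.linearCombination_apply, Algebra.smul_def, RingHom.algebraMap_toAlgebra])
  haveI : Module.Finite D A := .equiv e
  exact ⟨this, by rw [q_bot, q_bot, push_cl f this A (fun r x => Algebra.smul_def r x), ← cl_equiv e, cl_pi]⟩

open MvPolynomial in
theorem rk_expand (k : Type) [Field k] (d : ℕ) {N : ℕ} (hN : 0 < N) :
    ∃ hf : (expand N : MvPolynomial (Fin d) k →ₐ[k] _).toRingHom.Finite,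
      ∀ x, rk _ (push _ hf x) = N ^ d * rk _ x := by
  obtain ⟨hf, h⟩ := push_free (expand N : MvPolynomial (Fin d) k →ₐ[k] _).toRingHom
    (fun r : Fin d → Fin N => monomial (Finsupp.equivFunOnFinite.symm fun i => (r i).1) 1) ⟨by
      refine fun c c' e => funext fun r => MvPolynomial.ext _ _ fun m => ?_
      have : ∀ c : (Fin d → Fin N) → MvPolynomial (Fin d) k,
          coeff (N • m + Finsupp.equivFunOnFinite.symm fun i => (r i).1) (∑ r, expand N (c r) *
            monomial (Finsupp.equivFunOnFinite.symm fun i => (r i).1) 1) = coeff m (c r) := fun c => by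
        rw [coeff_sum, sum_eq_single_of_mem r (mem_univ _) fun r' _ h => ?_, coeff_mul_monomial, mul_one,
          coeff_expand_smul _ hN.ne']
        rw [coeff_mul_monomial']
        split_ifs with l
        · obtain ⟨i, hi⟩ := ne_iff.1 h
          rw [coeff_expand_of_not_dvd _ (i := i) fun c => hi (Fin.ext ?_), zero_mul]
          have l : (r' i).1 ≤ N * m i + r i := l i
          have := (Nat.modEq_iff_dvd' l).2 c
          rwa [Nat.ModEq, Nat.mul_add_mod, Nat.mod_eq_of_lt (r i).2, Nat.mod_eq_of_lt (r' i).2] at this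
        · rfl
      exact (this c).symm.trans ((congrArg _ e).trans (this c')), fun x => by
      induction x using MvPolynomial.induction_on' with
      | monomial u a =>
        refine ⟨Pi.single (fun i => ⟨u i % N, Nat.mod_lt _ hN⟩) (monomial (u.mapRange (· / N) (by simp)) a), ?_⟩
        dsimp only
        rw [sum_eq_single_of_mem _ (mem_univ _) fun r _ h => by rw [Pi.single_eq_of_ne h]; simp]
        simp only [Pi.single_eq_same, AlgHom.toRingHom_eq_coe, RingHom.coe_coe, expand_monomial, monomial_mul,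
          mul_one]
        congr 2
        ext i
        simp [Nat.div_add_mod]
      | add p r a b =>
        obtain ⟨c, rfl⟩ := a
        obtain ⟨c', rfl⟩ := b
        exact ⟨c + c', by simp [add_mul, sum_add_distrib]⟩⟩
  refine ⟨hf, LinearMap.congr_fun (f := rk _ ∘ₗ push _ hf) (g := (N : ℂ) ^ d • rk _) (ext_q fun P _ => ?_)⟩
  by_cases e : P = ⊥
  · rw [e, LinearMap.comp_apply, h]
    simp
  · have := (rk_push_q (RingHom.id _) (RingHom.Finite.id _) P).2 e
    rw [push_id] at this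
    rw [LinearMap.comp_apply, (rk_push_q _ hf P).2 (mt (comap_bot_iff hf (expand_injective hN)).1 e)]
    simp [this]

variable (k : Type) [Field k] {R : Type} [CommRing R] [Algebra k R]

/-- the span of the primes of dimension less than `j` -/
noncomputable def Fd (R : Type) [CommRing R] [Algebra k R] (j : ℕ) : Submodule ℂ (K R) :=
  Submodule.span ℂ {x | ∃ P : Ideal R, P.IsPrime ∧ Algebra.trdeg k (R ⧸ P) < j ∧ x = q P}

theorem Fd_mono {i j : ℕ} (h : i ≤ j) : Fd k R i ≤ Fd k R j :=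
  Submodule.span_mono fun _ ⟨P, a, b, c⟩ => ⟨P, a, b.trans_le (Nat.cast_le.2 h), c⟩

theorem Fd_zero : Fd k R 0 = ⊥ := Submodule.span_eq_bot.2 fun _ ⟨_, _, b, _⟩ => absurd b (by simp)

variable {k}

lemma trdeg_nn [IsDomain R] {d : ℕ} (g : MvPolynomial (Fin d) k →ₐ[k] R) (hi : Injective g) (hf : g.Finite) :
    Algebra.trdeg k R = d := by
  letI := g.toAlgebra
  haveI : Module.Finite (MvPolynomial (Fin d) k) R := hf
  haveI : IsScalarTower k (MvPolynomial (Fin d) k) R := .of_algebraMap_eq fun x => (g.commutes x).symm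
  haveI : FaithfulSMul (MvPolynomial (Fin d) k) R := (faithfulSMul_iff_algebraMap_injective _ _).2 hi
  rw [← trdeg_add_eq k (MvPolynomial (Fin d) k), MvPolynomial.trdeg_of_isDomain, trdeg_eq_zero]
  simp

lemma trdeg_lt_nn [IsDomain R] {d : ℕ} (g : MvPolynomial (Fin d) k →ₐ[k] R) (hi : ¬ Injective g) (hf : g.Finite) :
    Algebra.trdeg k R < d := by
  have e : MvPolynomial.aeval (fun i => g (.X i)) = g := MvPolynomial.algHom_ext fun i => by simp
  have : Algebra.IsAlgebraic (Algebra.adjoin k (Set.range fun i => g (.X i))) R := by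
    rw [Algebra.adjoin_range_eq_range_aeval, e]
    have : Module.Finite g.range R := RingHom.Finite.of_comp_finite
      (f := g.rangeRestrict.toRingHom) (g := algebraMap g.range R) hf
    infer_instance
  refine lt_of_not_ge fun c => hi ?_
  have := (Algebra.IsAlgebraic.isTranscendenceBasis_of_le_trdeg_of_finite k (ι := Fin d) (fun i => g (.X i))
    (by simpa using c)).1
  rwa [AlgebraicIndependent, e] at this

variable [Algebra.FiniteType k R]

theorem trdeg_lt {P Q : Ideal R} (hP : P.IsPrime) (hQ : Q.IsPrime) (h : P < Q) :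
    Algebra.trdeg k (R ⧸ Q) < Algebra.trdeg k (R ⧸ P) := by
  obtain ⟨d, g, hi, hf⟩ := exists_finite_inj_algHom_of_fg k (R ⧸ P)
  rw [trdeg_nn g hi hf]
  refine trdeg_lt_nn ((Ideal.Quotient.factorₐ k h.le).comp g) (fun c => h.not_ge fun x hx => ?_)
    (AlgHom.Finite.comp (.of_surjective _ (Ideal.Quotient.factor_surjective h.le)) hf)
  have := (comap_bot_iff (f := g.toRingHom) hf hi (I := RingHom.ker (Ideal.Quotient.factor h.le))).1
    ((RingHom.injective_iff_ker_eq_bot _).1 c)
  exact Ideal.Quotient.eq_zero_iff_mem.1 (this.le (Ideal.Quotient.eq_zero_iff_mem.2 hx))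

theorem Fd_top : ∀ v : K R, ∃ j, v ∈ Fd k R j := by
  have := Algebra.FiniteType.isNoetherianRing k R
  refine fun v => ⟨(Algebra.trdeg k R).toNat + 1, ?_⟩
  rw [eq_top_of_q (T := Fd k R _) fun P hP => Submodule.subset_span ⟨P, hP, ?_, rfl⟩]
  · trivial
  refine (trdeg_le_of_surjective (Ideal.Quotient.mkₐ k P) Ideal.Quotient.mk_surjective).trans_lt ?_
  conv_lhs => rw [← Cardinal.cast_toNat_of_lt_aleph0 (trdeg_lt_aleph0_of_finiteType (R := k) (S := R))]
  exact_mod_cast Nat.lt_succ_self _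

theorem push_frob (ψ : R →ₐ[k] R) (hψ : ψ.toRingHom.Finite) {P : Ideal R} (hP : P.IsPrime) (h : P.comap ψ = P)
    {d N : ℕ} (hN : 0 < N) (g : MvPolynomial (Fin d) k →ₐ[k] R ⧸ P) (hi : Injective g) (hf : g.Finite)
    (t : Fin d → R) (ht : ∀ i, g (.X i) = Ideal.Quotient.mk P (t i)) (hx : ∀ i, ψ (t i) = t i ^ N) :
    push _ hψ (q P) - (N : ℂ) ^ d • q P ∈ Fd k R d := by
  have := Algebra.FiniteType.isNoetherianRing k R
  have mf := RingHom.Finite.of_surjective _ (Ideal.Quotient.mk_surjective (I := P))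
  let χ := Ideal.quotientMapₐ P ψ h.ge
  have hc : χ.toRingHom.comp (Ideal.Quotient.mk P) = (Ideal.Quotient.mk P).comp ψ.toRingHom := rfl
  have hχ : χ.toRingHom.Finite := .of_comp_finite (f := Ideal.Quotient.mk P) (hc ▸ mf.comp hψ)
  have e : ∀ I, push _ mf (q I) = q (I.comap (Ideal.Quotient.mk P)) := push_q _ mf Ideal.Quotient.mk_surjective
  have e0 : push _ mf (q ⊥) = q P := by rw [e, ← RingHom.ker_eq_comap_bot, Ideal.mk_ker]
  obtain ⟨s, a, b, -⟩ := push_dev _ hχ ⊥
  obtain ⟨hX, hr⟩ := rk_expand k d hN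
  classical
  have c1 : rk _ (push g.toRingHom hf (push _ hχ (q ⊥))) = N ^ d * rk _ (push g.toRingHom hf (q ⊥)) := by
    rw [← hr, push_push, push_push]
    congr 2
    refine push_congr _ _ (congrArg AlgHom.toRingHom (?_ : χ.comp g = g.comp (MvPolynomial.expand N)))
    ext i
    simp [ht, χ, hx]
  rw [← s.filter_add_not (· = ⊥), Multiset.map_add, Multiset.sum_add, Multiset.filter_eq', Multiset.map_replicate,
    Multiset.sum_replicate] at a
  rw [a, map_add, map_add, map_multiset_sum, map_multiset_sum, Multiset.sum_eq_zero fun x hx => by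
    simp only [Multiset.mem_map, Multiset.mem_filter] at hx
    obtain ⟨_, ⟨_, ⟨I, hI, rfl⟩, rfl⟩, rfl⟩ := hx
    exact (rk_push_q _ hf I).2 (mt (comap_bot_iff hf hi).1 hI.2), add_zero, map_nsmul, map_nsmul, nsmul_eq_mul,
    mul_left_inj' (mt (rk_push_q _ hf ⊥).1 (not_not.2 ((comap_bot_iff hf hi).2 rfl)))] at c1
  rw [← e0, push_push, ← push_congr (hχ.comp mf) _ hc, ← push_push _ mf _ hχ, a, map_add, map_nsmul, ← c1,
    Nat.cast_smul_eq_nsmul, add_sub_cancel_left, map_multiset_sum]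
  refine multiset_sum_mem _ fun x hx => ?_
  simp only [Multiset.mem_map, Multiset.mem_filter] at hx
  obtain ⟨_, ⟨I, hI, rfl⟩, rfl⟩ := hx
  have := (b I hI.1).1
  refine Submodule.subset_span ⟨_, Ideal.comap_isPrime _ I, trdeg_nn g hi hf ▸ trdeg_lt hP
    (Ideal.comap_isPrime _ I) (lt_of_le_of_ne (Ideal.mk_ker.ge.trans (Ideal.ker_le_comap _)) fun c => hI.2 ?_), e I⟩
  rw [← Ideal.map_comap_of_surjective _ Ideal.Quotient.mk_surjective I, ← c, Ideal.map_quotient_self]

variable {φ : R →ₐ[k] R} {Q : ℕ}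

omit [Algebra.FiniteType k R] in
lemma push_pow (hφ : φ.toRingHom.Finite) (n : ℕ) :
    ∃ h : (φ ^ n).toRingHom.Finite, ∀ x, (push _ hφ ^ n) x = push _ h x := by
  induction n with
  | zero => exact ⟨.id _, fun x => (push_id _ x).symm⟩
  | succ n ih =>
    obtain ⟨h, e⟩ := ih
    exact ⟨h.comp hφ, fun x => by rw [pow_succ', End.mul_apply, e, push_push]; rfl⟩

omit [Algebra.FiniteType k R] in
lemma frob_mul {a : R} {s : ℕ} (h : (φ ^ s) a = a ^ Q ^ s) (t : ℕ) : (φ ^ (s * t)) a = a ^ Q ^ (s * t) := by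
  induction t with
  | zero => simp
  | succ t ih => rw [mul_add_one, pow_add, AlgHom.mul_apply, h, map_pow, ih, ← pow_mul, ← pow_add]

variable (hφ : φ.toRingHom.Finite) (hQ : 0 < Q) (h : ∀ a, ∃ s, 0 < s ∧ (φ ^ s) a = a ^ Q ^ s)
include hQ h

theorem frob_q {P : Ideal R} (hP : P.IsPrime) : ∃ d s : ℕ, Algebra.trdeg k (R ⧸ P) = d ∧ 0 < s ∧
    ∀ t, (push _ hφ ^ (s * t)) (q P) - (Q : ℂ) ^ (s * t * d) • q P ∈ Fd k R d := by
  classical
  have := Algebra.FiniteType.isNoetherianRing k R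
  obtain ⟨d, g, hi, hf⟩ := exists_finite_inj_algHom_of_fg k (R ⧸ P)
  choose u hu using fun i => Ideal.Quotient.mk_surjective (g (.X i))
  obtain ⟨G, hG⟩ := IsNoetherian.noetherian P
  choose σ s0 hs using h
  obtain ⟨s, s1, s2⟩ : ∃ s, 0 < s ∧ ∀ a ∈ G ∪ univ.image u, σ a ∣ s :=
    ⟨_, prod_pos fun a _ => s0 a, fun a ha => dvd_prod_of_mem σ ha⟩
  have fr : ∀ a ∈ G ∪ univ.image u, ∀ t, (φ ^ (s * t)) a = a ^ Q ^ (s * t) := fun a ha t => by
    obtain ⟨c, rfl⟩ := s2 a ha
    rw [mul_assoc]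
    exact frob_mul (hs a) _
  have l : ∀ t, P ≤ P.comap (φ ^ (s * t)) := fun t => by
    conv_lhs => rw [← hG]
    refine Submodule.span_le.2 fun a ha => ?_
    change (φ ^ (s * t)) a ∈ P
    rw [fr a (mem_union_left _ ha)]
    exact P.pow_mem_of_mem (hG ▸ Submodule.subset_span ha) _ (by positivity)
  refine ⟨d, s, trdeg_nn g hi hf, s1, fun t => ?_⟩
  obtain ⟨h1, e⟩ := push_pow hφ (s * t)
  rw [e, pow_mul _ (s * t), ← Nat.cast_pow]
  refine push_frob _ h1 hP ((l t).antisymm' fun b hb => ?_) (by positivity) g hi hf u (fun i => (hu i).symm)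
    fun i => fr _ (by simp) t
  obtain ⟨c, hc⟩ := Nat.exists_eq_add_one_of_ne_zero (s0 b).ne'
  have : (φ ^ (s * (t * c))) ((φ ^ (s * t)) b) ∈ P := l _ hb
  rw [← AlgHom.mul_apply, ← pow_add, show s * (t * c) + s * t = σ b * (s * t) by rw [hc]; ring,
    frob_mul (hs b)] at this
  exact hP.mem_of_pow_mem _ this

theorem frob_Fd {i : ℕ} {v : K R} (hv : v ∈ Fd k R (i + 1)) : ∃ s, 0 < s ∧
    ∀ t, (push _ hφ ^ (s * t)) v - (Q : ℂ) ^ (s * t * i) • v ∈ Fd k R i := by
  induction hv using Submodule.span_induction with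
  | mem x hx =>
    obtain ⟨P, a, b, rfl⟩ := hx
    obtain ⟨d, s, c, s0, e⟩ := frob_q hφ hQ h a
    refine ⟨s, s0, fun t => ?_⟩
    rw [c, Nat.cast_lt, Nat.lt_succ_iff] at b
    rcases b.eq_or_lt with rfl | b
    · exact e t
    have m : q P ∈ Fd k R i := Submodule.subset_span ⟨P, a, by rw [c]; exact_mod_cast b, rfl⟩
    exact sub_mem (((Fd k R i).sub_mem_iff_left (Submodule.smul_mem _ _ m)).1 (Fd_mono k b.le (e t)))
      (Submodule.smul_mem _ _ m)
  | zero => exact ⟨1, one_pos, by simp⟩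
  | add x y _ _ a b =>
    obtain ⟨s, s0, a⟩ := a
    obtain ⟨s', s1, b⟩ := b
    refine ⟨s * s', by positivity, fun t => ?_⟩
    rw [map_add, smul_add, add_sub_add_comm]
    exact add_mem (mul_assoc s s' t ▸ a _) (by rw [mul_comm s, mul_assoc s']; exact b _)
  | smul c x _ a =>
    obtain ⟨s, s0, a⟩ := a
    refine ⟨s, s0, fun t => ?_⟩
    rw [map_smul, smul_comm, ← smul_sub]
    exact Submodule.smul_mem _ _ (a t)

/-- the eigenvalue of Frobenius sees the dimension -/
theorem frob_eig {i : ℕ} {v : K R} (hv : v ∈ Fd k R (i + 1)) (hv' : v ∉ Fd k R i) {μ : ℂ}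
    (e : push _ hφ v = μ • v) : ∃ s, 0 < s ∧ μ ^ s = Q ^ (s * i) := by
  obtain ⟨s, s0, a⟩ := frob_Fd hφ hQ h hv
  have p : ∀ n, (push _ hφ ^ n) v = μ ^ n • v := fun n => by
    induction n with
    | zero => simp
    | succ n ih => rw [pow_succ', End.mul_apply, ih, map_smul, e, smul_smul, pow_succ]
  have := a 1
  rw [mul_one, p, ← sub_smul] at this
  exact ⟨s, s0, sub_eq_zero.1 (by_contra fun c => hv' (((Fd k R i).smul_mem_iff c).1 this))⟩

omit hQ h in
theorem exists_level {v : K R} (hv : v ≠ 0) : ∃ i, v ∈ Fd k R (i + 1) ∧ v ∉ Fd k R i := by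
  classical
  have ex := Fd_top (k := k) v
  obtain ⟨i, hi⟩ := Nat.exists_eq_add_one_of_ne_zero (n := Nat.find ex) fun e => hv (by
    simpa [e, Fd_zero] using Nat.find_spec ex)
  exact ⟨i, hi ▸ Nat.find_spec ex, Nat.find_min ex (by omega)⟩

end Pool.Agent.Lib.MP_40dc3c_ag.T
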