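import Pool.Agent.Lib.MP_40dc3c_ag.T.O4
import Pool.Agent.Lib.MP_40dc3c_ag.T.FDefs
import Pool.Agent.Lib.MP_40dc3c_ag.T.KDim

/-! From a trivial object to one prime of the middle dimension. -/

namespace Pool.Agent.Lib.MP_40dc3c_ag.T

open scoped TensorProduct
open Function

variable {k : Type} [Field k]

theorem exists_cj (R : Type) [CommRing R] : ∃ cj : K R →ₛₗ[starRingEnd ℂ] K R,
    ∀ I : Ideal R, cj (q I) = q I := by
  refine ⟨Submodule.mapQ (Submodule.span ℂ (rel R)) (Submodule.span ℂ (rel R))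
    (Finsupp.mapRange.linearMap (starRingEnd ℂ).toSemilinearMap) ?_, fun I => ?_⟩
  · rw [Submodule.span_le]
    rintro _ ⟨A, B, C, f, g, hf, hfg, hg, rfl⟩
    refine Submodule.subset_span ⟨A, B, C, f, g, hf, hfg, hg, ?_⟩
    simp [map_sub]
  · change K.mk R (Finsupp.mapRange.linearMap (starRingEnd ℂ).toSemilinearMap
      (Finsupp.single ⟨R ⧸ I⟩ 1)) = K.mk R (Finsupp.single ⟨R ⧸ I⟩ 1)
    simp

/-- the projector on `K` of the algebra. -/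
noncomputable def Obj.pr (X : Obj k) : K X.A.R →ₗ[ℂ] K X.A.R :=
  (Fintype.card X.G : ℂ)⁻¹ • ∑ g, X.χ g⁻¹ • pull (X.act g).toRingHom (X.act_flat g)

theorem Obj.pr_apply (X : Obj k) (w) : X.pr w =
    (Fintype.card X.G : ℂ)⁻¹ • ∑ g, X.χ g⁻¹ • pull (X.act g).toRingHom (X.act_flat g) w := by
  rw [Obj.pr, LinearMap.smul_apply, LinearMap.sum_apply]
  rfl

theorem Obj.proj_box (X : Obj k) (S : Alg k) (w b) :
    X.proj S (box X.A S w b) = box X.A S (X.pr w) b := by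
  simp only [Obj.proj_apply, Obj.pr_apply, Obj.aut, pullL_box, map_smul, map_sum,
    LinearMap.smul_apply, LinearMap.sum_apply]

theorem Obj.avg (X : Obj k) (a : X.G → ℂ) (c : ℂ) (h : ∀ g, a g = X.χ g * c) :
    (Fintype.card X.G : ℂ)⁻¹ • ∑ g, X.χ g⁻¹ • a g = c := by
  have e : ∀ g, X.χ g⁻¹ • a g = c := fun g => by
    rw [h, smul_eq_mul, ← mul_assoc, ← map_mul, inv_mul_cancel, map_one, one_mul]
  rw [Finset.sum_congr rfl fun g _ => e g, Finset.sum_const, Finset.card_univ, nsmul_eq_mul,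
    smul_eq_mul, inv_mul_cancel_left₀ (Nat.cast_ne_zero.2 Fintype.card_ne_zero)]

theorem Obj.pr_Fd (X : Obj k) {j : ℕ} {P : Ideal X.A.R} (hP : P.IsPrime)
    (h : Algebra.trdeg k (X.A.R ⧸ P) < j) : X.pr (q P) ∈ Fd k X.A.R j := by
  rw [Obj.pr_apply]
  refine Submodule.smul_mem _ _ (Submodule.sum_mem _ fun g _ => Submodule.smul_mem _ _ ?_)
  rw [pull_q]
  let e := AlgEquiv.ofBijective (X.act g) (hom_bij X.act g)
  refine Submodule.subset_span ⟨P.map e, Ideal.map_isPrime_of_equiv e, ?_, rfl⟩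
  rwa [← (Ideal.quotientEquivAlg P (P.map e) e rfl).trdeg_eq]

theorem Obj.pr_push (X : Obj k) (φ : X.A.R →ₐ[k] X.A.R) (hφ : φ.toRingHom.Finite)
    (hc : ∀ g a, φ (X.act g a) = X.act g (φ a)) (S x) :
    X.proj S (pushL φ hφ S x) = pushL φ hφ S (X.proj S x) := by
  simp only [Obj.proj_apply, map_smul, map_sum]
  congr 2
  funext g
  exact congrArg _ (Eqv.pushL_aut ⟨φ, MonoidHom.id _, hc, fun _ => rfl⟩ hφ g S x).symm

theorem exists_gen' {Y : Obj k} (h : Ge (Obj.one k) Y) (φ : Y.A.R →ₐ[k] Y.A.R)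
    (hφ : φ.toRingHom.Finite) (hc : ∀ g a, φ (Y.act g a) = Y.act g (φ a)) :
    ∃ (z : K Y.A.R) (μ : ℂ), Y.pr z = z ∧ (∀ w, ∃ c : ℂ, Y.pr w = c • z) ∧
      (∀ w, Y.pr (push _ hφ w) = μ • Y.pr w) ∧ push _ hφ z = μ • z ∧
      ∀ S x, ∃ b, Y.proj S x = box Y.A S z b := by
  obtain ⟨z, h1, h2⟩ := exists_gen h
  have a0 : ∀ w, Y.proj (Alg.pt k) (eL _ w) = eL _ (Y.pr w) := fun w => by
    rw [← box_pt_right, Obj.proj_box, box_pt_right]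
  have a1 : Y.pr z = z := (eL_bij _).1 (by
    rw [← a0, ← box_pt_right, Y.proj_of_mem _ (h1 _ _)])
  have a2 : ∀ w, ∃ c : ℂ, Y.pr w = c • z := fun w => by
    obtain ⟨b, hb⟩ := h2 _ _ (Y.proj_mem (Alg.pt k) (eL _ w))
    obtain ⟨c, rfl⟩ := K_pt b
    exact ⟨c, (eL_bij _).1 (by rw [← a0, hb, map_smul, box_pt_right, map_smul])⟩
  have a3 : ∀ w, Y.pr (push _ hφ w) = push _ hφ (Y.pr w) := fun w => (eL_bij _).1 (by
    rw [← a0, ← pushL_eL, ← pushL_eL, ← a0, Y.pr_push φ hφ hc])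
  obtain ⟨μ, hμ⟩ := a2 (push _ hφ z)
  rw [a3, a1] at hμ
  refine ⟨z, μ, a1, a2, fun w => ?_, hμ, fun S x => h2 S _ (Y.proj_mem S x)⟩
  obtain ⟨c, hw⟩ := a2 w
  rw [a3, hw, map_smul, hμ, smul_comm]

theorem Obj.chi_conj (X : Obj k) (g : X.G) : starRingEnd ℂ (X.χ g⁻¹) = X.χ g := by
  have h : ‖X.χ g‖ = 1 := (X.χ.isOfFinOrder (isOfFinOrder_of_finite g)).norm_eq_one
  rw [eq_inv_of_mul_eq_one_left (a := X.χ g⁻¹) (b := X.χ g) (by rw [← map_mul, inv_mul_cancel, map_one]),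
    Complex.inv_eq_conj h, Complex.conj_conj]

theorem core (Y : Obj k) (χ' : Y.G →* ℂ) (hχ' : ∀ g, χ' g = Y.χ g⁻¹)
    (_hcomm : ∀ g h : Y.G, g * h = h * g) (h1 : Ge (Obj.one k) Y)
    (h2 : Ge (Obj.one k) ⟨Y.A, Y.G, Y.act, χ'⟩) (Λ : KK Y.A Y.A →ₗ[ℂ] ℂ)
    (hl : ∀ g x, Λ (Y.aut g Y.A x) = Y.χ g * Λ x) (hr : ∀ g x, Λ (Y.autR g Y.A x) = χ' g * Λ x)
    (hΔ : Λ (diag Y.A) ≠ 0) (φ : Y.A.R →ₐ[k] Y.A.R) (hφ : φ.toRingHom.Finite)
    (hc : ∀ g a, φ (Y.act g a) = Y.act g (φ a)) (Q : ℕ) (hQ : 1 < Q)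
    (hfr : ∀ a, ∃ s, 0 < s ∧ (φ ^ s) a = a ^ Q ^ s) (n : ℕ)
    (hn : Λ (pushL φ hφ Y.A (pushR Y.A φ hφ (diag Y.A))) = (Q : ℂ) ^ n * Λ (diag Y.A)) :
    ∃ (P : Ideal Y.A.R) (j : ℕ), P.IsPrime ∧ Algebra.trdeg k (Y.A.R ⧸ P) = j ∧ 2 * j = n ∧
      Λ (box Y.A Y.A (q P) (q P)) ≠ 0 := by
  let Y' : Obj k := ⟨Y.A, Y.G, Y.act, χ'⟩
  obtain ⟨z, μ, a1, a2, a3, a4, a5⟩ := exists_gen' h1 φ hφ hc
  obtain ⟨z', μ', -, b2, b3, b4, -⟩ := exists_gen' (Y := Y') h2 φ hφ hc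
  have L : ∀ x, Λ (Y.proj Y.A x) = Λ x := fun x => by
    simp only [Obj.proj_apply, map_smul, map_sum]
    exact Y.avg _ _ fun g => hl g x
  have R : ∀ w b, Λ (box Y.A Y.A w (Y'.pr b)) = Λ (box Y.A Y.A w b) := fun w b => by
    simp only [Obj.pr_apply, map_smul, map_sum]
    exact Y'.avg _ _ fun g => by
      rw [← pullR_box]
      exact hr g _
  obtain ⟨w, hw⟩ := a5 Y.A (diag Y.A)
  have e1 : Λ (diag Y.A) = Λ (box Y.A Y.A z w) := by rw [← hw, L]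
  have e2 : μ * μ' = (Q : ℂ) ^ n := by
    refine mul_right_cancel₀ hΔ ?_
    rw [← hn, ← L (pushL _ _ _ _), Y.pr_push φ hφ hc, Y.isTr_proj.push_nat, hw, pushR_box, pushL_box,
      a4, ← R, b3, e1, ← R z w]
    simp only [map_smul, LinearMap.smul_apply, smul_eq_mul]
    ring
  have e3 : Λ (box Y.A Y.A z z') ≠ 0 := fun h => hΔ (by
    obtain ⟨c, hc⟩ := b2 w
    rw [e1, ← R, hc, map_smul, map_smul, h, smul_zero])
  have z0 : z ≠ 0 := fun h => e3 (by simp [h])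
  obtain ⟨i, i1, i2⟩ := exists_level (k := k) z0
  obtain ⟨P, hP, ht, h0⟩ : ∃ P : Ideal Y.A.R, P.IsPrime ∧
      Algebra.trdeg k (Y.A.R ⧸ P) < (i + 1 : ℕ) ∧ Y.pr (q P) ≠ 0 := by
    by_contra h
    refine z0 (a1.symm.trans ((Submodule.span_le (p := LinearMap.ker Y.pr)).2 ?_ i1))
    rintro _ ⟨P, a, b, rfl⟩
    by_contra c
    exact h ⟨P, a, b, c⟩
  obtain ⟨c, hc1⟩ := a2 (q P)
  obtain ⟨c', hc2⟩ := b2 (q P)
  have c0 : c ≠ 0 := fun h => h0 (by rw [hc1, h, zero_smul])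
  have ht' : Algebra.trdeg k (Y.A.R ⧸ P) = i := by
    refine le_antisymm (Order.lt_succ_iff.1 (by simpa using ht)) (not_lt.1 fun h => i2 ?_)
    have := Y.pr_Fd hP h
    rwa [hc1, Submodule.smul_mem_iff _ c0] at this
  obtain ⟨cj, hcj⟩ := exists_cj Y.A.R
  have f1 : cj (Y'.pr (q P)) = Y.pr (q P) := by
    simp only [Obj.pr_apply, map_smulₛₗ, map_sum, pull_q, hcj, map_inv₀, map_natCast,
      Y'.chi_conj]
    simp only [Y', hχ']
  have f2 : ∀ x ∈ Fd k Y.A.R i, cj x ∈ Fd k Y.A.R i := fun x hx =>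
    (Submodule.span_le (p := (Fd k Y.A.R i).comap cj)).2 (by
      rintro _ ⟨P, a, b, rfl⟩
      exact Submodule.subset_span ⟨P, a, b, hcj P⟩) hx
  have f3 : Y'.pr (q P) ∉ Fd k Y.A.R i := fun h => i2 (by
    have := f2 _ h
    rwa [f1, hc1, Submodule.smul_mem_iff _ c0] at this)
  have c0' : c' ≠ 0 := fun h => f3 (by rw [hc2, h, zero_smul]; exact zero_mem _)
  obtain ⟨s, s0, hs⟩ := frob_eig hφ (zero_lt_one.trans hQ) hfr i1 i2 a4
  obtain ⟨s', s0', hs'⟩ := frob_eig hφ (zero_lt_one.trans hQ) hfr (Y'.pr_Fd hP ht) f3 (μ := μ')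
    (by rw [hc2, map_smul, b4, smul_comm])
  refine ⟨P, i, hP, ht', ?_, ?_⟩
  · have : (Q : ℂ) ^ (2 * i * (s * s')) = (Q : ℂ) ^ (n * (s * s')) := by
      rw [pow_mul _ n, ← e2, mul_pow, pow_mul μ, mul_comm s s', pow_mul μ', hs, hs', ← pow_mul,
        ← pow_mul, ← pow_add]
      congr 1
      ring
    exact Nat.eq_of_mul_eq_mul_right (Nat.mul_pos s0 s0')
      (Nat.pow_right_injective hQ (by exact_mod_cast this))
  · rw [← L, Obj.proj_box, ← R, hc1, hc2]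
    simpa [c0, c0'] using e3

end Pool.Agent.Lib.MP_40dc3c_ag.T
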