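import Pool.Agent.Lib.MP_40dc3c_ag.T.FDefs

/-! Splitting off one factor of a product of affine Fermat curves. -/

namespace Pool.Agent.Lib.MP_40dc3c_ag.T

open scoped TensorProduct
open Function MvPolynomial

variable {k : Type} [Field k] {ι κ : Type} {m : ℕ}

/-- the coordinate ring of the affine Fermat curve. -/
@[reducible] noncomputable def ferB (k : Type) [Field k] (m : ℕ) : Alg k :=
  ⟨MvPolynomial (Fin 2) k ⧸ Ideal.span {ferP k m}⟩

/-- the ring of `ferA`. -/
abbrev FA (k : Type) [Field k] (ι : Type) (m : ℕ) : Type :=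
  MvPolynomial (ι × Fin 2) k ⧸ ferI k ι m

/-- the ring of `ferB`. -/
abbrev FB (k : Type) [Field k] (m : ℕ) : Type := MvPolynomial (Fin 2) k ⧸ Ideal.span {ferP k m}

theorem ferA_rel (i : ι) :
    ∑ s, (Ideal.Quotient.mk _ (X (i, s)) : FA k ι m) ^ m + 1 = 0 := by
  have : (Ideal.Quotient.mk (ferI k ι m)) (∑ s, X (i, s) ^ m + 1) = 0 :=
    Ideal.Quotient.eq_zero_iff_mem.2 (Ideal.subset_span ⟨i, rfl⟩)
  simpa only [map_add, map_sum, map_pow, map_one] using this

theorem ferB_rel : ∑ s, (Ideal.Quotient.mk _ (X s) : FB k m) ^ m + 1 = 0 := by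
  have : (Ideal.Quotient.mk (Ideal.span {ferP k m})) (∑ s, X s ^ m + 1) = 0 :=
    Ideal.Quotient.eq_zero_iff_mem.2 (Ideal.mem_span_singleton_self _)
  simpa only [map_add, map_sum, map_pow, map_one] using this

section lift

variable {B : Type} [CommRing B] [Algebra k B]

/-- the map from the product of Fermat curves given by a point. -/
noncomputable def ferLift (y : ι × Fin 2 → B) (h : ∀ i, ∑ s, y (i, s) ^ m + 1 = 0) :
    FA k ι m →ₐ[k] B :=
  Ideal.Quotient.liftₐ (ferI k ι m) (aeval y) fun a ha => by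
    have : ferI k ι m ≤ RingHom.ker (aeval y : MvPolynomial (ι × Fin 2) k →ₐ[k] B) := by
      rw [ferI, Ideal.span_le]
      rintro _ ⟨i, rfl⟩
      simpa only [SetLike.mem_coe, RingHom.mem_ker, map_add, map_sum, map_pow, aeval_X, map_one]
        using h i
    exact this ha

@[simp] theorem ferLift_X (y : ι × Fin 2 → B) (h : ∀ i, ∑ s, y (i, s) ^ m + 1 = 0)
    (v : ι × Fin 2) : ferLift (k := k) y h (Ideal.Quotient.mk _ (X v)) = y v := aeval_X y v

theorem ferA_ext {f g : FA k ι m →ₐ[k] B}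
    (h : ∀ v, f (Ideal.Quotient.mk _ (X v)) = g (Ideal.Quotient.mk _ (X v))) : f = g :=
  Ideal.Quotient.algHom_ext k (algHom_ext h)

/-- the map from the Fermat curve given by a point. -/
noncomputable def ferBLift (y : Fin 2 → B) (h : ∑ s, y s ^ m + 1 = 0) : FB k m →ₐ[k] B :=
  Ideal.Quotient.liftₐ (Ideal.span {ferP k m}) (aeval y) fun a ha => by
    obtain ⟨b, rfl⟩ := Ideal.mem_span_singleton'.1 ha
    have : (aeval y : MvPolynomial (Fin 2) k →ₐ[k] B) (ferP k m) = 0 := by
      simpa only [ferP, map_add, map_sum, map_pow, aeval_X, map_one] using h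
    rw [map_mul, this, mul_zero]

@[simp] theorem ferBLift_X (y : Fin 2 → B) (h : ∑ s, y s ^ m + 1 = 0) (s : Fin 2) :
    ferBLift (k := k) y h (Ideal.Quotient.mk _ (X s)) = y s := aeval_X y s

theorem ferB_ext {f g : FB k m →ₐ[k] B}
    (h : ∀ s, f (Ideal.Quotient.mk _ (X s)) = g (Ideal.Quotient.mk _ (X s))) : f = g :=
  Ideal.Quotient.algHom_ext k (algHom_ext h)

end lift

/-- the projection on the factor `i`. -/
noncomputable def ferFac (k : Type) [Field k] (m : ℕ) (i : ι) :
    FB k m →ₐ[k] FA k ι m :=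
  ferBLift (fun s => Ideal.Quotient.mk _ (X (i, s))) (ferA_rel i)

@[simp] theorem ferFac_X (i : ι) (s : Fin 2) :
    ferFac k m i (Ideal.Quotient.mk _ (X s)) = Ideal.Quotient.mk _ (X (i, s)) := ferBLift_X _ _ s

/-- the map given by a map of index sets. -/
noncomputable def ferRen (k : Type) [Field k] (m : ℕ) (f : κ → ι) :
    FA k κ m →ₐ[k] FA k ι m :=
  ferLift (fun v => Ideal.Quotient.mk _ (X (f v.1, v.2))) fun j => ferA_rel (f j)

@[simp] theorem ferRen_X (f : κ → ι) (j : κ) (s : Fin 2) :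
    ferRen k m f (Ideal.Quotient.mk _ (X (j, s))) = Ideal.Quotient.mk _ (X (f j, s)) :=
  ferLift_X _ _ (j, s)

/-- the point of the product with values in the tensor product. -/
noncomputable def ferPt (k : Type) [Field k] (m : ℕ) (κ : Type) (o : Option κ)
    (s : Fin 2) : FB k m ⊗[k] FA k κ m :=
  o.elim (Ideal.Quotient.mk _ (X s) ⊗ₜ 1) fun j => 1 ⊗ₜ Ideal.Quotient.mk _ (X (j, s))

theorem ferPt_rel (o : Option κ) : ∑ s, ferPt k m κ o s ^ m + 1 = 0 := by
  cases o with
  | none =>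
    have := congrArg (Algebra.TensorProduct.includeLeft :
      FB k m →ₐ[k] FB k m ⊗[k] FA k κ m) ferB_rel
    simp only [map_add, map_sum, map_pow, map_one, map_zero] at this
    exact this
  | some j =>
    have := congrArg (Algebra.TensorProduct.includeRight :
      FA k κ m →ₐ[k] FB k m ⊗[k] FA k κ m) (ferA_rel j)
    simp only [map_add, map_sum, map_pow, map_one, map_zero] at this
    exact this

theorem ferT_ext {B : Type} [CommRing B] [Algebra k B] {f g : FB k m ⊗[k] FA k κ m →ₐ[k] B}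
    (h : ∀ o s, f (ferPt k m κ o s) = g (ferPt k m κ o s)) : f = g := by
  have e1 : f.comp Algebra.TensorProduct.includeLeft = g.comp Algebra.TensorProduct.includeLeft :=
    ferB_ext fun s => h none s
  have e2 : f.comp Algebra.TensorProduct.includeRight =
      g.comp Algebra.TensorProduct.includeRight := ferA_ext fun v => h (some v.1) v.2
  refine Algebra.TensorProduct.ext' fun a b => ?_
  have h1 : f (a ⊗ₜ 1) = g (a ⊗ₜ 1) := AlgHom.congr_fun e1 a
  have h2 : f (1 ⊗ₜ b) = g (1 ⊗ₜ b) := AlgHom.congr_fun e2 b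
  rw [← mul_one a, ← one_mul b, ← Algebra.TensorProduct.tmul_mul_tmul, map_mul, map_mul, h1, h2]

/-- the map to the tensor product. -/
noncomputable def ferTo (k : Type) [Field k] (m : ℕ) (e : Option κ ≃ ι) :
    FA k ι m →ₐ[k] FB k m ⊗[k] FA k κ m :=
  ferLift (fun v => ferPt k m κ (e.symm v.1) v.2) fun i => ferPt_rel (e.symm i)

theorem ferTo_X (e : Option κ ≃ ι) (o : Option κ) (s : Fin 2) :
    ferTo k m e (Ideal.Quotient.mk _ (X (e o, s))) = ferPt k m κ o s := by
  rw [ferTo, ferLift_X, e.symm_apply_apply]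

/-- the map from the tensor product. -/
noncomputable def ferFrom (k : Type) [Field k] (m : ℕ) (e : Option κ ≃ ι) :
    FB k m ⊗[k] FA k κ m →ₐ[k] FA k ι m :=
  Algebra.TensorProduct.productMap (ferFac k m (e none)) (ferRen k m fun j => e (some j))

theorem ferFrom_tmul (e : Option κ ≃ ι) (a : FB k m) (b : FA k κ m) : ferFrom k m e (a ⊗ₜ b) =
    ferFac k m (e none) a * ferRen k m (fun j => e (some j)) b := rfl

theorem ferFrom_pt (e : Option κ ≃ ι) (o : Option κ) (s : Fin 2) :
    ferFrom k m e (ferPt k m κ o s) = Ideal.Quotient.mk _ (X (e o, s)) := by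
  cases o with
  | none => exact (ferFrom_tmul e _ _).trans (by rw [map_one, mul_one, ferFac_X])
  | some j => exact (ferFrom_tmul e _ _).trans (by rw [map_one, one_mul, ferRen_X])

/-- splitting off the factor `e none`. Take `e = Equiv.refl _` for `ι = Option κ`, or
`e = Equiv.optionSubtypeNe i`. -/
noncomputable def ferSplit (k : Type) [Field k] (m : ℕ) (e : Option κ ≃ ι) :
    FA k ι m ≃ₐ[k] FB k m ⊗[k] FA k κ m :=
  AlgEquiv.ofAlgHom (ferTo k m e) (ferFrom k m e)
    (ferT_ext (B := FB k m ⊗[k] FA k κ m) fun o s => by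
      rw [AlgHom.comp_apply, ferFrom_pt, ferTo_X, AlgHom.id_apply])
    (ferA_ext fun ⟨i, s⟩ => by
      obtain ⟨o, rfl⟩ := e.surjective i
      rw [AlgHom.comp_apply, ferTo_X, ferFrom_pt, AlgHom.id_apply])

theorem ferSplit_X (e : Option κ ≃ ι) (o : Option κ) (s : Fin 2) :
    ferSplit k m e (Ideal.Quotient.mk _ (X (e o, s))) = ferPt k m κ o s := ferTo_X e o s

@[simp] theorem ferSplit_none (e : Option κ ≃ ι) (s : Fin 2) :
    ferSplit k m e (Ideal.Quotient.mk _ (X (e none, s))) = Ideal.Quotient.mk _ (X s) ⊗ₜ 1 :=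
  ferSplit_X e none s

@[simp] theorem ferSplit_some (e : Option κ ≃ ι) (j : κ) (s : Fin 2) :
    ferSplit k m e (Ideal.Quotient.mk _ (X (e (some j), s))) =
      1 ⊗ₜ Ideal.Quotient.mk _ (X (j, s)) := ferSplit_X e (some j) s

theorem ferSplit_symm (e : Option κ ≃ ι) (a : FB k m) (b : FA k κ m) :
    (ferSplit k m e).symm (a ⊗ₜ b) =
      ferFac k m (e none) a * ferRen k m (fun j => e (some j)) b := rfl

theorem ferSplit_fac (e : Option κ ≃ ι) (a : FB k m) :
    ferSplit k m e (ferFac k m (e none) a) = a ⊗ₜ 1 := by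
  rw [← AlgEquiv.eq_symm_apply, ferSplit_symm, map_one, mul_one]

theorem ferSplit_ren (e : Option κ ≃ ι) (b : FA k κ m) :
    ferSplit k m e (ferRen k m (fun j => e (some j)) b) = 1 ⊗ₜ b := by
  rw [← AlgEquiv.eq_symm_apply, ferSplit_symm, map_one, one_mul]

theorem ferRen_bij (e : κ ≃ ι) : Bijective (ferRen k m e) := by
  have h1 : (ferRen k m e.symm).comp (ferRen k m e) = AlgHom.id k _ :=
    ferA_ext fun ⟨j, s⟩ => by simp
  have h2 : (ferRen k m e).comp (ferRen k m e.symm) = AlgHom.id k _ :=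
    ferA_ext fun ⟨j, s⟩ => by simp
  exact bijective_iff_has_inverse.2 ⟨_, AlgHom.congr_fun h1, AlgHom.congr_fun h2⟩

theorem ferA_empty [IsEmpty ι] : Bijective (algebraMap k (FA k ι m)) := by
  obtain ⟨ψ⟩ : Nonempty (FA k ι m →ₐ[k] k) :=
    ⟨ferLift (fun v => isEmptyElim v.1) fun i => isEmptyElim i⟩
  have h : (Algebra.ofId k (FA k ι m)).comp ψ = AlgHom.id k _ := ferA_ext fun v => isEmptyElim v.1
  exact bijective_iff_has_inverse.2 ⟨ψ, fun a => ψ.commutes a, AlgHom.congr_fun h⟩

theorem ferN_act (ω : kˣ →* ℂˣ) [Fintype ι] [NeZero m] (c : ι × Fin 2 → ℤ) (g) (v : ι × Fin 2) :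
    (ferN ω ι m c).act g (Ideal.Quotient.mk _ (X v)) =
      ((g v).1 : k) • Ideal.Quotient.mk (ferI k ι m) (X v) := by
  change Ideal.Quotient.mk _ (diagAct _ m g (X v)) = _
  rw [diagAct_X, ← smul_eq_C_mul]
  rfl

theorem fer_act (ω : kˣ →* ℂˣ) [NeZero m] (c : Fin 2 → ℤ) (g) (s : Fin 2) :
    (fer ω m c).act g (Ideal.Quotient.mk _ (X s)) =
      ((g s).1 : k) • Ideal.Quotient.mk (Ideal.span {ferP k m}) (X s) := by
  change Ideal.Quotient.mk _ (diagAct _ m g (X s)) = _
  rw [diagAct_X, ← smul_eq_C_mul]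
  rfl

/-- the splitting is equivariant. -/
theorem ferSplit_act (ω : kˣ →* ℂˣ) [Fintype ι] [Fintype κ] [NeZero m] (e : Option κ ≃ ι)
    (c : ι × Fin 2 → ℤ) (c' : Fin 2 → ℤ) (c'' : κ × Fin 2 → ℤ)
    (g : ι × Fin 2 → rootsOfUnity m k) (a) :
    ferSplit k m e ((ferN ω ι m c).act g a) =
      Algebra.TensorProduct.map ((fer ω m c').act fun s => g (e none, s))
        ((ferN ω κ m c'').act fun v => g (e (some v.1), v.2)) (ferSplit k m e a) := by
  have h : (ferTo k m e).comp ((ferN ω ι m c).act g) =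
      (Algebra.TensorProduct.map ((fer ω m c').act fun s => g (e none, s))
        ((ferN ω κ m c'').act fun v => g (e (some v.1), v.2))).comp (ferTo k m e) := by
    refine ferA_ext (B := FB k m ⊗[k] FA k κ m) fun v => ?_
    obtain ⟨i, s⟩ := v
    obtain ⟨o, rfl⟩ := e.surjective i
    rw [AlgHom.comp_apply, AlgHom.comp_apply, ferN_act, map_smul, ferTo_X]
    cases o with
    | none =>
      refine Eq.trans ?_ (Algebra.TensorProduct.map_tmul _ _ _ _).symm
      rw [fer_act, map_one, ← TensorProduct.smul_tmul']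
      rfl
    | some j =>
      refine Eq.trans ?_ (Algebra.TensorProduct.map_tmul _ _ _ _).symm
      rw [ferN_act, map_one, TensorProduct.tmul_smul]
      rfl
  exact AlgHom.congr_fun h a

end Pool.Agent.Lib.MP_40dc3c_ag.T
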