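import Pool.Agent.Lib.MP_40dc3c_ag.T.BDefs
import Pool.Agent.Lib.MP_40dc3c_ag.T.KDim

/-! Domains: tensor products over an algebraically closed field, Fermat and Artin-Schreier
equations. -/

namespace Pool.Agent.Lib.MP_40dc3c_ag.T

open scoped TensorProduct
open Function hiding eval
open MvPolynomial

set_option linter.style.haveILetI false

variable {k : Type} [Field k]

section ten

variable {A B : Type} [CommRing A] [Algebra k A] [CommRing B] [Algebra k B]

theorem dom_pt [IsAlgClosed k] [Algebra.FiniteType k A] (P : Ideal A) [hP : P.IsPrime] {a : A}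
    (ha : a ∉ P) : ∃ φ : A →ₐ[k] k, (∀ x ∈ P, φ x = 0) ∧ φ a ≠ 0 := by
  have : IsJacobsonRing A := isJacobsonRing_of_finiteType (A := k)
  rw [← IsJacobsonRing.out' P hP.isRadical, Ideal.jacobson, Ideal.mem_sInf] at ha
  push Not at ha
  obtain ⟨M, ⟨h1, h2⟩, h3⟩ := ha
  letI := Ideal.Quotient.field M
  haveI : Module.Finite k (A ⧸ M) := finite_of_finite_type_of_isJacobsonRing k (A ⧸ M)
  let e : k ≃ₐ[k] A ⧸ M :=
    AlgEquiv.ofBijective (Algebra.ofId k _) IsAlgClosed.algebraMap_bijective_of_isIntegral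
  refine ⟨e.symm.toAlgHom.comp (Ideal.Quotient.mkₐ k M), fun x hx => ?_, fun h => h3 ?_⟩
  · change e.symm (Ideal.Quotient.mk M x) = 0
    rw [Ideal.Quotient.eq_zero_iff_mem.2 (h1 hx), map_zero]
  · exact Ideal.Quotient.eq_zero_iff_mem.1 ((map_eq_zero_iff e.symm e.symm.injective).1 h)

theorem isDomain_ten [IsAlgClosed k] [Algebra.FiniteType k A] [IsDomain A] [IsDomain B] :
    IsDomain (A ⊗[k] B) := by
  let b := Module.Free.chooseBasis k B
  let φ : (A →ₐ[k] k) → (A ⊗[k] B →ₐ[k] B) := fun p =>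
    Algebra.TensorProduct.lift ((Algebra.ofId k B).comp p) (AlgHom.id k B)
      fun _ _ => Commute.all _ _
  have key : ∀ (p : A →ₐ[k] k) x i,
      b.repr (φ p x) i = p ((Algebra.TensorProduct.basis A b).repr x i) := fun p x i => by
    induction x with
    | zero => simp
    | add x y hx hy => simp [hx, hy]
    | tmul a a' =>
      have : φ p (a ⊗ₜ a') = p a • a' := by simp [φ, Algebra.smul_def, Algebra.ofId_apply]
      simp [this]
  obtain ⟨p₀, -, -⟩ := dom_pt (k := k) (⊥ : Ideal A) (a := 1) (by simp)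
  have : Nontrivial (A ⊗[k] B) := (φ p₀).toRingHom.domain_nontrivial
  have : NoZeroDivisors (A ⊗[k] B) := ⟨fun {x y} e => by
    by_contra hn
    rw [not_or] at hn
    obtain ⟨i, hi⟩ := Finsupp.ne_iff.1
      ((map_ne_zero_iff _ (Algebra.TensorProduct.basis A b).repr.injective).2 hn.1)
    obtain ⟨j, hj⟩ := Finsupp.ne_iff.1
      ((map_ne_zero_iff _ (Algebra.TensorProduct.basis A b).repr.injective).2 hn.2)
    obtain ⟨p, -, hp⟩ := dom_pt (k := k) (⊥ : Ideal A) (a := _ * _) fun h =>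
      mul_ne_zero hi hj (Ideal.mem_bot.1 h)
    rw [map_mul, ← key, ← key] at hp
    have := congrArg (φ p) e
    rw [map_mul, map_zero, mul_eq_zero] at this
    rcases this with h | h <;> simp [h] at hp⟩
  exact NoZeroDivisors.to_isDomain _

theorem dom_map_inj {A' B' : Type} [CommRing A'] [Algebra k A'] [CommRing B'] [Algebra k B']
    (f : A →ₐ[k] A') (g : B →ₐ[k] B') (hf : Injective f) (hg : Injective g) :
    Injective (Algebra.TensorProduct.map f g) :=
  TensorProduct.map_injective_of_flat_flat f.toLinearMap g.toLinearMap hf hg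

theorem trdeg_ten [Algebra.FiniteType k A] [Algebra.FiniteType k B] [IsDomain A] [IsDomain B]
    [IsDomain (A ⊗[k] B)] :
    Algebra.trdeg k (A ⊗[k] B) = Algebra.trdeg k A + Algebra.trdeg k B := by
  obtain ⟨s, f, hf, hf'⟩ := exists_finite_inj_algHom_of_fg k A
  obtain ⟨t, g, hg, hg'⟩ := exists_finite_inj_algHom_of_fg k B
  let e : MvPolynomial (Fin (s + t)) k ≃ₐ[k] MvPolynomial (Fin s) k ⊗[k] MvPolynomial (Fin t) k :=
    (renameEquiv k finSumFinEquiv.symm).trans (tensorEquivSum k (Fin s) (Fin t) k).symm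
  rw [trdeg_nn f hf hf', trdeg_nn g hg hg',
    trdeg_nn ((Algebra.TensorProduct.map f g).comp e.toAlgHom)
      ((dom_map_inj f g hf hg).comp e.injective)
      (AlgHom.Finite.comp (RingHom.Finite.tensorProductMap hf' hg') (.of_surjective _ e.surjective)),
    Nat.cast_add]

/-- the ideal of the product of two closed parts. -/
noncomputable def boxI (k : Type) [Field k] {A B : Type} [CommRing A] [Algebra k A] [CommRing B]
    [Algebra k B] (P : Ideal A) (Q : Ideal B) : Ideal (A ⊗[k] B) :=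
  P.map (Algebra.TensorProduct.includeLeft : A →ₐ[k] A ⊗[k] B) ⊔
    Q.map (Algebra.TensorProduct.includeRight : B →ₐ[k] A ⊗[k] B)

theorem boxI_eq_ker (P : Ideal A) (Q : Ideal B) : boxI k P Q =
    RingHom.ker (Algebra.TensorProduct.map (Ideal.Quotient.mkₐ k P) (Ideal.Quotient.mkₐ k Q)) := by
  rw [Algebra.TensorProduct.map_ker _ _ (Ideal.Quotient.mkₐ_surjective k P)
    (Ideal.Quotient.mkₐ_surjective k Q),
    show RingHom.ker (Ideal.Quotient.mkₐ k P) = P from Ideal.mk_ker,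
    show RingHom.ker (Ideal.Quotient.mkₐ k Q) = Q from Ideal.mk_ker, boxI]

/-- the ring of the product of two closed parts. -/
noncomputable def boxEquiv (P : Ideal A) (Q : Ideal B) :
    ((A ⊗[k] B) ⧸ boxI k P Q) ≃ₐ[k] (A ⧸ P) ⊗[k] (B ⧸ Q) :=
  (Ideal.quotientEquivAlgOfEq k (boxI_eq_ker P Q)).trans
    (Ideal.quotientKerAlgEquivOfSurjective (Algebra.TensorProduct.map_surjective _ _
      (Ideal.Quotient.mkₐ_surjective k P) (Ideal.Quotient.mkₐ_surjective k Q)))

theorem boxI_prime [IsAlgClosed k] [Algebra.FiniteType k A] (P : Ideal A) (Q : Ideal B)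
    [P.IsPrime] [Q.IsPrime] : (boxI k P Q).IsPrime := by
  have : IsDomain ((A ⧸ P) ⊗[k] (B ⧸ Q)) := isDomain_ten
  rw [boxI_eq_ker]
  exact RingHom.ker_isPrime _

theorem trdeg_boxI [IsAlgClosed k] [Algebra.FiniteType k A] [Algebra.FiniteType k B] (P : Ideal A)
    (Q : Ideal B) [P.IsPrime] [Q.IsPrime] : Algebra.trdeg k ((A ⊗[k] B) ⧸ boxI k P Q) =
      Algebra.trdeg k (A ⧸ P) + Algebra.trdeg k (B ⧸ Q) := by
  have : IsDomain ((A ⧸ P) ⊗[k] (B ⧸ Q)) := isDomain_ten
  rw [(boxEquiv P Q).trdeg_eq, trdeg_ten]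

end ten

section eis

variable {n : ℕ}

theorem dom_sq {σ : Type} (x : σ → k) (i : σ) {a : MvPolynomial σ k}
    (h : a ∈ RingHom.ker (eval x) ^ 2) : eval x (pderiv i a) = 0 := by
  rw [pow_two] at h
  refine Submodule.mul_induction_on h (fun u hu v hv => ?_) fun u v hu hv => ?_
  · rw [Derivation.leibniz, map_add, smul_eq_mul, smul_eq_mul, map_mul, map_mul,
      RingHom.mem_ker.1 hu, RingHom.mem_ker.1 hv, zero_mul, zero_mul, add_zero]
  · rw [map_add, map_add, hu, hv, add_zero]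

theorem dom_irr {σ : Type} {a : MvPolynomial σ k} (x : σ → k) (i : σ) (h0 : eval x a = 0)
    (h1 : eval x (pderiv i a) ≠ 0) {m : ℕ} (hm : m ≠ 0) :
    Irreducible (Polynomial.X ^ m + Polynomial.C a) := by
  have hmon := Polynomial.monic_X_pow_add_C a hm
  have hdeg := Polynomial.degree_X_pow_add_C (Nat.pos_of_ne_zero hm) a
  refine Polynomial.irreducible_of_eisenstein_criterion (RingHom.ker_isPrime (eval x)) ?_
    (fun j hj => ?_) ?_ (fun h => h1 (dom_sq x i ?_)) hmon.isPrimitive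
  · rw [hmon.leadingCoeff, RingHom.mem_ker, map_one]
    exact one_ne_zero
  · rw [hdeg, Nat.cast_lt] at hj
    rw [Polynomial.coeff_add, Polynomial.coeff_X_pow, if_neg hj.ne, zero_add, Polynomial.coeff_C,
      RingHom.mem_ker]
    split_ifs
    · exact h0
    · exact map_zero _
  · rw [hdeg]
    exact_mod_cast Nat.pos_of_ne_zero hm
  · rwa [Polynomial.coeff_add, Polynomial.coeff_X_pow, if_neg hm.symm, zero_add,
      Polynomial.coeff_C_zero] at h

theorem dom_succ (a : MvPolynomial (Fin n) k) :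
    finSuccEquiv k n (rename Fin.succ a) = Polynomial.C a := by
  induction a using MvPolynomial.induction_on with
  | C c => rw [rename_C]; exact (finSuccEquiv k n).commutes c
  | add p q hp hq => rw [map_add, map_add, hp, hq, map_add]
  | mul_X p j hp => rw [map_mul, map_mul, hp, rename_X, finSuccEquiv_X_succ, map_mul]

theorem dom_fs (a : MvPolynomial (Fin n) k) (m : ℕ) :
    finSuccEquiv k n (X 0 ^ m + rename Fin.succ a) = Polynomial.X ^ m + Polynomial.C a := by
  rw [map_add, map_pow, finSuccEquiv_X_zero, dom_succ]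

/-- `x ^ m + a` is prime when `a` has a simple zero. -/
theorem prime_pow_add {a : MvPolynomial (Fin n) k} (x : Fin n → k) (i : Fin n) (h0 : eval x a = 0)
    (h1 : eval x (pderiv i a) ≠ 0) {m : ℕ} (hm : m ≠ 0) :
    Prime (X 0 ^ m + rename Fin.succ a : MvPolynomial (Fin (n + 1)) k) := by
  rw [← MulEquiv.prime_iff (finSuccEquiv k n)]
  exact (dom_fs a m).symm ▸ (dom_irr x i h0 h1 hm).prime

theorem trdeg_pow_add (a : MvPolynomial (Fin n) k) {m : ℕ} (hm : m ≠ 0)
    (hp : Prime (X 0 ^ m + rename Fin.succ a : MvPolynomial (Fin (n + 1)) k)) :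
    Algebra.trdeg k (MvPolynomial (Fin (n + 1)) k ⧸
      Ideal.span {(X 0 ^ m + rename Fin.succ a : MvPolynomial (Fin (n + 1)) k)}) = n := by
  set f : Polynomial (MvPolynomial (Fin n) k) := Polynomial.X ^ m + Polynomial.C a with hf
  have hmon : f.Monic := Polynomial.monic_X_pow_add_C a hm
  have hdeg : f.degree = m := Polynomial.degree_X_pow_add_C (Nat.pos_of_ne_zero hm) a
  let e : (MvPolynomial (Fin (n + 1)) k ⧸
      Ideal.span {(X 0 ^ m + rename Fin.succ a : MvPolynomial (Fin (n + 1)) k)}) ≃ₐ[k]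
      AdjoinRoot f := Ideal.quotientEquivAlg _ (Ideal.span {f}) (finSuccEquiv k n) (by
    rw [Ideal.map_span, Set.image_singleton]
    exact congrArg (fun y => Ideal.span {y}) (dom_fs a m).symm)
  have : (Ideal.span {(X 0 ^ m + rename Fin.succ a : MvPolynomial (Fin (n + 1)) k)}).IsPrime :=
    (Ideal.span_singleton_prime hp.ne_zero).2 hp
  have : IsDomain (AdjoinRoot f) := e.symm.toMulEquiv.isDomain
  have : Module.Finite (MvPolynomial (Fin n) k) (AdjoinRoot f) :=
    (AdjoinRoot.powerBasis' hmon).finite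
  rw [e.trdeg_eq]
  exact trdeg_nn (AdjoinRoot.ofAlgHom k f) (AdjoinRoot.of.injective_of_degree_ne_zero
    (by rw [hdeg]; exact_mod_cast hm)) (RingHom.finite_algebraMap.2 this)

theorem dom_sum (m : ℕ) (c : k) : (∑ i, X i ^ m + C c : MvPolynomial (Fin (n + 1)) k) =
    X 0 ^ m + rename Fin.succ (∑ i, X i ^ m + C c : MvPolynomial (Fin n) k) := by
  simp [Fin.sum_univ_succ, add_assoc]

theorem dom_ev (m : ℕ) (c : k) (x : Fin n → k) (i : Fin n) :
    eval x (pderiv i (∑ i, X i ^ m + C c : MvPolynomial (Fin n) k)) = m * x i ^ (m - 1) := by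
  classical
  rw [map_add, pderiv_C, add_zero, map_sum, map_sum, Finset.sum_eq_single i]
  · simp
  · intro j _ hj
    simp [pderiv_X_of_ne hj]
  · simp

/-- the affine Fermat equation in at least two variables is prime. -/
theorem prime_fermat_aff [IsAlgClosed k] {m : ℕ} (hm : (m : k) ≠ 0) {c : k} (hc : c ≠ 0) :
    Prime (∑ i, X i ^ m + C c : MvPolynomial (Fin (n + 2)) k) := by
  have hm0 : m ≠ 0 := by rintro rfl; simp at hm
  obtain ⟨ε, hε⟩ := IsAlgClosed.exists_pow_nat_eq (-c) (Nat.pos_of_ne_zero hm0)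
  have hε0 : ε ≠ 0 := by
    rintro rfl
    rw [zero_pow hm0] at hε
    exact hc (neg_eq_zero.1 hε.symm)
  rw [dom_sum]
  refine prime_pow_add (Fin.cons ε 0) 0 ?_ ?_ hm0
  · simp [Fin.sum_univ_succ, hε, hm0]
  · rw [dom_ev]
    exact mul_ne_zero hm (pow_ne_zero _ hε0)

/-- the Fermat form in at least three variables is prime. -/
theorem prime_fermat [IsAlgClosed k] {m : ℕ} (hm : (m : k) ≠ 0) :
    Prime (∑ i, X i ^ m : MvPolynomial (Fin (n + 3)) k) := by
  have hm0 : m ≠ 0 := by rintro rfl; simp at hm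
  obtain ⟨ε, hε⟩ := IsAlgClosed.exists_pow_nat_eq (-1 : k) (Nat.pos_of_ne_zero hm0)
  have h := dom_sum (n := n + 2) m (0 : k)
  rw [map_zero, add_zero] at h
  rw [h]
  refine prime_pow_add (Fin.cons 1 (Fin.cons ε 0)) 0 ?_ ?_ hm0
  · simp [Fin.sum_univ_succ, hε, hm0]
  · rw [dom_ev]
    simpa using hm

theorem trdeg_fermat_aff [IsAlgClosed k] {m : ℕ} (hm : (m : k) ≠ 0) {c : k} (hc : c ≠ 0) :
    Algebra.trdeg k (MvPolynomial (Fin (n + 2)) k ⧸
      Ideal.span {(∑ i, X i ^ m + C c : MvPolynomial (Fin (n + 2)) k)}) = (n + 1 : ℕ) := by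
  have hm0 : m ≠ 0 := by rintro rfl; simp at hm
  have h := prime_fermat_aff (n := n) hm hc
  rw [dom_sum] at h ⊢
  exact trdeg_pow_add _ hm0 h

theorem trdeg_fermat [IsAlgClosed k] {m : ℕ} (hm : (m : k) ≠ 0) :
    Algebra.trdeg k (MvPolynomial (Fin (n + 3)) k ⧸
      Ideal.span {(∑ i, X i ^ m : MvPolynomial (Fin (n + 3)) k)}) = (n + 2 : ℕ) := by
  have hm0 : m ≠ 0 := by rintro rfl; simp at hm
  have h := prime_fermat (n := n) hm
  have e := dom_sum (n := n + 2) m (0 : k)
  rw [map_zero, add_zero] at e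
  rw [e] at h ⊢
  exact trdeg_pow_add _ hm0 h

theorem prime_ferP [IsAlgClosed k] {m : ℕ} (hm : (m : k) ≠ 0) : Prime (ferP k m) := by
  have := prime_fermat_aff (n := 0) hm (one_ne_zero (α := k))
  rwa [map_one] at this

theorem isPrime_fer [IsAlgClosed k] {m : ℕ} (hm : (m : k) ≠ 0) :
    (Ideal.span {ferP k m}).IsPrime :=
  (Ideal.span_singleton_prime (prime_ferP hm).ne_zero).2 (prime_ferP hm)

theorem trdeg_fer [IsAlgClosed k] {m : ℕ} (hm : (m : k) ≠ 0) :
    Algebra.trdeg k (MvPolynomial (Fin 2) k ⧸ Ideal.span {ferP k m}) = 1 := by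
  have := trdeg_fermat_aff (n := 0) hm (one_ne_zero (α := k))
  rw [map_one] at this
  exact this.trans (by simp)

theorem dom_eas (Q d : ℕ) : easP k Q d =
    -(X 0 ^ d + rename Fin.succ (X 0 - X 0 ^ Q : MvPolynomial (Fin 1) k)) := by
  simp only [easP, map_sub, map_pow, rename_X, Fin.succ_zero_eq_one]
  ring

theorem dom_eas_prime {Q d : ℕ} (hQ : 1 < Q) (hd : d ≠ 0) : Prime (X 0 ^ d +
    rename Fin.succ (X 0 - X 0 ^ Q : MvPolynomial (Fin 1) k) : MvPolynomial (Fin 2) k) := by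
  refine prime_pow_add 0 0 ?_ ?_ hd
  · simp [(zero_lt_one.trans hQ).ne']
  · simp [Nat.sub_ne_zero_of_lt hQ]

theorem prime_easP {Q d : ℕ} (hQ : 1 < Q) (hd : d ≠ 0) : Prime (easP k Q d) := by
  rw [dom_eas]
  exact (dom_eas_prime hQ hd).neg

theorem isPrime_eas {Q d : ℕ} (hQ : 1 < Q) (hd : d ≠ 0) : (Ideal.span {easP k Q d}).IsPrime :=
  (Ideal.span_singleton_prime (prime_easP hQ hd).ne_zero).2 (prime_easP hQ hd)

theorem trdeg_eas {Q d : ℕ} (hQ : 1 < Q) (hd : d ≠ 0) :
    Algebra.trdeg k (MvPolynomial (Fin 2) k ⧸ Ideal.span {easP k Q d}) = 1 := by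
  rw [dom_eas, Ideal.span_singleton_neg]
  exact (trdeg_pow_add _ hd (dom_eas_prime hQ hd)).trans (by simp)

end eis

end Pool.Agent.Lib.MP_40dc3c_ag.T
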