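import Pool.Agent.Lib.MP_40dc3c_ag.T.E2a
import Pool.Agent.Lib.MP_40dc3c_ag.T.B7a
import Pool.Agent.Lib.MP_40dc3c_ag.T.Dom

/-! The Frobenius map of a product of Fermat curves. -/

namespace Pool.Agent.Lib.MP_40dc3c_ag.T

open scoped TensorProduct
open Function

open MvPolynomial

variable {k : Type} [Field k] [IsAlgClosed k] (ω : kˣ →* ℂˣ) (p : ℕ) [Fact p.Prime] [CharP k p]

theorem ferP_prime (m : ℕ) [NeZero m] (hm : ¬p ∣ m) : (Ideal.span {ferP k m}).IsPrime :=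
  isPrime_fer (by rwa [Ne, CharP.cast_eq_zero_iff k p])

theorem e2_curve (halg : ∀ x : kˣ, IsOfFinOrder x) {m : ℕ} [NeZero m] (hm : ¬p ∣ m) (f : ℕ)
    {φ : FB k m →ₐ[k] FB k m} (hφ : φ.toRingHom.Finite)
    (h : ∀ s, φ (Ideal.Quotient.mk _ (X s)) = Ideal.Quotient.mk _ (X s) ^ p ^ f) :
    push _ hφ (q ⊥) - ((p ^ f : ℕ) : ℂ) • q ⊥ ∈
      e2T (ι := Unit) (ferB k m) fun v => Ideal.Quotient.mk _ (X v.2) := by
  have hp : p.Prime := Fact.out
  have := ferP_prime (k := k) p m hm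
  let B := FB k m
  have inj : (⊥ : Ideal B).comap φ = ⊥ := eq_bot_iff.2 fun a ha => by
    obtain ⟨s, hs, e⟩ := e2_pow p halg (e2_adj _) h a
    obtain ⟨s, rfl⟩ := Nat.exists_eq_add_one_of_ne_zero hs.ne'
    rw [pow_succ, AlgHom.mul_apply, show φ a = 0 from ha, map_zero] at e
    exact pow_eq_zero_iff (pow_pos (pow_pos hp.pos _) _).ne' |>.1 e.symm
  let g0 : MvPolynomial (Fin 1) k →ₐ[k] B := aeval fun _ => Ideal.Quotient.mk _ (X 0)
  have f0 : g0.toRingHom.Finite := e2_fin (e2_adj _) one_pos fun s => by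
    have r := ferB_rel (k := k) (m := m)
    rw [Fin.sum_univ_two] at r
    fin_cases s
    · exact ⟨1, one_pos, X 0, by simp [g0]⟩
    · exact ⟨m, NeZero.pos m, -(X 0 ^ m + 1), by
        simp only [g0, AlgHom.toRingHom_eq_coe, RingHom.coe_coe, map_neg, map_add, map_pow, aeval_X,
          map_one]
        exact neg_eq_of_add_eq_zero_right (by rw [← r]; simp; ring)⟩
  have i0 : Injective g0 := by
    by_contra hn
    have := trdeg_lt_nn g0 hn f0
    rw [trdeg_fer (by rwa [Ne, CharP.cast_eq_zero_iff k p])] at this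
    simp at this
  have := push_frob φ hφ Ideal.isPrime_bot inj (pow_pos hp.pos f)
    ((Ideal.Quotient.mkₐ k ⊥).comp g0)
    (((RingHom.injective_iff_ker_eq_bot (Ideal.Quotient.mk ⊥)).2 Ideal.mk_ker).comp i0)
    ((RingHom.Finite.of_surjective _ Ideal.Quotient.mk_surjective).comp f0)
    (fun _ => Ideal.Quotient.mk _ (X 0)) (fun _ => by simp [g0]) fun _ => h 0
  rw [pow_one] at this
  refine Submodule.span_mono ?_ this
  rintro _ ⟨P, hP, ht, rfl⟩
  have : Algebra.IsAlgebraic k (B ⧸ P) :=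
    trdeg_eq_zero_iff.1 (Cardinal.lt_one_iff.1 (by simpa using ht))
  choose α hα using fun s : Fin 2 => IsAlgClosed.algebraMap_bijective_of_isIntegral (k := k)
    (K := B ⧸ P) |>.2 (Ideal.Quotient.mk P (Ideal.Quotient.mk _ (X s)))
  exact ⟨P, (), α, fun s => Ideal.Quotient.eq.1 (hα s).symm, rfl⟩

omit [IsAlgClosed k] in
theorem e2_ex (m f : ℕ) (ι : Type) [Finite ι] : ∃ φ : FA k ι m →ₐ[k] FA k ι m,
    φ.toRingHom.Finite ∧
      ∀ v, φ (Ideal.Quotient.mk _ (X v)) = Ideal.Quotient.mk _ (X v) ^ p ^ f := by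
  have hQ : 0 < p ^ f := pow_pos (Fact.out : p.Prime).pos f
  let φ : FA k ι m →ₐ[k] FA k ι m := ferLift (fun v => Ideal.Quotient.mk _ (X v) ^ p ^ f)
    fun i => e2_relQ (k := k) p f (ferA_rel i)
  have h : ∀ v, φ (Ideal.Quotient.mk _ (X v)) = Ideal.Quotient.mk _ (X v) ^ p ^ f := ferLift_X _ _
  exact ⟨φ, e2_fin (e2_adj _) hQ fun v => ⟨_, hQ, _, h v⟩, h⟩

omit [IsAlgClosed k] in
theorem e2_exB (m f : ℕ) : ∃ φ : FB k m →ₐ[k] FB k m, φ.toRingHom.Finite ∧
    ∀ v, φ (Ideal.Quotient.mk _ (X v)) = Ideal.Quotient.mk _ (X v) ^ p ^ f := by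
  have hQ : 0 < p ^ f := pow_pos (Fact.out : p.Prime).pos f
  let φ : FB k m →ₐ[k] FB k m := ferBLift (fun v => Ideal.Quotient.mk _ (X v) ^ p ^ f)
    (e2_relQ (k := k) p f ferB_rel)
  have h : ∀ v, φ (Ideal.Quotient.mk _ (X v)) = Ideal.Quotient.mk _ (X v) ^ p ^ f := ferBLift_X _ _
  exact ⟨φ, e2_fin (e2_adj _) hQ fun v => ⟨_, hQ, _, h v⟩, h⟩

omit [IsAlgClosed k] in
theorem e2_comm {m Q : ℕ} {α : Type} {φ : FA k (Option α) m →ₐ[k] FA k (Option α) m}
    {χ : FB k m →ₐ[k] FB k m} {ψ : FA k α m →ₐ[k] FA k α m}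
    (h : ∀ v, φ (Ideal.Quotient.mk _ (X v)) = Ideal.Quotient.mk _ (X v) ^ Q)
    (h1 : ∀ v, χ (Ideal.Quotient.mk _ (X v)) = Ideal.Quotient.mk _ (X v) ^ Q)
    (h2 : ∀ v, ψ (Ideal.Quotient.mk _ (X v)) = Ideal.Quotient.mk _ (X v) ^ Q) :
    (ferTo k m (Equiv.refl _)).comp φ =
      (Algebra.TensorProduct.map χ ψ).comp (ferTo k m (Equiv.refl _)) := by
  refine ferA_ext (B := FB k m ⊗[k] FA k α m) fun v => ?_
  obtain ⟨o, s⟩ := v
  have e : ferTo k m (Equiv.refl _) (Ideal.Quotient.mk _ (X (o, s))) = ferPt k m α o s :=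
    ferTo_X (Equiv.refl _) o s
  suffices ferTo k m (Equiv.refl _) (φ (Ideal.Quotient.mk _ (X (o, s)))) =
      Algebra.TensorProduct.map χ ψ (ferTo k m (Equiv.refl _) (Ideal.Quotient.mk _ (X (o, s)))) from
    this
  rw [h, e]
  refine ((ferTo k m (Equiv.refl (Option α))).toRingHom.map_pow _ Q).trans
    ((congrArg (· ^ Q) e).trans ?_)
  cases o with
  | none =>
    refine Eq.trans ?_ (Algebra.TensorProduct.map_tmul _ _ _ _).symm
    rw [h1, map_one]
    exact (Algebra.TensorProduct.tmul_pow _ _ _).trans (by rw [one_pow])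
  | some j =>
    refine Eq.trans ?_ (Algebra.TensorProduct.map_tmul _ _ _ _).symm
    rw [h2, map_one]
    exact (Algebra.TensorProduct.tmul_pow _ _ _).trans (by rw [one_pow])

theorem e2_main (halg : ∀ x : kˣ, IsOfFinOrder x) {m : ℕ} [NeZero m] (hm : ¬p ∣ m) (f : ℕ)
    (ι : Type) [Finite ι] : ∀ [Fintype ι] (φ : FA k ι m →ₐ[k] FA k ι m)
      (hφ : φ.toRingHom.Finite),
      (∀ v, φ (Ideal.Quotient.mk _ (X v)) = Ideal.Quotient.mk _ (X v) ^ p ^ f) →
      push _ hφ (q ⊥) - ((p ^ f : ℕ) : ℂ) ^ Fintype.card ι • q ⊥ ∈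
        e2T (ferA k ι m) fun v => Ideal.Quotient.mk _ (X v) := by
  induction ι using Finite.induction_empty_option with
  | @of_equiv α β e ih =>
    intro _ φ hφ h
    letI := Fintype.ofEquiv β e.symm
    obtain ⟨ψ, hψ, h'⟩ := e2_ex (k := k) p m f α
    have hc : (ferRen k m e.symm).comp φ = ψ.comp (ferRen k m e.symm) := ferA_ext fun v => by
      obtain ⟨j, s⟩ := v
      rw [AlgHom.comp_apply, AlgHom.comp_apply, h, map_pow, ferRen_X, h']
    rw [← Fintype.card_congr e]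
    exact e2_transport (A := ferA k β m) (A' := ferA k α m) (ferRen k m e.symm)
      (ferRen_bij e.symm) (fun j => ⟨e j, fun s => by rw [ferRen_X, e.symm_apply_apply]⟩) hφ hψ hc
      (ih ψ hψ h')
  | h_empty =>
    intro _ φ hφ _
    have e : φ = AlgHom.id k _ := ferA_ext fun v => v.1.elim
    subst e
    have e' : push _ hφ (q ⊥) = q ⊥ := push_id hφ (q ⊥)
    rw [Fintype.card_eq_zero, pow_zero, one_smul, e', sub_self]
    exact zero_mem _
  | @h_option α _ ih =>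
    intro inst φ hφ h
    obtain rfl : inst = instFintypeOption := Subsingleton.elim _ _
    obtain ⟨ψ, hψ, h2⟩ := e2_ex (k := k) p m f α
    obtain ⟨χ, hχ, h1⟩ := e2_exB (k := k) p m f
    rw [Fintype.card_option, pow_succ']
    have hT := e2_ten (A := ferB k m) (B := ferA k α m) (μ := Option α)
      (z := fun v => ferPt k m α v.1 v.2) (fun _ => ⟨none, fun _ => rfl⟩)
      (fun i => ⟨some i, fun _ => rfl⟩) hχ hψ (e2_curve p halg hm f hχ h1) (ih ψ hψ h2)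
      (RingHom.Finite.tensorProductMap hχ hψ)
    exact e2_transport (A := ferA k (Option α) m) (A' := (ferB k m).ten (ferA k α m))
      (ferTo k m (Equiv.refl _)) (ferSplit k m (Equiv.refl _)).bijective
      (fun j => ⟨j, fun s => ferTo_X (Equiv.refl _) j s⟩) hφ _ (e2_comm h h1 h2) hT

/-- a functional that kills the parts of the diagonal over a point of one factor sees the degree
of Frobenius. -/
theorem exists_frob (halg : ∀ x : kˣ, IsOfFinOrder x) (ι : Type) [Fintype ι] (m : ℕ) [NeZero m]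
    (f : ℕ) (hf : 0 < f) (hm : m ∣ p ^ f - 1) :
    ∃ (φ : (ferA k ι m).R →ₐ[k] (ferA k ι m).R) (hφ : φ.toRingHom.Finite),
      (∀ (c : ι × Fin 2 → ℤ) g a, φ ((ferN ω ι m c).act g a) = (ferN ω ι m c).act g (φ a)) ∧
      (∀ a, ∃ s, 0 < s ∧ (φ ^ s) a = a ^ (p ^ f) ^ s) ∧
      ∀ Λ : KK (ferA k ι m) (ferA k ι m) →ₗ[ℂ] ℂ,
        (∀ (J : Ideal ((ferA k ι m).R ⊗[k] (ferA k ι m).R)) (i : ι) (α : Fin 2 → k),
          RingHom.ker (Algebra.TensorProduct.lmul' k) ≤ J →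
          (∀ s, Ideal.Quotient.mk _ (X (i, s) - C (α s)) ⊗ₜ 1 ∈ J) → Λ (q J) = 0) →
        Λ (pushL φ hφ _ (pushR _ φ hφ (diag (ferA k ι m)))) =
          ((p ^ f : ℕ) : ℂ) ^ Fintype.card ι * Λ (diag (ferA k ι m)) := by
  have hp : p.Prime := Fact.out
  have hQ : 0 < p ^ f := pow_pos hp.pos f
  have hpm : ¬p ∣ m := fun h => hp.one_lt.ne' (Nat.dvd_one.1
    ((Nat.dvd_sub_iff_right hQ (dvd_pow_self p hf.ne')).1 (h.trans hm)))
  obtain ⟨φ, hφ, h⟩ := e2_ex (k := k) p m f ι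
  refine ⟨φ, hφ, fun c g a => ?_, e2_pow p halg (e2_adj _) h, fun Λ hΛ =>
    e2_last (A := ferA k ι m) hφ (e2_main p halg hpm f ι φ hφ h) Λ hΛ⟩
  have hc : φ.comp ((ferN ω ι m c).act g) = ((ferN ω ι m c).act g).comp φ := ferA_ext fun v => by
    have e2 : ((g v).1 : k) ^ p ^ f = (g v).1 := by
      obtain ⟨t, ht⟩ := hm
      rw [← Nat.sub_add_cancel hQ, ht, pow_succ, pow_mul, (mem_rootsOfUnity' _ _).1 (g v).2,
        one_pow, one_mul]
    rw [AlgHom.comp_apply, AlgHom.comp_apply, h, map_pow, ferN_act, map_smul, h, smul_pow, e2]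
  exact AlgHom.congr_fun hc a

end Pool.Agent.Lib.MP_40dc3c_ag.T
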