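import Pool.Agent.Lib.MP_40dc3c_ag.T.Clo

/-! Multigraded pieces of ideals; the ideal of the Fermat product is saturated. -/

namespace Pool.Agent.Lib.MP_40dc3c_ag.T

open Function hiding eval
open MvPolynomial Submodule Module Filter

variable {k : Type} [Field k] {J : Type}

/-- forms of a given multidegree. -/
noncomputable abbrev cmH (k : Type) [Field k] {J : Type} (n : J → ℕ) : Submodule k (Pl k J) :=
  weightedHomogeneousSubmodule k wt n

/-- the ideal is generated by forms. -/
def CmHom (I : Ideal (Pl k J)) : Prop := ∃ S, I = Ideal.span S ∧ ∀ s ∈ S, ∃ a, s ∈ cmH k a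

theorem cm_prod_mem {A α : Type} [CommRing A] [Algebra k A] (s : Finset α)
    {V : α → Submodule k A} {x : α → A} (h : ∀ i, x i ∈ V i) : ∏ i ∈ s, x i ∈ ∏ i ∈ s, V i :=
  Finset.prod_hom_rel (r := fun (a : A) (W : Submodule k A) => a ∈ W) (one_le.1 le_rfl)
    fun a _ _ h' => mul_mem_mul (h a) h'

theorem cmH_mul {a b : J → ℕ} {f g : Pl k J} (hf : f ∈ cmH k a) (hg : g ∈ cmH k b) :
    f * g ∈ cmH k (a + b) := IsWeightedHomogeneous.mul hf hg

theorem cmH_prod [Fintype J] (n : J → ℕ) :
    cmH k n = ∏ j, span k (Set.range fun s => (X (j, s) : Pl k J)) ^ n j := by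
  classical
  refine le_antisymm (fun f hf => ?_) ?_
  · rw [f.as_sum]
    refine sum_mem fun d hd => ?_
    have h1 : ∀ j, n j = ∑ s, d (j, s) := fun j => by
      rw [← hf (mem_support_iff.1 hd), Finsupp.weight_apply, Finsupp.sum_fintype _ _ (by simp),
        Finset.sum_apply, Fintype.sum_prod_type, Finset.sum_eq_single j]
      · simp [wt]
      · intro i _ hi
        simp [wt, hi.symm]
      · simp
    rw [monomial_eq, Finsupp.prod_fintype _ _ (by simp), Fintype.prod_prod_type, ← smul_eq_C_mul]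
    refine smul_mem _ _ (cm_prod_mem _ fun j => ?_)
    rw [h1, ← Finset.prod_pow_eq_pow_sum]
    exact cm_prod_mem _ fun s => Submodule.pow_mem_pow _ (subset_span (Set.mem_range_self s)) _
  · have h0 : (1 : Submodule k (Pl k J)) ≤ cmH k 0 := one_le.2 (isWeightedHomogeneous_one k wt)
    have h1 : ∀ j (a : ℕ), span k (Set.range fun s => (X (j, s) : Pl k J)) ^ a ≤
        cmH k (a • wt (j, 0)) := fun j a => by
      induction a with
      | zero => simpa using h0
      | succ a ih =>
        rw [pow_succ, succ_nsmul]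
        refine mul_le.2 fun f hf g hg => cmH_mul (ih hf) (span_le.2 ?_ hg)
        rintro _ ⟨s, rfl⟩
        exact isWeightedHomogeneous_X k wt (j, s)
    have h2 : ∀ s : Finset J, ∏ j ∈ s, span k (Set.range fun s => (X (j, s) : Pl k J)) ^ n j ≤
        cmH k (∑ j ∈ s, n j • wt (j, 0)) := fun s => by
      induction s using Finset.induction_on with
      | empty => simpa using h0
      | insert a s ha ih =>
        rw [Finset.prod_insert ha, Finset.sum_insert ha]
        exact mul_le.2 fun f hf g hg => cmH_mul (h1 _ _ hf) (ih hg)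
    convert h2 Finset.univ
    funext j
    simp [wt, Finset.sum_apply, Pi.single_apply]

theorem cmH_add [Fintype J] (a b : J → ℕ) : cmH k (a + b) = cmH k a * cmH k b := by
  simp only [cmH_prod, Pi.add_apply, pow_add, Finset.prod_mul_distrib]

theorem cmH_fg [Fintype J] (n : J → ℕ) : (cmH k n).FG := by
  rw [cmH_prod]
  refine Finset.prod_induction _ _ (fun _ _ => FG.mul) ?_
    fun _ _ => (fg_span (Set.finite_range _)).pow _
  rw [one_eq_span]
  exact fg_span_singleton _

theorem cmH_map [Fintype J] {B : Type} [CommRing B] [Algebra k B] (δ : Pl k J →ₐ[k] B)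
    (n : J → ℕ) : (cmH k n).map δ.toLinearMap =
      ∏ j, span k (Set.range fun s => δ (X (j, s))) ^ n j := by
  rw [cmH_prod]
  refine (map_prod (mapHom δ) _ _).trans (Finset.prod_congr rfl fun j _ => ?_)
  rw [map_pow]
  congr 1
  exact (map_span _ _).trans (congrArg _ (Set.range_comp _ _).symm)

theorem cm_span {S : Set (Pl k J)} {N : J → ℕ} {W : Submodule k (Pl k J)}
    (h : ∀ s ∈ S, ∃ a, s ∈ cmH k a ∧ ∀ e, e + a = N → ∀ g ∈ cmH k e, g * s ∈ W) :
    (Ideal.span S).restrictScalars k ⊓ cmH k N ≤ W := by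
  classical
  rintro f ⟨hf, hN⟩
  have key : ∀ f ∈ Ideal.span S, ∀ g, weightedHomogeneousComponent wt N (g * f) ∈ W := by
    intro f hf
    induction hf using Submodule.span_induction with
    | mem s hs =>
      obtain ⟨a, ha, hs⟩ := h s hs
      intro g
      induction g using MvPolynomial.induction_on' with
      | monomial d c =>
        have hd := isWeightedHomogeneous_monomial wt d c rfl
        rw [weightedHomogeneousComponent_of_mem (cmH_mul hd ha)]
        split_ifs with e
        · exact hs _ e.symm _ hd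
        · exact W.zero_mem
      | add p q hp hq => rw [add_mul, map_add]; exact W.add_mem hp hq
    | zero => intro g; rw [mul_zero, map_zero]; exact W.zero_mem
    | add x y _ _ hx hy => intro g; rw [mul_add, map_add]; exact W.add_mem (hx g) (hy g)
    | smul a x _ hx => intro g; rw [smul_eq_mul, ← mul_assoc]; exact hx _
  have := key f hf 1
  rwa [one_mul, IsWeightedHomogeneous.weightedHomogeneousComponent_same hN] at this

theorem cm_ev [Fintype J] {I : Ideal (Pl k J)} (hI : CmHom I) : ∀ᶠ d : ℕ in atTop, ∀ c,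
    I.restrictScalars k ⊓ cmH k ((fun _ => d) + c) =
      (I.restrictScalars k ⊓ cmH k fun _ => d) * cmH k c := by
  obtain ⟨S, rfl, hS⟩ := hI
  choose! a ha using hS
  obtain ⟨T, hT, e⟩ := (fg_span_iff_fg_span_finset_subset S).1
    (IsNoetherian.noetherian (Ideal.span S))
  filter_upwards [(eventually_all_finset T).2 fun s _ => eventually_all.2 fun j =>
    eventually_ge_atTop (a s j)] with d hd c
  refine le_antisymm ((inf_le_inf_right _ (le_of_eq (congrArg (restrictScalars k) e))).trans
    (cm_span fun s hs => ⟨a s, ha s (hT hs), fun n hn g hg => ?_⟩))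
    (mul_le.2 fun f hf g hg => ⟨Ideal.mul_mem_right _ _ hf.1, cmH_mul hf.2 hg⟩)
  have h1 : (fun _ => d) - a s + a s = fun _ => d := funext fun j => Nat.sub_add_cancel (hd s hs j)
  have h2 : n = (fun _ => d) - a s + c := by
    refine add_right_cancel (b := a s) ?_
    rw [hn, add_right_comm, h1]
  rw [h2, cmH_add] at hg
  refine Submodule.mul_induction_on hg (fun u hu w hw => ?_) fun x y hx hy => add_mul x y s ▸ add_mem hx hy
  rw [mul_right_comm]
  exact mul_mem_mul ⟨Ideal.mul_mem_left _ _ (Ideal.subset_span (hT hs)),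
    h1 ▸ cmH_mul hu (ha s (hT hs))⟩ hw

theorem cm_img {B : Type} [CommRing B] [Algebra k B] (δ : Pl k J →ₐ[k] B) {F I : Ideal (Pl k J)}
    (hF : CmHom F) (hI : CmHom I) (h0 : ∀ f ∈ F, δ f = 0) {M : Submodule k (Pl k J)}
    {a : J → ℕ} (n : J → ℕ) (hM : M ≤ cmH k a) :
    ((F ⊔ I * Ideal.span M).restrictScalars k ⊓ cmH k (n + a)).map δ.toLinearMap =
      (I.restrictScalars k ⊓ cmH k n).map δ.toLinearMap * M.map δ.toLinearMap := by
  rw [← Submodule.map_mul]
  refine le_antisymm (map_le_iff_le_comap.2 ?_) (map_mono (mul_le.2 fun f hf g hg =>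
    ⟨Ideal.mem_sup_right (Ideal.mul_mem_mul hf.1 (Ideal.subset_span hg)), cmH_mul hf.2 (hM hg)⟩))
  obtain ⟨S, rfl, hS⟩ := hF
  obtain ⟨S', rfl, hS'⟩ := hI
  rw [Ideal.span_mul_span', ← Ideal.span_union]
  refine cm_span ?_
  rintro s (hs | ⟨u, hu, w, hw, rfl⟩)
  · obtain ⟨b, hb⟩ := hS s hs
    refine ⟨b, hb, fun e _ g _ => mem_comap.2 ?_⟩
    rw [AlgHom.toLinearMap_apply, h0 _ (Ideal.mul_mem_left _ _ (Ideal.subset_span hs))]
    exact zero_mem _
  · obtain ⟨b, hb⟩ := hS' u hu
    refine ⟨b + a, cmH_mul hb (hM hw), fun e he g hg => mem_comap.2 (mem_map_of_mem ?_)⟩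
    rw [← add_assoc, add_left_inj] at he
    rw [← mul_assoc]
    exact mul_mem_mul ⟨Ideal.mul_mem_left _ _ (Ideal.subset_span hu), he ▸ cmH_mul hg hb⟩ hw

theorem cm_rank {V W : Type} [AddCommGroup V] [Module k V] [AddCommGroup W] [Module k W]
    (δ : V →ₗ[k] W) {N : Submodule k V} (hN : N.FG) :
    finrank k N = finrank k (N.map δ) + finrank k ↥(LinearMap.ker δ ⊓ N) := by
  have := Module.Finite.iff_fg.2 hN
  rw [← (δ.domRestrict N).finrank_range_add_finrank_ker, LinearMap.range_domRestrict,
    LinearMap.ker_domRestrict, ← finrank_map_subtype_eq, map_comap_subtype, inf_comm]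

theorem cm_reg [Fintype J] {A : Type} [CommRing A] [IsDomain A] {m : ℕ} (hm : m ≠ 0) (a : J → A)
    {z : A} (hz : z ≠ 0) {f : MvPolynomial J A}
    (h : C z * f ∈ Ideal.span (Set.range fun j => X j ^ m + C (a j))) :
    f ∈ Ideal.span (Set.range fun j => X j ^ m + C (a j)) := by
  classical
  let r : (J →₀ ℕ) → MvPolynomial J A := fun d => ∏ j, C (-a j) ^ (d j / m) * X j ^ (d j % m)
  let ρ : MvPolynomial J A →ₗ[A] MvPolynomial J A := (basisMonomials J A).constr A r
  have h1 : ∀ d c, ρ (monomial d c) = c • r d := fun d c => by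
    rw [← mul_one c, ← smul_eq_mul, ← smul_monomial, map_smul, smul_eq_mul, mul_one]
    exact congrArg _ ((basisMonomials J A).constr_basis A r d)
  have h2 : ∀ d j, r (d + Finsupp.single j m) = C (-a j) * r d := fun d j => by
    rw [← Finset.prod_ite_eq' Finset.univ j (fun _ => C (-a j)) |>.trans
      (if_pos (Finset.mem_univ j)), ← Finset.prod_mul_distrib]
    refine Finset.prod_congr rfl fun i _ => ?_
    rcases eq_or_ne i j with rfl | hi
    · rw [if_pos rfl, Finsupp.add_apply, Finsupp.single_eq_same,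
        Nat.add_div_right _ (Nat.pos_of_ne_zero hm), Nat.add_mod_right, pow_succ', mul_assoc]
    · rw [if_neg hi, Finsupp.add_apply, Finsupp.single_eq_of_ne hi, add_zero, one_mul]
  have h3 : ∀ g ∈ Ideal.span (Set.range fun j => X j ^ m + C (a j)), ∀ u, ρ (u * g) = 0 := by
    intro g hg
    induction hg using Submodule.span_induction with
    | mem s hs =>
      obtain ⟨j, rfl⟩ := hs
      intro u
      induction u using MvPolynomial.induction_on' with
      | monomial d c =>
        rw [mul_add, X_pow_eq_monomial, monomial_mul, mul_comm _ (C _), C_mul_monomial, map_add, h1,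
          h1, h2, ← smul_eq_C_mul, smul_smul, ← add_smul]
        simp [mul_comm]
      | add p q hp hq => rw [add_mul, map_add, hp, hq, add_zero]
    | zero => intro u; rw [mul_zero, map_zero]
    | add x y _ _ hx hy => intro u; rw [mul_add, map_add, hx, hy, add_zero]
    | smul a x _ hx => intro u; rw [smul_eq_mul, ← mul_assoc]; exact hx _
  let I : Ideal (MvPolynomial J A) := Ideal.span (Set.range fun j => X j ^ m + C (a j))
  have h4 : ∀ g, Ideal.Quotient.mk I (ρ g) = Ideal.Quotient.mk I g := fun g => by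
    induction g using MvPolynomial.induction_on' with
    | monomial d c =>
      rw [h1, smul_eq_C_mul, monomial_eq, Finsupp.prod_fintype _ _ (by simp), map_mul, map_mul,
        map_prod, map_prod]
      refine congrArg _ (Finset.prod_congr rfl fun j _ => ?_)
      have : Ideal.Quotient.mk I (C (-a j)) = Ideal.Quotient.mk I (X j ^ m) :=
        (Ideal.Quotient.eq.2 (by
          rw [map_neg, sub_neg_eq_add]
          exact Ideal.subset_span ⟨j, rfl⟩)).symm
      rw [map_mul, map_pow, this, ← map_pow, ← map_mul, ← pow_mul, ← pow_add, Nat.div_add_mod]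
    | add p q hp hq => rw [map_add, map_add, hp, hq, map_add]
  have h5 := h3 _ h 1
  rw [one_mul, ← smul_eq_C_mul, map_smul, smul_eq_C_mul, mul_eq_zero] at h5
  rw [← Ideal.Quotient.eq_zero_iff_mem, ← h4, h5.resolve_left (by simpa using hz), map_zero]

theorem cm_reg' [Fintype J] {m : ℕ} (hm : m ≠ 0) (r : ℕ) {f : Pl k J}
    (h : (∏ j, X (j, 2)) ^ r * f ∈ fermat k J m) : f ∈ fermat k J m := by
  let φ : Pl k J →ₐ[k] MvPolynomial J (Pl k J) :=
    aeval fun v => if v.2 = 0 then X v.1 else C (X v)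
  let ψ : MvPolynomial J (Pl k J) →ₐ[Pl k J] Pl k J := aeval fun j => X (j, 0)
  have h1 : (ψ.restrictScalars k).comp φ = AlgHom.id k _ := algHom_ext fun ⟨j, s⟩ => by
    fin_cases s <;> simp [φ, ψ]
  have h2 : fermat k J m ≤ (Ideal.span (Set.range fun j => X j ^ m +
      C (X (j, 1) ^ m + X (j, 2) ^ m : Pl k J))).comap φ := by
    refine Ideal.span_le.2 ?_
    rintro _ ⟨j, rfl⟩
    exact Ideal.subset_span ⟨j, by simp [φ, Fin.sum_univ_three, add_assoc]⟩
  have h3 : Ideal.span (Set.range fun j => X j ^ m + C (X (j, 1) ^ m + X (j, 2) ^ m : Pl k J)) ≤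
      (fermat k J m).comap ψ := by
    refine Ideal.span_le.2 ?_
    rintro _ ⟨j, rfl⟩
    exact Ideal.subset_span ⟨j, by simp [ψ, Fin.sum_univ_three, add_assoc]⟩
  have h4 := Ideal.mem_comap.1 (h2 h)
  rw [map_mul, show φ ((∏ j, X (j, 2)) ^ r) = C ((∏ j, X (j, 2)) ^ r) by simp [φ]] at h4
  have h5 := Ideal.mem_comap.1 (h3 (cm_reg hm _
    (pow_ne_zero r (Finset.prod_ne_zero_iff.2 fun j _ => X_ne_zero _)) h4))
  rwa [show ψ (φ f) = f from DFunLike.congr_fun h1 f] at h5

/-- a form that vanishes on the affine part lies in the ideal. -/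
theorem cm_sat [Fintype J] {m : ℕ} (hm : m ≠ 0) {f : Pl k J} {n : J → ℕ} (hf : f ∈ cmH k n)
    (h : ∀ (L : Type) [CommRing L] [Algebra k L] (w : J × Fin 3 → L), (∀ j, w (j, 2) = 1) →
      (∀ j, ∑ s, w (j, s) ^ m = 0) → aeval w f = 0) : f ∈ fermat k J m := by
  classical
  let Q := Pl k J ⧸ fermat k J m
  let z : Q := Ideal.Quotient.mk _ (∏ j, X (j, 2))
  let L := Localization.Away z
  let θ : Pl k J →ₐ[k] L := (IsScalarTower.toAlgHom k Q L).comp (Ideal.Quotient.mkₐ k _)
  have h1 : ∀ j, ∃ y, θ (X (j, 2)) * y = 1 := fun j => IsUnit.exists_right_inv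
    (isUnit_of_dvd_unit (map_dvd θ (Finset.dvd_prod_of_mem (fun j => X (j, 2)) (Finset.mem_univ j)))
      (IsLocalization.Away.algebraMap_isUnit (S := L) z))
  choose y hy using h1
  have h2 := (mem_coneI_iff (fun i : J => (Pi.single i 1 : J → ℕ)) weight_pi_inj hf).2
    (h L (fun v => θ (X v) * y v.1) hy fun j => by
      simp only [mul_pow]
      rw [← Finset.sum_mul]
      simp only [← map_pow]
      rw [← map_sum, show θ (∑ s, X (j, s) ^ m) = 0 from (congrArg (algebraMap Q L)
        (Ideal.Quotient.eq_zero_iff_mem.2 (Ideal.subset_span ⟨j, rfl⟩))).trans (map_zero _),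
        zero_mul])
  have h3 : ((aeval fun j => θ (X (j, 2)) : MvPolynomial J L →ₐ[L] L).restrictScalars k).comp
      (cone k fun v => θ (X v) * y v.1) = θ := algHom_ext fun v => by
    rw [AlgHom.comp_apply, cone_X, AlgHom.restrictScalars_apply, map_mul, aeval_C, aeval_X,
      Algebra.algebraMap_self, RingHom.id_apply, mul_assoc, mul_comm (y _), hy, mul_one]
  have h4 : θ f = 0 := by rw [← h3, AlgHom.comp_apply, mem_coneI.1 h2, map_zero]
  obtain ⟨⟨_, r, rfl⟩, hr⟩ := (IsLocalization.map_eq_zero_iff (Submonoid.powers z) L _).1 h4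
  exact cm_reg' hm r (Ideal.Quotient.eq_zero_iff_mem.1 (by rw [map_mul, map_pow]; exact hr))

end Pool.Agent.Lib.MP_40dc3c_ag.T
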