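import Pool.Agent.Lib.MP_40dc3c_ag.T.ODefs

/-! Kummer covers: finite, flat, onto on points, with transitive roots of unity. -/

namespace Pool.Agent.Lib.MP_40dc3c_ag.T

open scoped TensorProduct
open Function

variable {k : Type} [Field k]

/-- `B` is obtained from `A` by adjoining the `m`-th root `x` of `a`. -/
structure Kum {A B : Type} [CommRing A] [CommRing B] [Algebra k A] [Algebra k B] (φ : A →ₐ[k] B)
    (m : ℕ) (a : A) (x : B) : Prop where
  pow : x ^ m = φ a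
  ext : ∀ (T : Type) [CommRing T] [Algebra k T] (v v' : B →ₐ[k] T),
    v.comp φ = v'.comp φ → v x = v' x → v = v'
  lift : ∀ (T : Type) [CommRing T] [Algebra k T] (u : A →ₐ[k] T) (z : T), z ^ m = u a →
    ∃ v : B →ₐ[k] T, v.comp φ = u ∧ v x = z

section
variable {A B : Type} [CommRing A] [CommRing B] [Algebra k A] [Algebra k B] {φ : A →ₐ[k] B}
  {m : ℕ} {a : A} {x : B}

open Polynomial in
theorem Kum.ff [NeZero m] (h : Kum φ m a x) : φ.toRingHom.Finite ∧ φ.toRingHom.Flat := by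
  have hm := monic_X_pow_sub_C a (NeZero.ne m)
  have hr : AdjoinRoot.root (X ^ m - C a) ^ m = AdjoinRoot.ofAlgHom k (X ^ m - C a) a := by
    have := AdjoinRoot.eval₂_root (X ^ m - C a)
    rw [eval₂_sub, eval₂_X_pow, eval₂_C] at this
    exact sub_eq_zero.1 this
  obtain ⟨ψ, h1, h2⟩ := h.lift _ _ _ hr
  let l : AdjoinRoot (X ^ m - C a) →ₐ[k] B := AdjoinRoot.liftAlgHom _ φ x (by
    rw [eval₂_sub, eval₂_X_pow, eval₂_C, h.pow]; exact sub_self _)
  have l1 : l.comp (AdjoinRoot.ofAlgHom k _) = φ :=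
    AlgHom.ext fun b => by simp [l]
  have l2 : l (AdjoinRoot.root _) = x := AdjoinRoot.liftAlgHom_root _ _ _ _
  have e1 : l.comp ψ = AlgHom.id k B :=
    h.ext _ _ _ (by rw [AlgHom.comp_assoc, h1, l1, AlgHom.id_comp]) (by
      rw [AlgHom.comp_apply, h2, l2, AlgHom.id_apply])
  have e2 : ψ.comp l = AlgHom.id k _ :=
    AdjoinRoot.algHom_ext' (by rw [AlgHom.comp_assoc, l1, h1, AlgHom.id_comp]) (by
      rw [AlgHom.comp_apply, l2, h2, AlgHom.id_apply])
  have bij : Bijective l.toRingHom := bijective_iff_has_inverse.2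
    ⟨ψ, fun y => DFunLike.congr_fun e2 y, fun y => DFunLike.congr_fun e1 y⟩
  have e : φ.toRingHom = l.toRingHom.comp (algebraMap A (AdjoinRoot (X ^ m - C a))) := by
    rw [← l1]; rfl
  have := hm.free_adjoinRoot
  have := hm.finite_adjoinRoot
  rw [e]
  exact ⟨(RingHom.Finite.of_surjective _ bij.2).comp (RingHom.finite_algebraMap.2 inferInstance),
    (RingHom.flat_algebraMap_iff.2 inferInstance).comp (RingHom.Flat.of_bijective bij)⟩

end

theorem Kum.surj {A B : Alg k} {φ : A.R →ₐ[k] B.R} {m : ℕ} [NeZero m] {a : A.R} {x : B.R}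
    (h : Kum φ m a x) : GeoSurj φ := fun Ω _ _ _ u => by
  obtain ⟨z, hz⟩ := IsAlgClosed.exists_pow_nat_eq (u a) (NeZero.pos m)
  obtain ⟨v, hv, -⟩ := h.lift Ω u z hz
  exact ⟨v, hv⟩

theorem b2_mu [IsAlgClosed k] {Ω : Type} [Field Ω] [Algebra k Ω] {m : ℕ} [NeZero m] {z z' : Ω}
    (h : z ^ m = z' ^ m) : ∃ ζ : rootsOfUnity m k, z' = algebraMap k Ω (ζ.1 : k) * z := by
  by_cases h0 : z = 0
  · rw [h0, zero_pow (NeZero.ne m)] at h
    exact ⟨1, by rw [h0, mul_zero, pow_eq_zero_iff (NeZero.ne m) |>.1 h.symm]⟩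
  have h1 : (z' / z) ^ m = 1 := by rw [div_pow, ← h, div_self (pow_ne_zero _ h0)]
  have h2 : IsIntegral k (z' / z) := IsIntegral.of_pow (NeZero.pos m) (h1 ▸ isIntegral_one)
  obtain ⟨t, ht⟩ := minpoly.mem_range_of_degree_eq_one k _
    (IsAlgClosed.degree_eq_one_of_irreducible k (minpoly.irreducible h2))
  have h3 : t ^ m = 1 := (algebraMap k Ω).injective (by rw [map_pow, ht, h1, map_one])
  exact ⟨rootsOfUnity.mkOfPowEq t h3, by
    rw [rootsOfUnity.val_mkOfPowEq_coe, ht, div_mul_cancel₀ _ h0]⟩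

theorem Kum.trans [IsAlgClosed k] {X Y : Obj k} (E : Eqv X Y) {m : ℕ} [NeZero m] {a : X.A.R}
    {x : Y.A.R} (h : Kum E.φ m a x)
    (hζ : ∀ ζ : rootsOfUnity m k, ∃ g, E.π g = 1 ∧ Y.act g x = algebraMap k _ (ζ.1 : k) * x) :
    GeoTrans E.φ {γ | ∃ g, E.π g = 1 ∧ γ = Y.act g} := fun Ω _ _ _ v v' e => by
  have e1 : v x ^ m = v' x ^ m := by
    rw [← map_pow, ← map_pow, h.pow]
    exact DFunLike.congr_fun e a
  obtain ⟨ζ, h1⟩ := b2_mu (k := k) e1
  obtain ⟨g, h2, h3⟩ := hζ ζ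
  refine ⟨_, ⟨g, h2, rfl⟩, h.ext _ _ _ (e.symm.trans (AlgHom.ext fun b => ?_)) ?_⟩
  · rw [AlgHom.comp_apply, AlgHom.comp_apply, AlgHom.comp_apply, ← E.comm, h2, map_one,
      AlgHom.one_apply]
  · rw [AlgHom.comp_apply, h3, map_mul, AlgHom.commutes, h1]

end Pool.Agent.Lib.MP_40dc3c_ag.T
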