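import Pool.Agent.Lib.MP_40dc3c_ag.T.O5
import Pool.Agent.Lib.MP_40dc3c_ag.T.B2a

/-! The cover of the open part of the plane by the product of a torus and a Fermat curve. -/

namespace Pool.Agent.Lib.MP_40dc3c_ag.T

open scoped TensorProduct
open Function

variable {k : Type} [Field k]

variable (k) in
/-- `A` is the universal algebra with elements `y` that satisfy `P`. -/
structure Pres {A ι : Type} [CommRing A] [Algebra k A] (y : ι → A)
    (P : ∀ (T : Type) [CommRing T], (ι → T) → Prop) : Prop where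
  self : P A y
  ext : ∀ (T : Type) [CommRing T] [Algebra k T] (v v' : A →ₐ[k] T), (∀ i, v (y i) = v' (y i)) →
    v = v'
  lift : ∀ (T : Type) [CommRing T] [Algebra k T] (z : ι → T), P T z →
    ∃ v : A →ₐ[k] T, ∀ i, v (y i) = z i

theorem b2_ring {A T F : Type} [CommRing A] [CommRing T] [CommRing F] [Algebra k A] [Algebra k T]
    [Algebra k F] {m : ℕ} [NeZero m] {ε : k} (hε : ε ^ m = -1) {y : Fin 2 → A} {x : Unit → T}
    {u : Fin 2 → F} (hA : Pres k y fun _ _ z => IsUnit (z 0 ^ m + z 1 ^ m))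
    (hT : Pres k x fun _ _ z => IsUnit (z ())) (hF : Pres k u fun _ _ z => z 0 ^ m + z 1 ^ m = -1) :
    ∃ φ : A →ₐ[k] T ⊗[k] F, (∀ i, φ (y i) = ε • (x () ⊗ₜ[k] u i)) ∧
      Kum φ m (y 0 ^ m + y 1 ^ m) (x () ⊗ₜ[k] 1) := by
  have e0 : ε ≠ 0 := fun h => by simp [h, NeZero.ne m] at hε
  have mul : ∀ i, x () ⊗ₜ[k] u i = (x () ⊗ₜ[k] (1 : F)) * (1 ⊗ₜ[k] u i) := fun i => by simp
  have un : IsUnit (x () ⊗ₜ[k] (1 : F)) :=
    hT.self.map (Algebra.TensorProduct.includeLeft : T →ₐ[k] T ⊗[k] F)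
  have pot : (ε • (x () ⊗ₜ[k] u 0)) ^ m + (ε • (x () ⊗ₜ[k] u 1)) ^ m = (x () ⊗ₜ[k] (1 : F)) ^ m := by
    simp only [smul_pow, hε, Algebra.TensorProduct.tmul_pow, one_pow, neg_smul, one_smul]
    rw [← neg_add, ← TensorProduct.tmul_add, hF.self, TensorProduct.tmul_neg, neg_neg]
  obtain ⟨φ, hφ⟩ := hA.lift _ (fun i => ε • (x () ⊗ₜ[k] u i)) (pot ▸ un.pow m)
  refine ⟨φ, hφ, by rw [map_add, map_pow, map_pow, hφ, hφ, pot], fun S _ _ v v' h1 h2 => ?_,
    fun S _ _ w z hz => ?_⟩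
  · refine Algebra.TensorProduct.ext (hT.ext _ _ _ fun _ => h2) (hF.ext _ _ _ fun i => ?_)
    have := DFunLike.congr_fun h1 (y i)
    rw [AlgHom.comp_apply, AlgHom.comp_apply, hφ, map_smul, map_smul, mul, map_mul,
      map_mul, ← h2] at this
    exact (un.map v).mul_left_cancel (smul_right_injective S e0 this)
  · have hu : IsUnit z := (isUnit_pow_iff (NeZero.ne m)).1 (hz ▸ hA.self.map w)
    obtain ⟨z', hw⟩ := hu.exists_right_inv
    obtain ⟨v1, h1⟩ := hT.lift S (fun _ => z) hu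
    obtain ⟨v2, h2⟩ := hF.lift S (fun i => ε⁻¹ • (z' * w (y i))) (by
      simp only [map_add, map_pow] at hz
      simp only [smul_pow, mul_pow, inv_pow, hε]
      rw [← smul_add, ← mul_add, ← hz, ← mul_pow, mul_comm, hw]
      simp)
    refine ⟨Algebra.TensorProduct.lift v1 v2 fun _ _ => .all _ _, hA.ext _ _ _ fun i => ?_,
      by simp [h1]⟩
    rw [AlgHom.comp_apply, hφ, map_smul, Algebra.TensorProduct.lift_tmul, h1, h2,
      mul_smul_comm, smul_smul, mul_inv_cancel₀ e0, one_smul, ← mul_assoc, hw, one_mul]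

theorem b2_ring' {A F : Type} [CommRing A] [CommRing F] [Algebra k A] [Algebra k F] {m : ℕ}
    {x : Unit → A} {u : Fin 2 → F} (hA : Pres k x fun _ _ _ => True)
    (hF : Pres k u fun _ _ z => z 0 ^ m + z 1 ^ m = -1) :
    ∃ φ : A →ₐ[k] F, φ (x ()) = u 1 ∧ Kum φ m (-1 - x () ^ m) (u 0) := by
  obtain ⟨φ, hφ⟩ := hA.lift F (fun _ => u 1) trivial
  refine ⟨φ, hφ (), by simp [hφ, ← hF.self], fun S _ _ v v' h1 h2 =>
    hF.ext _ _ _ (Fin.forall_fin_two.2 ⟨h2, ?_⟩), fun S _ _ w z hz => ?_⟩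
  · simpa [hφ] using DFunLike.congr_fun h1 (x ())
  · obtain ⟨v, hv⟩ := hF.lift S ![z, w (x ())] (by simp [hz])
    exact ⟨v, hA.ext _ _ _ fun _ => by simp [hφ, hv], hv 0⟩

variable [IsAlgClosed k] (p : ℕ) [Fact p.Prime] [CharP k p]

theorem b2_obj {O T F : Obj k} {m : ℕ} [NeZero m] {y : Fin 2 → O.A.R} {x : Unit → T.A.R}
    {u : Fin 2 → F.A.R} (hA : Pres k y fun _ _ z => IsUnit (z 0 ^ m + z 1 ^ m))
    (hT : Pres k x fun _ _ z => IsUnit (z ())) (hF : Pres k u fun _ _ z => z 0 ^ m + z 1 ^ m = -1)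
    (π : T.G × F.G →* O.G) (hπ : Surjective π) (hχ : ∀ g, T.χ g.1 * F.χ g.2 = O.χ (π g))
    {a : T.G → k} {b : F.G → Fin 2 → k} (ha : ∀ g, T.act g (x ()) = a g • x ())
    (hb : ∀ g i, F.act g (u i) = b g i • u i)
    (hc : ∀ g i, O.act (π g) (y i) = (a g.1 * b g.2 i) • y i)
    (hζ : ∀ ζ : rootsOfUnity m k, ∃ g, π g = 1 ∧ a g.1 = ζ.1) {f : O.A.R}
    (hf : ∀ g, O.act g f = f) (ef : f = y 0 ^ m + y 1 ^ m) {f' : T.A.R}
    (hf' : ∀ g, T.act g f' = f') (ef' : f' = x () ^ m) :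
    (O.as p f hf).cls = (T.as p f' hf').cls * F.cls := by
  obtain ⟨ε, hε⟩ := IsAlgClosed.exists_pow_nat_eq (-1 : k) (NeZero.pos m)
  obtain ⟨φ, hφ, K⟩ := b2_ring hε hA hT hF
  have act : ∀ g s t, (T.ten F).act g (s ⊗ₜ[k] t) = T.act g.1 s ⊗ₜ[k] F.act g.2 t := fun _ _ _ => rfl
  let E : Eqv O (T.ten F) :=
    { φ := φ
      π := π
      comm := fun g s => by
        refine DFunLike.congr_fun (hA.ext _ (φ.comp (O.act (π g))) (((T.ten F).act g).comp φ)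
          fun i => ?_) s
        rw [AlgHom.comp_apply, AlgHom.comp_apply, hc, map_smul, hφ, map_smul, act, ha, hb,
          TensorProduct.smul_tmul_smul, smul_comm]
      chi := hχ }
  have K' : Kum E.φ m (y 0 ^ m + y 1 ^ m) (x () ⊗ₜ[k] 1) := K
  have h1 : ∀ g, (T.ten F).act g (f' ⊗ₜ 1) = f' ⊗ₜ 1 := fun g => by rw [act, hf', map_one]
  have h2 : E.φ f = f' ⊗ₜ 1 := by
    rw [ef, ← K'.pow, ef', Algebra.TensorProduct.tmul_pow, one_pow]
  rw [cls_as_ten p _ _ _ h1]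
  refine cls_eq.2 ⟨E.as_cover p _ h1 h2 K'.ff.1 K'.ff.2 hπ (K'.trans _ fun ζ => ?_),
    E.as_push p _ h1 h2 K'.ff.1 fun Ω _ _ _ w => ?_⟩
  · obtain ⟨g, h3, h4⟩ := hζ ζ
    exact ⟨g, h3, by rw [act, ha, h4, map_one, ← Algebra.smul_def, TensorProduct.smul_tmul']⟩
  · obtain ⟨v, hv⟩ := K'.surj Ω w
    exact ⟨1, v, by rw [hv, map_one]; rfl⟩

theorem b2_obj' {A F : Obj k} {m : ℕ} [NeZero m] {x : Unit → A.A.R} {u : Fin 2 → F.A.R}
    (hA : Pres k x fun _ _ _ => True) (hF : Pres k u fun _ _ z => z 0 ^ m + z 1 ^ m = -1)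
    (π : F.G →* A.G) (hπ : Surjective π) (hχ : ∀ g, F.χ g = A.χ (π g)) {b : F.G → Fin 2 → k}
    (hb : ∀ g i, F.act g (u i) = b g i • u i) (hc : ∀ g, A.act (π g) (x ()) = b g 1 • x ())
    (hζ : ∀ ζ : rootsOfUnity m k, ∃ g, π g = 1 ∧ b g 0 = ζ.1) : Ge A F := by
  obtain ⟨φ, hφ, K⟩ := b2_ring' hA hF
  let E : Eqv A F :=
    { φ := φ
      π := π
      comm := fun g s => by
        refine DFunLike.congr_fun (hA.ext _ (φ.comp (A.act (π g))) ((F.act g).comp φ)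
          fun _ => ?_) s
        rw [AlgHom.comp_apply, AlgHom.comp_apply, hc, map_smul, hφ, hb]
      chi := hχ }
  have K' : Kum E.φ m _ (u 0) := K
  refine E.cover K'.ff.1 K'.ff.2 hπ (K'.trans _ fun ζ => ?_)
  obtain ⟨g, h3, h4⟩ := hζ ζ
  exact ⟨g, h3, by rw [hb, h4, Algebra.smul_def]⟩

/-- the closed part is covered by a line. -/
theorem b2_line {W O : Obj k} {m : ℕ} [NeZero m] {y : Fin 2 → W.A.R}
    (hW : Pres k y fun _ _ _ => True) (E : Eqv W O) {f : W.A.R} (hf : ∀ g, W.act g f = f)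
    (ef : f = y 0 ^ m + y 1 ^ m) (ha : IsAway E.φ.toRingHom f) (hπ : Bijective E.π) {f' : O.A.R}
    (hf' : ∀ g, O.act g f' = f') (e : E.φ f = f') (hV : Van (O.as p f' hf'))
    (hζ : ∀ ζ : rootsOfUnity m k, ∃ g, W.act g (y 0) = y 0 ∧
      (ζ.1 : k) • W.act g (y 1) = y 1) : Ge (Obj.one k) (W.as p f hf) := by
  obtain ⟨ε, hε⟩ := IsAlgClosed.exists_pow_nat_eq (-1 : k) (NeZero.pos m)
  let Z : Alg k := ⟨Polynomial k⟩
  obtain ⟨φ, hφ⟩ := hW.lift (Polynomial k) ![Polynomial.X, ε • Polynomial.X] trivial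
  have e0 : φ (y 0) = Polynomial.X := hφ 0
  have e1 : φ (y 1) = ε • Polynomial.X := hφ 1
  let E' : Eqv W (Obj.triv Z) := ⟨φ, 1, fun _ a => by rw [MonoidHom.one_apply, map_one]; rfl,
    fun _ => (map_one W.χ).symm⟩
  refine (ge_poly (Alg.pt k) Z AlgEquiv.refl).trans ((cls_eq.1
    (cls_as_zero p (Obj.triv Z) fun _ => rfl)).2.trans (E.as_closed p hf hf' e ha hπ hV E' _ ?_
      (RingHom.Finite.of_surjective _ fun s => ?_) fun Ω _ _ _ u hu => ?_))
  · change φ f = (0 : Polynomial k)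
    rw [ef, map_add, map_pow, map_pow, e0, e1, smul_pow, hε, neg_smul, one_smul, add_neg_cancel]
  · refine ⟨Polynomial.aeval (y 0) (show Polynomial k from s), ?_⟩
    change φ _ = _
    rw [← Polynomial.aeval_algHom_apply, e0, Polynomial.aeval_X_left_apply]
  · have h1 : (algebraMap k Ω ε * u (y 0)) ^ m = u (y 1) ^ m := by
      rw [ef, map_add, map_pow, map_pow] at hu
      rw [mul_pow, ← map_pow, hε, map_neg, map_one]
      linear_combination -hu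
    obtain ⟨ζ, h2⟩ := b2_mu (k := k) h1
    obtain ⟨g, h3, h4⟩ := hζ ζ
    refine ⟨g, (Polynomial.aeval (u (y 0)) : Polynomial k →ₐ[k] Ω),
      hW.ext _ _ _ (Fin.forall_fin_two.2 ⟨?_, ?_⟩)⟩
    · change Polynomial.aeval (u (y 0)) (φ (y 0)) = u (W.act g (y 0))
      rw [e0, h3, Polynomial.aeval_X]
    · change Polynomial.aeval (u (y 0)) (φ (y 1)) = u (W.act g (y 1))
      rw [e1, map_smul, Polynomial.aeval_X, Algebra.smul_def]
      refine smul_right_injective Ω ζ.1.ne_zero ?_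
      change (ζ.1 : k) • _ = (ζ.1 : k) • _
      rw [← map_smul, h4, Algebra.smul_def, ← h2]

end Pool.Agent.Lib.MP_40dc3c_ag.T
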