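import Pool.Agent.Lib.MP_40dc3c_ag.T.B1
import Pool.Agent.Lib.MP_40dc3c_ag.T.B2b

/-! Reflection and the relation between Gauss and Jacobi objects. -/

namespace Pool.Agent.Lib.MP_40dc3c_ag.T

open scoped TensorProduct
open Function

open MvPolynomial

variable {k : Type} [Field k]

theorem b2_pres_aff (ι : Type) : Pres k (X : ι → MvPolynomial ι k) fun _ _ _ => True :=
  ⟨trivial, fun _ _ _ _ _ h => algHom_ext h, fun _ _ _ z _ => ⟨aeval z, aeval_X z⟩⟩

theorem b2_pres_away {ι : Type} (f : MvPolynomial ι k)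
    (P : ∀ (T : Type) [CommRing T], (ι → T) → Prop)
    (hP : ∀ (T : Type) [CommRing T] [Algebra k T] (z : ι → T), P T z ↔ IsUnit (aeval z f)) :
    Pres k (fun i => algebraMap (MvPolynomial ι k) (Localization.Away f) (X i)) P := by
  refine ⟨(hP _ _).2 ?_, fun _ _ _ _ _ h =>
    IsLocalization.algHom_ext (Submonoid.powers f) (algHom_ext h), fun T _ _ z hz =>
    ⟨IsLocalization.Away.liftAlgHom f (f := aeval z) ((hP T z).1 hz), fun i => by simp⟩⟩
  have : aeval (fun i => algebraMap (MvPolynomial ι k) (Localization.Away f) (X i)) =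
      IsScalarTower.toAlgHom k (MvPolynomial ι k) (Localization.Away f) :=
    algHom_ext fun i => aeval_X _ i
  rw [this]
  exact IsLocalization.Away.algebraMap_isUnit f

theorem b2_pres_fer (m : ℕ) :
    Pres k (fun i => Ideal.Quotient.mk (Ideal.span {ferP k m}) (X i))
      fun _ _ z => z 0 ^ m + z 1 ^ m = -1 := by
  refine ⟨?_, fun _ _ _ _ _ h => Ideal.Quotient.algHom_ext k (algHom_ext h), fun _ _ _ z hz =>
    ⟨Ideal.Quotient.liftₐ _ (aeval z) fun a ha => ?_, fun i => by simp⟩⟩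
  · have := Ideal.Quotient.eq_zero_iff_mem.2 (Ideal.mem_span_singleton_self (ferP k m))
    rw [eq_neg_iff_add_eq_zero, ← this, ← map_pow, ← map_pow, ← map_add,
      ← map_one (Ideal.Quotient.mk (Ideal.span {ferP k m})), ← map_add, ← Fin.sum_univ_two
      fun i => (X i ^ m : MvPolynomial (Fin 2) k)]
    rfl
  · obtain ⟨b, rfl⟩ := Ideal.mem_span_singleton'.1 ha
    simp [ferP, Fin.sum_univ_two, hz]

variable (ω : kˣ →* ℂˣ)

theorem b2_act_aff {ι : Type} [Fintype ι] (m : ℕ) [NeZero m] (c : ι → ℤ) (g) (i : ι) :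
    (aff ω ι m c).act g (X i) = ((g i).1 : k) • X i :=
  (diagAct_X ι m g i).trans (smul_eq_C_mul _ _).symm

theorem b2_act_away {ι : Type} [Fintype ι] (m : ℕ) [NeZero m] (c : ι → ℤ) (f) (hf) (g) (i : ι) :
    ((aff ω ι m c).away f hf).act g (algebraMap (MvPolynomial ι k) _ (X i)) =
      ((g i).1 : k) • algebraMap (MvPolynomial ι k) _ (X i) :=
  (awayAct_algebraMap (aff ω ι m c) f hf g _).trans ((congrArg _ (b2_act_aff ω m c g i)).trans
    (map_smul (IsScalarTower.toAlgHom k (MvPolynomial ι k) (Localization.Away f)) _ _))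

theorem b2_act_fer (m : ℕ) [NeZero m] (c : Fin 2 → ℤ) (g) (i : Fin 2) :
    (fer ω m c).act g (Ideal.Quotient.mk _ (X i)) = ((g i).1 : k) • Ideal.Quotient.mk _ (X i) :=
  (quotAct_mk (aff ω (Fin 2) m c) _ (fer_inv m) g _).trans
    ((congrArg _ (b2_act_aff ω m c g i)).trans
      (map_smul (Ideal.Quotient.mkₐ k (Ideal.span {ferP k m})) _ _))

theorem b2_dvd (m : ℕ) [NeZero m] (c : Fin 2 → ℤ) (g) :
    (aff ω (Fin 2) m c).act g (∑ i, X i ^ m) ∣ ∑ i, X i ^ m :=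
  (aff_inv (Fin 2) m g).dvd

theorem b2_inv (m : ℕ) [NeZero m] (c : Fin 2 → ℤ) (g) :
    ((aff ω (Fin 2) m c).away _ (b2_dvd ω m c)).act g
      (algebraMap (MvPolynomial (Fin 2) k) _ (∑ i, X i ^ m)) =
      algebraMap (MvPolynomial (Fin 2) k) _ (∑ i, X i ^ m) :=
  (awayAct_algebraMap (aff ω (Fin 2) m c) _ (b2_dvd ω m c) g _).trans
    (congrArg _ (aff_inv (Fin 2) m g))

theorem b2_chi (m : ℕ) (c : Fin 2 → ℤ) (a : Unit → rootsOfUnity m k)
    (b : Fin 2 → rootsOfUnity m k) :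
    chis ω m (fun _ : Unit => c 0 + c 1) a * chis ω m c b = chis ω m c fun i => a () * b i := by
  have : ((ω (a ()).1 : ℂˣ) : ℂ) ≠ 0 := Units.ne_zero _
  simp only [chis_apply, Fin.prod_univ_two, map_mul, Fintype.prod_unique, chi_apply,
    zpow_add₀ this]
  ring

theorem b2_chi' (m : ℕ) (c : Fin 2 → ℤ) (h0 : c 0 = 0) (b : Fin 2 → rootsOfUnity m k) :
    chis ω m c b = chis ω m (fun _ : Unit => c 1) fun _ => b 1 := by
  simp [chis_apply, chi_apply, h0]

variable [IsAlgClosed k] (p : ℕ) [Fact p.Prime] [CharP k p]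

theorem b2_cls (m : ℕ) [NeZero m] (c : Fin 2 → ℤ) :
    (((aff ω (Fin 2) m c).away _ (b2_dvd ω m c)).as p _ (b2_inv ω m c)).cls =
      ((gauT ω p Unit m fun _ => c 0 + c 1).ten (fer ω m c)).cls :=
  (b2_obj p (O := (aff ω (Fin 2) m c).away _ (b2_dvd ω m c))
    (T := tor ω Unit m fun _ => c 0 + c 1) (F := fer ω m c) (m := m)
    (b2_pres_away _ _ fun _ _ _ z => by simp [Fin.sum_univ_two])
    (b2_pres_away _ _ fun _ _ _ z => by simp) (b2_pres_fer m)
    { toFun := fun g i => g.1 () * g.2 i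
      map_one' := funext fun _ => mul_one _
      map_mul' := fun _ _ => funext fun _ => mul_mul_mul_comm _ _ _ _ }
    (fun g => ⟨(1, g), funext fun _ => one_mul _⟩)
    (fun g => b2_chi ω m c g.1 g.2)
    (fun g => b2_act_away ω m _ _ _ g ()) (b2_act_fer ω m c)
    (fun g i => b2_act_away ω m c _ _ _ i)
    (fun ζ => ⟨(fun _ => ζ, fun _ => ζ⁻¹), funext fun _ => mul_inv_cancel ζ, rfl⟩)
    (b2_inv ω m c)
    (by rw [← map_pow, ← map_pow, ← map_add]; exact congrArg _ (Fin.sum_univ_two _))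
    (tor_inv ω Unit m _)
    (by rw [Fintype.sum_unique, map_pow])).trans (cls_ten _ _).symm

theorem b2_gau (m : ℕ) [NeZero m] (c : Fin 2 → ℤ) :
    (gau ω p (Fin 2) m c).cls = ((U ω p m (c 0)).ten (U ω p m (c 1))).cls := by
  rw [cls_gau, Fin.prod_univ_two, cls_ten]

theorem ge_refl (d : ℕ) [NeZero d] (hd : ¬p ∣ d) (c : ℤ) :
    Ge (Obj.one k) ((U ω p d c).ten (U ω p d (-c))) := by
  have h0 : Van (U ω p d (c + -c)) := by
    rw [add_neg_cancel]
    exact van_U_zero ω p d hd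
  refine (b2_line p (W := aff ω (Fin 2) d ![c, -c]) (m := d) (b2_pres_aff _)
    (Eqv.toAway _ _ (b2_dvd ω d ![c, -c])) (aff_inv _ d) (Fin.sum_univ_two _)
    (isAway_localization _) bijective_id (b2_inv ω d _) rfl
    (((h0.of_ge (ge_gauT ω p Unit d _)).ten _).of_ge (cls_eq.1 (b2_cls ω p d ![c, -c])).2)
    fun ζ => ⟨![1, ζ⁻¹], ?_, ?_⟩).trans (cls_eq.1 (b2_gau ω p d ![c, -c])).1
  · rw [b2_act_aff]
    exact one_smul _ _
  · rw [b2_act_aff, smul_smul]
    exact (congrArg (· • _) ζ.1.mul_inv).trans (one_smul _ _)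

theorem ge_jac (hω : Injective ω) (m : ℕ) [NeZero m] (hm : ¬p ∣ m) (c : Fin 2 → ℤ)
    (hc : ¬(m : ℤ) ∣ c 0 + c 1) :
    Ge ((U ω p m (c 0)).ten (U ω p m (c 1))) ((U ω p m (c 0 + c 1)).ten (fer ω m c)) :=
  (cls_eq.1 (b2_gau ω p m c)).2.trans (((Eqv.toAway _ _ (b2_dvd ω m c)).as_res p _
    (b2_inv ω m c) rfl (isAway_localization _) bijective_id).trans
    ((cls_eq.1 (b2_cls ω p m c)).1.trans ((gauT_ge ω p hω Unit m hm _ fun _ => hc).ten_right _)))

theorem van_fer (hω : Injective ω) (m : ℕ) [NeZero m] (hm : ¬p ∣ m) (c : Fin 2 → ℤ) (h0 : c 0 = 0)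
    (hc : ¬(m : ℤ) ∣ c 1) : Van (fer ω m c) := by
  obtain ⟨ζ, hζ⟩ := exists_chi_ne_one ω p hω m hm hc
  refine Van.of_ge (van_of_poly (aff ω Unit m fun _ => c 1) (Alg.pt k) (uniqueAlgEquiv k Unit).symm
    (fun _ => ζ) ?_ fun a => ?_) (b2_obj' (m := m) (b2_pres_aff _) (b2_pres_fer m)
      { toFun := fun g _ => g 1, map_one' := rfl, map_mul' := fun _ _ => rfl }
      (fun g => ⟨fun _ => g (), rfl⟩) (b2_chi' ω m c h0) (b2_act_fer ω m c)
      (fun g => b2_act_aff ω m _ _ ()) fun ζ => ⟨![ζ, 1], rfl, rfl⟩)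
  · change chis ω m _ (fun _ : Unit => ζ) ≠ 1
    simpa [chis_apply] using hζ
  · rw [← Polynomial.algebraMap_eq, AlgEquiv.commutes, AlgHom.commutes]

end Pool.Agent.Lib.MP_40dc3c_ag.T
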