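import Pool.Agent.Lib.MP_40dc3c_ag.T.B1

/-! The monomial group on the torus and the passage to one character of the diagonal group. -/

namespace Pool.Agent.Lib.MP_40dc3c_ag.T

open scoped TensorProduct
open Function

open MvPolynomial

variable {k : Type} [Field k]

theorem b3_aut (Z : Obj k) {H : Type} [Group H] [Fintype H] (a : H →* (Z.A.R →ₐ[k] Z.A.R))
    (χ : H →* ℂ) {h : H} {g : Z.G} (e : a h = Z.act g) (S : Alg k) (x) :
    (⟨Z.A, H, a, χ⟩ : Obj k).aut h S x = Z.aut g S x := by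
  rw [Obj.aut, Obj.aut, pullL, pullL]
  exact LinearMap.congr_fun (pull_congr _ _ (congrArg (mapL · S) e)) x

theorem b3_perm (Z : Obj k) {H T : Type} [Group H] [Fintype H] [Group T] [Fintype T]
    (aH : H →* (Z.A.R →ₐ[k] Z.A.R)) (aT : T →* (Z.A.R →ₐ[k] Z.A.R)) (χH : H →* ℂ) (χT : T →* ℂ)
    (i : H → Z.G) (j : T → Z.G) (hi : ∀ h, aH h = Z.act (i h)) (hj : ∀ t, aT t = Z.act (j t))
    {σ : Type} [Fintype σ] (s : σ → Z.G) (s0 : σ) (h0 : s s0 = 1)
    (ha : ∀ h, ∃ e : σ ≃ σ, ∀ u, ∃ t, i h * s u = s (e u) * j t ∧ χT t = χH h)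
    (hb : ∀ u, u ≠ s0 → ∃ t t', j t * s u = s u * j t' ∧ χT t ≠ χT t') :
    Ge ⟨Z.A, H, aH, χH⟩ ⟨Z.A, T, aT, χT⟩ := by
  refine Ge.of_same ⟨Z.A, H, aH, χH⟩ T aT χT fun S y hy => ⟨∑ u, Z.aut (s u) S y, fun h => ?_, ?_⟩
  · obtain ⟨e, he⟩ := ha h
    rw [b3_aut Z aH χH (hi h), map_sum, ← e.sum_comp fun u => Z.aut (s u) S y, Finset.smul_sum]
    refine Finset.sum_congr rfl fun u _ => ?_
    obtain ⟨t, h1, h2⟩ := he u
    have h3 := hy t
    rw [b3_aut Z aT χT (hj t)] at h3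
    rw [← Z.aut_mul, h1, Z.aut_mul, h3, map_smul]
    exact congrArg (· • _) h2
  · rw [map_sum, Finset.sum_eq_single s0]
    · rw [h0, Z.aut_one]
      exact Obj.proj_of_mem _ S hy
    · intro u _ hu
      obtain ⟨t, t', h1, h2⟩ := hb u hu
      have h3 := hy t'
      rw [b3_aut Z aT χT (hj t')] at h3
      have h4 := Obj.proj_aut ⟨Z.A, T, aT, χT⟩ t S (Z.aut (s u) S y)
      rw [b3_aut Z aT χT (hj t), ← Z.aut_mul, h1, Z.aut_mul, h3, map_smul, map_smul,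
        ← sub_eq_zero, ← sub_smul, smul_eq_zero] at h4
      exact h4.resolve_left fun e => h2 (sub_eq_zero.1 e).symm
    · exact fun h => (h (Finset.mem_univ _)).elim

variable (p : ℕ) [Fact p.Prime] [CharP k p]

theorem b3_asAct (Z : Obj k) {H : Type} [Group H] [Fintype H] (a : H →* (Z.A.R →ₐ[k] Z.A.R))
    (χ : H →* ℂ) {f : Z.A.R} (hf : ∀ g, Z.act g f = f) (hf' : ∀ h, a h f = f) {h : H} {g : Z.G}
    (e : a h = Z.act g) (c : Multiplicative (ZMod p)) :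
    asAct p ⟨Z.A, H, a, χ⟩ f hf' (h, c) = asAct p Z f hf (g, c) :=
  AdjoinRoot.algHom_ext' (AlgHom.ext fun x =>
    (asAct_of p ⟨Z.A, H, a, χ⟩ f hf' (h, c) x).trans
      ((congrArg (fun φ : Z.A.R →ₐ[k] Z.A.R => AdjoinRoot.of (asP p f) (φ x)) e).trans
        (asAct_of p Z f hf (g, c) x).symm))
    ((asAct_root p ⟨Z.A, H, a, χ⟩ f hf' (h, c)).trans (asAct_root p Z f hf (g, c)).symm)

theorem b3_as_perm (Z : Obj k) {H T : Type} [Group H] [Fintype H] [Group T] [Fintype T]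
    (aH : H →* (Z.A.R →ₐ[k] Z.A.R)) (aT : T →* (Z.A.R →ₐ[k] Z.A.R)) (χH : H →* ℂ) (χT : T →* ℂ)
    (i : H → Z.G) (j : T → Z.G) (hi : ∀ h, aH h = Z.act (i h)) (hj : ∀ t, aT t = Z.act (j t))
    {σ : Type} [Fintype σ] (s : σ → Z.G) (s0 : σ) (h0 : s s0 = 1)
    (ha : ∀ h, ∃ e : σ ≃ σ, ∀ u, ∃ t, i h * s u = s (e u) * j t ∧ χT t = χH h)
    (hb : ∀ u, u ≠ s0 → ∃ t t', j t * s u = s u * j t' ∧ χT t ≠ χT t')
    {f : Z.A.R} (hf : ∀ g, Z.act g f = f) (hH : ∀ h, aH h f = f) (hT : ∀ t, aT t f = f) :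
    Ge ((⟨Z.A, H, aH, χH⟩ : Obj k).as p f hH) ((⟨Z.A, T, aT, χT⟩ : Obj k).as p f hT) := by
  refine b3_perm (Z.as p f hf) _ _ _ _ (fun h => (i h.1, h.2)) (fun t => (j t.1, t.2))
    (fun h => b3_asAct p Z aH χH hf hH (hi h.1) h.2)
    (fun t => b3_asAct p Z aT χT hf hT (hj t.1) t.2) (fun u => (s u, 1)) s0
    (by rw [h0]; rfl) (fun h => ?_) fun u hu => ?_
  · obtain ⟨e, he⟩ := ha h.1
    refine ⟨e, fun u => ?_⟩
    obtain ⟨t, h1, h2⟩ := he u
    refine ⟨(t, h.2), Prod.ext h1 (mul_comm _ _), ?_⟩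
    simp only [MonoidHom.coprod_apply, h2]
  · obtain ⟨t, t', h1, h2⟩ := hb u hu
    refine ⟨(t, 1), (t', 1), Prod.ext h1 rfl, ?_⟩
    simpa only [MonoidHom.coprod_apply, map_one, mul_one] using h2

/-- the group of monomial matrices with entries in the roots of unity. -/
abbrev Wr (k : Type) [Field k] (ι : Type) (d : ℕ) : Type :=
  (ι → rootsOfUnity d k) ⋊[mulAutArrow] Equiv.Perm ι

theorem wr_mul (ι : Type) (d : ℕ) (g h : Wr k ι d) (i : ι) :
    (g * h).left i = g.left i * h.left (g.right⁻¹ i) := rfl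

/-- the monomial action. -/
noncomputable def wrAct (ι : Type) (d : ℕ) :
    Wr k ι d →* (MvPolynomial ι k →ₐ[k] MvPolynomial ι k) where
  toFun g := aeval fun i => C ((g.left (g.right i)).1 : k) * X (g.right i)
  map_one' := by ext : 1; simp
  map_mul' g h := by
    ext : 1
    simp only [aeval_X, AlgHom.mul_apply, map_mul, aeval_C, algebraMap_eq, wr_mul,
      SemidirectProduct.mul_right, Equiv.Perm.mul_apply, Equiv.Perm.coe_inv,
      Equiv.symm_apply_apply, Subgroup.coe_mul, Units.val_mul]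
    ring

theorem wrAct_X (ι : Type) (d : ℕ) (g : Wr k ι d) (i : ι) :
    wrAct ι d g (X i) = C ((g.left (g.right i)).1 : k) * X (g.right i) := by simp [wrAct]

theorem wrAct_X_pow (ι : Type) (d : ℕ) (g : Wr k ι d) (i : ι) {D : ℕ} (h : d ∣ D) :
    wrAct ι d g (X i ^ D) = X (g.right i) ^ D := by
  obtain ⟨e, rfl⟩ := h
  have h : (((g.left (g.right i)).1 : kˣ) : k) ^ d = 1 :=
    (mem_rootsOfUnity' _ _).1 (g.left (g.right i)).2
  rw [map_pow, wrAct_X, mul_pow, ← map_pow, pow_mul, h, one_pow, map_one, one_mul]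

variable (ι : Type) [Fintype ι]

theorem wrAct_prod (d : ℕ) (g : Wr k ι d) :
    wrAct ι d g (∏ i, X i) = C ((∏ i, g.left i).1 : k) * ∏ i, X i := by
  rw [map_prod, Finset.prod_congr rfl fun i _ => wrAct_X ι d g i, Finset.prod_mul_distrib,
    Equiv.prod_comp g.right (fun i => (X i : MvPolynomial ι k)),
    Equiv.prod_comp g.right (fun i => (C ((g.left i).1 : k) : MvPolynomial ι k)), ← map_prod]
  simp

theorem wrAct_dvd (d : ℕ) (g : Wr k ι d) : wrAct ι d g (∏ i, X i) ∣ ∏ i, X i := by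
  rw [wrAct_prod]
  exact (((∏ i, g.left i).1.isUnit.map C).mul_left_dvd).2 dvd_rfl

theorem wrAct_sum (d : ℕ) (g : Wr k ι d) {D : ℕ} (h : d ∣ D) :
    wrAct ι d g (∑ i, X i ^ D) = ∑ i, X i ^ D := by
  rw [map_sum, Finset.sum_congr rfl fun i _ => wrAct_X_pow ι d g i h]
  exact Equiv.sum_comp g.right fun i => (X i : MvPolynomial ι k) ^ D

/-- the product of the entries. -/
def wrDet (d : ℕ) : Wr k ι d →* rootsOfUnity d k where
  toFun g := ∏ i, g.left i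
  map_one' := by simp
  map_mul' g h := by
    simp only [wr_mul, Finset.prod_mul_distrib]
    rw [Equiv.prod_comp g.right⁻¹ h.left]

instance (d : ℕ) [NeZero d] : Finite (Wr k ι d) :=
  Finite.of_injective (fun g : Wr k ι d => (g.left, g.right)) fun _ _ h =>
    SemidirectProduct.ext (congrArg Prod.fst h) (congrArg Prod.snd h)

/-- affine space with the monomial action. -/
@[reducible] noncomputable def wrAff (d : ℕ) [NeZero d] (χ : Wr k ι d →* ℂ) : Obj k :=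
  letI := Fintype.ofFinite (Wr k ι d)
  ⟨⟨MvPolynomial ι k⟩, Wr k ι d, wrAct ι d, χ⟩

/-- the torus with the monomial action. -/
@[reducible] noncomputable def wrTor (d : ℕ) [NeZero d] (χ : Wr k ι d →* ℂ) : Obj k :=
  (wrAff ι d χ).away (∏ i, X i) (wrAct_dvd ι d)

theorem wrTor_inv (d : ℕ) [NeZero d] (χ : Wr k ι d →* ℂ) {D : ℕ} (h : d ∣ D) (g) :
    (wrTor ι d χ).act g (algebraMap (MvPolynomial ι k) _ (∑ i, X i ^ D)) =
      algebraMap (MvPolynomial ι k) _ (∑ i, X i ^ D) :=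
  (awayAct_algebraMap (wrAff ι d χ) _ (wrAct_dvd ι d) g _).trans (congrArg _ (wrAct_sum ι d g h))

theorem b3_away {A : Alg k} {G H : Type} [Group G] [Fintype G] [Group H] [Fintype H]
    (a : G →* (A.R →ₐ[k] A.R)) (b : H →* (A.R →ₐ[k] A.R)) (χ : G →* ℂ) (χ' : H →* ℂ) (f : A.R)
    (ha : ∀ g, a g f ∣ f) (hb : ∀ h, b h f ∣ f) {g : G} {h : H} (e : a g = b h) :
    awayAct ⟨A, G, a, χ⟩ f ha g = awayAct ⟨A, H, b, χ'⟩ f hb h :=
  IsLocalization.algHom_ext (Submonoid.powers f) (AlgHom.ext fun x =>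
    (awayAct_algebraMap ⟨A, G, a, χ⟩ f ha g x).trans
      ((congrArg (fun φ : A.R →ₐ[k] A.R => algebraMap A.R (Localization.Away f) (φ x)) e).trans
        (awayAct_algebraMap ⟨A, H, b, χ'⟩ f hb h x).symm))

omit [Fintype ι] in
/-- the inclusion of monomial groups. -/
def wrInc {d D : ℕ} (h : d ∣ D) (g : Wr k ι d) : Wr k ι D :=
  ⟨fun i => Subgroup.inclusion (rootsOfUnity_le_of_dvd h) (g.left i), g.right⟩

omit [Fintype ι] in
theorem wrInc_act {d D : ℕ} (h : d ∣ D) (g : Wr k ι d) :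
    wrAct ι d g = wrAct ι D (wrInc ι h g) := rfl

omit [Fintype ι] in
theorem wrDiag_act {D : ℕ} (t : ι → rootsOfUnity D k) : diagAct ι D t = wrAct ι D ⟨t, 1⟩ := rfl

variable (ω : kˣ →* ℂˣ)

theorem b3_ha (n d : ℕ) (c : ℤ) (h : Wr k (Fin (n + 1)) d) (u : Equiv.Perm (Fin (n + 1))) :
    ∃ t : Fin (n + 1) → rootsOfUnity (d * (n + 1)) k,
      wrInc _ (dvd_mul_right d (n + 1)) h * ⟨1, u⟩ = ⟨1, h.right * u⟩ * ⟨t, 1⟩ ∧
      chis ω (d * (n + 1)) (fun i : Fin (n + 1) => c + (i : ℕ) * d) t =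
        (chi ω d c).comp (wrDet _ d) h := by
  refine ⟨fun i => (wrInc _ (dvd_mul_right d (n + 1)) h).left (h.right (u i)), ?_, ?_⟩
  · refine SemidirectProduct.ext (funext fun i => ?_) (mul_one _).symm
    simp [wr_mul]
  · rw [chis_apply, MonoidHom.comp_apply]
    change _ = chi ω d c (∏ i, h.left i)
    rw [map_prod, ← Equiv.prod_comp (h.right * u) fun i => chi ω d c (h.left i)]
    refine Finset.prod_congr rfl fun i _ => ?_
    have h1 : ((ω (h.left (h.right (u i))).1 : ℂˣ) : ℂ) ^ (d : ℤ) = 1 := by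
      rw [zpow_natCast, ← Units.val_pow_eq_pow_val, ← map_pow,
        (mem_rootsOfUnity _ _).1 (h.left (h.right (u i))).2, map_one, Units.val_one]
    rw [chi_apply, chi_apply, zpow_add₀ (Units.ne_zero _), mul_comm (_ : ℤ) (d : ℤ), zpow_mul]
    change _ * (((ω (h.left (h.right (u i))).1 : ℂˣ) : ℂ) ^ (d : ℤ)) ^ _ = _
    rw [h1, one_zpow, mul_one]
    rfl

variable [IsAlgClosed k]

include p in
theorem b3_hb (hω : Injective ω) (n : ℕ) (hl : ¬p ∣ n + 1) (d : ℕ) [NeZero d] (hd : ¬p ∣ d)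
    (c : ℤ) (u : Equiv.Perm (Fin (n + 1))) (hu : u ≠ 1) :
    ∃ t t' : Fin (n + 1) → rootsOfUnity (d * (n + 1)) k,
      (⟨t, 1⟩ * ⟨1, u⟩ : Wr k (Fin (n + 1)) (d * (n + 1))) = ⟨1, u⟩ * ⟨t', 1⟩ ∧
      chis ω (d * (n + 1)) (fun i : Fin (n + 1) => c + (i : ℕ) * d) t ≠
        chis ω (d * (n + 1)) (fun i : Fin (n + 1) => c + (i : ℕ) * d) t' := by
  have hD : ¬p ∣ d * (n + 1) := fun h => ((Fact.out : p.Prime).dvd_mul.1 h).elim hd hl
  obtain ⟨a, ha⟩ : ∃ a, u a ≠ a := by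
    by_contra h
    push Not at h
    exact hu (Equiv.ext h)
  obtain ⟨η, hη⟩ := exists_chi_ne_one ω p hω (d * (n + 1)) hD
    (c := (((u a : ℕ) : ℤ) - (a : ℕ)) * d) fun h => by
      rw [Nat.cast_mul, mul_comm (d : ℤ)] at h
      have h2 := (mul_dvd_mul_iff_right (Nat.cast_ne_zero.2 (NeZero.ne d) : (d : ℤ) ≠ 0)).1 h
      have h3 := Int.eq_zero_of_abs_lt_dvd h2 (by
        have := a.2
        have := (u a).2
        rw [abs_lt]
        constructor <;> omega)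
      exact ha (Fin.ext (by omega))
  have key : ∀ b : Fin (n + 1), chis ω (d * (n + 1)) (fun i : Fin (n + 1) => c + (i : ℕ) * d)
      (Pi.mulSingle b η) = ((ω η.1 : ℂˣ) : ℂ) ^ (c + (b : ℕ) * d) := fun b => by
    rw [chis_apply, Finset.prod_eq_single b, Pi.mulSingle_eq_same, chi_apply]
    · intro i _ hi
      rw [Pi.mulSingle_eq_of_ne hi, map_one]
    · exact fun h => (h (Finset.mem_univ _)).elim
  refine ⟨Pi.mulSingle (u a) η, Pi.mulSingle a η, ?_, fun e => hη ?_⟩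
  · refine SemidirectProduct.ext (funext fun i => ?_) ((one_mul u).trans (mul_one u).symm)
    simp only [wr_mul, Pi.one_apply, mul_one, one_mul]
    by_cases hi : i = u a
    · simp [hi]
    · rw [Pi.mulSingle_eq_of_ne hi, Pi.mulSingle_eq_of_ne fun e => hi (by rw [← e]; simp)]
  · have e' := (key (u a)).symm.trans (e.trans (key a))
    rw [chi_apply, show (((u a : ℕ) : ℤ) - (a : ℕ)) * d =
      (c + (u a : ℕ) * d) - (c + (a : ℕ) * d) by ring, zpow_sub₀ (Units.ne_zero _), e',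
      div_self (zpow_ne_zero _ (Units.ne_zero _))]

theorem b3_ge (hω : Injective ω) (n : ℕ) (hl : ¬p ∣ n + 1) (d : ℕ) [NeZero d] (hd : ¬p ∣ d)
    (c : ℤ) :
    Ge ((wrTor (Fin (n + 1)) d ((chi ω d c).comp (wrDet _ d))).as p
        (algebraMap (MvPolynomial (Fin (n + 1)) k) _ (∑ i, X i ^ (d * (n + 1))))
        (wrTor_inv _ d _ (dvd_mul_right _ _)))
      (gauT ω p (Fin (n + 1)) (d * (n + 1)) fun i => c + (i : ℕ) * d) :=
  letI := Fintype.ofFinite (Wr k (Fin (n + 1)) d)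
  letI := Fintype.ofFinite (Wr k (Fin (n + 1)) (d * (n + 1)))
  letI := Fintype.ofFinite (Fin (n + 1) → rootsOfUnity (d * (n + 1)) k)
  b3_as_perm p (wrTor (Fin (n + 1)) (d * (n + 1)) 1)
    (H := Wr k (Fin (n + 1)) d) (T := Fin (n + 1) → rootsOfUnity (d * (n + 1)) k)
    (wrTor (Fin (n + 1)) d ((chi ω d c).comp (wrDet _ d))).act
    (tor ω (Fin (n + 1)) (d * (n + 1)) fun i => c + (i : ℕ) * d).act
    ((chi ω d c).comp (wrDet _ d)) (chis ω (d * (n + 1)) fun i : Fin (n + 1) => c + (i : ℕ) * d)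
    (wrInc _ (dvd_mul_right d (n + 1))) (fun t => ⟨t, 1⟩)
    (fun h => b3_away _ _ _ _ _ (wrAct_dvd _ d) (wrAct_dvd _ _) (wrInc_act _ _ h))
    (fun t => b3_away _ _ _ _ _ (aff_dvd _ _) (wrAct_dvd _ _) (wrDiag_act _ t))
    (fun u : Equiv.Perm (Fin (n + 1)) => ⟨1, u⟩) 1 rfl
    (fun h => ⟨Equiv.mulLeft h.right, b3_ha ω n d c h⟩) (b3_hb p ω hω n hl d hd c)
    (wrTor_inv _ _ _ dvd_rfl) (wrTor_inv _ d _ (dvd_mul_right _ _)) (tor_inv ω _ _ _)

end Pool.Agent.Lib.MP_40dc3c_ag.T
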