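import Pool.Agent.Lib.MP_40dc3c_ag.T.B3a
import Pool.Agent.Lib.MP_40dc3c_ag.T.B3b

/-! The multiplication formula: the symmetric cover. -/

namespace Pool.Agent.Lib.MP_40dc3c_ag.T

open scoped TensorProduct
open Function

open MvPolynomial

variable {k : Type} [Field k] (ω : kˣ →* ℂˣ)

/-- the source of the symmetric cover. -/
@[reducible] noncomputable def b3Src (n d : ℕ) [NeZero d] (c : ℤ) : Obj k :=
  (aff ω Unit d fun _ => c).ten (Obj.triv ⟨MvPolynomial (Fin n) k⟩)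

theorem b3_left (n d : ℕ) [NeZero d] (c : ℤ) (g : (b3Src ω n d c).G) :
    (b3Src ω n d c).act g (X () ⊗ₜ 1) =
      algebraMap k (Sym.Src k n) (g.1 ()).1.1 * (X () ⊗ₜ 1) := by
  change diagAct Unit d g.1 (X ()) ⊗ₜ[k] (1 : MvPolynomial (Fin n) k) = _
  rw [diagAct_X, Algebra.TensorProduct.algebraMap_apply, Algebra.TensorProduct.tmul_mul_tmul,
    one_mul, algebraMap_eq]

theorem b3_right (n d : ℕ) [NeZero d] (c : ℤ) (g : (b3Src ω n d c).G)
    (Q : MvPolynomial (Fin n) k) : (b3Src ω n d c).act g (1 ⊗ₜ Q) = 1 ⊗ₜ Q := by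
  change diagAct Unit d g.1 1 ⊗ₜ[k] Q = _
  rw [map_one]

theorem b3_dvd (n d : ℕ) [NeZero d] (c : ℤ) (g : (b3Src ω n d c).G) :
    (b3Src ω n d c).act g (X () ⊗ₜ 1) ∣ X () ⊗ₜ 1 := by
  rw [b3_left]
  exact (((g.1 ()).1.isUnit.map (algebraMap k (Sym.Src k n))).mul_left_dvd).2 dvd_rfl

/-- the map of groups. -/
noncomputable def b3Pi (n d : ℕ) :
    Wr k (Fin (n + 1)) d →* (Unit → rootsOfUnity d k) × PUnit.{1} :=
  (MonoidHom.pi fun _ => wrDet _ d).prod 1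

theorem wrAct_expand {ι : Type} (d : ℕ) (g : Wr k ι d) (P : MvPolynomial ι k) :
    wrAct ι d g (expand d P) = expand d (rename g.right P) := by
  have : (wrAct ι d g).comp (expand d) = (expand d).comp (rename g.right) :=
    MvPolynomial.algHom_ext fun i => by
      simp only [AlgHom.comp_apply, expand_X, rename_X, wrAct_X_pow ι d g i dvd_rfl]
  exact DFunLike.congr_fun this P

theorem b3_comm0 (n d : ℕ) [NeZero d] (c : ℤ) (μ : k) (χ : Wr k (Fin (n + 1)) d →* ℂ)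
    (h : Wr k (Fin (n + 1)) d) :
    (Sym.cov0 n d μ).comp ((b3Src ω n d c).act (b3Pi n d h)) =
      ((wrTor (Fin (n + 1)) d χ).act h).comp (Sym.cov0 n d μ) := by
  have e := awayAct_algebraMap (wrAff (Fin (n + 1)) d χ) _ (wrAct_dvd _ d) h
  refine Algebra.TensorProduct.ext (MvPolynomial.algHom_ext fun i => ?_)
    (MvPolynomial.algHom_ext fun j => ?_)
  · change Sym.cov0 n d μ ((b3Src ω n d c).act (b3Pi n d h) (X () ⊗ₜ 1)) =
      (wrTor (Fin (n + 1)) d χ).act h (Sym.cov0 n d μ (X () ⊗ₜ 1))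
    rw [b3_left, map_mul, AlgHom.commutes, Sym.cov0_left]
    refine Eq.trans ?_ (e _).symm
    change _ = algebraMap (MvPolynomial (Fin (n + 1)) k) _ (wrAct _ d h (C μ * ∏ i, X i))
    rw [map_mul (wrAct _ d h), wrAct_prod, algHom_C, algebraMap_eq, mul_left_comm,
      map_mul _ _ (C μ * _), ← algebraMap_eq, ← IsScalarTower.algebraMap_apply]
    rfl
  · change Sym.cov0 n d μ ((b3Src ω n d c).act (b3Pi n d h) (1 ⊗ₜ X j)) =
      (wrTor (Fin (n + 1)) d χ).act h (Sym.cov0 n d μ (1 ⊗ₜ X j))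
    rw [b3_right, Sym.cov0_right]
    refine Eq.trans ?_ (e _).symm
    change _ = algebraMap (MvPolynomial (Fin (n + 1)) k) _ (wrAct _ d h _)
    rw [wrAct_expand, aeval_X, rename_esymm]

theorem b3_comm1 {X Y : Obj k} (f : X.A.R) (hf : ∀ g, X.act g f ∣ f) (φ0 : X.A.R →ₐ[k] Y.A.R)
    (φ : Localization.Away f →ₐ[k] Y.A.R) (hφ : ∀ a, φ (algebraMap _ _ a) = φ0 a) (g : X.G)
    (h : Y.G) (e : φ0.comp (X.act g) = (Y.act h).comp φ0) (a : Localization.Away f) :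
    φ (awayAct X f hf g a) = Y.act h (φ a) := by
  have : φ.comp (awayAct X f hf g) = (Y.act h).comp φ :=
    IsLocalization.algHom_ext (Submonoid.powers f) (AlgHom.ext fun x =>
      (congrArg φ (awayAct_algebraMap X f hf g x)).trans ((hφ _).trans
        ((DFunLike.congr_fun e x).trans (congrArg (Y.act h) (hφ x).symm))))
  exact DFunLike.congr_fun this a

/-- the symmetric cover as an equivariant map. -/
noncomputable def b3E (n d : ℕ) [NeZero d] (c : ℤ) {μ : k} (hμ : μ ≠ 0) :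
    Eqv ((b3Src ω n d c).away (X () ⊗ₜ 1) (b3_dvd ω n d c))
      (wrTor (Fin (n + 1)) d ((chi ω d c).comp (wrDet _ d))) where
  φ := Sym.cov n d hμ
  π := b3Pi n d
  comm h := b3_comm1 (X := b3Src ω n d c)
    (Y := wrTor (Fin (n + 1)) d ((chi ω d c).comp (wrDet _ d))) (X () ⊗ₜ 1) (b3_dvd ω n d c)
    (Sym.cov0 n d μ) (Sym.cov n d hμ) (Sym.cov_algebraMap n d hμ) (b3Pi n d h) h
    (b3_comm0 ω n d c μ _ h)
  chi h := by
    change chi ω d c (wrDet _ d h) = chis ω d (fun _ : Unit => c) (fun _ => wrDet _ d h) * 1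
    rw [chis_apply, mul_one, Fintype.prod_unique]

theorem b3Pi_surj (n d : ℕ) : Surjective (b3Pi (k := k) n d) := fun g => by
  refine ⟨⟨Pi.mulSingle 0 (g.1 ()), 1⟩, Prod.ext (funext fun _ => ?_) rfl⟩
  change ∏ i : Fin (n + 1), (Pi.mulSingle 0 (g.1 ()) : Fin (n + 1) → rootsOfUnity d k) i = _
  rw [Finset.prod_pi_mulSingle', if_pos (Finset.mem_univ _)]

variable [IsAlgClosed k]

theorem b3_trans (n d : ℕ) [NeZero d] (c : ℤ) {μ : k} (hμ : μ ≠ 0) :
    GeoTrans (b3E ω n d c hμ).φ {γ | ∃ g, (b3E ω n d c hμ).π g = 1 ∧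
      γ = (wrTor (Fin (n + 1)) d ((chi ω d c).comp (wrDet _ d))).act g} := by
  intro Ω _ _ _ v v' h
  obtain ⟨σ, ζ, h1, h2⟩ := Sym.cov_trans n d hμ v v' (AlgHom.ext fun x =>
    (congrArg v (Sym.cov_algebraMap n d hμ x).symm).trans ((DFunLike.congr_fun h _).trans
      (congrArg v' (Sym.cov_algebraMap n d hμ x))))
  refine ⟨_, ⟨⟨fun i => ζ (σ⁻¹ i), σ⟩, Prod.ext (funext fun _ => ?_) rfl, rfl⟩, ?_⟩
  · exact (Equiv.prod_comp σ⁻¹ ζ).trans h1
  · refine IsLocalization.algHom_ext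
      (Submonoid.powers (∏ i, X i : MvPolynomial (Fin (n + 1)) k))
      (MvPolynomial.algHom_ext fun i => (h2 i).trans ?_)
    refine Eq.trans ?_ (congrArg v (awayAct_algebraMap (wrAff (Fin (n + 1)) d
      ((chi ω d c).comp (wrDet _ d))) _ (wrAct_dvd _ d) ⟨fun i => ζ (σ⁻¹ i), σ⟩ (X i))).symm
    change _ = v (algebraMap (MvPolynomial (Fin (n + 1)) k) _
      (wrAct _ d ⟨fun i => ζ (σ⁻¹ i), σ⟩ (X i)))
    rw [wrAct_X, map_mul, map_mul, ← algebraMap_eq, ← IsScalarTower.algebraMap_apply,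
      AlgHom.commutes]
    simp

variable (p : ℕ) [Fact p.Prime] [CharP k p]

theorem ge_mult (hω : Injective ω) (n : ℕ) (hl : ¬p ∣ n + 1) (d : ℕ) [NeZero d] (hd : ¬p ∣ d) (c : ℤ)
    (hc : ¬(d : ℤ) ∣ c) (Q : MvPolynomial (Fin n) k)
    (hQ : aeval (fun i : Fin n => esymm (Fin (n + 1)) k (i + 1)) Q +
      (-1) ^ n * (n + 1) * esymm (Fin (n + 1)) k (n + 1) = psum (Fin (n + 1)) k (n + 1)) :
    Ge ((U ω p d c).ten ((Obj.triv ⟨MvPolynomial (Fin n) k⟩).as p Q fun _ => rfl))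
      (gau ω p (Fin (n + 1)) (d * (n + 1)) fun i => c + (i : ℕ) * d) := by
  have hD : ¬p ∣ d * (n + 1) := fun h => ((Fact.out : p.Prime).dvd_mul.1 h).elim hd hl
  have hd' : (d : k) ≠ 0 := fun h => hd ((CharP.cast_eq_zero_iff k p d).1 h)
  have hl' : ((n + 1 : ℕ) : k) ≠ 0 := fun h => hl ((CharP.cast_eq_zero_iff k p _).1 h)
  obtain ⟨μ, hμ⟩ := IsAlgClosed.exists_pow_nat_eq ((-1) ^ n * (n + 1) : k) (NeZero.pos d)
  have hμ0 : μ ≠ 0 := by
    rintro rfl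
    rw [zero_pow (NeZero.ne d)] at hμ
    exact mul_ne_zero (pow_ne_zero n (neg_ne_zero.2 one_ne_zero)) (by exact_mod_cast hl') hμ.symm
  have i0 := ten_inv (aff ω Unit d fun _ => c) (Obj.triv ⟨MvPolynomial (Fin n) k⟩)
    (aff_inv Unit d) (f' := Q) fun _ => rfl
  have i1 : ∀ g, ((b3Src ω n d c).away (X () ⊗ₜ 1) (b3_dvd ω n d c)).act g
      (algebraMap (Sym.Src k n) _ ((∑ i, X i ^ d) ⊗ₜ 1 + 1 ⊗ₜ Q)) =
      algebraMap (Sym.Src k n) _ ((∑ i, X i ^ d) ⊗ₜ 1 + 1 ⊗ₜ Q) := fun g =>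
    (awayAct_algebraMap (b3Src ω n d c) _ (b3_dvd ω n d c) g _).trans (congrArg _ (i0 g))
  have s1 := (cls_eq.1 ((cls_ten _ _).trans (cls_as_ten_as p (aff ω Unit d fun _ => c)
    (Obj.triv ⟨MvPolynomial (Fin n) k⟩) (aff_inv Unit d) (f' := Q) fun _ => rfl))).1
  have s2 := (Eqv.toAway (b3Src ω n d c) (X () ⊗ₜ 1) (b3_dvd ω n d c)).as_res p i0 i1 rfl
    (isAway_localization _) bijective_id
  have s3 := (b3E ω n d c hμ0).as_cover p i1 (wrTor_inv _ d _ (dvd_mul_right d (n + 1)))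
    ((Sym.cov_algebraMap n d hμ0 _).trans (by
      rw [Fintype.sum_unique]
      exact Sym.cov_pot n d μ hμ Q hQ))
    (Sym.cov_finite n d hμ0 (NeZero.ne d)) (Sym.cov_flat n d hμ0 hd') (b3Pi_surj n d)
    (b3_trans ω n d c hμ0)
  have s5 := gauT_ge ω p hω (Fin (n + 1)) (d * (n + 1)) hD (fun i => c + (i : ℕ) * d) fun i h =>
    hc ((dvd_add_left (dvd_mul_left (d : ℤ) (i : ℕ))).1
      ((Int.natCast_dvd_natCast.2 (dvd_mul_right d (n + 1))).trans h))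
  exact s1.trans (s2.trans (s3.trans ((b3_ge p ω hω n hl d hd c).trans s5)))

end Pool.Agent.Lib.MP_40dc3c_ag.T
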