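import Mathlib

/-! Newton polynomials of a sequence. -/

namespace Pool.Agent.Lib.MP_40dc3c_ag.T

open Finset

variable {R R' : Type} [CommRing R] [CommRing R']

/-- the power sums written in terms of the elementary symmetric functions `e`. -/
noncomputable def newt (e : ℕ → R) (n : ℕ) : R :=
  (-1) ^ (n + 1) * n * e n -
    ∑ i ∈ (Ioo 0 n).attach, (-1) ^ i.1 * e i.1 * newt e (n - i.1)
termination_by n
decreasing_by
  have := mem_Ioo.1 i.2
  omega

theorem newt_eq (e : ℕ → R) (n : ℕ) : newt e n =
    (-1) ^ (n + 1) * n * e n - ∑ i ∈ Ioo 0 n, (-1) ^ i * e i * newt e (n - i) := by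
  rw [newt, sum_attach (Ioo 0 n) fun i => (-1) ^ i * e i * newt e (n - i)]

theorem map_newt {F : Type} [FunLike F R R'] [RingHomClass F R R'] (φ : F) (e : ℕ → R) (n : ℕ) :
    φ (newt e n) = newt (fun i => φ (e i)) n := by
  induction n using Nat.strong_induction_on with
  | _ n ih =>
    rw [newt_eq, newt_eq, map_sub, map_sum]
    congr 1
    · simp
    · refine sum_congr rfl fun i hi => ?_
      have := mem_Ioo.1 hi
      rw [map_mul, map_mul, ih _ (by omega)]
      simp

theorem newt_congr {e e' : ℕ → R} {n : ℕ} (h : ∀ i, 0 < i → i ≤ n → e i = e' i) :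
    newt e n = newt e' n := by
  induction n using Nat.strong_induction_on with
  | _ n ih =>
    rw [newt_eq, newt_eq]
    congr 1
    · rcases Nat.eq_zero_or_pos n with rfl | hn
      · simp
      · rw [h n hn le_rfl]
    · refine sum_congr rfl fun i hi => ?_
      have := mem_Ioo.1 hi
      rw [h i this.1 this.2.le, ih (n - i) (by omega) fun j h0 hj => h j h0 (by omega)]

/-- the last term occurs linearly. -/
theorem newt_top {e e' : ℕ → R} {n : ℕ} (h : ∀ i, 0 < i → i < n → e i = e' i) :
    newt e' n = newt e n + (-1) ^ (n + 1) * n * (e' n - e n) := by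
  rw [newt_eq, newt_eq e]
  have : ∑ i ∈ Ioo 0 n, (-1) ^ i * e' i * newt e' (n - i) =
      ∑ i ∈ Ioo 0 n, (-1) ^ i * e i * newt e (n - i) := by
    refine sum_congr rfl fun i hi => ?_
    have := mem_Ioo.1 hi
    rw [h i this.1 this.2, newt_congr (e := e) (e' := e') fun j h0 hj => h j h0 (by omega)]
  rw [this]
  ring

theorem newt_low {e : ℕ → R} {n : ℕ} (h : ∀ i, 0 < i → i < n → e i = 0) :
    newt e n = (-1) ^ (n + 1) * n * e n := by
  rw [newt_eq, sum_eq_zero, sub_zero]
  intro i hi
  have := mem_Ioo.1 hi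
  rw [h i this.1 this.2]
  ring

/-- if `e i = 0` for `i < a`, then `e r` occurs in `newt e (a + r)` only in one product. -/
theorem newt_lin {e e' : ℕ → R} {a r : ℕ} (ha : 0 < a) (har : a < r)
    (h0 : ∀ i, 0 < i → i < a → e i = 0) (h : ∀ i, i ≠ r → e i = e' i) :
    newt e' (a + r) = newt e (a + r) + (-1) ^ (a + r) * (a + r : ℕ) * e a * (e' r - e r) := by
  have key : ∑ i ∈ Ioo 0 (a + r), ((-1) ^ i * e' i * newt e' (a + r - i) -
      (-1) ^ i * e i * newt e (a + r - i)) =
      -((-1) ^ (a + r) * (a + r : ℕ) * e a * (e' r - e r)) := by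
    rw [sum_eq_add_of_mem a r (mem_Ioo.2 (by omega)) (mem_Ioo.2 (by omega)) (by omega)]
    · rw [Nat.add_sub_cancel_left, Nat.add_sub_cancel, ← h a (by omega),
        newt_top (e := e) (e' := e') fun i _ hi => h i (by omega),
        ← newt_congr (e := e) (e' := e') (n := a) fun i _ hi => h i (by omega), newt_low h0]
      push_cast
      ring
    · intro i hi hne
      have := mem_Ioo.1 hi
      rw [← h i hne.2]
      rcases Nat.lt_or_ge i a with hia | hia
      · rw [h0 i this.1 hia]
        ring
      · rw [newt_congr (e := e) (e' := e') fun j _ hj => h j (by omega), sub_self]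
  rw [sum_sub_distrib] at key
  rw [newt_eq, newt_eq e, ← h (a + r) (by omega)]
  linear_combination -key

theorem newt_esymm (σ : Type) [Fintype σ] (n : ℕ) (hn : 0 < n) :
    newt (MvPolynomial.esymm σ R) n = MvPolynomial.psum σ R n := by
  classical
  induction n using Nat.strong_induction_on with
  | _ n ih =>
    rw [newt_eq, MvPolynomial.psum_eq_mul_esymm_sub_sum σ R n hn, sum_filter,
      Nat.sum_antidiagonal_eq_sum_range_succ_mk, ← sum_filter]
    congr 1
    refine sum_congr ?_ fun i hi => ?_
    · ext i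
      simp only [mem_Ioo, mem_filter, mem_range, Set.mem_Ioo]
      omega
    · have := (mem_filter.1 hi).2
      simp only [Set.mem_Ioo] at this
      rw [ih _ (by omega) (by omega)]

end Pool.Agent.Lib.MP_40dc3c_ag.T
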