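import Pool.Agent.Lib.MP_40dc3c_ag.T.B1
import Pool.Agent.Lib.MP_40dc3c_ag.T.B4a

/-! The multiplication formula: the constant factor. -/

namespace Pool.Agent.Lib.MP_40dc3c_ag.T

open scoped TensorProduct
open Function

open MvPolynomial

variable {k : Type} [Field k] [IsAlgClosed k] (ω : kˣ →* ℂˣ) (p : ℕ) [Fact p.Prime] [CharP k p]

/-- the variables, numbered from `j + 1` on. -/
noncomputable def nvar (k : Type) [Field k] (j m i : ℕ) : MvPolynomial (Fin m) k :=
  if h : j < i ∧ i - (j + 1) < m then X ⟨i - (j + 1), h.2⟩ else 0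

/-- the last variable as the variable of a polynomial ring. -/
noncomputable def lastEquiv (k : Type) [Field k] (m : ℕ) :
    MvPolynomial (Fin (m + 1)) k ≃ₐ[k] Polynomial (MvPolynomial (Fin m) k) :=
  (renameEquiv k finSuccEquivLast).trans (optionEquivLeft k (Fin m))

omit [IsAlgClosed k] in
theorem lastEquiv_nvar (j m i : ℕ) : lastEquiv k m (nvar k j (m + 1) i) =
    if i = j + 1 + m then Polynomial.X else Polynomial.C (nvar k j m i) := by
  unfold nvar
  by_cases h1 : i = j + 1 + m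
  · rw [if_pos h1, dif_pos (by omega)]
    have : (⟨i - (j + 1), by omega⟩ : Fin (m + 1)) = Fin.last m := Fin.ext (by simp; omega)
    rw [this]
    simp [lastEquiv]
  · rw [if_neg h1]
    by_cases h2 : j < i ∧ i - (j + 1) < m
    · rw [dif_pos h2, dif_pos (by omega)]
      have : (⟨i - (j + 1), by omega⟩ : Fin (m + 1)) = Fin.castSucc ⟨i - (j + 1), h2.2⟩ := rfl
      rw [this]
      simp only [lastEquiv, AlgEquiv.trans_apply, renameEquiv_apply, rename_X,
        finSuccEquivLast_castSucc, optionEquivLeft_X_some]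
    · rw [dif_neg h2, dif_neg (by omega), map_zero, map_zero]

/-- the first variable is sent to zero. -/
noncomputable def killFirst (k : Type) [Field k] (m : ℕ) :
    MvPolynomial (Fin (m + 1)) k →ₐ[k] MvPolynomial (Fin m) k :=
  ((Polynomial.aeval (0 : MvPolynomial (Fin m) k)).restrictScalars k).comp
    (MvPolynomial.finSuccEquiv k m).toAlgHom

omit [IsAlgClosed k] in
theorem killFirst_apply (m : ℕ) (a : MvPolynomial (Fin (m + 1)) k) :
    killFirst k m a = (MvPolynomial.finSuccEquiv k m a).coeff 0 := by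
  simp [killFirst, Polynomial.coeff_zero_eq_eval_zero]

omit [IsAlgClosed k] in
theorem killFirst_surj (m : ℕ) : Surjective (killFirst k m) := fun b =>
  ⟨(MvPolynomial.finSuccEquiv k m).symm (Polynomial.C b), by rw [killFirst_apply]; simp⟩

omit [IsAlgClosed k] in
theorem killFirst_eq_zero (m : ℕ) (a : MvPolynomial (Fin (m + 1)) k) :
    killFirst k m a = 0 ↔ X 0 ∣ a := by
  rw [killFirst_apply, ← Polynomial.X_dvd_iff, ← finSuccEquiv_X_zero (R := k) (n := m)]
  exact map_dvd_iff (MvPolynomial.finSuccEquiv k m)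

omit [IsAlgClosed k] in
theorem killFirst_nvar (j m i : ℕ) : killFirst k m (nvar k j (m + 1) i) = nvar k (j + 1) m i := by
  unfold nvar
  by_cases h1 : i = j + 1
  · rw [dif_pos (by omega), dif_neg (by omega), killFirst_eq_zero]
    have : (⟨i - (j + 1), by omega⟩ : Fin (m + 1)) = 0 := Fin.ext (by simp; omega)
    rw [this]
  · by_cases h2 : j + 1 < i ∧ i - (j + 1 + 1) < m
    · rw [dif_pos h2, dif_pos (by omega)]
      have : (⟨i - (j + 1), by omega⟩ : Fin (m + 1)) = Fin.succ ⟨i - (j + 1 + 1), h2.2⟩ :=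
        Fin.ext (by simp; omega)
      rw [this, killFirst_apply, finSuccEquiv_X_succ, Polynomial.coeff_C_zero]
    · rw [dif_neg h2, dif_neg (by omega), map_zero]

omit [IsAlgClosed k] in
theorem triv_as_congr (A : Alg k) {f f' : A.R} (h : f = f') :
    (Obj.triv A).as p f (fun _ => rfl) = (Obj.triv A).as p f' (fun _ => rfl) := by
  subst h
  rfl

theorem ge_newt (l : ℕ) (hl : (l : k) ≠ 0) (m : ℕ) : ∀ j, 2 * j + 2 * m + 1 = l →
    Ge (Obj.one k) ((Obj.triv ⟨MvPolynomial (Fin (2 * m)) k⟩).as p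
      (newt (nvar k j (2 * m)) l) fun _ => rfl) := by
  induction m with
  | zero =>
    intro j _
    have h0 : ∀ i, nvar k j (2 * 0) i = 0 := fun i => dif_neg (by omega)
    have h1 : newt (nvar k j (2 * 0)) l = 0 := by
      rw [newt_low fun i _ _ => h0 i, h0]
      exact mul_zero _
    rw [triv_as_congr p ⟨MvPolynomial (Fin (2 * 0)) k⟩ h1]
    refine Ge.trans ?_ (cls_eq.1 (cls_as_zero p _ _)).2
    have : IsEmpty (Fin (2 * 0)) := inferInstanceAs (IsEmpty (Fin 0))
    exact Eqv.iso (X := Obj.triv ⟨MvPolynomial (Fin (2 * 0)) k⟩) (Y := Obj.one k)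
      ⟨(isEmptyAlgEquiv k (Fin (2 * 0))).toAlgHom, 1, fun _ _ => rfl, fun _ => rfl⟩
      (isEmptyAlgEquiv k (Fin (2 * 0))).bijective
  | succ m ih =>
    intro j hj
    refine Ge.trans (ih (j + 1) (by omega)) ?_
    have h1 : newt (nvar k (j + 1) (2 * m)) l =
        killFirst k (2 * m) (newt (nvar k j (2 * m + 1)) l) := by
      rw [map_newt]
      simp only [killFirst_nvar]
    rw [triv_as_congr p ⟨MvPolynomial (Fin (2 * m)) k⟩ h1]
    have hu : IsUnit (C ((-1) ^ l * (l : k)) : MvPolynomial (Fin (2 * m + 1)) k) :=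
      (IsUnit.mk0 _ (mul_ne_zero (pow_ne_zero _ (by simp)) hl)).map C
    refine ge_as_lin p ⟨MvPolynomial (Fin (2 * m + 1)) k⟩ ⟨MvPolynomial (Fin (2 * m + 1 + 1)) k⟩
      ⟨MvPolynomial (Fin (2 * m)) k⟩ (lastEquiv k (2 * m + 1)).symm
      (C ((-1) ^ l * (l : k)) * X 0) (newt (nvar k j (2 * m + 1)) l) (killFirst k (2 * m))
      (killFirst_surj _) (fun a => by rw [killFirst_eq_zero, hu.mul_left_dvd]) ?_
    change newt (nvar k j (2 * m + 1 + 1)) l = _
    rw [eq_comm, AlgEquiv.symm_apply_eq, map_newt, map_newt]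
    have hl' : l = (j + 1) + (j + 1 + (2 * m + 1)) := by omega
    have key := newt_lin (e := fun i => Polynomial.C (nvar k j (2 * m + 1) i))
      (e' := fun i => lastEquiv k (2 * m + 1) (nvar k j (2 * m + 1 + 1) i)) (a := j + 1)
      (r := j + 1 + (2 * m + 1)) (by omega) (by omega)
      (fun i _ hi => by rw [nvar, dif_neg (by omega), map_zero])
      (fun i hi => by rw [lastEquiv_nvar, if_neg hi])
    rw [← hl'] at key
    rw [key, lastEquiv_nvar, if_pos rfl]
    have e1 : nvar k j (2 * m + 1) (j + 1) = X 0 := by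
      rw [nvar, dif_pos (by omega)]
      congr 1
      exact Fin.ext (by simp)
    have e2 : nvar k j (2 * m + 1) (j + 1 + (2 * m + 1)) = 0 := dif_neg (by omega)
    rw [e1, e2]
    simp only [map_mul, map_pow, map_neg, map_one, map_natCast, map_zero]
    ring

theorem exists_newton (n : ℕ) (hn : Even n) (hl : ¬p ∣ n + 1) : ∃ Q : MvPolynomial (Fin n) k,
    aeval (fun i : Fin n => esymm (Fin (n + 1)) k (i + 1)) Q +
      (-1) ^ n * (n + 1) * esymm (Fin (n + 1)) k (n + 1) = psum (Fin (n + 1)) k (n + 1) ∧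
    Ge (Obj.one k) ((Obj.triv ⟨MvPolynomial (Fin n) k⟩).as p Q fun _ => rfl) := by
  obtain ⟨m, rfl⟩ : ∃ m, n = 2 * m := hn.exists_two_nsmul
  refine ⟨newt (nvar k 0 (2 * m)) (2 * m + 1), ?_,
    ge_newt p _ (by rwa [Ne, CharP.cast_eq_zero_iff k p]) m 0 (by omega)⟩
  rw [map_newt, ← newt_esymm _ (2 * m + 1) (by omega), newt_top (e' := esymm (Fin (2 * m + 1)) k)
    (e := fun i => aeval (fun i : Fin (2 * m) => esymm (Fin (2 * m + 1)) k (i + 1))
      (nvar k 0 (2 * m) i))]
  · rw [nvar, dif_neg (by omega), map_zero]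
    push_cast
    ring
  · intro i h0 hi
    rw [nvar, dif_pos (by omega), aeval_X]
    congr 1
    simp only
    omega

theorem phi_two (hω : Injective ω) (hp : ¬p ∣ 2) (S : Alg k) (y : KK (U ω p 2 1).A S)
    (hy : ∀ c, (U ω p 2 1).aut (1, c) S y = psi0 p c • y) : y ∈ (U ω p 2 1).Phi S := by
  have h2 : (2 : k) ≠ 0 := by
    have := (CharP.cast_eq_zero_iff k p 2).not.2 hp
    exact_mod_cast this
  let σ : Unit → rootsOfUnity 2 k := fun _ => ⟨-1, by simp [mem_rootsOfUnity]⟩
  have hσ : ∀ ζ : Unit → rootsOfUnity 2 k, ζ = 1 ∨ ζ = σ := fun ζ => by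
    have h : (((ζ ()).1 : kˣ) : k) ^ 2 = 1 := (mem_rootsOfUnity' _ _).1 (ζ ()).2
    rcases sq_eq_one_iff.1 h with h | h
    · exact Or.inl (funext fun _ => Subtype.ext (Units.ext h))
    · exact Or.inr (funext fun _ => Subtype.ext (Units.ext h))
  have hσσ : σ * σ = 1 := funext fun _ => Subtype.ext (by simp [σ])
  have hω1 : ((ω (-1) : ℂˣ) : ℂ) = -1 := by
    have h : ((ω (-1) : ℂˣ) : ℂ) ^ 2 = 1 := by
      rw [← Units.val_pow_eq_pow_val, ← map_pow]
      simp
    rcases sq_eq_one_iff.1 h with h | h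
    · have h3 : (-1 : kˣ) = 1 := hω (by rw [map_one]; exact Units.ext h)
      have h4 : (-1 : k) = 1 := by simpa using congrArg Units.val h3
      exact absurd (by linear_combination -h4) h2
    · exact h
  have hc : ∀ c, (U ω p 2 1).aut (σ, c) S y = psi0 p c • (U ω p 2 1).aut (σ, 1) S y := fun c => by
    rw [← map_smul, ← hy, ← Obj.aut_mul]
    congr 2
    exact Prod.ext (mul_one _).symm (one_mul _).symm
  have hc' : ∀ ζ c, (U ω p 2 1).aut (ζ, c) S ((U ω p 2 1).aut (σ, 1) S y) =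
      (U ω p 2 1).aut (ζ * σ, c) S y := fun ζ c => by
    rw [← Obj.aut_mul]
    congr 2
    exact Prod.ext rfl (mul_one _)
  have h0 : y + (U ω p 2 1).aut (σ, 1) S y ∈ (U ω p 2 0).Phi S := by
    rintro ⟨ζ, c⟩
    have e : (U ω p 2 0).χ (ζ, c) = psi0 p c := by simp [chis_apply, chi_apply]
    rw [e]
    change (U ω p 2 1).aut (ζ, c) S _ = _
    rw [map_add, hc', smul_add]
    rcases hσ ζ with rfl | rfl
    · rw [one_mul, hy, hc]
    · rw [hσσ, hy, hc, add_comm]
  rw [van_U_zero ω p 2 hp S, Submodule.mem_bot] at h0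
  rintro ⟨ζ, c⟩
  rcases hσ ζ with rfl | rfl
  · rw [hy]
    simp
  · have e : (U ω p 2 1).χ (σ, c) = -psi0 p c := by simp [chis_apply, chi_apply, σ, hω1]
    rw [hc, e, eq_neg_of_add_eq_zero_right h0, smul_neg, neg_smul]

theorem newton_two (hω : Injective ω) (hp : ¬p ∣ 2) :
    aeval (fun i : Fin 1 => esymm (Fin (1 + 1)) k (i + 1)) (X 0 ^ 2 : MvPolynomial (Fin 1) k) +
      (-1) ^ 1 * ((1 : ℕ) + 1) * esymm (Fin (1 + 1)) k (1 + 1) = psum (Fin (1 + 1)) k (1 + 1) ∧
    Ge (U ω p 2 1) ((Obj.triv ⟨MvPolynomial (Fin 1) k⟩).as p (X 0 ^ 2) fun _ => rfl) := by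
  constructor
  · rw [← newt_esymm _ (1 + 1) (by omega), newt_eq, show Finset.Ioo 0 (1 + 1) = {1} from rfl,
      Finset.sum_singleton, newt_low (n := 1 + 1 - 1) fun i _ _ => by omega]
    simp only [map_pow, aeval_X]
    norm_num
    ring
  · have h1 : Ge (U ω p 2 1) ((Obj.triv ⟨MvPolynomial Unit k⟩).as p (∑ i, X i ^ 2)
        fun _ => rfl) := by
      refine Ge.of_same (U ω p 2 1) _ _ _ fun S y hy => ⟨y, ?_, Obj.proj_of_mem _ S hy⟩
      refine phi_two ω p hω hp S y fun c => ?_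
      have h := hy (1, c)
      have e : (U ω p 2 1).act (1, c) = asAct p (Obj.triv ⟨MvPolynomial Unit k⟩) (∑ i, X i ^ 2)
          (fun _ => rfl) (1, c) := by
        refine AdjoinRoot.algHom_ext' (AlgHom.ext fun a => ?_) ?_
        · refine (asAct_of p (aff ω Unit 2 fun _ => 1) _ (aff_inv Unit 2) (1, c) a).trans
            (Eq.trans ?_ (asAct_of p (Obj.triv ⟨MvPolynomial Unit k⟩) _ (fun _ => rfl)
              (1, c) a).symm)
          simp
        · exact (asAct_root p (aff ω Unit 2 fun _ => 1) _ (aff_inv Unit 2) (1, c)).trans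
            (asAct_root p (Obj.triv ⟨MvPolynomial Unit k⟩) _ (fun _ => rfl) (1, c)).symm
      simp only [Obj.aut, e]
      refine Eq.trans h ?_
      simp
    refine h1.trans (Eqv.as_iso p (X := Obj.triv ⟨MvPolynomial (Fin 1) k⟩)
      (Y := Obj.triv ⟨MvPolynomial Unit k⟩)
      ⟨(renameEquiv k finOneEquiv).toAlgHom, 1, fun _ _ => rfl, fun _ => rfl⟩ _ _ (by simp)
      (renameEquiv k finOneEquiv).bijective)

end Pool.Agent.Lib.MP_40dc3c_ag.T
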