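import Pool.Agent.Lib.MP_40dc3c_ag.T.O1

/-! Small tools for Artin-Schreier twists of algebras with trivial action. -/

namespace Pool.Agent.Lib.MP_40dc3c_ag.T.Lin

open scoped TensorProduct
open Function Polynomial

variable {k : Type} [Field k] (p : ℕ) [Fact p.Prime] [CharP k p]

omit [CharP k p] in
theorem as_finite {A : Type} [CommRing A] (f : A) : Module.Finite A (AdjoinRoot (asP p f)) := by
  have : (asP p f).Monic := by
    rcases subsingleton_or_nontrivial A with _ | _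
    · exact monic_of_subsingleton _
    · exact asP_monic p f
  exact this.finite_adjoinRoot

/-- the twist of an algebra with trivial action. -/
@[reducible] noncomputable def tas (A : Alg k) (f : A.R) : Obj k :=
  (Obj.triv A).as p f fun _ => rfl

/-- maps between objects with trivial action. -/
def ofTriv {A B : Alg k} (φ : A.R →ₐ[k] B.R) : Eqv (Obj.triv A) (Obj.triv B) :=
  ⟨φ, 1, fun _ _ => rfl, fun _ => rfl⟩

theorem aut_tas (X : Obj k) (f : X.A.R) (hf : ∀ g, X.act g f = f) (c : Multiplicative (ZMod p))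
    (S : Alg k) (x) : (X.as p f hf).aut (1, c) S x = (tas p X.A f).aut (1, c) S x := by
  have e : asAct p X f hf (1, c) = asAct p (Obj.triv X.A) f (fun _ => rfl) (1, c) :=
    AdjoinRoot.algHom_ext' (AlgHom.ext fun a => (asAct_of p X f hf _ a).trans
      ((by rw [map_one]; rfl : _ = _).trans (asAct_of p (Obj.triv X.A) f (fun _ => rfl) (1, c) a).symm))
      ((asAct_root p X f hf _).trans (asAct_root p (Obj.triv X.A) f (fun _ => rfl) (1, c)).symm)
  unfold Obj.aut
  congr 3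

theorem mem_tas {X : Obj k} {f : X.A.R} {hf : ∀ g, X.act g f = f} {S : Alg k} {x} :
    x ∈ (tas p X.A f).Phi S ↔ ∀ c, (X.as p f hf).aut (1, c) S x = psi0 p c • x :=
  ⟨fun h c => by rw [aut_tas, h (1, c)]; simp, fun h c => by
    have := h c.2
    rw [aut_tas] at this
    simpa using this⟩

theorem aut_chi (X : Obj k) (f : X.A.R) (hf : ∀ g, X.act g f = f) (χ : X.G →* ℂ) (g : X.G)
    (c : Multiplicative (ZMod p)) (S : Alg k) (x) :
    ((⟨X.A, X.G, X.act, χ⟩ : Obj k).as p f hf).aut (g, c) S x = (X.as p f hf).aut (g, c) S x := by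
  have e : asAct p (⟨X.A, X.G, X.act, χ⟩ : Obj k) f hf (g, c) = asAct p X f hf (g, c) := rfl
  unfold Obj.aut
  congr 3

theorem two_aux {G C V : Type*} [Group G] [Group C] [AddCommGroup V] [Module ℂ V]
    (T : G × C → V →ₗ[ℂ] V) (t1 : ∀ x, T 1 x = x) (t2 : ∀ g h x, T (g * h) x = T g (T h x))
    (ψ : C → ℂ) (σ : G) (hσ : ∀ g, g = 1 ∨ g = σ) (y : V) (hy : ∀ c, T (1, c) y = ψ c • y)
    (hv : ∀ z, (∀ g, T g z = ψ g.2 • z) → z = 0) (χ : G →* ℂ) (hχ : χ σ = -1) (g : G × C) :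
    T g y = (χ g.1 * ψ g.2) • y := by
  have h2 : σ * σ = 1 := (hσ (σ * σ)).elim id fun e => by rw [mul_eq_left.1 e, mul_one]
  have h1 : ∀ ζ c, T (ζ, c) y = ψ c • T (ζ, 1) y := fun ζ c => by
    rw [← map_smul, ← hy c, ← t2, Prod.mk_mul_mk, mul_one, one_mul]
  have h0 : T (1, 1) y = y := t1 y
  have h3 : y + T (σ, 1) y = 0 := hv _ fun ⟨g, c⟩ => by
    rw [map_add, ← t2, Prod.mk_mul_mk, h1, h1 (g * σ), mul_one, smul_add]
    rcases hσ g with e | e
    · rw [e, h0, one_mul]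
    · rw [e, h2, h0, add_comm]
  refine (h1 g.1 g.2).trans ?_
  rcases hσ g.1 with e | e
  · rw [e, h0, map_one, one_mul]
  · rw [e, eq_neg_of_add_eq_zero_right h3, hχ, neg_one_mul, neg_smul, smul_neg]

/-- a group of order two can be forgotten when the invariant part vanishes. -/
theorem ge_forget (X : Obj k) (f : X.A.R) (hf : ∀ g, X.act g f = f) (σ : X.G)
    (hσ : ∀ g, g = 1 ∨ g = σ) (hχ : X.χ σ = -1) (χ : X.G →* ℂ) (h : ∀ g, χ g = 1)
    (hv : Van ((⟨X.A, X.G, X.act, χ⟩ : Obj k).as p f hf)) : Ge (X.as p f hf) (tas p X.A f) := by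
  refine Ge.of_proj (IsTr.id _) fun S y hy => ⟨y, fun g => ?_, Obj.proj_of_mem _ S hy⟩
  refine two_aux (fun g => (X.as p f hf).aut g S) (Obj.aut_one _ S)
    (fun g h => (X.as p f hf).aut_mul g h S) (psi0 p) σ hσ y ((mem_tas p).1 hy)
    (fun z hz => (Submodule.mem_bot ℂ).1 ((hv S).le fun g => ?_)) X.χ hχ g
  refine ((aut_chi p X f hf χ g.1 g.2 S z).trans (hz g)).trans (congrArg (· • z) ?_)
  exact ((congrArg (· * psi0 p g.2) (h g.1)).trans (one_mul _)).symm

end Pool.Agent.Lib.MP_40dc3c_ag.T.Lin
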