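import Pool.Agent.Lib.MP_40dc3c_ag.T.O1

/-! Exterior products. -/

namespace Pool.Agent.Lib.MP_40dc3c_ag.T

open scoped TensorProduct
open Function

variable {k : Type} [Field k]

/-- the left inclusion. -/
noncomputable abbrev inL (A S : Alg k) : A.R →+* A.R ⊗[k] S.R :=
  Algebra.TensorProduct.includeLeftRingHom

/-- the right inclusion. -/
noncomputable abbrev inR (A S : Alg k) : S.R →+* A.R ⊗[k] S.R :=
  (Algebra.TensorProduct.includeRight : S.R →ₐ[k] A.R ⊗[k] S.R)

/-- a quotient algebra. -/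
@[reducible] def Alg.quo (A : Alg k) (I : Ideal A.R) : Alg k := ⟨A.R ⧸ I⟩

/-- the quotient map. -/
def Alg.mkq (A : Alg k) (I : Ideal A.R) : A.R →ₐ[k] (A.quo I).R := Ideal.Quotient.mkₐ k I

/-- the structure map. -/
def Alg.str (A : Alg k) : (Alg.pt k).R →ₐ[k] A.R := Algebra.ofId k A.R

theorem Alg.mkq_surj (A : Alg k) (I : Ideal A.R) : Surjective (A.mkq I) :=
  Ideal.Quotient.mk_surjective

theorem Alg.mkq_finite (A : Alg k) (I : Ideal A.R) : (A.mkq I).toRingHom.Finite :=
  RingHom.Finite.of_surjective _ (A.mkq_surj I)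

theorem Alg.str_flat (A : Alg k) : A.str.toRingHom.Flat :=
  RingHom.flat_algebraMap_iff.2 (inferInstanceAs (Module.Flat k A.R))

/-- the left unit map. -/
noncomputable def lidH (S : Alg k) : (Alg.pt k).R ⊗[k] S.R →+* S.R :=
  (Algebra.TensorProduct.lid k S.R).toRingEquiv.toRingHom

/-- the right unit map. -/
noncomputable def ridH (A : Alg k) : A.R ⊗[k] (Alg.pt k).R →+* A.R :=
  (Algebra.TensorProduct.rid k k A.R).toRingEquiv.toRingHom

theorem lidH_tmul (S : Alg k) (c : k) (s : S.R) : lidH S (c ⊗ₜ s) = c • s := rfl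

theorem ridH_tmul (A : Alg k) (a : A.R) (c : k) : ridH A (a ⊗ₜ c) = c • a := rfl

theorem lidH_bij (S : Alg k) : Bijective (lidH S) := (Algebra.TensorProduct.lid k S.R).bijective

theorem ridH_bij (A : Alg k) : Bijective (ridH A) := (Algebra.TensorProduct.rid k k A.R).bijective

theorem lidH_inR (S : Alg k) (s : S.R) : lidH S (inR (Alg.pt k) S s) = s := one_smul k s

theorem ridH_inL (A : Alg k) (a : A.R) : ridH A (inL A (Alg.pt k) a) = a := one_smul k a

theorem inR_lidH (S : Alg k) (x) : inR (Alg.pt k) S (lidH S x) = x :=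
  (lidH_bij S).1 (lidH_inR S _)

theorem inL_ridH (A : Alg k) (x) : inL A (Alg.pt k) (ridH A x) = x :=
  (ridH_bij A).1 (ridH_inL A _)

theorem inR_pt_bij (S : Alg k) : Bijective (inR (Alg.pt k) S) :=
  bijective_iff_has_inverse.2 ⟨lidH S, lidH_inR S, inR_lidH S⟩

theorem inL_pt_bij (A : Alg k) : Bijective (inL A (Alg.pt k)) :=
  bijective_iff_has_inverse.2 ⟨ridH A, ridH_inL A, inL_ridH A⟩

/-- `K S` as `K (k ⊗ S)`. -/
noncomputable def eR (S : Alg k) : K S.R →ₗ[ℂ] KK (Alg.pt k) S :=
  pull (inR (Alg.pt k) S) (RingHom.Flat.of_bijective (inR_pt_bij S))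

/-- `K A` as `K (A ⊗ k)`. -/
noncomputable def eL (A : Alg k) : K A.R →ₗ[ℂ] KK A (Alg.pt k) :=
  pull (inL A (Alg.pt k)) (RingHom.Flat.of_bijective (inL_pt_bij A))

theorem eR_eq (S : Alg k) :
    eR S = push (lidH S) (RingHom.Finite.of_surjective _ (lidH_bij S).2) :=
  (push_eq_pull _ _ _ _ (lidH_inR S) (inR_lidH S)).symm

theorem eL_eq (A : Alg k) :
    eL A = push (ridH A) (RingHom.Finite.of_surjective _ (ridH_bij A).2) :=
  (push_eq_pull _ _ _ _ (ridH_inL A) (inL_ridH A)).symm

theorem eR_bij (S : Alg k) : Bijective (eR S) := by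
  refine bijective_iff_has_inverse.2
    ⟨pull (lidH S) (RingHom.Flat.of_bijective (lidH_bij S)), fun x => ?_, fun x => ?_⟩
  · rw [eR, pull_pull, pull_congr _ (RingHom.Flat.id _) (RingHom.ext (lidH_inR S)), pull_id]
  · rw [eR, pull_pull, pull_congr _ (RingHom.Flat.id _) (RingHom.ext (inR_lidH S)), pull_id]

theorem eL_bij (A : Alg k) : Bijective (eL A) := by
  refine bijective_iff_has_inverse.2
    ⟨pull (ridH A) (RingHom.Flat.of_bijective (ridH_bij A)), fun x => ?_, fun x => ?_⟩
  · rw [eL, pull_pull, pull_congr _ (RingHom.Flat.id _) (RingHom.ext (ridH_inL A)), pull_id]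
  · rw [eL, pull_pull, pull_congr _ (RingHom.Flat.id _) (RingHom.ext (inL_ridH A)), pull_id]

theorem pushR_eR {S S' : Alg k} (g : S.R →ₐ[k] S'.R) (h : g.toRingHom.Finite) (b) :
    pushR (Alg.pt k) g h (eR S' b) = eR S (push g.toRingHom h b) := by
  rw [eR_eq, eR_eq, pushR, push_push, push_push]
  refine LinearMap.congr_fun (push_congr _ _ (o1_ext fun c s => ?_)) b
  exact (map_smul g c s).symm

theorem pullR_eR {S S' : Alg k} (g : S.R →ₐ[k] S'.R) (h : g.toRingHom.Flat) (b) :
    pullR (Alg.pt k) g h (eR S b) = eR S' (pull g.toRingHom h b) := by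
  rw [eR, eR, pullR, pull_pull, pull_pull]
  exact LinearMap.congr_fun (pull_congr _ _ (RingHom.ext fun _ => rfl)) b

theorem pushL_eL {A B : Alg k} (φ : A.R →ₐ[k] B.R) (h : φ.toRingHom.Finite) (w) :
    pushL φ h (Alg.pt k) (eL B w) = eL A (push φ.toRingHom h w) := by
  rw [eL_eq, eL_eq, pushL, push_push, push_push]
  refine LinearMap.congr_fun (push_congr _ _ (o1_ext fun a c => ?_)) w
  exact (map_smul φ c a).symm

theorem pullL_eL {A B : Alg k} (φ : A.R →ₐ[k] B.R) (h : φ.toRingHom.Flat) (w) :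
    pullL φ h (Alg.pt k) (eL A w) = eL B (pull φ.toRingHom h w) := by
  rw [eL, eL, pullL, pull_pull, pull_pull]
  exact LinearMap.congr_fun (pull_congr _ _ (RingHom.ext fun _ => rfl)) w

/-- the product with a cyclic module on the left. -/
noncomputable def bL (A S : Alg k) (I : Ideal A.R) : K S.R →ₗ[ℂ] KK A S :=
  pushL (A.mkq I) (A.mkq_finite I) S ∘ₗ pullL (A.quo I).str (A.quo I).str_flat S ∘ₗ eR S

/-- the product with a cyclic module on the right. -/
noncomputable def bR (A S : Alg k) (J : Ideal S.R) : K A.R →ₗ[ℂ] KK A S :=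
  pushR A (S.mkq J) (S.mkq_finite J) ∘ₗ pullR A (S.quo J).str (S.quo J).str_flat ∘ₗ eL A

theorem bL_q (A S : Alg k) (I : Ideal A.R) (J : Ideal S.R) :
    bL A S I (q J) = q (I.map (inL A S) ⊔ J.map (inR A S)) := by
  have hs : Surjective (mapL (A.mkq I) S) :=
    Algebra.TensorProduct.map_surjective _ _ (A.mkq_surj I) surjective_id
  have e : (mapL (A.quo I).str S).comp (inR (Alg.pt k) S) = (mapL (A.mkq I) S).comp (inR A S) :=
    RingHom.ext fun s => by
      change (A.quo I).str 1 ⊗ₜ[k] s = A.mkq I 1 ⊗ₜ[k] s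
      rw [map_one, map_one]
  have hk : RingHom.ker (mapL (A.mkq I) S) = I.map (inL A S) := by
    have := Algebra.TensorProduct.rTensor_ker (R := k) (C := S.R) (A.mkq I) (A.mkq_surj I)
    rw [show RingHom.ker (A.mkq I) = I from Ideal.Quotient.mkₐ_ker k I] at this
    exact this
  rw [bL, LinearMap.comp_apply, LinearMap.comp_apply, eR, pull_q, pullL, pull_q, pushL,
    push_q _ _ hs, Ideal.map_map, e, ← Ideal.map_map, Ideal.comap_map_of_surjective _ hs,
    ← RingHom.ker_eq_comap_bot, hk, sup_comm]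

theorem bR_q (A S : Alg k) (I : Ideal A.R) (J : Ideal S.R) :
    bR A S J (q I) = q (I.map (inL A S) ⊔ J.map (inR A S)) := by
  have hs : Surjective (mapR A (S.mkq J)) :=
    Algebra.TensorProduct.map_surjective _ _ surjective_id (S.mkq_surj J)
  have e : (mapR A (S.quo J).str).comp (inL A (Alg.pt k)) = (mapR A (S.mkq J)).comp (inL A S) :=
    RingHom.ext fun a => by
      change a ⊗ₜ[k] (S.quo J).str 1 = a ⊗ₜ[k] S.mkq J 1
      rw [map_one, map_one]
  have hk : RingHom.ker (mapR A (S.mkq J)) = J.map (inR A S) := by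
    have := Algebra.TensorProduct.lTensor_ker (A := A.R) (S.mkq J) (S.mkq_surj J)
    rw [show RingHom.ker (S.mkq J) = J from Ideal.Quotient.mkₐ_ker k J] at this
    exact this
  rw [bR, LinearMap.comp_apply, LinearMap.comp_apply, eL, pull_q, pullR, pull_q, pushR,
    push_q _ _ hs, Ideal.map_map, e, ← Ideal.map_map, Ideal.comap_map_of_surjective _ hs,
    ← RingHom.ker_eq_comap_bot, hk]

theorem exists_box (A S : Alg k) : ∃ box : K A.R →ₗ[ℂ] K S.R →ₗ[ℂ] KK A S,
    ∀ (I : Ideal A.R) (J : Ideal S.R), box (q I) (q J) =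
      q (I.map (Algebra.TensorProduct.includeLeftRingHom : A.R →+* A.R ⊗[k] S.R) ⊔
        J.map (Algebra.TensorProduct.includeRight : S.R →ₐ[k] A.R ⊗[k] S.R)) := by
  let F : (Ideal A.R →₀ ℂ) →ₗ[ℂ] K A.R := Finsupp.linearCombination ℂ q
  let G : (Ideal A.R →₀ ℂ) →ₗ[ℂ] K S.R →ₗ[ℂ] KK A S := Finsupp.linearCombination ℂ (bL A S)
  have hF : LinearMap.range F = ⊤ := by
    rw [Finsupp.range_linearCombination, eq_top_iff, ← span_prime]
    refine Submodule.span_mono ?_
    rintro _ ⟨P, -, rfl⟩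
    exact ⟨P, rfl⟩
  have hG : ∀ x J, G x (q J) = bR A S J (F x) := fun x J => by
    induction x using Finsupp.induction_linear with
    | zero => simp
    | add a b ha hb => rw [map_add, map_add, map_add, LinearMap.add_apply, ha, hb]
    | single I c =>
      simp only [F, G, Finsupp.linearCombination_single, map_smul, LinearMap.smul_apply]
      rw [bL_q, bR_q]
  obtain ⟨s, hs⟩ := F.exists_rightInverse_of_surjective hF
  refine ⟨G ∘ₗ s, fun I J => ?_⟩
  rw [LinearMap.comp_apply, hG, show F (s (q I)) = q I from LinearMap.congr_fun hs _, bR_q]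
  rfl

/-- the exterior product. -/
noncomputable def box (A S : Alg k) : K A.R →ₗ[ℂ] K S.R →ₗ[ℂ] KK A S := (exists_box A S).choose

theorem box_q (A S : Alg k) (I : Ideal A.R) (J : Ideal S.R) : box A S (q I) (q J) =
    q (I.map (Algebra.TensorProduct.includeLeftRingHom : A.R →+* A.R ⊗[k] S.R) ⊔
      J.map (Algebra.TensorProduct.includeRight : S.R →ₐ[k] A.R ⊗[k] S.R)) :=
  (exists_box A S).choose_spec I J

theorem box_left (A S : Alg k) (I : Ideal A.R) (b) : box A S (q I) b = bL A S I b :=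
  LinearMap.congr_fun (ext_q fun P _ => (box_q A S I P).trans (bL_q A S I P).symm) b

theorem box_right (A S : Alg k) (J : Ideal S.R) (w) : box A S w (q J) = bR A S J w :=
  LinearMap.congr_fun (f := (box A S).flip (q J))
    (ext_q fun P _ => (box_q A S P J).trans (bR_q A S P J).symm) w

theorem isTr_bL (A : Alg k) (I : Ideal A.R) : IsTr (Alg.pt k) A fun S =>
    pushL (A.mkq I) (A.mkq_finite I) S ∘ₗ pullL (A.quo I).str (A.quo I).str_flat S :=
  (isTr_pushL _ _).comp (isTr_pullL _ _)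

theorem pushR_box (A : Alg k) {S S' : Alg k} (g : S.R →ₐ[k] S'.R) (h : g.toRingHom.Finite) (w b) :
    pushR A g h (box A S' w b) = box A S w (push g.toRingHom h b) := by
  refine LinearMap.congr_fun (f := pushR A g h ∘ₗ (box A S').flip b)
    (g := (box A S).flip (push g.toRingHom h b)) (ext_q fun P _ => ?_) w
  change pushR A g h (box A S' (q P) b) = box A S (q P) (push g.toRingHom h b)
  rw [box_left, box_left]
  exact ((isTr_bL A P).push_nat S S' g h (eR S' b)).symm.trans (congrArg _ (pushR_eR g h b))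

theorem pullR_box (A : Alg k) {S S' : Alg k} (g : S.R →ₐ[k] S'.R) (h : g.toRingHom.Flat) (w b) :
    pullR A g h (box A S w b) = box A S' w (pull g.toRingHom h b) := by
  refine LinearMap.congr_fun (f := pullR A g h ∘ₗ (box A S).flip b)
    (g := (box A S').flip (pull g.toRingHom h b)) (ext_q fun P _ => ?_) w
  change pullR A g h (box A S (q P) b) = box A S' (q P) (pull g.toRingHom h b)
  rw [box_left, box_left]
  exact ((isTr_bL A P).pull_nat S S' g h (eR S b)).symm.trans (congrArg _ (pullR_eR g h b))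

/-- interchange, explicit form. -/
theorem IsTr.box_eq {A B : Alg k} {θ} (h : IsTr A B θ) {w : K A.R} {w' : K B.R}
    (hw : θ (Alg.pt k) (eL A w) = eL B w') (S b) : θ S (box A S w b) = box B S w' b := by
  refine LinearMap.congr_fun (f := θ S ∘ₗ box A S w) (ext_q fun P _ => ?_) b
  rw [LinearMap.comp_apply, box_right, box_right, bR, bR]
  simp only [LinearMap.comp_apply]
  rw [h.push_nat, h.pull_nat, hw]

theorem pushL_box {A B : Alg k} (φ : A.R →ₐ[k] B.R) (h : φ.toRingHom.Finite) (S : Alg k) (w b) :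
    pushL φ h S (box B S w b) = box A S (push φ.toRingHom h w) b :=
  (isTr_pushL φ h).box_eq (pushL_eL φ h w) S b

theorem pullL_box {A B : Alg k} (φ : A.R →ₐ[k] B.R) (h : φ.toRingHom.Flat) (S : Alg k) (w b) :
    pullL φ h S (box A S w b) = box B S (pull φ.toRingHom h w) b :=
  (isTr_pullL φ h).box_eq (pullL_eL φ h w) S b

/-- interchange. -/
theorem IsTr.exists_box {A B : Alg k} {θ} (h : IsTr A B θ) (w : K A.R) :
    ∃ w' : K B.R, ∀ S b, θ S (box A S w b) = box B S w' b := by
  obtain ⟨w', hw⟩ := (eL_bij B).2 (θ (Alg.pt k) (eL A w))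
  exact ⟨w', h.box_eq hw.symm⟩

/-- the unit on the right. -/
theorem box_pt_right (A : Alg k) (w) : box A (Alg.pt k) w (q ⊥) = eL A w := by
  refine LinearMap.congr_fun (f := (box A (Alg.pt k)).flip (q ⊥)) (ext_q fun P _ => ?_) w
  rw [LinearMap.flip_apply, box_q, eL, pull_q, Ideal.map_bot, sup_bot_eq]

/-- the unit on the left. -/
theorem box_pt_left (S : Alg k) (b) : box (Alg.pt k) S (q ⊥) b = eR S b := by
  refine LinearMap.congr_fun (ext_q fun P _ => ?_) b
  rw [box_q, eR, pull_q, Ideal.map_bot, bot_sup_eq]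
  rfl

/-- for fixed left factor the exterior product is a natural family from the point. -/
theorem exists_isTr_box (A : Alg k) (w : K A.R) :
    ∃ θ, IsTr (Alg.pt k) A θ ∧ ∀ S b, θ S (eR S b) = box A S w b := by
  let e := fun S : Alg k => LinearEquiv.ofBijective (eR S) (eR_bij S)
  have he : ∀ S b, (e S).symm (eR S b) = b := fun S b => (e S).symm_apply_apply b
  refine ⟨fun S => box A S w ∘ₗ (e S).symm.toLinearMap, ⟨fun S S' g h x => ?_, fun S S' g h x => ?_⟩,
    fun S b => congrArg _ (he S b)⟩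
  · obtain ⟨b, rfl⟩ := (eR_bij S').2 x
    simp only [LinearMap.comp_apply, LinearEquiv.coe_coe]
    rw [pushR_eR, he, he, pushR_box]
  · obtain ⟨b, rfl⟩ := (eR_bij S).2 x
    simp only [LinearMap.comp_apply, LinearEquiv.coe_coe]
    rw [pullR_eR, he, he, pullR_box]

end Pool.Agent.Lib.MP_40dc3c_ag.T
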