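import Pool.Agent.Lib.MP_40dc3c_ag.T.O3
import Pool.Agent.Lib.MP_40dc3c_ag.T.O4a

/-! Split objects and the unit lemma. -/

namespace Pool.Agent.Lib.MP_40dc3c_ag.T

open scoped TensorProduct
open Function

variable {k : Type} [Field k]

/-- every element of the eigenspaces is a sum of exterior products. -/
def Split (X : Obj k) : Prop :=
  ∀ S, X.Phi S ≤ Submodule.span ℂ {x | ∃ w b, x = box X.A S w b}

theorem K_pt (w : K (Alg.pt k).R) : ∃ c : ℂ, w = c • q ⊥ := by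
  have h : w ∈ Submodule.span ℂ {q (⊥ : Ideal (Alg.pt k).R)} := by
    refine Submodule.span_mono ?_ (span_prime (R := (Alg.pt k).R) ▸ Submodule.mem_top (x := w))
    rintro _ ⟨P, hP, rfl⟩
    exact congrArg q (Ideal.eq_bot_of_prime P)
  obtain ⟨c, hc⟩ := Submodule.mem_span_singleton.1 h
  exact ⟨c, hc.symm⟩

theorem mem_one_Phi (S : Alg k) (x) : x ∈ (Obj.one k).Phi S := fun g => by
  rw [show g = 1 from rfl, Obj.aut_one, map_one, one_smul]

theorem Obj.box_mem (X : Obj k) {w} (hw : eL X.A w ∈ X.Phi (Alg.pt k)) (S b) :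
    box X.A S w b ∈ X.Phi S := fun g => by
  rw [(X.isTr_aut g).box_eq (w' := X.χ g • w) (by rw [hw g, map_smul]), map_smul,
    LinearMap.smul_apply]

theorem Split.of_ge {X Y : Obj k} (h : Split X) (h' : Ge X Y) : Split Y := by
  obtain ⟨θ, hθ, hs⟩ := h'
  intro S
  rw [← hs S]
  refine (Submodule.map_mono (h S)).trans ?_
  rw [Submodule.map_span]
  refine Submodule.span_mono ?_
  rintro _ ⟨_, ⟨w, b, rfl⟩, rfl⟩
  obtain ⟨w', hw⟩ := hθ.exists_box w
  exact ⟨w', b, hw S b⟩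

theorem split_one : Split (Obj.one k) := fun S x _ => by
  obtain ⟨b, rfl⟩ := (eR_bij S).2 x
  exact Submodule.subset_span ⟨_, b, (box_pt_left S b).symm⟩

theorem split_of_finite [IsAlgClosed k] (X : Obj k) [Module.Finite k X.A.R] : Split X := by
  intro S
  refine le_top.trans ?_
  rw [← span_prime]
  refine Submodule.span_mono ?_
  rintro _ ⟨P, hP, rfl⟩
  refine ⟨q (P.comap (inL X.A S)), q (P.comap (inR X.A S)), ?_⟩
  rw [box_q]
  congr 1
  have h1 : (P.comap (inL X.A S)).map (inL X.A S) ≤ P := Ideal.map_comap_le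
  have h2 : (P.comap (inR X.A S)).map (inR X.A S) ≤ P := Ideal.map_comap_le
  refine le_antisymm (fun x hx => ?_) (sup_le h1 h2)
  have h3 : ∀ x : X.A.R ⊗[k] S.R, ∃ s,
      x - inR X.A S s ∈ (P.comap (inL X.A S)).map (inL X.A S) := fun x => by
    induction x using TensorProduct.induction_on with
    | zero => exact ⟨0, by simp⟩
    | add x y hx hy =>
      obtain ⟨s, hs⟩ := hx
      obtain ⟨t, ht⟩ := hy
      exact ⟨s + t, by rw [map_add, add_sub_add_comm]; exact add_mem hs ht⟩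
    | tmul a s =>
      obtain ⟨c, hc⟩ := (IsAlgClosed.algebraMap_bijective_of_isIntegral (k := k)
        (K := X.A.R ⧸ P.comap (inL X.A S))).2 (Ideal.Quotient.mk _ a)
      have h4 : a - algebraMap k _ c ∈ P.comap (inL X.A S) := Ideal.Quotient.eq.1 hc.symm
      refine ⟨c • s, ?_⟩
      have e : a ⊗ₜ[k] s - inR X.A S (c • s) =
          inL X.A S (a - algebraMap k _ c) * inR X.A S s := by
        change a ⊗ₜ[k] s - 1 ⊗ₜ[k] (c • s) = (a - algebraMap k _ c) ⊗ₜ[k] 1 * 1 ⊗ₜ[k] s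
        rw [Algebra.TensorProduct.tmul_mul_tmul, mul_one, one_mul, TensorProduct.sub_tmul,
          Algebra.algebraMap_eq_smul_one, TensorProduct.smul_tmul]
      rw [e]
      exact Ideal.mul_mem_right _ _ (Ideal.mem_map_of_mem _ h4)
  obtain ⟨s, hs⟩ := h3 x
  have h5 : inR X.A S s ∈ P := by
    have := sub_mem hx (h1 hs)
    rwa [sub_sub_cancel] at this
  rw [← sub_add_cancel x (inR X.A S s)]
  exact add_mem (Ideal.mem_sup_left hs) (Ideal.mem_sup_right (Ideal.mem_map_of_mem (inR X.A S) h5))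

/-- passing to a larger group on the same algebra. -/
theorem Split.of_hom {X : Obj k} {H : Type} [Group H] [Fintype H] (π : H →* X.G)
    (h : Split ⟨X.A, H, X.act.comp π, X.χ.comp π⟩) : Split X :=
  fun S _ hx => h S fun g => hx (π g)

theorem o4_f_box (A B : Alg k) (w v) :
    o3_f A B (Alg.pt k) (box A (B.ten (Alg.pt k)) w (eL B v)) = eL (A.ten B) (box A B w v) := by
  have h := pullR_box A (S := B) (S' := B.ten (Alg.pt k)) Algebra.TensorProduct.includeLeft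
    (RingHom.Flat.of_bijective (inL_pt_bij B)) w v
  rw [show box A (B.ten (Alg.pt k)) w (eL B v) = _ from h.symm, o3_f, pullR, pull_pull, eL]
  refine LinearMap.congr_fun (pull_congr _ _ ?_) _
  exact o1_ext fun _ _ => rfl

/-- the product with a cyclic module of a second factor is a natural family. -/
theorem o4_tau (A B : Alg k) (Q : Ideal B.R) : ∃ τ, IsTr A (A.ten B) τ ∧
    ∀ w, τ (Alg.pt k) (eL A w) = eL (A.ten B) (box A B w (q Q)) := by
  let φ : (A.ten B).R →ₐ[k] (A.ten (B.quo Q)).R :=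
    Algebra.TensorProduct.map (AlgHom.id k A.R) (B.mkq Q)
  let ψ : A.R →ₐ[k] (A.ten (B.quo Q)).R := Algebra.TensorProduct.includeLeft
  have hφ : φ.toRingHom.Finite := mapR_finite A (B.mkq_finite Q)
  have e : ψ.toRingHom = (mapR A (B.quo Q).str).comp (inL A (Alg.pt k)) :=
    RingHom.ext fun a => by
      change a ⊗ₜ[k] 1 = a ⊗ₜ[k] (B.quo Q).str 1
      rw [map_one]
  have h0 := (RingHom.Flat.of_bijective (inL_pt_bij A)).comp (mapR_flat A (B.quo Q).str_flat)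
  have hψ : ψ.toRingHom.Flat := e ▸ h0
  refine ⟨_, (isTr_pushL φ hφ).comp (isTr_pullL ψ hψ), fun w => ?_⟩
  rw [LinearMap.comp_apply, pullL_eL, pushL_eL, box_right, bR, LinearMap.comp_apply,
    LinearMap.comp_apply, eL, eL, pullR, pull_pull, pull_congr hψ h0 e]
  rfl

theorem Split.ge_one {C C' : Obj k} (h : Split C) (h' : Ge (C.ten C') (Obj.one k)) :
    Ge C (Obj.one k) := by
  obtain ⟨σ, hσ, hs⟩ := h'
  by_cases hc : ∃ w Q, eL C.A w ∈ C.Phi (Alg.pt k) ∧
      σ (Alg.pt k) (eL (C.A.ten C'.A) (box C.A C'.A w (q Q))) ≠ 0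
  · obtain ⟨w, Q, hw, h0⟩ := hc
    obtain ⟨τ, hτ, e⟩ := o4_tau C.A C'.A Q
    obtain ⟨u, hu⟩ := (eL_bij (Alg.pt k)).2 (σ (Alg.pt k) (eL _ (box C.A C'.A w (q Q))))
    obtain ⟨c, rfl⟩ := K_pt u
    have hc : c ≠ 0 := by
      rintro rfl
      exact h0 (by rw [← hu, zero_smul, map_zero])
    refine Ge.of_proj (hσ.comp hτ) fun S y hy => ?_
    obtain ⟨b, rfl⟩ := (eR_bij S).2 y
    refine ⟨_, C.box_mem hw S (c⁻¹ • b), ?_⟩
    rw [(hσ.comp hτ).box_eq (w' := c • q ⊥) (by rw [LinearMap.comp_apply, e, hu]),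
      (Obj.one k).proj_of_mem S (mem_one_Phi S _), map_smul, map_smul, LinearMap.smul_apply,
      smul_smul, inv_mul_cancel₀ hc, one_smul, box_pt_left]
  · have h1 : ∀ w b, eL C.A w ∈ C.Phi (Alg.pt k) →
        σ (Alg.pt k) (o3_f C.A C'.A (Alg.pt k) (box C.A _ w b)) = 0 := fun w b hw => by
      obtain ⟨v, rfl⟩ := (eL_bij C'.A).2 b
      rw [o4_f_box]
      refine LinearMap.congr_fun (f := σ (Alg.pt k) ∘ₗ eL (C.A.ten C'.A) ∘ₗ box C.A C'.A w)
        (g := 0) (ext_q fun Q _ => ?_) v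
      by_contra h0
      exact hc ⟨w, Q, hw, h0⟩
    have h2 : ∀ x ∈ Submodule.span ℂ {x | ∃ w b, x = box C.A (C'.A.ten (Alg.pt k)) w b},
        σ (Alg.pt k) (o3_f C.A C'.A (Alg.pt k) (C.proj _ x)) = 0 := fun x hx => by
      induction hx using Submodule.span_induction with
      | mem x hx =>
        obtain ⟨w, b, rfl⟩ := hx
        obtain ⟨w', hw⟩ := (eL_bij C.A).2 (C.proj (Alg.pt k) (eL C.A w))
        rw [C.isTr_proj.box_eq hw.symm]
        exact h1 w' b (hw ▸ C.proj_mem _ _)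
      | zero => simp only [map_zero]
      | add x y _ _ hx hy => simp only [map_add, hx, hy, add_zero]
      | smul c x _ hx => simp only [map_smul, hx, smul_zero]
    have h3 := mem_one_Phi (Alg.pt k) (eL (Alg.pt k) (q ⊥))
    rw [← hs] at h3
    obtain ⟨z, hz, e⟩ := h3
    have h4 := h2 _ (h _ (o3_e_mem hz))
    rw [C.proj_of_mem _ (o3_e_mem hz), o3_fe, e] at h4
    have h5 : q (⊥ : Ideal (Alg.pt k).R) = 0 := (eL_bij _).1 (h4.trans (map_zero _).symm)
    obtain ⟨τ, hτ, -⟩ := o4_tau C.A C'.A ⊤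
    refine Ge.of_proj (hσ.comp hτ) fun S y _ => ⟨0, zero_mem _, ?_⟩
    obtain ⟨b, rfl⟩ := (eR_bij S).2 y
    rw [map_zero, map_zero, ← box_pt_left, h5, map_zero, LinearMap.zero_apply]

/-- between units one direction is enough. -/
theorem cls_eq_of_ge {X Y : Obj k} (hX : IsUnit X.cls) (hY : IsUnit Y.cls) (h : Ge X Y) :
    X.cls = Y.cls := by
  obtain ⟨⟨X'⟩, hX'⟩ := hX.exists_right_inv
  obtain ⟨⟨Y'⟩, hY'⟩ := hY.exists_right_inv
  change X.cls * X'.cls = 1 at hX'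
  change Y.cls * Y'.cls = 1 at hY'
  have h1 : Ge (Obj.one k) (Y.ten X') :=
    (cls_eq.1 ((cls_ten X X').trans (hX'.trans cls_one.symm))).2.trans (h.ten_right X')
  have h2 : ((Y.ten X').ten (X.ten Y')).cls = (Obj.one k).cls := by
    rw [cls_ten, cls_ten, cls_ten, cls_one, mul_comm Y.cls, mul_mul_mul_comm, mul_comm X'.cls, hX',
      hY', one_mul]
  have h3 : (Y.ten X').cls = 1 :=
    cls_eq.2 ⟨(split_one.of_ge h1).ge_one (cls_eq.1 h2).1, h1⟩
  rw [cls_ten] at h3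
  rw [← mul_one X.cls, ← h3, mul_left_comm, hX', mul_one]

theorem exists_gen {Y : Obj k} (h : Ge (Obj.one k) Y) : ∃ z : K Y.A.R,
    (∀ S b, box Y.A S z b ∈ Y.Phi S) ∧ ∀ S, ∀ y ∈ Y.Phi S, ∃ b, y = box Y.A S z b := by
  obtain ⟨θ, hθ, hs⟩ := h
  obtain ⟨z, hz⟩ := hθ.exists_box (q ⊥)
  refine ⟨z, fun S b => ?_, fun S y hy => ?_⟩
  · rw [← hz, ← hs]
    exact ⟨_, mem_one_Phi S _, rfl⟩
  · rw [← hs] at hy
    obtain ⟨x, -, rfl⟩ := hy
    obtain ⟨b, rfl⟩ := (eR_bij S).2 x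
    exact ⟨b, by rw [← hz, box_pt_left]⟩

theorem ge_one_of_inj {Y : Obj k} (h : Ge (Obj.one k) Y) (w : K Y.A.R)
    (h1 : ∀ S b, box Y.A S w b ∈ Y.Phi S) (h2 : ∀ S b, box Y.A S w b = 0 → b = 0) :
    Ge Y (Obj.one k) := by
  obtain ⟨z, -, hz⟩ := exists_gen h
  obtain ⟨θ, hθ, e⟩ := exists_isTr_box Y.A w
  obtain ⟨b0, hb⟩ := hz _ _ (h1 (Alg.pt k) (q ⊥))
  obtain ⟨c, rfl⟩ := K_pt b0
  rw [map_smul, box_pt_right, box_pt_right, ← map_smul] at hb
  have hw : w = c • z := (eL_bij _).1 hb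
  refine Ge.symm_of_inj (X := Obj.one k) hθ (fun S => le_antisymm ?_ fun y hy => ?_)
    fun S x _ hx => ?_
  · rintro _ ⟨x, -, rfl⟩
    obtain ⟨b, rfl⟩ := (eR_bij S).2 x
    rw [e]
    exact h1 S b
  · obtain ⟨b, rfl⟩ := hz S y hy
    by_cases hc : c = 0
    · have : b = 0 := h2 S b (by rw [hw, hc, zero_smul, map_zero, LinearMap.zero_apply])
      rw [this, map_zero]
      exact zero_mem _
    · refine ⟨eR S (c⁻¹ • b), mem_one_Phi S _, ?_⟩
      rw [e, hw, map_smul, map_smul, LinearMap.smul_apply, smul_smul, inv_mul_cancel₀ hc, one_smul]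
  · obtain ⟨b, rfl⟩ := (eR_bij S).2 x
    rw [e] at hx
    rw [h2 S b hx, map_zero]

end Pool.Agent.Lib.MP_40dc3c_ag.T
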