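import Pool.Agent.Lib.MP_40dc3c_ag.T.O4a
import Pool.Agent.Lib.MP_40dc3c_ag.T.O4b

/-! Exterior products, split objects and the unit lemma. -/
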