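import Pool.Agent.Lib.MP_40dc3c_ag.T.B5a
import Pool.Agent.Lib.MP_40dc3c_ag.T.O4
import Pool.Agent.Lib.MP_40dc3c_ag.T.Lin

/-! Supersingular levels: products of two Gauss objects are split. -/

namespace Pool.Agent.Lib.MP_40dc3c_ag.T

open scoped TensorProduct
open Function

namespace Lin

open Polynomial

variable {k : Type} [Field k] (p : ℕ) [Fact p.Prime] [CharP k p]

theorem split_of_tas {X : Obj k} {f : X.A.R} {hf : ∀ g, X.act g f = f}
    (h : Split (tas p X.A f)) : Split (X.as p f hf) := fun S x hx =>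
  h S ((mem_tas p (hf := hf)).2 fun c => (hx (1, c)).trans (congrArg (· • x)
    ((congrArg (· * psi0 p c) (map_one X.χ)).trans (one_mul _))))

theorem split_lin [IsAlgClosed k] (c f : k[X]) (hc : c ≠ 0) :
    Split (tas (k := k) p ⟨k[X][X]⟩ (C c * X + C f)) := by
  have h1 := (AdjoinRoot.powerBasis hc).finite
  have h2 := as_finite p (AdjoinRoot.mkₐ c f)
  have h3 : Module.Finite k (tas (k := k) p ⟨AdjoinRoot c⟩ (AdjoinRoot.mkₐ c f)).A.R :=
    Module.Finite.trans (AdjoinRoot c) (AdjoinRoot (asP p (AdjoinRoot.mkₐ c f)))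
  exact (split_of_finite _).of_ge (ge_as_lin p ⟨k[X]⟩ ⟨k[X][X]⟩ ⟨AdjoinRoot c⟩ AlgEquiv.refl c f
    (AdjoinRoot.mkₐ c) AdjoinRoot.mk_surjective (fun _ => AdjoinRoot.mk_eq_zero) rfl)

theorem split_herm [IsAlgClosed k] (v : ℕ) (hv : ¬p ∣ p ^ v + 1) :
    Split (tas (k := k) p ⟨MvPolynomial (Fin 2) k⟩ (∑ i, MvPolynomial.X i ^ (p ^ v + 1))) := by
  have hp : p.Prime := Fact.out
  have hQ : 0 < p ^ v := pow_pos hp.pos v
  obtain ⟨ε, hε⟩ := IsAlgClosed.exists_pow_nat_eq (-1 : k) (Nat.succ_pos (p ^ v))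
  have h0 : ε ≠ 0 := by
    rintro rfl
    simp at hε
  have hc : (X + X ^ (p ^ v * p ^ v) : k[X]) ≠ 0 := fun h => by
    have := congrArg (coeff · 1) h
    simp only [coeff_add, coeff_X_one, coeff_X_pow, coeff_zero] at this
    split_ifs at this with a
    · rw [Nat.eq_one_of_mul_eq_one_left a.symm] at hv
      exact hv ((CharP.cast_eq_zero_iff k p _).1 (by exact_mod_cast this))
    · simp at this
  let φ : MvPolynomial (Fin 2) k →ₐ[k] k[X][X] :=
    MvPolynomial.aeval ![X + C X ^ p ^ v, C (C ε) * X]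
  have f0 : φ (MvPolynomial.X 0) = X + C X ^ p ^ v := MvPolynomial.aeval_X _ _
  have f1 : φ (MvPolynomial.X 1) = C (C ε) * X := MvPolynomial.aeval_X _ _
  have f2 : ∀ a, φ (MvPolynomial.C a) = C (C a) := fun a => φ.commutes a
  have f3 : φ (MvPolynomial.C ε⁻¹ * MvPolynomial.X 1) = X := by
    rw [map_mul, f1, f2, ← mul_assoc, ← map_mul, ← map_mul, inv_mul_cancel₀ h0, map_one, map_one,
      one_mul]
  refine (split_lin p _ (X ^ (p ^ v * (p ^ v + 1))) hc).of_ge
    ((ofTriv (A := ⟨MvPolynomial (Fin 2) k⟩) (B := ⟨k[X][X]⟩) φ).sh_push p _ _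
      (c := trc p v (C X * X : k[X][X])) (fun _ => rfl) ?_ ?_ fun Ω _ _ _ u => ?_)
  · have e := trc_pow (k := k) p v (C X * X : k[X][X])
    have e2 := congrArg (fun a => (C (C a) : k[X][X])) hε
    simp only [map_pow, map_neg, map_one, Nat.succ_eq_add_one] at e2
    change φ _ = _
    rw [add_sub_assoc, e, Fin.sum_univ_two, map_add, map_pow, map_pow, f0, f1, mul_pow, e2,
      pow_succ (X + _), add_pow_char_pow]
    simp only [map_add, map_pow]
    ring
  · change φ.toRingHom.Finite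
    refine RingHom.IsIntegral.to_finite (fun x => ?_)
      (RingHom.FiniteType.of_comp_finiteType (f := algebraMap k _) ?_)
    · have hX : φ.toRingHom.IsIntegralElem X := f3 ▸ φ.toRingHom.isIntegralElem_map
      have hs : φ.toRingHom.IsIntegralElem (C X) := by
        let := φ.toRingHom.toAlgebra
        refine IsIntegral.of_pow hQ ?_
        rw [eq_sub_of_add_eq' f0.symm]
        exact IsIntegral.sub φ.toRingHom.isIntegralElem_map hX
      induction x using Polynomial.induction_on with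
      | C a =>
        induction a using Polynomial.induction_on with
        | C a => exact f2 a ▸ φ.toRingHom.isIntegralElem_map
        | add a b ha hb => rw [map_add]; exact ha.add _ hb
        | monomial n a h => rw [pow_succ, ← mul_assoc, map_mul]; exact h.mul _ hs
      | add a b ha hb => exact ha.add _ hb
      | monomial n a h => rw [pow_succ, ← mul_assoc]; exact h.mul _ hX
    · rw [show φ.toRingHom.comp (algebraMap k _) = algebraMap k _ from φ.comp_algebraMap,
        RingHom.finiteType_algebraMap]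
      infer_instance
  · have h1 : algebraMap k Ω ε ≠ 0 := by simpa using h0
    obtain ⟨s, hs⟩ := IsAlgClosed.exists_pow_nat_eq (u (MvPolynomial.X 0) -
      u (MvPolynomial.X 1) / algebraMap k Ω ε) hQ
    refine ⟨1, eval₂AlgHom (aeval s) (u (MvPolynomial.X 1) / algebraMap k Ω ε)
      fun _ => Commute.all _ _, MvPolynomial.algHom_ext (Fin.forall_fin_two.2 ⟨?_, ?_⟩)⟩
    · refine (congrArg _ f0).trans ?_
      simp [eval₂_pow, hs]
    · refine (congrArg _ f1).trans ?_
      simp [mul_div_cancel₀ _ h1]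

end Lin

open MvPolynomial

variable {k : Type} [Field k] [IsAlgClosed k] (ω : kˣ →* ℂˣ) (p : ℕ) [Fact p.Prime] [CharP k p]

theorem split_ss (v : ℕ) (hv : ¬p ∣ p ^ v + 1) (c c' : ℤ) :
    Split ((U ω p (p ^ v + 1) c).ten (U ω p (p ^ v + 1) c')) := by
  have h : Split (gau ω p (Fin 2) (p ^ v + 1) ![c, c']) :=
    Lin.split_of_tas p (X := aff ω (Fin 2) (p ^ v + 1) ![c, c']) (Lin.split_herm p v hv)
  refine h.of_ge (cls_eq.1 ?_).1
  rw [cls_gau, Fin.prod_univ_two, cls_ten]
  rfl

end Pool.Agent.Lib.MP_40dc3c_ag.T
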