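import Pool.Agent.Lib.MP_40dc3c_ag.T.ODefs

/-! The concrete objects: affine spaces with diagonal action, Gauss objects, Fermat curves and the
curves `y ^ Q - y = x ^ d`. -/

namespace Pool.Agent.Lib.MP_40dc3c_ag.T

open scoped TensorProduct
open Function MvPolynomial

variable {k : Type} [Field k] (ω : kˣ →* ℂˣ)

/-- the character `ζ ↦ ω ζ ^ c` of the roots of unity. -/
noncomputable def chi (d : ℕ) (c : ℤ) : rootsOfUnity d k →* ℂ :=
  (Units.coeHom ℂ).comp ((zpowGroupHom c).comp (ω.comp (rootsOfUnity d k).subtype))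

theorem chi_apply (d : ℕ) (c : ℤ) (ζ : rootsOfUnity d k) :
    chi ω d c ζ = ((ω ζ.1 : ℂˣ) : ℂ) ^ c := by simp [chi]

/-- the diagonal action. -/
noncomputable def diagAct (ι : Type) (d : ℕ) :
    (ι → rootsOfUnity d k) →* (MvPolynomial ι k →ₐ[k] MvPolynomial ι k) where
  toFun ζ := aeval fun i => C ((ζ i).1 : k) * X i
  map_one' := by ext : 1; simp
  map_mul' ζ η := by
    ext : 1
    simp only [aeval_X, AlgHom.mul_apply, map_mul, aeval_C, algebraMap_eq, Pi.mul_apply,
      Subgroup.coe_mul, Units.val_mul]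
    ring

@[simp] theorem diagAct_X (ι : Type) (d : ℕ) (ζ : ι → rootsOfUnity d k) (i : ι) :
    diagAct ι d ζ (X i) = C ((ζ i).1 : k) * X i := by simp [diagAct]

theorem diagAct_X_pow (ι : Type) (d : ℕ) (ζ : ι → rootsOfUnity d k) (i : ι) :
    diagAct ι d ζ (X i ^ d) = X i ^ d := by
  have h : (((ζ i).1 : kˣ) : k) ^ d = 1 := (mem_rootsOfUnity' _ _).1 (ζ i).2
  rw [map_pow, diagAct_X, mul_pow, ← map_pow, h, map_one, one_mul]

/-- the product character. -/
noncomputable def chis {ι : Type} [Fintype ι] (d : ℕ) (c : ι → ℤ) :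
    (ι → rootsOfUnity d k) →* ℂ :=
  ∏ i, (chi ω d (c i)).comp (Pi.evalMonoidHom (fun _ => rootsOfUnity d k) i)

theorem chis_apply {ι : Type} [Fintype ι] (d : ℕ) (c : ι → ℤ) (ζ : ι → rootsOfUnity d k) :
    chis ω d c ζ = ∏ i, chi ω d (c i) (ζ i) := by simp [chis]

/-- affine space with the diagonal action of the roots of unity. -/
@[reducible] noncomputable def aff (ι : Type) [Fintype ι] (d : ℕ) [NeZero d] (c : ι → ℤ) :
    Obj k :=
  letI := Fintype.ofFinite (ι → rootsOfUnity d k)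
  ⟨⟨MvPolynomial ι k⟩, ι → rootsOfUnity d k, diagAct ι d, chis ω d c⟩

theorem aff_inv (ι : Type) [Fintype ι] (d : ℕ) (ζ : ι → rootsOfUnity d k) :
    diagAct ι d ζ (∑ i, X i ^ d) = ∑ i, X i ^ d := by
  rw [map_sum]
  exact Finset.sum_congr rfl fun i _ => diagAct_X_pow ι d ζ i

/-- the equation of the affine Fermat curve. -/
noncomputable def ferP (k : Type) [Field k] (m : ℕ) : MvPolynomial (Fin 2) k :=
  ∑ i, X i ^ m + 1

theorem fer_inv (m : ℕ) (ζ : Fin 2 → rootsOfUnity m k) (a : MvPolynomial (Fin 2) k)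
    (ha : a ∈ Ideal.span {ferP k m}) : diagAct (Fin 2) m ζ a ∈ Ideal.span {ferP k m} := by
  obtain ⟨b, rfl⟩ := Ideal.mem_span_singleton'.1 ha
  rw [map_mul, ferP, map_add, aff_inv, map_one]
  exact Ideal.mul_mem_left _ _ (Ideal.mem_span_singleton_self _)

/-- the affine Fermat curve `u ^ m + v ^ m + 1 = 0` with the character `(c 0, c 1)`. -/
@[reducible] noncomputable def fer (m : ℕ) [NeZero m] (c : Fin 2 → ℤ) : Obj k :=
  (aff ω (Fin 2) m c).quot (Ideal.span {ferP k m}) (fer_inv m)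

variable (p : ℕ) [Fact p.Prime] [CharP k p]

/-- `y ^ p - y = ∑ x i ^ d` with the character `c` and the standard additive character. -/
@[reducible] noncomputable def gau (ι : Type) [Fintype ι] (d : ℕ) [NeZero d] (c : ι → ℤ) :
    Obj k := (aff ω ι d c).as p (∑ i, X i ^ d) (aff_inv ι d)

/-- the Gauss object of `c / d`. -/
@[reducible] noncomputable def U (d : ℕ) [NeZero d] (c : ℤ) : Obj k := gau ω p Unit d fun _ => c

/-- the elements of the field with `p ^ f` elements. -/
def Fq (k : Type) [Field k] (p : ℕ) [Fact p.Prime] [CharP k p] (f : ℕ) : AddSubgroup k where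
  carrier := {c | c ^ p ^ f = c}
  add_mem' {a b} ha hb := by
    simp only [Set.mem_ofPred_eq] at ha hb ⊢
    rw [add_pow_char_pow, ha, hb]
  zero_mem' := by simp [(Fact.out : p.Prime).ne_zero]
  neg_mem' {a} ha := by
    simp only [Set.mem_ofPred_eq] at ha ⊢
    rw [neg_pow, ha, neg_one_pow_char_pow, neg_one_mul]

theorem Fq_finite (f : ℕ) [NeZero f] : Finite (Fq k p f) := by
  have hp : p.Prime := Fact.out
  have h1 : (Polynomial.X ^ p ^ f - Polynomial.X : Polynomial k) ≠ 0 :=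
    FiniteField.X_pow_card_sub_X_ne_zero k (Nat.one_lt_pow (NeZero.ne f) hp.one_lt)
  refine Set.Finite.subset (Polynomial.rootSet_finite (Polynomial.X ^ p ^ f - Polynomial.X :
    Polynomial k) k) fun c hc => ?_
  rw [Polynomial.mem_rootSet]
  have h2 : c ^ p ^ f = c := hc
  exact ⟨h1, by simp [h2]⟩

/-- the equation `y ^ Q - y = x ^ d`, with `x = X 0`, `y = X 1`. -/
noncomputable def easP (k : Type) [Field k] (Q d : ℕ) : MvPolynomial (Fin 2) k :=
  X 1 ^ Q - X 1 - X 0 ^ d

/-- the action `x ↦ ζ x`, `y ↦ y + c` on the plane. -/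
noncomputable def easAct (f d : ℕ) : rootsOfUnity d k × Multiplicative (Fq k p f) →*
    (MvPolynomial (Fin 2) k →ₐ[k] MvPolynomial (Fin 2) k) where
  toFun g := aeval ![C (g.1.1 : k) * X 0, X 1 + C (g.2.toAdd : k)]
  map_one' := by ext i : 1; fin_cases i <;> simp
  map_mul' g h := by
    ext i : 1
    fin_cases i
    · simp; ring
    · simp; ring

@[simp] theorem easAct_X0 (f d : ℕ) (g : rootsOfUnity d k × Multiplicative (Fq k p f)) :
    easAct p f d g (X 0) = C (g.1.1 : k) * X 0 := by simp [easAct]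

@[simp] theorem easAct_X1 (f d : ℕ) (g : rootsOfUnity d k × Multiplicative (Fq k p f)) :
    easAct p f d g (X 1) = X 1 + C (g.2.toAdd : k) := by simp [easAct]

theorem eas_inv (f d : ℕ) (g : rootsOfUnity d k × Multiplicative (Fq k p f))
    (a : MvPolynomial (Fin 2) k) (ha : a ∈ Ideal.span {easP k (p ^ f) d}) :
    easAct p f d g a ∈ Ideal.span {easP k (p ^ f) d} := by
  obtain ⟨b, rfl⟩ := Ideal.mem_span_singleton'.1 ha
  have h1 : ((g.1.1 : kˣ) : k) ^ d = 1 := (mem_rootsOfUnity' _ _).1 g.1.2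
  have h2 : (g.2.toAdd : k) ^ p ^ f = g.2.toAdd := g.2.toAdd.2
  have h3 : easAct p f d g (easP k (p ^ f) d) = easP k (p ^ f) d := by
    simp only [easP, map_sub, map_pow, easAct_X0, easAct_X1, add_pow_char_pow, mul_pow]
    rw [← map_pow, ← map_pow, h1, h2, map_one]
    ring
  rw [map_mul, h3]
  exact Ideal.mul_mem_left _ _ (Ideal.mem_span_singleton_self _)

/-- the plane with this action. -/
@[reducible] noncomputable def easA (f : ℕ) [NeZero f] (d : ℕ) [NeZero d] (c : ℤ)
    (ψ : Multiplicative (Fq k p f) →* ℂ) : Obj k :=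
  letI := Fq_finite (k := k) p f
  letI := Fintype.ofFinite (rootsOfUnity d k × Multiplicative (Fq k p f))
  ⟨⟨MvPolynomial (Fin 2) k⟩, rootsOfUnity d k × Multiplicative (Fq k p f), easAct p f d,
    (chi ω d c).coprod ψ⟩

/-- the curve `y ^ Q - y = x ^ d`, `Q = p ^ f`, with the characters `c` and `ψ`. -/
@[reducible] noncomputable def eas (f : ℕ) [NeZero f] (d : ℕ) [NeZero d] (c : ℤ)
    (ψ : Multiplicative (Fq k p f) →* ℂ) : Obj k :=
  (easA ω p f d c ψ).quot (Ideal.span {easP k (p ^ f) d}) (eas_inv p f d)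

end Pool.Agent.Lib.MP_40dc3c_ag.T
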