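import Pool.Agent.Lib.MP_40dc3c_ag.T.O5
import Pool.Agent.Lib.MP_40dc3c_ag.T.BDefs

/-! Products of Gauss objects, Frobenius, change of level, the open torus. -/

namespace Pool.Agent.Lib.MP_40dc3c_ag.T

open scoped TensorProduct
open Function

open MvPolynomial

set_option linter.style.haveILetI false
set_option linter.unusedSectionVars false

variable {k : Type} [Field k]

/-- an equivariant isomorphism with a surjective map of groups gives equal classes. -/
theorem Eqv.as_cls (p : ℕ) [Fact p.Prime] [CharP k p] {X Y : Obj k} (E : Eqv X Y) {f : X.A.R}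
    (hf : ∀ g, X.act g f = f) {f' : Y.A.R} (hf' : ∀ g, Y.act g f' = f') (h : E.φ f = f')
    (hb : Bijective E.φ) (hπ : Surjective E.π) : (X.as p f hf).cls = (Y.as p f' hf').cls :=
  cls_eq.2 ⟨E.as_cover p hf hf' h (RingHom.Finite.of_surjective _ hb.2)
    (RingHom.Flat.of_bijective hb) hπ fun _ _ _ _ v v' e =>
      ⟨Y.act 1, ⟨1, map_one _, rfl⟩, AlgHom.ext fun y => by
        obtain ⟨x, rfl⟩ := hb.2 y
        rw [map_one]
        exact (AlgHom.congr_fun e x).symm⟩, E.as_iso p hf hf' h hb⟩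

/-- an equivariant map from affine space. -/
noncomputable def affE (ω : kˣ →* ℂˣ) {ι : Type} [Fintype ι] (d : ℕ) [NeZero d] (c : ι → ℤ)
    (Y : Obj k) (y : ι → Y.A.R) (π : Y.G →* (ι → rootsOfUnity d k))
    (h : ∀ g i, Y.act g (y i) = algebraMap k _ ((π g i).1 : k) * y i)
    (hχ : ∀ g, Y.χ g = chis ω d c (π g)) : Eqv (aff ω ι d c) Y where
  φ := aeval y
  π := π
  comm g a := AlgHom.congr_fun (φ₁ := (aeval y).comp (diagAct ι d (π g)))
    (φ₂ := (Y.act g).comp (aeval y)) (algHom_ext fun i => by simp [h]) a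
  chi := hχ

theorem b1_root [IsAlgClosed k] {Ω : Type} [Field Ω] [Algebra k Ω] (d : ℕ) [NeZero d] {t : Ω}
    (ht : t ^ d = 1) : ∃ ζ : rootsOfUnity d k, algebraMap k Ω (ζ.1 : k) = t := by
  obtain ⟨z, hz⟩ := (IsAlgClosed.splits (Polynomial.X ^ d - Polynomial.C 1 : Polynomial k)
    ).mem_range_of_isRoot (Polynomial.monic_X_pow_sub_C 1 (NeZero.ne d)).ne_zero
    (i := algebraMap k Ω) (x := t) (by simp [ht])
  have h1 : z ^ d = 1 := (algebraMap k Ω).injective (by rw [map_pow, hz, ht, map_one])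
  exact ⟨rootsOfUnity.mkOfPowEq z h1, by simpa using hz⟩

theorem b1_finite {A ι : Type} [CommRing A] [Algebra k A] [Finite ι]
    (φ : A →ₐ[k] MvPolynomial ι k) {e : ℕ} (he : e ≠ 0) (h : ∀ i, ∃ a, φ a = X i ^ e) :
    φ.toRingHom.Finite := by
  refine RingHom.IsIntegral.to_finite (fun x => ?_)
    (RingHom.FiniteType.of_comp_finiteType (f := algebraMap k A) ?_)
  · induction x using MvPolynomial.induction_on with
    | C a => simpa using φ.toRingHom.isIntegralElem_map (x := algebraMap k A a)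
    | add a b ha hb => exact ha.add _ hb
    | mul_X a i ha =>
      obtain ⟨b, hb⟩ := h i
      exact ha.mul _ ⟨_, Polynomial.monic_X_pow_sub_C b he, by simp [hb]⟩
  · rw [show φ.toRingHom.comp (algebraMap k A) = algebraMap k _ from φ.comp_algebraMap]
    exact RingHom.finiteType_algebraMap.2 inferInstance

theorem b1_flat {B : Type} [CommRing B] [IsDomain B] [Algebra k B] (φ : Polynomial k →ₐ[k] B)
    (h : Injective φ) : φ.toRingHom.Flat := by
  letI := φ.toRingHom.toAlgebra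
  refine Module.Flat.flat_iff_torsion_eq_bot_of_isBezout.2 (eq_bot_iff.2 ?_)
  rintro x ⟨⟨a, ha⟩, hx⟩
  exact (mul_eq_zero.1 (show φ a * x = 0 from hx)).resolve_left
    fun e => nonZeroDivisors.ne_zero ha (h (by rw [e, map_zero]))

/-- powers of roots of unity. -/
def powMu (D d e : ℕ) (h : D ∣ e * d) : rootsOfUnity D k →* rootsOfUnity d k where
  toFun ζ := ⟨ζ.1 ^ e, by
    obtain ⟨m, hm⟩ := h
    rw [mem_rootsOfUnity, ← pow_mul, hm, pow_mul, (mem_rootsOfUnity _ _).1 ζ.2, one_pow]⟩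
  map_one' := Subtype.ext (one_pow e)
  map_mul' _ _ := Subtype.ext (mul_pow _ _ e)

variable [IsAlgClosed k] (ω : kˣ →* ℂˣ) (p : ℕ) [Fact p.Prime] [CharP k p]

omit [IsAlgClosed k] in
theorem gau_equiv {ι κ : Type} [Fintype ι] [Fintype κ] (e : ι ≃ κ) (d : ℕ) [NeZero d]
    (c : κ → ℤ) : (gau ω p ι d fun i => c (e i)).cls = (gau ω p κ d c).cls :=
  (affE ω d (fun i => c (e i)) (aff ω κ d c) (fun i => X (e i))
    (MonoidHom.pi fun i => Pi.evalMonoidHom _ (e i)) (fun g i => diagAct_X κ d g (e i))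
    fun g => by
      simp only [chis_apply]
      exact (e.prod_comp _).symm).as_cls p _ _
    (by simpa [affE] using e.sum_comp fun j => (X j : MvPolynomial κ k) ^ d)
    (by
      have : (aeval fun i => X (e i) : MvPolynomial ι k →ₐ[k] MvPolynomial κ k) = rename e :=
        algHom_ext fun i => by simp
      change Bijective (aeval fun i => X (e i) : MvPolynomial ι k →ₐ[k] MvPolynomial κ k)
      rw [this]
      exact (renameEquiv k e).bijective)
    fun g => ⟨fun j => g (e.symm j), funext fun i => by simp [affE]⟩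

omit [IsAlgClosed k] in
theorem gau_empty (d : ℕ) [NeZero d] (c : PEmpty → ℤ) : (gau ω p PEmpty d c).cls = 1 :=
  ((affE ω d c (Obj.one k) PEmpty.elim 1 (fun _ i => i.elim) fun g => by
    simp [chis_apply]).as_cls p _ (f' := 0) (fun _ => map_zero _) (by simp)
    (by
      have : (aeval PEmpty.elim : MvPolynomial PEmpty.{1} k →ₐ[k] k) =
          isEmptyAlgEquiv k PEmpty.{1} := algHom_ext fun i => i.elim
      change Bijective (aeval PEmpty.elim : MvPolynomial PEmpty.{1} k →ₐ[k] k)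
      rw [this]
      exact (isEmptyAlgEquiv k PEmpty.{1}).bijective)
    fun _ => ⟨1, Subsingleton.elim _ _⟩).trans (cls_as_zero p _ _)

omit [IsAlgClosed k] in
theorem gau_option {ι : Type} [Fintype ι] (d : ℕ) [NeZero d] (c : Option ι → ℤ) :
    (gau ω p (Option ι) d c).cls =
      (U ω p d (c none)).cls * (gau ω p ι d fun i => c (some i)).cls := by
  refine ((affE ω d c ((aff ω Unit d fun _ => c none).ten (aff ω ι d fun i => c (some i)))
    (fun o => o.elim (X () ⊗ₜ 1) fun i => 1 ⊗ₜ X i)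
    (MonoidHom.pi fun o => o.elim ((Pi.evalMonoidHom _ ()).comp (MonoidHom.fst _ _))
      fun i => (Pi.evalMonoidHom _ i).comp (MonoidHom.snd _ _)) ?_ ?_).as_cls p _ _ ?_ ?_ ?_).trans
    (cls_as_ten_as p _ _ _ _).symm
  · rintro g (_ | i)
    · simp [tenAct, ← smul_eq_C_mul]
    · rw [← Algebra.smul_def]
      simp [tenAct, ← smul_eq_C_mul]
  · intro g
    simp [chis_apply]
  · simp [affE, TensorProduct.tmul_sum]
  · obtain ⟨ψ, hψ⟩ : ∃ ψ : MvPolynomial Unit k ⊗[k] MvPolynomial ι k →ₐ[k]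
        MvPolynomial (Option ι) k, ψ = Algebra.TensorProduct.productMap (rename fun _ => none)
          (rename some) := ⟨_, rfl⟩
    obtain ⟨φ, hφ⟩ : ∃ φ : MvPolynomial (Option ι) k →ₐ[k]
        MvPolynomial Unit k ⊗[k] MvPolynomial ι k,
        φ = aeval fun o => o.elim (X () ⊗ₜ 1) fun i => 1 ⊗ₜ X i := ⟨_, rfl⟩
    have h1 : ψ.comp φ = AlgHom.id k _ := algHom_ext (by rintro (_ | i) <;> simp [hψ, hφ])
    have h2 : φ.comp ψ = AlgHom.id k _ := by
      ext i <;> simp [hψ, hφ]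
    subst hφ
    exact bijective_iff_has_inverse.2 ⟨ψ, AlgHom.congr_fun h1, AlgHom.congr_fun h2⟩
  · exact fun g => ⟨(fun _ => g none, fun i => g (some i)), funext (by rintro (_ | i) <;> rfl)⟩

theorem cls_gau (ι : Type) [Fintype ι] (d : ℕ) [NeZero d] (c : ι → ℤ) :
    (gau ω p ι d c).cls = ∏ i, (U ω p d (c i)).cls := by
  revert c
  refine Fintype.induction_empty_option (P := fun ι _ => ∀ c : ι → ℤ,
    (gau ω p ι d c).cls = ∏ i, (U ω p d (c i)).cls) (fun α β _ e ih c => ?_) (fun c => ?_)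
    (fun α _ ih c => ?_) ι
  · letI := Fintype.ofEquiv β e.symm
    rw [← gau_equiv ω p e, ih]
    exact e.prod_comp fun j => (U ω p d (c j)).cls
  · rw [gau_empty, Finset.univ_eq_empty, Finset.prod_empty]
  · rw [gau_option, ih, Fintype.prod_option]

theorem cls_U_congr (d : ℕ) [NeZero d] {c c' : ℤ} (h : (d : ℤ) ∣ c - c') :
    (U ω p d c).cls = (U ω p d c').cls := by
  have : chis ω d (fun _ : Unit => c) = chis ω d fun _ : Unit => c' := by
    obtain ⟨m, hm⟩ := h
    refine MonoidHom.ext fun ζ => ?_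
    have h1 : ((ω (ζ ()).1 : ℂˣ) : ℂ) ^ (d : ℤ) = 1 := by
      rw [zpow_natCast, ← Units.val_pow_eq_pow_val, ← map_pow, (mem_rootsOfUnity _ _).1 (ζ ()).2,
        map_one, Units.val_one]
    simp only [chis_apply, chi_apply, Finset.univ_unique, Finset.prod_singleton]
    rw [eq_add_of_sub_eq hm, zpow_add₀ (Units.ne_zero _), zpow_mul, h1, one_zpow, one_mul]
  exact Eqv.as_cls p (X := aff ω Unit d fun _ => c) (Y := aff ω Unit d fun _ => c')
    ⟨AlgHom.id k _, MonoidHom.id _, fun _ _ => rfl, fun g => (DFunLike.congr_fun this g).symm⟩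
    _ _ rfl bijective_id surjective_id

omit [IsAlgClosed k] in
theorem ge_pow (D d e : ℕ) [NeZero D] [NeZero d] (he : e ≠ 0) (h : D ∣ e * d) (c : ℤ)
    {f : MvPolynomial Unit k} (hf : ∀ g, (aff ω Unit D fun _ => c * e).act g f = f)
    (e1 : f = X () ^ (e * d)) : Ge ((aff ω Unit D fun _ => c * e).as p f hf) (U ω p d c) := by
  refine (affE ω d (fun _ : Unit => c) (aff ω Unit D fun _ => c * e) (fun i => X i ^ e)
    (MonoidHom.pi fun i => (powMu D d e h).comp (Pi.evalMonoidHom _ i)) ?_ ?_).as_push p _ _ ?_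
    (b1_finite _ he fun i => ⟨X i, aeval_X _ _⟩) ?_
  · intro g i
    simp [powMu, mul_pow]
  · intro g
    simp only [chis_apply, chi_apply, Finset.univ_unique, Finset.prod_singleton]
    change _ = ((ω ((g default).1 ^ e) : ℂˣ) : ℂ) ^ c
    rw [map_pow, Units.val_pow_eq_pow_val, ← zpow_natCast, ← zpow_mul, mul_comm]
  · simp [affE, e1, pow_mul]
  · intro Ω _ _ _ u
    obtain ⟨t, ht⟩ := IsAlgClosed.exists_pow_nat_eq (u (X ())) (Nat.pos_of_ne_zero he)
    exact ⟨1, aeval fun _ => t, algHom_ext fun i => by simp [affE, ht]⟩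

theorem ge_U_frob (d : ℕ) [NeZero d] (c : ℤ) : Ge (U ω p d (p * c)) (U ω p d c) := by
  have hf : ∀ g, (aff ω Unit d fun _ => c * p).act g (X () ^ (p * d)) = X () ^ (p * d) :=
    fun g => by rw [mul_comm p d, pow_mul, map_pow]; exact congrArg (· ^ p) (diagAct_X_pow _ d g ())
  rw [mul_comm]
  exact (cls_eq.1 (cls_as_eq p (aff ω Unit d fun _ => c * p) (aff_inv Unit d) hf (aff_inv Unit d)
    (by simp [← pow_mul, mul_comm]))).1.trans
    (ge_pow ω p d d p (Fact.out : p.Prime).ne_zero (dvd_mul_left d p) c hf rfl)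

theorem ge_U_level (d e : ℕ) [NeZero d] [NeZero e] (c : ℤ) :
    Ge (U ω p (d * e) (c * e)) (U ω p d c) :=
  ge_pow ω p (d * e) d e (NeZero.ne e) (mul_comm d e).dvd c _ (by simp [mul_comm])

set_option linter.unusedVariables false in
theorem van_U_zero (d : ℕ) [NeZero d] (hd : ¬p ∣ d) : Van (U ω p d 0) := by
  let E : Eqv (Obj.triv ⟨Polynomial k⟩) (aff ω Unit d fun _ => 0) :=
    { φ := Polynomial.aeval (X () ^ d)
      π := 1
      comm := fun g a => (AlgHom.congr_fun (φ₁ := (diagAct Unit d g).comp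
        (Polynomial.aeval (X () ^ d))) (φ₂ := Polynomial.aeval (X () ^ d))
        (Polynomial.algHom_ext (by simpa using diagAct_X_pow Unit d g ())) a).symm
      chi := fun g => by simp [chis_apply, chi_apply] }
  refine (van_as_lin p (Obj.triv ⟨Polynomial k⟩) (Alg.pt k) AlgEquiv.refl 0 (f := Polynomial.X)
    (fun _ => rfl) (by simp)).of_ge (E.as_cover p _ _ (by simp [E])
      (b1_finite _ (NeZero.ne d) fun _ => ⟨Polynomial.X, Polynomial.aeval_X _⟩)
      (b1_flat _ (transcendental_iff_injective.1 ((transcendental_X k ()).pow (NeZero.pos d))))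
      (fun _ => ⟨1, rfl⟩) fun Ω _ _ _ v v' h => ?_)
  have h1 : v (X ()) ^ d = v' (X ()) ^ d := by simpa [E] using AlgHom.congr_fun h Polynomial.X
  obtain ⟨ζ, hζ⟩ : ∃ ζ : rootsOfUnity d k, v' (X ()) = algebraMap k Ω (ζ.1 : k) * v (X ()) := by
    by_cases h0 : v (X ()) = 0
    · rw [h0, zero_pow (NeZero.ne d)] at h1
      exact ⟨1, by rw [h0, mul_zero, pow_eq_zero_iff (NeZero.ne d) |>.1 h1.symm]⟩
    · obtain ⟨ζ, hζ⟩ := b1_root (k := k) d (t := v' (X ()) / v (X ()))
        (by rw [div_pow, ← h1, div_self (pow_ne_zero d h0)])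
      exact ⟨ζ, by rw [hζ, div_mul_cancel₀ _ h0]⟩
  exact ⟨_, ⟨fun _ => ζ, rfl, rfl⟩, algHom_ext fun i => by simpa using hζ⟩

theorem exists_chi_ne_one (hω : Injective ω) (d : ℕ) [NeZero d] (hd : ¬p ∣ d) {c : ℤ}
    (hc : ¬(d : ℤ) ∣ c) : ∃ ζ : rootsOfUnity d k, chi ω d c ζ ≠ 1 := by
  have : NeZero (d : k) := ⟨fun h => hd ((CharP.cast_eq_zero_iff k p d).1 h)⟩
  obtain ⟨z, hz⟩ := HasEnoughRootsOfUnity.exists_primitiveRoot k d
  refine ⟨hz.toRootsOfUnity, fun h => hc ?_⟩
  rw [chi_apply, ← Units.val_zpow_eq_zpow_val, Units.val_eq_one, ← map_zpow,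
    map_eq_one_iff ω hω] at h
  exact (hz.zpow_eq_one_iff_dvd c).1 (by simpa using congrArg Units.val h)

omit [IsAlgClosed k] in
theorem aff_dvd (ι : Type) [Fintype ι] (d : ℕ) (ζ : ι → rootsOfUnity d k) :
    diagAct ι d ζ (∏ i, X i) ∣ ∏ i, X i := by
  simp only [map_prod, diagAct_X, Finset.prod_mul_distrib]
  exact (IsUnit.mul_left_dvd (IsUnit.prod_univ_iff.2 fun i => (ζ i).1.isUnit.map C)).2 dvd_rfl

/-- the torus with the diagonal action. -/
@[reducible] noncomputable def tor (ι : Type) [Fintype ι] (d : ℕ) [NeZero d] (c : ι → ℤ) : Obj k :=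
  (aff ω ι d c).away (∏ i, X i) (aff_dvd ι d)

omit [IsAlgClosed k] in
theorem tor_inv (ι : Type) [Fintype ι] (d : ℕ) [NeZero d] (c : ι → ℤ) (ζ) :
    (tor ω ι d c).act ζ (algebraMap (MvPolynomial ι k) _ (∑ i, X i ^ d)) =
      algebraMap (MvPolynomial ι k) _ (∑ i, X i ^ d) :=
  (awayAct_algebraMap (aff ω ι d c) _ (aff_dvd ι d) ζ _).trans (congrArg _ (aff_inv ι d ζ))

/-- the Gauss object over the torus. -/
@[reducible] noncomputable def gauT (ι : Type) [Fintype ι] (d : ℕ) [NeZero d] (c : ι → ℤ) : Obj k :=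
  (tor ω ι d c).as p (algebraMap (MvPolynomial ι k) _ (∑ i, X i ^ d)) (tor_inv ω ι d c)

omit [IsAlgClosed k] in
theorem ge_gauT (ι : Type) [Fintype ι] (d : ℕ) [NeZero d] (c : ι → ℤ) :
    Ge (gau ω p ι d c) (gauT ω p ι d c) :=
  (Eqv.toAway (aff ω ι d c) _ (aff_dvd ι d)).as_res p _ _ rfl (isAway_localization _) bijective_id

theorem gauT_ge (hω : Injective ω) (ι : Type) [Fintype ι] (d : ℕ) [NeZero d] (hd : ¬p ∣ d)
    (c : ι → ℤ) (hc : ∀ i, ¬(d : ℤ) ∣ c i) : Ge (gauT ω p ι d c) (gau ω p ι d c) := by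
  classical
  refine (Eqv.toAway (aff ω ι d c) _ (aff_dvd ι d)).as_clean p _ _ rfl (isAway_localization _)
    bijective_id fun P hP h => ?_
  obtain ⟨i, -, hi⟩ := Ideal.IsPrime.prod_mem_iff.1 h
  obtain ⟨ζ, hζ⟩ := exists_chi_ne_one ω p hω d hd (hc i)
  refine ⟨Pi.mulSingle i ζ, ?_, fun b => Ideal.Quotient.eq.1 (AlgHom.congr_fun
    (φ₁ := (Ideal.Quotient.mkₐ k P).comp (diagAct ι d (Pi.mulSingle i ζ)))
    (φ₂ := Ideal.Quotient.mkₐ k P) (algHom_ext fun j => ?_) b)⟩
  · change chis ω d c _ ≠ 1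
    rwa [chis_apply, Finset.prod_eq_single i (fun j _ hj => by simp [Pi.mulSingle_eq_of_ne hj])
      (by simp), Pi.mulSingle_eq_same]
  · rcases eq_or_ne j i with rfl | hj
    · simp [Ideal.Quotient.eq_zero_iff_mem.2 hi]
    · simp [Pi.mulSingle_eq_of_ne hj]

end Pool.Agent.Lib.MP_40dc3c_ag.T
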