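import Pool.Agent.Lib.MP_40dc3c_ag.T.B1

/-! The curves with equation y to the Q minus y equal to x to the d, change of level, characters. -/

namespace Pool.Agent.Lib.MP_40dc3c_ag.T

open scoped TensorProduct
open Function

set_option linter.unusedSectionVars false

lemma omega_aux {G K : Type} [Group G] [Field K] [CharZero K] (h : ∀ x : G, IsOfFinOrder x) (τ : G →* K)
    (i : Injective τ) : ∃ ω : G →* ℂˣ, Injective ω := by
  have a : ∀ x, τ x ∈ algebraicClosure ℚ K := fun x => by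
    obtain ⟨n, a, b⟩ := (h x).exists_pow_eq_one
    exact mem_algebraicClosure_iff'.2 (IsIntegral.of_pow a (by rw [← map_pow, b, map_one]; exact isIntegral_one))
  have : Algebra.IsAlgebraic ℚ (algebraicClosure ℚ K) := algebraicClosure.isAlgebraic ℚ K
  let ι : algebraicClosure ℚ K →ₐ[ℚ] ℂ := IsAlgClosed.lift
  refine ⟨((ι : algebraicClosure ℚ K →* ℂ).comp (τ.codRestrict _ a)).toHomUnits, fun x y e => i ?_⟩
  exact congrArg Subtype.val (ι.injective (congrArg Units.val e))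

open Polynomial in
lemma adj_aux {k : Type} [Field k] {A B : Alg k} (φ : A.R →ₐ[k] B.R) {n : ℕ} (hn : n ≠ 0) {R : A.R[X]}
    (hR : R.degree < n) (b : B.R) (hb : (X ^ n + R).eval₂ φ b = 0) (h : B.R →ₐ[k] AdjoinRoot (X ^ n + R))
    (h0 : h.comp φ = AdjoinRoot.ofAlgHom k _) (h2 : h b = AdjoinRoot.root _)
    (hs : ∀ S : Subalgebra k B.R, (∀ a, φ a ∈ S) → b ∈ S → S = ⊤) :
    φ.toRingHom.Finite ∧ φ.toRingHom.Flat ∧ GeoSurj φ := by
  have m := monic_X_pow_add hR
  have h1 : ∀ a, h (φ a) = AdjoinRoot.of _ a := AlgHom.congr_fun h0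
  let g := AdjoinRoot.liftAlgHom (X ^ n + R) φ b hb
  have g1 : h.comp g = AlgHom.id _ _ := AdjoinRoot.algHom_ext' (by ext; simp [g, h1]) (by simp [g, h2])
  have g2 : Bijective g := ⟨fun x y e => by
    rw [← AlgHom.id_apply (R := k) x, ← g1, AlgHom.comp_apply, e, ← AlgHom.comp_apply, g1]; rfl,
    (AlgHom.range_eq_top _).1 (hs _ (fun a => ⟨AdjoinRoot.of _ a, by simp [g]⟩) ⟨AdjoinRoot.root _, by simp [g]⟩)⟩
  have g3 : φ.toRingHom = g.toRingHom.comp (algebraMap _ _) := by ext; simp [g]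
  have := m.finite_adjoinRoot
  have := m.free_adjoinRoot
  refine ⟨g3 ▸ (RingHom.Finite.of_surjective _ g2.2).comp (RingHom.finite_algebraMap.2 inferInstance),
    g3 ▸ (RingHom.flat_algebraMap_iff.2 inferInstance).comp (.of_bijective g2), fun Ω _ _ _ u => ?_⟩
  obtain ⟨r, hr⟩ := IsAlgClosed.exists_root ((X ^ n + R).map (u : A.R →+* Ω)) (by
    rw [Polynomial.map_add, Polynomial.map_pow, map_X, degree_add_eq_left_of_degree_lt
      (by rw [degree_X_pow]; exact degree_map_le.trans_lt hR), degree_X_pow]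
    exact_mod_cast hn)
  refine ⟨(AdjoinRoot.liftAlgHom _ u r (by rwa [eval₂_eq_eval_map])).comp h, AlgHom.ext fun a => ?_⟩
  simp [h1]

variable {k : Type} [Field k] [IsAlgClosed k] (ω : kˣ →* ℂˣ) (p : ℕ) [Fact p.Prime] [CharP k p]

lemma mem_range_of_int {Ω : Type} [Field Ω] [Algebra k Ω] {x : Ω} (h : IsIntegral k x) :
    ∃ c, algebraMap k Ω c = x :=
  minpoly.mem_range_of_degree_eq_one k x (IsAlgClosed.degree_eq_one_of_irreducible k (minpoly.irreducible h))

theorem exists_omega (halg : ∀ x : kˣ, IsOfFinOrder x) : ∃ ω : kˣ →* ℂˣ, Injective ω := by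
  obtain ⟨p, hp⟩ := CharP.exists k
  rcases CharP.char_is_prime_or_zero k p with h | rfl
  · have := Fact.mk h
    obtain ⟨l, hl⟩ := CharP.exists (WittVector p k)
    have : CharZero (WittVector p k) := by
      rcases CharP.char_is_prime_or_zero (WittVector p k) l with h' | rfl
      · have e : (l : k) = 0 := by
          rw [← map_natCast (WittVector.constantCoeff (p := p)), CharP.cast_eq_zero, map_zero]
        obtain rfl := (Nat.prime_dvd_prime_iff_eq h h').1 ((CharP.cast_eq_zero_iff k p l).1 e)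
        exact (WittVector.p_nonzero p k (CharP.cast_eq_zero _ _)).elim
      · exact CharP.charP_to_charZero _
    refine omega_aux (K := FractionRing (WittVector p k)) halg ((algebraMap (WittVector p k) _).toMonoidHom.comp
      ((WittVector.teichmuller p).comp (Units.coeHom k))) fun x y e => Units.ext ?_
    simpa using congrArg (·.coeff 0) (IsFractionRing.injective (WittVector p k) _ e)
  · have := CharP.charP_to_charZero k
    exact omega_aux halg (Units.coeHom k) Units.val_injective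

open MvPolynomial

theorem ge_U_level' (d e : ℕ) [NeZero d] [NeZero e] (he : ¬p ∣ e) (c : ℤ) :
    Ge (U ω p d c) (U ω p (d * e) (c * e)) := by
  let π : rootsOfUnity (d * e) k →* rootsOfUnity d k := ((powMonoidHom e).comp (Subgroup.subtype _)).codRestrict _
    fun ζ => by
      have := ζ.2
      rw [mem_rootsOfUnity] at this ⊢
      simpa [← pow_mul, mul_comm e] using this
  have hπ : ∀ ζ, (π ζ).1 = ζ.1 ^ e := fun _ => rfl
  let E : Eqv (aff ω Unit d fun _ => c) (aff ω Unit (d * e) fun _ => c * e) :=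
    { φ := expand e
      π := π.compLeft Unit
      comm := fun g a => by
        refine AlgHom.congr_fun (?_ : (expand e).comp (diagAct Unit d (π.compLeft Unit g)) =
          (diagAct Unit (d * e) g).comp (expand e)) a
        ext : 1
        simp [hπ, mul_pow]
      chi := fun g => by
        change chis ω (d * e) (fun _ => c * e) g = chis ω d (fun _ => c) (π.compLeft Unit g)
        simp [chis_apply, chi_apply, hπ, mul_comm c, zpow_mul] }
  obtain ⟨a, b, -⟩ := adj_aux E.φ (NeZero.ne e) (R := Polynomial.C (-X ()))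
    (Polynomial.degree_C_le.trans_lt (by exact_mod_cast NeZero.pos e)) (X ()) (by simp [E])
    (aeval fun _ => AdjoinRoot.root _) (by
      ext : 1
      have := AdjoinRoot.eval₂_root (Polynomial.X ^ e + Polynomial.C (-X () : MvPolynomial Unit k))
      simpa [E, add_neg_eq_zero] using this) (by simp)
    fun S _ h => eq_top_iff.2 (adjoin_range_X (R := k) (σ := Unit) ▸ Algebra.adjoin_le (by rintro _ ⟨_, rfl⟩; exact h))
  refine (fun _ => E.as_cover p _ _ (by simp [E, ← pow_mul, mul_comm]) a b (fun g => ?_) fun Ω _ _ _ v v' h => ?_) he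
  · obtain ⟨z, hz⟩ := IsAlgClosed.exists_pow_nat_eq ((g ()).1 : k) (NeZero.pos e)
    have z1 : z ^ (d * e) = 1 := by rw [mul_comm, pow_mul, hz]; exact (mem_rootsOfUnity' _ _).1 (g ()).2
    exact ⟨fun _ => rootsOfUnity.mkOfPowEq z z1, funext fun _ => Subtype.ext (Units.ext (by simpa [E, hπ] using hz))⟩
  have h' : v (X ()) ^ e = v' (X ()) ^ e := by simpa [E] using AlgHom.congr_fun h (X ())
  obtain ⟨z, z1, z2⟩ : ∃ z : k, z ^ e = 1 ∧ v' (X ()) = algebraMap k Ω z * v (X ()) := by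
    by_cases h0 : v (X ()) = 0
    · refine ⟨1, one_pow _, ?_⟩
      rw [h0, mul_zero]
      exact eq_zero_of_pow_eq_zero (n := e) (by rw [← h', h0, zero_pow (NeZero.ne e)])
    have : (v' (X ()) / v (X ())) ^ e = 1 := by rw [div_pow, ← h', div_self (pow_ne_zero _ h0)]
    obtain ⟨z, hz⟩ := mem_range_of_int (k := k) (IsIntegral.of_pow (NeZero.pos e) (this ▸ isIntegral_one))
    exact ⟨z, (algebraMap k Ω).injective (by rw [map_pow, hz, this, map_one]), by rw [hz, div_mul_cancel₀ _ h0]⟩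
  refine ⟨_, ⟨fun _ => rootsOfUnity.mkOfPowEq (n := d * e) z (by rw [mul_comm, pow_mul, z1, one_pow]),
    funext fun _ => Subtype.ext (Units.ext (show _ = (1 : k) by simpa [E, hπ] using z1)), rfl⟩, ?_⟩
  ext : 1
  simpa using z2

/-- the additive polynomial of the trace -/
def trc (f : ℕ) {A : Type} [CommRing A] (y : A) : A := ∑ i ∈ Finset.range f, y ^ p ^ i

lemma trc_pow (f : ℕ) {A : Type} [CommRing A] [Algebra k A] (y : A) :
    trc p f y ^ p - trc p f y = y ^ p ^ f - y := by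
  nontriviality A
  have := charP_of_injective_algebraMap (algebraMap k A).injective p
  rw [trc, sum_pow_char, ← Finset.sum_sub_distrib]
  simpa [← pow_mul, ← pow_succ] using Finset.sum_range_sub (fun i => y ^ p ^ i) f

lemma trc_add (f : ℕ) {A : Type} [CommRing A] [Algebra k A] (x y : A) :
    trc p f (x + y) = trc p f x + trc p f y := by
  nontriviality A
  have := charP_of_injective_algebraMap (algebraMap k A).injective p
  simp [trc, add_pow_char_pow, Finset.sum_add_distrib]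

lemma map_trc (f : ℕ) {A B F : Type} [CommRing A] [CommRing B] [FunLike F A B] [RingHomClass F A B] (g : F)
    (y : A) : g (trc p f y) = trc p f (g y) := by simp [trc]

lemma trc_eval (f : ℕ) {A B : Type} [CommRing A] [CommRing B] (g : A →+* B) (a : A) (y : B) :
    (Polynomial.X ^ p ^ f + (trc p f Polynomial.X - Polynomial.C a)).eval₂ g y = trc p (f + 1) y - g a := by
  simp [trc, Polynomial.eval₂_finsetSum, Finset.sum_range_succ, Polynomial.eval₂_pow]
  ring

lemma trc_deg (f : ℕ) {A : Type} [CommRing A] (a : A) :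
    (trc p f Polynomial.X - Polynomial.C a).degree < ((p ^ f : ℕ) : WithBot ℕ) := by
  have hp : 1 < p := (Fact.out : p.Prime).one_lt
  refine (Polynomial.degree_sub_le _ _).trans_lt (max_lt ((Polynomial.degree_sum_le _ _).trans_lt ?_)
    (Polynomial.degree_C_le.trans_lt (by exact_mod_cast pow_pos (zero_lt_one.trans hp) f)))
  refine (Finset.sup_lt_iff (WithBot.bot_lt_coe _)).2 fun i hi => (Polynomial.degree_X_pow_le _).trans_lt ?_
  exact_mod_cast Nat.pow_lt_pow_right hp (Finset.mem_range.1 hi)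

lemma exists_tr (f : ℕ) : ∃ t : Fq k p (f + 1) →+ ZMod p, Surjective t ∧
    ∀ c, ZMod.castHom (dvd_refl p) k (t c) = trc p (f + 1) (c : k) := by
  have : ∀ c : Fq k p (f + 1), ∃ z, ZMod.castHom (dvd_refl p) k z = trc p (f + 1) (c : k) := fun c => by
    have h : trc p (f + 1) (c : k) ∈ (⊥ : Subfield k) :=
      (Subfield.mem_bot_iff_pow_eq_self k p).2 (sub_eq_zero.1 ((trc_pow (k := k) p _ _).trans (sub_eq_zero.2 c.2)))
    exact (bot_le : ⊥ ≤ (ZMod.castHom (dvd_refl p) k).fieldRange) h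
  choose t ht using this
  have i := (ZMod.castHom (dvd_refl p) k).injective
  refine ⟨AddMonoidHom.mk' t fun a b => i (by rw [map_add, ht, ht, ht]; exact trc_add (k := k) p _ _ _),
    fun z => ?_, ht⟩
  have m := Polynomial.monic_X_pow_add (trc_deg p f (ZMod.castHom (dvd_refl p) k z))
  obtain ⟨r, hr⟩ := IsAlgClosed.exists_root (Polynomial.X ^ p ^ f + (trc p f Polynomial.X -
    Polynomial.C (ZMod.castHom (dvd_refl p) k z))) (by
    rw [Polynomial.degree_add_eq_left_of_degree_lt (by rw [Polynomial.degree_X_pow]; exact trc_deg p f _),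
      Polynomial.degree_X_pow]
    exact_mod_cast pow_ne_zero f (Fact.out : p.Prime).ne_zero)
  have e := sub_eq_zero.1 ((trc_eval p f (RingHom.id k) _ r).symm.trans hr)
  refine ⟨⟨r, sub_eq_zero.1 ?_⟩, i ((ht _).trans e)⟩
  rw [← trc_pow (k := k), e, RingHom.id_apply, ← map_pow, ZMod.pow_card, sub_self]

section coords

variable (d : ℕ) [NeZero d] (c : ℤ)

/-- first coordinate -/
noncomputable def Ux : (U ω p d c).A.R := AdjoinRoot.of _ (X ())

/-- second coordinate -/
noncomputable def Uy : (U ω p d c).A.R := AdjoinRoot.root _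

lemma U_rel : Uy ω p d c ^ p - Uy ω p d c = Ux ω p d c ^ d := (asP_root p _).trans (by simp [Ux])

lemma U_ext {B : Type} [CommRing B] [Algebra k B] {f g : (U ω p d c).A.R →ₐ[k] B}
    (h1 : f (Ux ω p d c) = g (Ux ω p d c)) (h2 : f (Uy ω p d c) = g (Uy ω p d c)) : f = g :=
  AdjoinRoot.algHom_ext' (algHom_ext fun _ => h1) h2

lemma U_lift {B : Type} [CommRing B] [Algebra k B] (x y : B) (h : y ^ p - y = x ^ d) :
    ∃ φ : (U ω p d c).A.R →ₐ[k] B, φ (Ux ω p d c) = x ∧ φ (Uy ω p d c) = y :=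
  ⟨AdjoinRoot.liftAlgHom _ (aeval fun _ => x) y (asP_eval p _ _ _ (by simpa using h)), by simp [Ux], by simp [Uy]⟩

lemma U_act_x (g) : (U ω p d c).act g (Ux ω p d c) = ((g.1 ()).1 : k) • Ux ω p d c :=
  (asAct_of p (aff ω Unit d fun _ => c) _ (aff_inv Unit d) g _).trans ((congrArg _ (diagAct_X Unit d g.1 ())).trans (by
    rw [map_mul, Algebra.smul_def]; rfl))

lemma U_act_y (g) : (U ω p d c).act g (Uy ω p d c) =
    Uy ω p d c + algebraMap k _ (ZMod.castHom (dvd_refl p) k g.2.toAdd) :=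
  asAct_root p (aff ω Unit d fun _ => c) _ (aff_inv Unit d) g

variable (f : ℕ) [NeZero f] (ψ : Multiplicative (Fq k p f) →* ℂ)

/-- coordinates -/
noncomputable def Ec (i : Fin 2) : (eas ω p f d c ψ).A.R := Ideal.Quotient.mk _ (X i)

lemma E_rel : Ec ω p d c f ψ 1 ^ p ^ f - Ec ω p d c f ψ 1 = Ec ω p d c f ψ 0 ^ d := by
  rw [Ec, Ec, ← map_pow, ← map_pow, ← map_sub, ← sub_eq_zero, ← map_sub]
  exact Ideal.Quotient.eq_zero_iff_mem.2 (Ideal.mem_span_singleton_self _)

lemma E_ext {B : Type} [CommRing B] [Algebra k B] {u v : (eas ω p f d c ψ).A.R →ₐ[k] B}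
    (h1 : u (Ec ω p d c f ψ 0) = v (Ec ω p d c f ψ 0)) (h2 : u (Ec ω p d c f ψ 1) = v (Ec ω p d c f ψ 1)) :
    u = v := Ideal.Quotient.algHom_ext k (algHom_ext (Fin.forall_fin_two.2 ⟨h1, h2⟩))

lemma E_lift {B : Type} [CommRing B] [Algebra k B] (x y : B) (h : y ^ p ^ f - y = x ^ d) :
    ∃ φ : (eas ω p f d c ψ).A.R →ₐ[k] B, φ (Ec ω p d c f ψ 0) = x ∧ φ (Ec ω p d c f ψ 1) = y :=
  ⟨Ideal.Quotient.liftₐ _ (aeval ![x, y]) fun a ha => by
    obtain ⟨b, rfl⟩ := Ideal.mem_span_singleton'.1 ha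
    simp [easP, h], by simp [Ec], by simp [Ec]⟩

lemma E_top (S : Subalgebra k (eas ω p f d c ψ).A.R) (h : ∀ i, Ec ω p d c f ψ i ∈ S) : S = ⊤ := by
  refine eq_top_iff.2 fun a _ => ?_
  obtain ⟨a, rfl⟩ := Ideal.Quotient.mkₐ_surjective k _ a
  refine (eq_top_iff.2 ?_ : S.comap (Ideal.Quotient.mkₐ k _) = ⊤).ge (Algebra.mem_top (x := a))
  exact adjoin_range_X (R := k) (σ := Fin 2) ▸ Algebra.adjoin_le (by rintro _ ⟨i, rfl⟩; exact h i)

lemma E_act_x (g) : (eas ω p f d c ψ).act g (Ec ω p d c f ψ 0) = (g.1.1 : k) • Ec ω p d c f ψ 0 :=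
  (congrArg (Ideal.Quotient.mk _) (easAct_X0 p f d g)).trans (by rw [map_mul, Algebra.smul_def]; rfl)

lemma E_act_y (g) : (eas ω p f d c ψ).act g (Ec ω p d c f ψ 1) =
    Ec ω p d c f ψ 1 + algebraMap k _ (g.2.toAdd : k) :=
  (congrArg (Ideal.Quotient.mk _) (easAct_X1 p f d g)).trans (by rw [map_add]; rfl)

end coords

lemma cls_eas (f d : ℕ) [NeZero d] (c : ℤ) (t : Fq k p (f + 1) →+ ZMod p) (ht : Surjective t) (α : k)
    (h0 : α ≠ 0) (h1 : α ^ p = α) (h2 : ∀ c, ZMod.castHom (dvd_refl p) k (t c) = α * trc p (f + 1) (c : k))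
    (ψ : Multiplicative (Fq k p (f + 1)) →* ℂ) (hψ : ∀ g, ψ g = psi0 p (.ofAdd (t g.toAdd))) :
    (U ω p d c).cls = (eas ω p (f + 1) d c ψ).cls := by
  obtain ⟨ε, hε⟩ := IsAlgClosed.exists_pow_nat_eq α (NeZero.pos d)
  have ε0 : ε ≠ 0 := by
    rintro rfl
    exact h0 (by rw [← hε, zero_pow (NeZero.ne d)])
  obtain ⟨φ, φ1, φ2⟩ := U_lift ω p d c (ε • Ec ω p d c _ ψ 0) (α • trc p (f + 1) (Ec ω p d c _ ψ 1)) (by
    rw [smul_pow, h1, ← smul_sub, trc_pow (k := k), E_rel, smul_pow, hε])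
  let E : Eqv (U ω p d c) (eas ω p (f + 1) d c ψ) :=
    { φ := φ
      π := (Pi.constMonoidHom Unit _).prodMap t.toMultiplicative
      comm := fun g => AlgHom.congr_fun (U_ext ω p d c 
        (f := φ.comp ((U ω p d c).act (fun _ => g.1, .ofAdd (t g.2.toAdd))))
        (g := ((eas ω p (f + 1) d c ψ).act g).comp φ) (by
        rw [AlgHom.comp_apply, AlgHom.comp_apply, U_act_x, map_smul, φ1, map_smul, E_act_x, smul_comm]) (by
        rw [AlgHom.comp_apply, AlgHom.comp_apply, U_act_y, map_add, φ2, map_smul, map_trc, E_act_y,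
          trc_add (k := k), smul_add, ← map_trc, AlgHom.commutes, Algebra.smul_def α (algebraMap k _ _), ← map_mul,
          ← h2]
        rfl))
      chi := fun g => by
        change chi ω d c g.1 * ψ g.2 = chis ω d (fun _ => c) (fun _ : Unit => g.1) * psi0 p (.ofAdd (t g.2.toAdd))
        simp [chis_apply, hψ] }
  have r := sub_eq_zero.1 ((trc_eval p f _ (α⁻¹ • Uy ω p d c) _).symm.trans (AdjoinRoot.eval₂_root _))
  obtain ⟨h, e1, e2⟩ := E_lift ω p d c _ ψ (AdjoinRoot.of (Polynomial.X ^ p ^ f + (trc p f Polynomial.X -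
    Polynomial.C (α⁻¹ • Uy ω p d c))) (ε⁻¹ • Ux ω p d c)) (AdjoinRoot.root _) (by
      rw [← trc_pow (k := k), r, ← map_pow, ← map_pow, ← map_sub, smul_pow, smul_pow, inv_pow, inv_pow, h1, hε,
        ← smul_sub, U_rel])
  have sm : ∀ (z : k) a, z • AdjoinRoot.of (Polynomial.X ^ p ^ f + (trc p f Polynomial.X -
    Polynomial.C (α⁻¹ • Uy ω p d c))) a = AdjoinRoot.of _ (z • a) := fun z a =>
    (map_smul (AdjoinRoot.ofAlgHom k _) z a).symm
  obtain ⟨a, b, s⟩ := adj_aux φ (pow_ne_zero f (Fact.out : p.Prime).ne_zero) (trc_deg p f (α⁻¹ • Uy ω p d c))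
    (Ec ω p d c _ ψ 1) (by
      rw [trc_eval, RingHom.coe_coe, map_smul, φ2, inv_smul_smul₀ h0, sub_self]) h (U_ext ω p d c (by
      rw [AlgHom.comp_apply, φ1, map_smul h, e1, sm, smul_inv_smul₀ ε0]; rfl) (by
      rw [AlgHom.comp_apply, φ2, map_smul h, map_trc, e2, r, sm, smul_inv_smul₀ h0]; rfl)) e2
    fun S u v => E_top ω p d c _ ψ S (Fin.forall_fin_two.2
      ⟨by simpa [φ1, ε0] using S.smul_mem (u (Ux ω p d c)) ε⁻¹, v⟩)
  refine cls_eq.2 ⟨E.cover a b (fun g => ?_) fun Ω _ _ _ v v' e => ?_, E.push' a s⟩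
  · obtain ⟨z, hz⟩ := ht g.2.toAdd
    exact ⟨(g.1 (), .ofAdd z), Prod.ext rfl (congrArg Multiplicative.ofAdd hz)⟩
  have x1 := AlgHom.congr_fun e (Ux ω p d c)
  have x2 := AlgHom.congr_fun e (Uy ω p d c)
  change v (φ _) = v' (φ _) at x1 x2
  rw [φ1, map_smul, map_smul, smul_right_inj ε0] at x1
  rw [φ2, map_smul, map_smul, smul_right_inj h0, map_trc, map_trc,
    ← add_sub_cancel (v _) (v' (Ec ω p d c _ ψ 1)), trc_add (k := k), left_eq_add] at x2
  have x3 := trc_pow (k := k) p (f + 1) (v' (Ec ω p d c _ ψ 1) - v (Ec ω p d c _ ψ 1))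
  rw [x2, zero_pow (Fact.out : p.Prime).ne_zero, sub_self] at x3
  obtain ⟨z, hz⟩ := mem_range_of_int (k := k) (x := v' (Ec ω p d c _ ψ 1) - v (Ec ω p d c _ ψ 1))
    (IsAlgebraic.isIntegral ⟨_, FiniteField.X_pow_card_sub_X_ne_zero k (Nat.one_lt_pow f.succ_ne_zero
      (Fact.out : p.Prime).one_lt), by simpa using x3.symm⟩)
  rw [← hz, ← map_pow, ← map_sub, eq_comm, map_eq_zero] at x3
  rw [← hz, ← map_trc, map_eq_zero] at x2
  refine ⟨_, ⟨(1, .ofAdd ⟨z, sub_eq_zero.1 x3⟩), Prod.ext rfl (congrArg Multiplicative.ofAdd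
    ((ZMod.castHom (dvd_refl p) k).injective ((h2 _).trans (by simp [x2])))), rfl⟩, E_ext ω p d c _ ψ ?_ ?_⟩
  · rw [AlgHom.comp_apply, E_act_x]
    simp [x1]
  · rw [AlgHom.comp_apply, E_act_y]
    simp [hz]

theorem exists_psi (f : ℕ) [NeZero f] : ∃ ψ : Multiplicative (Fq k p f) →* ℂ, ψ ≠ 1 ∧
    ∀ (d : ℕ) [NeZero d] (c : ℤ), (U ω p d c).cls = (eas ω p f d c ψ).cls ∧
      ∀ ψ' : Multiplicative (Fq k p f) →* ℂ, (∀ g, ψ' g = ψ g⁻¹) →
        (U ω p d c).cls = (eas ω p f d c ψ').cls := by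
  obtain ⟨f, rfl⟩ := Nat.exists_eq_add_one_of_ne_zero (NeZero.ne f)
  obtain ⟨t, a, b⟩ := exists_tr (k := k) p f
  refine ⟨(psi0 p).comp t.toMultiplicative, fun h => ?_, fun d _ c =>
    ⟨cls_eas ω p f d c t a 1 one_ne_zero (one_pow _) (by simpa using b) _ fun _ => rfl, fun ψ' h =>
    cls_eas ω p f d c (-t) (neg_surjective.comp a) (-1) (by simp) (neg_one_pow_char k p) (by simpa using b) _
      fun g => (h g).trans (congrArg (fun z => psi0 p (.ofAdd z)) (t.map_neg g.toAdd))⟩⟩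
  obtain ⟨g, hg⟩ := a 1
  have := DFunLike.congr_fun h (.ofAdd g)
  exact one_ne_zero (((ZMod.isPrimitive_stdAddChar p).zmod_char_eq_one_iff p 1).1 (by rw [← hg]; exact this))

end Pool.Agent.Lib.MP_40dc3c_ag.T
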