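import Pool.Agent.Lib.MP_40dc3c_ag.T.Dom

/-! The cone over an affine piece of a product of projective spaces. -/

namespace Pool.Agent.Lib.MP_40dc3c_ag.T

open Function hiding eval
open MvPolynomial

set_option linter.style.haveILetI false

variable (k : Type) [Field k] {ι σ D : Type} [CommRing D] [Algebra k D]

/-- the parametrisation of the cone over the point `v`. -/
noncomputable def cone (v : ι × σ → D) : MvPolynomial (ι × σ) k →ₐ[k] MvPolynomial ι D :=
  aeval fun a => C (v a) * X a.1

/-- the ideal of the cone. -/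
noncomputable def coneI (v : ι × σ → D) : Ideal (MvPolynomial (ι × σ) k) :=
  RingHom.ker (cone k v)

variable {k}

@[simp] theorem cone_X (v : ι × σ → D) (a : ι × σ) : cone k v (X a) = C (v a) * X a.1 :=
  aeval_X _ _

theorem mem_coneI {v : ι × σ → D} {F : MvPolynomial (ι × σ) k} :
    F ∈ coneI k v ↔ cone k v F = 0 := RingHom.mem_ker

theorem coneI_prime [IsDomain D] (v : ι × σ → D) : (coneI k v).IsPrime := RingHom.ker_isPrime _

theorem X_mem_coneI {v : ι × σ → D} {a : ι × σ} : X a ∈ coneI k v ↔ v a = 0 := by
  rw [mem_coneI, cone_X, C_mul_X_eq_monomial, monomial_eq_zero]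

theorem cone_monomial (v : ι × σ → D) (d : ι × σ →₀ ℕ) (c : k) :
    cone k v (monomial d c) = monomial (d.mapDomain Prod.fst) (aeval v (monomial d c)) := by
  rw [cone, aeval_monomial, aeval_monomial, monomial_eq, map_mul, map_finsuppProd,
    Finsupp.prod_mapDomain_index (fun _ => pow_zero _) fun _ _ _ => pow_add _ _ _, mul_assoc,
    ← Finsupp.prod_mul]
  simp only [mul_pow, map_pow]
  rfl

theorem cone_one (v : ι × σ → D) (F : MvPolynomial (ι × σ) k) :
    eval (fun _ => 1) (cone k v F) = aeval v F := by
  induction F using MvPolynomial.induction_on with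
  | C c =>
    rw [← algebraMap_eq, AlgHom.commutes, AlgHom.commutes, MvPolynomial.algebraMap_apply,
      eval_C]
  | add p q hp hq => rw [map_add, map_add, hp, hq, map_add]
  | mul_X p a hp => rw [map_mul, map_mul, hp, cone_X, map_mul, map_mul, eval_C, eval_X, aeval_X,
      mul_one]

theorem aeval_of_mem_coneI {v : ι × σ → D} {F : MvPolynomial (ι × σ) k} (h : F ∈ coneI k v) :
    aeval v F = 0 := by rw [← cone_one, mem_coneI.1 h, map_zero]

section weight

variable {M : Type} [AddCommMonoid M] (w : ι → M)

theorem cone_weight (d : ι × σ →₀ ℕ) :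
    Finsupp.weight w (d.mapDomain Prod.fst) = Finsupp.weight (fun a : ι × σ => w a.1) d := by
  induction d using Finsupp.induction_linear with
  | zero => simp
  | add a b ha hb => rw [Finsupp.mapDomain_add, map_add, map_add, ha, hb]
  | single a n => rw [Finsupp.mapDomain_single, Finsupp.weight_single, Finsupp.weight_single]

theorem cone_comp (v : ι × σ → D) (n : M) (F : MvPolynomial (ι × σ) k) :
    cone k v (weightedHomogeneousComponent (fun a : ι × σ => w a.1) n F) =
      weightedHomogeneousComponent w n (cone k v F) := by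
  classical
  induction F using MvPolynomial.induction_on' with
  | monomial d c =>
    rw [weightedHomogeneousComponent_of_mem
        (isWeightedHomogeneous_monomial (fun a : ι × σ => w a.1) d c rfl), cone_monomial,
      weightedHomogeneousComponent_of_mem
        (isWeightedHomogeneous_monomial w _ _ (cone_weight w d))]
    split_ifs
    · exact cone_monomial v d c
    · exact map_zero _
  | add p q hp hq => rw [map_add, map_add, hp, hq, map_add, map_add]

/-- the ideal of the cone is homogeneous for every weight that is constant on the blocks. -/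
theorem comp_mem_coneI {v : ι × σ → D} {F : MvPolynomial (ι × σ) k} (h : F ∈ coneI k v) (n : M) :
    weightedHomogeneousComponent (fun a : ι × σ => w a.1) n F ∈ coneI k v := by
  rw [mem_coneI, cone_comp, mem_coneI.1 h, map_zero]

theorem cone_homog (v : ι × σ → D) {n : M} {F : MvPolynomial (ι × σ) k}
    (h : IsWeightedHomogeneous (fun a : ι × σ => w a.1) F n) :
    IsWeightedHomogeneous w (cone k v F) n := by
  rw [← h.weightedHomogeneousComponent_same, cone_comp]
  exact weightedHomogeneousComponent_isWeightedHomogeneous _ _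

/-- a multihomogeneous form lies in the ideal of the cone iff it vanishes at the point. -/
theorem mem_coneI_iff (hw : Injective fun d : ι →₀ ℕ => Finsupp.weight w d) {v : ι × σ → D}
    {n : M}
    {F : MvPolynomial (ι × σ) k} (h : IsWeightedHomogeneous (fun a : ι × σ => w a.1) F n) :
    F ∈ coneI k v ↔ aeval v F = 0 := by
  refine ⟨aeval_of_mem_coneI, fun h0 => ?_⟩
  have h1 := cone_homog w v h
  rw [mem_coneI]
  by_contra hn
  obtain ⟨d, hd⟩ := ne_zero_iff.1 hn
  have h2 := h1.eq_monomial_of_unique_weight (d₀ := d) fun e he => hw (he.trans (h1 hd).symm)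
  rw [← cone_one, h2, eval_monomial] at h0
  simp only [one_pow, Finsupp.prod, Finset.prod_const_one, mul_one] at h0
  exact hd h0

theorem weight_single_inj :
    Injective fun d : ι →₀ ℕ => Finsupp.weight (fun i : ι => Finsupp.single i (1 : ℕ)) d := by
  have : ∀ d : ι →₀ ℕ, Finsupp.weight (fun i : ι => Finsupp.single i (1 : ℕ)) d = d := fun d => by
    induction d using Finsupp.induction_linear with
    | zero => simp
    | add a b ha hb => rw [map_add, ha, hb]
    | single a n => simp [Finsupp.weight_single]
  exact fun a b h => (this a).symm.trans (h.trans (this b))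

theorem weight_pi_inj [DecidableEq ι] :
    Injective fun d : ι →₀ ℕ => Finsupp.weight (fun i : ι => (Pi.single i 1 : ι → ℕ)) d := by
  have : ∀ d : ι →₀ ℕ, Finsupp.weight (fun i : ι => (Pi.single i 1 : ι → ℕ)) d = d := fun d => by
    induction d using Finsupp.induction_linear with
    | zero => simp
    | add a b ha hb => rw [map_add, ha, hb, Finsupp.coe_add]
    | single a n =>
      rw [Finsupp.weight_single, Finsupp.single_eq_pi_single, ← Pi.single_smul, smul_eq_mul,
        mul_one]
  exact fun a b h => DFunLike.coe_injective ((this a).symm.trans (h.trans (this b)))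

end weight

/-- a form in the variables of one block. -/
theorem cone_block (v : ι × σ → D) (i : ι) {F : MvPolynomial σ k} {m : ℕ} (hF : F.IsHomogeneous m) :
    rename (Prod.mk i) F ∈ coneI k v ↔ aeval (fun s => v (i, s)) F = 0 := by
  have h : IsWeightedHomogeneous (fun a : ι × σ => Finsupp.single a.1 (1 : ℕ))
      (rename (Prod.mk i) F) (Finsupp.single i m) := by
    rw [F.as_sum, map_sum]
    refine IsWeightedHomogeneous.sum _ _ _ fun d hd => ?_
    rw [rename_monomial]
    refine isWeightedHomogeneous_monomial _ _ _ ?_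
    rw [← hF (mem_support_iff.1 hd)]
    clear hd
    induction d using Finsupp.induction_linear with
    | zero => simp
    | add a b ha hb => rw [Finsupp.mapDomain_add, map_add, map_add, ha, hb, Finsupp.single_add]
    | single a n => simp [Finsupp.weight_single]
  rw [mem_coneI_iff _ weight_single_inj h, aeval_rename]
  rfl

theorem fermat_mem_coneI [Fintype σ] (v : ι × σ → D) (i : ι) (m : ℕ) :
    (∑ s, X (i, s) ^ m : MvPolynomial (ι × σ) k) ∈ coneI k v ↔ ∑ s, v (i, s) ^ m = 0 := by
  have h := cone_block (k := k) v i (F := ∑ s, X s ^ m) (m := m)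
    (IsHomogeneous.sum _ _ _ fun s _ => isHomogeneous_X_pow s m)
  simpa only [map_sum, map_pow, rename_X, aeval_X] using h

theorem cone_frac [IsDomain D] {v : ι × σ → D} (hv : Surjective (aeval v : _ →ₐ[k] D))
    (h1 : ∀ i, ∃ s, v (i, s) = 1) (y : MvPolynomial ι D) :
    ∃ a b, cone k v a ≠ 0 ∧ cone k v a * y = cone k v b := by
  have hX : ∀ i, ∃ a, cone k v a = X i := fun i => by
    obtain ⟨s, hs⟩ := h1 i
    exact ⟨X (i, s), by rw [cone_X, hs, map_one, one_mul]⟩
  have hadd : ∀ y z, (∃ a b, cone k v a ≠ 0 ∧ cone k v a * y = cone k v b) →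
      (∃ a b, cone k v a ≠ 0 ∧ cone k v a * z = cone k v b) →
      ∃ a b, cone k v a ≠ 0 ∧ cone k v a * (y + z) = cone k v b := by
    rintro y z ⟨a, b, h, e⟩ ⟨a', b', h', e'⟩
    refine ⟨a * a', b * a' + a * b', by rw [map_mul]; exact mul_ne_zero h h', ?_⟩
    rw [map_add, map_mul, map_mul, map_mul, ← e, ← e']
    ring
  induction y using MvPolynomial.induction_on with
  | C c =>
    obtain ⟨F, rfl⟩ := hv c
    induction F using MvPolynomial.induction_on with
    | C c =>
      refine ⟨1, C c, by rw [map_one]; exact one_ne_zero, ?_⟩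
      rw [map_one, one_mul, ← algebraMap_eq (R := k), AlgHom.commutes, AlgHom.commutes,
        MvPolynomial.algebraMap_apply]
    | add p q hp hq => rw [map_add, map_add]; exact hadd _ _ hp hq
    | mul_X p x hp =>
      obtain ⟨a, b, h, e⟩ := hp
      obtain ⟨c, hc⟩ := hX x.1
      refine ⟨a * c, b * X x, by rw [map_mul, hc]; exact mul_ne_zero h (X_ne_zero _), ?_⟩
      rw [map_mul, map_mul, map_mul, map_mul, hc, ← e, cone_X, aeval_X]
      ring
  | add p q hp hq => exact hadd _ _ hp hq
  | mul_X p i hp =>
    obtain ⟨a, b, h, e⟩ := hp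
    obtain ⟨c, hc⟩ := hX i
    exact ⟨a, b * c, h, by rw [map_mul, hc, ← e, mul_assoc]⟩

/-- the dimension of the cone. -/
theorem trdeg_coneI [IsDomain D] [Fintype ι] {v : ι × σ → D}
    (hv : Surjective (aeval v : _ →ₐ[k] D)) (h1 : ∀ i, ∃ s, v (i, s) = 1) :
    Algebra.trdeg k (MvPolynomial (ι × σ) k ⧸ coneI k v) =
      Algebra.trdeg k D + Fintype.card ι := by
  have hP := coneI_prime (k := k) v
  let f : (MvPolynomial (ι × σ) k ⧸ coneI k v) →ₐ[k] MvPolynomial ι D :=
    Ideal.kerLiftAlg (cone k v)
  have hf : Injective f := Ideal.kerLiftAlg_injective _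
  letI := f.toAlgebra
  haveI : IsScalarTower k (MvPolynomial (ι × σ) k ⧸ coneI k v) (MvPolynomial ι D) :=
    .of_algebraMap_eq fun x => (f.commutes x).symm
  haveI : FaithfulSMul (MvPolynomial (ι × σ) k ⧸ coneI k v) (MvPolynomial ι D) :=
    (faithfulSMul_iff_algebraMap_injective _ _).2 hf
  haveI : Algebra.IsAlgebraic (MvPolynomial (ι × σ) k ⧸ coneI k v) (MvPolynomial ι D) :=
    ⟨fun y => by
      obtain ⟨a, b, h, e⟩ := cone_frac hv h1 y
      have ha : Ideal.Quotient.mk (coneI k v) a ≠ 0 := fun h0 =>
        h (mem_coneI.1 (Ideal.Quotient.eq_zero_iff_mem.1 h0))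
      refine ⟨Polynomial.C (Ideal.Quotient.mk _ a) * Polynomial.X -
        Polynomial.C (Ideal.Quotient.mk _ b), fun h0 => ha ?_, ?_⟩
      · simpa using congrArg (fun p => Polynomial.coeff p 1) h0
      · rw [map_sub, map_mul, Polynomial.aeval_C, Polynomial.aeval_C, Polynomial.aeval_X]
        exact sub_eq_zero.2 e⟩
  have e1 := trdeg_add_eq k (MvPolynomial (ι × σ) k ⧸ coneI k v) (A := MvPolynomial ι D)
  have e2 := trdeg_add_eq k D (A := MvPolynomial ι D)
  rw [trdeg_eq_zero (A := MvPolynomial ι D), add_zero] at e1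
  rw [e1, ← e2, MvPolynomial.trdeg_of_isDomain]
  simp

end Pool.Agent.Lib.MP_40dc3c_ag.T
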