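import Pool.Agent.Lib.MP_40dc3c_ag.T.CDefs
import Pool.Agent.Lib.MP_40dc3c_ag.T.Cone

/-! The projective closure of a prime is a subvariety. -/

namespace Pool.Agent.Lib.MP_40dc3c_ag.T

open Function hiding eval
open MvPolynomial

variable {k : Type} [Field k] {ι : Type} {m : ℕ}

/-- the coordinates on the closed part given by `P`. -/
noncomputable def coP (P : Ideal (Af k ι m)) (v : ι × Fin 3) : Af k ι m ⧸ P :=
  Ideal.Quotient.mk P (co k m v.1 v.2)

theorem aeval_coP (P : Ideal (Af k ι m)) (f : Pl k ι) :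
    aeval (coP P) f = Ideal.Quotient.mk P (deh k ι m f) := by
  have : (aeval (coP P) : Pl k ι →ₐ[k] _) = (Ideal.Quotient.mkₐ k P).comp (deh k ι m) :=
    MvPolynomial.algHom_ext fun v => by simp [coP, deh]
  rw [this]
  rfl

theorem deh_surj : Surjective (deh k ι m) := fun a => by
  obtain ⟨f, rfl⟩ := Ideal.Quotient.mk_surjective a
  have : (deh k ι m).comp (rename (Prod.map id Fin.castSucc)) = Ideal.Quotient.mkₐ k _ :=
    MvPolynomial.algHom_ext fun ⟨i, s⟩ => by fin_cases s <;> simp [deh, co]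
  exact ⟨_, DFunLike.congr_fun this f⟩

theorem mem_coneI_coP {P : Ideal (Af k ι m)} {f : Pl k ι} {d : ι → ℕ}
    (hf : IsWeightedHomogeneous wt f d) : f ∈ coneI k (coP P) ↔ deh k ι m f ∈ P := by
  classical
  rw [mem_coneI_iff (fun i : ι => (Pi.single i 1 : ι → ℕ)) weight_pi_inj hf, aeval_coP,
    Ideal.Quotient.eq_zero_iff_mem]

theorem comp_mem_coP {P : Ideal (Af k ι m)} {f : Pl k ι} (hf : f ∈ coneI k (coP P)) (d : ι → ℕ) :
    weightedHomogeneousComponent wt d f ∈ coneI k (coP P) := by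
  classical
  exact comp_mem_coneI (fun i : ι => (Pi.single i 1 : ι → ℕ)) hf d

theorem clo_eq_coneI (P : Ideal (Af k ι m)) : clo P = coneI k (coP P) := by
  refine le_antisymm (Ideal.span_le.2 ?_) fun f hf => ?_
  · rintro f ⟨⟨d, hd⟩, hf⟩
    exact (mem_coneI_coP hd).2 hf
  · rw [← finsum_weightedHomogeneousComponent wt f,
      finsum_eq_sum _ (weightedHomogeneousComponent_finsupp f)]
    refine Ideal.sum_mem _ fun d _ => Ideal.subset_span ?_
    have hd := weightedHomogeneousComponent_isWeightedHomogeneous (w := wt) d f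
    exact ⟨⟨d, hd⟩, (mem_coneI_coP hd).1 (comp_mem_coP hf d)⟩

theorem mem_clo {P : Ideal (Af k ι m)} {f : Pl k ι} {d : ι → ℕ}
    (hf : IsWeightedHomogeneous wt f d) : f ∈ clo P ↔ deh k ι m f ∈ P := by
  rw [clo_eq_coneI, mem_coneI_coP hf]

theorem comp_mem_clo {P : Ideal (Af k ι m)} {f : Pl k ι} (hf : f ∈ clo P) (d : ι → ℕ) :
    weightedHomogeneousComponent wt d f ∈ clo P := by
  rw [clo_eq_coneI] at hf ⊢
  exact comp_mem_coP hf d

theorem co_fermat (i : ι) : ∑ s, co k m i s ^ m = 0 := by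
  have : Ideal.Quotient.mk (ferI k ι m) _ = 0 :=
    Ideal.Quotient.eq_zero_iff_mem.2 (Ideal.subset_span ⟨i, rfl⟩)
  simpa [co, Fin.sum_univ_succ, add_assoc] using this

theorem fermat_le_clo (P : Ideal (Af k ι m)) : fermat k ι m ≤ clo P := by
  rw [clo_eq_coneI, fermat, Ideal.span_le]
  rintro _ ⟨i, rfl⟩
  refine (fermat_mem_coneI (coP P) i m).2 ?_
  simp only [coP, ← map_pow, ← map_sum, co_fermat, map_zero]

theorem subv_clo [Fintype ι] {P : Ideal (Af k ι m)} (hP : P.IsPrime) {e : ℕ}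
    (he : Algebra.trdeg k (Af k ι m ⧸ P) = e) : Subv m (clo P) e := by
  have : IsDomain (Af k ι m ⧸ P) := Ideal.Quotient.isDomain P
  have h1 : ∀ i, coP P (i, 2) = 1 := fun i => map_one (Ideal.Quotient.mk P)
  refine ⟨?_, fun f hf d => comp_mem_clo hf d, fermat_le_clo P, fun i => ⟨2, ?_⟩, ?_⟩
  · rw [clo_eq_coneI]
    exact coneI_prime _
  · rw [clo_eq_coneI, X_mem_coneI, h1]
    exact fun h => hP.ne_top ((Ideal.eq_top_iff_one P).2 (Ideal.Quotient.eq_zero_iff_mem.1 h))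
  · rw [clo_eq_coneI, trdeg_coneI _ fun i => ⟨2, h1 i⟩, he]
    intro a
    obtain ⟨b, rfl⟩ := Ideal.Quotient.mk_surjective a
    obtain ⟨f, rfl⟩ := deh_surj b
    exact ⟨f, aeval_coP P f⟩

end Pool.Agent.Lib.MP_40dc3c_ag.T
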