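import Pool.Agent.Lib.MP_40dc3c_ag.T.CG
import Pool.Agent.Lib.MP_40dc3c_ag.T.Clo
import Pool.Agent.Lib.MP_40dc3c_ag.T.Dom
import Pool.Agent.Lib.MP_40dc3c_ag.T.B7a

/-! Integrality of the curves and of their products. -/

namespace Pool.Agent.Lib.MP_40dc3c_ag.T

open scoped TensorProduct nonZeroDivisors
open Function Filter Submodule Module

variable {k : Type} [Field k]

theorem dom_tensor [IsAlgClosed k] (A A' : Type) [CommRing A] [Algebra k A] [CommRing A']
    [Algebra k A'] [Algebra.FiniteType k A] [IsDomain A] [IsDomain A'] : IsDomain (A ⊗[k] A') :=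
  isDomain_ten

theorem IsTens.prime [IsAlgClosed k] {B B₁ B₂ : Type} [CommRing B] [Algebra k B] [CommRing B₁]
    [Algebra k B₁] [CommRing B₂] [Algebra k B₂] [Algebra.FiniteType k B₁] [Algebra.FiniteType k B₂]
    {f₁ : B₁ →ₐ[k] B} {f₂ : B₂ →ₐ[k] B} (h : IsTens f₁ f₂) {P₁ : Ideal B₁} {P₂ : Ideal B₂}
    (h₁ : P₁.IsPrime) (h₂ : P₂.IsPrime) {e₁ e₂ : ℕ} (d₁ : Algebra.trdeg k (B₁ ⧸ P₁) = e₁)
    (d₂ : Algebra.trdeg k (B₂ ⧸ P₂) = e₂) : (P₁.map f₁ ⊔ P₂.map f₂).IsPrime ∧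
      Algebra.trdeg k (B ⧸ (P₁.map f₁ ⊔ P₂.map f₂)) = (e₁ + e₂ : ℕ) := by
  let e : B₁ ⊗[k] B₂ ≃ₐ[k] B := AlgEquiv.ofBijective _ h
  have he : P₁.map f₁ ⊔ P₂.map f₂ = (boxI k P₁ P₂).map (e : B₁ ⊗[k] B₂ →+* B) := by
    rw [boxI, Ideal.map_sup]
    congr 1
    · refine Eq.trans ?_ (Ideal.map_map (Algebra.TensorProduct.includeLeft :
        B₁ →ₐ[k] B₁ ⊗[k] B₂).toRingHom (e : B₁ ⊗[k] B₂ →+* B)).symm
      change P₁.map f₁.toRingHom = _
      congr 1
      ext a
      simp [e]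
    · refine Eq.trans ?_ (Ideal.map_map (Algebra.TensorProduct.includeRight :
        B₂ →ₐ[k] B₁ ⊗[k] B₂).toRingHom (e : B₁ ⊗[k] B₂ →+* B)).symm
      change P₂.map f₂.toRingHom = _
      congr 1
      ext a
      simp [e]
  have hp := boxI_prime (k := k) P₁ P₂
  refine ⟨he ▸ Ideal.map_isPrime_of_equiv e, ?_⟩
  rw [← (Ideal.quotientEquivAlg _ _ e he).trdeg_eq, trdeg_boxI, d₁, d₂, Nat.cast_add]

variable {ι ι₁ ι₂ : Type} {m : ℕ}

theorem rn_co (e : ι₁ → ι) (i : ι₁) (s : Fin 3) : rn k m e (co k m i s) = co k m (e i) s := by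
  fin_cases s <;> simp [rn, co]

theorem af_ext {A : Type} [CommRing A] [Algebra k A] {f g : Af k ι m →ₐ[k] A}
    (h : ∀ i, f (co k m i 0) = g (co k m i 0) ∧ f (co k m i 1) = g (co k m i 1)) : f = g :=
  ferA_ext fun ⟨i, s⟩ => by
    fin_cases s
    exacts [(h i).1, (h i).2]

theorem co_eq (i : ι) : ∑ s, co k m i s ^ m = 0 := co_fermat i

theorem co_gen : Algebra.adjoin k (Set.range fun v : ι × Fin 3 => co k m v.1 v.2) = ⊤ := by
  rw [Algebra.adjoin_range_eq_range_aeval, AlgHom.range_eq_top]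
  exact deh_surj

theorem sc_X (ζ : ι × Fin 2 → rootsOfUnity m k) (v : ι × Fin 2) :
    sc m ζ (Ideal.Quotient.mk _ (MvPolynomial.X v)) =
      ((ζ v).1 : k) • Ideal.Quotient.mk (ferI k ι m) (MvPolynomial.X v) := by
  change Ideal.Quotient.mk _ (diagAct _ m ζ (MvPolynomial.X v)) = _
  rw [diagAct_X, ← MvPolynomial.smul_eq_C_mul]
  rfl

theorem sc_co (ζ : ι × Fin 2 → rootsOfUnity m k) (i : ι) :
    sc m ζ (co k m i 0) = ((ζ (i, 0)).1 : k) • co k m i 0 ∧
      sc m ζ (co k m i 1) = ((ζ (i, 1)).1 : k) • co k m i 1 := ⟨sc_X ζ (i, 0), sc_X ζ (i, 1)⟩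

theorem sc_rn (e : ι₁ → ι) (ζ : ι × Fin 2 → rootsOfUnity m k) :
    (sc m ζ).comp (rn k m e) = (rn k m e).comp (sc m fun v => ζ (e v.1, v.2)) :=
  af_ext fun i => by
    simp only [AlgHom.comp_apply, rn_co, (sc_co _ _).1, (sc_co _ _).2, map_smul, and_self]

theorem rn_comp (e : ι₁ → ι) (e' : ι₂ → ι₁) :
    (rn k m e).comp (rn k m e') = rn k m fun i => e (e' i) :=
  af_ext fun i => by simp only [AlgHom.comp_apply, rn_co, and_self]

/-- the map given by a point with last coordinates one. -/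
noncomputable def afLift {B : Type} [CommRing B] [Algebra k B] (y : ι → Fin 3 → B)
    (h1 : ∀ i, y i 2 = 1) (h : ∀ i, ∑ s, y i s ^ m = 0) : Af k ι m →ₐ[k] B :=
  ferLift (fun v => y v.1 v.2.castSucc) fun i => by
    have := h i
    rw [Fin.sum_univ_castSucc] at this
    rwa [show y i (Fin.last 2) = 1 from h1 i, one_pow] at this

theorem afLift_co {B : Type} [CommRing B] [Algebra k B] (y : ι → Fin 3 → B)
    (h1 : ∀ i, y i 2 = 1) (h : ∀ i, ∑ s, y i s ^ m = 0) (i : ι) (s : Fin 3) :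
    afLift (k := k) y h1 h (co k m i s) = y i s := by
  fin_cases s
  · exact ferLift_X _ _ (i, 0)
  · exact ferLift_X _ _ (i, 1)
  · exact (map_one _).trans (h1 i).symm

theorem af_pair {e₁ : ι₁ → ι} {e₂ : ι₂ → ι} (he : Bijective (Sum.elim e₁ e₂)) {T : Type}
    [CommRing T] [Algebra k T] (L : Af k ι₁ m →ₐ[k] T) (R : Af k ι₂ m →ₐ[k] T) :
    ∃ ψ : Af k ι m →ₐ[k] T, ψ.comp (rn k m e₁) = L ∧ ψ.comp (rn k m e₂) = R := by
  let E := Equiv.ofBijective _ he
  let y : ι₁ ⊕ ι₂ → Fin 3 → T := Sum.elim (fun i s => L (co k m i s)) fun i s => R (co k m i s)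
  have h1 : ∀ i, y i 2 = 1 := by
    rintro (i | i)
    exacts [map_one L, map_one R]
  have h2 : ∀ i, ∑ s, y i s ^ m = 0 := by
    rintro (i | i)
    · simpa only [y, Sum.elim_inl, map_sum, map_pow, map_zero] using congrArg L (co_eq i)
    · simpa only [y, Sum.elim_inr, map_sum, map_pow, map_zero] using congrArg R (co_eq i)
  let ψ : Af k ι m →ₐ[k] T := afLift (fun i => y (E.symm i)) (fun _ => h1 _) fun _ => h2 _
  have hψ : ∀ i s, ψ (co k m (E i) s) = y i s := fun i s => by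
    rw [afLift_co, E.symm_apply_apply]
  refine ⟨ψ, af_ext fun i => ?_, af_ext fun i => ?_⟩ <;> simp only [AlgHom.comp_apply, rn_co]
  exacts [⟨hψ (.inl i) 0, hψ (.inl i) 1⟩, ⟨hψ (.inr i) 0, hψ (.inr i) 1⟩]

theorem rn_tens {e₁ : ι₁ → ι} {e₂ : ι₂ → ι} (he : Bijective (Sum.elim e₁ e₂)) :
    IsTens (rn k m e₁) (rn k m e₂) := by
  obtain ⟨ψ, a1, a2⟩ := af_pair (k := k) (m := m) (T := Af k ι₁ m ⊗[k] Af k ι₂ m) he
    Algebra.TensorProduct.includeLeft Algebra.TensorProduct.includeRight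
  have b1 : ∀ a, ψ (rn k m e₁ a) = a ⊗ₜ 1 := AlgHom.congr_fun a1
  have b2 : ∀ a, ψ (rn k m e₂ a) = 1 ⊗ₜ a := AlgHom.congr_fun a2
  have a3 : ∀ i s, Algebra.TensorProduct.productMap (rn k m e₁) (rn k m e₂) (ψ (co k m i s)) =
      co k m i s := fun i s => by
    obtain ⟨i | i, rfl⟩ := he.2 i
    · rw [Sum.elim_inl, ← rn_co, b1, Algebra.TensorProduct.productMap_left_apply]
    · rw [Sum.elim_inr, ← rn_co, b2, Algebra.TensorProduct.productMap_right_apply]
  have a4 : (Algebra.TensorProduct.productMap (rn k m e₁) (rn k m e₂)).comp ψ = AlgHom.id k _ :=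
    af_ext fun i => ⟨a3 i 0, a3 i 1⟩
  refine bijective_iff_has_inverse.2 ⟨ψ, fun x => ?_, AlgHom.congr_fun a4⟩
  induction x with
  | zero => rw [map_zero, map_zero]
  | add x y hx hy => rw [map_add, map_add, hx, hy]
  | tmul a b =>
    rw [Algebra.TensorProduct.productMap_apply_tmul]
    refine (ψ.toRingHom.map_mul _ _).trans ?_
    change ψ _ * ψ _ = _
    rw [b1, b2]
    exact (Algebra.TensorProduct.tmul_mul_tmul _ _ _ _).trans (by rw [mul_one, one_mul])

open Polynomial in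
theorem bas_li {A : Type} [CommRing A] [Algebra k A] {x y : A} {n : ℕ} {f : k[X][X]} (hf : f.Monic)
    (hn : f.natDegree = n) (φ : A →ₐ[k] AdjoinRoot f) (hx : φ x = AdjoinRoot.of f X)
    (hy : φ y = AdjoinRoot.root f) :
    LinearIndependent k fun v : ℕ × Fin n => x ^ v.1 * y ^ (v.2 : ℕ) := by
  subst hn
  refine LinearIndependent.of_comp φ.toLinearMap ?_
  have h := linearIndependent_smul (basisMonomials k).linearIndependent
    (AdjoinRoot.powerBasis' hf).basis.linearIndependent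
  have e : (φ.toLinearMap ∘ fun v : ℕ × Fin f.natDegree => x ^ v.1 * y ^ (v.2 : ℕ)) =
      fun p => basisMonomials k p.1 • (AdjoinRoot.powerBasis' hf).basis p.2 := funext fun v => by
    refine Eq.trans ?_ (congrArg _ ((AdjoinRoot.powerBasis' hf).basis_eq_pow v.2)).symm
    simp [hx, hy, Algebra.smul_def, monomial_one_right_eq_X_pow]
  rw [e]
  exact h

open Polynomial in
theorem af_bas (hm : m ≠ 0) : Bas k (co k m () 0) (co k m () 1) m := by
  let f : k[X][X] := X ^ m + C (X ^ m + 1)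
  have hf : f.Monic := monic_X_pow_add_C _ hm
  have h0 : AdjoinRoot.root f ^ m + (AdjoinRoot.of f X ^ m + 1) = 0 := by
    simpa [f] using AdjoinRoot.mk_self (f := f)
  let y : Unit → Fin 3 → AdjoinRoot f := fun _ => ![AdjoinRoot.of f X, AdjoinRoot.root f, 1]
  have h2 : ∀ i, ∑ s, y i s ^ m = 0 := fun _ => by
    rw [← h0]
    simp [y, Fin.sum_univ_three]
    ring
  refine ⟨bas_li hf (natDegree_X_pow_add_C) (afLift y (fun _ => rfl) h2) (afLift_co _ _ _ _ _)
    (afLift_co _ _ _ _ _), ?_⟩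
  have h3 : co k m () 1 ^ m = -(co k m () 0 ^ m * co k m () 1 ^ 0) -
      co k m () 0 ^ 0 * co k m () 1 ^ 0 := by
    have := co_eq (k := k) (m := m) ()
    rw [Fin.sum_univ_three, show co k m () 2 = 1 from rfl] at this
    linear_combination this
  rw [h3]
  exact sub_mem (neg_mem (subset_span ⟨m, 0, Nat.pos_of_ne_zero hm, le_rfl, rfl⟩))
    (subset_span ⟨0, 0, Nat.pos_of_ne_zero hm, Nat.zero_le _, rfl⟩)

/-- the curve as a power with one factor. -/
noncomputable def afUnit (k : Type) [Field k] (m : ℕ) : FB k m ≃ₐ[k] Af k Unit m :=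
  AlgEquiv.ofAlgHom (ferFac k m ())
    (ferLift (fun v => Ideal.Quotient.mk _ (MvPolynomial.X v.2)) fun _ => ferB_rel)
    (ferA_ext fun ⟨_, s⟩ => by simp) (ferB_ext fun s => by simp)

/-- a product of prime ideals of the curve. -/
theorem af_prod_prime [IsAlgClosed k] [Fintype ι] (hm : (m : k) ≠ 0) {P : ι → Ideal (Af k Unit m)}
    {e : ι → ℕ} (hP : ∀ i, (P i).IsPrime) (he : ∀ i, Algebra.trdeg k (Af k Unit m ⧸ P i) = e i) :
    (⨆ i, (P i).map (rn k m fun _ => i)).IsPrime ∧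
      Algebra.trdeg k (Af k ι m ⧸ ⨆ i, (P i).map (rn k m fun _ => i)) = (∑ i, e i : ℕ) := by
  have _ := hm
  induction hn : Fintype.card ι generalizing ι with
  | zero =>
    have := Fintype.card_eq_zero_iff.1 hn
    have hb := ferA_empty (k := k) (ι := ι) (m := m)
    have : IsDomain (Af k ι m) := (RingEquiv.ofBijective _ hb).symm.toMulEquiv.isDomain
    rw [iSup_of_empty, Finset.univ_eq_empty, Finset.sum_empty, Nat.cast_zero]
    refine ⟨Ideal.isPrime_bot, ?_⟩
    have : Algebra.IsAlgebraic k (Af k ι m ⧸ (⊥ : Ideal (Af k ι m))) := ⟨fun a => by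
      obtain ⟨b, rfl⟩ := Ideal.Quotient.mk_surjective a
      obtain ⟨c, rfl⟩ := hb.2 b
      exact isAlgebraic_algebraMap c⟩
    exact trdeg_eq_zero
  | succ n ih =>
    let E : Option (Fin n) ≃ ι := Fintype.equivOfCardEq (by simp [hn])
    obtain ⟨h1, h2⟩ := ih (P := fun j => P (E (some j))) (e := fun j => e (E (some j)))
      (fun _ => hP _) (fun _ => he _) (Fintype.card_fin n)
    have hb : Bijective (Sum.elim (fun _ : Unit => E none) fun j => E (some j)) := by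
      convert E.bijective.comp (Equiv.optionEquivSumPUnit (Fin n)).symm.bijective |>.comp
        (Equiv.sumComm _ _).bijective using 1
      ext (_ | _) <;> rfl
    have h3 := (rn_tens (k := k) (m := m) hb).prime (hP (E none)) h1 (he _) h2
    have h4 : ⨆ i, (P i).map (rn k m fun _ => i) = (P (E none)).map (rn k m fun _ => E none) ⊔
        (⨆ j, (P (E (some j))).map (rn k m fun _ => j)).map (rn k m fun j => E (some j)) := by
      rw [← E.iSup_comp, iSup_option, Ideal.map_iSup]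
      congr 2
      ext1 j
      rw [← rn_comp (fun j => E (some j)) fun _ => j]
      exact (Ideal.map_map (rn k m fun _ => j).toRingHom
        (rn k m fun j => E (some j)).toRingHom).symm
    rw [h4, ← E.sum_comp, Fintype.sum_option]
    exact h3

theorem af_bot [IsAlgClosed k] [Fintype ι] (hm : (m : k) ≠ 0) : (⊥ : Ideal (Af k ι m)).IsPrime ∧
    Algebra.trdeg k (Af k ι m ⧸ (⊥ : Ideal (Af k ι m))) = (Fintype.card ι : ℕ) := by
  have := isPrime_fer hm
  have : IsDomain (Af k Unit m) := (afUnit k m).symm.toMulEquiv.isDomain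
  have h := af_prod_prime (ι := ι) hm (P := fun _ => ⊥) (e := fun _ => 1)
    (fun _ => Ideal.isPrime_bot) fun _ => by
      rw [(AlgEquiv.quotientBot k _).trdeg_eq, ← (afUnit k m).trdeg_eq, trdeg_fer hm, Nat.cast_one]
  have e : ⨆ i : ι, (⊥ : Ideal (Af k Unit m)).map (rn k m fun _ => i) = ⊥ := by simp
  rw [e] at h
  simpa using h

theorem af_dom [IsAlgClosed k] [Finite ι] (hm : (m : k) ≠ 0) : IsDomain (Af k ι m) := by
  cases nonempty_fintype ι
  have := (af_bot (ι := ι) hm).1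
  exact IsDomain.of_bot_isPrime _

theorem af_trdeg [IsAlgClosed k] [Fintype ι] (hm : (m : k) ≠ 0) :
    Algebra.trdeg k (Af k ι m ⧸ (⊥ : Ideal (Af k ι m))) = (Fintype.card ι : ℕ) := (af_bot hm).2

theorem af_pts [IsAlgClosed k] (hm : m ≠ 0) : ∃ (ε : k) (ψ ψ' : Af k ι m →ₐ[k] k), ε ≠ 0 ∧
    ∀ i s, ψ (co k m i s) = ![ε, 0, 1] s ∧ ψ' (co k m i s) = ![0, ε, 1] s := by
  obtain ⟨ε, hε⟩ := IsAlgClosed.exists_pow_nat_eq (-1 : k) (Nat.pos_of_ne_zero hm)
  refine ⟨ε, afLift (fun _ => ![ε, 0, 1]) (fun _ => rfl) fun _ => ?_,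
    afLift (fun _ => ![0, ε, 1]) (fun _ => rfl) fun _ => ?_, ?_,
    fun i s => ⟨afLift_co _ _ _ _ _, afLift_co _ _ _ _ _⟩⟩
  · simp [Fin.sum_univ_three, hε, hm]
  · simp [Fin.sum_univ_three, hε, hm]
  · rintro rfl
    simp [hm] at hε

theorem co_ne [IsAlgClosed k] [Finite ι] (hm : (m : k) ≠ 0) (i : ι) (s : Fin 3) :
    co k m i s ≠ 0 := fun h => by
  obtain ⟨ε, ψ, ψ', hε, h'⟩ := af_pts (k := k) (ι := ι) (m := m) (by rintro rfl; simp at hm)
  have := h' i s
  rw [h, map_zero, map_zero] at this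
  fin_cases s <;> simp [hε.symm] at this

theorem co_mnr_ne [IsAlgClosed k] [Finite ι] (hm : (m : k) ≠ 0) (i : ι) {s t : Fin 3} (h : s ≠ t) :
    co k m i s ⊗ₜ[k] co k m i t ≠ co k m i t ⊗ₜ[k] co k m i s := fun h0 => by
  obtain ⟨ε, ψ, ψ', hε, h'⟩ := af_pts (k := k) (ι := ι) (m := m) (by rintro rfl; simp at hm)
  have := congrArg (Algebra.TensorProduct.productMap ψ ψ') h0
  simp only [Algebra.TensorProduct.productMap_apply_tmul, fun s => (h' i s).1,
    fun s => (h' i s).2] at this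
  fin_cases s <;> fin_cases t <;> simp [hε, hε.symm] at this h

theorem af_pt [IsAlgClosed k] (hm : m ≠ 0) : Nonempty (Af k Unit m →ₐ[k] k) :=
  let ⟨_, ψ, _⟩ := af_pts (k := k) (ι := Unit) hm
  ⟨ψ⟩

open MvPolynomial in
theorem eas_bas {Q d : ℕ} (h : d < Q) (h1 : 1 < Q) :
    Bas k (Ideal.Quotient.mk (Ideal.span {easP k Q d}) (X 0)) (Ideal.Quotient.mk _ (X 1)) Q := by
  let f : Polynomial (Polynomial k) :=
    Polynomial.X ^ Q - (Polynomial.X + Polynomial.C (Polynomial.X ^ d))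
  have hd : (Polynomial.X + Polynomial.C (Polynomial.X ^ d) : Polynomial (Polynomial k)).degree <
      Q := by
    rw [Polynomial.degree_X_add_C]
    exact_mod_cast h1
  have hf : f.Monic := Polynomial.monic_X_pow_sub hd
  have hn : f.natDegree = Q := Polynomial.natDegree_eq_of_degree_eq_some (by
    rw [Polynomial.degree_sub_eq_left_of_degree_lt] <;> rw [Polynomial.degree_X_pow]
    exact hd)
  have h0 : AdjoinRoot.root f ^ Q - (AdjoinRoot.root f + AdjoinRoot.of f Polynomial.X ^ d) = 0 := by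
    simpa [f] using AdjoinRoot.mk_self (f := f)
  refine ⟨bas_li hf hn (Ideal.Quotient.liftₐ _
    (aeval ![AdjoinRoot.of f Polynomial.X, AdjoinRoot.root f]) fun a ha => ?_) (by simp) (by simp),
    ?_⟩
  · obtain ⟨b, rfl⟩ := Ideal.mem_span_singleton'.1 ha
    rw [map_mul]
    refine mul_eq_zero_of_right _ (Eq.trans ?_ h0)
    simp [easP, sub_sub]
  · set x := Ideal.Quotient.mk (Ideal.span {easP k Q d}) (X 0)
    set y := Ideal.Quotient.mk (Ideal.span {easP k Q d}) (X 1)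
    have h3 : y ^ Q - y - x ^ d = 0 := by
      have : Ideal.Quotient.mk (Ideal.span {easP k Q d}) (X 1 ^ Q - X 1 - X 0 ^ d) = 0 :=
        Ideal.Quotient.eq_zero_iff_mem.2 (Ideal.mem_span_singleton_self _)
      simpa only [map_sub, map_pow] using this
    rw [show y ^ Q = x ^ 0 * y ^ 1 + x ^ d * y ^ 0 by linear_combination h3]
    exact add_mem (subset_span ⟨0, 1, h1, by omega, rfl⟩) (subset_span ⟨d, 0, by omega, h.le, rfl⟩)

theorem eas_dom {Q d : ℕ} (hd : d ≠ 0) (h1 : 1 < Q) :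
    IsDomain (MvPolynomial (Fin 2) k ⧸ Ideal.span {easP k Q d}) :=
  have := isPrime_eas (k := k) h1 hd
  inferInstance

end Pool.Agent.Lib.MP_40dc3c_ag.T
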