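import Pool.Agent.Lib.MP_40dc3c_ag.T.CF

/-! Plane curves with a monomial basis; graphs of automorphisms. -/

namespace Pool.Agent.Lib.MP_40dc3c_ag.T

open scoped TensorProduct nonZeroDivisors
open Function Filter Submodule Module

variable {k A : Type} [Field k] [CommRing A] [Algebra k A] {x y : A} {n : ℕ}

theorem cj_red (h : Bas k x y n) (N j : ℕ) : ∀ i, i + j ≤ N →
    x ^ i * y ^ j ∈ span k {z | ∃ i j, j < n ∧ i + j ≤ N ∧ z = x ^ i * y ^ j} := by
  induction j using Nat.strong_induction_on with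
  | _ j ih =>
    intro i hi
    rcases lt_or_ge j n with hj | hj
    · exact subset_span ⟨i, j, hj, hi, rfl⟩
    obtain ⟨l, rfl⟩ := Nat.exists_eq_add_of_le hj
    rw [pow_add, mul_comm (y ^ n), ← mul_assoc]
    have h1 := h.red
    generalize y ^ n = w at h1
    induction h1 using span_induction with
    | mem z hz =>
      obtain ⟨a, b, hb, hab, rfl⟩ := hz
      rw [show x ^ i * y ^ l * (x ^ a * y ^ b) = x ^ (i + a) * y ^ (l + b) by ring]
      exact ih _ (by omega) _ (by omega)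
    | zero => simp
    | add a b _ _ ha hb => rw [mul_add]; exact add_mem ha hb
    | smul c a _ ha => rw [mul_smul_comm]; exact smul_mem _ _ ha

theorem Bas.pow (h : Bas k x y n) (N : ℕ) : span k (Set.range ![x, y, 1]) ^ N =
    span k {z | ∃ i j, j < n ∧ i + j ≤ N ∧ z = x ^ i * y ^ j} := by
  have hx : x ∈ span k (Set.range ![x, y, 1]) := subset_span ⟨0, rfl⟩
  have hy : y ∈ span k (Set.range ![x, y, 1]) := subset_span ⟨1, rfl⟩
  have h1 : (1 : A) ∈ span k (Set.range ![x, y, 1]) := subset_span ⟨2, rfl⟩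
  refine le_antisymm ?_ (span_le.2 ?_)
  · induction N with
    | zero =>
      rw [pow_zero, Submodule.one_le]
      simpa using cj_red h 0 0 0 le_rfl
    | succ N ih =>
      rw [pow_succ]
      refine (mul_le_mul_left ih _).trans ?_
      rw [span_mul_span]
      refine span_le.2 ?_
      rintro _ ⟨_, ⟨i, j, -, hij, rfl⟩, _, ⟨s, rfl⟩, rfl⟩
      fin_cases s
      · have := cj_red h (N + 1) j (i + 1) (by omega)
        rwa [pow_succ, mul_right_comm] at this
      · have := cj_red h (N + 1) (j + 1) i (by omega)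
        rwa [pow_succ, ← mul_assoc] at this
      · have := cj_red h (N + 1) j i (by omega)
        rwa [← mul_one (x ^ i * y ^ j)] at this
  · rintro _ ⟨i, j, -, hij, rfl⟩
    have := ce_pm (ce_pm (Submodule.pow_mem_pow _ hx i) (Submodule.pow_mem_pow _ hy j) rfl)
      (cf_one_pow h1 (N - (i + j))) (n := N) (by omega)
    rwa [mul_one] at this

theorem Bas.pow' (h : Bas k x y n) (N : ℕ) : span k (Set.range ![x, y, 1]) ^ N =
    span k ((fun v : ℕ × Fin n => x ^ v.1 * y ^ (v.2 : ℕ)) '' {v | v.1 + v.2 ≤ N}) := by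
  rw [h.pow]
  congr 1
  ext z
  exact ⟨by rintro ⟨i, j, hj, hij, rfl⟩; exact ⟨(i, ⟨j, hj⟩), hij, rfl⟩,
    by rintro ⟨v, hv, rfl⟩; exact ⟨v.1, v.2, v.2.2, hv, rfl⟩⟩

theorem Bas.finrank_pow (h : Bas k x y n) (N : ℕ) :
    finrank k ↥(span k (Set.range ![x, y, 1]) ^ N) = ∑ j : Fin n, (N + 1 - j) := by
  let e : (Σ j : Fin n, Fin (N + 1 - j)) → ℕ × Fin n := fun v => (v.2, v.1)
  have he : Injective e := by
    rintro ⟨j, i⟩ ⟨j', i'⟩ hv
    obtain rfl : j = j' := congrArg Prod.snd hv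
    obtain rfl : i = i' := Fin.ext (congrArg Prod.fst hv)
    rfl
  have hr : {v : ℕ × Fin n | v.1 + v.2 ≤ N} = Set.range e := by
    ext v
    refine ⟨fun hv => ⟨⟨v.2, v.1, ?_⟩, rfl⟩, ?_⟩
    · have : v.1 + v.2 ≤ N := hv
      omega
    · rintro ⟨⟨j, i⟩, rfl⟩
      have := i.2
      change (i : ℕ) + j ≤ N
      omega
  rw [h.pow', hr, ← Set.range_comp, finrank_span_eq_card (h.li.comp e he)]
  simp

theorem Bas.step (h : Bas k x y n) {N : ℕ} (hN : n ≤ N) :
    finrank k ↥(span k (Set.range ![x, y, 1]) ^ (N + 1)) =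
      finrank k ↥(span k (Set.range ![x, y, 1]) ^ N) + n := by
  rw [h.finrank_pow, h.finrank_pow]
  have : ∀ j : Fin n, N + 1 + 1 - j = N + 1 - j + 1 := fun j => by
    have := j.2
    omega
  simp only [this, Finset.sum_add_distrib]
  simp

theorem Bas.not_mem (h : Bas k x y n) (hn : n ≠ 0) {N i : ℕ} (hi : N < i) :
    x ^ i ∉ span k (Set.range ![x, y, 1]) ^ N := by
  rw [h.pow']
  have := h.li.notMem_span_image (s := {v | v.1 + v.2 ≤ N}) (x := (i, ⟨0, Nat.pos_of_ne_zero hn⟩))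
    (by simpa using hi)
  simpa using this

theorem cj_invt [IsDomain (A ⊗[k] A)] {c : Fin 3 → A} (h0 : ∀ s, c s ≠ 0) :
    Invt (bil k (fun s => c s ⊗ₜ[k] (1 : A)) fun s => (1 : A) ⊗ₜ[k] c s)
      (bil k (fun s => c s ⊗ₜ[k] (1 : A)) fun s => (1 : A) ⊗ₜ[k] c s) :=
  (invt_span fun s => mem_nonZeroDivisors_of_ne_zero fun h => h0 s (by
    simpa using congrArg (Algebra.TensorProduct.lmul' (S := A) k) h)).mul
  (invt_span fun s => mem_nonZeroDivisors_of_ne_zero fun h => h0 s (by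
    simpa using congrArg (Algebra.TensorProduct.lmul' (S := A) k) h))

/-- evaluation along a map on which a rescaled diagonal lattice does not vanish. -/
theorem cj_eval [IsDomain A] [IsDomain (A ⊗[k] A)] {c : Fin 3 → A} (h0 : ∀ s, c s ≠ 0)
    (ψ : A ⊗[k] A →ₐ[k] A) {D : Submodule k (A ⊗[k] A)}
    (hi : Invt (bil k (fun s => c s ⊗ₜ[k] (1 : A)) fun s => (1 : A) ⊗ₜ[k] c s) D)
    (hD : ∀ J d, hn (bil k (fun s => c s ⊗ₜ[k] (1 : A)) fun s => (1 : A) ⊗ₜ[k] c s) D J d =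
      hn (bil k (fun s => c s ⊗ₜ[k] (1 : A)) fun s => (1 : A) ⊗ₜ[k] c s)
        (mnr k (fun s => c s ⊗ₜ[k] (1 : A)) fun s => (1 : A) ⊗ₜ[k] c s) J d)
    {V L : Submodule k A}
    (hV : bil k (fun s => ψ (c s ⊗ₜ[k] (1 : A))) (fun s => ψ ((1 : A) ⊗ₜ[k] c s)) = V)
    (hL : D.map ψ.toLinearMap = L) (h1 : V ≠ ⊥) (h2 : L ≠ ⊥) :
    ∀ᶠ d in atTop, hs (k := k) (fun _ : Unit => c) (RingHom.ker ψ) d =
      finrank k ↥(V ^ (d + 1)) - finrank k ↥(L * V ^ d) := by
  rw [← bil_map] at hV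
  subst hV hL
  obtain ⟨_, ⟨ρ, hρ, rfl⟩, h3⟩ := (Submodule.ne_bot_iff _).1 h1
  obtain ⟨_, ⟨ρ', hρ', rfl⟩, h4⟩ := (Submodule.ne_bot_iff _).1 h2
  filter_upwards [hn_eval bil_fg (cj_invt h0) ψ hρ (mem_nonZeroDivisors_of_ne_zero h3),
    hn_eval bil_fg hi ψ hρ' (mem_nonZeroDivisors_of_ne_zero h4)] with d e1 e2
  rw [hs, hh_unique, ← hD, e1, e2, pow_succ']

theorem cj_sq_ne [IsDomain A] {c : Fin 3 → A} (h0 : ∀ s, c s ≠ 0) :
    span k (Set.range c) ^ 2 ≠ ⊥ :=
  (Submodule.ne_bot_iff _).2 ⟨c 0 ^ 2,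
    Submodule.pow_mem_pow _ (subset_span (Set.mem_range_self 0)) 2, pow_ne_zero _ (h0 0)⟩

/-- the graph of an endomorphism that does not fix the curve. -/
theorem hs_grf [IsDomain A] [IsDomain (A ⊗[k] A)] {c : Fin 3 → A} (h0 : ∀ s, c s ≠ 0)
    (hi : Invt (bil k (fun s => c s ⊗ₜ[k] (1 : A)) fun s => (1 : A) ⊗ₜ[k] c s)
      (mnr k (fun s => c s ⊗ₜ[k] (1 : A)) fun s => (1 : A) ⊗ₜ[k] c s))
    (g : A →ₐ[k] A) (hg : span k (Set.range fun s => g (c s)) = span k (Set.range c))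
    (hne : mnr k (fun s => g (c s)) c ≠ ⊥) :
    ∀ᶠ d in atTop, hs (k := k) (fun _ : Unit => c) (grf g) d =
      finrank k ↥(span k (Set.range c) ^ (2 * d + 2)) -
        finrank k ↥(mnr k (fun s => g (c s)) c * span k (Set.range c) ^ (2 * d)) := by
  filter_upwards [cj_eval h0 (Algebra.TensorProduct.productMap g (AlgHom.id k A)) hi
    (fun _ _ => rfl) (V := span k (Set.range c) ^ 2) (L := mnr k (fun s => g (c s)) c)
    (by simp [bil, hg, pow_two]) (by simp [mnr_map]) (cj_sq_ne h0) hne] with d hd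
  rw [grf, hd, ← pow_mul, ← pow_mul, mul_add, mul_one]

theorem cj_mnr {B : Type} [CommRing B] [Algebra k B] {X Y : Fin 3 → B} (hX : X 2 = 1)
    (hY : Y 2 = 1) : mnr k X Y = span k {X 1 - Y 1, X 0 - Y 0, X 0 * Y 1 - X 1 * Y 0} := by
  refine le_antisymm (span_le.2 ?_) (span_le.2 ?_)
  · have a1 : X 1 - Y 1 ∈ span k {X 1 - Y 1, X 0 - Y 0, X 0 * Y 1 - X 1 * Y 0} :=
      subset_span (by simp)
    have a2 : X 0 - Y 0 ∈ span k {X 1 - Y 1, X 0 - Y 0, X 0 * Y 1 - X 1 * Y 0} :=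
      subset_span (by simp)
    have a3 : X 0 * Y 1 - X 1 * Y 0 ∈ span k {X 1 - Y 1, X 0 - Y 0, X 0 * Y 1 - X 1 * Y 0} :=
      subset_span (by simp)
    rintro _ ⟨⟨s, t⟩, rfl⟩
    fin_cases s <;> fin_cases t
    · simp
    · exact a3
    · simpa [hX, hY] using a2
    · simpa using neg_mem a3
    · simp
    · simpa [hX, hY] using a1
    · simpa [hX, hY] using neg_mem a2
    · simpa [hX, hY] using neg_mem a1
    · simp
  · rintro _ (rfl | rfl | rfl)
    · simpa [hX, hY] using ce_mnr (k := k) (x := X) (y := Y) 1 2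
    · simpa [hX, hY] using ce_mnr (k := k) (x := X) (y := Y) 0 2
    · exact ce_mnr 0 1

/-- the diagonal: `a`, `b` is the syzygy of the affine minors. -/
theorem hs_diag [IsDomain A] [IsDomain (A ⊗[k] A)] {c : Fin 3 → A} (h0 : ∀ s, c s ≠ 0)
    (h2 : c 2 = 1)
    (hi : Invt (bil k (fun s => c s ⊗ₜ[k] (1 : A)) fun s => (1 : A) ⊗ₜ[k] c s)
      (mnr k (fun s => c s ⊗ₜ[k] (1 : A)) fun s => (1 : A) ⊗ₜ[k] c s))
    {a b : A ⊗[k] A} (hu : c 0 ⊗ₜ[k] (1 : A) - (1 : A) ⊗ₜ[k] c 0 ≠ 0)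
    (h : (c 0 ⊗ₜ[k] 1 - 1 ⊗ₜ[k] c 0) * a + (c 1 ⊗ₜ[k] 1 - 1 ⊗ₜ[k] c 1) * b = 0) {a' b' : A}
    (ha : Algebra.TensorProduct.lmul' k a = a') (hb : Algebra.TensorProduct.lmul' k b = b')
    (hb0 : b' ≠ 0) :
    ∀ᶠ d in atTop, hs (k := k) (fun _ : Unit => c) (grf (AlgHom.id k A)) d =
      finrank k ↥(span k (Set.range c) ^ (2 * d + 2)) -
        finrank k ↥(span k {a', b', c 0 * a' + c 1 * b'} * span k (Set.range c) ^ (2 * d)) := by
  have e0 : Algebra.TensorProduct.productMap (AlgHom.id k A) (AlgHom.id k A) =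
      Algebra.TensorProduct.lmul' k := by ext <;> simp
  have hb1 : b ∈ (A ⊗[k] A)⁰ := mem_nonZeroDivisors_of_ne_zero fun h' => hb0 (by
    rw [← hb, h', map_zero])
  have e : (span k {-a, b, -(c 0 ⊗ₜ[k] 1 * -a - c 1 ⊗ₜ[k] 1 * b)} : Submodule k (A ⊗[k] A)).map
      (LinearMap.mulLeft k (c 0 ⊗ₜ[k] (1 : A) - (1 : A) ⊗ₜ[k] c 0)) =
      (mnr k (fun s => c s ⊗ₜ[k] (1 : A)) fun s => (1 : A) ⊗ₜ[k] c s).map
        (LinearMap.mulLeft k b) := by
    rw [cj_mnr (by rw [h2]; rfl) (by rw [h2]; rfl), map_span, map_span]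
    simp only [Set.image_insert_eq, Set.image_singleton, LinearMap.mulLeft_apply]
    congr 2
    · linear_combination -h
    · congr 1
      · ring
      · congr 1
        linear_combination (c 0 ⊗ₜ[k] (1 : A)) * h
  have hu' := mem_nonZeroDivisors_of_ne_zero hu
  filter_upwards [cj_eval h0 (Algebra.TensorProduct.lmul' k) (hi.scale hu' hb1 e)
    (hn_scale hu' hb1 e) (V := span k (Set.range c) ^ 2)
    (L := span k {a', b', c 0 * a' + c 1 * b'}) (by simp [bil, pow_two]) (by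
      rw [map_span]
      simp only [Set.image_insert_eq, Set.image_singleton, AlgHom.toLinearMap_apply, map_neg,
        map_sub, map_mul, ha, hb, Algebra.TensorProduct.lmul'_apply_tmul, mul_one]
      rw [span_insert, span_insert a', ← Set.neg_singleton, span_neg]
      congr 4
      ring) (cj_sq_ne h0) ((Submodule.ne_bot_iff _).2 ⟨b', subset_span (by simp), hb0⟩)] with d hd
  rw [grf, e0, hd, ← pow_mul, ← pow_mul, mul_add, mul_one]

theorem cj_pt {c : Fin 3 → A} (h2 : c 2 = 1) (ψ : A →ₐ[k] k) {L : Submodule k A}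
    (hL : ∀ z ∈ L, ψ z = 0) (hW : span k (Set.range c) = L ⊔ span k {1}) (d : ℕ) :
    (finrank k ↥(span k (Set.range c) ^ (d + 1)) : ℤ) -
      finrank k ↥(L * span k (Set.range c) ^ d) = 1 := by
  have hfg : ∀ j, (span k (Set.range c) ^ j).FG := fun j => (fg_span (Set.finite_range c)).pow j
  have h1 : (1 : A) ∈ span k (Set.range c) := subset_span ⟨2, h2⟩
  have key : ∀ j, span k (Set.range c) ^ (j + 1) = L * span k (Set.range c) ^ j ⊔ span k {1} := by
    intro j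
    induction j with
    | zero => rw [pow_zero, mul_one, zero_add, pow_one, ← hW]
    | succ j ih =>
      have e : span k (Set.range c) ^ (j + 1 + 1) =
          L * span k (Set.range c) ^ (j + 1) ⊔ span k (Set.range c) ^ (j + 1) := by
        rw [pow_succ' _ (j + 1)]
        nth_rewrite 1 [hW]
        rw [Submodule.sup_mul, ← one_eq_span, one_mul]
      rw [e]
      nth_rewrite 2 [ih]
      rw [← sup_assoc, sup_eq_left.2 (mul_le_mul_right (fun z hz => ?_) L)]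
      simpa using ce_pm hz (ce_p1 h1) rfl
  have := Module.Finite.iff_fg.2 (hfg (d + 1))
  have hf : Module.Finite k ↥(L * span k (Set.range c) ^ d) :=
    Submodule.finiteDimensional_of_le (S₂ := span k (Set.range c) ^ (d + 1))
      (by rw [key]; exact le_sup_left)
  have h3 : ∀ z ∈ L * span k (Set.range c) ^ d, ψ z = 0 := fun z hz =>
    Submodule.mul_induction_on hz (fun a ha b _ => by rw [map_mul, hL a ha, zero_mul])
      fun a b ha hb => by rw [map_add, ha, hb, add_zero]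
  have h4 : (1 : A) ∉ L * span k (Set.range c) ^ d := fun h => by simpa using h3 1 h
  have h5 : (1 : A) ≠ 0 := fun h => h4 (h ▸ zero_mem _)
  have h6 := Submodule.finrank_sup_add_finrank_inf_eq (L * span k (Set.range c) ^ d) (span k {1})
  rw [((disjoint_span_singleton' h5).2 h4).eq_bot, finrank_bot, finrank_span_singleton h5,
    ← key] at h6
  omega

theorem cj_mnr_comm {B : Type} [CommRing B] [Algebra k B] (X Y : Fin 3 → B) :
    mnr k X Y = mnr k Y X := by
  have : ∀ X Y : Fin 3 → B, mnr k X Y ≤ mnr k Y X := fun X Y => span_le.2 (by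
    rintro _ ⟨⟨s, t⟩, rfl⟩
    exact subset_span ⟨(t, s), by ring⟩)
  exact le_antisymm (this _ _) (this _ _)

theorem cj_pt_eval [IsDomain A] [IsDomain (A ⊗[k] A)] {c : Fin 3 → A} (h0 : ∀ s, c s ≠ 0)
    (h2 : c 2 = 1) (h3 : ∀ a : k, c 0 ≠ algebraMap k A a)
    (hi : Invt (bil k (fun s => c s ⊗ₜ[k] (1 : A)) fun s => (1 : A) ⊗ₜ[k] c s)
      (mnr k (fun s => c s ⊗ₜ[k] (1 : A)) fun s => (1 : A) ⊗ₜ[k] c s)) (ψ : A →ₐ[k] k)
    (Ψ : A ⊗[k] A →ₐ[k] A)
    (hV : bil k (fun s => Ψ (c s ⊗ₜ[k] (1 : A))) (fun s => Ψ ((1 : A) ⊗ₜ[k] c s)) =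
      bil k c fun s => algebraMap k A (ψ (c s)))
    (hL : mnr k (fun s => Ψ (c s ⊗ₜ[k] (1 : A))) (fun s => Ψ ((1 : A) ⊗ₜ[k] c s)) =
      mnr k c fun s => algebraMap k A (ψ (c s))) :
    ∀ᶠ d in atTop, hs (k := k) (fun _ : Unit => c) (RingHom.ker Ψ) d = 1 := by
  have e1 : span k (Set.range fun s => algebraMap k A (ψ (c s))) = 1 := by
    refine le_antisymm (span_le.2 ?_) (Submodule.one_le.2 (subset_span ⟨2, by simp [h2]⟩))
    rintro _ ⟨s, rfl⟩
    exact algebraMap_mem _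
  have hm : ∀ s, c s - algebraMap k A (ψ (c s)) ∈ mnr k c fun s => algebraMap k A (ψ (c s)) :=
    fun s => by
      simpa [h2] using ce_mnr (k := k) (x := c) (y := fun s => algebraMap k A (ψ (c s))) s 2
  have h1 : (1 : A) ∈ span k (Set.range c) := subset_span ⟨2, h2⟩
  have e2 : (bil k c fun s => algebraMap k A (ψ (c s))) = span k (Set.range c) := by
    rw [bil, e1, mul_one]
  filter_upwards [cj_eval h0 Ψ hi (fun _ _ => rfl) (hV.trans e2) ((mnr_map _ _ _).trans hL)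
    ((Submodule.ne_bot_iff _).2 ⟨1, h1, one_ne_zero⟩)
    ((Submodule.ne_bot_iff _).2 ⟨_, hm 0, sub_ne_zero.2 (h3 _)⟩)] with d hd
  rw [hd]
  refine cj_pt h2 ψ (fun z hz => ?_) (le_antisymm (span_le.2 ?_) (sup_le (e2 ▸ mnr_le_bil)
    (span_le.2 (Set.singleton_subset_iff.2 h1)))) d
  · refine (span_le (p := LinearMap.ker ψ.toLinearMap)).2 ?_ hz
    rintro _ ⟨s, rfl⟩
    simp [mul_comm]
  · rintro _ ⟨s, rfl⟩
    rw [← sub_add_cancel (c s) (algebraMap k A (ψ (c s)))]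
    exact add_mem_sup (hm s) (one_eq_span (R := k) (A := A) ▸ algebraMap_mem _)

theorem cj_ker_left (ψ : A →ₐ[k] k) : ibox (k := k) (RingHom.ker ψ) (⊥ : Ideal A) = RingHom.ker
    (Algebra.TensorProduct.productMap ((Algebra.ofId k A).comp ψ) (AlgHom.id k A)) := by
  rw [ibox, Ideal.map_bot, sup_bot_eq]
  refine le_antisymm (Ideal.map_le_iff_le_comap.2 fun a ha => ?_) fun z hz => ?_
  · simp [RingHom.mem_ker.1 ha]
  have key : ∀ z : A ⊗[k] A, z - 1 ⊗ₜ Algebra.TensorProduct.productMap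
      ((Algebra.ofId k A).comp ψ) (AlgHom.id k A) z ∈ (RingHom.ker ψ).map
        (Algebra.TensorProduct.includeLeft : A →ₐ[k] A ⊗[k] A) := by
    intro z
    induction z using TensorProduct.induction_on with
    | zero => simp
    | add u v hu hv =>
      rw [map_add, TensorProduct.tmul_add, add_sub_add_comm]
      exact add_mem hu hv
    | tmul a b =>
      have := Ideal.mul_mem_right (1 ⊗ₜ b) _ (Ideal.mem_map_of_mem
        (Algebra.TensorProduct.includeLeft : A →ₐ[k] A ⊗[k] A)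
        (show a - algebraMap k A (ψ a) ∈ RingHom.ker ψ by simp))
      simpa [TensorProduct.sub_tmul, Algebra.algebraMap_eq_smul_one, sub_mul,
        TensorProduct.smul_tmul] using this
  simpa [RingHom.mem_ker.1 hz] using key z

theorem cj_ker_right (ψ : A →ₐ[k] k) : ibox (k := k) (⊥ : Ideal A) (RingHom.ker ψ) = RingHom.ker
    (Algebra.TensorProduct.productMap (AlgHom.id k A) ((Algebra.ofId k A).comp ψ)) := by
  rw [ibox, Ideal.map_bot, bot_sup_eq]
  refine le_antisymm (Ideal.map_le_iff_le_comap.2 fun a ha => ?_) fun z hz => ?_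
  · simp [RingHom.mem_ker.1 ha]
  have key : ∀ z : A ⊗[k] A, z - Algebra.TensorProduct.productMap (AlgHom.id k A)
      ((Algebra.ofId k A).comp ψ) z ⊗ₜ 1 ∈ (RingHom.ker ψ).map
        (Algebra.TensorProduct.includeRight : A →ₐ[k] A ⊗[k] A) := by
    intro z
    induction z using TensorProduct.induction_on with
    | zero => simp
    | add u v hu hv =>
      rw [map_add, TensorProduct.add_tmul, add_sub_add_comm]
      exact add_mem hu hv
    | tmul a b =>
      have := Ideal.mul_mem_left _ (a ⊗ₜ 1) (Ideal.mem_map_of_mem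
        (Algebra.TensorProduct.includeRight : A →ₐ[k] A ⊗[k] A)
        (show b - algebraMap k A (ψ b) ∈ RingHom.ker ψ by simp))
      simpa [TensorProduct.tmul_sub, Algebra.algebraMap_eq_smul_one, mul_sub,
        TensorProduct.smul_tmul] using this
  simpa [RingHom.mem_ker.1 hz] using key z

/-- a point and the curve. -/
theorem hs_pt_bot [IsDomain A] [IsDomain (A ⊗[k] A)] {c : Fin 3 → A} (h0 : ∀ s, c s ≠ 0)
    (h2 : c 2 = 1) (h3 : ∀ a : k, c 0 ≠ algebraMap k A a)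
    (hi : Invt (bil k (fun s => c s ⊗ₜ[k] (1 : A)) fun s => (1 : A) ⊗ₜ[k] c s)
      (mnr k (fun s => c s ⊗ₜ[k] (1 : A)) fun s => (1 : A) ⊗ₜ[k] c s)) (ψ : A →ₐ[k] k) :
    (∀ᶠ d in atTop, hs (k := k) (fun _ : Unit => c) (ibox (RingHom.ker ψ) ⊥) d = 1) ∧
      ∀ᶠ d in atTop, hs (k := k) (fun _ : Unit => c) (ibox ⊥ (RingHom.ker ψ)) d = 1 := by
  rw [cj_ker_left, cj_ker_right]
  refine ⟨cj_pt_eval h0 h2 h3 hi ψ _ ?_ ?_, cj_pt_eval h0 h2 h3 hi ψ _ ?_ ?_⟩
  · simp [bil, mul_comm, Algebra.ofId_apply]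
  · rw [cj_mnr_comm]
    simp [Algebra.ofId_apply]
  · simp [Algebra.ofId_apply]
  · simp [Algebra.ofId_apply]

end Pool.Agent.Lib.MP_40dc3c_ag.T
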