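import Pool.Agent.Lib.MP_40dc3c_ag.T.CS
import Pool.Agent.Lib.MP_40dc3c_ag.T.CI
import Pool.Agent.Lib.MP_40dc3c_ag.T.CJ
import Pool.Agent.Lib.MP_40dc3c_ag.T.B5a

/-! The functional of the curve with one point at infinity. -/

namespace Pool.Agent.Lib.MP_40dc3c_ag.T

open scoped TensorProduct nonZeroDivisors
open Function Filter Submodule Module

section curve

variable {k A : Type} [Field k] [CommRing A] [Algebra k A] {x y : A} {d : ℕ}

lemma cv_mono {N i j : ℕ} (h : i + j ≤ N) : x ^ i * y ^ j ∈ span k (Set.range ![x, y, 1]) ^ N := by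
  obtain ⟨l, rfl⟩ := Nat.exists_eq_add_of_le h
  rw [pow_add, pow_add, (by simp : x ^ i * y ^ j = x ^ i * y ^ j * 1 ^ l)]
  have m : ∀ s n, ![x, y, 1] s ^ n ∈ span k (Set.range ![x, y, 1]) ^ n := fun s n =>
    Submodule.pow_mem_pow _ (subset_span (Set.mem_range_self s)) n
  exact Submodule.mul_mem_mul (Submodule.mul_mem_mul (m 0 i) (m 1 j)) (m 2 l)

lemma cv_le (h : Bas k x y (d + 1)) {N : ℕ} {T : Submodule k A}
    (hT : ∀ i j, j ≤ d → i + j ≤ N → x ^ i * y ^ j ∈ T) : span k (Set.range ![x, y, 1]) ^ N ≤ T := by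
  rw [h.pow, span_le]
  rintro _ ⟨i, j, a, b, rfl⟩
  exact hT i j (Nat.lt_succ_iff.1 a) b

lemma cv_mul_le (h : Bas k x y (d + 1)) {N : ℕ} {T : Submodule k A} {W : Set A}
    (hT : ∀ w ∈ W, ∀ i j, j ≤ d → i + j ≤ N → w * (x ^ i * y ^ j) ∈ T) :
    span k W * span k (Set.range ![x, y, 1]) ^ N ≤ T := by
  rw [h.pow, span_mul_span, span_le]
  rintro _ ⟨w, hw, _, ⟨i, j, a, b, rfl⟩, rfl⟩
  exact hT w hw i j (Nat.lt_succ_iff.1 a) b

lemma cv_mem_mul {N i j : ℕ} {W : Set A} {w z : A} (hw : w ∈ W) (h : i + j ≤ N) (e : z = w * (x ^ i * y ^ j)) :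
    z ∈ span k W * span k (Set.range ![x, y, 1]) ^ N := e ▸ Submodule.mul_mem_mul (subset_span hw) (cv_mono h)

lemma cv_codim (h : Bas k x y (d + 1)) (r : y ^ (d + 1) = y + x ^ d) {N n : ℕ} {W : Set A}
    (h1 : ∀ w ∈ W, ∃ a b, w = x ^ a * y ^ b ∧ b ≤ 1 ∧ a + b + N ≤ n ∧ (b = 0 → a + N < n))
    (h2 : ∀ i j, j ≤ d → i + j ≤ n → i ≠ n → x ^ i * y ^ j ∈ span k W * span k (Set.range ![x, y, 1]) ^ N) :
    finrank k ↥(span k W * span k (Set.range ![x, y, 1]) ^ N) + 1 =
      finrank k ↥(span k (Set.range ![x, y, 1]) ^ n) := by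
  have m : ∀ i j, j ≤ d → (j = 0 → i ≠ n) → x ^ i * y ^ j ∈
      span k ((fun v : ℕ × Fin (d + 1) => x ^ v.1 * y ^ (v.2 : ℕ)) '' {(n, 0)}ᶜ) := fun i j a b =>
    subset_span ⟨(i, ⟨j, Nat.lt_succ_iff.2 a⟩), fun e => by
      simp only [Set.mem_singleton_iff, Prod.mk.injEq, Fin.ext_iff] at e
      exact b e.2 e.1, rfl⟩
  have a : x ^ n ∉ span k W * span k (Set.range ![x, y, 1]) ^ N := fun e =>
    h.li.notMem_span_image (s := {(n, 0)}ᶜ) (x := (n, 0)) (by simp) (by
      simp only [Fin.val_zero, pow_zero, mul_one]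
      refine cv_mul_le h (fun w hw i j u v => ?_) e
      obtain ⟨a, b, rfl, b1, b2, b3⟩ := h1 w hw
      rw [mul_mul_mul_comm, ← pow_add, ← pow_add]
      rcases (show b + j ≤ d + 1 by omega).eq_or_lt with c | c
      · rw [c, r, mul_add, ← pow_add]
        rcases d.eq_zero_or_pos with rfl | d0
        · exact (by simpa using h.li.ne_zero (0, 0) : (1 : A) ≠ 0).elim (by simpa using r)
        exact add_mem (by simpa using m (a + i) 1 d0 (by simp))
          (by simpa using m (a + i + d) 0 d.zero_le fun _ => by omega)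
      · exact m _ _ (by omega) (by omega))
  have b : span k W * span k (Set.range ![x, y, 1]) ^ N ⊔ span k {x ^ n} = span k (Set.range ![x, y, 1]) ^ n := by
    refine le_antisymm (sup_le (cv_mul_le h fun w hw i j _ v => ?_) ?_) (cv_le h fun i j u v => ?_)
    · obtain ⟨a, b, rfl, b1, b2, b3⟩ := h1 w hw
      rw [mul_mul_mul_comm, ← pow_add, ← pow_add]
      exact cv_mono (by omega)
    · simpa using cv_mono (k := k) (x := x) (y := y) (i := n) (j := 0) le_rfl
    by_cases e : i = n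
    · obtain rfl : j = 0 := by omega
      exact mem_sup_right (subset_span (by simp [e]))
    · exact mem_sup_left (h2 i j u v e)
  have f : Module.Finite k ↥(span k (Set.range ![x, y, 1]) ^ n) :=
    Module.Finite.iff_fg.2 ((fg_span (Set.finite_range _)).pow _)
  have := Submodule.finiteDimensional_of_le (b ▸ le_sup_left :
    span k W * span k (Set.range ![x, y, 1]) ^ N ≤ span k (Set.range ![x, y, 1]) ^ n)
  have c := finrank_sup_add_finrank_inf_eq (span k W * span k (Set.range ![x, y, 1]) ^ N) (span k {x ^ n})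
  rw [b, (disjoint_span_singleton_of_notMem a).eq_bot, finrank_bot,
    finrank_span_singleton (v := x ^ n) fun e => a (by rw [e]; exact zero_mem _)] at c
  exact c.symm

lemma cv_step (h : Bas k x y (d + 1)) {N : ℕ} (hN : d + 1 ≤ N) (l : ℕ) :
    finrank k ↥(span k (Set.range ![x, y, 1]) ^ (N + l)) =
      finrank k ↥(span k (Set.range ![x, y, 1]) ^ N) + l * (d + 1) := by
  induction l with
  | zero => simp
  | succ l ih => rw [← add_assoc, h.step (by omega), ih]; ring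

lemma cv_mnr (u v : Fin 3 → A) :
    mnr k u v = span k {u 0 * v 1 - u 1 * v 0, u 0 * v 2 - u 2 * v 0, u 1 * v 2 - u 2 * v 1} := by
  refine le_antisymm (span_le.2 ?_) (span_mono ?_)
  · rintro _ ⟨⟨s, t⟩, rfl⟩
    have n : ∀ {a b : A} {T : Submodule k A}, a - b ∈ T → b - a ∈ T := fun h => sub_mem_comm_iff.1 h
    fin_cases s <;> fin_cases t
    exacts [by simp, subset_span (by simp), subset_span (by simp), n (subset_span (by simp)), by simp,
      subset_span (by simp), n (subset_span (by simp)), n (subset_span (by simp)), by simp]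
  · rintro _ (rfl | rfl | rfl)
    exacts [⟨(0, 1), rfl⟩, ⟨(0, 2), rfl⟩, ⟨(1, 2), rfl⟩]

open Classical in
lemma cv_grf [IsDomain A] (h : Bas k x y (d + 1)) (r : y ^ (d + 1) = y + x ^ d) (hx : x ≠ 0) (z a : k)
    (hz : ¬(z = 1 ∧ a = 0)) {N : ℕ} (hN : d + 1 ≤ N) :
    (finrank k ↥(span k (Set.range ![x, y, 1]) ^ (N + 2)) : ℤ) -
      finrank k ↥(mnr k ![z • x, y + algebraMap k A a, 1] ![x, y, 1] * span k (Set.range ![x, y, 1]) ^ N) =
      1 + (if a = 0 then (d + 1 : ℤ) else 0) + if z = 1 then (d : ℤ) else 0 := by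
  have s := h.step (N := N + 1) (by omega)
  have e : mnr k ![z • x, y + algebraMap k A a, 1] ![x, y, 1] =
      span k {(z - 1) • (x * y) - a • x, (z - 1) • x, a • 1} := by
    rw [cv_mnr]
    refine congrArg _ (congrArg₂ insert ?_ (congrArg₂ insert ?_ (congrArg singleton ?_)))
    · simp [Algebra.smul_def]; ring
    · simp [sub_smul]
    · simp [Algebra.smul_def]
  rw [e, s]
  by_cases h1 : z = 1
  · have h2 : a ≠ 0 := fun e => hz ⟨h1, e⟩
    have : span k {(z - 1) • (x * y) - a • x, (z - 1) • x, a • 1} = span k {x, 1, 1} := by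
      apply le_antisymm <;> rw [span_le] <;> rintro _ (rfl | rfl | rfl) <;> refine mem_span_triple.2 ?_
      exacts [⟨-a, 0, 0, by simp [h1]⟩, ⟨0, 0, 0, by simp [h1]⟩, ⟨0, a, 0, by simp⟩,
        ⟨-a⁻¹, 0, 0, by simp [h1, h2]⟩, ⟨0, 0, a⁻¹, by simp [h2]⟩, ⟨0, 0, a⁻¹, by simp [h2]⟩]
    rw [this, if_pos h1, if_neg h2, (?_ : _ * _ = span k (Set.range ![x, y, 1]) ^ (N + 1))]
    · push_cast; ring
    refine le_antisymm (cv_mul_le h ?_) (cv_le h fun i j u v => ?_)
    · rintro w (rfl | rfl | rfl) i j u v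
      · rw [← mul_assoc, ← pow_succ']; exact cv_mono (by omega)
      all_goals rw [one_mul]; exact cv_mono (by omega)
    · rcases i with _ | i
      · exact cv_mem_mul (w := 1) (by simp) (by omega) (one_mul _).symm
      · exact cv_mem_mul (w := x) (i := i) (j := j) (by simp) (by omega) (by ring)
  have h3 := sub_ne_zero.2 h1
  by_cases h2 : a = 0
  · have : span k {(z - 1) • (x * y) - a • x, (z - 1) • x, a • 1} = span k {x} * span k {y, 1} := by
      rw [span_mul_span, Set.singleton_mul, Set.image_pair]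
      apply le_antisymm <;> rw [span_le]
      · rintro _ (rfl | rfl | rfl) <;> refine mem_span_pair.2 ?_
        exacts [⟨z - 1, 0, by simp [h2]⟩, ⟨0, z - 1, by simp⟩, ⟨0, 0, by simp [h2]⟩]
      · rintro _ (rfl | rfl) <;> refine mem_span_triple.2 ?_
        exacts [⟨(z - 1)⁻¹, 0, 0, by simp [h2, h3]⟩, ⟨0, (z - 1)⁻¹, 0, by simp [h3]⟩]
    have f : ∀ P : Submodule k A, finrank k ↥(span k {x} * P) = finrank k P := fun P => by
      rw [(by ext; simp [mem_span_singleton_mul] : span k {x} * P = P.map (LinearMap.mulLeft k x))]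
      exact (equivMapOfInjective _ (mul_right_injective₀ hx) P).finrank_eq.symm
    rw [this, mul_assoc, f, if_pos h2, if_neg h1, ← cv_codim h r (N := N) (n := N + 1) (W := {y, 1})]
    · push_cast; ring
    · rintro w (rfl | rfl)
      exacts [⟨0, 1, by simp, by omega⟩, ⟨0, 0, by simp, by omega⟩]
    · intro i j u v e
      rcases j with _ | j
      · exact cv_mem_mul (w := 1) (by simp) (by omega) (one_mul _).symm
      · exact cv_mem_mul (w := y) (i := i) (j := j) (by simp) (by omega) (by ring)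
  have : span k {(z - 1) • (x * y) - a • x, (z - 1) • x, a • 1} = span k {x * y, x, 1} := by
    apply le_antisymm <;> rw [span_le] <;> rintro _ (rfl | rfl | rfl) <;> refine mem_span_triple.2 ?_
    exacts [⟨z - 1, -a, 0, by simp [sub_eq_add_neg]⟩, ⟨0, z - 1, 0, by simp⟩, ⟨0, 0, a, by simp⟩,
      ⟨(z - 1)⁻¹, (z - 1)⁻¹ * a * (z - 1)⁻¹, 0, by simp [smul_sub, mul_smul, h3]⟩, ⟨0, (z - 1)⁻¹, 0, by simp [h3]⟩,
      ⟨0, 0, a⁻¹, by simp [h2]⟩]
  rw [← s, this, if_neg h2, if_neg h1, ← cv_codim h r (N := N) (n := N + 2) (W := {x * y, x, 1})]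
  · push_cast; ring
  · rintro w (rfl | rfl | rfl)
    exacts [⟨1, 1, by simp, by omega⟩, ⟨1, 0, by simp, by omega⟩, ⟨0, 0, by simp, by omega⟩]
  · intro i j u v e
    rcases i with _ | i
    · exact cv_mem_mul (w := 1) (by simp) (by omega) (one_mul _).symm
    rcases j with _ | j
    · exact cv_mem_mul (w := x) (i := i) (j := 0) (by simp) (by omega) (by ring)
    · exact cv_mem_mul (w := x * y) (i := i) (j := j) (by simp) (by omega) (by ring)

lemma cv_diag (h : Bas k x y (d + 2)) {N : ℕ} (hN : 2 * d + 2 ≤ N) (hd : 0 < d) :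
    span k {x ^ d, -1, x * x ^ d + y * -1} * span k (Set.range ![x, y, 1]) ^ N =
      span k (Set.range ![x, y, 1]) ^ (N + (d + 1)) := by
  have low : ∀ i j, j ≤ d + 2 → i + j ≤ N + d →
      x ^ i * y ^ j ∈ span k {x ^ d, -1, x * x ^ d + y * -1} * span k (Set.range ![x, y, 1]) ^ N := fun i j u v => by
    rcases le_or_gt (i + j) N with c | c
    · exact neg_mem_iff.1 (cv_mem_mul (w := -1) (by simp) c (by ring))
    · obtain ⟨i, rfl⟩ := Nat.exists_eq_add_of_le (show d ≤ i by omega)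
      exact cv_mem_mul (w := x ^ d) (i := i) (j := j) (by simp) (by omega) (by ring)
  refine le_antisymm (cv_mul_le h ?_) (cv_le h fun i j u v => ?_)
  · rintro w (rfl | rfl | rfl) i j u v
    · rw [← mul_assoc, ← pow_add]; exact cv_mono (by omega)
    · rw [neg_one_mul]; exact neg_mem (cv_mono (by omega))
    · rw [(by ring : _ * (x ^ i * y ^ j) = x ^ (d + 1 + i) * y ^ j - x ^ i * y ^ (j + 1))]
      exact sub_mem (cv_mono (by omega)) (cv_mono (by omega))
  rcases v.eq_or_lt with c | c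
  · obtain ⟨i, rfl⟩ := Nat.exists_eq_add_of_le (show d + 1 ≤ i by omega)
    rw [(by ring : x ^ (d + 1 + i) * y ^ j = (x * x ^ d + y * -1) * (x ^ i * y ^ j) + x ^ i * y ^ (j + 1))]
    exact add_mem (cv_mem_mul (by simp) (by omega) rfl) (low _ _ (by omega) (by omega))
  · exact low _ _ (by omega) (by omega)

lemma cv_sum {G : Type} [Group G] [Fintype G] (χ : G →* ℂ) (F : G → ℂ) (h : G) (hh : χ h ≠ 1)
    (hF : ∀ g, F (h * g) = F g) : ∑ g, χ g * F g = 0 := by
  have := Fintype.sum_equiv (Equiv.mulLeft h) (fun g => χ h * (χ g * F g)) (fun g => χ g * F g)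
    (by simp [hF, mul_assoc])
  rw [← Finset.mul_sum] at this
  exact (mul_left_eq_self₀.1 this).resolve_left hh

end curve

variable {k : Type} [Field k] [IsAlgClosed k] (ω : kˣ →* ℂˣ) (p : ℕ) [Fact p.Prime] [CharP k p]

lemma eas_abs (X : Obj k) {x y : X.A.R} {f d : ℕ} (hd : d + 2 = p ^ f) (d0 : 0 < d) (B : Bas k x y (d + 2))
    (r : y ^ p ^ f - y = x ^ (d + 1)) [IsDomain X.A.R] (z a : X.G → k) (ax : ∀ g, X.act g x = z g • x)
    (ay : ∀ g, X.act g y = y + algebraMap k _ (a g)) (tp : ∀ S : Subalgebra k X.A.R, x ∈ S → y ∈ S → S = ⊤)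
    (h0 : ∀ g, z g = 1 ∧ a g = 0 ↔ g = 1) {g₁ g₂ : X.G} (h1 : X.χ g₁ ≠ 1) (h2 : X.χ g₂ ≠ 1)
    (e1 : ∀ g, a (g₁ * g) = a g) (e2 : ∀ g, z (g₂ * g) = z g) :
    ∃ lam, IsFun X lam ∧ lam (q (grf (AlgHom.id k _))) ≠ 0 := by
  classical
  have dom := dom_tensor (k := k) X.A.R X.A.R
  have li : LinearIndependent k ![x, y, 1] := by
    have := B.li.comp ![(1, 0), (0, 1), (0, 0)] (fun s t => by fin_cases s <;> fin_cases t <;> simp)
    convert this using 1
    ext s
    fin_cases s <;> simp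
  have ne : ∀ s t, s ≠ t → ![x, y, 1] s ⊗ₜ[k] ![x, y, 1] t ≠ ![x, y, 1] t ⊗ₜ[k] ![x, y, 1] s := fun s t h e =>
    h (Prod.mk.inj ((li.tmul_of_isDomain li).injective (a₁ := (s, t)) (a₂ := (t, s)) e)).1
  have lin : ∀ g s, X.act g (![x, y, 1] s) ∈ span k (Set.range ![x, y, 1]) := fun g s => by
    have m := fun s => subset_span (R := k) (Set.mem_range_self (f := ![x, y, 1]) s)
    fin_cases s
    · exact (ax g).symm ▸ smul_mem _ _ (m 0)
    · exact (ay g).symm ▸ add_mem (m 1) (by rw [Algebra.algebraMap_eq_smul_one]; exact smul_mem _ _ (m 2))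
    · exact (map_one (X.act g)).symm ▸ m 2
  have rl : (y ⊗ₜ[k] (1 : X.A.R)) ^ p ^ f - y ⊗ₜ 1 = (x ⊗ₜ 1) ^ (d + 1) := by
    simpa [TensorProduct.sub_tmul] using congrArg (· ⊗ₜ[k] (1 : X.A.R)) r
  have rr : ((1 : X.A.R) ⊗ₜ[k] y) ^ p ^ f - 1 ⊗ₜ y = (1 ⊗ₜ x) ^ (d + 1) := by
    simpa [TensorProduct.tmul_sub] using congrArg ((1 : X.A.R) ⊗ₜ[k] ·) r
  have inv := invt_eas (k := k) (x := fun s => ![x, y, 1] s ⊗ₜ[k] (1 : X.A.R)) (y := fun s => 1 ⊗ₜ ![x, y, 1] s) p
    hd (by omega) rfl rfl rl rr fun s t h => by simpa [sub_eq_zero] using ne s t h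
  have co : Coord X fun _ : Unit => ![x, y, 1] := ⟨dom, fun _ => rfl, fun _ => li.ne_zero,
    tp _ (Algebra.subset_adjoin ⟨((), 0), rfl⟩) (Algebra.subset_adjoin ⟨((), 1), rfl⟩), fun g _ => lin g,
    fun _ => inv, fun _ => ⟨g₂, 1, h2, fun s => by
      have : z g₂ = 1 := by simpa [((h0 1).2 rfl).1] using e2 1
      fin_cases s
      exacts [⟨0, by simp [ax, this]⟩, ⟨a g₂, by simp [ay]⟩, ⟨0, by simp⟩], fun _ h => (h rfl).elim⟩⟩
  obtain ⟨lam, l1, l2⟩ := co.exists_fun
  refine ⟨lam, l1, ?_⟩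
  have r' : y ^ (d + 1 + 1) = y + x ^ (d + 1) := by rw [← r, ← hd]; ring
  have key : ∀ g, ∀ᶠ N in atTop, (hs (k := k) (fun _ : Unit => ![x, y, 1]) (grf (X.act g)) N : ℂ) =
      (1 + if a g = 0 then (d + 2 : ℂ) else 0) + (if z g = 1 then (d + 1 : ℂ) else 0) -
        if g = 1 then (d + 2 : ℂ) * (d + 1) else 0 := fun g => by
    by_cases hg : g = 1
    · have c : CharP (X.A.R ⊗[k] X.A.R) p := charP_of_injective_algebraMap (algebraMap k _).injective p
      have c' : CharP X.A.R p := charP_of_injective_algebraMap (algebraMap k _).injective p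
      have f0 : f ≠ 0 := by rintro rfl; simp at hd
      have := hs_diag (k := k) li.ne_zero rfl inv (a := -∑ i ∈ Finset.range (d + 1),
        (x ⊗ₜ[k] (1 : X.A.R)) ^ i * (1 ⊗ₜ x) ^ (d + 1 - 1 - i)) (b := (y ⊗ₜ[k] 1 - 1 ⊗ₜ y) ^ (d + 1) - 1)
        (sub_ne_zero.2 (ne 0 2 (by simp))) (by
          change (x ⊗ₜ 1 - 1 ⊗ₜ x) * _ + (y ⊗ₜ 1 - 1 ⊗ₜ y) * _ = 0
          rw [mul_neg, mul_comm, geom_sum₂_mul, mul_sub, ← pow_succ', add_assoc, hd, sub_pow_char_pow, ← rl, ← rr]
          ring) (a' := x ^ d) (b' := -1) (by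
          have : ((d + 2 : ℕ) : X.A.R) = 0 := by rw [hd, Nat.cast_pow, CharP.cast_eq_zero, zero_pow f0]
          simp only [map_neg, map_sum, map_mul, map_pow, Algebra.TensorProduct.lmul'_apply_tmul, mul_one, one_mul]
          rw [geom_sum₂_self]
          push_cast at this ⊢
          linear_combination (-x ^ d) * this) (by simp) (by simp)
      filter_upwards [this, eventually_ge_atTop (d + 2)] with N u v
      have w := cv_step B (N := 2 * N + 2) (by omega) (d - 1)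
      have e : (d : ℂ) = (d - 1 : ℕ) + 1 := by exact_mod_cast (Nat.sub_add_cancel d0).symm
      rw [hg, map_one, if_pos ((h0 1).2 rfl).1, if_pos ((h0 1).2 rfl).2, if_pos rfl,
        show (1 : X.A.R →ₐ[k] X.A.R) = AlgHom.id k _ from rfl, u]
      change ((_ - finrank k ↥(span k {x ^ d, -1, x * x ^ d + y * -1} * _) : ℤ) : ℂ) = _
      rw [cv_diag B (by omega) d0, (by omega : 2 * N + (d + 1) = 2 * N + 2 + (d - 1)), w]
      push_cast
      linear_combination (d + 2 : ℂ) * e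
    have e : (fun s => X.act g (![x, y, 1] s)) = ![z g • x, y + algebraMap k _ (a g), 1] := by
      ext s
      fin_cases s <;> simp [ax, ay]
    have := hs_grf (k := k) li.ne_zero inv (X.act g) (le_antisymm (span_le.2 (Set.range_subset_iff.2 (lin g)))
      (span_le.2 (Set.range_subset_iff.2 fun s => by
        have := mem_map_of_mem (f := (X.act g).toLinearMap) (lin g⁻¹ s)
        rwa [map_span, ← Set.range_comp, AlgHom.toLinearMap_apply, ← AlgHom.mul_apply, ← map_mul,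
          mul_inv_cancel, map_one] at this))) (by
        rw [e, cv_mnr, Ne, span_eq_bot]
        refine fun h => hg ((h0 g).1 ⟨?_, ?_⟩)
        · have := h _ (.inr (.inl rfl))
          exact smul_left_injective k (li.ne_zero 0) (by simpa [sub_eq_zero] using this)
        · simpa using h _ (.inr (.inr rfl)))
    filter_upwards [this, eventually_ge_atTop (d + 2)] with N u v
    rw [u, e, cv_grf B r' (li.ne_zero 0) _ _ (mt (h0 g).1 hg) (by omega), if_neg hg]
    push_cast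
    ring
  obtain ⟨N, u, v⟩ := ((l2 (grf (AlgHom.id k _))).and (eventually_all.2 key)).exists
  rw [u, hsum_grf]
  simp only [v, mul_sub, Finset.sum_sub_distrib]
  simp only [mul_add _ (1 + _ : ℂ), Finset.sum_add_distrib]
  rw [cv_sum _ _ g₁ h1 fun g => by rw [e1], cv_sum _ _ g₂ h2 fun g => by rw [e2]]
  simp only [mul_ite, mul_zero, Finset.sum_ite_eq', Finset.mem_univ, if_true, map_one]
  rw [zero_add, zero_sub, one_mul, neg_ne_zero]
  exact_mod_cast (by positivity : ((d + 2) * (d + 1) : ℕ) ≠ 0)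

theorem eas_fun (f : ℕ) [NeZero f] (d : ℕ) [NeZero d] (hd : d + 1 = p ^ f) (c : ℤ)
    (ψ : Multiplicative (Fq k p f) →* ℂ) (hc : chi ω d c ≠ 1) (hψ : ψ ≠ 1) :
    ∃ lam, IsFun (eas ω p f d c ψ) lam ∧ lam (q (grf (AlgHom.id k _))) ≠ 0 := by
  obtain ⟨ζ, hζ⟩ := DFunLike.ne_iff.1 hc
  obtain ⟨α, hα⟩ := DFunLike.ne_iff.1 hψ
  obtain ⟨d, rfl⟩ := Nat.exists_eq_add_one_of_ne_zero (NeZero.ne d)
  have d0 : 0 < d := Nat.pos_of_ne_zero (by
    rintro rfl
    exact hζ (by rw [(Subtype.ext (by simpa using (mem_rootsOfUnity _ _).1 ζ.2) : ζ = 1)]; simp))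
  have dom : IsDomain (eas ω p f (d + 1) c ψ).A.R := eas_dom d.succ_ne_zero (by omega)
  exact eas_abs p _ hd d0 (by rw [show d + 2 = p ^ f from hd]; exact eas_bas (by omega) (by omega))
    (E_rel ω p _ c f ψ) (fun g => (g.1.1 : k)) (fun g => (g.2.toAdd : k)) (E_act_x ω p _ c f ψ)
    (E_act_y ω p _ c f ψ) (fun S u v => E_top ω p _ c f ψ S (Fin.forall_fin_two.2 ⟨u, v⟩))
    (fun g => ⟨fun h => Prod.ext (Subtype.ext (Units.ext h.1)) (Subtype.ext h.2), by rintro rfl; exact ⟨rfl, rfl⟩⟩)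
    (g₁ := (ζ, 1)) (g₂ := (1, α)) (by simpa using hζ) (by simpa using hα) (fun g => by simp) fun g => by simp

end Pool.Agent.Lib.MP_40dc3c_ag.T
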