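import Pool.Agent.Lib.MP_40dc3c_ag.T.O4
import Pool.Agent.Lib.MP_40dc3c_ag.T.B1
import Pool.Agent.Lib.MP_40dc3c_ag.T.CL

/-! Outputs of the intersection functional. -/

namespace Pool.Agent.Lib.MP_40dc3c_ag.T

open scoped TensorProduct
open Function

open MvPolynomial

/-- a class that is not killed by an equivariant functional with parameters gives an injection. -/
theorem c1_of_fun {k : Type} [Field k] (Y : Obj k) (lam : K Y.A.R →ₗ[ℂ] ℂ)
    (h1 : ∀ g (J : Ideal Y.A.R), lam (q (J.map (Y.act g))) = Y.χ g * lam (q J))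
    (h2 : ∀ S : Alg k, ∃ Λ : KK Y.A S →ₗ[ℂ] K S.R,
      ∀ (I : Ideal Y.A.R) (J : Ideal S.R), Λ (q (ibox I J)) = lam (q I) • q J)
    (I : Ideal Y.A.R) (hI : lam (q I) ≠ 0) :
    ∃ w : K Y.A.R, (∀ S b, box _ S w b ∈ Y.Phi S) ∧ ∀ S b, box _ S w b = 0 → b = 0 := by
  refine ⟨(Fintype.card Y.G : ℂ)⁻¹ • ∑ g, Y.χ g⁻¹ • pull (Y.act g).toRingHom (Y.act_flat g) (q I),
    fun S b => ?_, fun S b hb => ?_⟩
  · have := Y.proj_mem S (box _ S (q I) b)
    rw [Y.proj_apply] at this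
    simp only [map_smul, map_sum, LinearMap.smul_apply, LinearMap.sum_apply, ← pullL_box]
    exact this
  · obtain ⟨Λ, hΛ⟩ := h2 S
    have e : (box Y.A S).compr₂ Λ = (LinearMap.lsmul ℂ (K S.R)) ∘ₗ lam :=
      ext_q fun P _ => ext_q fun Q _ => by
        rw [LinearMap.compr₂_apply, box_q]
        exact hΛ P Q
    have e' := fun w => LinearMap.congr_fun (LinearMap.congr_fun e w) b
    simp only [LinearMap.compr₂_apply, LinearMap.comp_apply, LinearMap.lsmul_apply] at e'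
    have h0 := congrArg Λ hb
    rw [e', map_zero, map_smul, map_sum,
      Finset.sum_congr rfl (g := fun _ => lam (q I)) fun g _ => by
        rw [map_smul, pull_q]
        exact (congrArg _ (h1 g I)).trans (by
          rw [smul_eq_mul, ← mul_assoc, ← map_mul, inv_mul_cancel, map_one, one_mul]),
      Finset.sum_const, Finset.card_univ, ← Nat.cast_smul_eq_nsmul ℂ, smul_smul,
      inv_mul_cancel₀ (Nat.cast_ne_zero.2 Fintype.card_ne_zero), one_smul] at h0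
    exact (smul_eq_zero.1 h0).resolve_left hI

variable {k : Type} [Field k] [IsAlgClosed k] (ω : kˣ →* ℂˣ) (p : ℕ) [Fact p.Prime] [CharP k p]

/-- the relative functional for the curve `y ^ Q - y = x ^ (Q - 1)`. -/
theorem c1_eas (hω : Injective ω) (f : ℕ) [NeZero f] (d : ℕ) [NeZero d] (hd : d + 1 = p ^ f) (c : ℤ)
    (hc : ¬(d : ℤ) ∣ c) (ψ ψ' : Multiplicative (Fq k p f) →* ℂ) (hψ : ψ ≠ 1)
    (hψ' : ∀ g, ψ' g = ψ g⁻¹) (hv : Van (eas ω p f d 0 ψ)) :
    ∃ w : K ((eas ω p f d c ψ).ten (eas ω p f d (-c) ψ')).A.R,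
      (∀ S b, box _ S w b ∈ ((eas ω p f d c ψ).ten (eas ω p f d (-c) ψ')).Phi S) ∧
      ∀ S b, box _ S w b = 0 → b = 0 := by
  have hp : ¬p ∣ d := fun h => (Fact.out : p.Prime).not_dvd_one
    ((Nat.dvd_add_right h).1 (hd ▸ dvd_pow_self p (NeZero.ne f)))
  obtain ⟨ζ, hζ⟩ := exists_chi_ne_one ω p hω d hp hc
  obtain ⟨lam, hl, h0⟩ := eas_fun ω p f d hd c ψ (fun h => hζ (by rw [h]; rfl)) hψ
  refine c1_of_fun ((eas ω p f d c ψ).ten (eas ω p f d (-c) ψ')) lam (fun g J => ?_) hl.ext _ h0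
  refine (hl.equi g.1 g.2 J).trans ?_
  congr 2
  change chi ω d c g.2.1⁻¹ * ψ g.2.2⁻¹ = chi ω d (-c) g.2.1 * ψ' g.2.2
  rw [hψ', chi_apply, chi_apply]
  simp

end Pool.Agent.Lib.MP_40dc3c_ag.T
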