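import Pool.Agent.Lib.MP_40dc3c_ag.T.B2
import Pool.Agent.Lib.MP_40dc3c_ag.T.B3
import Pool.Agent.Lib.MP_40dc3c_ag.T.B4
import Pool.Agent.Lib.MP_40dc3c_ag.T.B5b
import Pool.Agent.Lib.MP_40dc3c_ag.T.C1

/-! The order on classes; the Gauss objects are units and satisfy the standard relations. -/

namespace Pool.Agent.Lib.MP_40dc3c_ag.T

open scoped TensorProduct
open Function

variable {k : Type} [Field k]

/-- the order on classes. -/
def Cls.Ge (x y : Cls k) : Prop := ∃ X Y : Obj k, X.cls = x ∧ Y.cls = y ∧ T.Ge X Y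

theorem cge_iff {X Y : Obj k} : Cls.Ge X.cls Y.cls ↔ Ge X Y :=
  ⟨fun ⟨_, _, h1, h2, h⟩ => ((cls_eq.1 h1).2.trans h).trans (cls_eq.1 h2).1,
    fun h => ⟨X, Y, rfl, rfl, h⟩⟩

theorem Cls.exists_obj (x : Cls k) : ∃ X : Obj k, X.cls = x := by
  obtain ⟨X⟩ := x
  exact ⟨X, rfl⟩

theorem Cls.Ge.refl (x : Cls k) : Cls.Ge x x := by
  obtain ⟨X, rfl⟩ := x.exists_obj
  exact cge_iff.2 (T.Ge.refl X)

theorem Cls.Ge.trans {x y z : Cls k} (h : Cls.Ge x y) (h' : Cls.Ge y z) : Cls.Ge x z := by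
  obtain ⟨X, Y, rfl, rfl, h⟩ := h
  obtain ⟨Z, rfl⟩ := z.exists_obj
  exact cge_iff.2 (h.trans (cge_iff.1 h'))

theorem Cls.Ge.mul {x y x' y' : Cls k} (h : Cls.Ge x y) (h' : Cls.Ge x' y') :
    Cls.Ge (x * x') (y * y') := by
  obtain ⟨X, Y, rfl, rfl, h⟩ := h
  obtain ⟨X', Y', rfl, rfl, h'⟩ := h'
  exact ⟨X.ten X', Y.ten Y', rfl, rfl, h.ten h'⟩

theorem Cls.Ge.prod {ι : Type} (s : Finset ι) {x y : ι → Cls k}
    (h : ∀ i ∈ s, Cls.Ge (x i) (y i)) : Cls.Ge (∏ i ∈ s, x i) (∏ i ∈ s, y i) := by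
  classical
  induction s using Finset.induction_on with
  | empty => simpa using Cls.Ge.refl 1
  | insert a s ha ih =>
    rw [Finset.prod_insert ha, Finset.prod_insert ha]
    exact (h a (Finset.mem_insert_self _ _)).mul (ih fun i hi => h i (Finset.mem_insert_of_mem hi))

theorem Cls.Ge.eq {x y : Cls k} (h : Cls.Ge x y) (hx : IsUnit x) (hy : IsUnit y) : x = y := by
  obtain ⟨X, Y, rfl, rfl, h⟩ := h
  exact cls_eq_of_ge hx hy h

/-- a split unit is trivial. -/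
theorem Split.cls_eq_one {X : Obj k} (h : Split X) (hX : IsUnit X.cls) : X.cls = 1 := by
  obtain ⟨y, hy⟩ := hX.exists_right_inv
  obtain ⟨Y, rfl⟩ := y.exists_obj
  exact cls_eq_of_ge hX isUnit_one (h.ge_one (C' := Y) (cls_eq.1 hy).1)

variable (ω : kˣ →* ℂˣ) (p : ℕ) [Fact p.Prime] [CharP k p]

theorem cls_U_cast {d d' : ℕ} [NeZero d] [NeZero d'] {c c' : ℤ} (h : d = d') (h' : c = c') :
    (U ω p d c).cls = (U ω p d' c').cls := by
  subst h h'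
  rfl

variable [IsAlgClosed k]

theorem cls_U_level (d e : ℕ) [NeZero d] [NeZero e] (he : ¬p ∣ e) (c : ℤ) :
    (U ω p (d * e) (c * e)).cls = (U ω p d c).cls :=
  cls_eq.2 ⟨ge_U_level ω p d e c, ge_U_level' ω p d e he c⟩

theorem cls_U_mul_neg (hω : Injective ω) (d : ℕ) [NeZero d] (hd : ¬p ∣ d) {c : ℤ}
    (hc : ¬(d : ℤ) ∣ c) : (U ω p d c).cls * (U ω p d (-c)).cls = 1 := by
  have hp : p.Prime := Fact.out
  have hco : p.Coprime d := (Nat.Prime.coprime_iff_not_dvd hp).2 hd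
  have f0 : NeZero d.totient := ⟨(Nat.totient_pos.2 (NeZero.pos d)).ne'⟩
  have h1 : 1 < p ^ d.totient := Nat.one_lt_pow (NeZero.ne _) hp.one_lt
  obtain ⟨e, he⟩ : d ∣ p ^ d.totient - 1 :=
    (Nat.modEq_iff_dvd' h1.le).1 (Nat.ModEq.pow_totient hco).symm
  have hD : d * e + 1 = p ^ d.totient := by omega
  have e0 : NeZero e := ⟨by rintro rfl; omega⟩
  have hpD : ¬p ∣ d * e := fun h => hp.one_lt.ne' (Nat.dvd_one.1 ((Nat.dvd_add_right h).1
    (hD ▸ dvd_pow_self p (NeZero.ne d.totient))))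
  have hpe : ¬p ∣ e := fun h => hpD (h.mul_left d)
  have hce : ¬((d * e : ℕ) : ℤ) ∣ c * e := fun h => hc (by
    rw [Nat.cast_mul] at h
    exact (mul_dvd_mul_iff_right (Int.natCast_ne_zero.2 (NeZero.ne e))).1 h)
  obtain ⟨ψ, hψ, H⟩ := exists_psi ω p d.totient
  have hv : Van (eas ω p d.totient (d * e) 0 ψ) :=
    (van_U_zero ω p (d * e) hpD).of_ge (cls_eq.1 (H (d * e) 0).1).1
  obtain ⟨w, w1, w2⟩ := c1_eas ω p hω d.totient (d * e) hD (c * e) hce ψ (ψ.comp invMonoidHom) hψ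
    (fun _ => rfl) hv
  have E : (U ω p d c).cls * (U ω p d (-c)).cls = ((eas ω p d.totient (d * e) (c * e) ψ).ten
      (eas ω p d.totient (d * e) (-(c * e)) (ψ.comp invMonoidHom))).cls := by
    rw [cls_ten, ← (H (d * e) (c * e)).1, ← (H (d * e) (-(c * e))).2 _ fun _ => rfl,
      cls_U_level ω p d e hpe, ← neg_mul, cls_U_level ω p d e hpe]
  have G : Cls.Ge (Obj.one k).cls ((U ω p d c).cls * (U ω p d (-c)).cls) :=
    cge_iff.2 (ge_refl ω p d hd c)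
  rw [E] at G ⊢
  exact cls_eq.2 ⟨ge_one_of_inj (cge_iff.1 G) w w1 w2, cge_iff.1 G⟩

theorem isUnit_U (hω : Injective ω) (d : ℕ) [NeZero d] (hd : ¬p ∣ d) {c : ℤ}
    (hc : ¬(d : ℤ) ∣ c) : IsUnit (U ω p d c).cls :=
  IsUnit.of_mul_eq_one _ (cls_U_mul_neg ω p hω d hd hc)

theorem cls_U_frob (hω : Injective ω) (d : ℕ) [NeZero d] (hd : ¬p ∣ d) {c : ℤ}
    (hc : ¬(d : ℤ) ∣ c) : (U ω p d (p * c)).cls = (U ω p d c).cls := by
  have hco : p.Coprime d := (Nat.Prime.coprime_iff_not_dvd Fact.out).2 hd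
  exact cls_eq_of_ge (isUnit_U ω p hω d hd fun h =>
    hc ((Nat.isCoprime_iff_coprime.2 hco.symm).dvd_of_dvd_mul_left h)) (isUnit_U ω p hω d hd hc)
    (ge_U_frob ω p d c)

theorem prod_U_odd (hω : Injective ω) (l : ℕ) [NeZero l] (hl : Odd l) (hlp : ¬p ∣ l) :
    ∏ i ∈ Finset.Ico 1 l, (U ω p l i).cls = 1 := by
  refine Finset.prod_involution (fun i _ => l - i) (fun i hi => ?_) (fun i hi _ => ?_)
    (fun i hi => ?_) fun i hi => ?_
  · have hi' := Finset.mem_Ico.1 hi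
    rw [cls_U_congr ω p l (c := ((l - i : ℕ) : ℤ)) (c' := -(i : ℤ))
      ⟨1, by rw [Nat.cast_sub hi'.2.le]; ring⟩]
    exact cls_U_mul_neg ω p hω l hlp fun h => by
      have := Nat.le_of_dvd (by omega) (Int.natCast_dvd_natCast.1 h)
      omega
  · have hi' := Finset.mem_Ico.1 hi
    obtain ⟨j, hj⟩ := hl
    omega
  · rw [Finset.mem_Ico] at hi ⊢
    omega
  · rw [Finset.mem_Ico] at hi
    omega

theorem cls_U_mult (hω : Injective ω) (l : ℕ) [NeZero l] (hl : l.Prime) (hlp : l ≠ p) (d : ℕ)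
    [NeZero d] (hd : ¬p ∣ d) {c : ℤ} (hc : ¬(d : ℤ) ∣ c) :
    ∏ i ∈ Finset.range l, (U ω p (d * l) (c + i * d)).cls =
      (U ω p d c).cls * ∏ i ∈ Finset.Ico 1 l, (U ω p l i).cls := by
  have hp : p.Prime := Fact.out
  have hpl : ¬p ∣ l := fun h => hlp ((Nat.prime_dvd_prime_iff_eq hp hl).1 h).symm
  have hu : IsUnit (∏ i ∈ Finset.range l, (U ω p (d * l) (c + i * d)).cls) :=
    IsUnit.prod_iff.2 fun i _ => isUnit_U ω p hω _ (fun h => (hp.dvd_mul.1 h).elim hd hpl) fun h =>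
      hc ((dvd_add_left (dvd_mul_left _ _)).1
        ((Int.natCast_dvd_natCast.2 (dvd_mul_right d l)).trans h))
  have key : ∀ (n : ℕ) (hn : l = n + 1) (Q : MvPolynomial (Fin n) k),
      MvPolynomial.aeval (fun i : Fin n => MvPolynomial.esymm (Fin (n + 1)) k (i + 1)) Q +
        (-1) ^ n * (n + 1) * MvPolynomial.esymm (Fin (n + 1)) k (n + 1) =
          MvPolynomial.psum (Fin (n + 1)) k (n + 1) →
      Cls.Ge ((U ω p d c).cls * ((Obj.triv ⟨MvPolynomial (Fin n) k⟩).as p Q fun _ => rfl).cls)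
        (∏ i ∈ Finset.range l, (U ω p (d * l) (c + i * d)).cls) := by
    intro n hn Q hQ
    subst hn
    have := cge_iff.2 (ge_mult ω p hω n hpl d hd c hc Q hQ)
    rwa [cls_gau, cls_ten, Fin.prod_univ_eq_prod_range
      (fun i : ℕ => (U ω p (d * (n + 1)) (c + i * d)).cls) (n + 1)] at this
  rcases hl.eq_two_or_odd' with rfl | ho
  · obtain ⟨h1, h2⟩ := newton_two ω p hω hpl
    have h3 : ∏ i ∈ Finset.Ico 1 2, (U ω p 2 (i : ℕ)).cls = (U ω p 2 1).cls := by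
      rw [show Finset.Ico 1 2 = {1} from rfl, Finset.prod_singleton, Nat.cast_one]
    rw [h3]
    exact ((((Cls.Ge.refl _).mul (cge_iff.2 h2)).trans (key 1 rfl _ h1)).eq
      ((isUnit_U ω p hω d hd hc).mul (isUnit_U ω p hω 2 hpl (by decide))) hu).symm
  · obtain ⟨n, hn⟩ : ∃ n, l = n + 1 := ⟨l - 1, by have := hl.pos; omega⟩
    obtain ⟨Q, h1, h2⟩ := exists_newton (k := k) p n (by
      obtain ⟨j, hj⟩ := ho
      exact ⟨j, by omega⟩) (hn ▸ hpl)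
    rw [prod_U_odd ω p hω l ho hpl]
    exact ((((Cls.Ge.refl _).mul (cge_iff.2 h2)).trans (key n hn _ h1)).eq
      ((isUnit_U ω p hω d hd hc).mul isUnit_one) hu).symm

theorem cls_U_ss (hω : Injective ω) (v : ℕ) (hv : ¬p ∣ p ^ v + 1) {c c' : ℤ}
    (hc : ¬((p ^ v + 1 : ℕ) : ℤ) ∣ c) (hc' : ¬((p ^ v + 1 : ℕ) : ℤ) ∣ c') :
    (U ω p (p ^ v + 1) c).cls = (U ω p (p ^ v + 1) c').cls := by
  have u := isUnit_U ω p hω _ hv (c := -c') fun h => hc' (dvd_neg.1 h)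
  refine u.mul_right_cancel ?_
  rw [cls_U_mul_neg ω p hω _ hv hc']
  exact (split_ss ω p v hv c (-c')).cls_eq_one ((isUnit_U ω p hω _ hv hc).mul u)

end Pool.Agent.Lib.MP_40dc3c_ag.T
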