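import Pool.Agent.Lib.MP_40dc3c_ag.T.B2
import Pool.Agent.Lib.MP_40dc3c_ag.T.FDefs
import Pool.Agent.Lib.MP_40dc3c_ag.T.B7a

/-! Products of Fermat curves. -/

namespace Pool.Agent.Lib.MP_40dc3c_ag.T

open scoped TensorProduct
open Function

open MvPolynomial

set_option linter.unusedSectionVars false

variable {k : Type} [Field k]

theorem b7_cls {X Y : Obj k} (E : Eqv X Y) (hb : Bijective E.φ) (hπ : Surjective E.π) :
    X.cls = Y.cls :=
  cls_eq.2 ⟨E.cover (RingHom.Finite.of_surjective _ hb.2) (RingHom.Flat.of_bijective hb) hπ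
    fun _ _ _ _ v v' e => ⟨Y.act 1, ⟨1, map_one _, rfl⟩, AlgHom.ext fun y => by
      obtain ⟨x, rfl⟩ := hb.2 y
      rw [map_one]
      exact (AlgHom.congr_fun e x).symm⟩, E.iso hb⟩

/-- the order on classes. -/
def b7_ge (a b : Cls k) : Prop := ∀ X Y : Obj k, X.cls = a → Y.cls = b → Ge X Y

theorem b7_ge_of {X Y : Obj k} (h : Ge X Y) : b7_ge X.cls Y.cls := fun _ _ e e' =>
  (cls_eq.1 e).1.trans (h.trans (cls_eq.1 e').2)

theorem b7_ge_mul {a b a' b' : Cls k} (h : b7_ge a b) (h' : b7_ge a' b') :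
    b7_ge (a * a') (b * b') := by
  obtain ⟨X⟩ := a
  obtain ⟨Y⟩ := b
  obtain ⟨X'⟩ := a'
  obtain ⟨Y'⟩ := b'
  exact b7_ge_of ((h X Y rfl rfl).ten (h' X' Y' rfl rfl))

theorem b7_ge_prod {ι : Type} (s : Finset ι) {a b : ι → Cls k} (h : ∀ i, b7_ge (a i) (b i)) :
    b7_ge (∏ i ∈ s, a i) (∏ i ∈ s, b i) :=
  Finset.prod_hom_rel (b7_ge_of (Ge.refl (Obj.one k))) fun i _ _ h' => b7_ge_mul (h i) h'

theorem b7_empty (ω : kˣ →* ℂˣ) (ι : Type) [Fintype ι] [IsEmpty ι] (m : ℕ) [NeZero m]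
    (c : ι × Fin 2 → ℤ) : (ferN ω ι m c).cls = 1 :=
  (b7_cls (X := Obj.one k) (Y := ferN ω ι m c)
    ⟨Algebra.ofId k _, 1, fun h a => (((ferN ω ι m c).act h).commutes a).symm,
      fun h => by simp [chis_apply]⟩
    ferA_empty fun _ => ⟨1, Subsingleton.elim _ _⟩).symm

/-- an equivariant map from a tensor product. -/
noncomputable def b7_eqv (X Y Z : Obj k) (φ : X.A.R ⊗[k] Y.A.R →ₐ[k] Z.A.R) (π : Z.G →* X.G × Y.G)
    (h : ∀ g a, φ (Algebra.TensorProduct.map (X.act (π g).1) (Y.act (π g).2) a) = Z.act g (φ a))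
    (h' : ∀ g, Z.χ g = X.χ (π g).1 * Y.χ (π g).2) : Eqv (X.ten Y) Z := ⟨φ, π, h, h'⟩

theorem b7_comm (ω : kˣ →* ℂˣ) {ι κ : Type} [Fintype ι] [Fintype κ] (e : Option κ ≃ ι) (m : ℕ)
    [NeZero m] (c : ι × Fin 2 → ℤ) (c' : Fin 2 → ℤ) (c'' : κ × Fin 2 → ℤ)
    (g : ι × Fin 2 → rootsOfUnity m k) (a : FB k m ⊗[k] FA k κ m) :
    ferFrom k m e (Algebra.TensorProduct.map ((fer ω m c').act fun s => g (e none, s))
      ((ferN ω κ m c'').act fun v => g (e (some v.1), v.2)) a) =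
      (ferN ω ι m c).act g (ferFrom k m e a) := by
  have h : ∀ x, ferFrom k m e (ferSplit k m e x) = x := (ferSplit k m e).symm_apply_apply
  obtain ⟨b, rfl⟩ := (ferSplit k m e).surjective a
  rw [← ferSplit_act ω e c c' c'' g b, h, h]

/-- the map of groups. -/
def b7_pi {ι κ G : Type} [Group G] (e : Option κ ≃ ι) :
    (ι × Fin 2 → G) →* (Fin 2 → G) × (κ × Fin 2 → G) where
  toFun g := (fun s => g (e none, s), fun v => g (e (some v.1), v.2))
  map_one' := rfl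
  map_mul' _ _ := rfl

theorem b7_pi_surj {ι κ G : Type} [Group G] (e : Option κ ≃ ι) :
    Surjective (b7_pi (G := G) e) := fun g => by
  refine ⟨fun v => (e.symm v.1).elim (g.1 v.2) fun j => g.2 (j, v.2), ?_⟩
  refine Prod.ext (funext fun s => ?_) (funext fun v => ?_)
  · change (e.symm (e none)).elim (g.1 s) _ = _
    rw [e.symm_apply_apply]
    rfl
  · change (e.symm (e (some v.1))).elim (g.1 v.2) (fun j => g.2 (j, v.2)) = _
    rw [e.symm_apply_apply]
    rfl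

theorem b7_chi (ω : kˣ →* ℂˣ) {ι κ : Type} [Fintype ι] [Fintype κ] (e : Option κ ≃ ι) (m : ℕ)
    (c : ι × Fin 2 → ℤ) (g : ι × Fin 2 → rootsOfUnity m k) :
    chis ω m c g = chis ω m (fun s => c (e none, s)) (fun s => g (e none, s)) *
      chis ω m (fun v : κ × Fin 2 => c (e (some v.1), v.2)) fun v => g (e (some v.1), v.2) := by
  simp only [chis_apply, Fintype.prod_prod_type]
  rw [← e.prod_comp, Fintype.prod_option]

theorem b7_split (ω : kˣ →* ℂˣ) {ι κ : Type} [Fintype ι] [Fintype κ] (e : Option κ ≃ ι) (m : ℕ)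
    [NeZero m] (c : ι × Fin 2 → ℤ) : (ferN ω ι m c).cls =
      (fer ω m fun s => c (e none, s)).cls * (ferN ω κ m fun v => c (e (some v.1), v.2)).cls :=
  (b7_cls (b7_eqv (fer ω m fun s => c (e none, s)) (ferN ω κ m fun v => c (e (some v.1), v.2))
    (ferN ω ι m c) (ferFrom k m e) (b7_pi e) (b7_comm ω e m c _ _) (b7_chi ω e m c))
    (ferSplit k m e).symm.bijective (b7_pi_surj e)).symm

variable [IsAlgClosed k] (ω : kˣ →* ℂˣ) (p : ℕ) [Fact p.Prime] [CharP k p]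

theorem cls_ferN (ι : Type) [Fintype ι] (m : ℕ) [NeZero m] (c : ι × Fin 2 → ℤ) :
    (ferN ω ι m c).cls = ∏ i, (fer ω m fun s => c (i, s)).cls := by
  classical
  induction hn : Fintype.card ι generalizing ι with
  | zero =>
    have := Fintype.card_eq_zero_iff.1 hn
    rw [b7_empty, Fintype.prod_empty]
  | succ n ih =>
    obtain ⟨i⟩ : Nonempty ι := Fintype.card_pos_iff.1 (by omega)
    have h := Fintype.card_congr (Equiv.optionSubtypeNe i)
    rw [Fintype.card_option] at h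
    rw [b7_split ω (Equiv.optionSubtypeNe i), ih _ _ (by omega),
      ← (Equiv.optionSubtypeNe i).prod_comp, Fintype.prod_option]

/-- `c (i, 0) + c (i, 1) + e i` is divisible by `m`. -/
theorem one_ge_ferN (hω : Injective ω) (ι : Type) [Fintype ι] (m : ℕ) [NeZero m] (hm : ¬p ∣ m)
    (c : ι × Fin 2 → ℤ) (e : ι → ℤ) (he : ∀ i, ¬(m : ℤ) ∣ e i)
    (hs : ∀ i, (U ω p m (c (i, 0) + c (i, 1))).cls * (U ω p m (e i)).cls = 1)
    (h : (∏ v, (U ω p m (c v)).cls) * ∏ i, (U ω p m (e i)).cls = 1)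
    (hd : ∀ i, (m : ℤ) ∣ c (i, 0) + c (i, 1) + e i) : Ge (Obj.one k) (ferN ω ι m c) := by
  have key : ∀ i, b7_ge
      ((U ω p m (c (i, 0))).cls * (U ω p m (c (i, 1))).cls * (U ω p m (e i)).cls)
      (fer ω m fun s => c (i, s)).cls := fun i => by
    have h1 := b7_ge_mul (b7_ge_of (ge_jac ω p hω m hm (fun s => c (i, s)) fun h' =>
      he i ((dvd_add_right h').1 (hd i)))) (b7_ge_of (Ge.refl (U ω p m (e i))))
    rwa [cls_ten, cls_ten, mul_right_comm (U ω p m (c (i, 0) + c (i, 1))).cls, hs, one_mul] at h1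
  refine b7_ge_prod Finset.univ key _ _ ?_ (cls_ferN ω ι m c)
  rw [cls_one, ← h, Finset.prod_mul_distrib, Fintype.prod_prod_type]
  simp only [Fin.prod_univ_two]

end Pool.Agent.Lib.MP_40dc3c_ag.T
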