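import Pool.Agent.Lib.MP_40dc3c_ag.T.CF

/-! Hilbert functions of lattices are polynomials in large degree. -/

namespace Pool.Agent.Lib.MP_40dc3c_ag.T

open scoped TensorProduct nonZeroDivisors
open Function Filter Submodule Module

variable {k B M ι : Type} [Field k] [CommRing B] [Algebra k B] [AddCommGroup M] [Module B M]
  [Module k M] [IsScalarTower k B M]

/-- functions that agree with a polynomial in large degree. -/
def EvP (h : ℕ → ℚ) : Prop := ∃ P : Polynomial ℚ, ∀ᶠ d : ℕ in atTop, h d = P.eval (d : ℚ)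

theorem EvP.add {f g : ℕ → ℚ} (hf : EvP f) (hg : EvP g) : EvP fun d => f d + g d := by
  obtain ⟨P, hP⟩ := hf
  obtain ⟨Q, hQ⟩ := hg
  refine ⟨P + Q, ?_⟩
  filter_upwards [hP, hQ] with d h1 h2
  rw [h1, h2, Polynomial.eval_add]

theorem EvP.const_mul {f : ℕ → ℚ} (hf : EvP f) (c : ℚ) : EvP fun d => c * f d := by
  obtain ⟨P, hP⟩ := hf
  refine ⟨Polynomial.C c * P, ?_⟩
  filter_upwards [hP] with d h1
  rw [h1, Polynomial.eval_mul, Polynomial.eval_C]

theorem EvP.sub {f g : ℕ → ℚ} (hf : EvP f) (hg : EvP g) : EvP fun d => f d - g d := by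
  simpa only [neg_one_mul, sub_eq_add_neg] using hf.add (hg.const_mul (-1))

theorem EvP.sum {α : Type} (s : Finset α) {f : α → ℕ → ℚ} (h : ∀ a ∈ s, EvP (f a)) :
    EvP fun d => ∑ a ∈ s, f a d := by
  classical
  induction s using Finset.induction_on with
  | empty => exact ⟨0, Eventually.of_forall fun d => by simp⟩
  | insert a s ha ih =>
    simp only [Finset.sum_insert ha]
    exact (h a (Finset.mem_insert_self _ _)).add
      (ih fun b hb => h b (Finset.mem_insert_of_mem hb))

theorem EvP.succ {f : ℕ → ℚ} (hf : EvP f) : EvP fun d => f (d + 1) := by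
  obtain ⟨P, hP⟩ := hf
  refine ⟨P.comp (Polynomial.X + 1), ?_⟩
  filter_upwards [(tendsto_add_atTop_nat 1).eventually hP] with d h1
  rw [h1]
  simp [Polynomial.eval_comp]

theorem evp_prim (P : Polynomial ℚ) :
    ∃ Q : Polynomial ℚ, ∀ x, Q.eval (x + 1) - Q.eval x = P.eval x := by
  induction P using Polynomial.induction_on' with
  | add p q hp hq =>
    obtain ⟨a, ha⟩ := hp
    obtain ⟨b, hb⟩ := hq
    exact ⟨a + b, fun x => by
      simp only [Polynomial.eval_add]
      linear_combination ha x + hb x⟩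
  | monomial n c =>
    refine ⟨Polynomial.C (c / (n + 1)) * Polynomial.bernoulli (n + 1), fun x => ?_⟩
    have hn : (n + 1 : ℚ) ≠ 0 := by positivity
    simp only [Polynomial.eval_mul, Polynomial.eval_C, Polynomial.eval_monomial]
    rw [add_comm x 1, Polynomial.bernoulli_eval_one_add]
    push_cast
    field_simp
    ring

theorem EvP.of_diff {f : ℕ → ℚ} (h : EvP fun d => f (d + 1) - f d) : EvP f := by
  obtain ⟨P, hP⟩ := h
  obtain ⟨Q, hQ⟩ := evp_prim P
  obtain ⟨a, ha⟩ := eventually_atTop.1 hP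
  refine ⟨Q + Polynomial.C (f a - Q.eval (a : ℚ)), eventually_atTop.2 ⟨a, fun d hd => ?_⟩⟩
  rw [Polynomial.eval_add, Polynomial.eval_C]
  induction hd with
  | refl => ring
  | step hd ih =>
    push_cast
    linear_combination ih + ha _ hd - hQ _

theorem pair_poly {U : Submodule k B} (hU : U.FG) {N : Submodule k M} (hN : N.FG) (l : List B)
    (hl : ∀ u ∈ l, u ∈ U) (Z : Submodule k B) (hZ : U ≤ span k {u | u ∈ l} ⊔ Z)
    (F G : ℕ → Submodule k M) (h1 : ∀ d, F d ≤ U ^ d • N) (h2 : ∀ d, U • F d ≤ F (d + 1))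
    (h3 : ∀ d, U • G d ≤ G (d + 1)) (h4 : ∀ d, G d ≤ F d) (h5 : ∀ d, Z • F d ≤ G (d + 1)) :
    EvP fun d => (finrank k (F d) : ℚ) - finrank k (G d) := by
  induction l generalizing Z F G with
  | nil =>
    obtain ⟨a, ha⟩ := stab hU hN F h1 h2
    refine ⟨0, eventually_atTop.2 ⟨a + 1, fun d hd => ?_⟩⟩
    obtain ⟨j, rfl⟩ := Nat.exists_eq_add_of_le hd
    have hz : U ≤ Z := by simpa using hZ
    have e : F (a + 1 + j) = G (a + 1 + j) := by
      refine le_antisymm ?_ (h4 _)
      rw [add_right_comm, add_assoc, ha, ← smul_pow_smul, ← ha]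
      exact (smul_mono hz le_rfl).trans (h5 _)
    beta_reduce
    rw [e, sub_self, Polynomial.eval_zero]
  | cons u l ih =>
    have hu : u ∈ U := hl u List.mem_cons_self
    have hl' : ∀ v ∈ l, v ∈ U := fun v hv => hl v (List.mem_cons_of_mem _ hv)
    have hZ' : U ≤ span k {v | v ∈ l} ⊔ (Z ⊔ span k {u}) := by
      refine hZ.trans (sup_le (span_le.2 fun v hv => ?_) (le_sup_left.trans le_sup_right))
      rcases List.mem_cons.1 hv with rfl | hv
      · exact mem_sup_right (mem_sup_right (subset_span rfl))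
      · exact mem_sup_left (subset_span hv)
    let μ : M →ₗ[k] M := Algebra.lsmul k k M u
    have hμ : ∀ x, μ x = u • x := fun _ => rfl
    have hsp : ∀ W : Submodule k M, span k {u} • W ≤ W.map μ := fun W =>
      smul_le.2 fun r hr x hx => by
        obtain ⟨c, rfl⟩ := mem_span_singleton.1 hr
        exact ⟨c • x, W.smul_mem c hx, by rw [map_smul, hμ, smul_assoc]⟩
    let G' : ℕ → Submodule k M := fun d => Nat.casesOn d (G 0) fun e => G (e + 1) ⊔ (F e).map μ
    let K : ℕ → Submodule k M := fun d => F d ⊓ LinearMap.ker ((G (d + 1)).mkQ ∘ₗ μ)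
    have hK : ∀ d x, x ∈ K d ↔ x ∈ F d ∧ u • x ∈ G (d + 1) := fun d x => by
      simp only [K, mem_inf, LinearMap.mem_ker, LinearMap.comp_apply, mkQ_apply,
        Quotient.mk_eq_zero, hμ]
    have hG' : ∀ d, G' d ≤ F d := by
      rintro (_ | d)
      · exact h4 0
      · refine sup_le (h4 _) ?_
        rintro _ ⟨x, hx, rfl⟩
        exact h2 d (smul_mem_smul hu hx)
    have c1 := ih hl' _ hZ' F G' h1 h2 (by
      rintro (_ | d)
      · exact (h3 0).trans le_sup_left
      · change U • (G (d + 1) ⊔ (F d).map μ) ≤ G (d + 1 + 1) ⊔ (F (d + 1)).map μ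
        rw [smul_sup]
        refine sup_le_sup (h3 _) (smul_le.2 ?_)
        rintro r hr _ ⟨x, hx, rfl⟩
        exact ⟨r • x, h2 d (smul_mem_smul hr hx), by rw [hμ, hμ, smul_comm]⟩) hG'
      fun d => by
        rw [sup_smul]
        exact sup_le_sup (h5 d) (hsp _)
    have c2 := ih hl' _ hZ' K G (fun d => inf_le_left.trans (h1 d))
      (fun d => smul_le.2 fun r hr x hx => (hK _ _).2
        ⟨h2 d (smul_mem_smul hr ((hK _ _).1 hx).1), by
          rw [smul_comm]
          exact h3 _ (smul_mem_smul hr ((hK _ _).1 hx).2)⟩) h3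
      (fun d x hx => (hK _ _).2 ⟨h4 d hx, h3 d (smul_mem_smul hu hx)⟩)
      fun d => by
        rw [sup_smul]
        refine sup_le ((smul_mono le_rfl inf_le_left).trans (h5 d)) ((hsp _).trans ?_)
        rintro _ ⟨x, hx, rfl⟩
        exact ((hK _ _).1 hx).2
    refine EvP.of_diff ?_
    convert c1.succ.sub c2 using 2 with d
    have hF : ∀ d, (F d).FG := fun d => (fg_smul (hU.pow d) hN).of_le (h1 d)
    have e1 := cf_rank_null ((G (d + 1)).mkQ ∘ₗ μ) (hF d)
    have e2 := cf_rank_null (G (d + 1)).mkQ ((hF (d + 1)).of_le (hG' (d + 1)))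
    have e3 : (G' (d + 1)).map (G (d + 1)).mkQ = (F d).map ((G (d + 1)).mkQ ∘ₗ μ) := by
      change (G (d + 1) ⊔ (F d).map μ).map _ = _
      rw [Submodule.map_sup, mkQ_map_self, bot_sup_eq, Submodule.map_comp]
    have e4 : G' (d + 1) ⊓ LinearMap.ker (G (d + 1)).mkQ = G (d + 1) := by
      rw [ker_mkQ]
      exact inf_eq_right.2 le_sup_left
    rw [e3, e4] at e2
    have e5 : (finrank k (F d) : ℚ) = _ := congrArg Nat.cast e1
    have e6 : (finrank k (G' (d + 1)) : ℚ) = _ := congrArg Nat.cast e2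
    push_cast at e5 e6
    linear_combination e6 - e5

/-- an increasing family of lattices has a Hilbert polynomial. -/
theorem fam_poly {U : Submodule k B} (hU : U.FG) {N : Submodule k M} (hN : N.FG)
    (F : ℕ → Submodule k M) (h1 : ∀ d, F d ≤ U ^ d • N) (h2 : ∀ d, U • F d ≤ F (d + 1)) :
    EvP fun d => (finrank k (F d) : ℚ) := by
  obtain ⟨s, hs⟩ := id hU
  simpa using pair_poly hU hN s.toList
    (fun u hu => hs ▸ subset_span (Finset.mem_toList.1 hu)) ⊥ (by simp [hs]) F (fun _ => ⊥) h1 h2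
    (fun _ => by simp) (fun _ => bot_le) fun _ => by simp

theorem lat_poly {U : Submodule k B} (hU : U.FG) {N : Submodule k M} (hN : N.FG) :
    ∃ P : Polynomial ℚ, ∀ᶠ d : ℕ in atTop, (finrank k ↥(U ^ d • N) : ℚ) = P.eval (d : ℚ) :=
  fam_poly hU hN _ (fun _ => le_rfl) fun d => (smul_pow_smul U N d).le

theorem hn_poly {U D : Submodule k B} (hU : U.FG) (hD : D.FG) (J : Ideal B) :
    ∃ P : Polynomial ℚ, ∀ᶠ d : ℕ in atTop, (hn U D J d : ℚ) = P.eval (d : ℚ) := by
  have a := fam_poly hU hD (fun d => D * U ^ d) (fun d => (mul_comm _ _).le) fun d => by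
    rw [smul_eq_mul, mul_left_comm, pow_succ']
  have b := fam_poly hU hD (fun d => D * (J.restrictScalars k ⊓ U ^ d))
    (fun d => (mul_le_mul_right inf_le_right D).trans (mul_comm _ _).le) fun d => by
      rw [smul_eq_mul, mul_left_comm]
      refine mul_le_mul_right (mul_le.2 fun r hr x hx => mem_inf.2 ⟨?_, ?_⟩) D
      · exact J.mul_mem_left r (mem_inf.1 hx).1
      rw [pow_succ']
      exact mul_mem_mul hr (mem_inf.1 hx).2
  simpa only [EvP, hn, Int.cast_sub, Int.cast_natCast] using a.sub b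

theorem hh_poly [Fintype ι] (x y : ι → Fin 3 → B) (J : Ideal B) :
    ∃ P : Polynomial ℚ, ∀ᶠ d : ℕ in atTop, (hh k x y J d : ℚ) = P.eval (d : ℚ) := by
  have h := EvP.sum (Finset.univ : Finset (Finset ι)) fun T _ =>
    EvP.const_mul (hn_poly (k := k) (UU_fg (x := x) (y := y)) (DD_fg (x := x) (y := y) T) J)
      ((-1) ^ T.card)
  simpa only [EvP, hh, Int.cast_sum, Int.cast_mul, Int.cast_pow, Int.cast_neg, Int.cast_one] using h

end Pool.Agent.Lib.MP_40dc3c_ag.T
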