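import Pool.Agent.Lib.MP_40dc3c_ag.T.KA

/-! Devissage: prime filtrations, push forward and pull back of prime classes. -/

namespace Pool.Agent.Lib.MP_40dc3c_ag.T

open scoped TensorProduct
open Function

variable {R R' : Type} [CommRing R] [CommRing R']

theorem cl_eq_sum_prime [IsNoetherianRing R] (M : Type) [AddCommGroup M] [Module R M]
    [Module.Finite R M] : ∃ s : Multiset (Ideal R), (∀ P ∈ s, P.IsPrime ∧ Module.annihilator R M ≤ P) ∧
      s.prod ≤ Module.annihilator R M ∧ cl R M = (s.map q).sum :=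
  let ⟨s, a, b, c⟩ := dev (R := R) M
  ⟨s, b, c, a⟩

/-- the push forward of a prime class is a positive multiple of the prime below, up to larger primes. -/
theorem push_q_prime [IsNoetherianRing R] (f : R →+* R') (hf : f.Finite) (Q : Ideal R') [Q.IsPrime] :
    ∃ r : ℕ, 0 < r ∧ push f hf (q Q) - (r : ℂ) • q (Q.comap f) ∈
      Submodule.span ℂ {x | ∃ P : Ideal R, P.IsPrime ∧ Q.comap f < P ∧ x = q P} := by
  classical
  obtain ⟨s, a, b, c⟩ := push_dev f hf Q
  obtain ⟨P', d, e⟩ := (Ideal.comap_isPrime f Q).multiset_prod_le.1 c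
  refine ⟨s.count (Q.comap f), Multiset.count_pos.2 (e.antisymm (b _ d).2 ▸ d), ?_⟩
  rw [← s.filter_add_not (· = Q.comap f), Multiset.filter_eq', Multiset.map_add, Multiset.sum_add,
    Multiset.map_replicate, Multiset.sum_replicate] at a
  rw [a, Nat.cast_smul_eq_nsmul, add_sub_cancel_left]
  refine multiset_sum_mem _ (Multiset.forall_mem_map_iff.2 fun P hP => Submodule.subset_span ?_)
  obtain ⟨h1, h2⟩ := Multiset.mem_filter.1 hP
  exact ⟨P, (b P h1).1, (b P h1).2.lt_of_ne' h2, rfl⟩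

/-- Galois pull back. -/
theorem gp [IsNoetherianRing R] [IsNoetherianRing R'] (f : R →+* R') (hf : f.Finite) (hfl : f.Flat)
    (T : K R' →ₗ[ℂ] K R') (h1 : ∀ x, T (pull f hfl x) = pull f hfl x)
    (h2 : ∀ Q Q' : Ideal R', Q.IsPrime → Q'.IsPrime → Q.comap f = Q'.comap f → T (q Q) = T (q Q'))
    (y : K R') : ∃ x, pull f hfl x = T y :=
  (fun _ => range_le_pull f hfl T h1 h2 ⟨y, rfl⟩) hf

/-- orbit form of the surjectivity of push forward, for primes that contain `a`. -/
theorem push_orbit [IsNoetherianRing R] (f : R →+* R') (hf : f.Finite) (T : K R →ₗ[ℂ] K R) (a : R)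
    (h : ∀ P : Ideal R, P.IsPrime → a ∈ P → ∃ (e : R ≃+* R) (Q : Ideal R'), Q.IsPrime ∧
      Q.comap f = P.map e ∧ ∀ P' : Ideal R, P'.IsPrime → ∃ c : ℂ, c ≠ 0 ∧ T (q (P'.map e)) = c • T (q P'))
    (P : Ideal R) (hP : P.IsPrime) (ha : a ∈ P) : ∃ y, T (push f hf y) = T (q P) := by
  change T (q P) ∈ LinearMap.range (T ∘ₗ push f hf)
  induction P using WellFoundedGT.induction with
  | _ P ih =>
  obtain ⟨e, Q, hQ, e1, e2⟩ := h P hP ha
  obtain ⟨s, u, b, c⟩ := push_dev f hf Q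
  obtain ⟨P', d, l⟩ := (Ideal.comap_isPrime f Q).multiset_prod_le.1 c
  obtain ⟨z, z0, z1⟩ := e2 P hP
  rw [← Submodule.smul_mem_iff _ z0, ← z1, ← e1]
  refine mem_of_sum (s := s) (g := fun I => T (q I)) ⟨q Q, ?_⟩
    (fun I hI => (b I hI).2.eq_or_lt.imp (fun e => by rw [e]) fun l => ?_) ⟨P', d, by rw [l.antisymm (b _ d).2]⟩
  · rw [LinearMap.comp_apply, u, map_multiset_sum, Multiset.map_map]
    rfl
  have := (b I hI).1
  have m : (I.comap e).map e = I := Ideal.map_comap_of_surjective _ e.surjective I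
  have l' : P < I.comap e := lt_of_le_of_ne (Ideal.map_le_iff_le_comap.1 (e1 ▸ l.le)) fun h =>
    l.ne (by rw [e1, h, m])
  obtain ⟨w, -, w1⟩ := e2 (I.comap e) inferInstance
  rw [← m, w1]
  exact Submodule.smul_mem _ _ (ih _ l' inferInstance (l'.le ha))

end Pool.Agent.Lib.MP_40dc3c_ag.T
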