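import Pool.Agent.Lib.MP_40dc3c_ag.T.ODefs
import Pool.Agent.Lib.MP_40dc3c_ag.T.KA

/-! Localisation and homotopy. The homotopy statement `pull_poly_surj` is in `T.KA`. -/

namespace Pool.Agent.Lib.MP_40dc3c_ag.T

open scoped TensorProduct
open Function

set_option linter.style.haveILetI false

variable {R R' : Type} [CommRing R] [CommRing R']

theorem IsAway.isLoc [Algebra R R'] {f : R} (h : IsAway (algebraMap R R') f) :
    IsLocalization (Submonoid.powers f) R' := by
  refine (isLocalization_iff _ _).2 ⟨?_, fun b => ?_, fun {x y} e => ?_⟩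
  · rintro ⟨_, n, rfl⟩
    simpa using h.unit.pow n
  · obtain ⟨n, a, e⟩ := h.surj b
    exact ⟨⟨a, _, n, rfl⟩, by simpa using e⟩
  · obtain ⟨n, e'⟩ := h.ker (x - y) (by rw [map_sub, e, sub_self])
    exact ⟨⟨_, n, rfl⟩, by rwa [mul_sub, sub_eq_zero] at e'⟩

theorem isAway_of_isLoc [Algebra R R'] (f : R) [IsLocalization.Away f R'] :
    IsAway (algebraMap R R') f := by
  refine ⟨IsLocalization.Away.algebraMap_isUnit f, fun b => ?_, fun a e => ?_⟩
  · obtain ⟨⟨a, _, n, rfl⟩, e⟩ := IsLocalization.surj (Submonoid.powers f) b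
    exact ⟨n, a, by simpa using e⟩
  · obtain ⟨⟨_, n, rfl⟩, e'⟩ := (IsLocalization.map_eq_zero_iff (Submonoid.powers f) R' a).1 e
    exact ⟨n, e'⟩

theorem IsAway.flat {φ : R →+* R'} {f : R} (h : IsAway φ f) : φ.Flat := by
  letI := φ.toAlgebra
  haveI := IsAway.isLoc (R := R) (R' := R') h
  exact IsLocalization.flat R' (Submonoid.powers f)

theorem isAway_localization (f : R) : IsAway (algebraMap R (Localization.Away f)) f :=
  isAway_of_isLoc f

theorem IsAway.noeth [IsNoetherianRing R] {φ : R →+* R'} {f : R} (h : IsAway φ f) :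
    IsNoetherianRing R' := by
  letI := φ.toAlgebra
  haveI := IsAway.isLoc (R := R) (R' := R') h
  exact IsLocalization.isNoetherianRing (Submonoid.powers f) R' inferInstance

theorem IsAway.pull_surj [IsNoetherianRing R] {φ : R →+* R'} {f : R} (h : IsAway φ f) :
    Surjective (pull φ h.flat) := by
  letI := φ.toAlgebra
  haveI := IsAway.isLoc (R := R) (R' := R') h
  haveI := h.noeth
  exact pull_loc_surj (Submonoid.powers f) φ h.flat rfl

theorem IsAway.pull_ker [IsNoetherianRing R] {φ : R →+* R'} {f : R} (h : IsAway φ f) (x : K R)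
    (hx : pull φ h.flat x = 0) :
    x ∈ Submodule.span ℂ {y | ∃ P : Ideal R, P.IsPrime ∧ f ∈ P ∧ y = q P} := by
  letI := φ.toAlgebra
  haveI := IsAway.isLoc (R := R) (R' := R') h
  rw [← tor_powers]
  exact ker_pull_loc (Submonoid.powers f) φ h.flat rfl hx

theorem IsAway.mapL {k : Type} [Field k] {A B : Alg k} {φ : A.R →ₐ[k] B.R} {f : A.R}
    (h : IsAway φ.toRingHom f) (S : Alg k) : IsAway (mapL φ S) (f ⊗ₜ 1) := by
  refine ⟨?_, fun b => ?_, fun x hx => ?_⟩
  · exact h.unit.map (Algebra.TensorProduct.includeLeft : B.R →ₐ[k] B.R ⊗[k] S.R)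
  · induction b using TensorProduct.induction_on with
    | zero => exact ⟨0, 0, by simp⟩
    | tmul b s =>
      obtain ⟨n, a, e⟩ := h.surj b
      refine ⟨n, a ⊗ₜ s, ?_⟩
      rw [mapL_tmul, mapL_tmul, Algebra.TensorProduct.tmul_pow, Algebra.TensorProduct.tmul_mul_tmul,
        one_pow, mul_one]
      exact congrArg (· ⊗ₜ[k] s) e
    | add b c hb hc =>
      obtain ⟨n, a, e⟩ := hb
      obtain ⟨m, a', e'⟩ := hc
      refine ⟨n + m, a * (f ⊗ₜ 1) ^ m + a' * (f ⊗ₜ 1) ^ n, ?_⟩
      rw [map_add, map_mul, map_mul, map_pow, map_pow, ← e, ← e']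
      ring
  · have ex : Exact ((LinearMap.ker φ.toLinearMap).subtype.rTensor S.R)
        (φ.toLinearMap.rTensor S.R) :=
      Module.Flat.rTensor_exact S.R (LinearMap.exact_subtype_ker_map _)
    obtain ⟨y, rfl⟩ := (ex x).1 hx
    clear hx
    induction y using TensorProduct.induction_on with
    | zero => exact ⟨0, by simp⟩
    | tmul a s =>
      obtain ⟨n, e⟩ := h.ker a.1 a.2
      refine ⟨n, ?_⟩
      rw [LinearMap.rTensor_tmul, Algebra.TensorProduct.tmul_pow,
        Algebra.TensorProduct.tmul_mul_tmul, Submodule.subtype_apply, e, TensorProduct.zero_tmul]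
    | add b c hb hc =>
      obtain ⟨n, e⟩ := hb
      obtain ⟨m, e'⟩ := hc
      refine ⟨n + m, ?_⟩
      rw [map_add, mul_add, pow_add, mul_assoc _ _ (LinearMap.rTensor _ _ c), e', mul_zero, add_zero,
        mul_comm (_ ^ n), mul_assoc, e, mul_zero]

end Pool.Agent.Lib.MP_40dc3c_ag.T
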