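import Pool.Agent.Lib.MP_40dc3c_ag.T.A2

/-! Lifting equivariant maps to Artin-Schreier covers. -/

namespace Pool.Agent.Lib.MP_40dc3c_ag.T

open scoped TensorProduct
open Function Polynomial

set_option linter.style.haveILetI false

variable {k : Type} [Field k] (p : ℕ) [Fact p.Prime]

theorem add_pow_p {B : Type} [CommRing B] (hp : (p : B) = 0) (x y : B) :
    (x + y) ^ p = x ^ p + y ^ p := by
  rw [add_pow_prime_eq (Fact.out : p.Prime), hp, zero_mul, zero_mul, zero_mul, add_zero]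

theorem sub_pow_p {B : Type} [CommRing B] (hp : (p : B) = 0) (x y : B) :
    (x - y) ^ p = x ^ p - y ^ p := by
  rw [eq_sub_iff_add_eq, ← add_pow_p p hp, sub_add_cancel]

omit [Fact p.Prime] in
theorem cast_p (k : Type) [Field k] [CharP k p] (B : Type) [CommRing B] [Algebra k B] :
    (p : B) = 0 := by
  rw [← map_natCast (algebraMap k B), CharP.cast_eq_zero, map_zero]

omit [Fact p.Prime] in
theorem asP_eval₂ {A B : Type} [CommRing A] [CommRing B] (i : A →+* B) (f : A) (y : B) :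
    (asP p f).eval₂ i y = y ^ p - y - i f := by
  rw [asP, eval₂_sub, eval₂_sub, eval₂_pow, eval₂_X, eval₂_C]

theorem as_pushout {A B : Type} [CommRing A] [CommRing B] [Algebra A B] (hp : (p : B) = 0) (f : A)
    (f' h : B) (e : algebraMap A B f = f' + h ^ p - h)
    [Algebra (AdjoinRoot (asP p f)) (AdjoinRoot (asP p f'))]
    [IsScalarTower A (AdjoinRoot (asP p f)) (AdjoinRoot (asP p f'))]
    (hr : algebraMap (AdjoinRoot (asP p f)) (AdjoinRoot (asP p f')) (AdjoinRoot.root _) =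
      AdjoinRoot.root _ + AdjoinRoot.of _ h) :
    Algebra.IsPushout A B (AdjoinRoot (asP p f)) (AdjoinRoot (asP p f')) := by
  have hp' : (p : B ⊗[A] AdjoinRoot (asP p f)) = 0 := by
    rw [← map_natCast (algebraMap B _), hp, map_zero]
  let F : B ⊗[A] AdjoinRoot (asP p f) →ₐ[B] AdjoinRoot (asP p f') :=
    Algebra.TensorProduct.lift (Algebra.ofId B _) (IsScalarTower.toAlgHom A _ _)
      fun _ _ => Commute.all _ _
  let G : AdjoinRoot (asP p f') →ₐ[B] B ⊗[A] AdjoinRoot (asP p f) :=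
    AdjoinRoot.liftAlgHom _ (Algebra.ofId B _) (1 ⊗ₜ AdjoinRoot.root _ - h ⊗ₜ 1) (by
      have h1 : ((1 : B) ⊗ₜ[A] AdjoinRoot.root (asP p f)) ^ p - 1 ⊗ₜ AdjoinRoot.root (asP p f) =
          algebraMap A B f ⊗ₜ 1 := by
        rw [Algebra.TensorProduct.tmul_pow, one_pow, ← TensorProduct.tmul_sub, asP_root,
          ← AdjoinRoot.algebraMap_eq, Algebra.algebraMap_eq_smul_one,
          Algebra.algebraMap_eq_smul_one, TensorProduct.smul_tmul]
      have h2 : (h ⊗ₜ[A] (1 : AdjoinRoot (asP p f))) ^ p = (h ^ p) ⊗ₜ 1 := by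
        rw [Algebra.TensorProduct.tmul_pow, one_pow]
      rw [asP_eval₂, sub_pow_p p hp', h2]
      rw [e, TensorProduct.sub_tmul, TensorProduct.add_tmul] at h1
      change _ - f' ⊗ₜ 1 = 0
      linear_combination h1)
  have hFG : F.comp G = AlgHom.id _ _ := by
    refine AdjoinRoot.algHom_ext ?_
    simp [F, G, hr]
  have hGF : G.comp F = AlgHom.id _ _ := by
    refine Algebra.TensorProduct.ext (Subsingleton.elim _ _) (AdjoinRoot.algHom_ext ?_)
    simp [F, G, hr]
  exact ⟨IsBaseChange.of_equiv (AlgEquiv.ofAlgHom F G hFG hGF).toLinearEquiv fun x => by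
    simp [F]⟩

variable [CharP k p]

section alg

variable {A B : Type} [CommRing A] [CommRing B] [Algebra k A] [Algebra k B]

/-- the map of Artin-Schreier covers `y ↦ y + h`. -/
noncomputable def asMap (φ : A →ₐ[k] B) (f : A) (f' h : B) (e : φ f = f' + h ^ p - h) :
    AdjoinRoot (asP p f) →ₐ[k] AdjoinRoot (asP p f') :=
  AdjoinRoot.liftAlgHom _ ((AdjoinRoot.ofAlgHom k (asP p f')).comp φ)
    (AdjoinRoot.root _ + AdjoinRoot.of _ h) (by
      have h1 := asP_root p f'
      rw [asP_eval₂, add_pow_p p (cast_p p k _)]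
      change _ - AdjoinRoot.of _ (φ f) = 0
      rw [e, map_sub, map_add, map_pow]
      linear_combination h1)

variable (φ : A →ₐ[k] B) (f : A) (f' h : B) (e : φ f = f' + h ^ p - h)

@[simp] theorem asMap_of (a : A) :
    asMap p φ f f' h e (AdjoinRoot.of _ a) = AdjoinRoot.of _ (φ a) := by simp [asMap]

@[simp] theorem asMap_root :
    asMap p φ f f' h e (AdjoinRoot.root _) = AdjoinRoot.root _ + AdjoinRoot.of _ h := by
  simp [asMap]

theorem asMap_stable {P : ∀ {R S : Type} [CommRing R] [CommRing S], (R →+* S) → Prop}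
    (hP : RingHom.IsStableUnderBaseChange P) (hφ : P φ.toRingHom) :
    P (asMap p φ f f' h e).toRingHom := by
  letI := φ.toRingHom.toAlgebra
  letI := (asMap p φ f f' h e).toRingHom.toAlgebra
  haveI : IsScalarTower A (AdjoinRoot (asP p f)) (AdjoinRoot (asP p f')) :=
    IsScalarTower.of_algebraMap_eq fun a => (asMap_of p φ f f' h e a).symm
  haveI := as_pushout p (cast_p p k B) f f' h e (asMap_root p φ f f' h e)
  exact hP A B (AdjoinRoot (asP p f)) (AdjoinRoot (asP p f')) hφ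

theorem asMap_finite (hφ : φ.toRingHom.Finite) : (asMap p φ f f' h e).toRingHom.Finite :=
  asMap_stable p φ f f' h e RingHom.finite_isStableUnderBaseChange hφ

theorem asMap_flat (hφ : φ.toRingHom.Flat) : (asMap p φ f f' h e).toRingHom.Flat :=
  asMap_stable p φ f f' h e RingHom.Flat.isStableUnderBaseChange hφ

theorem asMap_bijective (hφ : Bijective φ) : Bijective (asMap p φ f f' h e) :=
  asMap_stable p φ f f' h e RingHom.Bijective.isStableUnderBaseChange hφ

theorem asMap_surjective (hφ : Surjective φ) : Surjective (asMap p φ f f' h e) :=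
  asMap_stable p φ f f' h e RingHom.surjective_isStableUnderBaseChange hφ

theorem asMap_isAway {u : A} (hφ : IsAway φ.toRingHom u) :
    IsAway (asMap p φ f f' h e).toRingHom (AdjoinRoot.of _ u) := by
  letI := φ.toRingHom.toAlgebra
  letI := (asMap p φ f f' h e).toRingHom.toAlgebra
  haveI : IsScalarTower A (AdjoinRoot (asP p f)) (AdjoinRoot (asP p f')) :=
    IsScalarTower.of_algebraMap_eq fun a => (asMap_of p φ f f' h e a).symm
  haveI := (as_pushout p (cast_p p k B) f f' h e (asMap_root p φ f f' h e)).symm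
  haveI := IsAway.isLoc (R := A) (R' := B) hφ
  have h1 := (Algebra.isLocalization_iff_isPushout (Submonoid.powers u) B
    (T := AdjoinRoot (asP p f)) (B := AdjoinRoot (asP p f'))).2 inferInstance
  rw [Algebra.algebraMapSubmonoid_powers] at h1
  exact isAway_of_isLoc (R' := AdjoinRoot (asP p f')) (algebraMap A (AdjoinRoot (asP p f)) u)

/-- a point of an Artin-Schreier cover. -/
noncomputable def asPt {Ω : Type} [CommRing Ω] [Algebra k Ω] (v : A →ₐ[k] Ω) (f : A) (y : Ω)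
    (hy : y ^ p - y = v f) : AdjoinRoot (asP p f) →ₐ[k] Ω :=
  AdjoinRoot.liftAlgHom _ v y (by rw [asP_eval₂, hy]; exact sub_self _)

omit [Fact p.Prime] [CharP k p] in
@[simp] theorem asPt_of {Ω : Type} [CommRing Ω] [Algebra k Ω] (v : A →ₐ[k] Ω) (f : A) (y : Ω)
    (hy : y ^ p - y = v f) (a : A) : asPt p v f y hy (AdjoinRoot.of _ a) = v a := by simp [asPt]

omit [Fact p.Prime] [CharP k p] in
@[simp] theorem asPt_root {Ω : Type} [CommRing Ω] [Algebra k Ω] (v : A →ₐ[k] Ω) (f : A) (y : Ω)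
    (hy : y ^ p - y = v f) : asPt p v f y hy (AdjoinRoot.root _) = y := by simp [asPt]

omit [Fact p.Prime] [CharP k p] in
theorem pt_root {Ω : Type} [CommRing Ω] [Algebra k Ω] (f : A)
    (u : AdjoinRoot (asP p f) →ₐ[k] Ω) :
    u (AdjoinRoot.root _) ^ p - u (AdjoinRoot.root _) = u (AdjoinRoot.of _ f) := by
  rw [← map_pow, ← map_sub, asP_root]

end alg

variable {X Y : Obj k} (E : Eqv X Y) (f : X.A.R) (hf : ∀ g, X.act g f = f) (f' : Y.A.R)
  (hf' : ∀ g, Y.act g f' = f') (h : Y.A.R) (hh : ∀ g, Y.act g h = h)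
  (e : E.φ f = f' + h ^ p - h)

/-- the lift of an equivariant map to the Artin-Schreier twists. -/
@[reducible] noncomputable def Eqv.asL : Eqv (X.as p f hf) (Y.as p f' hf') where
  φ := asMap p E.φ f f' h e
  π := E.π.prodMap (MonoidHom.id _)
  comm g a := by
    refine AlgHom.congr_fun (AdjoinRoot.algHom_ext' (f := (asMap p E.φ f f' h e).comp
      (asAct p X f hf (E.π.prodMap (MonoidHom.id _) g)))
      (g := (asAct p Y f' hf' g).comp (asMap p E.φ f f' h e)) ?_ ?_) a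
    · ext b
      simp [E.comm]
    · simp only [AlgHom.comp_apply, asAct_root, map_add, asMap_root, AlgHom.commutes, asAct_of, hh]
      rw [add_right_comm]
      rfl
  chi g := by simp [E.chi]

theorem Eqv.asL_pi_surjective (hπ : Surjective E.π) :
    Surjective (E.asL p f hf f' hf' h hh e).π := hπ.prodMap surjective_id

theorem Eqv.asL_pi_bijective (hπ : Bijective E.π) :
    Bijective (E.asL p f hf f' hf' h hh e).π := hπ.prodMap bijective_id

/-- a point of the cover lifts as soon as its image in the base does. -/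
theorem Eqv.asL_point {Ω : Type} [CommRing Ω] [Algebra k Ω] (u : AdjoinRoot (asP p f) →ₐ[k] Ω)
    (g : X.G) (v : Y.A.R →ₐ[k] Ω)
    (hv : v.comp E.φ = (u.comp (AdjoinRoot.ofAlgHom k (asP p f))).comp (X.act g)) :
    ∃ v' : AdjoinRoot (asP p f') →ₐ[k] Ω,
      v'.comp (asMap p E.φ f f' h e) = u.comp (asAct p X f hf (g, 1)) := by
  have h1 : ∀ a, v (E.φ a) = u (AdjoinRoot.of _ (X.act g a)) := fun a => AlgHom.congr_fun hv a
  have h2 := h1 f
  rw [hf, e, map_sub, map_add, map_pow, ← pt_root] at h2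
  refine ⟨asPt p v f' (u (AdjoinRoot.root _) - v h) ?_, AdjoinRoot.algHom_ext' ?_ ?_⟩
  · rw [sub_pow_p p (cast_p p k Ω)]
    linear_combination -h2
  · ext b
    simp [h1]
  · simp

theorem Eqv.asL_geoSurj (H : GeoSurj E.φ) : GeoSurj (E.asL p f hf f' hf' h hh e).φ := by
  intro Ω _ _ _ u
  obtain ⟨v, hv⟩ := H Ω (u.comp (AdjoinRoot.ofAlgHom k (asP p f)))
  obtain ⟨v', hv'⟩ := E.asL_point p f hf f' h e u 1 v (by rw [map_one, hv]; rfl)
  exact ⟨v', hv'.trans (by rw [Prod.mk_one_one, map_one]; rfl)⟩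

/-- the hypothesis of the push lemma lifts. -/
theorem Eqv.asL_push (H : ∀ (Ω : Type) [Field Ω] [IsAlgClosed Ω] [Algebra k Ω]
      (u : X.A.R →ₐ[k] Ω), ∃ (g : X.G) (v : Y.A.R →ₐ[k] Ω), v.comp E.φ = u.comp (X.act g))
    (Ω : Type) [Field Ω] [IsAlgClosed Ω] [Algebra k Ω] (u : (X.as p f hf).A.R →ₐ[k] Ω) :
    ∃ (g : (X.as p f hf).G) (v : (Y.as p f' hf').A.R →ₐ[k] Ω),
      v.comp (E.asL p f hf f' hf' h hh e).φ = u.comp ((X.as p f hf).act g) := by
  obtain ⟨g, v, hv⟩ := H Ω (u.comp (AdjoinRoot.ofAlgHom k (asP p f)))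
  exact ⟨(g, 1), E.asL_point p f hf f' h e u g v hv⟩

/-- the hypothesis of the lemma on closed parts lifts. -/
theorem Eqv.asL_closed (w : X.A.R) (H : ∀ (Ω : Type) [Field Ω] [IsAlgClosed Ω] [Algebra k Ω]
      (u : X.A.R →ₐ[k] Ω), u w = 0 →
      ∃ (g : X.G) (v : Y.A.R →ₐ[k] Ω), v.comp E.φ = u.comp (X.act g))
    (Ω : Type) [Field Ω] [IsAlgClosed Ω] [Algebra k Ω] (u : (X.as p f hf).A.R →ₐ[k] Ω)
    (hu : u (AdjoinRoot.of _ w) = 0) :
    ∃ (g : (X.as p f hf).G) (v : (Y.as p f' hf').A.R →ₐ[k] Ω),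
      v.comp (E.asL p f hf f' hf' h hh e).φ = u.comp ((X.as p f hf).act g) := by
  obtain ⟨g, v, hv⟩ := H Ω (u.comp (AdjoinRoot.ofAlgHom k (asP p f))) hu
  exact ⟨(g, 1), E.asL_point p f hf f' h e u g v hv⟩

/-- the hypothesis of the cover lemma lifts. -/
theorem Eqv.asL_geoTrans (H : GeoTrans E.φ {γ | ∃ g, E.π g = 1 ∧ γ = Y.act g}) :
    GeoTrans (E.asL p f hf f' hf' h hh e).φ
      {γ | ∃ g, (E.asL p f hf f' hf' h hh e).π g = 1 ∧ γ = (Y.as p f' hf').act g} := by
  intro Ω _ _ _ v v' hv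
  have h1 : ∀ a, v (asMap p E.φ f f' h e a) = v' (asMap p E.φ f f' h e a) :=
    fun a => AlgHom.congr_fun hv a
  obtain ⟨_, ⟨g, hg, rfl⟩, h2⟩ := H Ω (v.comp (AdjoinRoot.ofAlgHom k (asP p f')))
    (v'.comp (AdjoinRoot.ofAlgHom k (asP p f'))) (by
      ext a
      simpa using h1 (AdjoinRoot.of _ a))
  have h3 : ∀ b, v' (AdjoinRoot.of _ b) = v (AdjoinRoot.of _ (Y.act g b)) :=
    fun b => AlgHom.congr_fun h2 b
  refine ⟨_, ⟨(g, 1), Prod.ext hg rfl, rfl⟩, AdjoinRoot.algHom_ext' ?_ ?_⟩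
  · ext b
    simpa using h3 b
  · have h4 := h1 (AdjoinRoot.root _)
    rw [asMap_root, map_add, map_add, h3, hh] at h4
    simpa using h4.symm

/-- the hypothesis of the lemma on clean extensions lifts. -/
theorem Obj.as_clean (w : X.A.R)
    (H : ∀ P : Ideal X.A.R, P.IsPrime → w ∈ P → ∃ g, X.χ g ≠ 1 ∧ ∀ a, X.act g a - a ∈ P)
    (P : Ideal (X.as p f hf).A.R) (hP : P.IsPrime) (hw : AdjoinRoot.of _ w ∈ P) :
    ∃ g, (X.as p f hf).χ g ≠ 1 ∧ ∀ a, (X.as p f hf).act g a - a ∈ P := by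
  obtain ⟨g, hg, h1⟩ := H (P.comap (AdjoinRoot.of _)) (hP.comap _) hw
  refine ⟨(g, 1), by simpa using hg, fun a => ?_⟩
  rw [← Ideal.Quotient.eq]
  refine AlgHom.congr_fun (AdjoinRoot.algHom_ext' (f := (Ideal.Quotient.mkₐ k P).comp
    (asAct p X f hf (g, 1))) (g := Ideal.Quotient.mkₐ k P) ?_ ?_) a
  · ext b
    have := h1 b
    rw [Ideal.mem_comap, map_sub, ← Ideal.Quotient.eq] at this
    simpa using this
  · simp

end Pool.Agent.Lib.MP_40dc3c_ag.T
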