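import Pool.Agent.Lib.MP_40dc3c_ag.T.Sym

/-! The cover `x ↦ (e_j (x ^ d), μ ∏ x)` of the multiplication formula: finite, flat, and its
geometric fibres. -/

namespace Pool.Agent.Lib.MP_40dc3c_ag.T.Sym

open Function MvPolynomial
open scoped TensorProduct

theorem pexp_ff (R : Type) [CommRing R] (d : ℕ) (hd : d ≠ 0) :
    (Polynomial.expand R d).toRingHom.Finite ∧ (Polynomial.expand R d).toRingHom.Flat := by
  obtain ⟨P, hP⟩ : ∃ P : Polynomial (Polynomial R),
    Polynomial.X ^ d - Polynomial.C Polynomial.X = P := ⟨_, rfl⟩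
  have hm : P.Monic := hP ▸ Polynomial.monic_X_pow_sub_C _ hd
  have h0 : P.eval₂ (Polynomial.expand R d).toRingHom Polynomial.X = 0 := by
    rw [← hP]; simp
  let α := AdjoinRoot.lift _ _ h0
  let β : Polynomial R →+* AdjoinRoot P :=
    Polynomial.eval₂RingHom ((AdjoinRoot.of P).comp Polynomial.C) (AdjoinRoot.root P)
  have hr : AdjoinRoot.root P ^ d = AdjoinRoot.of P Polynomial.X := by
    have := (congrArg (AdjoinRoot.mk P) hP).trans AdjoinRoot.mk_self
    rw [map_sub, map_pow, AdjoinRoot.mk_X, AdjoinRoot.mk_C] at this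
    exact sub_eq_zero.1 this
  have h1 : β.comp α = RingHom.id _ := by
    refine AdjoinRoot.ringHom_ext (Polynomial.ringHom_ext (fun r => ?_) ?_) ?_ <;> simp [α, β, hr]
  have h2 : α.comp β = RingHom.id _ := by
    refine Polynomial.ringHom_ext (fun r => ?_) ?_ <;> simp [α, β]
  have hα : Bijective α := bijective_iff_has_inverse.2 ⟨β, fun x => RingHom.congr_fun h1 x,
    fun x => RingHom.congr_fun h2 x⟩
  rw [← AdjoinRoot.lift_comp_of h0]
  have := hm.finite_adjoinRoot
  have := hm.free_adjoinRoot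
  exact ⟨(RingHom.Finite.of_surjective α hα.2).comp (RingHom.finite_algebraMap.2 inferInstance),
    RingHom.Flat.comp (RingHom.flat_algebraMap_iff.2 inferInstance)
      (RingHom.Flat.of_bijective hα)⟩

theorem expand_ff (R : Type) [CommRing R] (d : ℕ) (hd : d ≠ 0) (n : ℕ) :
    (expand d : MvPolynomial (Fin n) R →ₐ[R] _).toRingHom.Finite ∧
      (expand d : MvPolynomial (Fin n) R →ₐ[R] _).toRingHom.Flat := by
  induction n with
  | zero =>
    have : (expand d : MvPolynomial (Fin 0) R →ₐ[R] _) = AlgHom.id R _ :=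
      MvPolynomial.algHom_ext fun i => i.elim0
    rw [this]
    exact ⟨RingHom.Finite.id _, RingHom.Flat.id _⟩
  | succ n ih =>
    have e : (expand d : MvPolynomial (Fin (n + 1)) R →ₐ[R] _).toRingHom =
        (finSuccEquiv R n).symm.toAlgHom.toRingHom.comp
        ((Polynomial.mapRingHom (expand d : MvPolynomial (Fin n) R →ₐ[R] _).toRingHom).comp
          ((Polynomial.expand _ d).toRingHom.comp (finSuccEquiv R n).toAlgHom.toRingHom)) := by
      refine MvPolynomial.ringHom_ext (fun r => ?_) fun i => (finSuccEquiv R n).eq_symm_apply.2 ?_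
      · refine (finSuccEquiv R n).eq_symm_apply.2 ?_
        have : finSuccEquiv R n (C r) = Polynomial.C (C r) := (finSuccEquiv R n).commutes r
        simp [this]
      · refine Fin.cases ?_ (fun j => ?_) i
        · simp [finSuccEquiv_X_zero]
        · simp [finSuccEquiv_X_succ]
    rw [e]
    have hb := (finSuccEquiv R n).symm.bijective
    have hb' := (finSuccEquiv R n).bijective
    have hp := pexp_ff (MvPolynomial (Fin n) R) d hd
    exact ⟨(RingHom.Finite.of_surjective _ hb.2).comp (((polyMap_ff _).1 ih.1).comp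
        (hp.1.comp (RingHom.Finite.of_surjective _ hb'.2))),
      RingHom.Flat.comp (RingHom.Flat.comp (RingHom.Flat.comp (RingHom.Flat.of_bijective hb') hp.2)
        ((polyMap_ff _).2 ih.2)) (RingHom.Flat.of_bijective hb)⟩

variable {k : Type} [Field k] (n d : ℕ) (μ : k)

/-- the source of the cover. -/
abbrev Src (k : Type) [Field k] (n : ℕ) : Type := MvPolynomial Unit k ⊗[k] MvPolynomial (Fin n) k

/-- the torus. -/
abbrev Trs (k : Type) [Field k] (n : ℕ) : Type :=
  Localization.Away (∏ i, X i : MvPolynomial (Fin (n + 1)) k)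

/-- the coordinates of the torus. -/
noncomputable abbrev tx (k : Type) [Field k] (n : ℕ) (i : Fin (n + 1)) : Trs k n :=
  algebraMap (MvPolynomial (Fin (n + 1)) k) _ (X i)

/-- the cover. -/
noncomputable def cov0 : Src k n →ₐ[k] Trs k n :=
  Algebra.TensorProduct.lift
    (aeval fun _ => algebraMap (MvPolynomial (Fin (n + 1)) k) _ (C μ * ∏ i, X i))
    (aeval fun j => algebraMap (MvPolynomial (Fin (n + 1)) k) _
      (expand d (esymm (Fin (n + 1)) k (j + 1)))) fun _ _ => Commute.all _ _

theorem cov0_left : cov0 n d μ (X () ⊗ₜ 1) =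
    algebraMap (MvPolynomial (Fin (n + 1)) k) _ (C μ * ∏ i, X i) := by simp [cov0]

theorem cov0_right (Q : MvPolynomial (Fin n) k) : cov0 n d μ (1 ⊗ₜ Q) =
    algebraMap (MvPolynomial (Fin (n + 1)) k) _
      (expand d (aeval (fun j : Fin n => esymm (Fin (n + 1)) k (j + 1)) Q)) := by
  have : (cov0 n d μ).comp Algebra.TensorProduct.includeRight =
      ((IsScalarTower.toAlgHom k (MvPolynomial (Fin (n + 1)) k) (Trs k n)).comp (expand d)).comp
        (aeval fun j : Fin n => esymm (Fin (n + 1)) k (j + 1)) :=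
    MvPolynomial.algHom_ext fun j => by simp [cov0]
  exact AlgHom.congr_fun this Q

theorem esymm_top : esymm (Fin (n + 1)) k (n + 1) = ∏ i, X i := by
  have h := Finset.powersetCard_self (Finset.univ : Finset (Fin (n + 1)))
  rw [Finset.card_fin] at h
  rw [esymm, h, Finset.sum_singleton]

theorem cov_pot (hμ : μ ^ d = (-1) ^ n * (n + 1)) (Q : MvPolynomial (Fin n) k)
    (hQ : aeval (fun i : Fin n => esymm (Fin (n + 1)) k (i + 1)) Q +
      (-1) ^ n * (n + 1) * esymm (Fin (n + 1)) k (n + 1) = psum (Fin (n + 1)) k (n + 1)) :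
    cov0 n d μ ((X () ^ d) ⊗ₜ 1 + 1 ⊗ₜ Q) =
      algebraMap (MvPolynomial (Fin (n + 1)) k) _ (∑ i, X i ^ (d * (n + 1))) := by
  have h1 : (X () ^ d : MvPolynomial Unit k) ⊗ₜ[k] (1 : MvPolynomial (Fin n) k) =
      (X () ⊗ₜ 1) ^ d := by rw [Algebra.TensorProduct.tmul_pow, one_pow]
  rw [map_add, h1, map_pow, cov0_left, cov0_right, ← map_pow, ← map_add]
  congr 1
  have := congrArg (expand d) hQ
  rw [esymm_top] at this
  simp only [psum, map_add, map_mul, map_pow, map_neg, map_one, map_natCast, map_prod, map_sum,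
    expand_X, ← pow_mul] at this
  rw [← this, mul_pow, ← map_pow, hμ, ← Finset.prod_pow]
  simp only [map_mul, map_pow, map_neg, map_one, map_add, map_natCast]
  exact add_comm _ _

variable {μ}

theorem cov0_unit (hμ : μ ≠ 0) : IsUnit (cov0 n d μ (X () ⊗ₜ 1)) := by
  rw [cov0_left, map_mul]
  exact ((hμ.isUnit.map C).map _).mul (IsLocalization.Away.algebraMap_isUnit _)

/-- the cover from the open part. -/
noncomputable def cov (hμ : μ ≠ 0) :
    Localization.Away (X () ⊗ₜ 1 : Src k n) →ₐ[k] Trs k n :=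
  IsLocalization.Away.liftAlgHom (f := cov0 n d μ) (X () ⊗ₜ 1 : Src k n) (cov0_unit n d hμ)

theorem cov_algebraMap (hμ : μ ≠ 0) (a : Src k n) :
    cov n d hμ (algebraMap _ _ a) = cov0 n d μ a := by simp [cov]

/-- the ring of symmetric functions below the source. -/
noncomputable def low (μ : k) : MvPolynomial (Fin (n + 1)) k →ₐ[k] Src k n :=
  aeval (Fin.lastCases (algebraMap k _ (μ⁻¹ ^ d) * (X () ⊗ₜ 1) ^ d) fun j => 1 ⊗ₜ X j)

theorem cov0_low (hμ : μ ≠ 0) : (cov0 n d μ).comp (low n d μ) =
    ((IsScalarTower.toAlgHom k (MvPolynomial (Fin (n + 1)) k) (Trs k n)).comp (expand d)).comp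
      (symMap k (n + 1)) := by
  refine MvPolynomial.algHom_ext fun i => ?_
  refine Fin.lastCases ?_ (fun j => ?_) i
  · simp only [AlgHom.comp_apply, low, aeval_X, Fin.lastCases_last, map_mul, map_pow, cov0_left,
      symMap, Fin.val_last, esymm_top, map_prod, expand_X, AlgHom.commutes,
      IsScalarTower.coe_toAlgHom']
    have : algebraMap (MvPolynomial (Fin (n + 1)) k) (Trs k n) (C μ) = algebraMap k _ μ := rfl
    rw [this, ← mul_pow, ← mul_assoc, ← map_mul, inv_mul_cancel₀ hμ, map_one, one_mul,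
      Finset.prod_pow]
  · simp [low, symMap, cov0_right]

theorem cov0_flat (hμ : μ ≠ 0) (hd : (d : k) ≠ 0) : (cov0 n d μ).toRingHom.Flat := by
  have hd0 : d ≠ 0 := by rintro rfl; simp at hd
  refine flat_of_root (low n d μ).toRingHom _ (X () ⊗ₜ 1) d (C (μ ^ d) * X (Fin.last n)) ?_ ?_
    (cov0_unit n d hμ) ?_ ?_
  · have : low n d μ (C (μ ^ d)) = algebraMap k _ (μ ^ d) := (low n d μ).commutes _
    change low n d μ _ = _
    rw [map_mul, this, low, aeval_X, Fin.lastCases_last, ← mul_assoc, ← map_mul, ← mul_pow,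
      mul_inv_cancel₀ hμ, one_pow, map_one, one_mul]
  · simpa using hd.isUnit.map (algebraMap k (Trs k n))
  · rw [eq_top_iff]
    rintro x -
    have hC : ∀ r : k, algebraMap k (Src k n) r ∈ Subring.closure (insert (X () ⊗ₜ 1)
        (Set.range (low n d μ).toRingHom)) := fun r =>
      Subring.subset_closure (Or.inr ⟨C r, (low n d μ).commutes r⟩)
    induction x using TensorProduct.induction_on with
    | zero => exact zero_mem _
    | add x y hx hy => exact add_mem hx hy
    | tmul a b =>
      rw [show a ⊗ₜ[k] b = (a ⊗ₜ 1) * (1 ⊗ₜ b) by simp]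
      refine mul_mem ?_ ?_
      · induction a using MvPolynomial.induction_on with
        | C r => exact hC r
        | add p q hp hq => rw [TensorProduct.add_tmul]; exact add_mem hp hq
        | mul_X p i hp =>
          rw [show (p * X i) ⊗ₜ[k] (1 : MvPolynomial (Fin n) k) = (p ⊗ₜ 1) * (X () ⊗ₜ 1) by simp]
          exact mul_mem hp (Subring.subset_closure (Or.inl rfl))
      · refine Subring.subset_closure (Or.inr ⟨rename Fin.castSucc b, ?_⟩)
        have : (low n d μ).comp (rename Fin.castSucc) = Algebra.TensorProduct.includeRight :=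
          MvPolynomial.algHom_ext fun j => by simp [low]
        exact AlgHom.congr_fun this b
  · have e : (cov0 n d μ).toRingHom.comp (low n d μ).toRingHom = (algebraMap _ (Trs k n)).comp
        ((expand d : MvPolynomial (Fin (n + 1)) k →ₐ[k] _).toRingHom.comp
          (symMap k (n + 1)).toRingHom) :=
      RingHom.ext fun x => AlgHom.congr_fun (cov0_low n d hμ) x
    rw [e]
    exact RingHom.Flat.comp (RingHom.Flat.comp (symMap_ff k (n + 1)).2 (expand_ff k d hd0 (n + 1)).2)
      (RingHom.flat_algebraMap_iff.2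
        (IsLocalization.flat (Trs k n) (Submonoid.powers (∏ i, X i))))

theorem cov_flat (hμ : μ ≠ 0) (hd : (d : k) ≠ 0) : (cov n d hμ).toRingHom.Flat := by
  let := (cov n d hμ).toRingHom.toAlgebra
  let := (cov0 n d μ).toRingHom.toAlgebra
  have : IsScalarTower (Src k n) (Localization.Away (X () ⊗ₜ 1 : Src k n)) (Trs k n) :=
    IsScalarTower.of_algebraMap_eq fun a => (cov_algebraMap n d hμ a).symm
  exact (Module.flat_iff_of_isLocalization _ (Submonoid.powers (X () ⊗ₜ 1 : Src k n)) _).2
    (cov0_flat n d hμ hd)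

theorem cov_finite (hμ : μ ≠ 0) (hd : d ≠ 0) : (cov n d hμ).toRingHom.Finite := by
  refine RingHom.IsIntegral.to_finite (fun b => ?_) (RingHom.FiniteType.of_comp_finiteType
    (f := algebraMap k _) ?_)
  · obtain ⟨m, a, h⟩ := IsLocalization.Away.surj (∏ i, X i : MvPolynomial (Fin (n + 1)) k) b
    have hψ := ((expand_ff k d hd (n + 1)).1.comp (symMap_ff k (n + 1)).1).to_isIntegral a
    have h1 : (cov n d hμ).toRingHom.IsIntegralElem (algebraMap _ _ a) := by
      obtain ⟨P, hP, h0⟩ := hψ
      refine ⟨P.map ((algebraMap (Src k n) _).comp (low n d μ).toRingHom), hP.map _, ?_⟩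
      rw [Polynomial.eval₂_map]
      have := congrArg (algebraMap _ (Trs k n)) h0
      rw [Polynomial.hom_eval₂, map_zero] at this
      rw [← this]
      congr 1
      exact RingHom.ext fun x => (cov_algebraMap n d hμ _).trans
        (AlgHom.congr_fun (cov0_low n d hμ) x)
    obtain ⟨u, hu⟩ := (IsLocalization.Away.algebraMap_isUnit
      (S := Localization.Away (X () ⊗ₜ 1 : Src k n)) (X () ⊗ₜ 1 : Src k n)).exists_right_inv
    have h2 : algebraMap (MvPolynomial (Fin (n + 1)) k) (Trs k n) (∏ i, X i) *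
        cov n d hμ (algebraMap k _ μ * u) = 1 := by
      have := congrArg (cov n d hμ) hu
      rw [map_mul, cov_algebraMap, cov0_left, map_mul, map_one] at this
      rw [map_mul, AlgHom.commutes, ← this, mul_left_comm, mul_assoc]
      rfl
    have h3 : b = algebraMap _ _ a * cov n d hμ ((algebraMap k _ μ * u) ^ m) := by
      rw [← h, map_pow, mul_assoc, ← mul_pow, h2, one_pow, mul_one]
    rw [h3]
    exact h1.mul _ (RingHom.isIntegralElem_map _)
  · rw [show (cov n d hμ).toRingHom.comp (algebraMap k _) = algebraMap k _ from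
      (cov n d hμ).comp_algebraMap]
    exact RingHom.finiteType_algebraMap.2 inferInstance

theorem cov_trans (hμ : μ ≠ 0) [NeZero d] [IsAlgClosed k] {Ω : Type} [Field Ω] [Algebra k Ω]
    (v v' : Trs k n →ₐ[k] Ω) (h : v.comp (cov0 n d μ) = v'.comp (cov0 n d μ)) :
    ∃ (σ : Equiv.Perm (Fin (n + 1))) (ζ : Fin (n + 1) → rootsOfUnity d k), ∏ i, ζ i = 1 ∧
      ∀ i, v' (tx k n i) = algebraMap k Ω ((ζ i).1 : k) * v (tx k n (σ i)) := by
  have he : ∀ (w : Trs k n →ₐ[k] Ω) (j : Fin (n + 1)), w (cov0 n d μ (low n d μ (X j))) =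
      (Finset.univ.val.map fun i => w (tx k n i) ^ d).esymm (j + 1) := fun w j => by
    have := AlgHom.congr_fun (cov0_low n d hμ) (X j)
    rw [AlgHom.comp_apply] at this
    rw [this, ← aeval_esymm_eq_multiset_esymm (Fin (n + 1)) k]
    have e : (w.comp (IsScalarTower.toAlgHom k (MvPolynomial (Fin (n + 1)) k) (Trs k n))).comp
        (expand d) = aeval fun i => w (tx k n i) ^ d := MvPolynomial.algHom_ext fun i => by simp
    rw [← e]
    simp [symMap]
  obtain ⟨σ, hσ⟩ := exists_perm (fun i => v (tx k n i) ^ d) (fun i => v' (tx k n i) ^ d)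
    fun j h0 hj => by
      rw [Fintype.card_fin] at hj
      have := AlgHom.congr_fun h (low n d μ (X ⟨j - 1, by omega⟩))
      rw [AlgHom.comp_apply, AlgHom.comp_apply, he, he] at this
      simpa [Nat.sub_add_cancel h0] using this
  have hu : IsUnit (v (algebraMap (MvPolynomial (Fin (n + 1)) k) _ (∏ i, X i))) :=
    (IsLocalization.Away.algebraMap_isUnit _).map v
  rw [map_prod, map_prod] at hu
  have hne : ∀ i, v (tx k n i) ≠ 0 := fun i h0 =>
    hu.ne_zero (Finset.prod_eq_zero (Finset.mem_univ i) h0)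
  have hz : ∀ i, ∃ ζ : rootsOfUnity d k,
      v' (tx k n i) = algebraMap k Ω (ζ.1 : k) * v (tx k n (σ i)) := fun i => by
    have h1 : (v' (tx k n i) / v (tx k n (σ i))) ^ d = 1 := by
      rw [div_pow, hσ i, div_self (pow_ne_zero _ (hne _))]
    have hi : IsIntegral k (v' (tx k n i) / v (tx k n (σ i))) :=
      IsIntegral.of_pow (NeZero.pos d) (h1 ▸ isIntegral_one)
    obtain ⟨z, hz⟩ := minpoly.mem_range_of_degree_eq_one k _
      (IsAlgClosed.degree_eq_one_of_irreducible k (minpoly.irreducible hi))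
    refine ⟨rootsOfUnity.mkOfPowEq z
      ((algebraMap k Ω).injective (by rw [map_pow, hz, h1, map_one])), ?_⟩
    rw [rootsOfUnity.coe_mkOfPowEq, hz, div_mul_cancel₀ _ (hne _)]
  choose ζ hζ using hz
  refine ⟨σ, ζ, ?_, hζ⟩
  have h1 := AlgHom.congr_fun h (X () ⊗ₜ 1)
  have hc : ∀ w : Trs k n →ₐ[k] Ω,
      w (algebraMap (MvPolynomial (Fin (n + 1)) k) _ (C μ)) = algebraMap k Ω μ := fun w =>
    w.commutes μ
  simp only [AlgHom.comp_apply, cov0_left, map_mul, map_prod, hc] at h1
  have h2 := mul_left_cancel₀ ((map_ne_zero (algebraMap k Ω)).2 hμ) h1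
  rw [Finset.prod_congr rfl fun i _ => hζ i, Finset.prod_mul_distrib,
    Equiv.prod_comp σ fun i => v (tx k n i), eq_comm, mul_eq_right₀ hu.ne_zero, ← map_prod] at h2
  refine Subtype.ext (Units.ext ((algebraMap k Ω).injective ?_))
  simpa using h2

end Pool.Agent.Lib.MP_40dc3c_ag.T.Sym
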