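import Pool.Agent.Lib.MP_40dc3c_ag.T.B1
import Pool.Agent.Lib.MP_40dc3c_ag.T.O4

/-! In characteristic two all supersingular levels are linked. -/

namespace Pool.Agent.Lib.MP_40dc3c_ag.T

open scoped TensorProduct
open Function Polynomial

set_option linter.style.haveILetI false

section aux

variable {k : Type} [Field k] (p : ℕ) [Fact p.Prime] [CharP k p]

theorem b5c_cob {B : Type} [CommRing B] (hp : (p : B) = 0) (h : B) (j : ℕ) :
    ∃ c : B, h ^ p ^ j = h + c ^ p - c := by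
  induction j with
  | zero => exact ⟨0, by simp [(Fact.out : p.Prime).ne_zero]⟩
  | succ j ih =>
    obtain ⟨c, hc⟩ := ih
    refine ⟨c + h ^ p ^ j, ?_⟩
    rw [add_pow_p p hp, pow_succ p j, pow_mul]
    linear_combination hc

theorem b5c_add {B : Type} [CommRing B] (hp : (p : B) = 0) (x y : B) (j : ℕ) :
    (x + y) ^ p ^ j = x ^ p ^ j + y ^ p ^ j := by
  induction j with
  | zero => simp
  | succ j ih => rw [pow_succ p j, pow_mul, pow_mul, pow_mul, ih, add_pow_p p hp]

theorem b5c_id {B : Type} [CommRing B] (hp : (p : B) = 0) (h2 : (2 : B) = 0) (u t : B) (v w : ℕ) :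
    ∃ c : B, (u + u ^ p ^ w + t ^ (p ^ v * p ^ w)) ^ (p ^ v + 1) + (u + u ^ p ^ v) ^ (p ^ w + 1) =
      (t ^ (p ^ v * p ^ v * p ^ w) + t ^ (p ^ v * p ^ v) + t ^ p ^ w + t) * u +
        t ^ (p ^ v * p ^ w * (p ^ v + 1)) + c ^ p - c := by
  obtain ⟨c1, h1⟩ := b5c_cob p hp (u ^ (1 + p ^ v)) w
  obtain ⟨c2, h3⟩ := b5c_cob p hp (u ^ (1 + p ^ w)) v
  obtain ⟨c3, h4⟩ := b5c_cob p hp (u * t ^ (p ^ v * p ^ v)) w
  obtain ⟨c4, h5⟩ := b5c_cob p hp (u * t ^ p ^ w) v
  obtain ⟨c5, h6⟩ := b5c_cob p hp (u * t) (v + w)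
  refine ⟨c1 + c2 + c3 + c4 + c5, ?_⟩
  rw [pow_succ (u + u ^ p ^ w + _), pow_succ (u + u ^ p ^ v), b5c_add p hp, b5c_add p hp,
    b5c_add p hp, add_pow_p p hp, add_pow_p p hp, add_pow_p p hp, add_pow_p p hp]
  rw [pow_add p v w] at h6
  generalize p ^ v = Q at *
  generalize p ^ w = R at *
  linear_combination h1 + h3 + h4 + h5 + h6 +
    (u ^ (1 + Q) + u ^ (1 + R) + u ^ (1 + Q * R) + u ^ (Q + R)) * h2

omit [Fact p.Prime] [CharP k p] in
theorem b5c_finite {A : Type} [CommRing A] [Algebra k A] (φ : A →ₐ[k] k[X][X]) {Q R N : ℕ}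
    (hQ : 1 < Q) (hN : N ≠ 0) (a b : A) (ha : φ a = X + X ^ R + C X ^ N) (hb : φ b = X + X ^ Q) :
    φ.toRingHom.Finite := by
  letI := φ.toRingHom.toAlgebra
  have e : ∀ x, algebraMap A k[X][X] x = φ x := fun _ => rfl
  haveI : Nontrivial A := φ.toRingHom.domain_nontrivial
  have hu : IsIntegral A (X : k[X][X]) := by
    refine ⟨X ^ Q + (X - C b), Monic.add_of_left (monic_X_pow Q) ?_, ?_⟩
    · rw [degree_X_pow, degree_X_sub_C]
      exact_mod_cast hQ
    · rw [eval₂_add, eval₂_sub, eval₂_X_pow, eval₂_X, eval₂_C, e, hb]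
      ring
  have ht : IsIntegral A (C X : k[X][X]) := by
    refine IsIntegral.of_pow (Nat.pos_of_ne_zero hN) ?_
    rw [show (C X : k[X][X]) ^ N = algebraMap A _ a - (X + X ^ R) by rw [e, ha]; ring]
    exact isIntegral_algebraMap.sub (hu.add (hu.pow R))
  have hc : ∀ y : k[X], IsIntegral A (C y : k[X][X]) := fun y => by
    induction y using Polynomial.induction_on with
    | C z =>
      rw [show (C (C z) : k[X][X]) = algebraMap A _ (algebraMap k A z) by
        rw [e, φ.commutes]; rfl]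
      exact isIntegral_algebraMap
    | add y z hy hz => rw [map_add]; exact hy.add hz
    | monomial n z hz => rw [pow_succ, ← mul_assoc, map_mul]; exact hz.mul ht
  refine RingHom.IsIntegral.to_finite (fun x => ?_)
    (RingHom.FiniteType.of_comp_finiteType (f := algebraMap k A) ?_)
  · change IsIntegral A x
    induction x using Polynomial.induction_on with
    | C y => exact hc y
    | add y z hy hz => exact hy.add hz
    | monomial n z hz => rw [pow_succ, ← mul_assoc]; exact hz.mul hu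
  · rw [show φ.toRingHom.comp (algebraMap k A) = algebraMap k _ from φ.comp_algebraMap]
    exact RingHom.finiteType_algebraMap.2 inferInstance

/-- a potential that is linear in one of two variables gives a split object. -/
theorem b5c_split [IsAlgClosed k] (L f₀ : k[X]) (hL : L ≠ 0) :
    Split ((Obj.triv (k := k) ⟨k[X][X]⟩).as p (C L * X + C f₀) fun _ => rfl) := by
  refine Split.of_ge ?_ (ge_as_lin p ⟨k[X]⟩ ⟨k[X][X]⟩ ⟨AdjoinRoot L⟩ AlgEquiv.refl L f₀
    (AdjoinRoot.mkₐ L) AdjoinRoot.mk_surjective (fun _ => AdjoinRoot.mk_eq_zero) rfl)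
  haveI : Module.Finite k (AdjoinRoot L) := (AdjoinRoot.powerBasis hL).finite
  haveI : Module.Finite k (AdjoinRoot (asP p (AdjoinRoot.mkₐ L f₀))) := by
    rcases subsingleton_or_nontrivial (AdjoinRoot L) with _ | _
    · haveI := (AdjoinRoot.of (asP p (AdjoinRoot.mkₐ L f₀))).codomain_trivial
      exact Module.Finite.of_finite
    · haveI := (asP_monic p (AdjoinRoot.mkₐ L f₀)).finite_adjoinRoot
      exact Module.Finite.trans (AdjoinRoot L) _
  exact split_of_finite _

end aux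

variable {k : Type} [Field k] [IsAlgClosed k] (ω : kˣ →* ℂˣ) (p : ℕ) [Fact p.Prime] [CharP k p]

theorem split_ss2' (hp : p = 2) (v w : ℕ) (hv : 0 < v) (hw : 0 < w) (c c' : ℤ) :
    Split ((U ω p (p ^ v + 1) c).ten (U ω p (p ^ w + 1) c')) := by
  have p1 : 1 < p := (Fact.out : p.Prime).one_lt
  have hQ : 1 < p ^ v := Nat.one_lt_pow hv.ne' p1
  have hR : 1 < p ^ w := Nat.one_lt_pow hw.ne' p1
  have h0 : (p : k[X][X]) = 0 := cast_p p k _
  obtain ⟨b, hb⟩ := b5c_id p h0 (by rw [← h0, hp]; rfl) (X : k[X][X]) (C X) v w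
  let E : Eqv ((aff ω Unit (p ^ v + 1) fun _ => c).ten (aff ω Unit (p ^ w + 1) fun _ => c'))
      (Obj.triv ⟨k[X][X]⟩) :=
    { φ := Algebra.TensorProduct.lift
        (MvPolynomial.aeval fun _ => X + X ^ p ^ w + C X ^ (p ^ v * p ^ w))
        (MvPolynomial.aeval fun _ => X + X ^ p ^ v) fun _ _ => Commute.all _ _
      π := 1
      comm := fun g a => by rw [MonoidHom.one_apply, map_one]; rfl
      chi := fun g => by rw [MonoidHom.one_apply, MonoidHom.one_apply, map_one] }
  have e1 : E.φ (MvPolynomial.X () ⊗ₜ 1) = X + X ^ p ^ w + C X ^ (p ^ v * p ^ w) := by simp [E]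
  have e2 : E.φ (1 ⊗ₜ MvPolynomial.X ()) = X + X ^ p ^ v := by simp [E]
  refine (Split.of_ge (b5c_split p (X ^ (p ^ v * p ^ v * p ^ w) + X ^ (p ^ v * p ^ v) +
    X ^ p ^ w + X) (X ^ (p ^ v * p ^ w * (p ^ v + 1))) fun h => ?_) (E.sh_push p _ _ (c := b)
    (fun _ => rfl) ?_ (b5c_finite E.φ hQ (by positivity) _ _ e1 e2) fun Ω _ _ _ u => ?_)).of_ge
    (cls_eq.1 (cls_as_ten_as p _ _ _ _)).2
  · have a1 : 1 < p ^ v * p ^ v := one_lt_mul'' hQ hQ
    have a2 : 1 < p ^ v * p ^ v * p ^ w := one_lt_mul'' a1 hR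
    have := congrArg (fun f : k[X] => f.coeff 1) h
    simp only [coeff_add, coeff_X_pow, if_neg a1.ne, if_neg a2.ne, if_neg hR.ne, coeff_X_one,
      coeff_zero, zero_add] at this
    exact one_ne_zero this
  · simp only [map_add, map_pow]
    rw [← hb]
    simp [E]
  · obtain ⟨y, hy⟩ := IsAlgClosed.exists_root (X ^ p ^ v + (X - C (u (1 ⊗ₜ MvPolynomial.X ()))) :
      Polynomial Ω)
      (by
        rw [degree_add_eq_left_of_degree_lt (by
          rw [degree_X_pow, degree_X_sub_C]; exact_mod_cast hQ), degree_X_pow]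
        exact_mod_cast (by omega : p ^ v ≠ 0))
    obtain ⟨t, ht⟩ := IsAlgClosed.exists_pow_nat_eq
      (u (MvPolynomial.X () ⊗ₜ 1) - (y + y ^ p ^ w)) (n := p ^ v * p ^ w) (by positivity)
    refine ⟨1, aevalTower (aeval t) y, ?_⟩
    rw [map_one]
    simp only [IsRoot.def, eval_add, eval_pow, eval_X, eval_sub, eval_C] at hy
    refine Algebra.TensorProduct.ext (MvPolynomial.algHom_ext fun i => ?_)
      (MvPolynomial.algHom_ext fun i => ?_)
    · change aevalTower (aeval t) y (E.φ (MvPolynomial.X () ⊗ₜ 1)) = u (MvPolynomial.X () ⊗ₜ 1)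
      rw [e1]
      simp only [map_add, map_pow, aevalTower_X, aevalTower_C, aeval_X]
      linear_combination ht
    · change aevalTower (aeval t) y (E.φ (1 ⊗ₜ MvPolynomial.X ())) = u (1 ⊗ₜ MvPolynomial.X ())
      rw [e2]
      simp only [map_add, map_pow, aevalTower_X]
      linear_combination hy

theorem split_ss2 (hp : p = 2) (v : ℕ) (hv : 0 < v) (c c' : ℤ) :
    Split ((U ω p (p ^ v + 1) c).ten (U ω p (p ^ (2 * v) + 1) c')) :=
  split_ss2' ω p hp v (2 * v) hv (by omega) c c'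

end Pool.Agent.Lib.MP_40dc3c_ag.T
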