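import Pool.Agent.Lib.MP_40dc3c_ag.T.B6a
import Pool.Agent.Lib.MP_40dc3c_ag.T.B5c
import Pool.Agent.Lib.MP_40dc3c_ag.Fe.Abs

/-! Tate tuples give trivial products of Gauss objects. -/

namespace Pool.Agent.Lib.MP_40dc3c_ag.T

open scoped TensorProduct
open Function

variable {k : Type} [Field k] (ω : kˣ →* ℂˣ) (p : ℕ) [Fact p.Prime] [CharP k p]

/-- the class of the Gauss object of a rational number. -/
noncomputable def b6c (a : ℚ) : Cls k :=
  haveI : NeZero a.den := ⟨a.den_nz⟩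
  (U ω p a.den a.num).cls

open Classical in
/-- the symbols as units. -/
noncomputable def b6m : FreeAbelianGroup (Option ℚ) →+ Additive (Cls k)ˣ :=
  FreeAbelianGroup.lift fun o => o.elim 0 fun a =>
    if h : IsUnit (b6c ω p a) then Additive.ofMul h.unit else 0

/-- the value of a symbol. -/
noncomputable def b6v (z : FreeAbelianGroup (Option ℚ)) : Cls k := (b6m ω p z).toMul.1

theorem b6v_add (x y) : b6v ω p (x + y) = b6v ω p x * b6v ω p y := by simp [b6v]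

theorem b6v_zero : b6v ω p 0 = 1 := by simp [b6v]

theorem b6v_lef : b6v ω p Fe.Lef = 1 := by simp [b6v, b6m, Fe.Lef]

theorem b6v_sum {ι : Type} (s : Finset ι) (f : ι → FreeAbelianGroup (Option ℚ)) :
    b6v ω p (∑ i ∈ s, f i) = ∏ i ∈ s, b6v ω p (f i) := by
  simp [b6v, toMul_sum]

theorem b6v_ker {x y} : x - y ∈ (b6m ω p).ker ↔ b6v ω p x = b6v ω p y := by
  rw [AddMonoidHom.mem_ker, map_sub, sub_eq_zero, b6v, b6v, Units.val_inj, Equiv.apply_eq_iff_eq]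

theorem b6_den_dvd (c : ℤ) (d : ℕ) : ((c : ℚ) / d).den ∣ d := by
  have := Rat.den_dvd c d
  rw [Rat.divInt_eq_div] at this
  exact_mod_cast this

theorem b6_ndvd {a : ℚ} (h : a.den ≠ 1) : ¬(a.den : ℤ) ∣ a.num := fun e =>
  h (Nat.eq_one_of_dvd_coprimes a.reduced (Int.natCast_dvd.1 e) dvd_rfl)

variable [IsAlgClosed k]

theorem b6c_eq (d : ℕ) [NeZero d] (hd : ¬p ∣ d) (c : ℤ) : b6c ω p (c / d) = (U ω p d c).cls := by
  obtain ⟨e, he⟩ := b6_den_dvd c d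
  have d0 : (d : ℚ) ≠ 0 := Nat.cast_ne_zero.2 (NeZero.ne d)
  have h1 := Rat.mul_den_eq_num ((c : ℚ) / d)
  set a : ℚ := c / d with ha
  have : NeZero a.den := ⟨a.den_nz⟩
  have e0 : NeZero e := ⟨by rintro rfl; exact NeZero.ne d he⟩
  have h2 : c = a.num * e := by
    have : (c : ℚ) = a.num * e := by
      rw [← h1, mul_assoc, ← Nat.cast_mul, ← he, ha, div_mul_cancel₀ _ d0]
    exact_mod_cast this
  rw [cls_U_cast ω p he h2, cls_U_level ω p a.den e fun h => hd (he ▸ h.mul_left _)]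
  rfl

theorem b6v_sym (hω : Injective ω) (d : ℕ) [NeZero d] (hd : ¬p ∣ d) {c : ℤ} (hc : ¬(d : ℤ) ∣ c)
    {a : ℚ} (ha : a = c / d) : b6v ω p (Fe.sym a) = (U ω p d c).cls := by
  have d0 : (d : ℚ) ≠ 0 := Nat.cast_ne_zero.2 (NeZero.ne d)
  have e : b6c ω p (Int.fract a) = (U ω p d c).cls := by
    rw [show Int.fract a = ((c - ⌊a⌋ * d : ℤ) : ℚ) / d by
      rw [Int.fract, Int.cast_sub, sub_div, ← ha, Int.cast_mul, Int.cast_natCast,
        mul_div_cancel_right₀ _ d0], b6c_eq ω p d hd]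
    exact cls_U_congr ω p d ⟨-⌊a⌋, by ring⟩
  have u : IsUnit (b6c ω p (Int.fract a)) := e ▸ isUnit_U ω p hω d hd hc
  rw [← e]
  simp [b6v, b6m, Fe.sym, u]

/-- the good pairs. -/
def Good (p m : ℕ) : Prop :=
  ∀ n : ℕ, Odd n → Squarefree n → n ∣ m → (∃ v, n ∣ p ^ v + 1) ∨
    ∃ χ : DirichletCharacter ℂ n, χ.IsPrimitive ∧ χ.Odd ∧ (∃ j, χ ^ 2 ^ j = 1) ∧ χ p = 1 ∧
      (χ 2 = 1 ∨ ¬4 ∣ m) ∧ ∀ l : ℕ, l.Prime → l ∣ m → ¬l ∣ 2 * n → χ l = 1

theorem b6_base (hω : Injective ω) : ∃ b : ℚ, b6v ω p (Fe.sym b) * b6v ω p (Fe.sym b) = 1 ∧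
    (p ≠ 2 → b = 1 / 2) ∧ ∀ n v : ℕ, Odd n → n ≠ 1 → n ∣ p ^ v + 1 →
      b6v ω p (Fe.sym (1 / n)) = b6v ω p (Fe.sym b) := by
  have hp : p.Prime := Fact.out
  have nd : ∀ v, 0 < v → ¬p ∣ p ^ v + 1 := fun v hv h =>
    hp.one_lt.ne' (Nat.dvd_one.1 ((Nat.dvd_add_right (dvd_pow_self p hv.ne')).1 h))
  have lev : ∀ n v : ℕ, 0 < v → n ≠ 1 → n ∣ p ^ v + 1 → ∃ e : ℤ, ¬((p ^ v + 1 : ℕ) : ℤ) ∣ e ∧
      b6v ω p (Fe.sym (1 / n)) = (U ω p (p ^ v + 1) e).cls := by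
    rintro n v hv hn ⟨e, he⟩
    have e0 : e ≠ 0 := by rintro rfl; simp at he
    have n0 : n ≠ 0 := by rintro rfl; simp at he
    have h1 : ¬((p ^ v + 1 : ℕ) : ℤ) ∣ e := fun h => by
      rw [he, Int.natCast_dvd_natCast] at h
      exact hn (Nat.dvd_one.1 (Nat.dvd_of_mul_dvd_mul_right (Nat.pos_of_ne_zero e0)
        (by rwa [one_mul])))
    refine ⟨e, h1, b6v_sym ω p hω _ (nd v hv) h1 ?_⟩
    rw [he]
    push_cast
    field_simp
  have vpos : ∀ n v : ℕ, Odd n → n ≠ 1 → n ∣ p ^ v + 1 → 0 < v := fun n v h1 h2 h3 => by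
    refine Nat.pos_of_ne_zero ?_
    rintro rfl
    rcases (Nat.dvd_prime Nat.prime_two).1 h3 with h | rfl
    · exact h2 h
    · exact absurd h1 (by decide)
  by_cases h2 : p = 2
  · obtain ⟨e, he, E⟩ := lev 3 1 one_pos (by decide) (by rw [h2]; decide)
    have u := isUnit_U ω p hω _ (nd 1 one_pos) he
    have all : ∀ v, 0 < v → ∀ c : ℤ, ¬((p ^ v + 1 : ℕ) : ℤ) ∣ c →
        (U ω p (p ^ v + 1) c).cls * (U ω p (p ^ 1 + 1) e).cls = 1 := fun v hv c hc =>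
      (split_ss2' ω p h2 v 1 hv one_pos c e).cls_eq_one ((isUnit_U ω p hω _ (nd v hv) hc).mul u)
    refine ⟨1 / (3 : ℕ), by rw [E]; exact all 1 one_pos e he, fun h => absurd h2 h,
      fun n v c1 c2 c3 => ?_⟩
    obtain ⟨e', he', E'⟩ := lev n v (vpos n v c1 c2 c3) c2 c3
    rw [E, E']
    exact u.mul_right_cancel ((all v (vpos n v c1 c2 c3) e' he').trans (all 1 one_pos e he).symm)
  · have hp2 : ¬p ∣ 2 := fun h => h2 ((Nat.prime_dvd_prime_iff_eq hp Nat.prime_two).1 h)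
    have E : b6v ω p (Fe.sym (1 / 2)) = (U ω p 2 1).cls :=
      b6v_sym ω p hω 2 hp2 (by decide) (by norm_num)
    refine ⟨1 / 2, ?_, fun _ => rfl, fun n v c1 c2 c3 => ?_⟩
    · rw [E]
      nth_rewrite 2 [cls_U_congr ω p 2 (c := 1) (c' := -1) (by decide)]
      exact cls_U_mul_neg ω p hω 2 hp2 (by decide)
    · have hv := vpos n v c1 c2 c3
      obtain ⟨e, he, E1⟩ := lev n v hv c2 c3
      obtain ⟨e', he', E2⟩ := lev 2 v hv (by decide)
        ((hp.odd_of_ne_two h2).pow.add_one.two_dvd)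
      rw [E1, cls_U_ss ω p hω v (nd v hv) he he', ← E2, Nat.cast_ofNat]

theorem prod_U_eq_one (hω : Injective ω) (m : ℕ) [NeZero m] (hm : ¬p ∣ m) (hg : Good p m)
    {ι : Type} [Fintype ι] (c : ι → ℤ) (he : Even (Fintype.card ι))
    (hT : Fe.Tate p (Finset.univ.val.map fun i => (c i : ℚ) / m)) :
    ∏ i, (U ω p m (c i)).cls = 1 := by
  have hp : p.Prime := Fact.out
  obtain ⟨r, hr⟩ := he
  obtain ⟨b, b1, b2, b3⟩ := b6_base ω p hω
  have nd : ∀ {a : ℚ}, a.den.Coprime p → ¬p ∣ a.den := fun h =>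
    (Nat.Prime.coprime_iff_not_dvd hp).1 h.symm
  have dv : ∀ x ∈ Finset.univ.val.map fun i => (c i : ℚ) / m, x.den ∣ m := fun x hx => by
    obtain ⟨i, -, rfl⟩ := Multiset.mem_map.1 hx
    exact b6_den_dvd _ _
  have key := Fe.main_sub hp (b6m ω p).ker (fun a h1 h2 => ?_) (fun a h1 h2 => ?_)
    (fun a h1 h2 l hl hlp => ?_) (b := b) ?_ (fun h => ?_) _ r ?_ hT fun n c1 c2 => ?_
  · rw [b6v_ker, Multiset.map_map] at key
    have e : b6v ω p (r • Fe.Lef) = 1 := by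
      rw [← Finset.card_range r, ← Finset.sum_const, b6v_sum]
      exact Finset.prod_eq_one fun _ _ => b6v_lef ω p
    rw [← e, ← key]
    refine ((b6v_sum ω p Finset.univ fun i => Fe.sym ((c i : ℚ) / m)).trans
      (Finset.prod_congr rfl fun i _ => b6v_sym ω p hω m hm ?_ rfl)).symm
    rintro ⟨z, hz⟩
    refine hT.1 _ (Multiset.mem_map_of_mem _ (Finset.mem_univ_val i)) ?_
    rw [hz, Int.cast_mul, Int.cast_natCast,
      mul_div_cancel_left₀ _ (Nat.cast_ne_zero.2 (NeZero.ne m)), Rat.den_intCast]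
  · have : NeZero a.den := ⟨a.den_nz⟩
    rw [b6v_ker, b6v_add, b6v_lef,
      b6v_sym ω p hω a.den (nd h2) (b6_ndvd h1) (Rat.num_div_den a).symm,
      b6v_sym ω p hω a.den (nd h2) (c := -a.num) (fun h => b6_ndvd h1 (dvd_neg.1 h))
        (by rw [Int.cast_neg, neg_div, Rat.num_div_den])]
    exact cls_U_mul_neg ω p hω _ (nd h2) (b6_ndvd h1)
  · have : NeZero a.den := ⟨a.den_nz⟩
    rw [b6v_ker, b6v_sym ω p hω a.den (nd h2) (b6_ndvd h1) (Rat.num_div_den a).symm,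
      b6v_sym ω p hω a.den (nd h2) (c := p * a.num)
        (fun h => b6_ndvd h1 ((Nat.isCoprime_iff_coprime.2 h2).dvd_of_dvd_mul_left h))
        (by rw [Int.cast_mul, mul_div_assoc, Rat.num_div_den, Int.cast_natCast])]
    exact cls_U_frob ω p hω _ (nd h2) (b6_ndvd h1)
  · have : NeZero a.den := ⟨a.den_nz⟩
    have : NeZero l := ⟨hl.ne_zero⟩
    have hpl : ¬p ∣ l := fun h => hlp ((Nat.prime_dvd_prime_iff_eq hp hl).1 h).symm
    rw [sub_sub, b6v_ker, b6v_add, b6v_sum, b6v_sum,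
      b6v_sym ω p hω a.den (nd h2) (b6_ndvd h1) (Rat.num_div_den a).symm,
      Finset.prod_congr (s₁ := Finset.Ico 1 l) rfl fun i hi =>
        b6v_sym ω p hω l hpl (c := (i : ℕ)) (a := (i : ℚ) / l) (fun h => by
        have := Finset.mem_Ico.1 hi
        have := Nat.le_of_dvd (by omega) (Int.natCast_dvd_natCast.1 h)
        omega) (by rw [Int.cast_natCast]), ← cls_U_mult ω p hω l hl hlp a.den (nd h2) (b6_ndvd h1)]
    refine Finset.prod_congr rfl fun i _ => b6v_sym ω p hω _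
      (fun h => (hp.dvd_mul.1 h).elim (nd h2) hpl) (fun h => b6_ndvd h1
        ((dvd_add_left (dvd_mul_left _ _)).1
          ((Int.natCast_dvd_natCast.2 (dvd_mul_right a.den l)).trans h))) ?_
    have d0 : (a.den : ℚ) ≠ 0 := Nat.cast_ne_zero.2 a.den_nz
    push_cast
    rw [← Rat.mul_den_eq_num, ← add_mul, mul_comm (a.den : ℚ), mul_div_mul_right _ _ d0]
  · rw [b6v_ker, two_nsmul, b6v_add, b1, b6v_lef]
  · rw [b2 h, sub_self]
    exact zero_mem _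
  · rw [Multiset.card_map, two_mul, ← hr]
    rfl
  · by_cases hn : n ∣ m
    · refine Or.inr ((hg n c1 c2 hn).imp (fun ⟨v, hv⟩ => ⟨⟨v, hv⟩, fun h =>
        (b6v_ker ω p).2 (b3 n v c1 h hv)⟩) fun ⟨χ, a1, a2, a3, a4, a5, a6⟩ => ⟨χ, a1, a2, a3, a4,
          a5.imp_right fun h x hx e => h (e.trans (dv x hx)),
          fun x hx l hl e => a6 l hl (e.trans (dv x hx))⟩)
    · left
      rw [Multiset.countP_eq_zero.2 fun x hx e => hn ?_]
      · exact Even.zero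
      · rw [← Nat.prod_primeFactors_of_squarefree c2, ← e]
        exact (Nat.prod_primeFactors_dvd _).trans (dv x hx)

end Pool.Agent.Lib.MP_40dc3c_ag.T
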