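import Pool.Agent.Lib.MP_40dc3c_ag.T.CDefs

/-! Stabilisation of increasing families of lattices; classes of submodules. -/

namespace Pool.Agent.Lib.MP_40dc3c_ag.T

open scoped TensorProduct nonZeroDivisors
open Function Filter Submodule Module

variable {S B M M' : Type} [CommRing S] [CommRing B] [Algebra S B] [AddCommGroup M] [Module S M]
  [AddCommGroup M'] [Module S M']

theorem cs_equiv {N : Submodule S M} {N' : Submodule S M'} (e : N ≃ₗ[S] N') : cs N = cs N' := by
  by_cases h : N.FG
  · have := Module.Finite.iff_fg.2 h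
    have : Module.Finite S N' := Module.Finite.equiv e
    rw [cs_eq, cs_eq, cl_equiv e]
  · have h' : ¬N'.FG := fun h' => by
      have := Module.Finite.iff_fg.2 h'
      exact h (Module.Finite.iff_fg.1 (Module.Finite.equiv e.symm))
    rw [cs, cs, dif_neg h, dif_neg h']

theorem cs_bot : cs (⊥ : Submodule S M) = 0 := by
  rw [cs_eq]
  exact cl_zero _

theorem cs_map {N : Submodule S M} (f : M →ₗ[S] M') (hf : ∀ x ∈ N, f x = 0 → x = 0) :
    cs (N.map f) = cs N := by
  refine (cs_equiv (LinearEquiv.ofBijective (f.submoduleMap N) ⟨?_, f.submoduleMap_surjective N⟩)).symm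
  rw [injective_iff_map_eq_zero]
  intro x hx
  exact Subtype.ext (hf x x.2 (congrArg Subtype.val hx))

theorem cs_ker [IsNoetherianRing S] {N : Submodule S M} (hN : N.FG) (f : M →ₗ[S] M') :
    cs N = cs (N ⊓ LinearMap.ker f) + cs (N.map f) := by
  have := Module.Finite.iff_fg.2 hN
  have := Module.Finite.iff_fg.2 (hN.map f)
  have := Module.Finite.iff_fg.2 (hN.of_le (inf_le_left : N ⊓ LinearMap.ker f ≤ N))
  rw [cs_eq, cs_eq, cs_eq]
  refine cl_exact (inclusion inf_le_left) (f.submoduleMap N) (inclusion_injective _) ?_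
    (f.submoduleMap_surjective N)
  intro x
  constructor
  · intro hx
    exact ⟨⟨x.1, x.2, congrArg Subtype.val hx⟩, rfl⟩
  · rintro ⟨y, rfl⟩
    exact Subtype.ext y.2.2

theorem cs_sub [IsNoetherianRing S] {N L : Submodule S M} (hN : N.FG) (h : L ≤ N) :
    cs N - cs L = cs (N.map L.mkQ) := by
  rw [cs_ker hN L.mkQ, ker_mkQ, inf_eq_right.2 h, add_sub_cancel_left]

/-- two subquotients that are related by a correspondence have the same class. -/
theorem cs_goursat [IsNoetherianRing S] {G : Submodule S (M × M')} (hG : G.FG) {L : Submodule S M}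
    {L' : Submodule S M'} (hL : L ≤ G.map (LinearMap.fst S M M'))
    (hL' : L' ≤ G.map (LinearMap.snd S M M')) (h : ∀ z ∈ G, z.1 ∈ L ↔ z.2 ∈ L') :
    cs (G.map (LinearMap.fst S M M')) - cs L = cs (G.map (LinearMap.snd S M M')) - cs L' := by
  rw [cs_sub (hG.map _) hL, cs_sub (hG.map _) hL', ← map_comp, ← map_comp]
  have h1 := cs_ker hG (L.mkQ ∘ₗ LinearMap.fst S M M')
  have h2 := cs_ker hG (L'.mkQ ∘ₗ LinearMap.snd S M M')
  have e : G ⊓ LinearMap.ker (L.mkQ ∘ₗ LinearMap.fst S M M') =
      G ⊓ LinearMap.ker (L'.mkQ ∘ₗ LinearMap.snd S M M') := by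
    ext z
    simp only [mem_inf, LinearMap.mem_ker, LinearMap.comp_apply, mkQ_apply, Quotient.mk_eq_zero,
      LinearMap.fst_apply, LinearMap.snd_apply]
    exact and_congr_right (h z)
  rw [e, h2] at h1
  exact (add_left_cancel h1).symm

variable [Module B M] [IsScalarTower S B M] {U : Submodule S B} {N : Submodule S M}

theorem fg_smul (hU : U.FG) (hN : N.FG) : (U • N).FG := by
  have e : U • N = map₂ (Algebra.lsmul S S M : B →ₐ[S] Module.End S M).toLinearMap U N := by
    apply le_antisymm
    · exact smul_le.2 fun r hr n hn => apply_mem_map₂ _ hr hn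
    · exact map₂_le.2 fun r hr n hn => smul_mem_smul hr hn
  rw [e]
  exact hU.map₂ _ hN

theorem mul_smul_lat (U V : Submodule S B) (N : Submodule S M) : (U * V) • N = U • V • N :=
  Submodule.smul_assoc U V N

theorem pow_smul_pow (U : Submodule S B) (N : Submodule S M) (a b : ℕ) :
    U ^ a • U ^ b • N = U ^ (a + b) • N := by
  rw [pow_add, mul_smul_lat]

theorem smul_pow_smul (U : Submodule S B) (N : Submodule S M) (a : ℕ) :
    U • U ^ a • N = U ^ (a + 1) • N := by
  rw [pow_succ', mul_smul_lat]

section rees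

open Polynomial

/-- the Rees algebra of a lattice. -/
noncomputable def ree (U : Submodule S B) : Subalgebra S B[X] :=
  Algebra.adjoin S (U.map ((monomial 1 : B →ₗ[B] B[X]).restrictScalars S) : Set B[X])

theorem ree_noeth [IsNoetherianRing S] (hU : U.FG) : IsNoetherianRing (ree U) := by
  refine isNoetherianRing_of_fg ?_
  obtain ⟨s, hs⟩ := hU.map ((monomial 1 : B →ₗ[B] B[X]).restrictScalars S)
  rw [ree, ← hs, Algebra.adjoin_span]
  exact Subalgebra.fg_adjoin_finset s

/-- the graded module of a family of lattices. -/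
noncomputable def rmod (U : Submodule S B) (F : ℕ → Submodule S M) (h : ∀ d, U • F d ≤ F (d + 1)) :
    Submodule (ree U) (PolynomialModule B M) where
  carrier := {f | ∀ i, f.coeff i ∈ F i}
  zero_mem' i := zero_mem _
  add_mem' hf hg i := add_mem (hf i) (hg i)
  smul_mem' := by
    rintro ⟨a, ha⟩ f hf
    change ∀ i, (a • f).coeff i ∈ F i
    induction ha using Algebra.adjoin_induction generalizing f with
    | mem x hx =>
      obtain ⟨u, hu, rfl⟩ := hx
      intro i
      change (monomial 1 u • f).coeff i ∈ F i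
      rw [PolynomialModule.monomial_smul_apply]
      cases i with
      | zero => simp
      | succ i =>
        rw [if_pos (Nat.le_add_left 1 i), Nat.add_sub_cancel]
        exact h i (smul_mem_smul hu (hf i))
    | algebraMap r =>
      intro i
      rw [algebraMap_smul]
      exact (F i).smul_mem r (hf i)
    | add x y _ _ hx hy =>
      intro i
      rw [add_smul]
      exact add_mem (hx hf i) (hy hf i)
    | mul x y _ _ hx hy =>
      rw [mul_smul]
      exact hx (hy hf)

theorem rmod_fg (hN : N.FG) :
    (rmod U (fun d => U ^ d • N) fun d => (smul_pow_smul U N d).le).FG := by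
  classical
  obtain ⟨s, rfl⟩ := hN
  refine ⟨s.image (PolynomialModule.single B 0), le_antisymm ?_ ?_⟩
  · rw [span_le, Finset.coe_image]
    rintro _ ⟨n, hn, rfl⟩ i
    rw [PolynomialModule.coeff_single, Finsupp.single_apply]
    split_ifs with hi
    · subst hi
      change n ∈ U ^ 0 • span S (s : Set M)
      rw [pow_zero, Submodule.one_smul]
      exact subset_span hn
    · exact zero_mem _
  · set W := span (ree U) (s.image (PolynomialModule.single B 0) : Set (PolynomialModule B M))
    have key : ∀ d, ∀ x ∈ U ^ d • span S (s : Set M), PolynomialModule.single B d x ∈ W := by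
      intro d
      induction d with
      | zero =>
        rw [pow_zero, Submodule.one_smul]
        intro x hx
        induction hx using span_induction with
        | mem x hx => exact subset_span (by rw [Finset.coe_image]; exact ⟨x, hx, rfl⟩)
        | zero => rw [PolynomialModule.single_zero]; exact zero_mem _
        | add x y _ _ hx hy => rw [PolynomialModule.single_add]; exact add_mem hx hy
        | smul r x _ hx =>
          rw [← algebraMap_smul B r x, PolynomialModule.single_smul, algebraMap_smul,
            ← algebraMap_smul B[X] r]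
          exact W.smul_mem (algebraMap S (ree U) r) hx
      | succ d ih =>
        rw [← smul_pow_smul]
        intro x hx
        refine smul_induction_on hx (fun u hu y hy => ?_) fun x y hx hy => ?_
        · rw [add_comm, ← PolynomialModule.monomial_smul_single]
          exact W.smul_mem ⟨monomial 1 u, Algebra.subset_adjoin ⟨u, hu, rfl⟩⟩ (ih y hy)
        · rw [PolynomialModule.single_add]
          exact add_mem hx hy
    intro f hf
    have e : f = ∑ i ∈ f.coeff.support, PolynomialModule.single B i (f.coeff i) := by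
      apply PolynomialModule.coeff_injective
      rw [PolynomialModule.coeff_sum]
      exact (Finsupp.sum_single f.coeff).symm
    rw [e]
    exact sum_mem fun i _ => key i _ (hf i)

end rees

theorem pow_smul_le (F : ℕ → Submodule S M) (h2 : ∀ d, U • F d ≤ F (d + 1)) (d j : ℕ) :
    U ^ j • F d ≤ F (d + j) := by
  induction j with
  | zero => rw [pow_zero, Submodule.one_smul]; exact le_rfl
  | succ j ih =>
    rw [← smul_pow_smul]
    exact (smul_mono le_rfl ih).trans (h2 _)

/-- the Rees module is Noetherian. -/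
theorem stab [IsNoetherianRing S] (hU : U.FG) (hN : N.FG) (F : ℕ → Submodule S M)
    (h1 : ∀ d, F d ≤ U ^ d • N) (h2 : ∀ d, U • F d ≤ F (d + 1)) :
    ∃ d₀, ∀ j, F (d₀ + j) = U ^ j • F d₀ := by
  have hR := ree_noeth hU
  let G : ℕ → ℕ → Submodule S M := fun e i => U ^ (i - e) • F (min i e)
  have hG : ∀ e d, U • G e d ≤ G e (d + 1) := by
    intro e d
    rcases le_or_gt e d with h | h
    · simp only [G]
      rw [min_eq_right h, min_eq_right (h.trans (Nat.le_succ d)), smul_pow_smul,
        Nat.sub_add_comm h]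
    · simp only [G]
      rw [min_eq_left h.le, min_eq_left h, Nat.sub_eq_zero_of_le h.le, Nat.sub_eq_zero_of_le h,
        pow_zero, Submodule.one_smul, Submodule.one_smul]
      exact h2 d
  have hle : ∀ e i, G e i ≤ F i := fun e i =>
    (pow_smul_le F h2 _ _).trans (le_of_eq (congrArg F (by omega)))
  have hmono : ∀ e i, G e i ≤ G (e + 1) i := by
    intro e i
    rcases le_or_gt i e with h | h
    · simp only [G]
      rw [min_eq_left h, min_eq_left (h.trans (Nat.le_succ e)), Nat.sub_eq_zero_of_le h,
        Nat.sub_eq_zero_of_le (h.trans (Nat.le_succ e))]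
    · simp only [G]
      rw [min_eq_right h.le, min_eq_right h, show i - e = i - (e + 1) + 1 by omega, pow_succ,
        mul_smul_lat]
      exact smul_mono le_rfl (h2 e)
  set R := rmod U (fun d => U ^ d • N) fun d => (smul_pow_smul U N d).le
  have hF : Module.Finite (ree U) R := Module.Finite.iff_fg.2 (rmod_fg hN)
  have hN' : IsNoetherian (ree U) R :=
    @isNoetherian_of_isNoetherianRing_of_finite (ree U) R _ _ _ hR hF
  let W : ℕ →o Submodule (ree U) R := ⟨fun e => (rmod U (G e) (hG e)).comap R.subtype,
    monotone_nat_of_le_succ fun e f hf i => hmono e i (hf i)⟩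
  obtain ⟨d₀, hd⟩ := monotone_stabilizes_iff_noetherian.2 hN' W
  refine ⟨d₀, fun j => le_antisymm (fun x hx => ?_) (pow_smul_le F h2 _ _)⟩
  have hs : ∀ H : ℕ → Submodule S M, x ∈ H (d₀ + j) →
      ∀ i, (PolynomialModule.single B (d₀ + j) x).coeff i ∈ H i := by
    intro H hH i
    rw [PolynomialModule.coeff_single, Finsupp.single_apply]
    split_ifs with hi
    · exact hi ▸ hH
    · exact zero_mem _
  have hm : (⟨PolynomialModule.single B (d₀ + j) x, hs _ (h1 _ hx)⟩ : R) ∈ W (d₀ + j) := by
    refine hs (G (d₀ + j)) ?_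
    simp only [G]
    rwa [Nat.sub_self, min_self, pow_zero, Submodule.one_smul]
  rw [← hd _ (Nat.le_add_right d₀ j)] at hm
  have := hm (d₀ + j)
  simp only [G, coe_subtype, PolynomialModule.coeff_single, Finsupp.single_eq_same] at this
  rwa [Nat.add_sub_cancel_left, min_eq_right (Nat.le_add_right d₀ j)] at this

theorem sat [IsNoetherianRing S] (hU : U.FG) (hN : N.FG) (F G : ℕ → Submodule S M)
    (h1 : ∀ d, F d ≤ U ^ d • N) (h2 : ∀ d, U • F d ≤ F (d + 1)) (h3 : ∀ d, U • G d ≤ G (d + 1))
    (e : ℕ) (h4 : ∀ d, U ^ e • F d ≤ G (d + e)) : ∀ᶠ d in atTop, F d ≤ G d := by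
  obtain ⟨d₀, hd⟩ := stab hU hN F h1 h2
  refine eventually_atTop.2 ⟨d₀ + e, fun d h => ?_⟩
  obtain ⟨j, rfl⟩ := Nat.exists_eq_add_of_le h
  rw [add_assoc, hd, add_comm e j, ← pow_smul_pow, add_comm j e, ← add_assoc]
  exact (smul_mono le_rfl (h4 d₀)).trans (pow_smul_le G h3 _ _)

theorem Gen.mono (hU : Gen U) {a b : ℕ} (h : a ≤ b) : U ^ a ≤ U ^ b := by
  induction h with
  | refl => exact le_rfl
  | step _ ih =>
    refine ih.trans fun x hx => ?_
    rw [pow_succ, ← mul_one x]
    exact mul_mem_mul hx hU.one

theorem Gen.le_pow (hU : Gen U) {W : Submodule S B} (hW : W.FG) : ∃ d, W ≤ U ^ d := by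
  obtain ⟨s, rfl⟩ := hW
  choose d hd using hU.gen
  exact ⟨s.sup d, span_le.2 fun x hx => hU.mono (Finset.le_sup (f := d) hx) (hd x)⟩

theorem Gen.finiteType (hU : Gen U) : Algebra.FiniteType S B := by
  obtain ⟨s, hs⟩ := hU.fg
  refine ⟨s, eq_top_iff.2 fun b _ => ?_⟩
  obtain ⟨d, hd⟩ := hU.gen b
  have h1 : U ≤ (Algebra.adjoin S (s : Set B)).toSubmodule := by
    rw [← hs]
    exact span_le.2 Algebra.subset_adjoin
  have : ∀ d, U ^ d ≤ (Algebra.adjoin S (s : Set B)).toSubmodule := by
    intro d
    induction d with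
    | zero => rw [pow_zero, Submodule.one_le]; exact one_mem (Algebra.adjoin S (s : Set B))
    | succ d ih =>
      rw [pow_succ]
      exact mul_le.2 fun x hx y hy => mul_mem (s := Algebra.adjoin S (s : Set B)) (ih hx) (h1 hy)
  exact this d hd

theorem Gen.noeth [IsNoetherianRing S] (hU : Gen U) : IsNoetherianRing B :=
  haveI := hU.finiteType
  Algebra.FiniteType.isNoetherianRing S B

end Pool.Agent.Lib.MP_40dc3c_ag.T
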