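import Pool.Agent.Lib.MP_40dc3c_ag.T.CA

/-! Twisting by an invertible lattice is exact in large degree. -/

namespace Pool.Agent.Lib.MP_40dc3c_ag.T

open scoped TensorProduct nonZeroDivisors
open Function Filter Submodule Module

variable {S B M M₁ M₂ M₃ : Type} [CommRing S] [CommRing B] [Algebra S B]
  [AddCommGroup M] [Module B M] [Module S M] [IsScalarTower S B M]
  [AddCommGroup M₁] [Module B M₁] [Module S M₁] [IsScalarTower S B M₁]
  [AddCommGroup M₂] [Module B M₂] [Module S M₂] [IsScalarTower S B M₂]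
  [AddCommGroup M₃] [Module B M₃] [Module S M₃] [IsScalarTower S B M₃] {U D : Submodule S B}

theorem tmul_mem_tens {N : Submodule S M} {x : Ideal.span (D : Set B)} {n : M} (hx : x.1 ∈ D)
    (hn : n ∈ N) : x ⊗ₜ[B] n ∈ tens D N := subset_span ⟨x, n, hx, hn, rfl⟩

theorem tens_le {N : Submodule S M} {T : Submodule S (↥(Ideal.span (D : Set B)) ⊗[B] M)}
    (h : ∀ (x : Ideal.span (D : Set B)) (n : M), x.1 ∈ D → n ∈ N → x ⊗ₜ[B] n ∈ T) :
    tens D N ≤ T := by
  rw [tens, span_le]
  rintro _ ⟨x, n, hx, hn, rfl⟩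
  exact h x n hx hn

theorem tens_eq_map₂ (N : Submodule S M) :
    tens D N = map₂ ((TensorProduct.mk B (Ideal.span (D : Set B)) M).restrictScalars₁₂ S S)
      (D.comap ((Ideal.span (D : Set B)).subtype.restrictScalars S)) N :=
  le_antisymm (tens_le fun _ _ hx hn => apply_mem_map₂ _ hx hn)
    (map₂_le.2 fun _ hx _ hn => tmul_mem_tens hx hn)

theorem tens_fg (hD : D.FG) {N : Submodule S M} (hN : N.FG) : (tens D N).FG := by
  rw [tens_eq_map₂]
  refine FG.map₂ _ (fg_of_fg_map_injective ((Ideal.span (D : Set B)).subtype.restrictScalars S)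
    Subtype.val_injective ?_) hN
  rwa [map_comap_eq_self]
  exact fun x hx => ⟨⟨x, Ideal.subset_span hx⟩, rfl⟩

theorem tens_mono {N N' : Submodule S M} (h : N ≤ N') : tens D N ≤ tens D N' :=
  tens_le fun _ _ hx hn => tmul_mem_tens hx (h hn)

theorem tens_smul (W : Submodule S B) (N : Submodule S M) : W • tens D N = tens D (W • N) := by
  refine le_antisymm (smul_le.2 fun w hw z hz => ?_) (tens_le fun x n hx hn => ?_)
  · refine (tens_le (T := (tens D (W • N)).comap ((LinearMap.lsmul B _ w).restrictScalars S))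
      fun x n hx hn => ?_) hz
    change w • x ⊗ₜ[B] n ∈ tens D (W • N)
    rw [← TensorProduct.tmul_smul]
    exact tmul_mem_tens hx (smul_mem_smul hw hn)
  · refine smul_induction_on hn (fun w hw n hn => ?_) fun a b ha hb => ?_
    · rw [TensorProduct.tmul_smul]
      exact smul_mem_smul hw (tmul_mem_tens hx hn)
    · rw [TensorProduct.tmul_add]
      exact add_mem ha hb

theorem tens_map (f : M₁ →ₗ[B] M₂) (N : Submodule S M₁) :
    (tens D N).map ((f.lTensor _).restrictScalars S) = tens D (N.map (f.restrictScalars S)) := by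
  refine le_antisymm (map_le_iff_le_comap.2 (tens_le fun x n hx hn => ?_)) (tens_le ?_)
  · exact tmul_mem_tens hx (mem_map_of_mem hn)
  · rintro x _ hx ⟨n, hn, rfl⟩
    exact ⟨_, tmul_mem_tens hx hn, rfl⟩

/-- the functional `x ↦ h x / δ` of a good element. -/
theorem Gd.exists_lam {e : ℕ} {h : B} (hh : h ∈ Gd U D e) :
    ∃ (δ : Ideal.span (D : Set B)) (l : Ideal.span (D : Set B) →ₗ[B] B), δ.1 ∈ D ∧ δ.1 ∈ B⁰ ∧
      (∀ x, h • x = l x • δ) ∧ ∀ x, x.1 ∈ D → l x ∈ U ^ e := by
  obtain ⟨δ, hδ, hr, H⟩ := hh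
  have h1 : ∀ x : Ideal.span (D : Set B), ∃ s, h * x.1 = δ * s := by
    rintro ⟨x, hx⟩
    have : Ideal.span (D : Set B) ≤
        Submodule.comap (LinearMap.mulLeft B h) (Ideal.span {δ}) := by
      rw [Ideal.span_le]
      intro y hy
      obtain ⟨s, -, e⟩ := H y hy
      exact Ideal.mem_span_singleton.2 ⟨s, e⟩
    exact Ideal.mem_span_singleton.1 (this hx)
  choose l hl using h1
  have h2 : ∀ {a b : B}, δ * a = δ * b → a = b := fun e => (mul_cancel_left_mem_nonZeroDivisors hr).1 e
  refine ⟨⟨δ, Ideal.subset_span hδ⟩, ⟨⟨l, fun x y => h2 ?_⟩, fun c x => h2 ?_⟩, hδ, hr,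
    fun x => Subtype.ext ?_, fun x hx => ?_⟩
  · rw [mul_add, ← hl, ← hl, ← hl, coe_add, mul_add]
  · rw [RingHom.id_apply, smul_eq_mul, mul_left_comm, ← hl, ← hl, coe_smul, smul_eq_mul,
      mul_left_comm]
  · exact (hl x).trans (mul_comm _ _)
  · obtain ⟨s, hs, e'⟩ := H x hx
    have : l x = s := h2 ((hl x).symm.trans e')
    change l x ∈ U ^ e
    rwa [this]

/-- contraction with a functional. -/
noncomputable def ctr {I : Type} [AddCommGroup I] [Module B I] (l : I →ₗ[B] B) (M : Type)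
    [AddCommGroup M] [Module B M] : I ⊗[B] M →ₗ[B] M :=
  (TensorProduct.lid B M).toLinearMap ∘ₗ l.rTensor M

section ctr

variable {I P Q : Type} [AddCommGroup I] [Module B I] [AddCommGroup P] [Module B P]
  [AddCommGroup Q] [Module B Q] (l : I →ₗ[B] B)

@[simp] theorem ctr_tmul (x : I) (n : P) : ctr l P (x ⊗ₜ n) = l x • n := rfl

theorem ctr_nat (f : P →ₗ[B] Q) (z : I ⊗[B] P) : ctr l Q (f.lTensor I z) = f (ctr l P z) := by
  induction z using TensorProduct.induction_on with
  | zero => simp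
  | tmul x n => simp
  | add a b ha hb => simp [ha, hb]

theorem smul_eq_ctr {h : B} {δ : I} (H : ∀ x, h • x = l x • δ) (z : I ⊗[B] P) :
    h • z = δ ⊗ₜ ctr l P z := by
  induction z using TensorProduct.induction_on with
  | zero => simp
  | tmul x n => rw [ctr_tmul, TensorProduct.smul_tmul', H, TensorProduct.smul_tmul]
  | add a b ha hb => rw [smul_add, ha, hb, map_add, TensorProduct.tmul_add]

end ctr

theorem ctr_mem {W : Submodule S B} {l : Ideal.span (D : Set B) →ₗ[B] B}
    (hl : ∀ x, x.1 ∈ D → l x ∈ W) {N : Submodule S M} {z} (hz : z ∈ tens D N) :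
    ctr l M z ∈ W • N :=
  (tens_le (T := (W • N).comap ((ctr l M).restrictScalars S))
    fun x _ hx hn => smul_mem_smul (hl x hx) hn) hz

/-- a submodule that absorbs the good elements absorbs their span. -/
theorem smul_mem_of_gd {e : ℕ} {z : M} {T : Submodule S M} (H : ∀ h ∈ Gd U D e, h • z ∈ T) {h : B}
    (hh : h ∈ span S (Gd U D e)) : h • z ∈ T :=
  (span_le (p := T.comap ((LinearMap.toSpanSingleton B M z).restrictScalars S))).2 H hh

omit [Module S M₁] [IsScalarTower S B M₁] [Module S M₂] [IsScalarTower S B M₂] in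
theorem Invt.inj (hU : Gen U) (hD : Invt U D) (f : M₁ →ₗ[B] M₂) (hf : Injective f) :
    Injective (f.lTensor (Ideal.span (D : Set B))) := by
  obtain ⟨-, e, he⟩ := hD
  refine (injective_iff_map_eq_zero _).2 fun z hz => ?_
  have h1 : (1 : B) ∈ U ^ e := by simpa using pow_mem_pow U hU.one e
  have := smul_mem_of_gd (z := z) (T := ⊥) (fun h hh => ?_) (he h1)
  · simpa using this
  obtain ⟨δ, l, -, -, H, -⟩ := Gd.exists_lam hh
  have h2 : ctr l M₁ z = 0 := hf (by rw [← ctr_nat, hz, map_zero, map_zero])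
  rw [smul_eq_ctr l H, h2, TensorProduct.tmul_zero]
  exact zero_mem _

theorem smul_succ (U : Submodule S B) (N : Submodule S M) (d : ℕ) :
    U • U ^ d • N = U ^ (d + 1) • N := by
  rw [add_comm, ← pow_smul_pow, pow_one]

/-- the twist commutes with kernels in large degree. -/
theorem tens_inf_ker [IsNoetherianRing S] (hU : U.FG) (hD : Invt U D) (g : M₂ →ₗ[B] M₃)
    {N : Submodule S M₂} (hN : N.FG) :
    ∀ᶠ d in atTop, tens D (U ^ d • N) ⊓ LinearMap.ker ((g.lTensor _).restrictScalars S) =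
      tens D (U ^ d • N ⊓ LinearMap.ker (g.restrictScalars S)) := by
  obtain ⟨hD, e, he⟩ := hD
  have key := sat hU (tens_fg hD hN)
    (fun d => tens D (U ^ d • N) ⊓ LinearMap.ker ((g.lTensor _).restrictScalars S))
    (fun d => tens D (U ^ d • N ⊓ LinearMap.ker (g.restrictScalars S)))
    (fun d => inf_le_left.trans (tens_smul _ _).ge) (fun d => ?_) (fun d => ?_) e fun d => ?_
  · filter_upwards [key] with d hd
    refine le_antisymm hd (le_inf (tens_mono inf_le_left) (tens_le fun x n _ hn => ?_))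
    change x ⊗ₜ[B] g n = 0
    rw [show g n = 0 from hn.2, TensorProduct.tmul_zero]
  · refine smul_le.2 fun u hu z hz => ⟨?_, ?_⟩
    · rw [← smul_succ, ← tens_smul]
      exact smul_mem_smul hu hz.1
    · change g.lTensor _ (u • z) = 0
      rw [map_smul, show g.lTensor _ z = 0 from hz.2, smul_zero]
  · rw [tens_smul]
    refine tens_mono (smul_le.2 fun u hu z hz => ⟨?_, ?_⟩)
    · rw [← smul_succ]
      exact smul_mem_smul hu hz.1
    · change g (u • z) = 0
      rw [map_smul, show g z = 0 from hz.2, smul_zero]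
  · refine smul_le.2 fun u hu z hz => smul_mem_of_gd (fun h hh => ?_) (he hu)
    obtain ⟨δ, l, hδ, -, H, hl⟩ := Gd.exists_lam hh
    rw [smul_eq_ctr l H]
    refine tmul_mem_tens hδ ⟨?_, ?_⟩
    · rw [add_comm, ← pow_smul_pow]
      exact ctr_mem hl hz.1
    · change g _ = 0
      rw [← ctr_nat, show g.lTensor _ z = 0 from hz.2, map_zero]

theorem tens_exact [IsNoetherianRing S] (hU : Gen U) (hD : Invt U D) (f : M₁ →ₗ[B] M₂)
    (g : M₂ →ₗ[B] M₃) (hf : Injective f) (hfg : Exact f g) {N : Submodule S M₂} (hN : N.FG) :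
    ∀ᶠ d in atTop, cs (tens D (U ^ d • N)) =
      cs (tens D ((U ^ d • N).comap (f.restrictScalars S))) +
        cs (tens D ((U ^ d • N).map (g.restrictScalars S))) := by
  filter_upwards [tens_inf_ker hU.fg hD g hN] with d hd
  rw [cs_ker (tens_fg hD.1 (fg_smul (hU.fg.pow d) hN)) ((g.lTensor _).restrictScalars S), hd,
    tens_map, ← cs_map (N := tens D ((U ^ d • N).comap (f.restrictScalars S)))
      ((f.lTensor _).restrictScalars S)
      fun x _ h => (injective_iff_map_eq_zero _).1 (hD.inj hU f hf) x h,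
    tens_map, map_comap_eq, inf_comm]
  congr 4
  ext x
  exact hfg x

theorem tens_ideal (hU : Gen U) (hD : Invt U D) (f : M →ₗ[B] B) (hf : Injective f)
    (N : Submodule S M) : cs (tens D N) = cs (D * N.map (f.restrictScalars S)) := by
  let μ : ↥(Ideal.span (D : Set B)) ⊗[B] M →ₗ[B] B :=
    (Ideal.span (D : Set B)).subtype ∘ₗ (TensorProduct.rid B _).toLinearMap ∘ₗ f.lTensor _
  have hμ : Injective μ :=
    Subtype.val_injective.comp ((TensorProduct.rid B _).injective.comp (hD.inj hU f hf))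
  have e : ∀ x n, μ (x ⊗ₜ n) = x.1 * f n := fun x n => mul_comm _ _
  rw [← cs_map (N := tens D N) (μ.restrictScalars S)
    fun x _ h => (injective_iff_map_eq_zero _).1 hμ x h]
  congr 1
  refine le_antisymm (map_le_iff_le_comap.2 (tens_le fun x n hx hn => ?_)) (mul_le.2 ?_)
  · change μ _ ∈ D * N.map (f.restrictScalars S)
    rw [e]
    exact mul_mem_mul hx (mem_map_of_mem hn)
  · rintro x hx _ ⟨n, hn, rfl⟩
    exact ⟨_, tmul_mem_tens (x := ⟨x, Ideal.subset_span hx⟩) hx hn, e _ _⟩

end Pool.Agent.Lib.MP_40dc3c_ag.T
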