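import Pool.Agent.Lib.MP_40dc3c_ag.T.CDefs

/-! Invertible lattices: the general lemmas. -/

namespace Pool.Agent.Lib.MP_40dc3c_ag.T

open scoped TensorProduct nonZeroDivisors
open Function Filter Submodule Module

variable {S B B' ι : Type} [CommRing S] [CommRing B] [Algebra S B] [CommRing B'] [Algebra S B']
  {U D D' U₁ U₂ D₁ D₂ : Submodule S B}

theorem ce_pm {a b : B} {i j n : ℕ} (ha : a ∈ U ^ i) (hb : b ∈ U ^ j) (h : i + j = n) :
    a * b ∈ U ^ n := by
  rw [← h, pow_add]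
  exact mul_mem_mul ha hb

theorem ce_p1 {a : B} (ha : a ∈ U) : a ∈ U ^ 1 := by rwa [pow_one]

theorem ce_pp {a : B} {i : ℕ} (ha : a ∈ U ^ i) (j : ℕ) : a ^ j ∈ U ^ (i * j) := by
  rw [pow_mul]
  exact pow_mem_pow _ ha j

theorem Gd.mul {e j : ℕ} {h s : B} (hh : h ∈ Gd U D e) (hs : s ∈ U ^ j) :
    s * h ∈ Gd U D (e + j) := by
  obtain ⟨δ, h1, h2, h3⟩ := hh
  refine ⟨δ, h1, h2, fun x hx => ?_⟩
  obtain ⟨t, ht, h4⟩ := h3 x hx
  exact ⟨t * s, ce_pm ht hs rfl, by rw [mul_assoc, h4]; ring⟩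

theorem Gd.pow_mul (U D : Submodule S B) (e j : ℕ) :
    U ^ j * span S (Gd U D e) ≤ span S (Gd U D (e + j)) := by
  refine mul_le.2 fun s hs h hh => ?_
  induction hh using span_induction with
  | mem x hx => exact subset_span (Gd.mul hx hs)
  | zero => simp
  | add x y _ _ hx hy => rw [mul_add]; exact add_mem hx hy
  | smul a x _ hx => rw [mul_smul_comm]; exact smul_mem _ _ hx

theorem ce_gm {s h : B} {e j n : ℕ} (hs : s ∈ U ^ j) (hh : h ∈ span S (Gd U D e))
    (hn : e + j = n) : s * h ∈ span S (Gd U D n) :=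
  hn ▸ Gd.pow_mul U D e j (mul_mem_mul hs hh)

theorem ce_sub_pow {u v : B} {n : ℕ} (hu : u ∈ U ^ n) (hv : v ∈ U ^ n)
    (h : u - v ∈ span S (Gd U D n)) (N : ℕ) : u ^ N - v ^ N ∈ span S (Gd U D (n * N)) := by
  induction N with
  | zero => simp
  | succ N ih =>
    rw [show u ^ (N + 1) - v ^ (N + 1) = u ^ N * (u - v) + v * (u ^ N - v ^ N) by ring]
    exact add_mem (ce_gm (ce_pp hu N) h (by ring)) (ce_gm hv ih (by ring))

theorem ce_geom_mem {u v : B} (hu : u ∈ U) (hv : v ∈ U) (n : ℕ) :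
    ∑ i ∈ Finset.range (n + 1), u ^ i * v ^ (n + 1 - 1 - i) ∈ U ^ n :=
  sum_mem fun i hi => ce_pm (pow_mem_pow _ hu _) (pow_mem_pow _ hv _) (by
    have := Finset.mem_range.1 hi
    omega)

theorem ce_geom {u v : B} (hu : u ∈ U) (hv : v ∈ U) (h : u - v ∈ span S (Gd U D 1)) (n : ℕ) :
    ((n + 1 : ℕ) : S) • u ^ n - ∑ i ∈ Finset.range (n + 1), u ^ i * v ^ (n + 1 - 1 - i) ∈
      span S (Gd U D n) := by
  have e : ((n + 1 : ℕ) : S) • u ^ n = ∑ _i ∈ Finset.range (n + 1), u ^ n := by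
    rw [Finset.sum_const, Finset.card_range, Nat.cast_smul_eq_nsmul]
  rw [e, ← Finset.sum_sub_distrib]
  refine sum_mem fun i hi => ?_
  have hi' := Finset.mem_range.1 hi
  have e2 : u ^ n = u ^ i * u ^ (n + 1 - 1 - i) := by
    rw [← pow_add]
    congr 1
    omega
  rw [e2, ← mul_sub]
  exact ce_gm (pow_mem_pow _ hu _) (ce_sub_pow (ce_p1 hu) (ce_p1 hv) h _) (by omega)

theorem ce_pow_le {e : ℕ} (h : U ^ e ≤ span S (Gd U D e)) (j : ℕ) :
    U ^ (e + j) ≤ span S (Gd U D (e + j)) := by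
  rw [pow_add, mul_comm]
  exact (mul_le_mul_right h _).trans (Gd.pow_mul U D e j)

theorem Invt.mul (h₁ : Invt U₁ D₁) (h₂ : Invt U₂ D₂) : Invt (U₁ * U₂) (D₁ * D₂) := by
  obtain ⟨f₁, e₁, h₁⟩ := h₁
  obtain ⟨f₂, e₂, h₂⟩ := h₂
  refine ⟨f₁.mul f₂, e₁ + e₂, ?_⟩
  have h3 := ce_pow_le h₂ e₁
  rw [add_comm] at h3
  rw [mul_pow]
  refine (mul_le_mul' (ce_pow_le h₁ e₂) h3).trans ?_
  rw [span_mul_span]
  refine span_mono ?_
  rintro _ ⟨a, ⟨δ, h1, h2, h4⟩, b, ⟨δ', h1', h2', h4'⟩, rfl⟩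
  refine ⟨δ * δ', mul_mem_mul h1 h1', mul_mem h2 h2', fun x hx => ?_⟩
  refine Submodule.mul_induction_on hx (fun x hx y hy => ?_) ?_
  · obtain ⟨s, hs, e⟩ := h4 x hx
    obtain ⟨t, ht, e'⟩ := h4' y hy
    refine ⟨s * t, by rw [mul_pow]; exact mul_mem_mul hs ht, ?_⟩
    linear_combination (b * y) * e + (δ * s) * e'
  · rintro x y ⟨s, hs, e⟩ ⟨t, ht, e'⟩
    exact ⟨s + t, add_mem hs ht, by linear_combination e + e'⟩

theorem Invt.prod (s : Finset ι) {V E : ι → Submodule S B} (h : ∀ i ∈ s, Invt (V i) (E i)) :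
    Invt (∏ i ∈ s, V i) (∏ i ∈ s, E i) := by
  classical
  induction s using Finset.induction_on with
  | empty =>
    rw [Finset.prod_empty, Finset.prod_empty]
    refine ⟨by rw [one_eq_span]; exact fg_span_singleton _, 0, ?_⟩
    rw [pow_zero, Submodule.one_le]
    exact subset_span ⟨1, Submodule.one_le.1 le_rfl, one_mem _, fun x hx => ⟨x, by rwa [pow_zero], rfl⟩⟩
  | insert a s ha ih =>
    rw [Finset.prod_insert ha, Finset.prod_insert ha]
    exact (h a (Finset.mem_insert_self _ _)).mul (ih fun i hi => h i (Finset.mem_insert_of_mem hi))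

theorem invt_span [Finite ι] {x : ι → B} (hx : ∀ i, x i ∈ B⁰) :
    Invt (span S (Set.range x)) (span S (Set.range x)) := by
  refine ⟨fg_span (Set.finite_range x), 1, ?_⟩
  rw [pow_one]
  refine span_mono ?_
  rintro _ ⟨i, rfl⟩
  exact ⟨x i, subset_span ⟨i, rfl⟩, hx i, fun y hy => ⟨y, ce_p1 hy, rfl⟩⟩

theorem ce_base_pow {S' : Type} [CommRing S'] [Algebra S S'] [Algebra S' B']
    [IsScalarTower S S' B'] (f : B →ₐ[S] B') (U : Submodule S B) (e : ℕ) :
    span S' (f '' U) ^ e = span S' (f '' (U ^ e : Submodule S B)) := by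
  induction e with
  | zero =>
    rw [pow_zero, pow_zero]
    refine le_antisymm (Submodule.one_le.2 (subset_span ⟨1, Submodule.one_le.1 le_rfl, map_one f⟩)) (span_le.2 ?_)
    rintro _ ⟨x, hx, rfl⟩
    obtain ⟨r, rfl⟩ := mem_one.1 hx
    exact mem_one.2 ⟨algebraMap S S' r, by rw [f.commutes, ← IsScalarTower.algebraMap_apply]⟩
  | succ e ih =>
    rw [pow_succ, pow_succ, ih]
    refine le_antisymm ?_ (span_le.2 ?_)
    · rw [span_mul_span]
      refine span_mono ?_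
      rintro _ ⟨_, ⟨a, ha, rfl⟩, _, ⟨b, hb, rfl⟩, rfl⟩
      exact ⟨a * b, mul_mem_mul ha hb, map_mul f a b⟩
    · rintro _ ⟨x, hx, rfl⟩
      refine Submodule.mul_induction_on hx (fun a ha b hb => ?_) fun a b ha hb => ?_
      · rw [map_mul]
        exact mul_mem_mul (subset_span ⟨a, ha, rfl⟩) (subset_span ⟨b, hb, rfl⟩)
      · rw [map_add]
        exact add_mem ha hb

theorem ce_base_span {S' : Type} [CommRing S'] [Algebra S S'] [Algebra S' B']
    [IsScalarTower S S' B'] (f : B →ₐ[S] B') (t : Set B) {x : B} (hx : x ∈ span S t) :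
    f x ∈ span S' (f '' t) := by
  induction hx using span_induction with
  | mem x hx => exact subset_span ⟨x, hx, rfl⟩
  | zero => simp
  | add x y _ _ hx hy => rw [map_add]; exact add_mem hx hy
  | smul a x _ hx => rw [map_smul]; exact smul_of_tower_mem _ _ hx

theorem Invt.base {S' : Type} [CommRing S'] [Algebra S S'] [Algebra S' B'] [IsScalarTower S S' B']
    (h : Invt U D) (f : B →ₐ[S] B') (hf : ∀ b ∈ B⁰, f b ∈ B'⁰) :
    Invt (span S' (f '' U)) (span S' (f '' D)) := by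
  obtain ⟨hD, e, h⟩ := h
  obtain ⟨t, ht, rfl⟩ := fg_def.1 hD
  refine ⟨fg_def.2 ⟨f '' t, ht.image _, le_antisymm (span_mono (Set.image_mono subset_span))
    (span_le.2 ?_)⟩, e, ?_⟩
  · rintro _ ⟨x, hx, rfl⟩
    exact ce_base_span f t hx
  rw [ce_base_pow]
  refine span_le.2 ?_
  rintro _ ⟨x, hx, rfl⟩
  refine span_mono ?_ (ce_base_span (S' := S') f _ (h hx))
  rintro _ ⟨a, ⟨δ, h1, h2, h3⟩, rfl⟩
  refine ⟨f δ, subset_span ⟨δ, h1, rfl⟩, hf δ h2, fun y hy => ?_⟩
  induction hy using span_induction with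
  | mem y hy =>
    obtain ⟨z, hz, rfl⟩ := hy
    obtain ⟨s, hs, e'⟩ := h3 z hz
    exact ⟨f s, by rw [ce_base_pow]; exact subset_span ⟨s, hs, rfl⟩, by
      rw [← map_mul, e', map_mul]⟩
  | zero => exact ⟨0, zero_mem _, by simp⟩
  | add y z _ _ hy hz =>
    obtain ⟨s, hs, e1⟩ := hy
    obtain ⟨s', hs', e2⟩ := hz
    exact ⟨s + s', add_mem hs hs', by linear_combination e1 + e2⟩
  | smul c y _ hy =>
    obtain ⟨s, hs, e1⟩ := hy
    exact ⟨c • s, smul_mem _ _ hs, by rw [mul_smul_comm, mul_smul_comm, e1]⟩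

theorem Invt.map (h : Invt U D) (f : B →ₐ[S] B') (hf : ∀ b ∈ B⁰, f b ∈ B'⁰) :
    Invt (U.map f.toLinearMap) (D.map f.toLinearMap) := by
  have := h.base (S' := S) f hf
  rwa [show f '' U = U.map f.toLinearMap from rfl, show f '' D = D.map f.toLinearMap from rfl,
    span_eq, span_eq] at this

theorem Invt.equiv (h : Invt U D) (g : B ≃ₐ[S] B') :
    Invt (U.map g.toLinearMap) (D.map g.toLinearMap) :=
  h.map g.toAlgHom fun b hb => mem_nonZeroDivisors_iff_right.2 fun x hx => by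
    obtain ⟨y, rfl⟩ := g.surjective x
    have h1 : y * b = 0 := g.injective (by rw [map_mul, map_zero]; exact hx)
    rw [mem_nonZeroDivisors_iff_right.1 hb y h1, map_zero]

theorem Invt.scale (h : Invt U D) {a b : B} (ha : a ∈ B⁰) (hb : b ∈ B⁰)
    (e : D'.map (LinearMap.mulLeft S a) = D.map (LinearMap.mulLeft S b)) : Invt U D' := by
  obtain ⟨hD, n, h⟩ := h
  have hi : Injective (LinearMap.mulLeft S a) := fun x y hxy =>
    (mul_cancel_left_mem_nonZeroDivisors ha).1 hxy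
  refine ⟨fg_of_fg_map_injective _ hi (e ▸ hD.map _), n, h.trans (span_mono ?_)⟩
  rintro c ⟨δ, h1, h2, h3⟩
  obtain ⟨δ', h4, h5⟩ : b * δ ∈ D'.map (LinearMap.mulLeft S a) := e ▸ ⟨δ, h1, rfl⟩
  replace h5 : a * δ' = b * δ := h5
  refine ⟨δ', h4, (mul_mem_nonZeroDivisors.1 (h5 ▸ mul_mem hb h2 : a * δ' ∈ B⁰)).2,
    fun x hx => ?_⟩
  obtain ⟨y, hy, h6⟩ : a * x ∈ D.map (LinearMap.mulLeft S b) := e ▸ ⟨x, hx, rfl⟩
  replace h6 : b * y = a * x := h6
  obtain ⟨s, hs, h7⟩ := h3 y hy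
  exact ⟨s, hs, (mul_cancel_left_mem_nonZeroDivisors ha).1 (by
    linear_combination b * h7 - c * h6 - s * h5)⟩

theorem ce_sup {A C : Submodule S B} (hA : A ≤ U) (hC : C ≤ U) {n m : ℕ}
    (h1 : A ^ n ≤ span S (Gd U D n)) (h2 : C ^ m ≤ span S (Gd U D m)) :
    (A ⊔ C) ^ (n + m) ≤ span S (Gd U D (n + m)) := by
  have key : ∀ i j, i + j = n + m → A ^ i * C ^ j ≤ span S (Gd U D (n + m)) := by
    intro i j hij
    rcases le_total n i with h | h
    · obtain ⟨c, rfl⟩ := Nat.exists_eq_add_of_le h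
      rw [pow_add, mul_assoc, mul_comm, ← hij, add_assoc]
      refine le_trans (mul_le_mul' ?_ h1) (Gd.pow_mul U D n (c + j))
      rw [pow_add]
      exact mul_le_mul' (pow_le_pow_left' hA c) (pow_le_pow_left' hC j)
    · obtain ⟨c, rfl⟩ := Nat.exists_eq_add_of_le (show m ≤ j by omega)
      rw [pow_add, mul_comm (C ^ m), ← mul_assoc, show n + m = m + (i + c) by omega]
      refine le_trans (mul_le_mul' ?_ h2) (Gd.pow_mul U D m (i + c))
      rw [pow_add]
      exact mul_le_mul' (pow_le_pow_left' hA i) (pow_le_pow_left' hC c)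
  have ind : ∀ c i j, i + j + c = n + m →
      A ^ i * C ^ j * (A ⊔ C) ^ c ≤ span S (Gd U D (n + m)) := by
    intro c
    induction c with
    | zero => intro i j h; rw [pow_zero, mul_one]; exact key i j h
    | succ c ih =>
      intro i j h
      rw [pow_succ, ← mul_assoc, Submodule.mul_sup, sup_le_iff]
      exact ⟨le_of_eq_of_le (by ring) (ih (i + 1) j (by omega)),
        le_of_eq_of_le (by ring) (ih i (j + 1) (by omega))⟩
  simpa using ind (n + m) 0 0 (by omega)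

theorem invt_of_pow [Finite ι] {x : ι → B} (hU : U = span S (Set.range x)) (hD : D.FG)
    (h : ∀ i, ∃ N, x i ^ N ∈ span S (Gd U D N)) : Invt U D := by
  classical
  have := Fintype.ofFinite ι
  have key : ∀ s : Finset ι, ∃ e, span S (x '' s) ^ e ≤ span S (Gd U D e) := by
    intro s
    induction s using Finset.induction_on with
    | empty => exact ⟨1, by simp⟩
    | insert a s _ ih =>
      obtain ⟨m, hm⟩ := ih
      obtain ⟨n, hn⟩ := h a
      refine ⟨n + m, ?_⟩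
      rw [Finset.coe_insert, Set.image_insert_eq, span_insert]
      refine ce_sup ?_ ?_ ?_ hm
      · rw [hU]
        exact span_mono (Set.singleton_subset_iff.2 ⟨a, rfl⟩)
      · rw [hU]
        exact span_mono (Set.image_subset_range _ _)
      · rw [span_pow, Set.singleton_pow]
        exact span_le.2 (Set.singleton_subset_iff.2 hn)
  obtain ⟨e, he⟩ := key Finset.univ
  rw [Finset.coe_univ, Set.image_univ, ← hU] at he
  exact ⟨hD, e, he⟩

end Pool.Agent.Lib.MP_40dc3c_ag.T
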