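import Pool.Agent.Lib.MP_40dc3c_ag.T.CA
import Pool.Agent.Lib.MP_40dc3c_ag.T.CEa

/-! Invertible lattices. -/

namespace Pool.Agent.Lib.MP_40dc3c_ag.T

open scoped TensorProduct nonZeroDivisors
open Function Filter Submodule Module

variable {S B B' ι : Type} [CommRing S] [CommRing B] [Algebra S B] [CommRing B'] [Algebra S B']
  {U D D' U₁ U₂ D₁ D₂ : Submodule S B}

variable {k : Type} [Field k] [Algebra k B] {x y : Fin 3 → B}

theorem ce_bil (s t : Fin 3) : x s * y t ∈ bil k x y :=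
  mul_mem_mul (subset_span ⟨s, rfl⟩) (subset_span ⟨t, rfl⟩)

theorem ce_mnr (s t : Fin 3) : x s * y t - x t * y s ∈ mnr k x y := subset_span ⟨(s, t), rfl⟩

theorem mnr_le_bil : mnr k x y ≤ bil k x y := by
  refine span_le.2 ?_
  rintro _ ⟨s, rfl⟩
  exact sub_mem (ce_bil _ _) (ce_bil _ _)

theorem bil_fg : (bil k x y).FG := (fg_span (Set.finite_range x)).mul (fg_span (Set.finite_range y))

theorem mnr_fg : (mnr k x y).FG := fg_span (Set.finite_range _)

theorem ce_mnr_gd [IsDomain B] {h : B} (hh : h ∈ mnr k x y) :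
    h ∈ span k (Gd (bil k x y) (mnr k x y) 1) := by
  rcases eq_or_ne h 0 with rfl | h0
  · exact zero_mem _
  · exact subset_span ⟨h, hh, mem_nonZeroDivisors_of_ne_zero h0, fun z hz =>
      ⟨z, ce_p1 (mnr_le_bil hz), rfl⟩⟩

theorem mnr_gd [IsDomain B] (e : ℕ) :
    mnr k x y * bil k x y ^ e ≤ span k (Gd (bil k x y) (mnr k x y) (e + 1)) :=
  mul_le.2 fun a ha b hb => by
    rw [mul_comm]
    exact ce_gm hb (ce_mnr_gd ha) (add_comm _ _)

/-- a syzygy of two minors in the chart `s` gives a good element. -/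
theorem gd_rel [IsDomain B] {s t r : Fin 3} (h1 : s ≠ t) (h2 : s ≠ r) (h3 : t ≠ r) {e : ℕ} {a b : B}
    (ha : a ∈ bil k x y ^ e) (hb : b ∈ bil k x y ^ e) (hne : x r * y s - x s * y r ≠ 0)
    (h : (x t * y s - x s * y t) * a + (x r * y s - x s * y r) * b = 0) :
    x s * y s * a ∈ Gd (bil k x y) (mnr k x y) (e + 1) := by
  refine ⟨_, ce_mnr r s, mem_nonZeroDivisors_of_ne_zero hne, fun z hz => ?_⟩
  have m : ∀ i j {c : B}, c ∈ bil k x y ^ e → x i * y j * c ∈ bil k x y ^ (e + 1) :=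
    fun i j _ hc => ce_pm (ce_p1 (ce_bil i j)) hc (add_comm _ _)
  induction hz using span_induction with
  | mem z hz =>
    obtain ⟨⟨i, j⟩, rfl⟩ := hz
    have hi : i = s ∨ i = t ∨ i = r := by omega
    have hj : j = s ∨ j = t ∨ j = r := by omega
    dsimp only
    rcases hi with rfl | rfl | rfl <;> rcases hj with rfl | rfl | rfl
    · exact ⟨0, zero_mem _, by ring⟩
    · exact ⟨_, m i i hb, by linear_combination (-(x i * y i)) * h⟩
    · exact ⟨_, neg_mem (m i i ha), by ring⟩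
    · exact ⟨_, neg_mem (m j j hb), by linear_combination (x j * y j) * h⟩
    · exact ⟨0, zero_mem _, by ring⟩
    · exact ⟨_, neg_mem (add_mem (m i s ha) (m j s hb)), by linear_combination (x j * y s) * h⟩
    · exact ⟨_, m j j ha, by ring⟩
    · exact ⟨_, add_mem (m j s ha) (m i s hb), by linear_combination (-(x i * y s)) * h⟩
    · exact ⟨0, zero_mem _, by ring⟩
  | zero => exact ⟨0, zero_mem _, by simp⟩
  | add y z _ _ hy hz =>
    obtain ⟨s, hs, e1⟩ := hy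
    obtain ⟨s', hs', e2⟩ := hz
    exact ⟨s + s', add_mem hs hs', by linear_combination e1 + e2⟩
  | smul c y _ hy =>
    obtain ⟨s, hs, e1⟩ := hy
    exact ⟨c • s, smul_mem _ _ hs, by rw [mul_smul_comm, mul_smul_comm, e1]⟩

theorem invt_mnr [IsDomain B]
    (h : ∀ s, ∃ N, (x s * y s) ^ N ∈ span k (Gd (bil k x y) (mnr k x y) N)) :
    Invt (bil k x y) (mnr k x y) := by
  refine invt_of_pow (x := fun v : Fin 3 × Fin 3 => x v.1 * y v.2) ?_ mnr_fg fun v => ?_
  · rw [bil, span_mul_span]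
    congr 1
    ext z
    exact ⟨by rintro ⟨_, ⟨s, rfl⟩, _, ⟨t, rfl⟩, rfl⟩; exact ⟨(s, t), rfl⟩,
      by rintro ⟨v, rfl⟩; exact ⟨_, ⟨v.1, rfl⟩, _, ⟨v.2, rfl⟩, rfl⟩⟩
  · obtain ⟨s, t⟩ := v
    obtain ⟨N, hN⟩ := h s
    refine ⟨2 * N, ?_⟩
    have h1 : (x s * y t) ^ 2 - x t * y t * (x s * y s) ∈
        span k (Gd (bil k x y) (mnr k x y) 2) := by
      rw [show (x s * y t) ^ 2 - x t * y t * (x s * y s) = x s * y t * (x s * y t - x t * y s) by
        ring]
      exact ce_gm (ce_p1 (ce_bil s t)) (ce_mnr_gd (ce_mnr s t)) rfl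
    have h2 := ce_sub_pow (pow_mem_pow _ (ce_bil s t) 2)
      (ce_pm (ce_p1 (ce_bil t t)) (ce_p1 (ce_bil s s)) rfl) h1 N
    have h3 := ce_gm (pow_mem_pow _ (ce_bil t t) N) hN (two_mul N).symm
    rw [← mul_pow] at h3
    simpa [pow_mul] using add_mem h2 h3

theorem ce_mul_geom (u v : B) (n : ℕ) :
    (u - v) * ∑ i ∈ Finset.range n, u ^ i * v ^ (n - 1 - i) = u ^ n - v ^ n := by
  rw [mul_comm, geom_sum₂_mul]

/-- the diagonal of a Fermat curve is an invertible ideal. -/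
theorem invt_fer [IsDomain B] {m : ℕ} (hm : (m : k) ≠ 0) (hx : ∑ s, x s ^ m = 0)
    (hy : ∑ s, y s ^ m = 0) (hne : ∀ s t, s ≠ t → x s * y t - x t * y s ≠ 0) :
    Invt (bil k x y) (mnr k x y) := by
  obtain ⟨n, rfl⟩ : ∃ n, m = n + 1 := Nat.exists_eq_succ_of_ne_zero (by rintro rfl; simp at hm)
  have key : ∀ s t r : Fin 3, s ≠ t → s ≠ r → t ≠ r →
      x s ^ (n + 1) + x t ^ (n + 1) + x r ^ (n + 1) = 0 →
      y s ^ (n + 1) + y t ^ (n + 1) + y r ^ (n + 1) = 0 →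
      ((n + 1 : ℕ) : k) • (x s * y s * (x t * y s) ^ (n + 1)) ∈
        span k (Gd (bil k x y) (mnr k x y) (n + 2)) := by
    intro s t r h1 h2 h3 h4 h5
    have ha := ce_geom_mem (ce_bil (k := k) (x := x) (y := y) t s) (ce_bil s t) n
    have hb := ce_geom_mem (ce_bil (k := k) (x := x) (y := y) r s) (ce_bil s r) n
    have h6 := gd_rel h1 h2 h3 ha hb (hne r s h2.symm) (by
      rw [ce_mul_geom, ce_mul_geom]
      simp only [mul_pow]
      linear_combination y s ^ (n + 1) * h4 - x s ^ (n + 1) * h5)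
    have h7 := ce_gm (n := n + 2) (ce_p1 (ce_bil t s)) (subset_span h6) rfl
    have h8 := ce_gm (n := n + 2) (ce_pm (ce_p1 (ce_bil s s)) (ce_p1 (ce_bil t s)) rfl)
      (ce_geom (ce_bil t s) (ce_bil s t) (ce_mnr_gd (k := k) (x := x) (y := y) (ce_mnr t s)) n) rfl
    refine (congrArg (· ∈ _) ?_).mpr (add_mem h7 h8)
    simp only [Algebra.smul_def]
    ring
  have key2 : ∀ s t r : Fin 3, s ≠ t → s ≠ r → t ≠ r →
      x s ^ (n + 1) + x t ^ (n + 1) + x r ^ (n + 1) = 0 →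
      y s ^ (n + 1) + y t ^ (n + 1) + y r ^ (n + 1) = 0 →
      (x s * y s) ^ (n + 2) ∈ span k (Gd (bil k x y) (mnr k x y) (n + 2)) := by
    intro s t r h1 h2 h3 h4 h5
    have h6 := neg_mem (add_mem (key s t r h1 h2 h3 h4 h5) (key s r t h2 h1 h3.symm
      (by linear_combination h4) (by linear_combination h5)))
    rw [← smul_add, ← smul_neg, smul_mem_iff _ hm] at h6
    refine (congrArg (· ∈ _) ?_).mpr h6
    simp only [mul_pow]
    linear_combination (x s * y s * y s ^ (n + 1)) * h4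
  rw [Fin.sum_univ_three] at hx hy
  refine invt_mnr fun s => ⟨n + 2, ?_⟩
  fin_cases s
  · exact key2 0 1 2 (by decide) (by decide) (by decide) hx hy
  · exact key2 1 0 2 (by decide) (by decide) (by decide) (by linear_combination hx)
      (by linear_combination hy)
  · exact key2 2 0 1 (by decide) (by decide) (by decide) (by linear_combination hx)
      (by linear_combination hy)

/-- the diagonal of the curve `y ^ Q - y = x ^ (Q - 1)` is an invertible ideal. -/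
theorem invt_eas [IsDomain B] (p : ℕ) [Fact p.Prime] [CharP k p] {f d : ℕ} (hd : d + 1 = p ^ f)
    (h2 : 2 ≤ d) (hx2 : x 2 = 1) (hy2 : y 2 = 1) (hx : x 1 ^ p ^ f - x 1 = x 0 ^ d)
    (hy : y 1 ^ p ^ f - y 1 = y 0 ^ d) (hne : ∀ s t, s ≠ t → x s * y t - x t * y s ≠ 0) :
    Invt (bil k x y) (mnr k x y) := by
  have : CharP B p := charP_of_injective_algebraMap (algebraMap k B).injective p
  have hs : ∀ u v : B, (u - v) ^ (d + 1) = u ^ (d + 1) - v ^ (d + 1) := fun u v => by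
    rw [hd, sub_pow_char_pow]
  rw [← hd] at hx hy
  obtain ⟨n, rfl⟩ : ∃ n, d = n + 1 + 1 := ⟨d - 2, by omega⟩
  have b1 : ∀ s t, x s * y t ∈ bil k x y ^ 1 := fun s t => ce_p1 (ce_bil s t)
  have bp : ∀ s t j, (x s * y t) ^ j ∈ bil k x y ^ j := fun s t => pow_mem_pow _ (ce_bil s t)
  have mp : ∀ s t j, (x s * y t - x t * y s) ^ j ∈ bil k x y ^ j := fun s t =>
    pow_mem_pow _ (mnr_le_bil (ce_mnr s t))
  have mg : ∀ s t, (x s * y t - x t * y s) ^ (n + 1 + 1) ∈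
      span k (Gd (bil k x y) (mnr k x y) (n + 1 + 1)) := fun s t => by
    rw [pow_succ]
    exact ce_gm (mp s t _) (ce_mnr_gd (ce_mnr s t)) (by omega)
  have c2 : (x 2 * y 2) ^ (n + 3) ∈ span k (Gd (bil k x y) (mnr k x y) (n + 3)) := by
    have h1 := gd_rel (s := 2) (t := 1) (r := 0) (by decide) (by decide) (by decide)
      (sub_mem (bp 2 2 (n + 1 + 1)) (mp 1 2 _))
      (ce_pm (ce_geom_mem (ce_bil 0 2) (ce_bil 2 0) (n + 1)) (b1 2 2) rfl) (hne 0 2 (by decide)) (by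
        rw [← mul_assoc, ce_mul_geom]
        simp only [hx2, hy2, one_mul, mul_one, one_pow]
        linear_combination hy - hx - hs (x 1) (y 1))
    refine (congrArg (· ∈ _) ?_).mpr
      (add_mem (subset_span h1) (ce_gm (n := n + 3) (b1 2 2) (mg 1 2) rfl))
    ring
  have c0 : (x 0 * y 0) ^ ((n + 3) * 2) ∈ span k (Gd (bil k x y) (mnr k x y) ((n + 3) * 2)) := by
    have ha := sub_mem (mp 1 0 (n + 1 + 1)) (bp 2 0 (n + 1 + 1))
    have hg := ce_geom_mem (ce_bil (k := k) (x := x) (y := y) 2 0) (ce_bil 0 2) (n + 1)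
    have hb := neg_mem (add_mem (ce_pm hg (b1 0 1) rfl) (bp 0 0 (n + 1 + 1)))
    have e := ce_mul_geom (x 2 * y 0) (x 0 * y 2) (n + 1 + 1)
    have hr : (x 1 * y 0 - x 0 * y 1) * ((x 1 * y 0 - x 0 * y 1) ^ (n + 1 + 1) -
        (x 2 * y 0) ^ (n + 1 + 1)) + (x 2 * y 0 - x 0 * y 2) * -((∑ i ∈ Finset.range (n + 1 + 1),
          (x 2 * y 0) ^ i * (x 0 * y 2) ^ (n + 1 + 1 - 1 - i)) * (x 0 * y 1) +
            (x 0 * y 0) ^ (n + 1 + 1)) = 0 := by
      rw [mul_neg, mul_add, ← mul_assoc, e]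
      have h3 := hs (x 1 * y 0) (x 0 * y 1)
      simp only [hx2, hy2, one_mul, mul_one, mul_pow] at h3 ⊢
      linear_combination h3 + y 0 ^ (n + 1 + 1 + 1) * hx - x 0 ^ (n + 1 + 1 + 1) * hy
    have h1 := gd_rel (s := 0) (t := 1) (r := 2) (by decide) (by decide) (by decide) ha hb
      (hne 2 0 (by decide)) hr
    have h1' := gd_rel (s := 0) (t := 2) (r := 1) (by decide) (by decide) (by decide) hb ha
      (hne 1 0 (by decide)) (by rw [add_comm]; exact hr)
    have h3 : x 0 * y 0 * (x 2 * y 0) ^ (n + 1 + 1) ∈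
        span k (Gd (bil k x y) (mnr k x y) (n + 3)) := by
      refine (congrArg (· ∈ _) ?_).mpr
        (sub_mem (ce_gm (n := n + 3) (b1 0 0) (mg 1 0) rfl) (subset_span h1))
      ring
    have h4 := ce_gm (n := n + 3) (ce_pm (b1 0 0) (b1 0 1) rfl) (ce_geom (ce_bil 2 0) (ce_bil 0 2)
      (ce_mnr_gd (k := k) (x := x) (y := y) (ce_mnr 2 0)) (n + 1)) rfl
    have h5 : -(((n + 1 + 1 : ℕ) : k) • (x 0 * y 0 * (x 0 * y 1) * (x 2 * y 0) ^ (n + 1))) ∈
        bil k x y ^ (n + 3) :=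
      neg_mem (smul_mem _ _ (ce_pm (ce_pm (b1 0 0) (b1 0 1) rfl) (bp 2 0 _) (by omega)))
    have h6 := ce_sub_pow (D := mnr k x y) (bp 0 0 (n + 3)) h5 (by
      refine (congrArg (· ∈ _) ?_).mpr (sub_mem h4 (subset_span h1'))
      simp only [Algebra.smul_def]
      ring) 2
    have h7 := smul_mem _ (((n + 1 + 1 : ℕ) : k) ^ 2) (ce_gm (n := (n + 3) * 2)
      (ce_pm (ce_pm (b1 0 0) (bp 0 1 2) rfl) (bp 2 0 n) rfl) h3 (by omega))
    refine (congrArg (· ∈ _) ?_).mpr (add_mem h6 h7)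
    simp only [Algebra.smul_def, map_pow]
    ring
  refine invt_mnr fun s => ?_
  fin_cases s
  · exact ⟨_, c0⟩
  · have hw : ∀ z : Fin 3 → B, z 1 * z 2 ^ (n + 1) + z 0 ^ (n + 1 + 1) ∈
        span k (Set.range z) ^ (n + 1 + 1) := fun z => by
      have hz : ∀ i, z i ∈ span k (Set.range z) := fun i => subset_span ⟨i, rfl⟩
      exact add_mem (ce_pm (ce_p1 (hz 1)) (Submodule.pow_mem_pow _ (hz 2) (n + 1)) (by omega))
        (Submodule.pow_mem_pow _ (hz 0) _)
    have h1 := mul_mem_mul (hw x) (hw y)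
    rw [← mul_pow] at h1
    refine ⟨(n + 3) * (n + 3), (congrArg (· ∈ _) ?_).mpr
      (ce_gm (ce_pp (U := bil k x y) h1 (n + 3)) c2 (by ring))⟩
    rw [pow_mul, ← mul_pow]
    congr 1
    simp only [hx2, hy2, one_pow, mul_one, ← hx, ← hy]
    change (x 1 * y 1) ^ (n + 3) = _
    ring
  · exact ⟨_, c2⟩

end Pool.Agent.Lib.MP_40dc3c_ag.T
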