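import Pool.Agent.Lib.MP_40dc3c_ag.T.CB
import Pool.Agent.Lib.MP_40dc3c_ag.T.CE

/-! An automorphism that is trivial at infinity does not change the class at infinity. -/

namespace Pool.Agent.Lib.MP_40dc3c_ag.T

open scoped TensorProduct nonZeroDivisors
open Function Filter Submodule Module

variable {S B M : Type} [CommRing S] [CommRing B] [Algebra S B]
  [AddCommGroup M] [Module B M] [Module S M] [IsScalarTower S B M] {U D D' V : Submodule S B}

theorem tens_tmul {N : Submodule S M} {x : Ideal.span (D : Set B)} {n : M} (hx : x.1 ∈ D)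
    (hn : n ∈ N) : x ⊗ₜ[B] n ∈ tens D N := subset_span ⟨x, n, hx, hn, rfl⟩

theorem cc_pow {N : Submodule S M} {s : B} {n : M} {a b c : ℕ} (hs : s ∈ U ^ a)
    (hn : n ∈ U ^ b • N) (h : a + b = c) : s • n ∈ U ^ c • N := by
  rw [← h, ← pow_smul_pow]
  exact smul_mem_smul hs hn

theorem cc_succ (U : Submodule S B) (N : Submodule S M) (d : ℕ) :
    U • U ^ d • N = U ^ (d + 1) • N := by
  rw [add_comm, ← pow_smul_pow, pow_one]

/-- the correspondence between the twists by `D` and by `D'`. -/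
noncomputable def cor (D D' : Submodule S B) (g : B ≃ₐ[S] B) (N : Submodule S M) :
    Submodule S ((↥(Ideal.span (D : Set B)) ⊗[B] M) × (↥(Ideal.span (D' : Set B)) ⊗[B] M)) :=
  span S {z | ∃ (x : Ideal.span (D : Set B)) (x' : Ideal.span (D' : Set B)) (n : M), x.1 ∈ D ∧
    x'.1 ∈ D' ∧ x'.1 = g x.1 ∧ n ∈ N ∧ z = (x ⊗ₜ n, x' ⊗ₜ n)}

omit [IsScalarTower S B M] in
theorem cor_swap {g : B ≃ₐ[S] B} {N : Submodule S M} {z} (hz : z ∈ cor D D' g N) :
    z.swap ∈ cor D' D g.symm N := by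
  induction hz using span_induction with
  | mem z hz =>
    obtain ⟨x, x', n, h1, h2, h3, h4, rfl⟩ := hz
    exact subset_span ⟨x', x, n, h2, h1, by rw [h3, g.symm_apply_apply], h4, rfl⟩
  | zero => exact zero_mem _
  | add a b _ _ ha hb => exact add_mem ha hb
  | smul r a _ ha => exact smul_mem _ r ha

theorem cor_le {g : B ≃ₐ[S] B} {N : Submodule S M} :
    cor D D' g N ≤ (tens D N).prod (tens D' N) := by
  refine span_le.2 ?_
  rintro _ ⟨x, x', n, h1, h2, -, h4, rfl⟩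
  exact ⟨tens_tmul h1 h4, tens_tmul h2 h4⟩

theorem cor_fst {g : B ≃ₐ[S] B} (h : ∀ x ∈ D, g x ∈ D') (N : Submodule S M) :
    (cor D D' g N).map (LinearMap.fst S _ _) = tens D N := by
  refine le_antisymm (map_le_iff_le_comap.2 fun z hz => (cor_le hz).1) (span_le.2 ?_)
  rintro _ ⟨x, n, h1, h2, rfl⟩
  exact ⟨(x ⊗ₜ n, (⟨g x.1, Ideal.subset_span (h _ h1)⟩ : Ideal.span (D' : Set B)) ⊗ₜ n),
    subset_span ⟨x, _, n, h1, h _ h1, rfl, h2, rfl⟩, rfl⟩

theorem cor_snd {g : B ≃ₐ[S] B} (h : ∀ x ∈ D', g.symm x ∈ D) (N : Submodule S M) :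
    (cor D D' g N).map (LinearMap.snd S _ _) = tens D' N := by
  refine le_antisymm (map_le_iff_le_comap.2 fun z hz => (cor_le hz).2) (span_le.2 ?_)
  rintro _ ⟨x, n, h1, h2, rfl⟩
  exact ⟨((⟨g.symm x.1, Ideal.subset_span (h _ h1)⟩ : Ideal.span (D : Set B)) ⊗ₜ n, x ⊗ₜ n),
    subset_span ⟨_, x, n, h _ h1, h1, (g.apply_symm_apply _).symm, h2, rfl⟩, rfl⟩

theorem cor_smul {g : B ≃ₐ[S] B} {N : Submodule S M} {u : B} (hu : u ∈ U) {z}
    (hz : z ∈ cor D D' g N) : u • z ∈ cor D D' g (U • N) := by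
  induction hz using span_induction with
  | mem z hz =>
    obtain ⟨x, x', n, h1, h2, h3, h4, rfl⟩ := hz
    refine subset_span ⟨x, x', u • n, h1, h2, h3, smul_mem_smul hu h4, ?_⟩
    rw [TensorProduct.tmul_smul, TensorProduct.tmul_smul]
    rfl
  | zero => rw [smul_zero]; exact zero_mem _
  | add a b _ _ ha hb => rw [smul_add]; exact add_mem ha hb
  | smul r a _ ha => rw [smul_comm]; exact smul_mem _ r ha

theorem cc_twist {g : B ≃ₐ[S] B} {c : Sˣ} (hg : ∀ u ∈ U, g u ∈ U)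
    (hc : ∀ u ∈ U, (c : S) • g u - u ∈ V) {N₁ N₂ : Submodule S M} (hV : V • N₂ ≤ U • N₁) (e : ℕ) :
    ∀ s ∈ U ^ e, ∀ d, ∀ n ∈ U ^ d • N₂, ((c : S) ^ e • g s - s) • n ∈ U ^ (d + e) • N₁ := by
  induction e with
  | zero =>
    intro s hs d n _
    rw [pow_zero] at hs
    obtain ⟨r, rfl⟩ := mem_one.1 hs
    rw [pow_zero, one_smul, g.commutes, sub_self, zero_smul]
    exact zero_mem _
  | succ e ih =>
    intro s hs d n hn
    rw [pow_succ] at hs
    refine Submodule.mul_induction_on hs (fun a ha u hu => ?_) fun a b ha hb => ?_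
    · have e1 : (c : S) ^ (e + 1) • g (a * u) - a * u =
          ((c : S) ^ e • g a - a) * ((c : S) • g u) + a * ((c : S) • g u - u) := by
        simp only [map_mul, Algebra.smul_def, map_pow]
        ring
      rw [e1, add_smul, mul_smul, mul_smul]
      refine add_mem ?_ (cc_pow ha (b := d + 1) ?_ (by omega))
      · have := ih a ha (d + 1) (((c : S) • g u) • n)
          (by rw [← cc_succ]; exact smul_mem_smul (smul_mem _ _ (hg u hu)) hn)
        rwa [show d + 1 + e = d + (e + 1) by omega] at this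
      · refine smul_induction_on hn (fun r hr m hm => ?_) fun x y hx hy => ?_
        · rw [smul_comm]
          refine cc_pow hr (b := 1) ?_ rfl
          rw [pow_one]
          exact hV (smul_mem_smul (hc u hu) hm)
        · rw [smul_add]
          exact add_mem hx hy
    · rw [map_add, smul_add, add_sub_add_comm, add_smul]
      exact add_mem ha hb

theorem cor_gd {g : B ≃ₐ[S] B} {c : Sˣ} (hg : ∀ u ∈ U, g u ∈ U)
    (hc : ∀ u ∈ U, (c : S) • g u - u ∈ V) (hD : ∀ x ∈ D, g x ∈ D') {N₁ N₂ : Submodule S M}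
    (hV : V • N₂ ≤ U • N₁) {e d : ℕ} {h : B} (hh : h ∈ Gd U D e) {z}
    (hz : z ∈ cor D D' g (U ^ d • N₂)) (h1 : z.1 ∈ tens D (U ^ d • N₁)) :
    g h • z.2 ∈ tens D' (U ^ (d + e) • N₁) := by
  obtain ⟨δ, l, hδ, -, hl, hlU⟩ := Gd.exists_lam hh
  let lam : ↥(Ideal.span (D : Set B)) ⊗[B] M →ₗ[B] M :=
    TensorProduct.lift ((LinearMap.lsmul B M).comp l)
  have hlam : ∀ x n, lam (x ⊗ₜ n) = l x • n := fun x n => rfl
  let δ' : Ideal.span (D' : Set B) := ⟨g δ.1, Ideal.subset_span (hD _ hδ)⟩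
  have k1 : ∀ y ∈ tens D (U ^ d • N₁), lam y ∈ U ^ (d + e) • N₁ := by
    intro y hy
    induction hy using span_induction with
    | mem y hy =>
      obtain ⟨x, n, a1, a2, rfl⟩ := hy
      rw [hlam]
      exact cc_pow (hlU x a1) a2 (add_comm _ _)
    | zero => rw [map_zero]; exact zero_mem _
    | add a b _ _ ha hb => rw [map_add]; exact add_mem ha hb
    | smul r a _ ha => rw [lam.map_smul_of_tower]; exact smul_mem _ r ha
  have k2 : ∃ m : M, g h • z.2 = δ' ⊗ₜ m ∧ (c : S) ^ e • m - lam z.1 ∈ U ^ (d + e) • N₁ := by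
    clear h1
    induction hz using span_induction with
    | mem z hz =>
      obtain ⟨x, x', n, a1, -, a3, a4, rfl⟩ := hz
      refine ⟨g (l x) • n, ?_, ?_⟩
      · have : g h • x' = g (l x) • δ' := Subtype.ext (by
          have := congrArg (fun t : Ideal.span (D : Set B) => g t.1) (hl x)
          simpa [a3, δ'] using this)
        rw [TensorProduct.smul_tmul', this, TensorProduct.smul_tmul]
      · rw [hlam, ← smul_assoc, ← sub_smul]
        exact cc_twist hg hc hV e _ (hlU x a1) d n a4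
    | zero => exact ⟨0, by simp, by simp⟩
    | add a b _ _ ha hb =>
      obtain ⟨m, a1, a2⟩ := ha
      obtain ⟨m', b1, b2⟩ := hb
      refine ⟨m + m', ?_, ?_⟩
      · rw [Prod.snd_add, smul_add, a1, b1, TensorProduct.tmul_add]
      · rw [Prod.fst_add, map_add, smul_add, add_sub_add_comm]
        exact add_mem a2 b2
    | smul r a _ ha =>
      obtain ⟨m, a1, a2⟩ := ha
      refine ⟨r • m, ?_, ?_⟩
      · rw [Prod.smul_snd, smul_comm, a1, ← algebraMap_smul B r m, TensorProduct.tmul_smul,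
          algebraMap_smul]
      · rw [Prod.smul_fst, lam.map_smul_of_tower, smul_comm, ← smul_sub]
        exact smul_mem _ r a2
  obtain ⟨m, a1, a2⟩ := k2
  rw [a1]
  refine tens_tmul (hD _ hδ) ?_
  have a3 : (c : S) ^ e • m ∈ U ^ (d + e) • N₁ := by
    simpa using add_mem a2 (k1 _ h1)
  exact (smul_mem_iff_of_isUnit _ (c.isUnit.pow e)).1 a3

theorem cor_half [IsNoetherianRing S] (hU : Gen U) (hD : Invt U D) (hD' : D'.FG) {g : B ≃ₐ[S] B}
    {c : Sˣ} (hg : U.map g.toLinearMap = U) (hc : ∀ u ∈ U, (c : S) • g u - u ∈ V)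
    (hDD : ∀ x ∈ D, g x ∈ D') {N₁ N₂ : Submodule S M} (h2 : N₂.FG) (hV : V • N₂ ≤ U • N₁) :
    ∀ᶠ d in atTop, ∀ z ∈ cor D D' g (U ^ d • N₂), z.1 ∈ tens D (U ^ d • N₁) →
      z.2 ∈ tens D' (U ^ d • N₁) := by
  obtain ⟨e, he⟩ := hD.2
  have hg' : ∀ u ∈ U, g u ∈ U := fun u hu => hg.le ⟨u, hu, rfl⟩
  have hp : (U ^ e).map g.toLinearMap = U ^ e := by
    have := Submodule.map_pow U (g : B →ₐ[S] B) e
    exact this.trans (congrArg (· ^ e) hg)
  have := sat hU.fg (tens_fg hD' h2)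
    (fun d => (cor D D' g (U ^ d • N₂) ⊓ (tens D (U ^ d • N₁)).comap (LinearMap.fst S _ _)).map
      (LinearMap.snd S _ _)) (fun d => tens D' (U ^ d • N₁)) ?_ ?_ ?_ e ?_
  · exact this.mono fun d hd z hz h1 => hd ⟨z, ⟨hz, h1⟩, rfl⟩
  · rintro d _ ⟨z, ⟨hz, -⟩, rfl⟩
    rw [tens_smul]
    exact (cor_le hz).2
  · intro d
    rw [smul_le]
    rintro u hu _ ⟨z, ⟨hz, h1⟩, rfl⟩
    refine ⟨u • z, ⟨?_, ?_⟩, rfl⟩
    · rw [← cc_succ]
      exact cor_smul hu hz
    · rw [← cc_succ, ← tens_smul]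
      exact smul_mem_smul hu h1
  · intro d
    rw [tens_smul, cc_succ]
  · intro d
    rw [smul_le]
    rintro s hs _ ⟨z, ⟨hz, h1⟩, rfl⟩
    obtain ⟨t, ht, rfl⟩ := hp.ge hs
    have ht' := he ht
    clear ht hs
    induction ht' using span_induction with
    | mem t ht => exact cor_gd hg' hc hDD hV ht hz h1
    | zero => rw [map_zero, zero_smul]; exact zero_mem _
    | add a b _ _ ha hb => rw [map_add, add_smul]; exact add_mem ha hb
    | smul r a _ ha => rw [map_smul, smul_assoc]; exact smul_mem _ r ha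

theorem tens_twist [IsNoetherianRing S] (hU : Gen U) (hD : Invt U D) (g : B ≃ₐ[S] B) (c : Sˣ)
    (hg : U.map g.toLinearMap = U) (hc : ∀ u ∈ U, (c : S) • g u - u ∈ V) {N₁ N₂ : Submodule S M}
    (h2 : N₂.FG) (h : N₁ ≤ N₂) (hV : V • N₂ ≤ U • N₁) :
    ∀ᶠ d in atTop, cs (tens (D.map g.toLinearMap) (U ^ d • N₂)) -
      cs (tens (D.map g.toLinearMap) (U ^ d • N₁)) =
        cs (tens D (U ^ d • N₂)) - cs (tens D (U ^ d • N₁)) := by
  have hD' : Invt U (D.map g.toLinearMap) := by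
    have := hD.equiv g
    rwa [hg] at this
  have a1 : ∀ x ∈ D, g x ∈ D.map g.toLinearMap := fun x hx => ⟨x, hx, rfl⟩
  have a2 : ∀ x ∈ D.map g.toLinearMap, g.symm x ∈ D := by
    rintro _ ⟨x, hx, rfl⟩
    simpa using hx
  have a3 : ∀ u ∈ U, g.symm u ∈ U := fun u hu => by
    obtain ⟨v, hv, rfl⟩ := hg.ge hu
    simpa using hv
  have hg' : U.map g.symm.toLinearMap = U := le_antisymm (by rintro _ ⟨u, hu, rfl⟩; exact a3 u hu)
    fun u hu => ⟨g u, hg.le ⟨u, hu, rfl⟩, by simp⟩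
  have hc' : ∀ u ∈ U, ((c⁻¹ : Sˣ) : S) • g.symm u - u ∈ V := fun u hu => by
    have := smul_mem _ (-((c⁻¹ : Sˣ) : S)) (hc _ (a3 u hu))
    rw [g.apply_symm_apply, smul_sub, smul_smul, neg_mul, Units.inv_mul, neg_smul, neg_smul,
      one_smul, sub_neg_eq_add, add_comm, ← sub_eq_add_neg] at this
    exact this
  filter_upwards [cor_half hU hD hD'.1 hg hc a1 h2 hV, cor_half hU hD' hD.1 hg' hc' a2 h2 hV]
    with d h3 h4
  have hf : (U ^ d • N₂).FG := fg_smul (hU.fg.pow d) h2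
  have hm : U ^ d • N₁ ≤ U ^ d • N₂ := smul_mono le_rfl h
  have := cs_goursat (G := cor D (D.map g.toLinearMap) g (U ^ d • N₂))
    (((tens_fg hD.1 hf).prod (tens_fg hD'.1 hf)).of_le cor_le)
    (L := tens D (U ^ d • N₁)) (L' := tens (D.map g.toLinearMap) (U ^ d • N₁))
    (by rw [cor_fst a1]; exact tens_mono hm) (by rw [cor_snd a2]; exact tens_mono hm)
    fun z hz => ⟨h3 z hz, h4 _ (cor_swap hz)⟩
  rw [cor_fst a1, cor_snd a2] at this
  exact this.symm

end Pool.Agent.Lib.MP_40dc3c_ag.T
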