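import Pool.Agent.Lib.MP_40dc3c_ag.T.CC
import Pool.Agent.Lib.MP_40dc3c_ag.T.KDim

/-! The functional of a system. -/

namespace Pool.Agent.Lib.MP_40dc3c_ag.T

open scoped TensorProduct nonZeroDivisors
open Function Filter Submodule Module

section lat

variable {S B α M M₁ M₂ M₃ : Type} [CommRing S] [CommRing B] [Algebra S B] [Fintype α]
  [AddCommGroup M] [Module B M] [Module S M] [IsScalarTower S B M]
  [AddCommGroup M₁] [Module B M₁] [Module S M₁] [IsScalarTower S B M₁]
  [AddCommGroup M₂] [Module B M₂] [Module S M₂] [IsScalarTower S B M₂]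
  [AddCommGroup M₃] [Module B M₃] [Module S M₃] [IsScalarTower S B M₃]
  {U : Submodule S B} {D : α → Submodule S B} {w : α → ℂ}

/-- the weighted sum of the classes of the twisted lattices. -/
noncomputable def cdT (U : Submodule S B) (D : α → Submodule S B) (w : α → ℂ) (N : Submodule S M)
    (d : ℕ) : K S := ∑ a, w a • cs (tens (D a) (U ^ d • N))

theorem cdT_pow (N : Submodule S M) (e d : ℕ) : cdT U D w (U ^ e • N) d = cdT U D w N (d + e) := by
  simp only [cdT, pow_smul_pow]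

theorem cd_mul_smul (V W : Submodule S B) (N : Submodule S M) : (V * W) • N = V • W • N :=
  Submodule.smul_assoc V W N

theorem cd_smul_sup (V : Submodule S B) (N N' : Submodule S M) : V • (N ⊔ N') = V • N ⊔ V • N' :=
  le_antisymm (smul_le.2 fun r hr x hx => by
    obtain ⟨y, hy, z, hz, rfl⟩ := mem_sup.1 hx
    rw [smul_add]
    exact add_mem_sup (smul_mem_smul hr hy) (smul_mem_smul hr hz))
    (sup_le (smul_mono_right V le_sup_left) (smul_mono_right V le_sup_right))

theorem cd_map_smul (V : Submodule S B) (N : Submodule S M₁) (f : M₁ →ₗ[B] M₂) :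
    (V • N).map (f.restrictScalars S) = V • N.map (f.restrictScalars S) := by
  refine le_antisymm (map_le_iff_le_comap.2 (smul_le.2 fun r hr x hx => ?_))
    (smul_le.2 ?_)
  · rw [Submodule.mem_comap, LinearMap.restrictScalars_apply, map_smul]
    exact smul_mem_smul hr ⟨x, hx, rfl⟩
  · rintro r hr _ ⟨x, hx, rfl⟩
    exact ⟨r • x, smul_mem_smul hr hx, f.map_smul r x⟩

theorem cd_le_smul (hU : Gen U) (N : Submodule S M) : N ≤ U • N := fun x hx => by
  simpa using smul_mem_smul hU.one hx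

theorem cd_pow_succ (e : ℕ) (N : Submodule S M) : U ^ (e + 1) • N = U • U ^ e • N := by
  rw [add_comm, ← pow_smul_pow, pow_one]

theorem cd_one_smul (N : Submodule S M) : U ^ 0 • N = N := by
  rw [pow_zero]
  refine le_antisymm (smul_le.2 fun r hr x hx => ?_) fun x hx => ?_
  · obtain ⟨c, rfl⟩ := mem_one.1 hr
    rw [algebraMap_smul]
    exact N.smul_mem c hx
  · simpa using smul_mem_smul (mem_one.2 ⟨1, map_one _⟩ : (1 : B) ∈ (1 : Submodule S B)) hx

/-- every element lies in some step of the filtration. -/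
def CdSp (U : Submodule S B) (N : Submodule S M) : Prop :=
  N.FG ∧ ∀ x : M, ∃ d, x ∈ U ^ d • N

theorem cd_mono (hU : Gen U) (N : Submodule S M) {a b : ℕ} (h : a ≤ b) : U ^ a • N ≤ U ^ b • N :=
  smul_mono_left (hU.mono h)

theorem CdSp.le (hU : Gen U) {N N' : Submodule S M} (h : CdSp U N) (h' : N'.FG) :
    ∃ e, N' ≤ U ^ e • N := by
  refine fg_induction (motive := fun N' _ => ∃ e, N' ≤ U ^ e • N) (fun x => ?_) ?_ N' h'
  · obtain ⟨d, hd⟩ := h.2 x
    exact ⟨d, (span_singleton_le_iff_mem _ _).2 hd⟩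
  · rintro _ _ - - ⟨a, ha⟩ ⟨b, hb⟩
    exact ⟨max a b, sup_le (ha.trans (cd_mono hU N (le_max_left _ _)))
      (hb.trans (cd_mono hU N (le_max_right _ _)))⟩

theorem cd_exists (hU : Gen U) (M : Type) [AddCommGroup M] [Module B M] [Module S M]
    [IsScalarTower S B M] [Module.Finite B M] : ∃ N : Submodule S M, CdSp U N := by
  obtain ⟨s, hs⟩ := Module.Finite.fg_top (R := B) (M := M)
  refine ⟨span S s, fg_span s.finite_toSet, fun x => ?_⟩
  have hx : x ∈ span B (s : Set M) := hs ▸ mem_top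
  induction hx using span_induction with
  | mem x hx => exact ⟨0, by rw [cd_one_smul]; exact subset_span hx⟩
  | zero => exact ⟨0, zero_mem _⟩
  | add x y _ _ hx hy =>
    obtain ⟨a, ha⟩ := hx
    obtain ⟨b, hb⟩ := hy
    exact ⟨max a b,
      add_mem (cd_mono hU _ (le_max_left _ _) ha) (cd_mono hU _ (le_max_right _ _) hb)⟩
  | smul b x _ hx =>
    obtain ⟨a, ha⟩ := hx
    obtain ⟨e, he⟩ := hU.gen b
    exact ⟨e + a, by rw [← pow_smul_pow]; exact smul_mem_smul he ha⟩

theorem CdSp.map {N : Submodule S M₂} (h : CdSp U N) (g : M₂ →ₗ[B] M₃) (hg : Surjective g) :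
    CdSp U (N.map (g.restrictScalars S)) := by
  refine ⟨h.1.map _, fun x => ?_⟩
  obtain ⟨y, rfl⟩ := hg x
  obtain ⟨d, hd⟩ := h.2 y
  exact ⟨d, cd_map_smul (U ^ d) N g ▸ ⟨y, hd, rfl⟩⟩

variable [IsNoetherianRing S]

theorem cd_fg_le {N N' : Submodule S M} (h : N'.FG) (hl : N ≤ N') : N.FG := by
  have := Module.Finite.iff_fg.2 h
  have e : N = (N.comap N'.subtype).map N'.subtype := by
    rw [map_comap_subtype, inf_eq_right.2 hl]
  rw [e]
  exact (IsNoetherian.noetherian _).map _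

/-- the filtration that is induced on a submodule is generated in one degree. -/
theorem CdSp.comap (hU : Gen U) {N : Submodule S M₂} (h : CdSp U N) (f : M₁ →ₗ[B] M₂)
    (hf : Injective f) : ∃ (d₀ : ℕ) (N' : Submodule S M₁), CdSp U N' ∧
      ∀ j, (U ^ (j + d₀) • N).comap (f.restrictScalars S) = U ^ j • N' := by
  have hi : Injective (Submodule.map (f.restrictScalars S)) := map_injective_of_injective hf
  obtain ⟨d₀, h0⟩ := stab hU.fg h.1
    (fun d => ((U ^ d • N).comap (f.restrictScalars S)).map (f.restrictScalars S))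
    (fun d => map_comap_le _ _) fun d => by
      rw [← cd_map_smul]
      refine map_mono (smul_le.2 fun r hr x hx => ?_)
      rw [Submodule.mem_comap, LinearMap.restrictScalars_apply, map_smul, cd_pow_succ]
      exact smul_mem_smul hr hx
  have h1 : ∀ j, (U ^ (j + d₀) • N).comap (f.restrictScalars S) =
      U ^ j • (U ^ d₀ • N).comap (f.restrictScalars S) := fun j => hi (by
    rw [cd_map_smul, add_comm]; exact h0 j)
  refine ⟨d₀, _, ⟨fg_of_fg_map_injective (f.restrictScalars S) hf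
    (cd_fg_le (fg_smul (hU.fg.pow d₀) h.1) (map_comap_le _ _)), fun x => ?_⟩, h1⟩
  obtain ⟨d, hd⟩ := h.2 (f x)
  exact ⟨d, h1 d ▸ cd_mono hU N (Nat.le_add_right d d₀) hd⟩

theorem cd_chain (hU : Gen U) (hD : ∀ a, Invt U (D a)) (l : List (Submodule S B))
    (hl : ∀ V ∈ l, V ≤ U ∧ ∃ (g : B ≃ₐ[S] B) (c : Sˣ) (σ : Equiv.Perm α) (ζ : ℂ), ζ ≠ 1 ∧
      U.map g.toLinearMap = U ∧ (∀ u ∈ U, (c : S) • g u - u ∈ V) ∧
      ∀ a, D (σ a) = (D a).map g.toLinearMap ∧ w (σ a) = ζ * w a) {N F : Submodule S M}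
    (hN : N.FG) (hF : F.FG) :
    ∀ᶠ d in atTop, cdT U D w (U ^ l.length • N ⊔ F) d = cdT U D w (l.prod • N ⊔ F) d := by
  induction l generalizing N with
  | nil => exact .of_forall fun d => by rw [List.length_nil, pow_zero, List.prod_nil]
  | cons V l ih =>
    obtain ⟨hV, g, c, σ, ζ, hζ, hg, hc, hσ⟩ := hl V List.mem_cons_self
    have hl' := fun W hW => hl W (List.mem_cons_of_mem V hW)
    have hp : l.prod ≤ U ^ l.length := by
      clear ih hl
      induction l with
      | nil => simp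
      | cons W l ih =>
        rw [List.prod_cons, List.length_cons, pow_succ']
        exact mul_le_mul' (hl' W List.mem_cons_self).1
          (ih fun W' hW' => hl' W' (List.mem_cons_of_mem W hW'))
    have h2 : (l.prod • U • N ⊔ F).FG :=
      (fg_smul (cd_fg_le (hU.fg.pow _) hp) (fg_smul hU.fg hN)).sup hF
    have h1 : (V * l.prod) • N ⊔ F ≤ l.prod • U • N ⊔ F := sup_le_sup_right (by
      rw [mul_comm, cd_mul_smul]
      exact smul_mono_right _ (smul_mono_left hV)) _
    have h3 : V • (l.prod • U • N ⊔ F) ≤ U • ((V * l.prod) • N ⊔ F) := by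
      rw [cd_smul_sup, cd_smul_sup, ← cd_mul_smul, ← cd_mul_smul, ← cd_mul_smul, mul_comm U]
      exact sup_le_sup_left (smul_mono_left hV) _
    filter_upwards [ih hl' (fg_smul hU.fg hN),
      eventually_all.2 fun a => tens_twist hU (hD a) g c hg hc h2 h1 h3] with d e1 e2
    rw [List.length_cons, pow_succ, cd_mul_smul, e1, List.prod_cons, ← sub_eq_zero, cdT, cdT,
      ← Finset.sum_sub_distrib]
    simp only [← smul_sub]
    obtain ⟨δ, hδ⟩ : ∃ δ : α → K S, ∀ a, cs (tens (D a) (U ^ d • (l.prod • U • N ⊔ F))) -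
      cs (tens (D a) (U ^ d • ((V * l.prod) • N ⊔ F))) = δ a := ⟨_, fun _ => rfl⟩
    have e3 : ∀ a, δ (σ a) = δ a := fun a => by rw [← hδ, ← hδ, (hσ a).1, e2]
    simp only [hδ]
    have e4 : ∑ a, w a • δ a = ζ • ∑ a, w a • δ a := by
      rw [Finset.smul_sum, ← Equiv.sum_comp σ]
      exact Finset.sum_congr rfl fun a _ => by rw [e3, (hσ a).2, mul_smul]
    have e5 : (ζ - 1) • ∑ a, w a • δ a = 0 := by rw [sub_smul, one_smul, ← e4, sub_self]
    exact (smul_eq_zero.1 e5).resolve_left (sub_ne_zero.2 hζ)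

theorem cd_shift {p : ℕ → Prop} (r : ℕ) : (∀ᶠ d in atTop, p (d + r)) ↔ ∀ᶠ d in atTop, p d := by
  rw [← eventually_map (m := fun d => d + r), map_add_atTop_eq_nat]

theorem Sys.near (h : Sys U D w) {N₁ N₂ : Submodule S M} (h1 : N₁.FG) (hl : N₁ ≤ N₂)
    (hu : N₂ ≤ U • N₁) : ∀ᶠ d in atTop, cdT U D w N₂ d = cdT U D w N₁ d := by
  obtain ⟨l, hp, hl'⟩ := h.bd
  have := cd_chain h.gen h.inv l hl' (cd_fg_le (fg_smul h.gen.fg h1) hu)
    (fg_smul (h.gen.fg.pow l.length) h1)
  rw [sup_eq_left.2 (smul_mono_right _ hl), sup_eq_right.2 ((smul_mono_right _ hu).trans (by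
    rw [← cd_mul_smul]; exact smul_mono_left hp))] at this
  simp only [cdT_pow] at this
  exact (cd_shift (p := fun d => cdT U D w N₂ d = cdT U D w N₁ d) _).1 this

theorem Sys.up (h : Sys U D w) {N₁ N₂ : Submodule S M} (h1 : N₁.FG) (h2 : N₂.FG) (e : ℕ) :
    ∀ᶠ d in atTop, cdT U D w (U ^ e • N₁ ⊔ N₂) d = cdT U D w (N₁ ⊔ N₂) d := by
  induction e with
  | zero => exact .of_forall fun d => by rw [cd_one_smul]
  | succ e ih =>
    filter_upwards [ih, h.near ((fg_smul (h.gen.fg.pow e) h1).sup h2)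
      (sup_le_sup_right (cd_mono h.gen N₁ e.le_succ) N₂) (by
        rw [cd_smul_sup, ← cd_pow_succ]
        exact sup_le_sup_left (cd_le_smul h.gen N₂) _)] with d a b using b.trans a

theorem Sys.indep (h : Sys U D w) {N₁ N₂ : Submodule S M} (h1 : CdSp U N₁) (h2 : CdSp U N₂) :
    ∀ᶠ d in atTop, cdT U D w N₁ d = cdT U D w N₂ d := by
  have key : ∀ {N₁ N₂ : Submodule S M}, CdSp U N₁ → N₂.FG →
      ∀ᶠ d in atTop, cdT U D w N₁ d = cdT U D w (N₁ ⊔ N₂) d := fun {N₁ N₂} h1 h2 => by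
    obtain ⟨e, he⟩ := h1.le h.gen h2
    filter_upwards [h.up h1.1 h2 e, h.up h1.1 fg_bot e] with d a b
    rw [sup_eq_left.2 he] at a
    rw [sup_bot_eq, sup_bot_eq] at b
    exact b.symm.trans a
  filter_upwards [key h1 h2.1, key h2 h1.1] with d a b
  rw [a, b, sup_comm]

theorem Sys.const (h : Sys U D w) {N : Submodule S M} (h1 : N.FG) :
    ∃ v, ∀ᶠ d in atTop, cdT U D w N d = v := by
  have := h.up h1 fg_bot 1
  simp only [sup_bot_eq, cdT_pow] at this
  obtain ⟨d₀, h0⟩ := eventually_atTop.1 this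
  exact ⟨cdT U D w N d₀, eventually_atTop.2 ⟨d₀, fun d hd =>
    Nat.le_induction rfl (fun n hn ih => (h0 n hn).trans ih) d hd⟩⟩

theorem Sys.val (h : Sys U D w) (M : Type) [AddCommGroup M] [Module B M] [Module S M]
    [IsScalarTower S B M] [Module.Finite B M] :
    ∃ v, ∀ N : Submodule S M, CdSp U N → ∀ᶠ d in atTop, cdT U D w N d = v := by
  obtain ⟨N, hN⟩ := cd_exists h.gen M
  obtain ⟨v, hv⟩ := h.const hN.1
  exact ⟨v, fun N' hN' => (h.indep hN' hN).mp (hv.mono fun d a b => b.trans a)⟩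

theorem Sys.exact (h : Sys U D w) (f : M₁ →ₗ[B] M₂) (g : M₂ →ₗ[B] M₃) (hf : Injective f)
    (hfg : Exact f g) {N : Submodule S M₂} (hN : N.FG) : ∀ᶠ d in atTop, cdT U D w N d =
      ∑ a, w a • cs (tens (D a) ((U ^ d • N).comap (f.restrictScalars S))) +
        cdT U D w (N.map (g.restrictScalars S)) d := by
  filter_upwards [eventually_all.2 fun a => tens_exact h.gen (h.inv a) f g hf hfg hN] with d hd
  rw [cdT, cdT, ← Finset.sum_add_distrib]
  exact Finset.sum_congr rfl fun a _ => by rw [hd, smul_add, cd_map_smul]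

end lat

theorem Sys.exists_tau {S B α : Type} [CommRing S] [CommRing B] [Algebra S B] [IsNoetherianRing S]
    [Fintype α] {U : Submodule S B} {D : α → Submodule S B} {w : α → ℂ} (h : Sys U D w) :
    ∃ τ : K B →ₗ[ℂ] K S, ∀ J : Ideal B, ∀ᶠ d in atTop,
      τ (q J) = ∑ a, w a • hq U (D a) J d := by
  let : ∀ N : FG B, Module S N.M := fun N => Module.compHom N.M (algebraMap S B)
  have : ∀ N : FG B, IsScalarTower S B N.M := fun N => .of_algebraMap_smul fun _ _ => rfl
  choose φ hφ using fun N : FG B => h.val N.M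
  refine ⟨lift φ fun A C E f g hf hfg hg => ?_, fun J => ?_⟩
  · obtain ⟨N, hN⟩ := cd_exists h.gen C.M
    obtain ⟨d₀, N', hN', e⟩ := hN.comap h.gen f hf
    obtain ⟨d, a, b, c, e'⟩ := ((hφ A N' hN').and (((cd_shift d₀).2 (hφ C N hN)).and
      (((cd_shift d₀).2 (hφ E _ (hN.map g hg))).and
        ((cd_shift d₀).2 (h.exact f g hf hfg hN.1))))).exists
    rw [← a, ← b, ← c, e', e]
    rfl
  · rw [q, lift_cl]
    have h1 : ∀ d, U ^ d • (1 : Submodule S B) = U ^ d := fun d => mul_one _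
    have h2 : CdSp U (1 : Submodule S B) :=
      ⟨by rw [one_eq_span]; exact fg_span_singleton _, fun x => (h.gen.gen x).imp fun d hd => by
        rw [h1]; exact hd⟩
    let g : B →ₗ[B] (⟨B ⧸ J⟩ : FG B).M := J.mkQ
    filter_upwards [hφ ⟨B ⧸ J⟩ _ (h2.map g J.mkQ_surjective), h.exact J.subtype g
      J.injective_subtype (LinearMap.exact_subtype_mkQ J) h2.1] with d a b
    rw [← a, ← sub_eq_iff_eq_add'.2 b, cdT, ← Finset.sum_sub_distrib]
    refine Finset.sum_congr rfl fun i _ => ?_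
    rw [← smul_sub, hq, tens_ideal h.gen (h.inv i) LinearMap.id injective_id,
      tens_ideal h.gen (h.inv i) J.subtype J.injective_subtype, h1, map_comap_eq]
    congr 4
    · exact map_id _
    · ext x
      simp

variable {k B α : Type} [Field k] [CommRing B] [Algebra k B]

theorem rk_hq {U D : Submodule k B} (hU : U.FG) (hD : D.FG) (J : Ideal B) (d : ℕ) :
    rk k (hq U D J d) = hn U D J d := by
  have h1 := Module.Finite.iff_fg.2 (hD.mul (hU.pow d))
  have h2 := Module.Finite.iff_fg.2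
    (hD.mul (cd_fg_le (hU.pow d) (inf_le_right : J.restrictScalars k ⊓ U ^ d ≤ _)))
  rw [hq, hn, map_sub, cs_eq, cs_eq, rk_cl, rk_cl]
  simp

theorem Sys.exists_lam [Fintype α] {U : Submodule k B} {D : α → Submodule k B} {w : α → ℂ}
    (h : Sys U D w) : ∃ lam, IsLam U D w lam := by
  obtain ⟨τ, hτ⟩ := h.exists_tau
  refine ⟨rk k ∘ₗ τ, fun J => (hτ J).mono fun d hd => ?_⟩
  rw [LinearMap.comp_apply, hd, map_sum]
  exact Finset.sum_congr rfl fun a _ => by
    rw [map_smul, rk_hq h.gen.fg (h.inv a).1, smul_eq_mul]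

end Pool.Agent.Lib.MP_40dc3c_ag.T
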