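import Mathlib

/-! Subvarieties of a power of the Fermat curve and their intersection numbers. -/

namespace Pool.Agent.Lib.MP_40dc3c_ag.T

open MvPolynomial Filter

variable {k : Type} [Field k] {ι : Type}

/-- homogeneous coordinates of a product of projective planes. -/
abbrev Pl (k : Type) [Field k] (ι : Type) : Type := MvPolynomial (ι × Fin 3) k

open Classical in
/-- the multidegree of a variable. -/
noncomputable def wt (v : ι × Fin 3) : ι → ℕ := Pi.single v.1 1

/-- the dimension of the part of an ideal that has degree `N` in every block of variables. -/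
noncomputable def hil (I : Ideal (Pl k ι)) (N : ℕ) : ℤ :=
  Module.finrank k ↥(I.restrictScalars k ⊓ weightedHomogeneousSubmodule k wt fun _ => N)

/-- the ideal of the power of the Fermat curve. -/
noncomputable def fermat (k : Type) [Field k] (ι : Type) (m : ℕ) : Ideal (Pl k ι) :=
  Ideal.span (Set.range fun i => ∑ s, X (i, s) ^ m)

/-- `V` is the ideal of a subvariety of dimension `e` of the power of the Fermat curve. -/
def Subv [Fintype ι] (m : ℕ) (V : Ideal (Pl k ι)) (e : ℕ) : Prop :=
  V.IsPrime ∧ (∀ f ∈ V, ∀ d, weightedHomogeneousComponent wt d f ∈ V) ∧ fermat k ι m ≤ V ∧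
    (∀ i, ∃ s, X (i, s) ∉ V) ∧ Algebra.trdeg k (Pl k ι ⧸ V) = e + Fintype.card ι

/-- the divisor of the pairs of points that agree in the factor `i`. -/
noncomputable def dgI (k : Type) [Field k] (i : ι) : Ideal (Pl k (ι ⊕ ι)) :=
  Ideal.span (Set.range fun s : Fin 3 × Fin 3 =>
    X (.inl i, s.1) * X (.inr i, s.2) - X (.inl i, s.2) * X (.inr i, s.1))

/-- the Hilbert function of the class of `V × W` times the class of the diagonal. -/
noncomputable def ifun [Fintype ι] (m : ℕ) (V W : Ideal (Pl k ι)) (N : ℕ) : ℤ :=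
  ∑ T : Finset ι, (-1) ^ T.card * (hil (fermat k _ m ⊔ ∏ i ∈ T, dgI k i) N -
    hil (fermat k _ m ⊔ (V.map (rename (Prod.map .inl id)) ⊔ W.map (rename (Prod.map .inr id))) *
      ∏ i ∈ T, dgI k i) N)

/-- `c` is the intersection number of `V` and `W`. -/
def Inter [Fintype ι] (m : ℕ) (V W : Ideal (Pl k ι)) (c : ℚ) : Prop :=
  ∃ P : Polynomial ℚ, P.eval 0 = c ∧ ∀ᶠ N : ℕ in atTop, (ifun m V W N : ℚ) = P.eval (N : ℚ)

end Pool.Agent.Lib.MP_40dc3c_ag.T
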