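import Pool.Agent.Lib.MP_40dc3c_ag.T.FDefs
import Pool.Agent.Lib.MP_40dc3c_ag.T.SDefs

/-! Lattices in filtered algebras, invertible lattices and the intersection functional. -/

namespace Pool.Agent.Lib.MP_40dc3c_ag.T

open scoped TensorProduct
open Function Filter Submodule

section lattice

variable {S B : Type} [CommRing S] [CommRing B] [Algebra S B]

open Classical in
/-- the class of a finitely generated submodule. -/
noncomputable def cs {M : Type} [AddCommGroup M] [Module S M] (N : Submodule S M) : K S :=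
  if h : N.FG then (haveI := Module.Finite.iff_fg.2 h; cl S N) else 0

theorem cs_eq {M : Type} [AddCommGroup M] [Module S M] (N : Submodule S M) [h : Module.Finite S N] :
    cs N = cl S N := dif_pos (Module.Finite.iff_fg.1 h)

/-- the elements `h` with `h D ⊆ δ U ^ e` for a regular `δ` in `D`. -/
def Gd (U D : Submodule S B) (e : ℕ) : Set B :=
  {h | ∃ δ ∈ D, δ ∈ nonZeroDivisors B ∧ ∀ x ∈ D, ∃ s ∈ U ^ e, h * x = δ * s}

/-- `D` generates an invertible sheaf on the compactification given by `U`. -/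
def Invt (U D : Submodule S B) : Prop := D.FG ∧ ∃ e, U ^ e ≤ span S (Gd U D e)

/-- the class of the degree `d` part of the closure of `B / J`, twisted by `D`. -/
noncomputable def hq (U D : Submodule S B) (J : Ideal B) (d : ℕ) : K S :=
  cs (D * U ^ d) - cs (D * (J.restrictScalars S ⊓ U ^ d))

/-- `U` is a finite generating system that contains `1`. -/
structure Gen (U : Submodule S B) : Prop where
  fg : U.FG
  one : (1 : B) ∈ U
  gen : ∀ b : B, ∃ d, b ∈ U ^ d

/-- a weighted family of invertible lattices whose weights cancel along the boundary. -/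
structure Sys {α : Type} (U : Submodule S B) (D : α → Submodule S B) (w : α → ℂ) : Prop where
  gen : Gen U
  inv : ∀ a, Invt U (D a)
  bd : ∃ l : List (Submodule S B), l.prod * U ≤ U ^ l.length ∧ ∀ V ∈ l, V ≤ U ∧
    ∃ (g : B ≃ₐ[S] B) (c : Sˣ) (σ : Equiv.Perm α) (ζ : ℂ), ζ ≠ 1 ∧ U.map g.toLinearMap = U ∧
      (∀ u ∈ U, (c : S) • g u - u ∈ V) ∧
      ∀ a, D (σ a) = (D a).map g.toLinearMap ∧ w (σ a) = ζ * w a

/-- the lattice `D ⊗ N` in `(D) ⊗ M`. -/
noncomputable def tens (D : Submodule S B) {M : Type} [AddCommGroup M] [Module B M] [Module S M]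
    [IsScalarTower S B M] (N : Submodule S M) :
    Submodule S (↥(Ideal.span (D : Set B)) ⊗[B] M) :=
  span S {z | ∃ (x : Ideal.span (D : Set B)) (n : M), x.1 ∈ D ∧ n ∈ N ∧ z = x ⊗ₜ n}

end lattice

section field

variable {k B : Type} [Field k] [CommRing B] [Algebra k B] {ι : Type}

/-- the dimension of the degree `d` part of the closure of `B / J`, twisted by `D`. -/
noncomputable def hn (U D : Submodule k B) (J : Ideal B) (d : ℕ) : ℤ :=
  Module.finrank k ↥(D * U ^ d) - Module.finrank k ↥(D * (J.restrictScalars k ⊓ U ^ d))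

/-- `lam` is the functional of the family. -/
def IsLam {α : Type} [Fintype α] (U : Submodule k B) (D : α → Submodule k B) (w : α → ℂ)
    (lam : K B →ₗ[ℂ] ℂ) : Prop :=
  ∀ J : Ideal B, ∀ᶠ d in atTop, lam (q J) = ∑ a, w a * hn U (D a) J d

/-- forms of bidegree `(1, 1)`. -/
def bil (k : Type) [Field k] [Algebra k B] (x y : Fin 3 → B) : Submodule k B :=
  span k (Set.range x) * span k (Set.range y)

/-- the minors. -/
def mnr (k : Type) [Field k] [Algebra k B] (x y : Fin 3 → B) : Submodule k B :=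
  span k (Set.range fun s : Fin 3 × Fin 3 => x s.1 * y s.2 - x s.2 * y s.1)

/-- forms of degree one in every block. -/
def UU (k : Type) [Field k] [Algebra k B] [Fintype ι] (x y : ι → Fin 3 → B) : Submodule k B :=
  ∏ i, bil k (x i) (y i)

open Classical in
/-- forms of degree one in every block that vanish on the diagonals in `T`. -/
noncomputable def DD (k : Type) [Field k] [Algebra k B] [Fintype ι] (x y : ι → Fin 3 → B)
    (T : Finset ι) : Submodule k B :=
  ∏ i, if i ∈ T then mnr k (x i) (y i) else bil k (x i) (y i)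

/-- the Hilbert function of the closure of `B / J` times the class of the diagonal. -/
noncomputable def hh (k : Type) [Field k] [Algebra k B] [Fintype ι] (x y : ι → Fin 3 → B)
    (J : Ideal B) (d : ℕ) : ℤ :=
  ∑ T : Finset ι, (-1) ^ T.card * hn (UU k x y) (DD k x y T) J d

/-- `B` is the tensor product of `B₁` and `B₂`. -/
def IsTens {B₁ B₂ : Type} [CommRing B₁] [CommRing B₂] [Algebra k B₁] [Algebra k B₂]
    (f₁ : B₁ →ₐ[k] B) (f₂ : B₂ →ₐ[k] B) : Prop :=
  Bijective (Algebra.TensorProduct.productMap f₁ f₂)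

/-- the ideal of the product of two closed subschemes. -/
noncomputable def ibox {A A' : Type} [CommRing A] [CommRing A'] [Algebra k A] [Algebra k A']
    (I : Ideal A) (J : Ideal A') : Ideal (A ⊗[k] A') :=
  I.map (Algebra.TensorProduct.includeLeft : A →ₐ[k] A ⊗[k] A') ⊔
    J.map (Algebra.TensorProduct.includeRight : A' →ₐ[k] A ⊗[k] A')

/-- the ideal of the graph of an endomorphism. -/
noncomputable def grf {A : Type} [CommRing A] [Algebra k A] (g : A →ₐ[k] A) :
    Ideal (A ⊗[k] A) := RingHom.ker (Algebra.TensorProduct.productMap g (AlgHom.id k A))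

/-- `hh` on the square of an algebra with coordinates. -/
noncomputable def hs {A : Type} [CommRing A] [Algebra k A] [Fintype ι] (x : ι → Fin 3 → A)
    (J : Ideal (A ⊗[k] A)) (d : ℕ) : ℤ :=
  hh k (fun i s => x i s ⊗ₜ[k] (1 : A)) (fun i s => (1 : A) ⊗ₜ[k] x i s) J d

/-- the properties of the functional that the calculus uses. -/
structure IsFun (X : Obj k) (lam : KK X.A X.A →ₗ[ℂ] ℂ) : Prop where
  equi : ∀ (g g' : X.G) (J : Ideal (X.A.R ⊗[k] X.A.R)),
    lam (q (J.map (Algebra.TensorProduct.map (X.act g) (X.act g')))) =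
      X.χ g * X.χ g'⁻¹ * lam (q J)
  ext : ∀ S : Alg k, ∃ Λ : KK (X.A.ten X.A) S →ₗ[ℂ] K S.R,
    ∀ (I : Ideal (X.A.R ⊗[k] X.A.R)) (J : Ideal S.R), Λ (q (ibox I J)) = lam (q I) • q J

/-- the average of `hs` over the group. -/
noncomputable def hsum [Fintype ι] (X : Obj k) (x : ι → Fin 3 → X.A.R)
    (J : Ideal (X.A.R ⊗[k] X.A.R)) (d : ℕ) : ℂ :=
  ∑ g, X.χ g⁻¹ * hs x (J.map (Algebra.TensorProduct.map (X.act g) (AlgHom.id k X.A.R))) d

/-- the formula for the functional. -/
def IsHs [Fintype ι] (X : Obj k) (x : ι → Fin 3 → X.A.R) (lam : KK X.A X.A →ₗ[ℂ] ℂ) : Prop :=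
  ∀ J : Ideal (X.A.R ⊗[k] X.A.R), ∀ᶠ d in atTop, lam (q J) = hsum X x J d

/-- projective coordinates on an object, with invertible diagonals and inertia at infinity. -/
structure Coord [Fintype ι] (X : Obj k) (x : ι → Fin 3 → X.A.R) : Prop where
  dom : IsDomain (X.A.R ⊗[k] X.A.R)
  one : ∀ i, x i 2 = 1
  ne : ∀ i s, x i s ≠ 0
  gen : Algebra.adjoin k (Set.range fun v : ι × Fin 3 => x v.1 v.2) = ⊤
  lin : ∀ g i s, X.act g (x i s) ∈ span k (Set.range (x i))
  inv : ∀ i, Invt (bil k (fun s => x i s ⊗ₜ[k] (1 : X.A.R)) fun s => (1 : X.A.R) ⊗ₜ[k] x i s)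
    (mnr k (fun s => x i s ⊗ₜ[k] (1 : X.A.R)) fun s => (1 : X.A.R) ⊗ₜ[k] x i s)
  inf : ∀ i, ∃ (g : X.G) (c : kˣ), X.χ g ≠ 1 ∧
    (∀ s, ∃ b : k, (c : k) • X.act g (x i s) - x i s = algebraMap k _ b) ∧
    ∀ j, j ≠ i → ∀ s, X.act g (x j s) = x j s

/-- a plane curve of degree `n` with a monomial basis. -/
structure Bas (k : Type) [Field k] {A : Type} [CommRing A] [Algebra k A] (x y : A) (n : ℕ) :
    Prop where
  li : LinearIndependent k fun v : ℕ × Fin n => x ^ v.1 * y ^ (v.2 : ℕ)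
  red : y ^ n ∈ span k {z | ∃ i j, j < n ∧ i + j ≤ n ∧ z = x ^ i * y ^ j}

end field

section fermat

open MvPolynomial

variable {k : Type} [Field k]

/-- the ring of a power of the affine Fermat curve. -/
abbrev Af (k : Type) [Field k] (ι : Type) (m : ℕ) : Type :=
  MvPolynomial (ι × Fin 2) k ⧸ ferI k ι m

theorem fers_inv (ι : Type) (m : ℕ) (ζ : ι × Fin 2 → rootsOfUnity m k)
    (a : MvPolynomial (ι × Fin 2) k) (ha : a ∈ ferI k ι m) :
    diagAct (ι × Fin 2) m ζ a ∈ ferI k ι m := ferN_inv ι m ζ a ha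

/-- a power of the affine Fermat curve with a character. -/
@[reducible] noncomputable def fers (ω : kˣ →* ℂˣ) (ι : Type) [Fintype ι] (m : ℕ) [NeZero m]
    (c : ι × Fin 2 → ℤ) : Obj k := ferN ω ι m c

/-- the projective coordinates. -/
noncomputable def co (k : Type) [Field k] {ι : Type} (m : ℕ) (i : ι) : Fin 3 → Af k ι m :=
  ![Ideal.Quotient.mk _ (X (i, 0)), Ideal.Quotient.mk _ (X (i, 1)), 1]

/-- the map induced by a map of index sets. -/
noncomputable def rn (k : Type) [Field k] {ι κ : Type} (m : ℕ) (e : ι → κ) :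
    Af k ι m →ₐ[k] Af k κ m :=
  Ideal.quotientMapₐ _ (rename (Prod.map e id)) (by
    rw [ferI, Ideal.span_le]
    rintro _ ⟨i, rfl⟩
    exact Ideal.subset_span ⟨e i, by simp⟩)

/-- the action of the roots of unity. -/
noncomputable def sc {ι : Type} (m : ℕ) (ζ : ι × Fin 2 → rootsOfUnity m k) :
    Af k ι m →ₐ[k] Af k ι m :=
  Ideal.quotientMapₐ _ (diagAct (ι × Fin 2) m ζ) (fers_inv ι m ζ)

theorem fers_act (ω : kˣ →* ℂˣ) (ι : Type) [Fintype ι] (m : ℕ) [NeZero m] (c : ι × Fin 2 → ℤ)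
    (ζ : ι × Fin 2 → rootsOfUnity m k) : (fers ω ι m c).act ζ = sc m ζ := rfl

/-- dehomogenisation. -/
noncomputable def deh (k : Type) [Field k] (ι : Type) (m : ℕ) : Pl k ι →ₐ[k] Af k ι m :=
  aeval fun v => co k m v.1 v.2

/-- the ideal of the projective closure. -/
noncomputable def clo {ι : Type} {m : ℕ} (P : Ideal (Af k ι m)) : Ideal (Pl k ι) :=
  Ideal.span {f | (∃ d, IsWeightedHomogeneous wt f d) ∧ deh k ι m f ∈ P}

/-- all three exponents of every factor are nontrivial. -/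
def Prim {ι : Type} (m : ℕ) (c : ι × Fin 2 → ℤ) : Prop :=
  ∀ i, ¬(m : ℤ) ∣ c (i, 0) ∧ ¬(m : ℤ) ∣ c (i, 1) ∧ ¬(m : ℤ) ∣ c (i, 0) + c (i, 1)

/-- two subvarieties of middle dimension whose isotypic parts meet. -/
def Mid (ω : kˣ →* ℂˣ) (ι : Type) [Fintype ι] (m : ℕ) [NeZero m] (c : ι × Fin 2 → ℤ) : Prop :=
  ∃ (P Q : Ideal (Af k ι m)) (e : ℕ) (z : ℂ), P.IsPrime ∧ Q.IsPrime ∧ 2 * e = Fintype.card ι ∧
    Algebra.trdeg k (Af k ι m ⧸ P) = e ∧ Algebra.trdeg k (Af k ι m ⧸ Q) = e ∧ z ≠ 0 ∧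
    ∀ᶠ d in atTop, z = hsum (fers ω ι m c) (co k m) (ibox P Q) d

end fermat

end Pool.Agent.Lib.MP_40dc3c_ag.T
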