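import Pool.Agent.Lib.MP_40dc3c_ag.T.CE

/-! Evaluation of the Hilbert functions. -/

namespace Pool.Agent.Lib.MP_40dc3c_ag.T

open scoped TensorProduct nonZeroDivisors
open Function Filter Submodule Module

variable {k A B B' ι : Type} [Field k] [CommRing A] [Algebra k A] [CommRing B] [Algebra k B]
  [CommRing B'] [Algebra k B'] {U D D' : Submodule k B}

theorem cf_finrank_map {V W : Type} [AddCommGroup V] [Module k V] [AddCommGroup W] [Module k W]
    (f : V →ₗ[k] W) (hf : Injective f) (N : Submodule k V) :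
    finrank k ↥(N.map f) = finrank k ↥N :=
  (Submodule.equivMapOfInjective f hf N).finrank_eq.symm

theorem cf_rank_null {V W : Type} [AddCommGroup V] [Module k V] [AddCommGroup W] [Module k W]
    (f : V →ₗ[k] W) {N : Submodule k V} (hN : N.FG) :
    finrank k ↥N = finrank k ↥(N.map f) + finrank k ↥(N ⊓ LinearMap.ker f) := by
  have := Module.Finite.iff_fg.2 hN
  rw [← (f.domRestrict N).finrank_range_add_finrank_ker, LinearMap.range_domRestrict,
    LinearMap.ker_domRestrict, ← cf_finrank_map N.subtype N.injective_subtype,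
    Submodule.map_comap_subtype]

theorem cf_map_mul (γ : B →ₐ[k] B') (V W : Submodule k B) :
    (V * W).map γ.toLinearMap = V.map γ.toLinearMap * W.map γ.toLinearMap :=
  Submodule.map_mul V W γ

theorem cf_map_pow (γ : B →ₐ[k] B') (V : Submodule k B) (n : ℕ) :
    (V ^ n).map γ.toLinearMap = V.map γ.toLinearMap ^ n :=
  Submodule.map_pow V γ n

theorem cf_map_prod (γ : B →ₐ[k] B') (s : Finset ι) (V : ι → Submodule k B) :
    (∏ i ∈ s, V i).map γ.toLinearMap = ∏ i ∈ s, (V i).map γ.toLinearMap := by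
  classical
  induction s using Finset.induction_on with
  | empty => simpa using Submodule.map_one γ
  | insert a s ha ih => rw [Finset.prod_insert ha, Finset.prod_insert ha, cf_map_mul, ih]

theorem cf_mulLeft (a : B) (V : Submodule k B) :
    V.map (LinearMap.mulLeft k a) = span k {a} * V := by
  ext z
  rw [Submodule.mem_span_singleton_mul, Submodule.mem_map]
  rfl

theorem cf_mulLeft_inj {a : B} (ha : a ∈ B⁰) : Injective (LinearMap.mulLeft k a) :=
  fun _ _ h => (mul_cancel_left_mem_nonZeroDivisors ha).1 h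

theorem hn_map (γ : B →ₐ[k] B') (hγ : Bijective γ) (U D : Submodule k B) (J : Ideal B) (d : ℕ) :
    hn (U.map γ.toLinearMap) (D.map γ.toLinearMap) (J.map γ) d = hn U D J d := by
  have e : (J.map γ).restrictScalars k = (J.restrictScalars k).map γ.toLinearMap := by
    ext z
    rw [Submodule.restrictScalars_mem, Ideal.mem_map_iff_of_surjective γ hγ.2]
    rfl
  rw [hn, hn, e, ← cf_map_pow, ← Submodule.map_inf _ hγ.1, ← cf_map_mul, ← cf_map_mul,
    cf_finrank_map _ hγ.1, cf_finrank_map _ hγ.1]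

theorem hn_scale {a b : B} (ha : a ∈ B⁰) (hb : b ∈ B⁰)
    (e : D'.map (LinearMap.mulLeft k a) = D.map (LinearMap.mulLeft k b)) (J : Ideal B) (d : ℕ) :
    hn U D' J d = hn U D J d := by
  have h : ∀ W : Submodule k B, finrank k ↥(D' * W) = finrank k ↥(D * W) := fun W => by
    rw [← cf_finrank_map _ (cf_mulLeft_inj ha), ← cf_finrank_map _ (cf_mulLeft_inj hb) (D * W),
      cf_mulLeft, cf_mulLeft, ← mul_assoc, ← mul_assoc, ← cf_mulLeft, ← cf_mulLeft, e]
  rw [hn, hn, h, h]

theorem cf_sat (hU : U.FG) (hD : Invt U D) (ψ : B →ₐ[k] A) {ρ : B} (hρ : ρ ∈ D)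
    (hr : ψ ρ ∈ A⁰) : ∀ᶠ d in atTop, D * U ^ d ⊓ LinearMap.ker ψ.toLinearMap ≤
      D * ((RingHom.ker ψ).restrictScalars k ⊓ U ^ d) := by
  obtain ⟨hfg, e, he⟩ := hD
  refine sat (M := B) hU hfg (fun d => D * U ^ d ⊓ LinearMap.ker ψ.toLinearMap) _
    (fun d => inf_le_left.trans (le_of_eq (mul_comm _ _))) (fun d => ?_) (fun d => ?_) e
    (fun d => ?_)
  · refine Submodule.mul_le.2 fun u hu z hz => ⟨?_, ?_⟩
    · rw [pow_succ', mul_left_comm]
      exact mul_mem_mul hu hz.1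
    · have : ψ z = 0 := hz.2
      change ψ (u * z) = 0
      rw [map_mul, this, mul_zero]
  · change U * _ ≤ _
    rw [mul_left_comm]
    have : U * ((RingHom.ker ψ).restrictScalars k ⊓ U ^ d) ≤
        (RingHom.ker ψ).restrictScalars k ⊓ U ^ (d + 1) :=
      Submodule.mul_le.2 fun u hu z hz => ⟨(RingHom.ker ψ).mul_mem_left u hz.1,
        by rw [pow_succ']; exact mul_mem_mul hu hz.2⟩
    exact mul_le_mul_right this _
  · refine Submodule.mul_le.2 fun u hu z hz => ?_
    suffices h : span k (Gd U D e) ≤ Submodule.comap (LinearMap.mulRight k z)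
      (D * ((RingHom.ker ψ).restrictScalars k ⊓ U ^ (d + e))) from h (he hu)
    rw [span_le]
    rintro h ⟨δ, hδ, hδ0, hh⟩
    have hs : ∃ s ∈ U ^ (d + e), h * z = δ * s := by
      refine Submodule.mul_induction_on (C := fun z => ∃ s ∈ U ^ (d + e), h * z = δ * s) hz.1
        (fun x hx v hv => ?_) ?_
      · obtain ⟨s, hs, e⟩ := hh x hx
        exact ⟨v * s, pow_add U d _ ▸ mul_mem_mul hv hs, by rw [← mul_assoc, e]; ring⟩
      · rintro x y ⟨s, hs, e⟩ ⟨t, ht, e'⟩
        exact ⟨s + t, add_mem hs ht, by rw [mul_add, mul_add, e, e']⟩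
    obtain ⟨s, hs, e1⟩ := hs
    obtain ⟨t, -, e2⟩ := hh ρ hρ
    have e3 : ρ * s = t * z := (mul_cancel_left_mem_nonZeroDivisors hδ0).1 (by
      rw [mul_left_comm, ← e1, ← mul_assoc δ, ← e2]; ring)
    have e4 : ψ z = 0 := hz.2
    have e5 : ψ s = 0 := (mul_left_mem_nonZeroDivisors_eq_zero_iff hr).1 (by
      rw [← map_mul, e3, map_mul, e4, mul_zero])
    have e6 : δ * s ∈ D * ((RingHom.ker ψ).restrictScalars k ⊓ U ^ (d + e)) :=
      mul_mem_mul hδ ⟨e5, hs⟩
    rw [← e1] at e6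
    exact e6

theorem hn_eval (hU : U.FG) (hD : Invt U D) (ψ : B →ₐ[k] A) {ρ : B} (hρ : ρ ∈ D) (hr : ψ ρ ∈ A⁰) :
    ∀ᶠ d in atTop, hn U D (RingHom.ker ψ) d =
      finrank k ↥(D.map ψ.toLinearMap * U.map ψ.toLinearMap ^ d) := by
  filter_upwards [cf_sat hU hD ψ hρ hr] with d hd
  have e : D * ((RingHom.ker ψ).restrictScalars k ⊓ U ^ d) =
      D * U ^ d ⊓ LinearMap.ker ψ.toLinearMap :=
    le_antisymm (le_inf (mul_le_mul_right inf_le_right _) (Submodule.mul_le.2 fun u _ z hz =>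
      (RingHom.ker ψ).mul_mem_left u hz.1)) hd
  rw [hn, e, cf_rank_null ψ.toLinearMap (hD.1.mul (hU.pow d)), cf_map_mul, cf_map_pow]
  simp

theorem cf_one_pow (h : (1 : B) ∈ U) (d : ℕ) : (1 : B) ∈ U ^ d := by
  simpa using Submodule.pow_mem_pow U h d

theorem hn_pt [IsDomain B] (hU : Gen U) (hD : Invt U D) (ψ : B →ₐ[k] k) :
    ∀ᶠ d in atTop, hn U D (RingHom.ker ψ) d = 1 := by
  obtain ⟨e, he⟩ := hD.2
  obtain ⟨h, hh, h0⟩ : ∃ h ∈ Gd U D e, ψ h ≠ 0 := by
    by_contra! hc
    have : span k (Gd U D e) ≤ LinearMap.ker ψ.toLinearMap := span_le.2 hc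
    have : ψ 1 = 0 := this (he (cf_one_pow hU.one e))
    simp at this
  obtain ⟨δ, hδ, hδ0, hs⟩ := hh
  have h1 : h ∈ B⁰ := mem_nonZeroDivisors_of_ne_zero fun c => h0 (by rw [c, map_zero])
  have e1 : ((D.map (LinearMap.mulLeft k h)).comap (LinearMap.mulLeft k δ)).map
      (LinearMap.mulLeft k δ) = D.map (LinearMap.mulLeft k h) := by
    refine Submodule.map_comap_eq_self ?_
    rintro _ ⟨x, hx, rfl⟩
    obtain ⟨s, -, e⟩ := hs x hx
    exact ⟨s, e.symm⟩
  have h2 : h ∈ (D.map (LinearMap.mulLeft k h)).comap (LinearMap.mulLeft k δ) :=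
    ⟨δ, hδ, mul_comm _ _⟩
  filter_upwards [hn_eval hU.fg (hD.scale hδ0 h1 e1) ψ h2 (mem_nonZeroDivisors_of_ne_zero h0)]
    with d hd
  rw [← hn_scale hδ0 h1 e1, hd]
  have h3 := mul_mem_mul (Submodule.mem_map_of_mem (f := ψ.toLinearMap) h2)
    (cf_map_pow ψ U d ▸ Submodule.mem_map_of_mem (f := ψ.toLinearMap) (cf_one_pow hU.one d))
  rcases Ideal.eq_bot_or_top (_ * U.map ψ.toLinearMap ^ d) with c | c
  · rw [c] at h3
    exact absurd (by simpa using h3) h0
  · rw [c, finrank_top, finrank_self, Nat.cast_one]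

theorem cf_span_map {α : Type} (γ : B →ₐ[k] B') (x : α → B) :
    (span k (Set.range x)).map γ.toLinearMap = span k (Set.range fun s => γ (x s)) := by
  rw [Submodule.map_span, ← Set.range_comp]
  rfl

theorem bil_map (γ : B →ₐ[k] B') (x y : Fin 3 → B) :
    (bil k x y).map γ.toLinearMap = bil k (fun s => γ (x s)) fun s => γ (y s) := by
  rw [bil, bil, cf_map_mul, cf_span_map, cf_span_map]

theorem mnr_map (γ : B →ₐ[k] B') (x y : Fin 3 → B) :
    (mnr k x y).map γ.toLinearMap = mnr k (fun s => γ (x s)) fun s => γ (y s) := by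
  rw [mnr, mnr, cf_span_map]
  simp only [map_sub, map_mul]

theorem mnr_lin (m : Fin 3 → Fin 3 → k) (x y : Fin 3 → B) :
    mnr k (fun s => ∑ t, m s t • x t) (fun s => ∑ t, m s t • y t) ≤ mnr k x y := by
  refine span_le.2 ?_
  rintro _ ⟨⟨s, r⟩, rfl⟩
  have e : (∑ t, m s t • x t) * (∑ t, m r t • y t) - (∑ t, m r t • x t) * ∑ t, m s t • y t =
      ∑ t, ∑ t', (m s t * m r t') • (x t * y t' - x t' * y t) := by
    simp only [Fin.sum_univ_three, Algebra.smul_def, map_mul]
    ring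
  dsimp only
  rw [e]
  exact sum_mem fun t _ => sum_mem fun t' _ => smul_mem _ _ (subset_span ⟨(t, t'), rfl⟩)

variable [Fintype ι] {x y : ι → Fin 3 → B}

theorem UU_map (γ : B →ₐ[k] B') (x y : ι → Fin 3 → B) :
    (UU k x y).map γ.toLinearMap = UU k (fun i s => γ (x i s)) fun i s => γ (y i s) := by
  simp only [UU, cf_map_prod, bil_map]

theorem DD_map (γ : B →ₐ[k] B') (x y : ι → Fin 3 → B) (T : Finset ι) :
    (DD k x y T).map γ.toLinearMap = DD k (fun i s => γ (x i s)) (fun i s => γ (y i s)) T := by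
  rw [DD, DD, cf_map_prod]
  refine Finset.prod_congr rfl fun i _ => ?_
  split_ifs
  · exact mnr_map γ _ _
  · exact bil_map γ _ _

omit [Fintype ι] in
theorem cf_fg_prod (s : Finset ι) {V : ι → Submodule k B} (h : ∀ i ∈ s, (V i).FG) :
    (∏ i ∈ s, V i).FG :=
  Finset.prod_induction V Submodule.FG (fun _ _ => Submodule.FG.mul)
    (Submodule.one_eq_span (R := k) (A := B) ▸ fg_span_singleton 1) h

theorem UU_fg : (UU k x y).FG := cf_fg_prod _ fun _ _ => bil_fg

theorem DD_fg (T : Finset ι) : (DD k x y T).FG :=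
  cf_fg_prod _ fun _ _ => by
    split_ifs
    · exact mnr_fg
    · exact bil_fg

theorem hh_map (γ : B →ₐ[k] B') (hγ : Bijective γ) (x y : ι → Fin 3 → B) (J : Ideal B) (d : ℕ) :
    hh k (fun i s => γ (x i s)) (fun i s => γ (y i s)) (J.map γ) d = hh k x y J d := by
  simp only [hh, ← UU_map, ← DD_map, hn_map γ hγ]

theorem hh_congr {x' y' : ι → Fin 3 → B} (h1 : ∀ i, bil k (x' i) (y' i) = bil k (x i) (y i))
    (h2 : ∀ i, mnr k (x' i) (y' i) = mnr k (x i) (y i)) (J : Ideal B) (d : ℕ) :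
    hh k x' y' J d = hh k x y J d := by
  simp only [hh, UU, DD, h1, h2]

theorem hh_unique [Unique ι] (J : Ideal B) (d : ℕ) : hh k x y J d =
    hn (bil k (x default) (y default)) (bil k (x default) (y default)) J d -
      hn (bil k (x default) (y default)) (mnr k (x default) (y default)) J d := by
  classical
  have e : (Finset.univ : Finset (Finset ι)) = {∅, {default}} := by
    ext T
    simp only [Finset.mem_univ, Finset.mem_insert, Finset.mem_singleton, true_iff]
    exact Finset.subset_singleton_iff.1 fun i _ => Finset.mem_singleton.2 (Subsingleton.elim _ _)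
  rw [hh, e, Finset.sum_pair (Finset.singleton_ne_empty _).symm]
  simp [UU, DD, sub_eq_add_neg]

theorem invt_DD [IsDomain B] (hx : ∀ i s, x i s ≠ 0) (hy : ∀ i s, y i s ≠ 0)
    (h : ∀ i, Invt (bil k (x i) (y i)) (mnr k (x i) (y i))) (T : Finset ι) :
    Invt (UU k x y) (DD k x y T) :=
  Invt.prod _ fun i _ => by
    split_ifs
    · exact h i
    · exact (invt_span fun s => mem_nonZeroDivisors_of_ne_zero (hx i s)).mul
        (invt_span fun s => mem_nonZeroDivisors_of_ne_zero (hy i s))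

theorem gen_UU (hx : ∀ i, x i 2 = 1) (hy : ∀ i, y i 2 = 1)
    (h : Algebra.adjoin k ((Set.range fun v : ι × Fin 3 => x v.1 v.2) ∪
      Set.range fun v : ι × Fin 3 => y v.1 v.2) = ⊤) : Gen (UU k x y) := by
  classical
  have hm : ∀ i s t, x i s * y i t ∈ bil k (x i) (y i) := fun i s t =>
    mul_mem_mul (subset_span ⟨s, rfl⟩) (subset_span ⟨t, rfl⟩)
  have h1 : ∀ s : Finset ι, (1 : B) ∈ ∏ i ∈ s, bil k (x i) (y i) := fun s =>
    Finset.prod_induction _ (fun V : Submodule k B => (1 : B) ∈ V)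
      (fun _ _ a b => by simpa using mul_mem_mul a b) (Submodule.one_le.1 le_rfl)
      fun i _ => by simpa [hx, hy] using hm i 2 2
  have h2 : ∀ i s t, x i s * y i t ∈ UU k x y ^ 1 := fun i s t => by
    rw [pow_one, UU, ← Finset.mul_prod_erase _ _ (Finset.mem_univ i)]
    simpa using mul_mem_mul (hm i s t) (h1 _)
  have h3 : (1 : B) ∈ UU k x y := h1 _
  refine ⟨UU_fg, h3, fun b => ?_⟩
  have hb : b ∈ Algebra.adjoin k _ := h ▸ Algebra.mem_top
  induction hb using Algebra.adjoin_induction with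
  | mem z hz =>
    rcases hz with ⟨v, rfl⟩ | ⟨v, rfl⟩
    · exact ⟨1, by simpa [hy] using h2 v.1 v.2 2⟩
    · exact ⟨1, by simpa [hx] using h2 v.1 2 v.2⟩
  | algebraMap r => exact ⟨0, by rw [pow_zero]; exact Submodule.algebraMap_mem r⟩
  | add a b _ _ ha hb =>
    obtain ⟨d, ha⟩ := ha
    obtain ⟨d', hb⟩ := hb
    refine ⟨d + d', pow_add (UU k x y) d d' ▸ add_mem ?_ ?_⟩
    · simpa using mul_mem_mul ha (cf_one_pow h3 d')
    · simpa using mul_mem_mul (cf_one_pow h3 d) hb
  | mul a b _ _ ha hb =>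
    obtain ⟨d, ha⟩ := ha
    obtain ⟨d', hb⟩ := hb
    exact ⟨d + d', pow_add (UU k x y) d d' ▸ mul_mem_mul ha hb⟩

theorem hh_pt [IsDomain B] [Nonempty ι] (hU : Gen (UU k x y))
    (h : ∀ T, Invt (UU k x y) (DD k x y T)) (ψ : B →ₐ[k] k) :
    ∀ᶠ d in atTop, hh k x y (RingHom.ker ψ) d = 0 := by
  filter_upwards [eventually_all.2 fun T => hn_pt hU (h T) ψ] with d hd
  simp only [hh, hd, mul_one]
  rw [← Finset.powerset_univ]
  exact Finset.sum_powerset_neg_one_pow_card_of_nonempty Finset.univ_nonempty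

end Pool.Agent.Lib.MP_40dc3c_ag.T
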