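import Pool.Agent.Lib.MP_40dc3c_ag.T.CF

/-! Products: the Hilbert functions multiply. -/

namespace Pool.Agent.Lib.MP_40dc3c_ag.T

open scoped TensorProduct nonZeroDivisors
open Function Filter Submodule Module

variable {k B B₁ B₂ : Type} [Field k] [CommRing B] [Algebra k B] [CommRing B₁] [Algebra k B₁]
  [CommRing B₂] [Algebra k B₂] {f₁ : B₁ →ₐ[k] B} {f₂ : B₂ →ₐ[k] B}

theorem isTens_incl : IsTens (Algebra.TensorProduct.includeLeft : B₁ →ₐ[k] B₁ ⊗[k] B₂)
    (Algebra.TensorProduct.includeRight : B₂ →ₐ[k] B₁ ⊗[k] B₂) := by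
  have : Algebra.TensorProduct.productMap (Algebra.TensorProduct.includeLeft : B₁ →ₐ[k] B₁ ⊗[k] B₂)
      (Algebra.TensorProduct.includeRight : B₂ →ₐ[k] B₁ ⊗[k] B₂) = AlgHom.id k _ := by
    ext <;> simp
  rw [IsTens, this]
  exact bijective_id

theorem IsTens.symm (h : IsTens f₁ f₂) : IsTens f₂ f₁ := by
  have : Algebra.TensorProduct.productMap f₂ f₁ = (Algebra.TensorProduct.productMap f₁ f₂).comp
      (Algebra.TensorProduct.comm k B₂ B₁).toAlgHom := by
    ext <;> simp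
  rw [IsTens, this, AlgHom.coe_comp]
  exact Bijective.comp h (Algebra.TensorProduct.comm k B₂ B₁).bijective

theorem IsTens.sq (h : IsTens f₁ f₂) :
    IsTens (Algebra.TensorProduct.map f₁ f₁) (Algebra.TensorProduct.map f₂ f₂) := by
  have : Algebra.TensorProduct.productMap (Algebra.TensorProduct.map f₁ f₁)
      (Algebra.TensorProduct.map f₂ f₂) =
      (Algebra.TensorProduct.map (Algebra.TensorProduct.productMap f₁ f₂)
        (Algebra.TensorProduct.productMap f₁ f₂)).comp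
      (Algebra.TensorProduct.tensorTensorTensorComm k k k k B₁ B₁ B₂ B₂).toAlgHom := by
    ext <;> simp [Algebra.TensorProduct.one_def]
  rw [IsTens, this, AlgHom.coe_comp]
  exact Bijective.comp (Algebra.TensorProduct.map_bijective h h)
    (Algebra.TensorProduct.tensorTensorTensorComm k k k k B₁ B₁ B₂ B₂).bijective

theorem cg_ker {M₁ M₂ N₁ N₂ : Type} [AddCommGroup M₁] [Module k M₁] [AddCommGroup M₂] [Module k M₂]
    [AddCommGroup N₁] [Module k N₁] [AddCommGroup N₂] [Module k N₂] (g₁ : M₁ →ₗ[k] N₁)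
    (g₂ : M₂ →ₗ[k] N₂) {t : M₁ ⊗[k] M₂} (ht : TensorProduct.map g₁ g₂ t = 0) :
    t ∈ LinearMap.range ((LinearMap.ker g₂).subtype.lTensor M₁) ⊔
      LinearMap.range ((LinearMap.ker g₁).subtype.rTensor M₂) := by
  have e1 : Exact (LinearMap.ker g₁).subtype g₁.rangeRestrict := by
    rw [← LinearMap.ker_rangeRestrict]; exact LinearMap.exact_subtype_ker_map _
  have e2 : Exact (LinearMap.ker g₂).subtype g₂.rangeRestrict := by
    rw [← LinearMap.ker_rangeRestrict]; exact LinearMap.exact_subtype_ker_map _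
  rw [← TensorProduct.map_ker e1 g₁.surjective_rangeRestrict e2 g₂.surjective_rangeRestrict,
    LinearMap.mem_ker]
  refine TensorProduct.map_injective_of_flat_flat (LinearMap.range g₁).subtype
    (LinearMap.range g₂).subtype (injective_subtype _) (injective_subtype _) ?_
  rw [map_zero, ← ht, ← LinearMap.comp_apply, ← TensorProduct.map_comp]
  rfl

theorem cg_range (f₁ : B₁ →ₐ[k] B) (f₂ : B₂ →ₐ[k] B) (P : Submodule k B₁) (Q : Submodule k B₂) :
    P.map f₁.toLinearMap * Q.map f₂.toLinearMap = LinearMap.range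
      ((Algebra.TensorProduct.productMap f₁ f₂).toLinearMap ∘ₗ
        TensorProduct.map P.subtype Q.subtype) := by
  refine le_antisymm (mul_le.2 ?_) ?_
  · rintro _ ⟨a, ha, rfl⟩ _ ⟨b, hb, rfl⟩
    exact ⟨⟨a, ha⟩ ⊗ₜ ⟨b, hb⟩, by simp⟩
  · rintro _ ⟨t, rfl⟩
    induction t with
    | zero => simp
    | tmul a b =>
      simpa using Submodule.mul_mem_mul (mem_map_of_mem (f := f₁.toLinearMap) a.2)
        (mem_map_of_mem (f := f₂.toLinearMap) b.2)
    | add a b ha hb => rw [map_add]; exact add_mem ha hb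

theorem IsTens.rank_mul (h : IsTens f₁ f₂) (P : Submodule k B₁) (Q : Submodule k B₂) :
    finrank k ↥(P.map f₁.toLinearMap * Q.map f₂.toLinearMap) = finrank k P * finrank k Q := by
  rw [cg_range, LinearMap.finrank_range_of_inj, finrank_tensorProduct]
  exact h.1.comp (TensorProduct.map_injective_of_flat_flat _ _ (injective_subtype _)
    (injective_subtype _))

theorem cg_mono (f₁ : B₁ →ₐ[k] B) (f₂ : B₂ →ₐ[k] B) {P P' : Submodule k B₁} {Q Q' : Submodule k B₂}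
    (h : P ≤ P') (h' : Q ≤ Q') :
    P.map f₁.toLinearMap * Q.map f₂.toLinearMap ≤ P'.map f₁.toLinearMap * Q'.map f₂.toLinearMap :=
  mul_le_mul' (map_mono h) (map_mono h')

/-- intersection of a tensor product of subspaces with the ideal of a product. -/
theorem IsTens.inf (h : IsTens f₁ f₂) (W₁ J₁ : Submodule k B₁) (W₂ J₂ : Submodule k B₂) :
    (J₁.map f₁.toLinearMap * (⊤ : Submodule k B₂).map f₂.toLinearMap ⊔
        (⊤ : Submodule k B₁).map f₁.toLinearMap * J₂.map f₂.toLinearMap) ⊓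
      (W₁.map f₁.toLinearMap * W₂.map f₂.toLinearMap) =
    (J₁ ⊓ W₁).map f₁.toLinearMap * W₂.map f₂.toLinearMap ⊔
      W₁.map f₁.toLinearMap * (J₂ ⊓ W₂).map f₂.toLinearMap := by
  refine le_antisymm ?_ (sup_le
    (le_inf (le_sup_of_le_left (cg_mono _ _ inf_le_left le_top)) (cg_mono _ _ inf_le_right le_rfl))
    (le_inf (le_sup_of_le_right (cg_mono _ _ le_top inf_le_left)) (cg_mono _ _ le_rfl inf_le_right)))
  rintro z ⟨hz, hw⟩
  rw [cg_range] at hw
  obtain ⟨t, rfl⟩ := hw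
  have h0 : J₁.map f₁.toLinearMap * (⊤ : Submodule k B₂).map f₂.toLinearMap ⊔
      (⊤ : Submodule k B₁).map f₁.toLinearMap * J₂.map f₂.toLinearMap ≤
      (LinearMap.ker (TensorProduct.map J₁.mkQ J₂.mkQ)).map
        (Algebra.TensorProduct.productMap f₁ f₂).toLinearMap := by
    refine sup_le (mul_le.2 ?_) (mul_le.2 ?_)
    · rintro _ ⟨a, ha, rfl⟩ _ ⟨b, -, rfl⟩
      exact ⟨a ⊗ₜ b, by simp [(Submodule.Quotient.mk_eq_zero J₁).2 ha], by simp⟩
    · rintro _ ⟨a, -, rfl⟩ _ ⟨b, hb, rfl⟩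
      exact ⟨a ⊗ₜ b, by simp [(Submodule.Quotient.mk_eq_zero J₂).2 hb], by simp⟩
  obtain ⟨s, hs, e⟩ := h0 hz
  obtain rfl : s = TensorProduct.map W₁.subtype W₂.subtype t := h.1 e
  have h1 := cg_ker (J₁.mkQ ∘ₗ W₁.subtype) (J₂.mkQ ∘ₗ W₂.subtype) (t := t) (by
    rw [TensorProduct.map_comp]; exact hs)
  obtain ⟨_, ⟨u, rfl⟩, _, ⟨v, rfl⟩, rfl⟩ := mem_sup.1 h1
  rw [map_add]
  clear hz hs e h1
  refine add_mem (mem_sup_right ?_) (mem_sup_left ?_)
  · induction u with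
    | zero => simp
    | tmul a b =>
      simpa using Submodule.mul_mem_mul (mem_map_of_mem (f := f₁.toLinearMap) a.2)
        (mem_map_of_mem (f := f₂.toLinearMap) (p := J₂ ⊓ W₂)
          ⟨(Submodule.Quotient.mk_eq_zero J₂).1 b.2, b.1.2⟩)
    | add a b ha hb => rw [map_add, map_add]; exact add_mem ha hb
  · induction v with
    | zero => simp
    | tmul a b =>
      simpa using Submodule.mul_mem_mul (mem_map_of_mem (f := f₁.toLinearMap) (p := J₁ ⊓ W₁)
        ⟨(Submodule.Quotient.mk_eq_zero J₁).1 a.2, a.1.2⟩)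
        (mem_map_of_mem (f := f₂.toLinearMap) b.2)
    | add a b ha hb => rw [map_add, map_add]; exact add_mem ha hb

theorem IsTens.ideal_left (h : IsTens f₁ f₂) (J₁ : Ideal B₁) : (J₁.map f₁).restrictScalars k =
    (J₁.restrictScalars k).map f₁.toLinearMap * (⊤ : Submodule k B₂).map f₂.toLinearMap := by
  refine le_antisymm (fun x hx => ?_) (mul_le.2 ?_)
  · have key : ∀ a ∈ J₁, ∀ b : B, b * f₁ a ∈
        (J₁.restrictScalars k).map f₁.toLinearMap * (⊤ : Submodule k B₂).map f₂.toLinearMap := by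
      intro a ha b
      obtain ⟨t, rfl⟩ := h.2 b
      induction t with
      | zero => simp
      | tmul c d =>
        rw [Algebra.TensorProduct.productMap_apply_tmul, mul_right_comm, ← map_mul]
        exact Submodule.mul_mem_mul ⟨c * a, J₁.mul_mem_left c ha, rfl⟩ ⟨d, trivial, rfl⟩
      | add c d hc hd => rw [map_add, add_mul]; exact add_mem hc hd
    have : ∀ y ∈ J₁.map f₁, ∀ b : B, b * y ∈
        (J₁.restrictScalars k).map f₁.toLinearMap * (⊤ : Submodule k B₂).map f₂.toLinearMap := by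
      intro y hy
      induction hy using Submodule.span_induction with
      | mem y hy =>
        obtain ⟨a, ha, rfl⟩ := hy
        exact key a ha
      | zero => simp
      | add y z _ _ hy hz => exact fun b => by rw [mul_add]; exact add_mem (hy b) (hz b)
      | smul c y _ hy => exact fun b => by rw [smul_eq_mul, ← mul_assoc]; exact hy _
    simpa using this x hx 1
  · rintro _ ⟨a, ha, rfl⟩ b -
    exact Ideal.mul_mem_right _ _ (Ideal.mem_map_of_mem f₁ ha)

theorem IsTens.ideal (h : IsTens f₁ f₂) (J₁ : Ideal B₁) (J₂ : Ideal B₂) :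
    (J₁.map f₁ ⊔ J₂.map f₂).restrictScalars k =
      (J₁.restrictScalars k).map f₁.toLinearMap * (⊤ : Submodule k B₂).map f₂.toLinearMap ⊔
        (⊤ : Submodule k B₁).map f₁.toLinearMap * (J₂.restrictScalars k).map f₂.toLinearMap := by
  rw [restrictScalars_sup, h.ideal_left, h.symm.ideal_left, mul_comm _ (Submodule.map f₁.toLinearMap ⊤)]

theorem IsTens.rank_sup (h : IsTens f₁ f₂) {P P' : Submodule k B₁} {Q Q' : Submodule k B₂}
    (hP : P.FG) (hQ : Q.FG) (h1 : P' ≤ P) (h2 : Q' ≤ Q) :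
    finrank k ↥(P'.map f₁.toLinearMap * Q.map f₂.toLinearMap ⊔
      P.map f₁.toLinearMap * Q'.map f₂.toLinearMap) + finrank k P' * finrank k Q' =
      finrank k P' * finrank k Q + finrank k P * finrank k Q' := by
  have : Module.Finite k ↥(P.map f₁.toLinearMap * Q.map f₂.toLinearMap) :=
    Module.Finite.iff_fg.2 ((hP.map _).mul (hQ.map _))
  have := finiteDimensional_of_le (cg_mono f₁ f₂ h1 (le_refl Q))
  have := finiteDimensional_of_le (cg_mono f₁ f₂ (le_refl P) h2)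
  have e : P'.map f₁.toLinearMap * Q.map f₂.toLinearMap ⊓
      P.map f₁.toLinearMap * Q'.map f₂.toLinearMap =
      P'.map f₁.toLinearMap * Q'.map f₂.toLinearMap := by
    refine le_antisymm ?_ (le_inf (cg_mono _ _ le_rfl h2) (cg_mono _ _ h1 le_rfl))
    refine (inf_le_inf_right _ (le_sup_of_le_left (cg_mono f₁ f₂ (le_refl P') le_top))).trans
      ((h.inf P P' Q' ⊥).le.trans (sup_le (cg_mono _ _ inf_le_left le_rfl) ?_))
    simp
  rw [← h.rank_mul, ← h.rank_mul, ← h.rank_mul, ← e, finrank_sup_add_finrank_inf_eq]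

theorem hn_tens (h : IsTens f₁ f₂) {U₁ D₁ : Submodule k B₁} {U₂ D₂ : Submodule k B₂}
    (hU₁ : U₁.FG) (hD₁ : D₁.FG) (hU₂ : U₂.FG) (hD₂ : D₂.FG) (J₁ : Ideal B₁) (J₂ : Ideal B₂) (d : ℕ) :
    hn (U₁.map f₁.toLinearMap * U₂.map f₂.toLinearMap)
      (D₁.map f₁.toLinearMap * D₂.map f₂.toLinearMap) (J₁.map f₁ ⊔ J₂.map f₂) d =
      hn U₁ D₁ J₁ d * hn U₂ D₂ J₂ d := by
  have e : ∀ (P : Submodule k B₁) (Q : Submodule k B₂),
      D₁.map f₁.toLinearMap * D₂.map f₂.toLinearMap *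
        (P.map f₁.toLinearMap * Q.map f₂.toLinearMap) =
      (D₁ * P).map f₁.toLinearMap * (D₂ * Q).map f₂.toLinearMap := fun P Q => by
    rw [Submodule.map_mul, Submodule.map_mul, mul_mul_mul_comm]
  have h1 := h.rank_sup (hD₁.mul (hU₁.pow d)) (hD₂.mul (hU₂.pow d))
    (mul_le_mul' (le_refl D₁) (inf_le_right : J₁.restrictScalars k ⊓ U₁ ^ d ≤ _))
    (mul_le_mul' (le_refl D₂) (inf_le_right : J₂.restrictScalars k ⊓ U₂ ^ d ≤ _))
  rw [hn, hn, hn, mul_pow, ← Submodule.map_pow, ← Submodule.map_pow, h.ideal, h.inf,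
    Submodule.mul_sup, e, e, e, h.rank_mul]
  zify at h1
  push_cast
  linarith

theorem hh_tens (h : IsTens f₁ f₂) {ι ι₁ ι₂ : Type} [Fintype ι] [Fintype ι₁] [Fintype ι₂]
    {e₁ : ι₁ → ι} {e₂ : ι₂ → ι} (he : Bijective (Sum.elim e₁ e₂)) {x y : ι → Fin 3 → B}
    {x₁ y₁ : ι₁ → Fin 3 → B₁} {x₂ y₂ : ι₂ → Fin 3 → B₂} (hx₁ : ∀ i s, x (e₁ i) s = f₁ (x₁ i s))
    (hy₁ : ∀ i s, y (e₁ i) s = f₁ (y₁ i s)) (hx₂ : ∀ i s, x (e₂ i) s = f₂ (x₂ i s))
    (hy₂ : ∀ i s, y (e₂ i) s = f₂ (y₂ i s)) (J₁ : Ideal B₁) (J₂ : Ideal B₂) (d : ℕ) :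
    hh k x y (J₁.map f₁ ⊔ J₂.map f₂) d = hh k x₁ y₁ J₁ d * hh k x₂ y₂ J₂ d := by
  classical
  obtain ⟨e, a1, a2⟩ : ∃ e : ι₁ ⊕ ι₂ ≃ ι, (∀ i, e (.inl i) = e₁ i) ∧ ∀ i, e (.inr i) = e₂ i :=
    ⟨Equiv.ofBijective _ he, fun _ => rfl, fun _ => rfl⟩
  have b1 : ∀ i, x (e (.inl i)) = fun s => f₁ (x₁ i s) := fun i => funext (a1 i ▸ hx₁ i)
  have b2 : ∀ i, y (e (.inl i)) = fun s => f₁ (y₁ i s) := fun i => funext (a1 i ▸ hy₁ i)
  have b3 : ∀ i, x (e (.inr i)) = fun s => f₂ (x₂ i s) := fun i => funext (a2 i ▸ hx₂ i)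
  have b4 : ∀ i, y (e (.inr i)) = fun s => f₂ (y₂ i s) := fun i => funext (a2 i ▸ hy₂ i)
  have hU : UU k x y = (UU k x₁ y₁).map f₁.toLinearMap * (UU k x₂ y₂).map f₂.toLinearMap := by
    rw [UU_map, UU_map, UU, UU, UU, ← e.prod_comp, Fintype.prod_sum_type]
    simp only [b1, b2, b3, b4]
  have hD : ∀ (T₁ : Finset ι₁) (T₂ : Finset ι₂), DD k x y ((T₁.disjSum T₂).map e.toEmbedding) =
      (DD k x₁ y₁ T₁).map f₁.toLinearMap * (DD k x₂ y₂ T₂).map f₂.toLinearMap := fun T₁ T₂ => by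
    rw [DD_map, DD_map, DD, DD, DD, ← e.prod_comp, Fintype.prod_sum_type]
    simp only [b1, b2, b3, b4, Finset.mem_map_equiv, Equiv.symm_apply_apply,
      Finset.inl_mem_disjSum, Finset.inr_mem_disjSum]
  rw [hh, hh, hh, Finset.sum_mul_sum, ← Fintype.sum_prod_type',
    ← (Finset.sumEquiv.symm.toEquiv.trans e.finsetCongr).sum_comp]
  refine Finset.sum_congr rfl fun T _ => ?_
  change (-1) ^ ((T.1.disjSum T.2).map e.toEmbedding).card *
    hn _ (DD k x y ((T.1.disjSum T.2).map e.toEmbedding)) _ d = _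
  rw [hU, hD, hn_tens h UU_fg (DD_fg _) UU_fg (DD_fg _), Finset.card_map, Finset.card_disjSum,
    pow_add, mul_mul_mul_comm]

theorem box_map {A A' : Type} [CommRing A] [Algebra k A] [CommRing A'] [Algebra k A']
    (f : B₁ →ₐ[k] A) (f' : B₂ →ₐ[k] A') (I : Ideal B₁) (J : Ideal B₂) :
    (ibox (k := k) I J).map (Algebra.TensorProduct.map f f') = ibox (I.map f) (J.map f') := by
  rw [ibox, ibox, Ideal.map_sup, Ideal.map_mapₐ, Ideal.map_mapₐ, Ideal.map_mapₐ, Ideal.map_mapₐ,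
    Algebra.TensorProduct.map_comp_includeLeft, Algebra.TensorProduct.map_comp_includeRight]

theorem box_sup (I I' : Ideal B₁) (J J' : Ideal B₂) :
    ibox (k := k) (I ⊔ I') (J ⊔ J') = ibox I J ⊔ ibox I' J' := by
  rw [ibox, ibox, ibox, Ideal.map_sup, Ideal.map_sup, sup_sup_sup_comm]

end Pool.Agent.Lib.MP_40dc3c_ag.T
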