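import Pool.Agent.Lib.MP_40dc3c_ag.T.CJ

/-! Lattices on a Fermat curve: the contributions of the graphs of the automorphisms. -/

namespace Pool.Agent.Lib.MP_40dc3c_ag.T

open scoped TensorProduct nonZeroDivisors
open Function Filter Submodule Module

variable {k A : Type} [Field k] [CommRing A] [Algebra k A]

theorem ck_drop {V W : Submodule k A} {z : A} (hW : W = V ⊔ span k {z}) {n : ℕ}
    (hz : z ^ (n + 1) ∈ V * W ^ n) {N : ℕ} (hN : n ≤ N) : V * W ^ N = W ^ (N + 1) := by
  have hV : V ≤ W := hW ▸ le_sup_left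
  have hzW : z ∈ W := hW ▸ mem_sup_right (mem_span_singleton_self z)
  have step : ∀ n, W ^ (n + 1) ≤ V * W ^ n ⊔ span k {z ^ (n + 1)} := fun n => by
    induction n with
    | zero => simpa using hW.le
    | succ n ih =>
      rw [pow_succ' W (n + 1)]
      refine (mul_le_mul_right ih W).trans ?_
      rw [Submodule.mul_sup, mul_left_comm, ← pow_succ']
      refine sup_le le_sup_left ?_
      nth_rewrite 1 [hW]
      rw [Submodule.sup_mul, span_mul_span, Set.singleton_mul_singleton, ← pow_succ']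
      refine sup_le_sup_right (mul_le_mul_right ?_ V) _
      exact (span_singleton_le_iff_mem _ _).2 (pow_mem_pow W hzW _)
  refine le_antisymm (pow_succ' W N ▸ mul_le_mul_left hV _) ((step N).trans (sup_le le_rfl ?_))
  obtain ⟨j, rfl⟩ := Nat.exists_eq_add_of_le hN
  rw [span_singleton_le_iff_mem, add_right_comm, pow_add z, pow_add W, ← mul_assoc]
  exact mul_mem_mul hz (pow_mem_pow W hzW j)

theorem ck_fer {W : Submodule k A} {u v z : A} (hW : W = (span k {u} ⊔ span k {v}) ⊔ span k {z})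
    {n : ℕ} (h : u ^ (n + 1) + v ^ (n + 1) + z ^ (n + 1) = 0) {N : ℕ} (hN : n ≤ N) :
    (span k {u} ⊔ span k {v}) * W ^ N = W ^ (N + 1) := by
  refine ck_drop hW ?_ hN
  have hu : u ∈ span k {u} ⊔ span k {v} := mem_sup_left (mem_span_singleton_self u)
  have hv : v ∈ span k {u} ⊔ span k {v} := mem_sup_right (mem_span_singleton_self v)
  rw [eq_neg_of_add_eq_zero_right h, pow_succ' u, pow_succ' v]
  exact neg_mem (add_mem (mul_mem_mul hu (pow_mem_pow W (hW ▸ mem_sup_left hu) n))
    (mul_mem_mul hv (pow_mem_pow W (hW ▸ mem_sup_left hv) n)))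

theorem ck_rank [IsDomain A] {a : A} (ha : a ≠ 0) (P : Submodule k A) :
    finrank k ↥(span k {a} * P) = finrank k P := by
  have : span k {a} * P = P.map (LinearMap.mulLeft k a) := by
    ext z
    rw [mem_span_singleton_mul, Submodule.mem_map]
    rfl
  rw [this]
  exact (equivMapOfInjective (LinearMap.mulLeft k a) (mul_right_injective₀ ha) P).finrank_eq.symm

theorem ck_range (x y z : A) :
    span k (Set.range ![x, y, z]) = (span k {x} ⊔ span k {y}) ⊔ span k {z} := by
  rw [sup_assoc, ← span_insert, ← span_insert]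
  congr 1
  ext w
  simp only [Matrix.range_cons, Matrix.range_empty, Set.union_empty, Set.singleton_union]

theorem ck_mul (u v : A) : span k {u} * span k {v} = span k {u * v} := by
  rw [span_mul_span, Set.singleton_mul_singleton]

theorem ck_mnr (x y : A) (a b : k) : mnr k ![a • x, b • y, 1] ![x, y, 1] =
    span k {(a - b) • (x * y)} ⊔ (span k {(a - 1) • x} ⊔ span k {(b - 1) • y}) := by
  rw [← span_insert, ← span_insert]
  have e1 : (a - b) • (x * y) = a • x * y - b • y * x := by
    simp only [Algebra.smul_def, map_sub]; ring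
  have e2 : (a - 1) • x = a • x * 1 - 1 * x := by simp [sub_smul]
  have e3 : (b - 1) • y = b • y * 1 - 1 * y := by simp [sub_smul]
  rw [e1, e2, e3]
  refine le_antisymm (span_le.2 ?_) (span_mono ?_)
  · have m1 := subset_span (R := k) (s := {a • x * y - b • y * x, a • x * 1 - 1 * x,
      b • y * 1 - 1 * y}) (Or.inl rfl)
    have m2 := subset_span (R := k) (s := {a • x * y - b • y * x, a • x * 1 - 1 * x,
      b • y * 1 - 1 * y}) (Or.inr (Or.inl rfl))
    have m3 := subset_span (R := k) (s := {a • x * y - b • y * x, a • x * 1 - 1 * x,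
      b • y * 1 - 1 * y}) (Or.inr (Or.inr rfl))
    have z : ∀ w : A, w - w ∈ span k {a • x * y - b • y * x, a • x * 1 - 1 * x,
      b • y * 1 - 1 * y} := fun w => by rw [sub_self]; exact zero_mem _
    rintro _ ⟨⟨s, t⟩, rfl⟩
    fin_cases s <;> fin_cases t
    · exact z (a • x * x)
    · exact m1
    · exact m2
    · exact sub_mem_comm_iff.1 m1
    · exact z (b • y * y)
    · exact m3
    · exact sub_mem_comm_iff.1 m2
    · exact sub_mem_comm_iff.1 m3
    · exact z (1 * 1)
  · rintro _ (rfl | rfl | rfl)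
    exacts [⟨(0, 1), rfl⟩, ⟨(0, 2), rfl⟩, ⟨(1, 2), rfl⟩]

open Classical in
theorem ck_val [IsDomain A] {x y : A} {m : ℕ} (hm : m ≠ 0) (hB : Bas k x y m) (hx : x ≠ 0)
    (hy : y ≠ 0) (h : x ^ m + y ^ m + 1 ^ m = 0) {a b : k} (hab : ¬(a = 1 ∧ b = 1)) {N : ℕ}
    (hN : m ≤ N) :
    (finrank k ↥(span k (Set.range ![x, y, 1]) ^ (N + 2)) : ℤ) -
      finrank k ↥(mnr k ![a • x, b • y, 1] ![x, y, 1] * span k (Set.range ![x, y, 1]) ^ N) =
      m * ((if a = 1 then 1 else 0) + (if b = 1 then 1 else 0) + if a = b then 1 else 0) := by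
  obtain ⟨n, rfl⟩ : ∃ n, m = n + 1 := Nat.exists_eq_succ_of_ne_zero hm
  have st := hB.step (N := N + 1) (by omega)
  have hW := ck_range (k := k) x y 1
  generalize span k (Set.range ![x, y, 1]) = W at *
  have f1 : ∀ {N}, n ≤ N → (span k {x} ⊔ span k {y}) * W ^ N = W ^ (N + 1) := ck_fer hW h
  have f2 : (span k {x} ⊔ span k {1}) * W ^ N = W ^ (N + 1) :=
    ck_fer (z := y) (n := n) (hW.trans (sup_right_comm _ _ _)) (by rw [← h]; ring) (by omega)
  have f3 : (span k {y} ⊔ span k {1}) * W ^ N = W ^ (N + 1) :=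
    ck_fer (z := x) (n := n) (hW.trans ((sup_assoc _ _ _).trans (sup_comm _ _)))
      (by rw [← h]; ring) (by omega)
  have g2 : (span k {x * y} ⊔ span k {y}) * W ^ N = span k {y} * W ^ (N + 1) := by
    rw [← f2, ← mul_assoc, Submodule.mul_sup, ck_mul, ck_mul, mul_one, mul_comm y]
  have g3 : (span k {x * y} ⊔ span k {x}) * W ^ N = span k {x} * W ^ (N + 1) := by
    rw [← f3, ← mul_assoc, Submodule.mul_sup, ck_mul, ck_mul, mul_one]
  have u : ∀ {c d : k} (z : A), c ≠ d → span k {(c - d) • z} = span k {z} := fun z e =>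
    span_singleton_smul_eq (sub_ne_zero.2 e).isUnit z
  have w : ∀ (c : k) (z : A), span k {(c - c) • z} = ⊥ := fun c z => by simp
  rw [ck_mnr]
  by_cases ha : a = 1
  · have hb : b ≠ 1 := fun e => hab ⟨ha, e⟩
    subst ha
    rw [u _ hb.symm, w, u _ hb, bot_sup_eq, g2, ck_rank hy, st, if_pos rfl, if_neg hb,
      if_neg hb.symm]
    push_cast
    ring
  · by_cases hb : b = 1
    · subst hb
      rw [u _ ha, w, u _ ha, sup_bot_eq, g3, ck_rank hx, st, if_pos rfl, if_neg ha]
      push_cast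
      ring
    · by_cases e : a = b
      · subst e
        rw [w, u _ ha, u _ ha, bot_sup_eq, f1 (by omega), st, if_pos rfl, if_neg ha]
        push_cast
        ring
      · rw [u _ e, u _ ha, u _ hb, sup_sup_distrib_left, Submodule.sup_mul, g2, g3,
          ← Submodule.sup_mul, f1 (by omega), if_neg ha, if_neg hb, if_neg e]
        simp

theorem ck_diag {x y : A} {m : ℕ} (hB : Bas k x y m) {P : Submodule k A} (hP : P.FG)
    (h1 : (1 : A) ∈ P) {N : ℕ} (hN : m ≤ N) :
    (finrank k ↥(span k (Set.range ![x, y, 1]) ^ (N + 2)) : ℤ) -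
      finrank k ↥(P * span k (Set.range ![x, y, 1]) ^ N) ≤ 2 * m := by
  have s1 := hB.step hN
  have s2 : finrank k ↥(span k (Set.range ![x, y, 1]) ^ (N + 2)) = _ :=
    hB.step (N := N + 1) (by omega)
  have hW : (span k (Set.range ![x, y, 1])).FG := fg_span (Set.finite_range _)
  have := Module.Finite.iff_fg.2 (hP.mul (hW.pow N))
  have s3 : finrank k ↥(span k (Set.range ![x, y, 1]) ^ N) ≤
      finrank k ↥(P * span k (Set.range ![x, y, 1]) ^ N) :=
    finrank_mono fun z hz => one_mul z ▸ mul_mem_mul h1 hz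
  omega

theorem ck_char {G : Type} [Group G] [Fintype G] (χ : G →* ℂ) {h : G} (hh : χ h ≠ 1) (φ : G → ℂ)
    (e : ∀ g, φ (h * g) = φ g) : ∑ g, χ g * φ g = 0 := by
  have := Equiv.sum_comp (Equiv.mulLeft h) fun g => χ g * φ g
  simp only [Equiv.coe_mulLeft, map_mul, e, mul_assoc, ← Finset.mul_sum] at this
  exact by_contra fun n => hh (mul_right_cancel₀ n (this.trans (one_mul _).symm))

end Pool.Agent.Lib.MP_40dc3c_ag.T
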