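import Pool.Agent.Lib.MP_40dc3c_ag.T.CS
import Pool.Agent.Lib.MP_40dc3c_ag.T.CI
import Pool.Agent.Lib.MP_40dc3c_ag.T.CKb

/-! The functional of a power of the Fermat curve. -/

namespace Pool.Agent.Lib.MP_40dc3c_ag.T

open scoped TensorProduct nonZeroDivisors
open Function Filter Submodule Module

variable {k ι : Type} [Field k] [IsAlgClosed k] [Fintype ι] {ω : kˣ →* ℂˣ} {m : ℕ} [NeZero m]

omit [NeZero m] in
theorem ck_dom (hm : (m : k) ≠ 0) : IsDomain (Af k ι m ⊗[k] Af k ι m) :=
  haveI := af_dom (ι := ι) hm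
  dom_tensor _ _

omit [NeZero m] in
theorem co_invt (hm : (m : k) ≠ 0) (i : ι) :
    Invt (bil k (fun s => co k m i s ⊗ₜ[k] (1 : Af k ι m)) fun s => (1 : Af k ι m) ⊗ₜ[k] co k m i s)
      (mnr k (fun s => co k m i s ⊗ₜ[k] (1 : Af k ι m))
        fun s => (1 : Af k ι m) ⊗ₜ[k] co k m i s) := by
  have := ck_dom (ι := ι) hm
  refine invt_fer hm ?_ ?_ fun s t h => ?_
  · simp only [Algebra.TensorProduct.tmul_pow, one_pow]
    rw [← TensorProduct.sum_tmul, co_eq, TensorProduct.zero_tmul]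
  · simp only [Algebra.TensorProduct.tmul_pow, one_pow]
    rw [← TensorProduct.tmul_sum, co_eq, TensorProduct.tmul_zero]
  · simp only [Algebra.TensorProduct.tmul_mul_tmul, one_mul, mul_one]
    exact sub_ne_zero.2 (co_mnr_ne hm i h)

theorem chi_ne (hω : Injective ω) (hm : (m : k) ≠ 0) {c : ℤ} (hc : ¬(m : ℤ) ∣ c) :
    ∃ ζ : rootsOfUnity m k, chi ω m c ζ ≠ 1 := by
  have : NeZero (m : k) := ⟨hm⟩
  obtain ⟨z, hz⟩ := HasEnoughRootsOfUnity.exists_primitiveRoot k m
  refine ⟨hz.toRootsOfUnity, fun h => hc ?_⟩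
  rw [chi_apply, ← Units.val_zpow_eq_zpow_val, Units.val_eq_one, ← map_zpow,
    map_eq_one_iff ω hω] at h
  exact (hz.zpow_eq_one_iff_dvd c).1 (by simpa using congrArg Units.val h)

omit [IsAlgClosed k] [NeZero m] in
theorem ck_chis (c : ι × Fin 2 → ℤ) (g : ι × Fin 2 → rootsOfUnity m k) :
    chis ω m c g = ∏ i, chi ω m (c (i, 0)) (g (i, 0)) * chi ω m (c (i, 1)) (g (i, 1)) := by
  simp only [chis_apply, Fintype.prod_prod_type, Fin.prod_univ_two]

omit [IsAlgClosed k] [NeZero m] in
theorem ck_chi_add (c c' : ℤ) (ζ : rootsOfUnity m k) :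
    chi ω m (c + c') ζ = chi ω m c ζ * chi ω m c' ζ := by
  simp only [chi_apply, zpow_add₀ (Units.ne_zero _)]

omit [IsAlgClosed k] [Fintype ι] [NeZero m] in
theorem ck_sc (g : ι × Fin 2 → rootsOfUnity m k) (i : ι) : (fun s => sc m g (co k m i s)) =
    ![((g (i, 0)).1 : k) • co k m i 0, ((g (i, 1)).1 : k) • co k m i 1, 1] := by
  funext s
  fin_cases s
  exacts [(sc_co g i).1, (sc_co g i).2, map_one (sc m g)]

theorem fers_coord (hω : Injective ω) (hm : (m : k) ≠ 0) {c : ι × Fin 2 → ℤ} (hc : Prim m c) :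
    Coord (fers ω ι m c) (co k m) where
  dom := ck_dom hm
  one _ := rfl
  ne := co_ne hm
  gen := co_gen
  lin g i s := by
    refine (congrFun (ck_sc g i) s).symm ▸ ?_
    fin_cases s
    exacts [smul_mem _ _ (subset_span ⟨0, rfl⟩), smul_mem _ _ (subset_span ⟨1, rfl⟩),
      subset_span ⟨2, rfl⟩]
  inv := co_invt hm
  inf i := by
    classical
    obtain ⟨η, hη⟩ := chi_ne hω hm (hc i).2.2
    refine ⟨fun v => if v.1 = i then η else 1, η.1⁻¹, ?_, fun s => ?_, fun j hj s => ?_⟩
    · change chis ω m c _ ≠ 1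
      rw [ck_chis, Finset.prod_eq_single i]
      · simpa only [if_true, ← ck_chi_add] using hη
      · intro j _ hj
        simp only [if_neg hj, map_one, mul_one]
      · exact fun h => (h (Finset.mem_univ _)).elim
    · have e := congrFun (ck_sc (fun v : ι × Fin 2 => if v.1 = i then η else 1) i) s
      simp only [if_true] at e
      rw [fers_act, e]
      fin_cases s
      · exact ⟨0, by simp [smul_smul]⟩
      · exact ⟨0, by simp [smul_smul]⟩
      · exact ⟨(η.1⁻¹ : kˣ) - 1, by
          rw [map_sub, map_one, Algebra.algebraMap_eq_smul_one]; rfl⟩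
    · have e := congrFun (ck_sc (fun v : ι × Fin 2 => if v.1 = i then η else 1) j) s
      simp only [if_neg hj] at e
      rw [fers_act, e]
      fin_cases s
      · exact one_smul _ _
      · exact one_smul _ _
      · rfl

omit [IsAlgClosed k] [Fintype ι] [NeZero m] in
theorem ck_rn {ι₁ ι₂ : Type} (e : ι₁ → ι₂) (e' : ι₂ → ι) :
    (rn k m e').comp (rn k m e) = rn k m (e' ∘ e) :=
  af_ext fun i => by simp only [AlgHom.comp_apply, rn_co, comp_apply, and_self]

omit [IsAlgClosed k] [NeZero m] in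
theorem ck_empty [IsEmpty ι] (d : ℕ) :
    hs (k := k) (co k m) (⊥ : Ideal (Af k ι m ⊗[k] Af k ι m)) d = 1 := by
  have h0 : ferI k ι m = ⊥ := by rw [ferI, Set.range_eq_empty, Ideal.span_empty]
  have : Nontrivial (Af k ι m) := Ideal.Quotient.nontrivial_iff.2 (h0 ▸ bot_ne_top)
  have : Nontrivial (Af k ι m ⊗[k] Af k ι m) :=
    (Algebra.TensorProduct.lmul' k (S := Af k ι m)).toRingHom.domain_nontrivial
  rw [hs, hh, Fintype.sum_unique, hn, UU, DD, Fintype.prod_empty, Fintype.prod_empty, one_pow,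
    one_mul, one_mul, restrictScalars_bot, bot_inf_eq, finrank_bot, Submodule.one_eq_span,
    finrank_span_singleton one_ne_zero, Subsingleton.elim (default : Finset ι) ∅]
  simp

omit [IsAlgClosed k] [NeZero m] in
theorem ck_prod (n : ℕ) : ∀ (ι : Type) [Fintype ι], Fintype.card ι = n →
    ∀ (J : ι → Ideal (Af k Unit m ⊗[k] Af k Unit m)) (d : ℕ),
    hs (k := k) (co k m) (⨆ i, (J i).map
      (Algebra.TensorProduct.map (rn k m fun _ => i) (rn k m fun _ => i))) d =
      ∏ i, hs (k := k) (co k m) (J i) d := by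
  classical
  induction n with
  | zero =>
    intro ι _ h J d
    have := Fintype.card_eq_zero_iff.1 h
    rw [iSup_of_empty, Fintype.prod_empty, ck_empty]
  | succ n ih =>
    intro ι _ h J d
    obtain ⟨a⟩ : Nonempty ι := Fintype.card_pos_iff.1 (by omega)
    have he : Bijective (Sum.elim (fun _ : Unit => a) (Subtype.val : {i // i ≠ a} → ι)) := by
      refine ⟨?_, fun i => ?_⟩
      · rintro (_ | u) (_ | v) e
        exacts [rfl, (v.2 e.symm).elim, (u.2 e).elim, congrArg _ (Subtype.ext e)]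
      · by_cases e : i = a
        exacts [⟨.inl (), e.symm⟩, ⟨.inr ⟨i, e⟩, rfl⟩]
    have hc : Fintype.card {i // i ≠ a} = n := by
      rw [Fintype.card_subtype_compl, Fintype.card_subtype_eq, h]
      rfl
    rw [Fintype.prod_eq_mul_prod_subtype_ne _ a, ← ih _ hc (fun i => J i.1) d, iSup_split_single _ a,
      iSup_subtype']
    refine Eq.trans ?_ (hh_tens (rn_tens (k := k) (m := m) he).sq he
      (x := fun i s => co k m i s ⊗ₜ[k] 1) (y := fun i s => 1 ⊗ₜ[k] co k m i s)
      (fun i s => ?_) (fun i s => ?_) (fun i s => ?_) (fun i s => ?_) _ _ d)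
    · rw [Ideal.map_iSup]
      simp only [Ideal.map_mapₐ, ← Algebra.TensorProduct.map_comp, ck_rn]
      rfl
    all_goals rw [Algebra.TensorProduct.map_tmul, map_one, rn_co]

omit [NeZero m] in
theorem hs_prod (J : ι → Ideal (Af k Unit m ⊗[k] Af k Unit m)) (d : ℕ) :
    hs (k := k) (co k m) (⨆ i, (J i).map
      (Algebra.TensorProduct.map (rn k m fun _ => i) (rn k m fun _ => i))) d =
      ∏ i, hs (k := k) (co k m) (J i) d := ck_prod _ ι rfl J d

open Classical in
theorem ck_grf1 (hm : (m : k) ≠ 0) (g : Unit × Fin 2 → rootsOfUnity m k) (hg : g ≠ 1) :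
    ∀ᶠ d in atTop, hs (k := k) (co k m) (grf (sc m g)) d = m * ((if g ((), 0) = 1 then 1 else 0) +
      (if g ((), 1) = 1 then 1 else 0) + if g ((), 0) = g ((), 1) then 1 else 0) := by
  have := af_dom (ι := Unit) hm
  have := ck_dom (ι := Unit) hm
  have inj : ∀ a b : rootsOfUnity m k, ((a.1 : kˣ) : k) = ((b.1 : kˣ) : k) ↔ a = b := fun a b =>
    ⟨fun e => Subtype.ext (Units.ext e), fun e => by rw [e]⟩
  have one : ∀ a : rootsOfUnity m k, ((a.1 : kˣ) : k) = 1 ↔ a = 1 := fun a => inj a 1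
  have hab : ¬(((g ((), 0)).1 : k) = 1 ∧ ((g ((), 1)).1 : k) = 1) := fun h => hg (funext fun v => by
    obtain ⟨_, s⟩ := v
    fin_cases s
    exacts [(one _).1 h.1, (one _).1 h.2])
  have hF : co k m () 0 ^ m + co k m () 1 ^ m + 1 ^ m = 0 :=
    (Fin.sum_univ_three _).symm.trans (co_eq ())
  have val := fun N hN => ck_val (NeZero.ne m) (af_bas (k := k) (NeZero.ne m)) (co_ne hm () 0)
    (co_ne hm () 1) hF hab (N := N) hN
  have h := hs_grf (c := co k m ()) (co_ne hm ()) (co_invt hm ()) (sc m g) (by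
    rw [ck_sc, ck_range, span_singleton_smul_eq (Units.isUnit _),
      span_singleton_smul_eq (Units.isUnit _)]
    exact (ck_range _ _ _).symm) (by
    rw [ck_sc]
    intro h0
    have e := (ck_mnr (co k m () 0) (co k m () 1) _ _).symm.trans h0
    simp only [sup_eq_bot_iff, span_singleton_eq_bot, smul_eq_zero, co_ne hm, or_false,
      sub_eq_zero] at e
    exact hab e.2)
  filter_upwards [h, eventually_ge_atTop m] with d h1 h2
  rw [ck_sc] at h1
  refine h1.trans ((val (2 * d) (by omega)).trans ?_)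
  simp only [inj, one]

theorem ck_grf0 (hm : (m : k) ≠ 0) :
    ∀ᶠ d in atTop, hs (k := k) (co k m) (grf (AlgHom.id k (Af k Unit m))) d ≤ 2 * m := by
  have := af_dom (ι := Unit) hm
  have := ck_dom (ι := Unit) hm
  have hF : co k m () 0 ^ m + co k m () 1 ^ m + 1 ^ m = 0 :=
    (Fin.sum_univ_three _).symm.trans (co_eq ())
  rw [one_pow] at hF
  have hl : ∀ x : Af k Unit m, Algebra.TensorProduct.lmul' k (∑ i ∈ Finset.range m,
      (x ⊗ₜ[k] (1 : Af k Unit m)) ^ i * ((1 : Af k Unit m) ⊗ₜ[k] x) ^ (m - 1 - i)) =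
      m * x ^ (m - 1) := fun x => by
    simp only [map_sum, map_mul, map_pow, Algebra.TensorProduct.lmul'_apply_tmul, mul_one, one_mul]
    exact geom_sum₂_self x m
  have hmA : (m : Af k Unit m) ≠ 0 := fun e =>
    hm ((algebraMap k (Af k Unit m)).injective (by rw [map_natCast, map_zero, e]))
  have h := hs_diag (c := co k m ()) (co_ne hm ()) rfl (co_invt hm ())
    (sub_ne_zero.2 (co_mnr_ne hm () (s := 0) (t := 2) (by decide))) (by
      rw [(Commute.all _ _).mul_geom_sum₂, (Commute.all _ _).mul_geom_sum₂, sub_add_sub_comm]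
      simp only [Algebra.TensorProduct.tmul_pow, one_pow]
      rw [← TensorProduct.add_tmul, ← TensorProduct.tmul_add, eq_neg_of_add_eq_zero_left hF,
        TensorProduct.neg_tmul, TensorProduct.tmul_neg, sub_self])
    (hl (co k m () 0)) (hl (co k m () 1)) (mul_ne_zero hmA (pow_ne_zero _ (co_ne hm () 1)))
  filter_upwards [h, eventually_ge_atTop m] with d h1 h2
  refine h1.trans_le (ck_diag (af_bas (k := k) (NeZero.ne m)) (fg_span (Set.toFinite _)) ?_
    (by omega))
  have e : (1 : Af k Unit m) = (-(m : k)⁻¹) • (co k m () 0 * (m * co k m () 0 ^ (m - 1)) +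
      co k m () 1 * (m * co k m () 1 ^ (m - 1))) := by
    rw [mul_left_comm, mul_left_comm (co k m () 1), mul_pow_sub_one (NeZero.ne m),
      mul_pow_sub_one (NeZero.ne m), ← mul_add, eq_neg_of_add_eq_zero_left hF,
      ← map_natCast (algebraMap k (Af k Unit m)), ← Algebra.smul_def, smul_smul, neg_mul,
      inv_mul_cancel₀ hm, neg_smul, one_smul, neg_neg]
  rw [e]
  exact smul_mem _ _ (subset_span (Or.inr (Or.inr rfl)))

theorem fer_diag (hω : Injective ω) (hm : (m : k) ≠ 0) {c : Unit × Fin 2 → ℤ} (hc : Prim m c) :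
    ∀ᶠ d in atTop, hsum (fers ω Unit m c) (co k m) (grf (AlgHom.id k _)) d ≠ 0 := by
  classical
  let := Fintype.ofFinite (Unit × Fin 2 → rootsOfUnity m k)
  have hχ : ∀ a b : rootsOfUnity m k, chis ω m c (fun v : Unit × Fin 2 => ![a, b] v.2) =
      chi ω m (c ((), 0)) a * chi ω m (c ((), 1)) b := fun a b => by
    rw [ck_chis, Fintype.prod_unique]
    rfl
  obtain ⟨η0, h0⟩ := chi_ne hω hm (hc ()).1
  obtain ⟨η1, h1⟩ := chi_ne hω hm (hc ()).2.1
  obtain ⟨η2, h2⟩ := chi_ne hω hm (hc ()).2.2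
  have s0 := ck_char (chis ω m c) (h := fun v : Unit × Fin 2 => ![1, η1] v.2)
    (by rwa [hχ, map_one, one_mul]) (fun g => if g ((), 0) = 1 then 1 else 0) fun g => by simp
  have s1 := ck_char (chis ω m c) (h := fun v : Unit × Fin 2 => ![η0, 1] v.2)
    (by rwa [hχ, map_one, mul_one]) (fun g => if g ((), 1) = 1 then 1 else 0) fun g => by simp
  have s2 := ck_char (chis ω m c) (h := fun v : Unit × Fin 2 => ![η2, η2] v.2)
    (by rwa [hχ, ← ck_chi_add]) (fun g => if g ((), 0) = g ((), 1) then 1 else 0) fun g => by simp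
  have hall : ∀ᶠ d in atTop, ∀ g : Unit × Fin 2 → rootsOfUnity m k, g ≠ 1 →
      hs (k := k) (co k m) (grf (sc m g)) d = m * ((if g ((), 0) = 1 then 1 else 0) +
        (if g ((), 1) = 1 then 1 else 0) + if g ((), 0) = g ((), 1) then 1 else 0) :=
    eventually_all.2 fun g => eventually_all.2 (ck_grf1 hm g)
  filter_upwards [hall, ck_grf0 hm] with d e1 e2
  have e3 : sc m (1 : Unit × Fin 2 → rootsOfUnity m k) = AlgHom.id k _ :=
    map_one (fers ω Unit m c).act
  have key : hsum (fers ω Unit m c) (co k m) (grf (AlgHom.id k _)) d =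
      ((hs (k := k) (co k m) (grf (AlgHom.id k (Af k Unit m))) d - 3 * m : ℤ) : ℂ) := by
    rw [hsum_grf]
    change ∑ g : Unit × Fin 2 → rootsOfUnity m k, chis ω m c g *
      (hs (k := k) (co k m) (grf (sc m g)) d : ℂ) = _
    have e4 : ∀ g : Unit × Fin 2 → rootsOfUnity m k, chis ω m c g *
        (hs (k := k) (co k m) (grf (sc m g)) d : ℂ) =
        (if g = 1 then ((hs (k := k) (co k m) (grf (AlgHom.id k (Af k Unit m))) d - 3 * m : ℤ) : ℂ)
          else 0) + m * (chis ω m c g * (if g ((), 0) = 1 then 1 else 0) +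
          chis ω m c g * (if g ((), 1) = 1 then 1 else 0) +
          chis ω m c g * if g ((), 0) = g ((), 1) then 1 else 0) := fun g => by
      by_cases hg : g = 1
      · subst hg
        rw [e3, map_one]
        simp only [if_true, Pi.one_apply]
        push_cast
        ring
      · rw [e1 g hg, if_neg hg]
        push_cast
        ring
    simp only [e4, Finset.sum_add_distrib, ← Finset.mul_sum, s0, s1, s2, Finset.sum_ite_eq',
      Finset.mem_univ, if_true, add_zero, mul_zero]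
  rw [key]
  have := NeZero.pos m
  exact Int.cast_ne_zero.2 (by omega)

omit [IsAlgClosed k] in
theorem ck_ker {A : Type} [CommRing A] [Algebra k A] (g : A →ₐ[k] A) (I : Ideal (A ⊗[k] A))
    (h : (Ideal.Quotient.mkₐ k I).comp Algebra.TensorProduct.includeLeft =
      (Ideal.Quotient.mkₐ k I).comp (Algebra.TensorProduct.includeRight.comp g)) : grf g ≤ I := by
  intro z hz
  have e : Ideal.Quotient.mkₐ k I = ((Ideal.Quotient.mkₐ k I).comp
      Algebra.TensorProduct.includeRight).comp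
        (Algebra.TensorProduct.productMap g (AlgHom.id k A)) :=
    Algebra.TensorProduct.ext (h.trans (AlgHom.ext fun a => by simp)) (AlgHom.ext fun a => by simp)
  have h0 : Algebra.TensorProduct.productMap g (AlgHom.id k A) z = 0 := hz
  refine Ideal.Quotient.eq_zero_iff_mem.1 ((DFunLike.congr_fun e z).trans ?_)
  rw [AlgHom.comp_apply, h0, map_zero]

omit [IsAlgClosed k] in
theorem ck_mem {A B : Type} [CommRing A] [Algebra k A] [CommRing B] [Algebra k B] (g : A →ₐ[k] A)
    (g' : B →ₐ[k] B) (r : A →ₐ[k] B) (h : g'.comp r = r.comp g) {I : Ideal (B ⊗[k] B)}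
    (hI : (grf g).map (Algebra.TensorProduct.map r r) ≤ I) (a : A) :
    (Ideal.Quotient.mkₐ k I).comp Algebra.TensorProduct.includeLeft (r a) =
      (Ideal.Quotient.mkₐ k I).comp (Algebra.TensorProduct.includeRight.comp g') (r a) := by
  have h1 : a ⊗ₜ[k] (1 : A) - (1 : A) ⊗ₜ[k] g a ∈ grf g := by
    rw [grf, RingHom.mem_ker, map_sub]
    simp
  have h2 := hI (Ideal.mem_map_of_mem (Algebra.TensorProduct.map r r) h1)
  rw [map_sub, Algebra.TensorProduct.map_tmul, Algebra.TensorProduct.map_tmul, map_one,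
    ← AlgHom.comp_apply r g, ← h] at h2
  exact Ideal.Quotient.eq.2 h2

omit [IsAlgClosed k] in
theorem ck_le {A B : Type} [CommRing A] [Algebra k A] [CommRing B] [Algebra k B] (g : A →ₐ[k] A)
    (g' : B →ₐ[k] B) (r : A →ₐ[k] B) (h : g'.comp r = r.comp g) :
    (grf g).map (Algebra.TensorProduct.map r r) ≤ grf g' := by
  refine Ideal.map_le_iff_le_comap.2 fun z hz => ?_
  have e : (Algebra.TensorProduct.productMap g' (AlgHom.id k B)).comp
      (Algebra.TensorProduct.map r r) =
      r.comp (Algebra.TensorProduct.productMap g (AlgHom.id k A)) :=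
    Algebra.TensorProduct.ext (AlgHom.ext fun a => by simpa using DFunLike.congr_fun h a)
      (AlgHom.ext fun a => by simp)
  have h0 : Algebra.TensorProduct.productMap g (AlgHom.id k A) z = 0 := hz
  refine (DFunLike.congr_fun e z).trans ?_
  rw [AlgHom.comp_apply, h0, map_zero]

omit [IsAlgClosed k] [Fintype ι] [NeZero m] in
theorem ck_grf (g : ι × Fin 2 → rootsOfUnity m k) : grf (sc m g) =
    ⨆ i, (grf (sc m fun v : Unit × Fin 2 => g (i, v.2))).map
      (Algebra.TensorProduct.map (rn k m fun _ => i) (rn k m fun _ => i)) := by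
  refine le_antisymm (ck_ker _ _ (af_ext fun i => ?_))
    (iSup_le fun i => ck_le _ _ _ (sc_rn (fun _ : Unit => i) g))
  have h := ck_mem _ _ _ (sc_rn (fun _ : Unit => i) g) (le_iSup (fun i =>
    (grf (sc m fun v : Unit × Fin 2 => g (i, v.2))).map
      (Algebra.TensorProduct.map (rn k m fun _ => i) (rn k m fun _ => i))) i)
  have h0 := h (co k m () 0)
  have h1 := h (co k m () 1)
  rw [rn_co] at h0 h1
  exact ⟨h0, h1⟩

theorem fers_diag (hω : Injective ω) (hm : (m : k) ≠ 0) {c : ι × Fin 2 → ℤ} (hc : Prim m c) :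
    ∀ᶠ d in atTop, hsum (fers ω ι m c) (co k m) (grf (AlgHom.id k _)) d ≠ 0 := by
  classical
  have hall := eventually_all.2 fun i : ι =>
    fer_diag hω hm (c := fun v : Unit × Fin 2 => c (i, v.2)) fun _ => hc i
  filter_upwards [hall] with d h
  have key : hsum (fers ω ι m c) (co k m) (grf (AlgHom.id k _)) d =
      ∏ i, hsum (fers ω Unit m fun v => c (i, v.2)) (co k m) (grf (AlgHom.id k _)) d := by
    let := Fintype.ofFinite (Unit × Fin 2 → rootsOfUnity m k)
    let := Fintype.ofFinite (ι × Fin 2 → rootsOfUnity m k)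
    rw [hsum_grf (fers ω ι m c), Finset.prod_congr rfl fun i _ =>
      hsum_grf (fers ω Unit m fun v => c (i, v.2)) (co k m) d]
    change ∑ g : ι × Fin 2 → rootsOfUnity m k, chis ω m c g *
      (hs (k := k) (co k m) (grf (sc m g)) d : ℂ) = ∏ i, ∑ g : Unit × Fin 2 → rootsOfUnity m k,
        chis ω m (fun v => c (i, v.2)) g * (hs (k := k) (co k m) (grf (sc m g)) d : ℂ)
    rw [Fintype.prod_sum]
    refine Fintype.sum_equiv ⟨fun g i v => g (i, v.2), fun g v => g v.1 ((), v.2), fun _ => rfl,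
      fun _ => rfl⟩ _ _ fun g => ?_
    rw [ck_grf, hs_prod, ck_chis, Finset.prod_mul_distrib (f := fun i => chis ω m _ _)]
    simp only [ck_chis, Fintype.prod_unique, Equiv.coe_fn_mk, Int.cast_prod]
  rw [key]
  exact Finset.prod_ne_zero_iff.2 fun i _ => h i

theorem fers_fun (hω : Injective ω) (hm : (m : k) ≠ 0) {c : ι × Fin 2 → ℤ} (hc : Prim m c) :
    ∃ lam, IsFun (fers ω ι m c) lam ∧ IsHs (fers ω ι m c) (co k m) lam ∧
      lam (q (grf (AlgHom.id k _))) ≠ 0 := by
  obtain ⟨lam, h1, h2⟩ := (fers_coord hω hm hc).exists_fun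
  obtain ⟨d, e1, e2⟩ := ((h2 (grf (AlgHom.id k _))).and (fers_diag hω hm hc)).exists
  exact ⟨lam, h1, h2, e1 ▸ e2⟩

end Pool.Agent.Lib.MP_40dc3c_ag.T
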