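import Pool.Agent.Lib.MP_40dc3c_ag.T.CS
import Pool.Agent.Lib.MP_40dc3c_ag.T.CI
import Pool.Agent.Lib.MP_40dc3c_ag.T.CJ

/-! The functional of the Fermat curve does not vanish on the diagonal. -/

namespace Pool.Agent.Lib.MP_40dc3c_ag.T

open scoped TensorProduct nonZeroDivisors
open Function Filter Submodule Module

section lin

variable {k A : Type} [Field k] [CommRing A] [Algebra k A] {z : Fin 3 → A} {m : ℕ}

theorem cka_sup (V Z : Submodule k A) (N : ℕ) :
    (V ⊔ Z) ^ (N + 1) ≤ V * (V ⊔ Z) ^ N ⊔ Z ^ (N + 1) := by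
  induction N with
  | zero => simp
  | succ N ih =>
    rw [pow_succ' (V ⊔ Z) (N + 1), Submodule.sup_mul]
    refine sup_le le_sup_left ((mul_le_mul_right ih Z).trans ?_)
    rw [Submodule.mul_sup, ← pow_succ', mul_left_comm]
    refine sup_le_sup_right (mul_le_mul_right ?_ V) _
    rw [pow_succ']
    exact mul_le_mul_left le_sup_right _

theorem cka_two (hm : m ≠ 0) {s t r : Fin 3} (h1 : s ≠ t) (h2 : s ≠ r) (h3 : t ≠ r)
    (hz : ∑ i, z i ^ m = 0) {N : ℕ} (hN : m ≤ N) :
    span k {z s, z t} * span k (Set.range z) ^ N = span k (Set.range z) ^ (N + 1) := by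
  have hW : ∀ i, z i ∈ span k (Set.range z) := fun i => subset_span ⟨i, rfl⟩
  have hs : z s ∈ span k {z s, z t} := subset_span (by simp)
  have ht : z t ∈ span k {z s, z t} := subset_span (by simp)
  have e : span k (Set.range z) = span k {z s, z t} ⊔ span k {z r} := by
    refine le_antisymm (span_le.2 ?_) (sup_le (span_le.2 ?_) (span_le.2 ?_))
    · rintro _ ⟨i, rfl⟩
      rcases (by omega : i = s ∨ i = t ∨ i = r) with rfl | rfl | rfl
      · exact mem_sup_left hs
      · exact mem_sup_left ht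
      · exact mem_sup_right (mem_span_singleton_self _)
    · rintro _ (rfl | rfl) <;> exact hW _
    · rintro _ rfl
      exact hW _
  have hz' : z s ^ m + z t ^ m + z r ^ m = 0 := by
    rw [← hz, show (Finset.univ : Finset (Fin 3)) = {s, t, r} by
      ext i
      simp only [Finset.mem_univ, Finset.mem_insert, Finset.mem_singleton, true_iff]
      omega, Finset.sum_insert (by simp [h1, h2]), Finset.sum_pair h3, add_assoc]
  refine le_antisymm ?_ ?_
  · rw [pow_succ']
    exact mul_le_mul_left (e ▸ le_sup_left) _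
  · have h4 := cka_sup (span k {z s, z t}) (span k {z r}) N
    rw [← e] at h4
    refine h4.trans (sup_le le_rfl ?_)
    rw [span_pow, Set.singleton_pow]
    refine span_le.2 (Set.singleton_subset_iff.2 ?_)
    obtain ⟨n, rfl⟩ := Nat.exists_eq_succ_of_ne_zero hm
    obtain ⟨l, rfl⟩ := Nat.exists_eq_add_of_le hN
    have h5 : ∀ i, z i ^ n * z r ^ (l + 1) ∈ span k (Set.range z) ^ (n.succ + l) := fun i =>
      ce_pm (Submodule.pow_mem_pow _ (hW i) n) (Submodule.pow_mem_pow _ (hW r) _) (by omega)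
    have h6 := neg_mem (add_mem (mul_mem_mul hs (h5 s)) (mul_mem_mul ht (h5 t)))
    refine (congrArg (· ∈ _) ?_).mpr h6
    simp only [Nat.succ_eq_add_one] at hz' ⊢
    linear_combination z r ^ (l + 1) * hz'

theorem cka_mem (e : Fin 3 → k) {s t : Fin 3} (h : e s ≠ e t) :
    z s * z t ∈ mnr k (fun i => e i • z i) z := by
  have := ce_mnr (k := k) (x := fun i => e i • z i) (y := z) s t
  rw [smul_mul_assoc, smul_mul_assoc, mul_comm (z t), ← sub_smul] at this
  exact (smul_mem_iff _ (sub_ne_zero.2 h)).1 this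

theorem cka_ge (e : Fin 3 → k) {s t r : Fin 3} (h1 : e r ≠ e s) (h2 : e r ≠ e t) :
    span k {z r} * span k {z s, z t} ≤ mnr k (fun i => e i • z i) z := by
  rw [span_mul_span]
  refine span_le.2 ?_
  rintro _ ⟨_, rfl, _, rfl | rfl, rfl⟩
  · exact cka_mem e h1
  · exact cka_mem e h2

theorem cka_eq (e : Fin 3 → k) {s t r : Fin 3} (h1 : s ≠ t) (h2 : s ≠ r) (h3 : t ≠ r)
    (h4 : e s = e t) (h5 : e r ≠ e s) :
    mnr k (fun i => e i • z i) z = span k {z r} * span k {z s, z t} := by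
  refine le_antisymm (span_le.2 ?_) (cka_ge e h5 (h4 ▸ h5))
  have hs : z r * z s ∈ span k {z r} * span k {z s, z t} :=
    mul_mem_mul (mem_span_singleton_self _) (subset_span (by simp))
  have ht : z r * z t ∈ span k {z r} * span k {z s, z t} :=
    mul_mem_mul (mem_span_singleton_self _) (subset_span (by simp))
  rintro _ ⟨⟨i, j⟩, rfl⟩
  change e i • z i * z j - e j • z j * z i ∈ span k {z r} * span k {z s, z t}
  rw [smul_mul_assoc, smul_mul_assoc, mul_comm (z j), ← sub_smul]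
  have hi : i = s ∨ i = t ∨ i = r := by omega
  have hj : j = s ∨ j = t ∨ j = r := by omega
  rcases hi with rfl | rfl | rfl <;> rcases hj with rfl | rfl | rfl
  · simp
  · simp [h4]
  · exact smul_mem _ _ (mul_comm (z j) _ ▸ hs)
  · simp [h4]
  · simp
  · exact smul_mem _ _ (mul_comm (z j) _ ▸ ht)
  · exact smul_mem _ _ hs
  · exact smul_mem _ _ ht
  · simp

theorem cka_one [IsDomain A] (hm : m ≠ 0) (h0 : ∀ i, z i ≠ 0) (hz : ∑ i, z i ^ m = 0)
    (e : Fin 3 → k) {s t r : Fin 3} (h1 : s ≠ t) (h2 : s ≠ r) (h3 : t ≠ r) (h4 : e s = e t)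
    (h5 : e r ≠ e s) {N : ℕ} (hN : m ≤ N) :
    finrank k ↥(mnr k (fun i => e i • z i) z * span k (Set.range z) ^ N) =
      finrank k ↥(span k (Set.range z) ^ (N + 1)) := by
  rw [cka_eq e h1 h2 h3 h4 h5, mul_assoc, cka_two hm h1 h2 h3 hz hN, ← cf_mulLeft,
    cf_finrank_map _ (cf_mulLeft_inj (mem_nonZeroDivisors_of_ne_zero (h0 r)))]

theorem cka_gen (hm : m ≠ 0) (hz : ∑ i, z i ^ m = 0) (e : Fin 3 → k) (h1 : e 0 ≠ e 1)
    (h2 : e 0 ≠ e 2) (h3 : e 1 ≠ e 2) {N : ℕ} (hN : m ≤ N) :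
    mnr k (fun i => e i • z i) z * span k (Set.range z) ^ N = span k (Set.range z) ^ (N + 2) := by
  refine le_antisymm ?_ ?_
  · rw [add_comm, pow_add, pow_two]
    refine mul_le_mul_left (mnr_le_bil.trans (mul_le_mul_left (span_le.2 ?_) _)) _
    rintro _ ⟨i, rfl⟩
    exact smul_mem _ _ (subset_span ⟨i, rfl⟩)
  · have key : ∀ {s t r : Fin 3}, s ≠ t → s ≠ r → t ≠ r → e r ≠ e s → e r ≠ e t →
        span k {z r} * span k (Set.range z) ^ (N + 1) ≤
          mnr k (fun i => e i • z i) z * span k (Set.range z) ^ N := fun a b c d f => by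
      rw [← cka_two hm a b c hz hN, ← mul_assoc]
      exact mul_le_mul_left (cka_ge e d f) _
    rw [pow_succ' _ (N + 1)]
    nth_rewrite 1 [span_range_eq_iSup]
    rw [Submodule.iSup_mul]
    refine iSup_le fun i => ?_
    fin_cases i
    · exact key (s := 1) (t := 2) (by decide) (by decide) (by decide) h1 h2
    · exact key (s := 0) (t := 2) (by decide) (by decide) (by decide) h1.symm h3
    · exact key (s := 0) (t := 1) (by decide) (by decide) (by decide) h2.symm h3.symm

theorem cka_sum (X : Obj k) (P : X.G → Prop) [DecidablePred P] (g : X.G) (hg : X.χ g ≠ 1)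
    (h : ∀ a, P (g * a) ↔ P a) : ∑ a, X.χ a * (if P a then 1 else 0) = 0 := by
  have h1 : ∑ a, X.χ (g * a) * (if P (g * a) then 1 else 0) =
      ∑ a, X.χ a * (if P a then 1 else 0) :=
    Equiv.sum_comp (Equiv.mulLeft g) fun a => X.χ a * (if P a then 1 else 0)
  simp only [h, map_mul, mul_assoc, ← Finset.mul_sum] at h1
  rw [← sub_eq_zero, ← sub_one_mul, mul_eq_zero] at h1
  exact h1.resolve_left (sub_ne_zero.2 hg)

end lin

variable {k : Type} [Field k] [IsAlgClosed k] {ω : kˣ →* ℂˣ} {m : ℕ}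

open Classical in
theorem cka_grf (hm : (m : k) ≠ 0)
    (hi : Invt (bil k (fun s => co k m () s ⊗ₜ[k] (1 : Af k Unit m))
      fun s => (1 : Af k Unit m) ⊗ₜ[k] co k m () s)
      (mnr k (fun s => co k m () s ⊗ₜ[k] (1 : Af k Unit m))
        fun s => (1 : Af k Unit m) ⊗ₜ[k] co k m () s))
    (g : Unit × Fin 2 → rootsOfUnity m k) (hg : g ≠ 1) :
    ∀ᶠ d in atTop, (hs (k := k) (co k m) (grf (sc m g)) d : ℂ) =
      m * ((if g ((), 0) = 1 then 1 else 0) + (if g ((), 1) = 1 then 1 else 0) +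
        if g ((), 0) = g ((), 1) then 1 else 0) := by
  have hm0 : m ≠ 0 := by rintro rfl; simp at hm
  have := af_dom (ι := Unit) hm
  have := dom_tensor (k := k) (Af k Unit m) (Af k Unit m)
  let e : Fin 3 → k := ![(g ((), 0)).1, (g ((), 1)).1, 1]
  have he : (fun s => sc m g (co k m () s)) = fun s => e s • co k m () s := by
    funext s
    fin_cases s
    · exact (sc_co g ()).1
    · exact (sc_co g ()).2
    · exact (map_one (sc m g)).trans (one_smul k _).symm
  have he0 : ∀ s, e s ≠ 0 := fun s => by fin_cases s <;> simp [e]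
  have e0 : e 0 = e 2 ↔ g ((), 0) = 1 := by simp [e]
  have e1 : e 1 = e 2 ↔ g ((), 1) = 1 := by simp [e]
  have e2 : e 0 = e 1 ↔ g ((), 0) = g ((), 1) := by simp [e, Units.val_inj]
  have hne : ¬(g ((), 0) = 1 ∧ g ((), 1) = 1) := fun h => hg (funext fun v => by
    obtain ⟨⟨⟩, s⟩ := v
    fin_cases s
    · exact h.1
    · exact h.2)
  rw [← e0, ← e1] at hne
  simp only [← e0, ← e1, ← e2]
  have h0 := co_ne (k := k) hm ()
  have hz := co_eq (k := k) (m := m) ()
  have hb : mnr k (fun s => e s • co k m () s) (co k m ()) ≠ ⊥ := by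
    rcases not_and_or.1 hne with h | h <;>
      exact (Submodule.ne_bot_iff _).2 ⟨_, cka_mem e h, mul_ne_zero (h0 _) (h0 _)⟩
  have h1 := hs_grf h0 hi (sc m g) (by
    rw [he]
    refine le_antisymm (span_le.2 ?_) (span_le.2 ?_)
    · rintro _ ⟨i, rfl⟩
      exact smul_mem _ _ (subset_span ⟨i, rfl⟩)
    · rintro _ ⟨i, rfl⟩
      exact (smul_mem_iff _ (he0 i)).1 (subset_span ⟨i, rfl⟩)) (he ▸ hb)
  rw [he] at h1
  filter_upwards [h1, eventually_ge_atTop m] with d hd hmd
  have hN : m ≤ 2 * d := by omega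
  have st : finrank k ↥(span k (Set.range (co k m ())) ^ (2 * d + 2)) =
      finrank k ↥(span k (Set.range (co k m ())) ^ (2 * d + 1)) + m :=
    (af_bas (k := k) hm0).step (N := 2 * d + 1) (by omega)
  change ((hs (k := k) (fun _ : Unit => co k m ()) (grf (sc m g)) d : ℤ) : ℂ) = _
  rw [hd]
  by_cases a : e 0 = e 2
  · have b : e 1 ≠ e 2 := fun b => hne ⟨a, b⟩
    rw [cka_one hm0 h0 hz e (s := 0) (t := 2) (r := 1) (by decide) (by decide) (by decide) a
      (a ▸ b) hN, st, if_pos a, if_neg b, if_neg (a ▸ b.symm)]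
    simp
  by_cases b : e 1 = e 2
  · rw [cka_one hm0 h0 hz e (s := 1) (t := 2) (r := 0) (by decide) (by decide) (by decide) b
      (b ▸ a) hN, st, if_neg a, if_pos b, if_neg (b ▸ a)]
    simp
  by_cases c : e 0 = e 1
  · rw [cka_one hm0 h0 hz e (s := 0) (t := 1) (r := 2) (by decide) (by decide) (by decide) c
      (Ne.symm a) hN, st, if_neg a, if_neg b, if_pos c]
    simp
  · rw [cka_gen hm0 hz e c a b hN, if_neg a, if_neg b, if_neg c]
    simp

theorem cka_diag (hm : (m : k) ≠ 0)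
    (hi : Invt (bil k (fun s => co k m () s ⊗ₜ[k] (1 : Af k Unit m))
      fun s => (1 : Af k Unit m) ⊗ₜ[k] co k m () s)
      (mnr k (fun s => co k m () s ⊗ₜ[k] (1 : Af k Unit m))
        fun s => (1 : Af k Unit m) ⊗ₜ[k] co k m () s)) :
    ∀ᶠ d in atTop, hs (k := k) (ι := Unit) (co k m) (grf (AlgHom.id k _)) d ≤ 2 * m := by
  obtain ⟨n, rfl⟩ : ∃ n, m = n + 1 := Nat.exists_eq_succ_of_ne_zero (by rintro rfl; simp at hm)
  have := af_dom (ι := Unit) hm
  have := dom_tensor (k := k) (Af k Unit (n + 1)) (Af k Unit (n + 1))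
  have hb := af_bas (k := k) n.succ_ne_zero
  have h0 := co_ne (k := k) hm ()
  have hz := co_eq (k := k) (m := n + 1) ()
  have hu := co_mnr_ne (k := k) hm () (s := 0) (t := 2) (by decide)
  have h2 : co k (n + 1) () 2 = 1 := rfl
  change ∀ᶠ d in atTop, hs (k := k) (fun _ : Unit => co k (n + 1) ()) _ d ≤ _
  have hst : ∀ N, n + 1 ≤ N → finrank k ↥(span k (Set.range (co k (n + 1) ())) ^ (N + 1)) =
      finrank k ↥(span k (Set.range (co k (n + 1) ())) ^ N) + (n + 1) := fun N hN => hb.step hN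
  clear hb
  generalize co k (n + 1) () = c at *
  rw [h2] at hu
  rw [Fin.sum_univ_three, h2, one_pow] at hz
  have hl : ∀ s, Algebra.TensorProduct.lmul' k (∑ i ∈ Finset.range (n + 1),
      (c s ⊗ₜ[k] (1 : Af k Unit (n + 1))) ^ i * ((1 : Af k Unit (n + 1)) ⊗ₜ[k] c s) ^ (n + 1 - 1 - i)) =
      ((n + 1 : ℕ) : k) • c s ^ n := fun s => by
    rw [map_sum, Finset.sum_congr rfl (g := fun _ => c s ^ n) fun i hi => ?_, Finset.sum_const,
      Finset.card_range, Nat.cast_smul_eq_nsmul]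
    have := Finset.mem_range.1 hi
    simp only [map_mul, map_pow, Algebra.TensorProduct.lmul'_apply_tmul, mul_one, one_mul]
    rw [← pow_add]
    congr 1
    omega
  filter_upwards [hs_diag h0 h2 hi (sub_ne_zero.2 hu) (by
    rw [ce_mul_geom, ce_mul_geom]
    have a1 := congrArg (· ⊗ₜ[k] (1 : Af k Unit (n + 1))) hz
    have a2 := congrArg ((1 : Af k Unit (n + 1)) ⊗ₜ[k] ·) hz
    simp only [TensorProduct.add_tmul, TensorProduct.tmul_add, TensorProduct.zero_tmul,
      TensorProduct.tmul_zero] at a1 a2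
    simp only [Algebra.TensorProduct.tmul_pow, one_pow]
    linear_combination a1 - a2) (hl 0) (hl 1) (smul_ne_zero hm (pow_ne_zero _ (h0 1))),
    eventually_ge_atTop (n + 1)] with d hd hmd
  rw [hd, hst (2 * d + 1) (by omega), hst (2 * d) (by omega)]
  generalize hL : span k {((n + 1 : ℕ) : k) • c 0 ^ n, ((n + 1 : ℕ) : k) • c 1 ^ n,
    c 0 * ((n + 1 : ℕ) : k) • c 0 ^ n + c 1 * ((n + 1 : ℕ) : k) • c 1 ^ n} = L
  have h1 : (1 : Af k Unit (n + 1)) ∈ L := by
    rw [← smul_mem_iff _ hm, ← neg_mem_iff, ← hL]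
    refine subset_span (Or.inr (Or.inr ?_))
    rw [Set.mem_singleton_iff, mul_smul_comm, mul_smul_comm, ← smul_add, ← smul_neg]
    congr 1
    linear_combination -hz
  have hf : (L * span k (Set.range c) ^ (2 * d)).FG :=
    (hL ▸ fg_span (Set.toFinite _)).mul ((fg_span (Set.finite_range c)).pow _)
  have := Module.Finite.iff_fg.2 hf
  have h3 := Submodule.finrank_mono (s := span k (Set.range c) ^ (2 * d))
    (t := L * span k (Set.range c) ^ (2 * d)) fun x hx => by simpa using mul_mem_mul h1 hx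
  omega

/-- `fer_diag` from the invertibility of the diagonal and the nontrivial characters. -/
theorem fer_diag_of [NeZero m] (hm : (m : k) ≠ 0)
    (hi : Invt (bil k (fun s => co k m () s ⊗ₜ[k] (1 : Af k Unit m))
      fun s => (1 : Af k Unit m) ⊗ₜ[k] co k m () s)
      (mnr k (fun s => co k m () s ⊗ₜ[k] (1 : Af k Unit m))
        fun s => (1 : Af k Unit m) ⊗ₜ[k] co k m () s))
    (hχ : ∀ c : ℤ, ¬(m : ℤ) ∣ c → ∃ ζ : rootsOfUnity m k, chi ω m c ζ ≠ 1)
    {c : Unit × Fin 2 → ℤ} (hc : Prim m c) :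
    ∀ᶠ d in atTop, hsum (fers ω Unit m c) (co k m) (grf (AlgHom.id k _)) d ≠ 0 := by
  classical
  have hx : ∀ g, (fers ω Unit m c).χ g =
      chi ω m (c ((), 0)) (g ((), 0)) * chi ω m (c ((), 1)) (g ((), 1)) := fun g => by
    change chis ω m c g = _
    rw [chis_apply, Fintype.prod_prod_type, Fintype.prod_unique, Fin.prod_univ_two]
  obtain ⟨a, ha⟩ := hχ _ (hc ()).1
  obtain ⟨b, hb⟩ := hχ _ (hc ()).2.1
  obtain ⟨e, he⟩ := hχ _ (hc ()).2.2
  have s0 := cka_sum (fers ω Unit m c) (fun g => g ((), 0) = 1) (fun v => ![1, b] v.2)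
    (by simpa [hx] using hb) (by simp)
  have s1 := cka_sum (fers ω Unit m c) (fun g => g ((), 1) = 1) (fun v => ![a, 1] v.2)
    (by simpa [hx] using ha) (by simp)
  have s2 := cka_sum (fers ω Unit m c) (fun g => g ((), 0) = g ((), 1)) (fun _ => e)
    (by rwa [hx, chi_apply, chi_apply, ← zpow_add₀ (Units.ne_zero _), ← chi_apply]) (by simp)
  have h1 := eventually_all.2 fun g : Unit × Fin 2 → rootsOfUnity m k =>
    eventually_all.2 fun hg : g ≠ 1 => cka_grf hm hi g hg
  filter_upwards [h1, cka_diag hm hi] with d hd hd'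
  have h2 : ∀ g : (fers ω Unit m c).G, (fers ω Unit m c).χ g *
      (hs (k := k) (co k m) (grf ((fers ω Unit m c).act g)) d : ℂ) =
      m * ((fers ω Unit m c).χ g * (if g ((), 0) = 1 then 1 else 0) +
        (fers ω Unit m c).χ g * (if g ((), 1) = 1 then 1 else 0) +
        (fers ω Unit m c).χ g * if g ((), 0) = g ((), 1) then 1 else 0) +
      if g = 1 then (hs (k := k) (ι := Unit) (co k m) (grf (AlgHom.id k _)) d : ℂ) - 3 * m
        else 0 := by
    intro g
    by_cases hg : g = 1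
    · subst hg
      have e1 : ∀ v, (1 : (fers ω Unit m c).G) v = 1 := fun _ => rfl
      rw [map_one, map_one]
      simp only [e1, if_true]
      change 1 * (hs (k := k) (ι := Unit) (co k m) (grf (AlgHom.id k _)) d : ℂ) = _
      ring
    · rw [fers_act, hd g hg, if_neg hg]
      ring
  rw [hsum_grf, Finset.sum_congr rfl fun g _ => h2 g, Finset.sum_add_distrib, ← Finset.mul_sum,
    Finset.sum_add_distrib, Finset.sum_add_distrib, s0, s1, s2, Finset.sum_ite_eq']
  have h3 : hs (k := k) (ι := Unit) (co k m) (grf (AlgHom.id k _)) d - 3 * m ≠ 0 := by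
    have := NeZero.pos m
    omega
  simp only [add_zero, mul_zero, zero_add, Finset.mem_univ, if_true]
  exact_mod_cast h3

end Pool.Agent.Lib.MP_40dc3c_ag.T
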