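import Pool.Agent.Lib.MP_40dc3c_ag.T.CI
import Pool.Agent.Lib.MP_40dc3c_ag.T.CA
import Pool.Agent.Lib.MP_40dc3c_ag.T.CMa

/-! From affine ideals to homogeneous ideals. -/

namespace Pool.Agent.Lib.MP_40dc3c_ag.T

open scoped TensorProduct nonZeroDivisors
open Function Filter Submodule Module

variable {k ι : Type} [Field k] [Fintype ι] {m : ℕ}

section aux

open MvPolynomial

omit [Fintype ι] in
theorem cm_lift {L : Type} [CommRing L] [Algebra k L] (w : ι → Fin 3 → L) (h2 : ∀ i, w i 2 = 1)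
    (h : ∀ i, ∑ s, w i s ^ m = 0) : ∃ θ : Af k ι m →ₐ[k] L, ∀ i s, θ (co k m i s) = w i s := by
  have : ferI k ι m ≤ RingHom.ker (aeval fun v : ι × Fin 2 => w v.1 v.2.castSucc :
      MvPolynomial (ι × Fin 2) k →ₐ[k] L) := by
    refine Ideal.span_le.2 ?_
    rintro _ ⟨i, rfl⟩
    have := h i
    rw [Fin.sum_univ_three, h2, one_pow] at this
    simpa [RingHom.mem_ker, Fin.sum_univ_two] using this
  refine ⟨Ideal.Quotient.liftₐ _ _ fun a ha => this ha, fun i s => ?_⟩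
  fin_cases s <;> simp [co, h2]

/-- dehomogenisation on the square. -/
noncomputable def cmD (k : Type) [Field k] (ι : Type) (m : ℕ) :
    Pl k (ι ⊕ ι) →ₐ[k] Af k ι m ⊗[k] Af k ι m :=
  aeval fun v => Sum.elim (fun i => co k m i v.2 ⊗ₜ[k] 1) (fun i => 1 ⊗ₜ[k] co k m i v.2) v.1

omit [Fintype ι] in
theorem cmD_inl : (cmD k ι m).comp (rename (Prod.map .inl id)) =
    Algebra.TensorProduct.includeLeft.comp (deh k ι m) :=
  MvPolynomial.algHom_ext fun v => by simp [cmD, deh]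

omit [Fintype ι] in
theorem cmD_inr : (cmD k ι m).comp (rename (Prod.map .inr id)) =
    Algebra.TensorProduct.includeRight.comp (deh k ι m) :=
  MvPolynomial.algHom_ext fun v => by simp [cmD, deh]

omit [Fintype ι] in
theorem cmD_fer : ∀ f ∈ fermat k (ι ⊕ ι) m, cmD k ι m f = 0 := by
  refine (Ideal.span_le.2 ?_ : fermat k (ι ⊕ ι) m ≤ RingHom.ker (cmD k ι m))
  rintro _ ⟨i | i, rfl⟩
  · have := DFunLike.congr_fun (cmD_inl (k := k) (m := m)) (∑ s, X (i, s) ^ m)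
    simp only [AlgHom.comp_apply, deh, map_sum (aeval _), map_pow (aeval _), aeval_X, co_fermat,
      map_zero, map_sum (rename _), map_pow (rename _), rename_X] at this
    exact this
  · have := DFunLike.congr_fun (cmD_inr (k := k) (m := m)) (∑ s, X (i, s) ^ m)
    simp only [AlgHom.comp_apply, deh, map_sum (aeval _), map_pow (aeval _), aeval_X, co_fermat,
      map_zero, map_sum (rename _), map_pow (rename _), rename_X] at this
    exact this

theorem cmD_ker (hm : m ≠ 0) {f : Pl k (ι ⊕ ι)} {n : ι ⊕ ι → ℕ} (hf : f ∈ cmH k n)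
    (h : cmD k ι m f = 0) : f ∈ fermat k (ι ⊕ ι) m := cm_sat hm hf fun L _ _ w h2 h3 => by
  obtain ⟨θ, hθ⟩ := cm_lift (k := k) (fun i s => w (.inl i, s)) (fun _ => h2 _) fun _ => h3 _
  obtain ⟨θ', hθ'⟩ := cm_lift (k := k) (fun i s => w (.inr i, s)) (fun _ => h2 _) fun _ => h3 _
  have : (Algebra.TensorProduct.productMap θ θ').comp (cmD k ι m) = aeval w :=
    MvPolynomial.algHom_ext fun ⟨i, s⟩ => by rcases i with i | i <;> simp [cmD, hθ, hθ']
  rw [← this, AlgHom.comp_apply, h, map_zero]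

theorem cm_hil (hm : m ≠ 0) (I : Ideal (Pl k (ι ⊕ ι))) (N : ℕ) :
    hil (fermat k _ m ⊔ I) N = finrank k ↥(((fermat k _ m ⊔ I).restrictScalars k ⊓
      cmH k fun _ => N).map (cmD k ι m).toLinearMap) +
      finrank k ↥(LinearMap.ker (cmD k ι m).toLinearMap ⊓ cmH k fun _ => N) := by
  have h1 : LinearMap.ker (cmD k ι m).toLinearMap ⊓ ((fermat k _ m ⊔ I).restrictScalars k ⊓
      cmH k fun _ => N) = LinearMap.ker (cmD k ι m).toLinearMap ⊓ cmH k fun _ => N :=
    le_antisymm (inf_le_inf_left _ inf_le_right) fun f hf =>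
      ⟨hf.1, Ideal.mem_sup_left (cmD_ker hm hf.2 hf.1), hf.2⟩
  rw [hil, cm_rank (cmD k ι m).toLinearMap ((cmH_fg _).of_le inf_le_right), h1, Nat.cast_add]

theorem cmH_inl (a : ι → ℕ) : cmH k (Sum.elim a (0 : ι → ℕ)) =
    (cmH k a).map (rename (R := k) (Prod.map Sum.inl id)).toLinearMap := by
  rw [cmH_map, cmH_prod, Fintype.prod_sum_type]
  simp

theorem cmH_inr (a : ι → ℕ) : cmH k (Sum.elim (0 : ι → ℕ) a) =
    (cmH k a).map (rename (R := k) (Prod.map Sum.inr id)).toLinearMap := by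
  rw [cmH_map, cmH_prod, Fintype.prod_sum_type]
  simp

theorem cmH_two (d : ℕ) : cmH k (fun _ : ι ⊕ ι => d) =
    (cmH k fun _ => d).map (rename (R := k) (Prod.map Sum.inl id)).toLinearMap *
      (cmH k fun _ => d).map (rename (R := k) (Prod.map Sum.inr id)).toLinearMap := by
  rw [← cmH_inl, ← cmH_inr, ← cmH_add]
  congr 1
  funext j
  rcases j with j | j <;> simp

theorem cmH_bil (g : ι → ℕ) : cmH k (Sum.elim g g) =
    ∏ i, bil k (fun s => (X (.inl i, s) : Pl k (ι ⊕ ι))) (fun s => X (.inr i, s)) ^ g i := by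
  rw [cmH_prod, Fintype.prod_sum_type, ← Finset.prod_mul_distrib]
  simp only [bil, mul_pow, Sum.elim_inl, Sum.elim_inr]

theorem cm_hom_fer {J : Type} : CmHom (fermat k J m) := ⟨_, rfl, by
  rintro _ ⟨j, rfl⟩
  exact ⟨m • wt (j, 0), sum_mem fun s _ => (isWeightedHomogeneous_X k wt (j, s)).pow m⟩⟩

theorem cm_hom_top {J : Type} : CmHom (⊤ : Ideal (Pl k J)) := ⟨{1}, Ideal.span_singleton_one.symm, by
  rintro _ rfl
  exact ⟨0, isWeightedHomogeneous_one k wt⟩⟩

theorem cm_hom_clo (P Q : Ideal (Af k ι m)) : CmHom ((clo P).map (rename (Prod.map .inl id)) ⊔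
    (clo Q).map (rename (Prod.map .inr id)) : Ideal (Pl k (ι ⊕ ι))) := by
  refine ⟨_, by rw [clo, clo, Ideal.map_span, Ideal.map_span, ← Ideal.span_union], ?_⟩
  rintro _ (⟨f, ⟨⟨a, ha⟩, -⟩, rfl⟩ | ⟨f, ⟨⟨a, ha⟩, -⟩, rfl⟩)
  · exact ⟨_, cmH_inl (k := k) a ▸ mem_map_of_mem ha⟩
  · exact ⟨_, cmH_inr (k := k) a ▸ mem_map_of_mem ha⟩

theorem cm_box (P Q : Ideal (Af k ι m)) (d : ℕ) :
    (((clo P).map (rename (Prod.map .inl id)) ⊔ (clo Q).map (rename (Prod.map .inr id)) :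
      Ideal (Pl k (ι ⊕ ι))).restrictScalars k ⊓ cmH k fun _ => d).map (cmD k ι m).toLinearMap =
    (ibox P Q).restrictScalars k ⊓ (cmH k fun _ => d).map (cmD k ι m).toLinearMap := by
  have el : ∀ f, cmD k ι m (rename (Prod.map .inl id) f) =
      (Algebra.TensorProduct.includeLeft : _ →ₐ[k] _) (deh k ι m f) := DFunLike.congr_fun cmD_inl
  have er : ∀ f, cmD k ι m (rename (Prod.map .inr id) f) =
      (Algebra.TensorProduct.includeRight : _ →ₐ[k] _) (deh k ι m f) := DFunLike.congr_fun cmD_inr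
  refine le_antisymm (le_inf (map_le_iff_le_comap.2 fun f hf => ?_) (map_mono inf_le_right)) ?_
  · refine (sup_le ?_ ?_ : _ ≤ (ibox P Q).comap (cmD k ι m)) hf.1
    all_goals
      refine Ideal.map_le_iff_le_comap.2 (Ideal.span_le.2 fun g hg => ?_)
      rw [SetLike.mem_coe, Ideal.mem_comap, Ideal.mem_comap]
    · exact el g ▸ Ideal.mem_sup_left (Ideal.mem_map_of_mem _ hg.2)
    · exact er g ▸ Ideal.mem_sup_right (Ideal.mem_map_of_mem _ hg.2)
  have h1 : (cmH k fun _ => d).map (cmD k ι m).toLinearMap =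
      ((cmH k fun _ => d).map (deh k ι m).toLinearMap).map
        (Algebra.TensorProduct.includeLeft : _ →ₐ[k] _).toLinearMap *
      ((cmH k fun _ => d).map (deh k ι m).toLinearMap).map
        (Algebra.TensorProduct.includeRight : _ →ₐ[k] _).toLinearMap := by
    rw [cmH_two, Submodule.map_mul, ← map_comp, ← map_comp, ← map_comp, ← map_comp,
      ← AlgHom.comp_toLinearMap, ← AlgHom.comp_toLinearMap, ← AlgHom.comp_toLinearMap,
      ← AlgHom.comp_toLinearMap, cmD_inl, cmD_inr]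
  have h2 : ∀ f ∈ cmH k fun _ : ι => d, ∀ g ∈ cmH k fun _ : ι => d,
      rename (Prod.map .inl id) f * rename (Prod.map .inr id) g ∈ cmH k fun _ : ι ⊕ ι => d :=
    fun f hf g hg => cmH_two (k := k) (ι := ι) d ▸ mul_mem_mul (mem_map_of_mem hf) (mem_map_of_mem hg)
  rw [h1, ibox, isTens_incl.ideal, isTens_incl.inf]
  refine sup_le (mul_le.2 ?_) (mul_le.2 ?_)
  · rintro _ ⟨_, ⟨hP, f, hf, rfl⟩, rfl⟩ _ ⟨_, ⟨g, hg, rfl⟩, rfl⟩
    exact ⟨_, ⟨Ideal.mem_sup_left (Ideal.mul_mem_right _ _ (Ideal.mem_map_of_mem _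
      (Ideal.subset_span ⟨⟨_, hf⟩, hP⟩))), h2 f hf g hg⟩,
      (map_mul (cmD k ι m) _ _).trans (congrArg₂ _ (el f) (er g))⟩
  · rintro _ ⟨_, ⟨f, hf, rfl⟩, rfl⟩ _ ⟨_, ⟨hQ, g, hg, rfl⟩, rfl⟩
    exact ⟨_, ⟨Ideal.mem_sup_right (Ideal.mul_mem_left _ _ (Ideal.mem_map_of_mem _
      (Ideal.subset_span ⟨⟨_, hg⟩, hQ⟩))), h2 f hf g hg⟩,
      (map_mul (cmD k ι m) _ _).trans (congrArg₂ _ (el f) (er g))⟩

omit [Fintype ι] in
theorem cm_dg (T : Finset ι) : Ideal.span ((∏ i ∈ T, mnr k (fun s => (X (.inl i, s) : Pl k (ι ⊕ ι)))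
    fun s => X (.inr i, s) : Submodule k _) : Set (Pl k (ι ⊕ ι))) = ∏ i ∈ T, dgI k i := by
  refine Finset.prod_hom_rel
    (r := fun (W : Submodule k (Pl k (ι ⊕ ι))) I => Ideal.span (W : Set (Pl k (ι ⊕ ι))) = I) ?_
    fun i W I h => ?_
  · exact (Ideal.eq_top_iff_one _).2 (Ideal.subset_span (one_le.1 le_rfl)) |>.trans
      Ideal.one_eq_top.symm
  · rw [mul_eq_span_mul_set, Ideal.span, span_span_of_tower, ← h, ← Ideal.span,
      ← Ideal.span_mul_span', mnr, Ideal.span, span_span_of_tower]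
    rfl

theorem cm_main {B : Type} [CommRing B] [Algebra k B] (δ : Pl k (ι ⊕ ι) →ₐ[k] B)
    {F I : Ideal (Pl k (ι ⊕ ι))} (hF : CmHom F) (hI : CmHom I) (h0 : ∀ f ∈ F, δ f = 0)
    {I' : Ideal B} (hb : ∀ d, (I.restrictScalars k ⊓ cmH k fun _ => d).map δ.toLinearMap =
      I'.restrictScalars k ⊓ (cmH k fun _ => d).map δ.toLinearMap) : ∀ᶠ d in atTop, ∀ T,
    (finrank k ↥(((F ⊔ ∏ i ∈ T, dgI k i).restrictScalars k ⊓
      cmH k fun _ => d + 1).map δ.toLinearMap) : ℤ) -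
      finrank k ↥(((F ⊔ I * ∏ i ∈ T, dgI k i).restrictScalars k ⊓
        cmH k fun _ => d + 1).map δ.toLinearMap) =
    hn (UU k (fun i s => δ (X (.inl i, s))) fun i s => δ (X (.inr i, s)))
      (DD k (fun i s => δ (X (.inl i, s))) (fun i s => δ (X (.inr i, s))) T) I' d := by
  classical
  filter_upwards [cm_ev hI] with d hd T
  let c : ι → ℕ := fun i => if i ∈ T then 0 else 1
  let e : ι → ℕ := fun i => if i ∈ T then 1 else 0
  have h1 : (fun _ : ι ⊕ ι => d + 1) = (fun _ => d) + Sum.elim c c + Sum.elim e e := by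
    funext j
    rcases j with j | j <;> by_cases h : j ∈ T <;> simp [c, e, h]
  have h2 : (∏ i ∈ T, mnr k (fun s => (X (.inl i, s) : Pl k (ι ⊕ ι))) fun s => X (.inr i, s)) ≤
      cmH k (Sum.elim e e) := by
    rw [cmH_bil, ← Fintype.prod_ite_mem]
    refine Finset.prod_le_prod' fun i _ => ?_
    by_cases h : i ∈ T
    · simpa [e, h] using mnr_le_bil
    · simp [e, h]
  have h3 : cmH k (Sum.elim c c) * ∏ i ∈ T, mnr k (fun s => (X (.inl i, s) : Pl k (ι ⊕ ι)))
      (fun s => X (.inr i, s)) = DD k (fun i s => X (.inl i, s)) (fun i s => X (.inr i, s)) T := by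
    rw [cmH_bil, ← Fintype.prod_ite_mem T, ← Finset.prod_mul_distrib, DD]
    refine Finset.prod_congr rfl fun i _ => ?_
    by_cases h : i ∈ T <;> simp [c, h]
  have h4 : (cmH k fun _ => d).map δ.toLinearMap =
      UU k (fun i s => δ (X (.inl i, s))) (fun i s => δ (X (.inr i, s))) ^ d := by
    rw [← UU_map, ← Submodule.map_pow, UU, ← Finset.prod_pow, ← cmH_bil]
    congr 2
    funext j
    rcases j with j | j <;> rfl
  have h5 := cm_img δ hF cm_hom_top h0 ((fun _ => d) + Sum.elim c c) h2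
  rw [Ideal.top_mul] at h5
  rw [← cm_dg, h1, h5, cm_img δ hF hI h0 _ h2, hd, restrictScalars_top, top_inf_eq, cmH_add,
    Submodule.map_mul, Submodule.map_mul, mul_assoc, mul_assoc,
    ← Submodule.map_mul _ (∏ i ∈ T, _), h3, DD_map, hb, h4, hn, mul_comm (DD _ _ _ _),
    mul_comm (DD _ _ _ _)]

end aux

theorem clo_subv {P : Ideal (Af k ι m)} (hP : P.IsPrime) {e : ℕ}
    (he : Algebra.trdeg k (Af k ι m ⧸ P) = e) : Subv m (clo P) e := subv_clo hP he

theorem ifun_clo (hm : m ≠ 0) (P Q : Ideal (Af k ι m)) :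
    ∀ᶠ d in atTop, ifun m (clo P) (clo Q) (d + 1) = hs (k := k) (co k m) (ibox P Q) d := by
  filter_upwards [cm_main (cmD k ι m) (F := fermat k _ m) (I' := ibox P Q) cm_hom_fer
    (cm_hom_clo P Q) cmD_fer (cm_box P Q)] with d hd
  refine Finset.sum_congr rfl fun T _ => congrArg _ ?_
  have el : (fun i s => cmD k ι m (MvPolynomial.X (.inl i, s))) = fun i s => co k m i s ⊗ₜ[k] 1 :=
    funext₂ fun _ _ => MvPolynomial.aeval_X _ _
  have er : (fun i s => cmD k ι m (MvPolynomial.X (.inr i, s))) = fun i s => 1 ⊗ₜ[k] co k m i s :=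
    funext₂ fun _ _ => MvPolynomial.aeval_X _ _
  exact (congrArg₂ (· - ·) (cm_hil hm _ _) (cm_hil hm _ _)).trans
    ((add_sub_add_right_eq_sub _ _ _).trans ((hd T).trans (congrArg₂
      (fun x y => hn (UU k x y) (DD k x y T) (ibox P Q) d) el er)))

end Pool.Agent.Lib.MP_40dc3c_ag.T
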