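import Pool.Agent.Lib.MP_40dc3c_ag.T.CK
import Pool.Agent.Lib.MP_40dc3c_ag.T.CM
import Pool.Agent.Lib.MP_40dc3c_ag.T.CH

/-! Intersection numbers of products and of translates. -/

namespace Pool.Agent.Lib.MP_40dc3c_ag.T

open scoped TensorProduct nonZeroDivisors
open Function Filter Submodule Module

variable {k ι ι₁ ι₂ : Type} [Field k] {m : ℕ}

section num

variable [Fintype ι]

theorem hs_poly {A : Type} [CommRing A] [Algebra k A] (x : ι → Fin 3 → A) (J : Ideal (A ⊗[k] A)) :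
    ∃ P : Polynomial ℚ, ∀ᶠ d : ℕ in atTop, (hs (k := k) x J d : ℚ) = P.eval (d : ℚ) :=
  hh_poly _ _ J

/-- the intersection number attached to an ideal of the square. -/
noncomputable def inum (J : Ideal (Af k ι m ⊗[k] Af k ι m)) : ℚ :=
  (hs_poly (co k m) J).choose.eval (-1)

theorem inum_spec (J : Ideal (Af k ι m ⊗[k] Af k ι m)) : ∃ P : Polynomial ℚ,
    P.eval (-1) = inum J ∧ ∀ᶠ d : ℕ in atTop, (hs (k := k) (co k m) J d : ℚ) = P.eval (d : ℚ) :=
  ⟨(hs_poly (co k m) J).choose, by rw [inum], (hs_poly (co k m) J).choose_spec⟩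

theorem inter_inum (hm : m ≠ 0) (P Q : Ideal (Af k ι m)) :
    Inter m (clo P) (clo Q) (inum (ibox P Q)) := by
  obtain ⟨R, h1, h2⟩ := inum_spec (ibox (k := k) P Q)
  refine ⟨R.comp (Polynomial.X - 1), by simpa using h1, ?_⟩
  obtain ⟨a, ha⟩ := eventually_atTop.1 (h2.and (ifun_clo hm P Q))
  refine eventually_atTop.2 ⟨a + 1, fun N hN => ?_⟩
  obtain ⟨d, rfl⟩ : ∃ d, N = d + 1 := ⟨N - 1, by omega⟩
  rw [(ha d (by omega)).2, (ha d (by omega)).1]
  simp

theorem inum_sum {α : Type} [Fintype α] (w : α → ℂ) (J : α → Ideal (Af k ι m ⊗[k] Af k ι m))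
    {z : ℂ} (h : ∀ᶠ d : ℕ in atTop, ∑ a, w a * hs (k := k) (co k m) (J a) d = z) :
    ∑ a, w a * inum (J a) = z := by
  choose P h1 h2 using fun a => inum_spec (J a)
  let R : Polynomial ℂ := ∑ a, Polynomial.C (w a) * (P a).map (Rat.castHom ℂ) - Polynomial.C z
  have hR : ∀ x : ℚ, R.eval (x : ℂ) = ∑ a, w a * ((P a).eval x : ℚ) - z := fun x => by
    simp only [R, Polynomial.eval_sub, Polynomial.eval_finsetSum, Polynomial.eval_mul,
      Polynomial.eval_C]
    congr 1
    refine Finset.sum_congr rfl fun a _ => ?_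
    congr 1
    exact Polynomial.eval_map_apply (Rat.castHom ℂ) x
  obtain ⟨a, ha⟩ := eventually_atTop.1 (h.and (eventually_all.2 h2))
  have h0 : R = 0 := by
    refine Polynomial.eq_zero_of_infinite_isRoot R ?_
    refine Set.infinite_of_injective_forall_mem (f := fun n : ℕ => ((n + a : ℕ) : ℂ))
      (fun x y hxy => by simpa using hxy) fun n => ?_
    have := hR ((n + a : ℕ) : ℚ)
    rw [Rat.cast_natCast] at this
    change R.eval _ = 0
    rw [this, ← (ha (n + a) (by omega)).1, sub_eq_zero]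
    refine Finset.sum_congr rfl fun b _ => ?_
    rw [← (ha (n + a) (by omega)).2 b, Rat.cast_intCast]
  have := hR (-1)
  rw [h0, Polynomial.eval_zero, eq_comm, sub_eq_zero] at this
  simpa only [h1] using this

end num

section act

theorem sc_one : sc (k := k) (ι := ι) m 1 = AlgHom.id k _ :=
  af_ext fun i => by simpa using sc_co (k := k) (m := m) 1 i

theorem sc_mul (ζ η : ι × Fin 2 → rootsOfUnity m k) :
    sc m (ζ * η) = (sc m ζ).comp (sc m η) := af_ext fun i => by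
  simp only [AlgHom.comp_apply, (sc_co _ i).1, (sc_co _ i).2, map_smul, smul_smul, Pi.mul_apply,
    Subgroup.coe_mul, Units.val_mul, mul_comm, and_self]

theorem sc_inv (ζ : ι × Fin 2 → rootsOfUnity m k) (a : Af k ι m) : sc m ζ (sc m ζ⁻¹ a) = a := by
  rw [← AlgHom.comp_apply, ← sc_mul, mul_inv_cancel, sc_one, AlgHom.id_apply]

theorem sc_inv' (ζ : ι × Fin 2 → rootsOfUnity m k) (a : Af k ι m) : sc m ζ⁻¹ (sc m ζ a) = a := by
  rw [← AlgHom.comp_apply, ← sc_mul, inv_mul_cancel, sc_one, AlgHom.id_apply]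

theorem sc_bij (ζ : ι × Fin 2 → rootsOfUnity m k) : Bijective (sc m ζ) :=
  bijective_iff_has_inverse.2 ⟨sc m ζ⁻¹, sc_inv' ζ, sc_inv ζ⟩

theorem map_sc_sc (ζ η : ι × Fin 2 → rootsOfUnity m k) (I : Ideal (Af k ι m)) :
    (I.map (sc m η)).map (sc m ζ) = I.map (sc m (ζ * η)) := by
  rw [Ideal.map_mapₐ, sc_mul]

theorem map_sc_rn (e : ι₁ → ι) (ζ : ι × Fin 2 → rootsOfUnity m k) (I : Ideal (Af k ι₁ m)) :
    (I.map (rn k m e)).map (sc m ζ) =
      (I.map (sc m fun v => ζ (e v.1, v.2))).map (rn k m e) := by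
  rw [Ideal.map_mapₐ, Ideal.map_mapₐ, sc_rn]

theorem ker_map_sc (ψ : Af k ι m →ₐ[k] k) (ζ : ι × Fin 2 → rootsOfUnity m k) :
    (RingHom.ker ψ).map (sc m ζ) = RingHom.ker (ψ.comp (sc m ζ⁻¹)) := by
  refine le_antisymm (Ideal.map_le_iff_le_comap.2 fun a ha => ?_) fun b hb => ?_
  · change ψ (sc m ζ⁻¹ (sc m ζ a)) = 0
    rwa [sc_inv']
  · rw [← sc_inv ζ b]
    exact Ideal.mem_map_of_mem _ hb

theorem prime_map_sc {P : Ideal (Af k ι m)} (hP : P.IsPrime) {e : ℕ}
    (he : Algebra.trdeg k (Af k ι m ⧸ P) = e) (ζ : ι × Fin 2 → rootsOfUnity m k) :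
    (P.map (sc m ζ)).IsPrime ∧ Algebra.trdeg k (Af k ι m ⧸ P.map (sc m ζ)) = e :=
  ⟨Ideal.map_isPrime_of_equiv (AlgEquiv.ofBijective (sc m ζ) (sc_bij ζ)),
    (Ideal.quotientEquivAlg P (P.map (sc m ζ)) (AlgEquiv.ofBijective (sc m ζ) (sc_bij ζ))
      rfl).trdeg_eq.symm.trans he⟩

theorem span_unit_smul {σ B : Type} [AddCommGroup B] [Module k B] (u : σ → kˣ) (x : σ → B) :
    span k (Set.range fun s => (u s : k) • x s) = span k (Set.range x) := by
  refine le_antisymm (span_le.2 ?_) (span_le.2 ?_)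
  · rintro _ ⟨s, rfl⟩
    exact smul_mem _ _ (subset_span ⟨s, rfl⟩)
  · rintro _ ⟨s, rfl⟩
    exact (smul_mem_iff _ (u s).ne_zero).1 (subset_span ⟨s, rfl⟩)

theorem sc_co_unit (ζ : ι × Fin 2 → rootsOfUnity m k) (i : ι) :
    ∃ u : Fin 3 → kˣ, ∀ s, sc m ζ (co k m i s) = (u s : k) • co k m i s := by
  refine ⟨![(ζ (i, 0)).1, (ζ (i, 1)).1, 1], fun s => ?_⟩
  fin_cases s
  · exact (sc_co ζ i).1
  · exact (sc_co ζ i).2
  · simp [co]

theorem hs_scale [Fintype ι] {A : Type} [CommRing A] [Algebra k A] (x : ι → Fin 3 → A)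
    (g : A →ₐ[k] A) (hg : Bijective g) (h : ∀ i, ∃ u : Fin 3 → kˣ, ∀ s, g (x i s) = (u s : k) • x i s)
    (P Q : Ideal A) (d : ℕ) :
    hs (k := k) x (ibox (P.map g) (Q.map g)) d = hs (k := k) x (ibox P Q) d := by
  rw [← box_map]
  have hb : Bijective (Algebra.TensorProduct.map g g) :=
    TensorProduct.map_bijective (f := g.toLinearMap) (g := g.toLinearMap) hg hg
  refine Eq.trans ?_ (hh_map (Algebra.TensorProduct.map g g) hb _ _ _ d)
  refine (hh_congr (fun i => ?_) (fun i => ?_) _ d).symm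
  · obtain ⟨u, hu⟩ := h i
    simp only [Algebra.TensorProduct.map_tmul, map_one, hu, ← TensorProduct.smul_tmul',
      TensorProduct.tmul_smul, bil, span_unit_smul]
  · obtain ⟨u, hu⟩ := h i
    simp only [Algebra.TensorProduct.map_tmul, map_one, hu, ← TensorProduct.smul_tmul',
      TensorProduct.tmul_smul, mnr]
    refine Eq.trans ?_ (span_unit_smul (fun s : Fin 3 × Fin 3 => u s.1 * u s.2) _)
    congr 2
    funext s
    simp only [Units.val_mul, Algebra.smul_def, map_mul]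
    ring

theorem hs_sc [Fintype ι] (ζ : ι × Fin 2 → rootsOfUnity m k) (P Q : Ideal (Af k ι m)) (d : ℕ) :
    hs (k := k) (co k m) (ibox (P.map (sc m ζ)) (Q.map (sc m ζ))) d =
      hs (k := k) (co k m) (ibox P Q) d :=
  hs_scale _ _ (sc_bij ζ) (sc_co_unit ζ) P Q d

end act

section prod

theorem IsTens.cnsplit {B B₁ B₂ : Type} [CommRing B] [Algebra k B] [CommRing B₁] [Algebra k B₁]
    [CommRing B₂] [Algebra k B₂] {f₁ : B₁ →ₐ[k] B} {f₂ : B₂ →ₐ[k] B} (h : IsTens f₁ f₂)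
    (ψ : B₁ →ₐ[k] k) {V : Ideal B} (hV : (RingHom.ker ψ).map f₁ ≤ V) :
    V = (RingHom.ker ψ).map f₁ ⊔ (V.comap f₂).map f₂ := by
  refine le_antisymm (fun b hb => ?_) (sup_le hV Ideal.map_comap_le)
  have key : ∀ t, ∃ c, Algebra.TensorProduct.productMap f₁ f₂ t - f₂ c ∈
      (RingHom.ker ψ).map f₁ := fun t => by
    induction t using TensorProduct.induction_on with
    | zero => exact ⟨0, by simp⟩
    | tmul x y =>
      refine ⟨ψ x • y, ?_⟩
      have e : Algebra.TensorProduct.productMap f₁ f₂ (x ⊗ₜ y) - f₂ (ψ x • y) =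
          f₁ (x - algebraMap k B₁ (ψ x)) * f₂ y := by
        simp [Algebra.smul_def, sub_mul]
      rw [e]
      exact Ideal.mul_mem_right _ _ (Ideal.mem_map_of_mem _ (by simp [RingHom.mem_ker]))
    | add x y hx hy =>
      obtain ⟨c, hc⟩ := hx
      obtain ⟨c', hc'⟩ := hy
      refine ⟨c + c', ?_⟩
      rw [map_add, map_add, add_sub_add_comm]
      exact add_mem hc hc'
  obtain ⟨t, rfl⟩ := h.2 b
  obtain ⟨c, hc⟩ := key t
  have h1 : c ∈ V.comap f₂ := by
    have := sub_mem hb (hV hc)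
    rwa [sub_sub_cancel] at this
  have := add_mem (Ideal.mem_sup_left (T := (V.comap f₂).map f₂) hc)
    (Ideal.mem_sup_right (Ideal.mem_map_of_mem f₂ h1))
  rwa [sub_add_cancel] at this

theorem ibox_ker {A A' : Type} [CommRing A] [Algebra k A] [CommRing A'] [Algebra k A']
    (ψ : A →ₐ[k] k) (ψ' : A' →ₐ[k] k) : ibox (k := k) (RingHom.ker ψ) (RingHom.ker ψ') =
      RingHom.ker (Algebra.TensorProduct.productMap ψ ψ') := by
  rw [isTens_incl.cnsplit ψ (V := RingHom.ker (Algebra.TensorProduct.productMap ψ ψ'))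
    (Ideal.map_le_iff_le_comap.2 fun a ha => by simpa [RingHom.mem_ker] using ha), ibox]
  congr 2
  ext a
  simp [RingHom.mem_ker]

theorem cn_tens [Fintype ι] [Fintype ι₁] [Fintype ι₂] {e₁ : ι₁ → ι} {e₂ : ι₂ → ι}
    (he : Bijective (Sum.elim e₁ e₂)) (P₁ Q₁ : Ideal (Af k ι₁ m)) (P₂ Q₂ : Ideal (Af k ι₂ m))
    (d : ℕ) : hs (k := k) (co k m) (ibox (P₁.map (rn k m e₁) ⊔ P₂.map (rn k m e₂))
      (Q₁.map (rn k m e₁) ⊔ Q₂.map (rn k m e₂))) d =
      hs (k := k) (co k m) (ibox P₁ Q₁) d * hs (k := k) (co k m) (ibox P₂ Q₂) d := by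
  rw [box_sup, ← box_map, ← box_map]
  exact hh_tens (rn_tens he).sq he (fun i s => by simp [rn_co]) (fun i s => by simp [rn_co])
    (fun i s => by simp [rn_co]) (fun i s => by simp [rn_co]) _ _ d

theorem hs_iSup [IsAlgClosed k] [Fintype ι] (I J : ι → Ideal (Af k Unit m)) (d : ℕ) :
    hs (k := k) (co k m) (ibox (⨆ i, (I i).map (rn k m fun _ => i))
      (⨆ i, (J i).map (rn k m fun _ => i))) d =
      ∏ i, hs (k := k) (co k m) (ibox (I i) (J i)) d := by
  rw [← hs_prod]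
  simp only [box_map]
  simp only [ibox, Ideal.map_iSup, iSup_sup_eq]

theorem cn_elim_bij (p : ι → Prop) :
    Bijective (Sum.elim (Subtype.val : {i // p i} → ι) (Subtype.val : {i // ¬p i} → ι)) := by
  classical
  exact (Equiv.sumCompl p).bijective

theorem cn_elim_pt (i : ι) :
    Bijective (Sum.elim (fun _ : Unit => i) (Subtype.val : {j // j ≠ i} → ι)) := by
  constructor
  · rintro (a | a) (b | b) h
    · rfl
    · exact absurd h.symm b.2
    · exact absurd h a.2
    · exact congrArg _ (Subtype.ext h)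
  · intro j
    by_cases h : j = i
    · exact ⟨.inl (), h.symm⟩
    · exact ⟨.inr ⟨j, h⟩, rfl⟩

variable [IsAlgClosed k]

theorem hs_pt_one (hm : (m : k) ≠ 0) (ψ : Af k Unit m →ₐ[k] k) :
    (∀ᶠ d in atTop, hs (k := k) (co k m) (ibox (RingHom.ker ψ) ⊥) d = 1) ∧
      ∀ᶠ d in atTop, hs (k := k) (co k m) (ibox ⊥ (RingHom.ker ψ)) d = 1 := by
  have := af_dom (k := k) (ι := Unit) hm
  have := dom_tensor (k := k) (Af k Unit m) (Af k Unit m)
  refine hs_pt_bot (c := co k m ()) (co_ne hm ()) rfl (fun a ha => ?_) (co_invt hm ()) ψ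
  refine co_mnr_ne hm () (s := 0) (t := 2) (by decide) ?_
  rw [ha, show co k m () 2 = 1 from rfl, Algebra.algebraMap_eq_smul_one, TensorProduct.smul_tmul]

theorem hs_pt_zero (hm : (m : k) ≠ 0) (ψ ψ' : Af k Unit m →ₐ[k] k) :
    ∀ᶠ d in atTop, hs (k := k) (co k m) (ibox (RingHom.ker ψ) (RingHom.ker ψ')) d = 0 := by
  have := af_dom (k := k) (ι := Unit) hm
  have := dom_tensor (k := k) (Af k Unit m) (Af k Unit m)
  rw [ibox_ker]
  refine hh_pt (gen_UU (fun _ => rfl) (fun _ => rfl) ?_) (invt_DD (fun i s h => ?_)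
    (fun i s h => ?_) (co_invt hm)) _
  · refine eq_top_iff.2 fun t _ => ?_
    induction t using TensorProduct.induction_on with
    | zero => exact zero_mem _
    | add x y hx hy => exact add_mem (hx trivial) (hy trivial)
    | tmul x y =>
      rw [← mul_one x, ← one_mul y, ← Algebra.TensorProduct.tmul_mul_tmul]
      refine mul_mem ?_ ?_
      · have h := Subalgebra.mem_map.2 ⟨x, (co_gen (k := k) (ι := Unit) (m := m)).ge trivial,
          (rfl : Algebra.TensorProduct.includeLeft (R := k) (S := k) (B := Af k Unit m) x = _)⟩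
        rw [AlgHom.map_adjoin, ← Set.range_comp] at h
        exact Algebra.adjoin_mono Set.subset_union_left h
      · have h := Subalgebra.mem_map.2 ⟨y, (co_gen (k := k) (ι := Unit) (m := m)).ge trivial,
          (rfl : Algebra.TensorProduct.includeRight (A := Af k Unit m) y = _)⟩
        rw [AlgHom.map_adjoin, ← Set.range_comp] at h
        exact Algebra.adjoin_mono Set.subset_union_right h
  · exact co_ne hm i s (by simpa using congrArg (Algebra.TensorProduct.lmul' k) h)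
  · exact co_ne hm i s (by simpa using congrArg (Algebra.TensorProduct.lmul' k) h)

/-- two subvarieties that both lie over a point of the factor `i` do not meet numerically. -/
theorem hs_pt_pt [Fintype ι] (hm : (m : k) ≠ 0) (i : ι) (ψ ψ' : Af k Unit m →ₐ[k] k)
    {V W : Ideal (Af k ι m)} (hV : (RingHom.ker ψ).map (rn k m fun _ => i) ≤ V)
    (hW : (RingHom.ker ψ').map (rn k m fun _ => i) ≤ W) :
    ∀ᶠ d in atTop, hs (k := k) (co k m) (ibox V W) d = 0 := by
  classical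
  filter_upwards [hs_pt_zero hm ψ ψ'] with d hd
  rw [(rn_tens (cn_elim_pt i)).cnsplit ψ hV, (rn_tens (cn_elim_pt i)).cnsplit ψ' hW,
    cn_tens (cn_elim_pt i), hd, zero_mul]

end prod

end Pool.Agent.Lib.MP_40dc3c_ag.T
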