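import Pool.Agent.Lib.MP_40dc3c_ag.T.CNa
import Pool.Agent.Lib.MP_40dc3c_ag.T.CNb

/-! The intersection matrix. -/

namespace Pool.Agent.Lib.MP_40dc3c_ag.T

open scoped TensorProduct nonZeroDivisors
open Function Filter Submodule Module

variable {k ι : Type} [Field k] {m : ℕ}

/-- the character of a pattern on all factors. -/
def patz (f : ι → Bool ⊕ HD.Tri m) (v : ι × Fin 2) : ℤ :=
  (f v.1).elim (fun _ => 0) fun a => a.1 v.2.castSucc

/-- a point or the curve. -/
noncomputable def evI (ψ : Af k Unit m →ₐ[k] k) (x : Bool ⊕ HD.Tri m) (b : Bool) :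
    Ideal (Af k Unit m) := if x = .inl b then RingHom.ker ψ else ⊥

/-- the product of a subvariety of the odd factors with points and curves. -/
noncomputable def patI (ψ : Af k Unit m →ₐ[k] k) (f : ι → Bool ⊕ HD.Tri m) (b : Bool)
    (P : Ideal (Af k {i // (f i).isRight} m)) : Ideal (Af k ι m) :=
  P.map (rn k m Subtype.val) ⊔ (⨆ i : {i // ¬(f i).isRight},
    (evI ψ (f i) b).map (rn k m fun _ => i)).map (rn k m Subtype.val)

theorem pat_cases [Fintype ι] {f f' : ι → Bool ⊕ HD.Tri m} {r : ℕ}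
    (h : (Finset.univ.filter fun i => (f i).isRight).card +
      2 * (Finset.univ.filter fun i => f i = .inl true).card = 2 * r)
    (h' : (Finset.univ.filter fun i => (f' i).isRight).card +
      2 * (Finset.univ.filter fun i => f' i = .inl true).card = 2 * r) (hne : f ≠ f') :
    (∃ v, ¬(m : ℤ) ∣ patz f' v - patz f v) ∨ ∃ i, f i = .inl true ∧ f' i = .inl false := by
  by_contra hc
  push Not at hc
  have key : ∀ i, f i = f' i ∨ (f i = .inl false ∧ f' i = .inl true) := fun i => by
    have h0 := fun s => hc.1 (i, s)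
    have h1 := hc.2 i
    simp only [patz] at h0
    revert h0 h1
    rcases f i with b | a <;> rcases f' i with b' | a' <;> intro h0 h1
    · cases b <;> cases b' <;> simp_all
    · exact absurd (by simpa using h0 0) (tri_not_dvd a' 0)
    · exact absurd (by simpa using h0 0) (tri_not_dvd a 0)
    · exact Or.inl (congrArg _ (tri_ext h0).symm)
  have e1 : (Finset.univ.filter fun i => (f i).isRight) =
      Finset.univ.filter fun i => (f' i).isRight := by
    refine Finset.filter_congr fun i _ => ?_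
    rcases key i with h | h
    · rw [h]
    · simp [h.1, h.2]
  have e2 : (Finset.univ.filter fun i => f i = .inl true) =
      Finset.univ.filter fun i => f' i = .inl true := by
    refine Finset.eq_of_subset_of_card_le (fun i hi => ?_) (by rw [e1] at h; omega)
    simp only [Finset.mem_filter, Finset.mem_univ, true_and] at hi ⊢
    rcases key i with h | h
    · rwa [← h]
    · exact h.2
  refine hne (funext fun i => (key i).resolve_right fun h => ?_)
  have : i ∈ Finset.univ.filter fun i => f i = .inl true := by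
    rw [e2]
    simpa using h.2
  simp [h.1] at this

theorem pat_count [Fintype ι] (f : ι → Bool ⊕ HD.Tri m) (b : Bool) :
    ∑ i : {i // ¬(f i).isRight}, (if f i = .inl b then 0 else 1) =
      (Finset.univ.filter fun i => f i = .inl !b).card := by
  rw [Finset.card_filter, ← Fintype.sum_subtype_add_sum_subtype fun i => (f i).isRight = true,
    Finset.sum_eq_zero (s := (Finset.univ : Finset {i // (f i).isRight})), zero_add]
  · refine Finset.sum_congr rfl ?_
    rintro ⟨i, hi⟩ -
    obtain ⟨c, hc⟩ := Sum.isLeft_iff.1 (Sum.not_isRight.1 hi)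
    cases b <;> cases c <;> simp [hc]
  · rintro ⟨i, hi⟩ -
    obtain ⟨c, hc⟩ := Sum.isRight_iff.1 hi
    simp [hc]

theorem pat_total [Fintype ι] (f : ι → Bool ⊕ HD.Tri m) :
    (Finset.univ.filter fun i => (f i).isRight).card +
      (Finset.univ.filter fun i => f i = .inl true).card +
      (Finset.univ.filter fun i => f i = .inl false).card = Fintype.card ι := by
  simp only [Finset.card_filter, ← Finset.sum_add_distrib]
  rw [Fintype.card, Finset.card_eq_sum_ones]
  refine Finset.sum_congr rfl fun i _ => ?_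
  rcases f i with (_ | _) | a <;> simp

theorem patI_prime [IsAlgClosed k] [Fintype ι] (hm : (m : k) ≠ 0) (ψ : Af k Unit m →ₐ[k] k)
    (f : ι → Bool ⊕ HD.Tri m) (b : Bool) {P : Ideal (Af k {i // (f i).isRight} m)}
    (hP : P.IsPrime) {e : ℕ} (he : Algebra.trdeg k (Af k {i // (f i).isRight} m ⧸ P) = e) :
    (patI ψ f b P).IsPrime ∧ Algebra.trdeg k (Af k ι m ⧸ patI ψ f b P) =
      (e + (Finset.univ.filter fun i => f i = .inl !b).card : ℕ) := by
  have := af_dom (k := k) (ι := Unit) hm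
  have h := af_prod_prime (ι := {i // ¬(f i).isRight}) hm (P := fun i => evI ψ (f i) b)
    (e := fun i => if f i = .inl b then 0 else 1) (fun i => ?_) fun i => ?_
  · rw [pat_count] at h
    exact (rn_tens (cn_elim_bij _)).prime hP h.1 he h.2
  · unfold evI
    split_ifs
    · exact RingHom.ker_isPrime ψ
    · exact Ideal.isPrime_bot
  · unfold evI
    by_cases h : f i = .inl b
    · rw [if_pos h, if_pos h,
        (Ideal.quotientKerAlgEquivOfSurjective fun a => ⟨algebraMap k _ a, ψ.commutes a⟩).trdeg_eq,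
        trdeg_eq_zero, Nat.cast_zero]
    · rw [if_neg h, if_neg h, af_trdeg hm, Fintype.card_unit]

theorem patI_pt (ψ : Af k Unit m →ₐ[k] k) (f : ι → Bool ⊕ HD.Tri m) (b : Bool)
    (P : Ideal (Af k {i // (f i).isRight} m)) {i : ι} (hi : f i = .inl b)
    (g : ι × Fin 2 → rootsOfUnity m k) : ∃ ψ' : Af k Unit m →ₐ[k] k,
      (RingHom.ker ψ').map (rn k m fun _ => i) ≤ (patI ψ f b P).map (sc m g) := by
  refine ⟨ψ.comp (sc m (fun v : Unit × Fin 2 => g (i, v.2))⁻¹), ?_⟩
  rw [← ker_map_sc, ← map_sc_rn (fun _ : Unit => i) g]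
  refine Ideal.map_mono (le_trans ?_ le_sup_right)
  have h1 : ¬(f i).isRight := by simp [hi]
  refine le_trans ?_ (Ideal.map_mono (le_iSup _ (⟨i, h1⟩ : {i // ¬(f i).isRight})))
  rw [Ideal.map_mapₐ, evI, if_pos hi]
  refine le_of_eq (congrArg (fun t => Ideal.map t _) (af_ext fun j => ?_))
  simp [rn_co]

theorem hs_patI [IsAlgClosed k] [Fintype ι] (hm : (m : k) ≠ 0) (ψ : Af k Unit m →ₐ[k] k)
    (f : ι → Bool ⊕ HD.Tri m) (P Q : Ideal (Af k {i // (f i).isRight} m))
    (g : ι × Fin 2 → rootsOfUnity m k) : ∀ᶠ d in atTop,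
      hs (k := k) (co k m) (ibox ((patI ψ f true P).map (sc m g)) (patI ψ f false Q)) d =
        hs (k := k) (co k m) (ibox (P.map (sc m fun v => g (v.1.1, v.2))) Q) d := by
  have key : ∀ i : {i // ¬(f i).isRight}, ∀ᶠ d in atTop, hs (k := k) (co k m)
      (ibox ((evI ψ (f i) true).map (sc m fun v => g (i.1, v.2))) (evI ψ (f i) false)) d = 1 := by
    rintro ⟨i, hi⟩
    obtain ⟨c, hc⟩ := Sum.isLeft_iff.1 (Sum.not_isRight.1 hi)
    simp only [hc]
    cases c
    · rw [evI, evI, if_neg (by simp), if_pos rfl, Ideal.map_bot]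
      exact (hs_pt_one hm ψ).2
    · rw [evI, evI, if_pos rfl, if_neg (by simp), ker_map_sc]
      exact (hs_pt_one hm _).1
  filter_upwards [eventually_all.2 key] with d hd
  rw [patI, patI, Ideal.map_sup, map_sc_rn, map_sc_rn, cn_tens (cn_elim_bij _), Ideal.map_iSup]
  simp only [map_sc_rn]
  rw [hs_iSup, Finset.prod_eq_one fun i _ => hd i, mul_one]

theorem chis_patz [Fintype ι] (ω : kˣ →* ℂˣ) (f : ι → Bool ⊕ HD.Tri m)
    (g : ι × Fin 2 → rootsOfUnity m k) :
    chis ω m (patz f) g = chis ω m (patc f) fun v => g (v.1.1, v.2) := by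
  rw [chis_apply, chis_apply, Fintype.prod_prod_type, Fintype.prod_prod_type,
    ← Fintype.prod_subtype_mul_prod_subtype fun i => (f i).isRight = true,
    Finset.prod_eq_one (s := (Finset.univ : Finset {i // ¬(f i).isRight})), mul_one]
  · refine Finset.prod_congr rfl ?_
    rintro ⟨i, hi⟩ -
    refine Finset.prod_congr rfl fun s _ => ?_
    obtain ⟨a, ha⟩ := Sum.isRight_iff.1 hi
    simp [patz, patc, ha]
  · rintro ⟨i, hi⟩ -
    obtain ⟨a, ha⟩ := Sum.isLeft_iff.1 (Sum.not_isRight.1 hi)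
    simp [patz, ha, chi_apply]

theorem map_algHom_id {B : Type} [CommRing B] [Algebra k B] (I : Ideal B) :
    I.map (AlgHom.id k B) = I := Ideal.map_id I

section avg

variable {G : Type} [CommGroup G] [Fintype G] {F : G → G → ℂ}

theorem avg_ne {χ χ' : G →* ℂ} (hF : ∀ h g g', F (h * g) (h * g') = F g g') {h : G}
    (hh : χ h⁻¹ * χ' h ≠ 1) : ∑ x : G × G, χ x.1⁻¹ * χ' x.2 * F x.1 x.2 = 0 := by
  have e := Equiv.sum_comp (Equiv.mulLeft ((h, h) : G × G))
    fun x : G × G => χ x.1⁻¹ * χ' x.2 * F x.1 x.2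
  have e' : ∑ x : G × G, χ ((Equiv.mulLeft ((h, h) : G × G)) x).1⁻¹ *
      χ' ((Equiv.mulLeft ((h, h) : G × G)) x).2 * F ((Equiv.mulLeft ((h, h) : G × G)) x).1
      ((Equiv.mulLeft ((h, h) : G × G)) x).2 =
      χ h⁻¹ * χ' h * ∑ x : G × G, χ x.1⁻¹ * χ' x.2 * F x.1 x.2 := by
    rw [Finset.mul_sum]
    refine Finset.sum_congr rfl fun x _ => ?_
    simp only [Equiv.coe_mulLeft, Prod.fst_mul, Prod.snd_mul, hF, mul_inv, map_mul]
    ring
  rw [e'] at e
  by_contra h0
  exact hh (mul_left_eq_self₀.1 e |>.resolve_right h0)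

theorem avg_eq (χ : G →* ℂ) (hF : ∀ h g g', F (h * g) (h * g') = F g g') :
    ∑ x : G × G, χ x.1⁻¹ * χ x.2 * F x.1 x.2 = Fintype.card G * ∑ u, χ u⁻¹ * F u 1 := by
  rw [Fintype.sum_prod_type_right, ← nsmul_eq_mul, Fintype.card, ← Finset.sum_const]
  refine Finset.sum_congr rfl fun g' _ => ?_
  rw [← Equiv.sum_comp (Equiv.mulLeft g')]
  refine Finset.sum_congr rfl fun u _ => ?_
  have := hF g' u 1
  rw [mul_one] at this
  simp only [Equiv.coe_mulLeft, this, ← map_mul]
  congr 2
  simp [mul_comm]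

theorem sum_res {H : Type} [Group H] [Fintype H] (π : G →* H) (hπ : Surjective π) :
    ∃ N : ℕ, N ≠ 0 ∧ ∀ φ : H → ℂ, ∑ u, φ (π u) = N * ∑ w, φ w := by
  classical
  refine ⟨(Finset.univ.filter fun u => π u = 1).card,
    Finset.card_ne_zero.2 ⟨1, by simp⟩, fun φ => ?_⟩
  rw [Finset.sum_comp φ π, Finset.image_univ_of_surjective hπ, Finset.mul_sum]
  refine Finset.sum_congr rfl fun w _ => ?_
  rw [MonoidHom.card_fiber_eq_of_mem_range π (hπ w) (hπ 1), nsmul_eq_mul]

end avg

theorem gram_abs {τ G : Type} [Fintype τ] [DecidableEq τ] [Fintype G] (N : τ × G → τ × G → ℚ)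
    (u v : τ → G → ℂ)
    (off : ∀ a b, a ≠ b → ∑ x : G × G, u a x.1 * v b x.2 * N (a, x.1) (b, x.2) = 0)
    (dia : ∀ a, ∑ x : G × G, u a x.1 * v a x.2 * N (a, x.1) (a, x.2) ≠ 0) :
    ∃ a b : τ → τ × G, (Matrix.of fun x y => N (a x) (b y)).det ≠ 0 := by
  refine exists_minor (Matrix.of N) (Matrix.of fun a x => if x.1 = a then u a x.2 else 0)
    (Matrix.of fun y b => if y.1 = b then v b y.2 else 0) ?_
  have e : (Matrix.of fun a (x : τ × G) => if x.1 = a then u a x.2 else 0) *
      (Matrix.of N).map (Rat.cast : ℚ → ℂ) *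
      (Matrix.of fun (y : τ × G) b => if y.1 = b then v b y.2 else 0) =
      Matrix.diagonal fun a => ∑ x : G × G, u a x.1 * v a x.2 * N (a, x.1) (a, x.2) := by
    ext a b
    have : ∑ x : G × G, u a x.1 * v b x.2 * N (a, x.1) (b, x.2) =
        Matrix.diagonal (fun a => ∑ x : G × G, u a x.1 * v a x.2 * N (a, x.1) (a, x.2)) a b := by
      by_cases h : a = b
      · subst h
        rw [Matrix.diagonal_apply_eq]
      · rw [Matrix.diagonal_apply_ne _ h, off a b h]
    rw [← this, Fintype.sum_prod_type_right]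
    simp only [Matrix.mul_apply, Matrix.of_apply, Matrix.map_apply, Fintype.sum_prod_type,
      ite_mul, mul_ite, zero_mul, mul_zero, Finset.sum_ite_irrel, Finset.sum_const_zero,
      Finset.sum_ite_eq', Finset.mem_univ, if_true, Finset.sum_mul]
    refine Finset.sum_congr rfl fun g' _ => Finset.sum_congr rfl fun g _ => ?_
    ring
  rw [e, Matrix.det_diagonal]
  exact Finset.prod_ne_zero_iff.2 fun a _ => dia a

theorem gram {k ι : Type} [Field k] [IsAlgClosed k] [Fintype ι] {ω : kˣ →* ℂˣ} {m : ℕ} [NeZero m]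
    (hω : Injective ω) (hm : (m : k) ≠ 0) (T : Finset (ι → Bool ⊕ HD.Tri m)) (r : ℕ)
    (h1 : ∀ f ∈ T, (Finset.univ.filter fun i => (f i).isRight).card +
      2 * (Finset.univ.filter fun i => f i = .inl true).card = 2 * r)
    (h2 : ∀ f ∈ T, Mid ω {i // (f i).isRight} m (patc f)) :
    ∃ (V W : Fin T.card → Ideal (Pl k ι)) (M : Matrix (Fin T.card) (Fin T.card) ℚ),
      (∀ a, Subv m (V a) (Fintype.card ι - r)) ∧ (∀ b, Subv m (W b) r) ∧
      (∀ a b, Inter m (V a) (W b) (M a b)) ∧ M.det ≠ 0 := by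
  classical
  obtain ⟨ψ⟩ := af_pt (k := k) (NeZero.ne m)
  let t : Fin T.card → ι → Bool ⊕ HD.Tri m := fun a => (T.equivFin.symm a).1
  have ht : ∀ a, t a ∈ T := fun a => (T.equivFin.symm a).2
  have hti : Injective t := fun a b h => T.equivFin.symm.injective (Subtype.ext h)
  choose P Q e z hP hQ he dP dQ hz hs0 using fun a => h2 _ (ht a)
  let G := ι × Fin 2 → rootsOfUnity m k
  let _ : Fintype G := Fintype.ofFinite G
  let V : Fin T.card × G → Ideal (Af k ι m) := fun x => (patI ψ (t x.1) true (P x.1)).map (sc m x.2)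
  let W : Fin T.card × G → Ideal (Af k ι m) := fun x =>
    (patI ψ (t x.1) false (Q x.1)).map (sc m x.2)
  let χ : Fin T.card → G →* ℂ := fun a => chis ω m (patz (t a))
  have hF : ∀ a b d (h g g' : G),
      (hs (k := k) (co k m) (ibox (V (a, h * g)) (W (b, h * g'))) d : ℂ) =
        hs (k := k) (co k m) (ibox (V (a, g)) (W (b, g'))) d := fun a b d h g g' => by
    simp only [V, W]
    rw [← map_sc_sc h g, ← map_sc_sc h g', hs_sc]
  have off : ∀ a b, a ≠ b →
      ∑ x : G × G, χ a x.1⁻¹ * χ b x.2 * inum (ibox (V (a, x.1)) (W (b, x.2))) = 0 := by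
    intro a b hab
    refine inum_sum _ _ ?_
    rcases pat_cases (h1 _ (ht a)) (h1 _ (ht b)) (hti.ne hab) with ⟨v, hv⟩ | ⟨i, i1, i2⟩
    · obtain ⟨ζ, hζ⟩ := chi_ne hω hm hv
      refine Eventually.of_forall fun d => avg_ne (χ := χ a) (χ' := χ b)
        (F := fun g g' => hs (k := k) (co k m) (ibox (V (a, g)) (W (b, g'))) d) (hF a b d)
        (h := Pi.mulSingle v ζ) ?_
      have e1 : ∀ c : ι × Fin 2 → ℤ, ∀ η, chis ω m c (Pi.mulSingle v η) = chi ω m (c v) η := by
        intro c η
        rw [chis_apply, Finset.prod_eq_single v (fun w _ hw => by simp [hw]) (by simp)]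
        simp
      simp only [χ]
      rw [← Pi.mulSingle_inv, e1, e1]
      convert hζ using 1
      simp only [chi_apply, map_inv]
      rw [zpow_sub₀ (Units.ne_zero _), div_eq_inv_mul]
    · have key : ∀ x : G × G, ∀ᶠ d in atTop,
          hs (k := k) (co k m) (ibox (V (a, x.1)) (W (b, x.2))) d = 0 := fun x => by
        obtain ⟨ψ₁, p1⟩ := patI_pt ψ (t a) true (P a) i1 x.1
        obtain ⟨ψ₂, p2⟩ := patI_pt ψ (t b) false (Q b) i2 x.2
        exact hs_pt_pt hm i ψ₁ ψ₂ p1 p2
      filter_upwards [eventually_all.2 key] with d hd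
      simp [hd]
  have dia : ∀ a, ∑ x : G × G, χ a x.1⁻¹ * χ a x.2 * inum (ibox (V (a, x.1)) (W (a, x.2))) ≠ 0 := by
    intro a
    let π : G →* (fers ω {i // (t a i).isRight} m (patc (t a))).G :=
      { toFun := fun g v => g (v.1.1, v.2), map_one' := rfl, map_mul' := fun _ _ => rfl }
    obtain ⟨N, hN, hπ⟩ := @sum_res _ _ _ _ _ (Obj.fin _) π fun w =>
      ⟨fun v => if h : (t a v.1).isRight then w (⟨v.1, h⟩, v.2) else 1,
        funext fun v => dif_pos v.1.2⟩
    rw [inum_sum _ _ (z := Fintype.card G * (N * z a))]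
    · exact mul_ne_zero (Nat.cast_ne_zero.2 Fintype.card_ne_zero)
        (mul_ne_zero (Nat.cast_ne_zero.2 hN) (hz a))
    · filter_upwards [hs0 a, eventually_all.2 (hs_patI hm ψ (t a) (P a) (Q a))] with d d1 d2
      rw [avg_eq (F := fun g g' => hs (k := k) (co k m) (ibox (V (a, g)) (W (a, g'))) d) (χ a)
        (hF a a d), d1, hsum, ← hπ]
      congr 1
      refine Finset.sum_congr rfl fun u _ => ?_
      simp only [V, W, χ]
      rw [sc_one, box_map, chis_patz, map_algHom_id, map_algHom_id, d2 u]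
      rfl
  obtain ⟨a, b, hab⟩ := gram_abs (fun x y => inum (ibox (V x) (W y))) (fun a g => χ a g⁻¹)
    (fun a g => χ a g) off dia
  refine ⟨fun x => clo (V (a x)), fun y => clo (W (b y)), _, fun x => ?_, fun y => ?_,
    fun x y => inter_inum (NeZero.ne m) _ _, hab⟩
  · obtain ⟨p1, p2⟩ := patI_prime hm ψ (t (a x).1) true (hP _) (dP _)
    obtain ⟨p3, p4⟩ := prime_map_sc p1 p2 (a x).2
    refine clo_subv p3 (p4.trans (congrArg _ ?_))
    have c1 := h1 _ (ht (a x).1)
    have c2 := pat_total (t (a x).1)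
    have c3 := he (a x).1
    rw [Fintype.card_subtype] at c3
    simp only [Bool.not_true]
    omega
  · obtain ⟨p1, p2⟩ := patI_prime hm ψ (t (b y).1) false (hQ _) (dQ _)
    obtain ⟨p3, p4⟩ := prime_map_sc p1 p2 (b y).2
    refine clo_subv p3 (p4.trans (congrArg _ ?_))
    have c1 := h1 _ (ht (b y).1)
    have c3 := he (b y).1
    rw [Fintype.card_subtype] at c3
    simp only [Bool.not_false]
    omega

end Pool.Agent.Lib.MP_40dc3c_ag.T
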