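import Pool.Agent.Lib.MP_40dc3c_ag.T.CDefs
import Pool.Agent.Lib.MP_40dc3c_ag.HDp

/-! Minors of a rectangular matrix; the characters of a pattern. -/

namespace Pool.Agent.Lib.MP_40dc3c_ag.T

open scoped TensorProduct nonZeroDivisors
open Function Filter Submodule Module

theorem exists_rows {α τ : Type} [Fintype α] [Fintype τ] [DecidableEq τ] (A : Matrix τ α ℂ)
    (N : Matrix α τ ℂ) (h : (A * N).det ≠ 0) : ∃ a : τ → α, (N.submatrix a id).det ≠ 0 := by
  classical
  by_contra hc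
  push Not at hc
  apply h
  have e : A * N = fun i => ∑ j, A i j • N j := by
    ext i j
    simp [Matrix.mul_apply]
  have key := (Matrix.detRowAlternating (R := ℂ) (n := τ)).toMultilinearMap.map_sum
    (fun i j => A i j • N j)
  refine (congrArg Matrix.det e).trans (key.trans (Finset.sum_eq_zero fun a _ => ?_))
  rw [MultilinearMap.map_smul_univ]
  exact smul_eq_zero_of_right _ (hc a)

theorem exists_minor {α β τ : Type} [Fintype α] [Fintype β] [Fintype τ] [DecidableEq τ]
    (M : Matrix α β ℚ) (A : Matrix τ α ℂ) (B : Matrix β τ ℂ)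
    (h : (A * M.map (Rat.cast : ℚ → ℂ) * B).det ≠ 0) :
    ∃ (a : τ → α) (b : τ → β), (M.submatrix a b).det ≠ 0 := by
  rw [Matrix.mul_assoc] at h
  obtain ⟨a, ha⟩ := exists_rows _ _ h
  have e : ((M.map (Rat.cast : ℚ → ℂ) * B).submatrix a id).transpose =
      B.transpose * ((M.map (Rat.cast : ℚ → ℂ)).submatrix a id).transpose := by
    ext i j
    simp [Matrix.mul_apply, mul_comm]
  rw [← Matrix.det_transpose, e] at ha
  obtain ⟨b, hb⟩ := exists_rows _ _ ha
  refine ⟨a, b, fun h0 => hb ?_⟩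
  have := (Rat.castHom ℂ).map_det (M.submatrix a b)
  rw [h0, map_zero, ← Matrix.det_transpose] at this
  exact this.symm

/-- the character of a pattern on the factors of odd degree. -/
def patc {ι : Type} {m : ℕ} (f : ι → Bool ⊕ HD.Tri m) (v : {i // (f i).isRight} × Fin 2) : ℤ :=
  ((f v.1.1).getRight v.1.2).1 v.2.castSucc

theorem tri_lt {m : ℕ} (a : HD.Tri m) (s : Fin 3) : 0 < a.1 s ∧ a.1 s < m :=
  Finset.mem_Ioo.1 (Fintype.mem_piFinset.1 (Finset.mem_filter.1 a.2).1 s)

theorem tri_dvd {m : ℕ} (a : HD.Tri m) : m ∣ a.1 0 + a.1 1 + a.1 2 := by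
  have := (Finset.mem_filter.1 a.2).2
  rwa [Fin.sum_univ_three] at this

theorem tri_not_dvd {m : ℕ} (a : HD.Tri m) (s : Fin 3) : ¬(m : ℤ) ∣ a.1 s := fun h =>
  absurd (Nat.le_of_dvd (tri_lt a s).1 (Int.natCast_dvd_natCast.1 h)) (tri_lt a s).2.not_ge

theorem patc_prim {ι : Type} {m : ℕ} (f : ι → Bool ⊕ HD.Tri m) : Prim m (patc f) := by
  intro i
  refine ⟨tri_not_dvd _ _, tri_not_dvd _ _, fun h => tri_not_dvd ((f i.1).getRight i.2) 2 ?_⟩
  have h1 := Int.natCast_dvd_natCast.2 (tri_dvd ((f i.1).getRight i.2))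
  push_cast at h1
  exact (dvd_add_right h).1 h1

/-- a triple is determined by the residues of two of its entries. -/
theorem tri_ext {m : ℕ} {a b : HD.Tri m}
    (h : ∀ s : Fin 2, (m : ℤ) ∣ a.1 s.castSucc - b.1 s.castSucc) : a = b := by
  have key : ∀ s : Fin 3, (m : ℤ) ∣ a.1 s - b.1 s → a.1 s = b.1 s := fun s hs => by
    have h1 := tri_lt a s
    have h2 := tri_lt b s
    have := Int.eq_zero_of_abs_lt_dvd hs (abs_lt.2 ⟨by omega, by omega⟩)
    omega
  have h0 : a.1 0 = b.1 0 := key 0 (h 0)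
  have h1 : a.1 1 = b.1 1 := key 1 (h 1)
  have h2 : a.1 2 = b.1 2 := key 2 (by
    have ha := Int.natCast_dvd_natCast.2 (tri_dvd a)
    have hb := Int.natCast_dvd_natCast.2 (tri_dvd b)
    have := dvd_sub ha hb
    rw [h0, h1] at this
    push_cast at this
    rwa [add_sub_add_left_eq_sub] at this)
  refine Subtype.ext (funext fun s => ?_)
  fin_cases s
  exacts [h0, h1, h2]

end Pool.Agent.Lib.MP_40dc3c_ag.T
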