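import Pool.Agent.Lib.MP_40dc3c_ag.T.CX

/-! The functional of an object with coordinates. -/

namespace Pool.Agent.Lib.MP_40dc3c_ag.T

open scoped TensorProduct nonZeroDivisors
open Function Filter Submodule Module

section aux

variable {k B G : Type} [Field k] [CommRing B] [Algebra k B] [Group G] (γ : G →* (B →ₐ[k] B))

theorem csx_map_map (g h : G) (W : Submodule k B) :
    (W.map (γ h).toLinearMap).map (γ g).toLinearMap = W.map (γ (g * h)).toLinearMap := by
  rw [← Submodule.map_comp, map_mul]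
  rfl

theorem csx_map_one (W : Submodule k B) : W.map (γ 1).toLinearMap = W := by
  rw [map_one]
  exact Submodule.map_id W

theorem csx_map_eq {W : Submodule k B} {g : G} (h : W.map (γ g).toLinearMap ≤ W)
    (h' : W.map (γ g⁻¹).toLinearMap ≤ W) : W.map (γ g).toLinearMap = W := by
  refine h.antisymm ?_
  have := Submodule.map_mono (f := (γ g).toLinearMap) h'
  rwa [csx_map_map, mul_inv_cancel, csx_map_one] at this

theorem csx_ideal (g h : G) (J : Ideal B) : (J.map (γ h)).map (γ g) = J.map (γ (g * h)) := by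
  rw [map_mul]
  exact Ideal.map_map (γ h : B →+* B) (γ g : B →+* B)

theorem csx_ideal_one (J : Ideal B) : J.map (γ 1) = J := by
  rw [map_one]
  exact Ideal.map_id J

theorem csx_ker {A : Type} [CommRing A] [Algebra k A] (g : G) (ψ : B →ₐ[k] A) :
    (RingHom.ker ψ).map (γ g) = RingHom.ker (ψ.comp (γ g⁻¹)) := by
  have e : ∀ a b, a * b = 1 → ∀ z, γ a (γ b z) = z := fun a b h z => by
    rw [← AlgHom.mul_apply, ← map_mul, h, map_one, AlgHom.one_apply]
  refine le_antisymm (Ideal.map_le_iff_le_comap.2 fun z hz => ?_) fun z hz => ?_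
  · simpa [RingHom.mem_ker, e _ _ (inv_mul_cancel g)] using hz
  · rw [← e _ _ (mul_inv_cancel g) z]
    exact Ideal.mem_map_of_mem _ hz

theorem csx_fix {κ : Type} (g : B →ₐ[k] B) (s : Finset κ) (F : κ → Submodule k B)
    (h : ∀ v ∈ s, ∀ a ∈ F v, g a = a) : ∀ a ∈ ∏ v ∈ s, F v, g a = a := by
  refine Finset.prod_induction F (fun W => ∀ a ∈ W, g a = a) (fun W W' h1 h2 a ha => ?_)
    (fun a ha => ?_) h
  · refine Submodule.mul_induction_on ha (fun b hb c hc => ?_) fun b c hb hc => ?_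
    · rw [map_mul, h1 b hb, h2 c hc]
    · rw [map_add, hb, hc]
  · obtain ⟨c, rfl⟩ := Submodule.mem_one.1 ha
    exact g.commutes c

theorem csx_bd {κ : Type} [Fintype κ] [DecidableEq κ] (y : κ → Fin 3 → B) (v : κ) (g : B →ₐ[k] B)
    (c : k) (h1 : ∀ s, ∃ b : k, c • g (y v s) - y v s = algebraMap k B b)
    (h2 : ∀ u, u ≠ v → ∀ s, g (y u s) = y u s) : ∀ a ∈ ∏ u, span k (Set.range (y u)),
      c • g a - a ∈ ∏ u ∈ Finset.univ.erase v, span k (Set.range (y u)) := by
  have f1 := csx_fix g (Finset.univ.erase v) (fun u => span k (Set.range (y u)))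
    fun u hu a ha => LinearMap.eqOn_span (f := g.toLinearMap) (g := LinearMap.id)
      (by rintro _ ⟨s, rfl⟩; exact h2 u (Finset.ne_of_mem_erase hu) s) ha
  have f2 : span k (Set.range (y v)) ≤ (1 : Submodule k B).comap (c • g.toLinearMap - LinearMap.id) :=
    span_le.2 (by
      rintro _ ⟨s, rfl⟩
      obtain ⟨b, hb⟩ := h1 s
      exact Submodule.mem_one.2 ⟨b, hb.symm⟩)
  intro a ha
  rw [← Finset.mul_prod_erase _ _ (Finset.mem_univ v)] at ha
  refine Submodule.mul_induction_on ha (fun b hb a ha => ?_) fun b a hb ha => ?_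
  · obtain ⟨e, he⟩ := Submodule.mem_one.1 (f2 hb)
    have he' : algebraMap k B e = c • g b - b := he
    rw [map_mul, f1 a ha, ← smul_mul_assoc, ← sub_mul, ← he', ← Algebra.smul_def]
    exact smul_mem _ _ ha
  · rw [map_add, smul_add, add_sub_add_comm]
    exact add_mem hb ha

end aux

variable {k ι : Type} [Field k] [Fintype ι] {X : Obj k} {x : ι → Fin 3 → X.A.R}

theorem Coord.gen_UU (h : Coord X x) :
    Gen (UU k (fun i s => x i s ⊗ₜ[k] (1 : X.A.R)) fun i s => (1 : X.A.R) ⊗ₜ[k] x i s) := by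
  refine T.gen_UU (fun i => by rw [h.one]; rfl) (fun i => by rw [h.one]; rfl) ?_
  have e : ∀ f : X.A.R →ₐ[k] X.A.R ⊗[k] X.A.R, ∀ a,
      f a ∈ Algebra.adjoin k (Set.range fun v : ι × Fin 3 => f (x v.1 v.2)) := fun f a => by
    rw [Set.range_comp' f fun v : ι × Fin 3 => x v.1 v.2, ← AlgHom.map_adjoin, h.gen]
    exact ⟨a, trivial, rfl⟩
  refine eq_top_iff.2 fun z hz => ?_
  clear hz
  induction z using TensorProduct.induction_on with
  | zero => exact zero_mem _
  | add a b ha hb => exact add_mem ha hb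
  | tmul a b =>
    rw [show a ⊗ₜ[k] b = (a ⊗ₜ[k] 1) * (1 ⊗ₜ[k] b) by simp]
    exact mul_mem (Algebra.adjoin_mono Set.subset_union_left (e Algebra.TensorProduct.includeLeft a))
      (Algebra.adjoin_mono Set.subset_union_right (e Algebra.TensorProduct.includeRight b))

theorem Coord.invt (h : Coord X x) (T : Finset ι) :
    Invt (UU k (fun i s => x i s ⊗ₜ[k] (1 : X.A.R)) fun i s => (1 : X.A.R) ⊗ₜ[k] x i s)
      (DD k (fun i s => x i s ⊗ₜ[k] (1 : X.A.R)) (fun i s => (1 : X.A.R) ⊗ₜ[k] x i s) T) := by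
  have := h.dom
  refine invt_DD (fun i s e => h.ne i s ?_) (fun i s e => h.ne i s ?_) h.inv T <;>
    simpa using congrArg (Algebra.TensorProduct.lmul' k) e

omit [Fintype ι] in
theorem csx_ten (g : X.G × X.G) (a b : X.A.R) :
    tenAct X X g (a ⊗ₜ b) = X.act g.1 a ⊗ₜ X.act g.2 b := rfl

theorem Coord.bil_act (h : Coord X x) (g : X.G × X.G) (i : ι) :
    (bil k (fun s => x i s ⊗ₜ[k] (1 : X.A.R)) fun s => (1 : X.A.R) ⊗ₜ[k] x i s).map
      (tenAct X X g).toLinearMap =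
      bil k (fun s => x i s ⊗ₜ[k] (1 : X.A.R)) fun s => (1 : X.A.R) ⊗ₜ[k] x i s := by
  have e : ∀ (f : X.A.R →ₐ[k] X.A.R ⊗[k] X.A.R) (a : X.G) (s),
      f (X.act a (x i s)) ∈ span k (Set.range fun s => f (x i s)) := fun f a s => by
    rw [Set.range_comp' f (x i)]
    exact Submodule.apply_mem_span_image_of_mem_span f.toLinearMap (h.lin a i s)
  refine csx_map_eq _ ?_ ?_ <;> rw [bil_map] <;>
    refine mul_le_mul' (span_le.2 ?_) (span_le.2 ?_) <;> rintro _ ⟨s, rfl⟩ <;>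
    simp only [csx_ten, map_one]
  exacts [e Algebra.TensorProduct.includeLeft _ s, e Algebra.TensorProduct.includeRight _ s,
    e Algebra.TensorProduct.includeLeft _ s, e Algebra.TensorProduct.includeRight _ s]

theorem Coord.mnr_act (h : Coord X x) (g : X.G) (i : ι) :
    (mnr k (fun s => x i s ⊗ₜ[k] (1 : X.A.R)) fun s => (1 : X.A.R) ⊗ₜ[k] x i s).map
      (tenAct X X (g, g)).toLinearMap =
      mnr k (fun s => x i s ⊗ₜ[k] (1 : X.A.R)) fun s => (1 : X.A.R) ⊗ₜ[k] x i s := by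
  have e : ∀ g : X.G, (mnr k (fun s => x i s ⊗ₜ[k] (1 : X.A.R))
      fun s => (1 : X.A.R) ⊗ₜ[k] x i s).map (tenAct X X (g, g)).toLinearMap ≤
      mnr k (fun s => x i s ⊗ₜ[k] (1 : X.A.R)) fun s => (1 : X.A.R) ⊗ₜ[k] x i s := fun g => by
    choose m hm using fun s => (Submodule.mem_span_range_iff_exists_fun k).1 (h.lin g i s)
    rw [mnr_map]
    refine le_trans (le_of_eq ?_) (mnr_lin m _ _)
    simp only [csx_ten, map_one, ← hm, TensorProduct.sum_tmul, TensorProduct.tmul_sum,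
      TensorProduct.smul_tmul', TensorProduct.tmul_smul]
  exact csx_map_eq _ (e g) (e g⁻¹)

theorem Coord.UU_act (h : Coord X x) (g : X.G × X.G) :
    (UU k (fun i s => x i s ⊗ₜ[k] (1 : X.A.R)) fun i s => (1 : X.A.R) ⊗ₜ[k] x i s).map
      (tenAct X X g).toLinearMap =
      UU k (fun i s => x i s ⊗ₜ[k] (1 : X.A.R)) fun i s => (1 : X.A.R) ⊗ₜ[k] x i s := by
  rw [UU_map]
  exact Finset.prod_congr rfl fun i _ => (bil_map _ _ _).symm.trans (h.bil_act g i)

theorem Coord.DD_act (h : Coord X x) (g : X.G) (T : Finset ι) :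
    (DD k (fun i s => x i s ⊗ₜ[k] (1 : X.A.R)) (fun i s => (1 : X.A.R) ⊗ₜ[k] x i s) T).map
      (tenAct X X (g, g)).toLinearMap =
      DD k (fun i s => x i s ⊗ₜ[k] (1 : X.A.R)) (fun i s => (1 : X.A.R) ⊗ₜ[k] x i s) T := by
  rw [DD_map]
  refine Finset.prod_congr rfl fun i _ => ?_
  rw [← bil_map, ← mnr_map, h.bil_act, h.mnr_act]

theorem Coord.hs_act (h : Coord X x) (g : X.G) (J : Ideal (X.A.R ⊗[k] X.A.R)) (d : ℕ) :
    hs x (J.map (Algebra.TensorProduct.map (X.act g) (X.act g))) d = hs x J d :=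
  (hh_congr (fun i => (bil_map _ _ _).symm.trans (h.bil_act (g, g) i))
    (fun i => (mnr_map _ _ _).symm.trans (h.mnr_act g i)) _ d).symm.trans
    (hh_map (tenAct X X (g, g)) (hom_bij _ _) _ _ J d)

theorem Coord.sys (h : Coord X x) :
    Sys (UU k (fun i s => x i s ⊗ₜ[k] (1 : X.A.R)) fun i s => (1 : X.A.R) ⊗ₜ[k] x i s)
      (fun a : X.G × Finset ι => (DD k (fun i s => x i s ⊗ₜ[k] (1 : X.A.R))
        (fun i s => (1 : X.A.R) ⊗ₜ[k] x i s) a.2).map (tenAct X X (a.1⁻¹, 1)).toLinearMap)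
      fun a => X.χ a.1⁻¹ * (-1) ^ a.2.card := by
  classical
  let e : X.G × X.G → (X.A.R ⊗[k] X.A.R) ≃ₐ[k] X.A.R ⊗[k] X.A.R := fun g =>
    AlgEquiv.ofBijective (tenAct X X g) (hom_bij _ _)
  have he : ∀ g, ((e g).toLinearMap : (X.A.R ⊗[k] X.A.R) →ₗ[k] X.A.R ⊗[k] X.A.R) =
      (tenAct X X g).toLinearMap := fun _ => rfl
  refine ⟨h.gen_UU, fun a => ?_, ?_⟩
  · have := (h.invt a.2).equiv (e (a.1⁻¹, 1))
    rwa [he, h.UU_act] at this
  let y : ι ⊕ ι → Fin 3 → X.A.R ⊗[k] X.A.R :=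
    Sum.elim (fun i s => x i s ⊗ₜ[k] (1 : X.A.R)) fun i s => (1 : X.A.R) ⊗ₜ[k] x i s
  have hU : (UU k (fun i s => x i s ⊗ₜ[k] (1 : X.A.R)) fun i s => (1 : X.A.R) ⊗ₜ[k] x i s) =
      ∏ u, span k (Set.range (y u)) := by
    rw [Fintype.prod_sum_type, ← Finset.prod_mul_distrib]
    rfl
  refine ⟨Finset.univ.toList.map fun v => ∏ u ∈ Finset.univ.erase v, span k (Set.range (y u)),
    le_of_eq ?_, fun V hV => ?_⟩
  · rw [Finset.prod_map_toList, hU, ← Finset.prod_mul_distrib, List.length_map,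
      Finset.length_toList, ← Finset.prod_const]
    exact Finset.prod_congr rfl fun v _ => Finset.prod_erase_mul _ _ (Finset.mem_univ v)
  obtain ⟨v, -, rfl⟩ := List.mem_map.1 hV
  refine ⟨fun a ha => ?_, ?_⟩
  · rw [hU, ← Finset.prod_erase_mul _ _ (Finset.mem_univ v), ← mul_one a]
    refine mul_mem_mul ha (subset_span ⟨2, ?_⟩)
    cases v <;> simp [y, h.one, Algebra.TensorProduct.one_def]
  cases v with
  | inl i =>
    obtain ⟨g, c, h1, h2, h3⟩ := h.inf i
    refine ⟨e (g, 1), c, (Equiv.mulRight g⁻¹).prodCongr (Equiv.refl _), X.χ g, h1, h.UU_act _,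
      hU ▸ csx_bd y _ (tenAct X X (g, 1)) c (fun s => ?_) ?_, fun a => ⟨?_, ?_⟩⟩
    · obtain ⟨b, hb⟩ := h2 s
      refine ⟨b, ?_⟩
      simp only [y, Sum.elim_inl, csx_ten, map_one]
      rw [TensorProduct.smul_tmul', ← TensorProduct.sub_tmul, hb]
      rfl
    · rintro (j | j) hj s
      · simp only [y, Sum.elim_inl, csx_ten, map_one, h3 j fun e => hj (congrArg _ e)]
      · simp [y, csx_ten]
    · rw [he, csx_map_map]
      simp
    · simp [mul_assoc]
  | inr i =>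
    obtain ⟨g, c, h1, h2, h3⟩ := h.inf i
    refine ⟨e (1, g), c, (Equiv.mulLeft g).prodCongr (Equiv.refl _), X.χ g⁻¹, fun a => h1 ?_,
      h.UU_act _, hU ▸ csx_bd y _ (tenAct X X (1, g)) c (fun s => ?_) ?_, fun a => ⟨?_, ?_⟩⟩
    · rw [← mul_one (X.χ g), ← a, ← map_mul, mul_inv_cancel, map_one, a]
    · obtain ⟨b, hb⟩ := h2 s
      refine ⟨b, ?_⟩
      simp only [y, Sum.elim_inr, csx_ten, map_one]
      rw [← TensorProduct.tmul_smul, ← TensorProduct.tmul_sub, hb]
      exact (Algebra.TensorProduct.algebraMap_apply' b).symm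
    · rintro (j | j) hj s
      · simp [y, csx_ten]
      · simp only [y, Sum.elim_inr, csx_ten, map_one, h3 j fun e => hj (congrArg _ e)]
    · rw [he, csx_map_map]
      refine ((congrArg _ (h.DD_act g a.2).symm).trans (csx_map_map _ _ _ _)).trans ?_
      simp
    · simp only [Equiv.prodCongr_apply, Prod.map_fst, Prod.map_snd, Equiv.coe_mulLeft, mul_inv_rev,
        map_mul, Equiv.refl_apply]
      ring

theorem Coord.exists_fun (h : Coord X x) : ∃ lam, IsFun X lam ∧ IsHs X x lam := by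
  obtain ⟨lam, hl⟩ := h.sys.exists_lam
  have o : X.act 1 = AlgHom.id k X.A.R := map_one _
  have hH : IsHs X x lam := fun J => (hl J).mono fun d hd => by
    rw [hd, Fintype.sum_prod_type]
    refine Finset.sum_congr rfl fun g _ => ?_
    simp only [hs, hh, Int.cast_sum, Finset.mul_sum, Int.cast_mul, Int.cast_pow, Int.cast_neg,
      Int.cast_one, mul_assoc]
    refine Finset.sum_congr rfl fun T _ => ?_
    rw [← hn_map (tenAct X X (g, 1)) (hom_bij _ _), h.UU_act, csx_map_map, Prod.mk_mul_mk,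
      mul_inv_cancel, mul_one, Prod.mk_one_one, csx_map_one, ← o]
    rfl
  refine ⟨lam, ⟨fun g g' J => ?_, fun S => h.sys.ext hl S.R⟩, hH⟩
  obtain ⟨d, h1, h2⟩ := ((hH J).and (hH (J.map (tenAct X X (g, g'))))).exists
  refine h2.trans ?_
  rw [h1, hsum, hsum, Finset.mul_sum]
  refine Fintype.sum_equiv ((Equiv.mulRight g).trans (Equiv.mulLeft g'⁻¹)) _ _ fun a => ?_
  have e1 : hs x ((J.map (tenAct X X (g, g'))).map (tenAct X X (a, 1))) d =
      hs x (J.map (tenAct X X (g'⁻¹ * (a * g), 1))) d := by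
    refine Eq.trans ?_ (h.hs_act g' _ d)
    refine congrArg (hs x · d) ((csx_ideal _ _ _ _).trans
      (Eq.trans ?_ (csx_ideal (tenAct X X) (g', g') _ _).symm))
    simp
  have e2 : X.χ a⁻¹ = X.χ g * X.χ g'⁻¹ * X.χ (g'⁻¹ * (a * g))⁻¹ := by
    rw [mul_right_comm, ← map_mul, ← map_mul]
    exact congrArg _ (by group)
  rw [e2, mul_assoc]
  refine congrArg _ (congrArg _ (congrArg _ ?_))
  rw [← o]
  exact e1

theorem IsHs.pt [Nonempty ι] (h : Coord X x) {lam : KK X.A X.A →ₗ[ℂ] ℂ} (hl : IsHs X x lam)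
    (ψ : X.A.R ⊗[k] X.A.R →ₐ[k] k) : lam (q (RingHom.ker ψ)) = 0 := by
  have := h.dom
  have o : X.act 1 = AlgHom.id k X.A.R := map_one _
  obtain ⟨d, h1, h2⟩ := ((hl (RingHom.ker ψ)).and (eventually_all.2 fun g : X.G =>
    hh_pt h.gen_UU h.invt (ψ.comp (tenAct X X (g, 1)⁻¹)))).exists
  rw [h1, hsum]
  refine Finset.sum_eq_zero fun g _ => mul_eq_zero_of_right _ (Int.cast_eq_zero.2 ?_)
  rw [← o]
  exact (congrArg (hs x · d) (csx_ker (tenAct X X) (g, 1) ψ)).trans (h2 g)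

theorem hsum_grf (X : Obj k) (x : ι → Fin 3 → X.A.R) (d : ℕ) :
    hsum X x (grf (AlgHom.id k X.A.R)) d = ∑ g, X.χ g * hs x (grf (X.act g)) d := by
  have o : X.act 1 = AlgHom.id k X.A.R := map_one _
  refine Fintype.sum_equiv (Equiv.inv _) _ _ fun g => congrArg _ (congrArg _ ?_)
  refine congrArg (hs x · d) ?_
  conv_lhs => rw [← o]
  refine (csx_ker (tenAct X X) (g, 1) _).trans (congrArg RingHom.ker ?_)
  refine Algebra.TensorProduct.ext' fun a b => ?_
  simp [csx_ten]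

end Pool.Agent.Lib.MP_40dc3c_ag.T
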