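import Pool.Agent.Lib.MP_40dc3c_ag.T.CK

/-! Cycles that lie over a pair of points of one factor do not meet the diagonal. -/

namespace Pool.Agent.Lib.MP_40dc3c_ag.T

open scoped TensorProduct nonZeroDivisors
open Function Filter Submodule Module

variable {k : Type} [Field k]

theorem IsTens.split {B B₁ B₂ : Type} [CommRing B] [Algebra k B] [CommRing B₁] [Algebra k B₁]
    [CommRing B₂] [Algebra k B₂] {f₁ : B₁ →ₐ[k] B} {f₂ : B₂ →ₐ[k] B} (h : IsTens f₁ f₂)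
    (ψ : B₁ →ₐ[k] k) {J : Ideal B} (hJ : (RingHom.ker ψ).map f₁ ≤ J) :
    J = (RingHom.ker ψ).map f₁ ⊔ (J.comap f₂).map f₂ := by
  refine le_antisymm (fun b hb => ?_) (sup_le hJ Ideal.map_comap_le)
  have key : ∀ z : B₁ ⊗[k] B₂, ∃ c, Algebra.TensorProduct.productMap f₁ f₂ z - f₂ c ∈
      (RingHom.ker ψ).map f₁ := fun z => by
    induction z with
    | zero => exact ⟨0, by simp⟩
    | add x y hx hy =>
      obtain ⟨c, hc⟩ := hx
      obtain ⟨c', hc'⟩ := hy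
      exact ⟨c + c', by simpa only [map_add, add_sub_add_comm] using add_mem hc hc'⟩
    | tmul x y =>
      refine ⟨ψ x • y, ?_⟩
      have h1 : f₁ (x - algebraMap k _ (ψ x)) ∈ (RingHom.ker ψ).map f₁ :=
        Ideal.mem_map_of_mem _ (by simp [RingHom.mem_ker])
      have h2 := Ideal.mul_mem_right (f₂ y) _ h1
      rwa [map_sub, AlgHom.commutes, sub_mul, ← Algebra.smul_def, ← map_smul,
        ← Algebra.TensorProduct.productMap_apply_tmul] at h2
  obtain ⟨z, rfl⟩ := h.2 b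
  obtain ⟨c, hc⟩ := key z
  have h3 : f₂ c ∈ J := by simpa using sub_mem hb (hJ hc)
  simpa using add_mem (Ideal.mem_sup_left hc)
    (Ideal.mem_sup_right (Ideal.mem_map_of_mem f₂ (show c ∈ J.comap f₂ from h3)))

theorem ker_map_le {A A₁ : Type} [CommRing A] [Algebra k A] [CommRing A₁] [Algebra k A₁]
    (f : A₁ →ₐ[k] A) (J : Ideal (A ⊗[k] A)) (ψ ψ' : A₁ →ₐ[k] k)
    (h : ∀ z, (f z - algebraMap k A (ψ z)) ⊗ₜ[k] (1 : A) ∈ J)
    (h' : ∀ z, (1 : A) ⊗ₜ[k] (f z - algebraMap k A (ψ' z)) ∈ J) :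
    (RingHom.ker (Algebra.TensorProduct.productMap ψ ψ')).map (Algebra.TensorProduct.map f f) ≤
      J := by
  have e : (Algebra.ofId k _).comp (Algebra.TensorProduct.productMap ψ ψ') =
      (Ideal.Quotient.mkₐ k J).comp (Algebra.TensorProduct.map f f) := by
    refine Algebra.TensorProduct.ext (AlgHom.ext fun z => ?_) (AlgHom.ext fun z => ?_)
    · have := h z
      rw [TensorProduct.sub_tmul, ← Algebra.TensorProduct.algebraMap_apply] at this
      have h2 : algebraMap k (A ⊗[k] A ⧸ J) (ψ z) = Ideal.Quotient.mk J (f z ⊗ₜ[k] 1) :=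
        (Ideal.Quotient.eq.2 this).symm
      simpa [Algebra.ofId_apply] using h2
    · have := h' z
      rw [TensorProduct.tmul_sub, ← Algebra.TensorProduct.algebraMap_apply'] at this
      have h2 : algebraMap k (A ⊗[k] A ⧸ J) (ψ' z) = Ideal.Quotient.mk J (1 ⊗ₜ[k] f z) :=
        (Ideal.Quotient.eq.2 this).symm
      simpa [Algebra.ofId_apply] using h2
  rw [Ideal.map_le_iff_le_comap]
  intro z hz
  have := AlgHom.congr_fun e z
  rw [AlgHom.comp_apply, RingHom.mem_ker.1 hz, map_zero] at this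
  exact (Ideal.Quotient.eq_zero_iff_mem (I := J)).1 this.symm

theorem mem_of_diag {A : Type} [CommRing A] [Algebra k A] {J : Ideal (A ⊗[k] A)}
    (h1 : RingHom.ker (Algebra.TensorProduct.lmul' k) ≤ J) (z : A) (hz : z ⊗ₜ[k] (1 : A) ∈ J) :
    (1 : A) ⊗ₜ[k] z ∈ J := by
  have : z ⊗ₜ[k] (1 : A) - (1 : A) ⊗ₜ[k] z ∈ J := h1 (by simp [RingHom.mem_ker])
  simpa using sub_mem hz this

section sq

variable {A A₁ A₂ : Type} [CommRing A] [Algebra k A] [CommRing A₁] [Algebra k A₁] [CommRing A₂]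
  [Algebra k A₂]

/-- ideals of the square. -/
abbrev SqI (k : Type) [Field k] (A : Type) [CommRing A] [Algebra k A] : Type := Ideal (A ⊗[k] A)

/-- the closure of the first projection. -/
noncomputable def lft (J : SqI k A) : Ideal A :=
  J.comap (Algebra.TensorProduct.includeLeft : A →ₐ[k] A ⊗[k] A)

/-- the closure of the second projection. -/
noncomputable def rgt (J : SqI k A) : Ideal A :=
  J.comap (Algebra.TensorProduct.includeRight : A →ₐ[k] A ⊗[k] A)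

theorem lft_ne {J : SqI k A} (h : J ≠ ⊤) : lft J ≠ ⊤ := Ideal.comap_ne_top _ h

theorem rgt_ne {J : SqI k A} (h : J ≠ ⊤) : rgt J ≠ ⊤ := Ideal.comap_ne_top _ h

theorem le_lft (V W : Ideal A) : V ≤ lft (ibox (k := k) V W) :=
  Ideal.map_le_iff_le_comap.1 le_sup_left

theorem le_rgt (V W : Ideal A) : W ≤ rgt (ibox (k := k) V W) :=
  Ideal.map_le_iff_le_comap.1 le_sup_right

theorem map_lft (g : A →ₐ[k] A) (J : SqI k A) :
    (lft J).map g ≤ lft (J.map (Algebra.TensorProduct.map g (AlgHom.id k A))) := by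
  rw [Ideal.map_le_iff_le_comap]
  intro z hz
  exact Ideal.mem_map_of_mem (I := J) (x := z ⊗ₜ[k] (1 : A))
    (Algebra.TensorProduct.map g (AlgHom.id k A)) hz

theorem map_rgt (g : A →ₐ[k] A) (J : SqI k A) :
    rgt J ≤ rgt (J.map (Algebra.TensorProduct.map g (AlgHom.id k A))) := fun z hz => by
  have := Ideal.mem_map_of_mem (I := J) (x := (1 : A) ⊗ₜ[k] z)
    (Algebra.TensorProduct.map g (AlgHom.id k A)) hz
  rwa [Algebra.TensorProduct.map_tmul, map_one] at this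

theorem lft_le_rgt {J : SqI k A} (h : RingHom.ker (Algebra.TensorProduct.lmul' k) ≤ J) :
    lft J ≤ rgt J := fun z hz => mem_of_diag h z hz

variable {ι ι₁ ι₂ : Type} [Fintype ι] [Fintype ι₁] [Fintype ι₂] {f₁ : A₁ →ₐ[k] A} {f₂ : A₂ →ₐ[k] A}
  {e₁ : ι₁ → ι} {e₂ : ι₂ → ι} {x : ι → Fin 3 → A} {x₁ : ι₁ → Fin 3 → A₁} {x₂ : ι₂ → Fin 3 → A₂}

theorem hs_tens (h : IsTens f₁ f₂) (he : Bijective (Sum.elim e₁ e₂))
    (h₁ : ∀ i s, f₁ (x₁ i s) = x (e₁ i) s) (h₂ : ∀ i s, f₂ (x₂ i s) = x (e₂ i) s) (J₁ : SqI k A₁)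
    (J₂ : SqI k A₂) (d : ℕ) : hs x (J₁.map (Algebra.TensorProduct.map f₁ f₁) ⊔
      J₂.map (Algebra.TensorProduct.map f₂ f₂)) d = hs x₁ J₁ d * hs x₂ J₂ d :=
  hh_tens h.sq he (by simp [h₁]) (by simp [h₁]) (by simp [h₂]) (by simp [h₂]) J₁ J₂ d

theorem hs_ibox (h : IsTens f₁ f₂) (he : Bijective (Sum.elim e₁ e₂))
    (h₁ : ∀ i s, f₁ (x₁ i s) = x (e₁ i) s) (h₂ : ∀ i s, f₂ (x₂ i s) = x (e₂ i) s)
    (V₁ W₁ : Ideal A₁) (V₂ W₂ : Ideal A₂) (d : ℕ) :
    hs (k := k) x (ibox (V₁.map f₁ ⊔ V₂.map f₂) (W₁.map f₁ ⊔ W₂.map f₂)) d =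
      hs (k := k) x₁ (ibox V₁ W₁) d * hs (k := k) x₂ (ibox V₂ W₂) d := by
  rw [box_sup, ← box_map, ← box_map, hs_tens h he h₁ h₂]

theorem hs_van_aux [Nonempty ι₁] [IsDomain (A₁ ⊗[k] A₁)] (h : IsTens f₁ f₂)
    (he : Bijective (Sum.elim e₁ e₂)) (h₁ : ∀ i s, f₁ (x₁ i s) = x (e₁ i) s)
    (h₂ : ∀ i s, f₂ (x₂ i s) = x (e₂ i) s)
    (hU : Gen (UU k (fun i s => x₁ i s ⊗ₜ[k] (1 : A₁)) fun i s => (1 : A₁) ⊗ₜ[k] x₁ i s))
    (hD : ∀ T, Invt (UU k (fun i s => x₁ i s ⊗ₜ[k] (1 : A₁)) fun i s => (1 : A₁) ⊗ₜ[k] x₁ i s)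
      (DD k (fun i s => x₁ i s ⊗ₜ[k] (1 : A₁)) (fun i s => (1 : A₁) ⊗ₜ[k] x₁ i s) T))
    (J : SqI k A) (ψ ψ' : A₁ →ₐ[k] k) (hψ : ∀ z, f₁ z - algebraMap k A (ψ z) ∈ lft J)
    (hψ' : ∀ z, f₁ z - algebraMap k A (ψ' z) ∈ rgt J) : ∀ᶠ d in atTop, hs x J d = 0 := by
  filter_upwards [hh_pt hU hD (Algebra.TensorProduct.productMap ψ ψ')] with d hd
  rw [h.sq.split _ (ker_map_le f₁ J ψ ψ' hψ hψ'), hs_tens h he h₁ h₂, hs, hd, zero_mul]

end sq

variable {ι : Type} [Fintype ι] {m : ℕ}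

theorem hs_top {A : Type} [CommRing A] [Algebra k A] (x : ι → Fin 3 → A) (d : ℕ) :
    hs (k := k) x ⊤ d = 0 := by
  refine Finset.sum_eq_zero fun T _ => ?_
  rw [hn, Submodule.restrictScalars_top, top_inf_eq, sub_self, mul_zero]

theorem af_gen : Gen (UU k (fun i s => co k m i s ⊗ₜ[k] (1 : Af k ι m))
    fun i s => (1 : Af k ι m) ⊗ₜ[k] co k m i s) := by
  refine gen_UU (fun _ => rfl) (fun _ => rfl) ?_
  have h1 := congrArg (Subalgebra.map (Algebra.TensorProduct.includeLeft :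
    Af k ι m →ₐ[k] Af k ι m ⊗[k] Af k ι m)) (co_gen (k := k) (ι := ι) (m := m))
  have h2 := congrArg (Subalgebra.map (Algebra.TensorProduct.includeRight :
    Af k ι m →ₐ[k] Af k ι m ⊗[k] Af k ι m)) (co_gen (k := k) (ι := ι) (m := m))
  rw [AlgHom.map_adjoin, ← Set.range_comp, Algebra.map_top] at h1 h2
  rw [Algebra.adjoin_union, eq_top_iff]
  refine le_trans ?_ (sup_le_sup h1.ge h2.ge)
  rintro z -
  induction z with
  | zero => exact zero_mem _
  | add x y hx hy => exact add_mem hx hy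
  | tmul x y =>
    rw [← mul_one x, ← one_mul y, ← Algebra.TensorProduct.tmul_mul_tmul]
    exact mul_mem (le_sup_left (b := AlgHom.range _) ⟨x, rfl⟩)
      (le_sup_right (a := AlgHom.range _) ⟨y, rfl⟩)

variable [IsAlgClosed k]

theorem af_dom2 (hm : (m : k) ≠ 0) : IsDomain (Af k ι m ⊗[k] Af k ι m) :=
  haveI := af_dom (k := k) (ι := ι) hm
  dom_tensor _ _

theorem af_invt (hm : (m : k) ≠ 0) (T : Finset ι) :
    Invt (UU k (fun i s => co k m i s ⊗ₜ[k] (1 : Af k ι m))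
      fun i s => (1 : Af k ι m) ⊗ₜ[k] co k m i s)
    (DD k (fun i s => co k m i s ⊗ₜ[k] (1 : Af k ι m))
      (fun i s => (1 : Af k ι m) ⊗ₜ[k] co k m i s) T) := by
  have := af_dom (k := k) (ι := ι) hm
  have := af_dom2 (k := k) (ι := ι) hm
  refine invt_DD (fun i s h => co_ne hm i s ?_) (fun i s h => co_ne hm i s ?_) (co_invt hm) T
  · exact Algebra.TensorProduct.includeLeft_injective (S := k) (algebraMap k _).injective
      (h.trans (map_zero _).symm)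
  · exact Algebra.TensorProduct.includeRight_injective (algebraMap k _).injective
      (h.trans (map_zero _).symm)

omit [IsAlgClosed k] [Fintype ι] in
theorem exists_pt {A : Type} [CommRing A] [Algebra k A] [Nontrivial A] (f : Af k ι m →ₐ[k] A)
    (i : ι) (a b : k) (ha : f (co k m i 0) = algebraMap k A a)
    (hb : f (co k m i 1) = algebraMap k A b) :
    ∃ ψ : Af k Unit m →ₐ[k] k, (Algebra.ofId k A).comp ψ = f.comp (rn k m fun _ => i) := by
  have h1 : a ^ m + b ^ m + 1 = 0 := by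
    have := congrArg f (co_eq (k := k) (m := m) i)
    rw [Fin.sum_univ_three, map_add, map_add, map_pow, map_pow, ha, hb,
      show co k m i 2 = 1 from rfl, one_pow, map_one, map_zero] at this
    exact (algebraMap k A).injective (by simpa using this)
  refine ⟨Ideal.Quotient.liftₐ _ (MvPolynomial.aeval fun v => ![a, b] v.2) fun z hz => ?_,
    af_ext fun j => ?_⟩
  · have : ferI k Unit m ≤ RingHom.ker (MvPolynomial.aeval fun v : Unit × Fin 2 => ![a, b] v.2) := by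
      rw [ferI, Ideal.span_le]
      rintro _ ⟨j, rfl⟩
      simpa [RingHom.mem_ker, Fin.sum_univ_two] using h1
    exact this hz
  · rw [AlgHom.comp_apply, AlgHom.comp_apply, AlgHom.comp_apply, AlgHom.comp_apply, rn_co, rn_co,
      ha, hb]
    exact ⟨congrArg (algebraMap k A) (MvPolynomial.aeval_X _ _),
      congrArg (algebraMap k A) (MvPolynomial.aeval_X _ _)⟩

omit [IsAlgClosed k] [Fintype ι] in
theorem exists_pt' {A : Type} [CommRing A] [Algebra k A] (f : Af k ι m →ₐ[k] A) {I : Ideal A}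
    (hI : I ≠ ⊤) (i : ι) {a b : k} (ha : f (co k m i 0 - algebraMap k _ a) ∈ I)
    (hb : f (co k m i 1 - algebraMap k _ b) ∈ I) :
    ∃ ψ : Af k Unit m →ₐ[k] k, ∀ z, f (rn k m (fun _ => i) z - algebraMap k _ (ψ z)) ∈ I := by
  have : Nontrivial (A ⧸ I) := Ideal.Quotient.nontrivial_iff.2 hI
  rw [map_sub, AlgHom.commutes] at ha hb
  obtain ⟨ψ, hψ⟩ := exists_pt ((Ideal.Quotient.mkₐ k I).comp f) i a b (Ideal.Quotient.eq.2 ha)
    (Ideal.Quotient.eq.2 hb)
  refine ⟨ψ, fun z => ?_⟩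
  rw [map_sub, AlgHom.commutes]
  exact Ideal.Quotient.eq.1 (AlgHom.congr_fun hψ z).symm

open Classical in
omit [IsAlgClosed k] [Fintype ι] in
theorem elim_bij (i : ι) :
    Bijective (Sum.elim (fun _ : Unit => i) (Subtype.val : {j // j ≠ i} → ι)) := by
  constructor
  · rintro (a | a) (b | b) h
    · rfl
    · exact absurd h.symm b.2
    · exact absurd h a.2
    · exact congrArg _ (Subtype.ext h)
  · intro j
    by_cases h : j = i
    · exact ⟨.inl (), h.symm⟩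
    · exact ⟨.inr ⟨j, h⟩, rfl⟩

theorem hs_van (hm : (m : k) ≠ 0) (J : SqI k (Af k ι m)) (i : ι) {a b a' b' : k}
    (ha : co k m i 0 - algebraMap k _ a ∈ lft J) (hb : co k m i 1 - algebraMap k _ b ∈ lft J)
    (ha' : co k m i 0 - algebraMap k _ a' ∈ rgt J) (hb' : co k m i 1 - algebraMap k _ b' ∈ rgt J) :
    ∀ᶠ d in atTop, hs (k := k) (co k m) J d = 0 := by
  classical
  rcases eq_or_ne J ⊤ with rfl | hJ
  · exact .of_forall (hs_top _)
  obtain ⟨ψ, hψ⟩ := exists_pt' (AlgHom.id k _) (lft_ne hJ) i ha hb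
  obtain ⟨ψ', hψ'⟩ := exists_pt' (AlgHom.id k _) (rgt_ne hJ) i ha' hb'
  have := af_dom2 (k := k) (ι := Unit) hm
  exact hs_van_aux (rn_tens (k := k) (m := m) (elim_bij i)) (elim_bij i) (fun _ => rn_co _ _)
    (fun _ => rn_co _ _) af_gen (af_invt hm) J ψ ψ' hψ hψ'

omit [IsAlgClosed k] [Fintype ι] in
theorem sc_sub (ζ : ι × Fin 2 → rootsOfUnity m k) (i : ι) {I : Ideal (Af k ι m)} {a b : k}
    (ha : co k m i 0 - algebraMap k _ a ∈ I) (hb : co k m i 1 - algebraMap k _ b ∈ I) :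
    ∃ a' b' : k, co k m i 0 - algebraMap k _ a' ∈ I.map (sc m ζ) ∧
      co k m i 1 - algebraMap k _ b' ∈ I.map (sc m ζ) := by
  have key : ∀ {z : Af k ι m} {c : k} (u : kˣ), sc m ζ z = (u : k) • z → z - algebraMap k _ c ∈ I →
      z - algebraMap k _ ((u⁻¹ : kˣ) * c) ∈ I.map (sc m ζ) := fun {z c} u h1 h2 => by
    have h3 := Ideal.mul_mem_left _ (algebraMap k _ ((u⁻¹ : kˣ) : k))
      (Ideal.mem_map_of_mem (sc m ζ) h2)
    rwa [map_sub, h1, AlgHom.commutes, mul_sub, ← map_mul, ← Algebra.smul_def, smul_smul,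
      Units.inv_mul, one_smul] at h3
  exact ⟨_, _, key _ (sc_co ζ i).1 ha, key _ (sc_co ζ i).2 hb⟩

/-- the vanishing that the Frobenius computation needs. -/
theorem lam_van {ω : kˣ →* ℂˣ} [NeZero m] (hm : (m : k) ≠ 0) {c : ι × Fin 2 → ℤ}
    {lam : KK (ferA k ι m) (ferA k ι m) →ₗ[ℂ] ℂ} (hl : IsHs (fers ω ι m c) (co k m) lam)
    (J : Ideal ((ferA k ι m).R ⊗[k] (ferA k ι m).R)) (i : ι) (α : Fin 2 → k)
    (h1 : RingHom.ker (Algebra.TensorProduct.lmul' k) ≤ J)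
    (h2 : ∀ s, Ideal.Quotient.mk _ (MvPolynomial.X (i, s) - MvPolynomial.C (α s)) ⊗ₜ 1 ∈ J) :
    lam (q J) = 0 := by
  have ha : co k m i 0 - algebraMap k _ (α 0) ∈ lft (A := Af k ι m) J := h2 0
  have hb : co k m i 1 - algebraMap k _ (α 1) ∈ lft (A := Af k ι m) J := h2 1
  have h4 : ∀ g : (fers ω ι m c).G, ∀ᶠ d in atTop, hs (k := k) (co k m)
      (J.map (Algebra.TensorProduct.map (sc m g) (AlgHom.id k (Af k ι m)))) d = 0 := fun g => by
    obtain ⟨a', b', ha', hb'⟩ := sc_sub g i ha hb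
    exact hs_van hm _ i (map_lft _ _ ha') (map_lft _ _ hb') (map_rgt _ _ (lft_le_rgt h1 ha))
      (map_rgt _ _ (lft_le_rgt h1 hb))
  obtain ⟨d, hd, hd'⟩ := ((hl J).and (eventually_all.2 h4)).exists
  rw [hd, hsum]
  refine Finset.sum_eq_zero fun g _ => ?_
  rw [fers_act, hd' g, Int.cast_zero, mul_zero]

end Pool.Agent.Lib.MP_40dc3c_ag.T
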