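import Mathlib

/-! Tensor products of subspaces. -/

namespace Pool.Agent.Lib.MP_40dc3c_ag.T

open scoped TensorProduct
open Function Submodule Module

variable {k V₁ V₂ Q₁ Q₂ : Type} [Field k] [AddCommGroup V₁] [Module k V₁] [AddCommGroup V₂]
  [Module k V₂] [AddCommGroup Q₁] [Module k Q₁] [AddCommGroup Q₂] [Module k Q₂]

/-- the tensor product of two subspaces. -/
abbrev tp (W₁ : Submodule k V₁) (W₂ : Submodule k V₂) : Submodule k (V₁ ⊗[k] V₂) :=
  map₂ (TensorProduct.mk k V₁ V₂) W₁ W₂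

theorem tp_map (g₁ : V₁ →ₗ[k] Q₁) (g₂ : V₂ →ₗ[k] Q₂) (W₁ : Submodule k V₁) (W₂ : Submodule k V₂) :
    (tp W₁ W₂).map (TensorProduct.map g₁ g₂) = tp (W₁.map g₁) (W₂.map g₂) := by
  rw [tp, tp, map_map₂, map₂_map_map]
  rfl

theorem tp_top : tp (⊤ : Submodule k V₁) (⊤ : Submodule k V₂) = ⊤ :=
  TensorProduct.map₂_mk_top_top_eq_top k V₁ V₂

theorem ker_tp (g₁ : V₁ →ₗ[k] Q₁) (g₂ : V₂ →ₗ[k] Q₂) :
    LinearMap.ker (TensorProduct.map g₁ g₂) =
      tp (LinearMap.ker g₁) ⊤ ⊔ tp ⊤ (LinearMap.ker g₂) := by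
  have h1 : TensorProduct.map g₁ g₂ =
      TensorProduct.map (LinearMap.range g₁).subtype (LinearMap.range g₂).subtype ∘ₗ
        TensorProduct.map g₁.rangeRestrict g₂.rangeRestrict := by
    rw [← TensorProduct.map_comp]
    rfl
  have h2 : ∀ {V Q : Type} [AddCommGroup V] [Module k V] [AddCommGroup Q] [Module k Q]
      (g : V →ₗ[k] Q), Exact (LinearMap.ker g).subtype g.rangeRestrict := fun g => by
    rw [LinearMap.exact_iff, LinearMap.ker_rangeRestrict, range_subtype]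
  rw [h1, LinearMap.ker_comp_of_ker_eq_bot _ (LinearMap.ker_eq_bot.2
      (Module.Flat.tensorProduct_mapIncl_injective_of_right _ _)),
    TensorProduct.map_ker (h2 g₁) g₁.surjective_rangeRestrict (h2 g₂) g₂.surjective_rangeRestrict,
    sup_comm, LinearMap.lTensor, LinearMap.rTensor, TensorProduct.range_map,
    TensorProduct.range_map, range_subtype, range_subtype, LinearMap.range_id, LinearMap.range_id]

theorem ker_tp_map (W₁ J₁ : Submodule k V₁) (W₂ J₂ : Submodule k V₂) (g₁ : W₁ →ₗ[k] Q₁)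
    (g₂ : W₂ →ₗ[k] Q₂) (h₁ : LinearMap.ker g₁ = J₁.comap W₁.subtype)
    (h₂ : LinearMap.ker g₂ = J₂.comap W₂.subtype) :
    (LinearMap.ker (TensorProduct.map g₁ g₂)).map (TensorProduct.mapIncl W₁ W₂) =
      tp (J₁ ⊓ W₁) W₂ ⊔ tp W₁ (J₂ ⊓ W₂) := by
  rw [ker_tp, Submodule.map_sup, tp_map, tp_map, h₁, h₂, map_comap_subtype, map_comap_subtype,
    map_subtype_top, map_subtype_top, inf_comm W₁, inf_comm W₂]

theorem tp_inf (W₁ J₁ : Submodule k V₁) (W₂ J₂ : Submodule k V₂) :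
    (tp J₁ ⊤ ⊔ tp ⊤ J₂) ⊓ tp W₁ W₂ = tp (J₁ ⊓ W₁) W₂ ⊔ tp W₁ (J₂ ⊓ W₂) := by
  rw [← ker_tp_map W₁ J₁ W₂ J₂ (J₁.mkQ ∘ₗ W₁.subtype) (J₂.mkQ ∘ₗ W₂.subtype)
      (by rw [LinearMap.ker_comp, ker_mkQ]) (by rw [LinearMap.ker_comp, ker_mkQ]),
    TensorProduct.map_comp, LinearMap.ker_comp, map_comap_eq, ker_tp, ker_mkQ, ker_mkQ,
    TensorProduct.range_map, range_subtype, range_subtype, inf_comm]

theorem finrank_tp (W₁ : Submodule k V₁) (W₂ : Submodule k V₂) :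
    finrank k (tp W₁ W₂) = finrank k W₁ * finrank k W₂ := by
  rw [tp, ← TensorProduct.range_mapIncl, LinearMap.finrank_range_of_inj
    (Module.Flat.tensorProduct_mapIncl_injective_of_right _ _), finrank_tensorProduct]

theorem finrank_quot_comap {W J : Submodule k V₁} (hW : W.FG) (h : J ≤ W) :
    (finrank k (W ⧸ J.comap W.subtype) : ℤ) = finrank k W - finrank k J := by
  have := Module.Finite.iff_fg.2 hW
  rw [← (J.comap W.subtype).finrank_quotient_add_finrank,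
    (comapSubtypeEquivOfLe h).finrank_eq]
  push_cast
  ring

theorem finrank_tp_sup {W₁ J₁ : Submodule k V₁} {W₂ J₂ : Submodule k V₂} (f₁ : W₁.FG) (f₂ : W₂.FG)
    (h₁ : J₁ ≤ W₁) (h₂ : J₂ ≤ W₂) :
    (finrank k (tp W₁ W₂) : ℤ) - finrank k ↥(tp J₁ W₂ ⊔ tp W₁ J₂) =
      (finrank k W₁ - finrank k J₁ : ℤ) * (finrank k W₂ - finrank k J₂ : ℤ) := by
  have := Module.Finite.iff_fg.2 f₁
  have := Module.Finite.iff_fg.2 f₂
  have h := ker_tp_map W₁ J₁ W₂ J₂ _ _ (ker_mkQ _) (ker_mkQ _)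
  rw [inf_eq_left.2 h₁, inf_eq_left.2 h₂] at h
  have h3 := LinearMap.finrank_range_add_finrank_ker
    (TensorProduct.map (J₁.comap W₁.subtype).mkQ (J₂.comap W₂.subtype).mkQ)
  rw [LinearMap.range_eq_top.2 (TensorProduct.map_surjective (mkQ_surjective _) (mkQ_surjective _)),
    finrank_top, finrank_tensorProduct, finrank_tensorProduct] at h3
  rw [← h, ← (equivMapOfInjective _
    (Module.Flat.tensorProduct_mapIncl_injective_of_right W₁ W₂) _).finrank_eq, finrank_tp,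
    ← finrank_quot_comap f₁ h₁, ← finrank_quot_comap f₂ h₂, ← h3]
  push_cast
  ring

end Pool.Agent.Lib.MP_40dc3c_ag.T
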