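import Pool.Agent.Lib.MP_40dc3c_ag.T.CE
import Pool.Agent.Lib.MP_40dc3c_ag.T.Tp

/-! Base change of lattices from the ground field. -/

namespace Pool.Agent.Lib.MP_40dc3c_ag.T

open scoped TensorProduct nonZeroDivisors
open Function Filter Submodule Module

variable {k B : Type} [Field k] (S : Type) [CommRing S] [Algebra k S]

section lin

variable {V : Type} [AddCommGroup V] [Module k V]

variable {S} in
theorem bc_le {W : Submodule k V} {T : Submodule S (S ⊗[k] V)} (h : ∀ w ∈ W, (1 : S) ⊗ₜ[k] w ∈ T) :
    W.baseChange S ≤ T := by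
  rw [baseChange_eq_span, span_le]
  rintro _ ⟨w, hw, rfl⟩
  exact h w hw

theorem bc_fg {W : Submodule k V} (h : W.FG) : (W.baseChange S).FG := by
  have := Module.Finite.iff_fg.2 h
  rw [baseChange, LinearMap.range_eq_map]
  exact Module.Finite.fg_top.map _

variable {S} in
theorem smul_bc (J : Ideal S) (W : Submodule k V) :
    (J • W.baseChange S).restrictScalars k = tp (J.restrictScalars k) W := by
  refine le_antisymm (fun z hz => ?_) (map₂_le.2 fun j hj w hw => ?_)
  · have hz' : z ∈ J • W.baseChange S := hz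
    refine smul_induction_on hz' ?_ fun _ _ ha hb => add_mem ha hb
    rintro j hj _ ⟨y, rfl⟩
    induction y using TensorProduct.induction_on with
    | zero => simp
    | tmul s w =>
      rw [LinearMap.baseChange_tmul, TensorProduct.smul_tmul']
      exact apply_mem_map₂ (TensorProduct.mk k S V) (m := j * s) (J.mul_mem_right s hj) w.2
    | add a b ha hb =>
      rw [map_add, smul_add]
      exact add_mem ha hb
  · have : j ⊗ₜ[k] w = j • (1 : S) ⊗ₜ[k] w := by rw [TensorProduct.smul_tmul', smul_eq_mul, mul_one]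
    change j ⊗ₜ[k] w ∈ J • W.baseChange S
    rw [this]
    exact smul_mem_smul hj (tmul_mem_baseChange_of_mem _ hw)

theorem res_bc (W : Submodule k V) : (W.baseChange S).restrictScalars k = tp ⊤ W := by
  rw [← top_smul (W.baseChange S), smul_bc, restrictScalars_top]

variable {S} in
theorem bc_inf (J : Ideal S) (I W : Submodule k V) :
    (J • (⊤ : Submodule k V).baseChange S ⊔ I.baseChange S) ⊓ W.baseChange S =
      J • W.baseChange S ⊔ (I ⊓ W).baseChange S := by
  refine restrictScalars_injective k _ _ ?_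
  rw [restrictScalars_inf, restrictScalars_sup, restrictScalars_sup, smul_bc, smul_bc, res_bc,
    res_bc, res_bc, tp_inf, inf_top_eq]

variable {S} in
theorem cl_fun (M : Type) [AddCommGroup M] [Module S M] [Module.Finite S M] (n : ℕ) :
    cl S (Fin n → M) = n • cl S M := by
  induction n with
  | zero => rw [cl_zero, zero_smul]
  | succ n ih =>
    rw [← cl_equiv (Fin.consLinearEquiv S fun _ : Fin (n + 1) => M), succ_nsmul', ← ih]
    exact cl_exact (LinearMap.inl S _ _) (LinearMap.snd S _ _) LinearMap.inl_injective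
      Function.Exact.inl_snd LinearMap.snd_surjective

variable {S} in
theorem cl_tensor (M : Type) [AddCommGroup M] [Module S M] [Module.Finite S M] [Module k M]
    [IsScalarTower k S M] (Q : Type) [AddCommGroup Q] [Module k Q] [Module.Finite k Q]
    [Module.Finite S (M ⊗[k] Q)] : cl S (M ⊗[k] Q) = finrank k Q • cl S M := by
  rw [← cl_fun]
  exact cl_equiv ((TensorProduct.AlgebraTensorModule.congr (LinearEquiv.refl S M)
    (finBasis k Q).equivFun).trans (TensorProduct.piScalarRight k S M _))

variable {S} in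
theorem cs_bc [IsNoetherianRing S] (J : Ideal S) {W I : Submodule k V} (hW : W.FG) (h : I ≤ W) :
    cs (W.baseChange S) - cs (J • W.baseChange S ⊔ I.baseChange S) =
      ((finrank k W - finrank k I : ℤ) : ℂ) • q J := by
  have := Module.Finite.iff_fg.2 hW
  let φ : S ⊗[k] W →ₗ[S] (S ⧸ J) ⊗[k] (W ⧸ I.comap W.subtype) :=
    TensorProduct.AlgebraTensorModule.map J.mkQ (I.comap W.subtype).mkQ
  have hφ : φ.restrictScalars k =
      TensorProduct.map (J.mkQ.restrictScalars k) (I.comap W.subtype).mkQ := by
    ext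
    rfl
  have hs : Surjective φ := by
    change Surjective (φ.restrictScalars k)
    rw [hφ]
    exact TensorProduct.map_surjective (g := J.mkQ.restrictScalars k) J.mkQ_surjective
      (mkQ_surjective _)
  have hi : Injective (W.subtype.baseChange S) :=
    Module.Flat.lTensor_preserves_injective_linearMap _ W.injective_subtype
  have h1 : (LinearMap.ker φ).map (W.subtype.baseChange S) =
      J • W.baseChange S ⊔ I.baseChange S := by
    refine restrictScalars_injective k _ _ ?_
    have h2 : (W.subtype.baseChange S).restrictScalars k =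
        TensorProduct.map LinearMap.id W.subtype := by
      ext
      rfl
    rw [restrictScalars_sup, smul_bc, res_bc, restrictScalars_map, ← LinearMap.ker_restrictScalars,
      hφ, h2, ker_tp, Submodule.map_sup, tp_map, tp_map, ker_mkQ, map_comap_subtype,
      inf_eq_right.2 h, map_subtype_top, Submodule.map_id, Submodule.map_id,
      LinearMap.ker_restrictScalars, ker_mkQ]
  have h3 : Module.Finite S ((S ⧸ J) ⊗[k] (W ⧸ I.comap W.subtype)) := .of_surjective φ hs
  have h4 := cs_ker (S := S) (N := ⊤) Module.Finite.fg_top φ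
  rw [top_inf_eq, Submodule.map_top, LinearMap.range_eq_top.2 hs,
    cs_eq (⊤ : Submodule S ((S ⧸ J) ⊗[k] (W ⧸ I.comap W.subtype))), cl_equiv topEquiv,
    cl_tensor] at h4
  rw [← h1, baseChange, LinearMap.range_eq_map,
    cs_map _ fun x _ hx => (injective_iff_map_eq_zero _).1 hi x hx,
    cs_map _ fun x _ hx => (injective_iff_map_eq_zero _).1 hi x hx, h4, add_sub_cancel_left,
    ← finrank_quot_comap hW h, Int.cast_natCast, Nat.cast_smul_eq_nsmul]
  rfl

end lin

variable [CommRing B] [Algebra k B]

theorem bc_mul (W W' : Submodule k B) :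
    (W * W').baseChange S = W.baseChange S * W'.baseChange S := by
  refine le_antisymm (bc_le fun w hw => ?_) ?_
  · refine Submodule.mul_induction_on hw (fun a ha b hb => ?_) fun a b ha hb => ?_
    · rw [← one_mul (1 : S), ← Algebra.TensorProduct.tmul_mul_tmul]
      exact mul_mem_mul (tmul_mem_baseChange_of_mem _ ha) (tmul_mem_baseChange_of_mem _ hb)
    · rw [TensorProduct.tmul_add]
      exact add_mem ha hb
  · rw [baseChange_eq_span S W, baseChange_eq_span S W', span_mul_span, span_le]
    rintro _ ⟨_, ⟨a, ha, rfl⟩, _, ⟨b, hb, rfl⟩, rfl⟩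
    exact ⟨(1 * 1) ⊗ₜ ⟨a * b, mul_mem_mul ha hb⟩, (Algebra.TensorProduct.tmul_mul_tmul _ _ _ _).symm⟩

theorem bc_one : (1 : Submodule k B).baseChange S = 1 := by
  rw [one_eq_span, baseChange_span, Set.image_singleton, one_eq_span]
  rfl

/-- base change as a monoid map. -/
noncomputable def bcHom : Submodule k B →* Submodule S (S ⊗[k] B) :=
  ⟨⟨baseChange S, bc_one S⟩, bc_mul S⟩

theorem bc_pow (W : Submodule k B) (d : ℕ) : (W ^ d).baseChange S = W.baseChange S ^ d :=
  map_pow (bcHom S) W d

theorem bc_reg {b : B} (hb : b ∈ B⁰) : (1 : S) ⊗ₜ[k] b ∈ (S ⊗[k] B)⁰ := by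
  have h : Injective ((LinearMap.mulLeft k b).lTensor S) :=
    Module.Flat.lTensor_preserves_injective_linearMap _ ((injective_iff_map_eq_zero _).2
      fun x hx => (mem_nonZeroDivisors_iff_left.1 hb) x hx)
  have e : ∀ z, (LinearMap.mulLeft k b).lTensor S z = (1 : S) ⊗ₜ[k] b * z := fun z => by
    induction z using TensorProduct.induction_on with
    | zero => simp
    | tmul s x => simp
    | add x y hx hy => rw [map_add, hx, hy, mul_add]
  exact mem_nonZeroDivisors_iff_left.2 fun z hz => h (by rw [e, hz, map_zero])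

theorem Invt.bc {U D : Submodule k B} (h : Invt U D) : Invt (U.baseChange S) (D.baseChange S) := by
  rw [baseChange_eq_span, baseChange_eq_span]
  exact h.base (S' := S) (Algebra.TensorProduct.includeRight : B →ₐ[k] S ⊗[k] B)
    fun b hb => bc_reg S hb

theorem bc_map (g : B ≃ₐ[k] B) (W : Submodule k B) :
    (W.baseChange S).map (Algebra.TensorProduct.congr (AlgEquiv.refl : S ≃ₐ[S] S) g).toLinearMap =
      (W.map g.toLinearMap).baseChange S := by
  refine le_antisymm (map_le_iff_le_comap.2 (bc_le fun w hw => ?_)) (bc_le ?_)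
  · exact tmul_mem_baseChange_of_mem (1 : S) (mem_map_of_mem hw)
  · rintro _ ⟨w, hw, rfl⟩
    exact ⟨_, tmul_mem_baseChange_of_mem (1 : S) hw, rfl⟩

theorem Gen.bc {U : Submodule k B} (h : Gen U) : Gen (U.baseChange S) := by
  refine ⟨bc_fg S h.fg, tmul_mem_baseChange_of_mem 1 h.one, fun z => ?_⟩
  induction z using TensorProduct.induction_on with
  | zero => exact ⟨0, zero_mem _⟩
  | tmul s b =>
    obtain ⟨d, hd⟩ := h.gen b
    exact ⟨d, bc_pow S U d ▸ tmul_mem_baseChange_of_mem s hd⟩
  | add x y hx hy =>
    obtain ⟨a, ha⟩ := hx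
    obtain ⟨b, hb⟩ := hy
    rw [← bc_pow] at ha hb
    exact ⟨a + b, bc_pow S U _ ▸ add_mem (baseChange_mono S (h.mono (Nat.le_add_right a b)) ha)
      (baseChange_mono S (h.mono (Nat.le_add_left b a)) hb)⟩

theorem Sys.bc {α : Type} {U : Submodule k B} {D : α → Submodule k B} {w : α → ℂ}
    (h : Sys U D w) : Sys (U.baseChange S) (fun a => (D a).baseChange S) w := by
  obtain ⟨l, h1, h2⟩ := h.bd
  refine ⟨h.gen.bc S, fun a => (h.inv a).bc S, l.map (bcHom S), ?_, ?_⟩
  · rw [← map_list_prod, List.length_map, ← bc_pow]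
    exact (bc_mul S _ _).ge.trans (baseChange_mono S h1)
  · intro V' hV'
    obtain ⟨V, hV, rfl⟩ := List.mem_map.1 hV'
    obtain ⟨h3, g, c, σ, ζ, hζ, hg, hc, hσ⟩ := h2 V hV
    refine ⟨baseChange_mono S h3, Algebra.TensorProduct.congr AlgEquiv.refl g,
      Units.map (algebraMap k S : k →* S) c, σ, ζ, hζ, by rw [bc_map, hg], fun u hu => ?_,
      fun a => ⟨by rw [bc_map, (hσ a).1], (hσ a).2⟩⟩
    refine bc_le (T := (V.baseChange S).comap (algebraMap k S c •
      (Algebra.TensorProduct.congr (AlgEquiv.refl : S ≃ₐ[S] S) g).toLinearMap - LinearMap.id))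
      (fun x hx => ?_) hu
    have := tmul_mem_baseChange_of_mem (1 : S) (hc x hx)
    rw [TensorProduct.tmul_sub, TensorProduct.tmul_smul, ← algebraMap_smul S] at this
    exact this

variable {S} in
theorem mul_smul_id {B' : Type} [CommRing B'] [Algebra S B'] (J : Ideal S)
    (D W : Submodule S B') : D * J • W = J • (D * W) := by
  refine le_antisymm (mul_le.2 fun x hx y hy => ?_) (smul_le.2 fun j hj y hy => ?_)
  · refine smul_induction_on hy (fun j hj y hy => ?_) fun a b ha hb => ?_
    · rw [mul_smul_comm]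
      exact smul_mem_smul hj (mul_mem_mul hx hy)
    · rw [mul_add]
      exact add_mem ha hb
  · refine Submodule.mul_induction_on hy (fun a ha b hb => ?_) fun a b ha hb => ?_
    · rw [← mul_smul_comm]
      exact mul_mem_mul ha (smul_mem_smul hj hb)
    · rw [smul_add]
      exact add_mem ha hb

variable {S} in
theorem res_ibox (J : Ideal S) (I : Ideal B) : (ibox (k := k) J I).restrictScalars S =
    J • (⊤ : Submodule k B).baseChange S ⊔ (I.restrictScalars k).baseChange S := by
  refine restrictScalars_injective k _ _ ?_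
  rw [restrictScalars_sup, smul_bc, res_bc]
  change (ibox (k := k) J I).restrictScalars k = _
  rw [ibox, restrictScalars_sup, Ideal.map_includeLeft_eq, Ideal.map_includeRight_eq,
    LinearMap.lTensor, LinearMap.rTensor, TensorProduct.range_map, TensorProduct.range_map,
    range_subtype, range_subtype, LinearMap.range_id, LinearMap.range_id]

variable {S} in
theorem hq_bc [IsNoetherianRing S] {U D : Submodule k B} (hU : U.FG) (hD : D.FG) (J : Ideal S)
    (I : Ideal B) (d : ℕ) :
    hq (U.baseChange S) (D.baseChange S) (ibox J I) d = (hn U D I d : ℂ) • q J := by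
  rw [hq, res_ibox, ← bc_pow, bc_inf, Submodule.mul_sup, mul_smul_id, ← bc_mul, ← bc_mul,
    cs_bc J (hD.mul (hU.pow d)) (mul_le_mul_right inf_le_right D), hn]

end Pool.Agent.Lib.MP_40dc3c_ag.T
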