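import Pool.Agent.Lib.MP_40dc3c_ag.T.CD
import Pool.Agent.Lib.MP_40dc3c_ag.T.CG
import Pool.Agent.Lib.MP_40dc3c_ag.T.CXa

/-! The functional with parameters. -/

namespace Pool.Agent.Lib.MP_40dc3c_ag.T

open scoped TensorProduct nonZeroDivisors
open Function Filter Submodule Module

theorem ibox_comm {k A A' : Type} [Field k] [CommRing A] [CommRing A'] [Algebra k A] [Algebra k A']
    (I : Ideal A) (J : Ideal A') :
    (ibox (k := k) I J).map (Algebra.TensorProduct.comm k A A').toRingEquiv.toRingHom =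
      ibox J I := by
  rw [ibox, ibox, Ideal.map_sup, sup_comm]
  congr 1
  · exact Ideal.map_map
      (Algebra.TensorProduct.includeRight : A' →ₐ[k] A ⊗[k] A').toRingHom _
  · exact Ideal.map_map
      (Algebra.TensorProduct.includeLeft : A →ₐ[k] A ⊗[k] A').toRingHom _

theorem Sys.ext {k B α : Type} [Field k] [CommRing B] [Algebra k B] [Fintype α]
    {U : Submodule k B} {D : α → Submodule k B} {w : α → ℂ} (h : Sys U D w) {lam : K B →ₗ[ℂ] ℂ}
    (hl : IsLam U D w lam) (S : Type) [CommRing S] [Algebra k S] [IsNoetherianRing S] :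
    ∃ Λ : K (B ⊗[k] S) →ₗ[ℂ] K S, ∀ (I : Ideal B) (J : Ideal S),
      Λ (q (ibox I J)) = lam (q I) • q J := by
  obtain ⟨τ, hτ⟩ := (h.bc S).exists_tau
  refine ⟨τ ∘ₗ pull (Algebra.TensorProduct.comm k B S).toRingEquiv.toRingHom
    (RingHom.Flat.of_bijective (Algebra.TensorProduct.comm k B S).bijective), fun I J => ?_⟩
  obtain ⟨d, h1, h2⟩ := ((hτ (ibox J I)).and (hl I)).exists
  rw [LinearMap.comp_apply, pull_q, ibox_comm, h1, h2, Finset.sum_smul]
  exact Finset.sum_congr rfl fun a _ => by rw [hq_bc h.gen.fg (h.inv a).1, smul_smul]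

end Pool.Agent.Lib.MP_40dc3c_ag.T
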