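import Pool.Agent.Lib.MP_40dc3c_ag.HDp

/-! The eigenvalues that are a power of `q` up to a root of unity. -/

namespace Pool.Agent.Lib.MP_40dc3c_ag.HD

open Finset

variable {F : Type} [Field F] [Fintype F] {χ : MulChar F ℂ} {ψ : AddChar F ℂ} {m n r : ℕ}

theorem weight' (hm : orderOf χ = m) (hψ : ψ ≠ 1) {f : Fin n → Bool ⊕ Tri m}
    (h : IsOfFinOrder ((∏ i, ev χ ψ (f i)) / (Fintype.card F : ℂ) ^ r)) :
    #{i | (f i).isRight} + 2 * #{i | f i = .inl true} = 2 * r := by
  have q0 : ‖(Fintype.card F : ℂ) ^ r‖ ≠ 0 := by simp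
  have h1 := h.norm_eq_one
  rw [norm_div, div_eq_one_iff_eq q0] at h1
  have := congrArg (· ^ 2) h1
  simp only [prod_ev, norm_mul, norm_prod, mul_pow, ← prod_pow, norm_pow, Complex.norm_natCast] at this
  rw [prod_congr rfl (g := fun i => if (f i).isRight then (Fintype.card F : ℝ) else 1) fun i _ => by
    obtain b | a := f i <;> simp [norm_lam hm hψ], ← prod_filter, prod_const, ← pow_mul, ← pow_mul, ← pow_add] at this
  have := Nat.pow_right_injective (Fintype.one_lt_card (α := F)) (by exact_mod_cast this)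
  omega

open Classical in
theorem mu_sum (hm : orderOf χ = m) (hψ : ψ ≠ 1) :
    ((mu χ ψ m n).sum fun t c => if IsOfFinOrder (t / (Fintype.card F : ℂ) ^ r) then c else 0) =
      #{f : Fin n → Bool ⊕ Tri m |
        IsOfFinOrder ((∏ i, ev χ ψ (f i)) / (Fintype.card F : ℂ) ^ r)} := by
  rw [mu, ← Finsupp.sum_finsetSum_index (by simp) (fun a b c => by split_ifs <;> simp), card_filter]
  push_cast
  refine sum_congr rfl fun f _ => ?_
  rw [Finsupp.sum_single_index (by simp)]
  split_ifs with h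
  · exact Even.neg_one_pow ⟨r - #{i | f i = .inl true}, by have := weight' hm hψ h; omega⟩
  · rfl

theorem gtate' {p : ℕ} [CharP F p] (hm : orderOf χ = m) (hψ : ψ ≠ 1) {f : Fin n → Bool ⊕ Tri m}
    (h : IsOfFinOrder ((∏ i, ev χ ψ (f i)) / (Fintype.card F : ℂ) ^ r)) :
    Fe.GTate p (∑ i, frac m (f i)) := by
  let N : Bool ⊕ Tri m → Multiset ℤ := Sum.elim (fun _ => 0) fun a => univ.val.map fun s => (a.1 s : ℤ)
  have mp : ∀ {β : Type} (g : ℤ → β), (∑ i, N (f i)).map g = ∑ i, (N (f i)).map g := fun g =>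
    map_sum (Multiset.mapAddMonoidHom g) _ _
  have w := weight' hm hψ h
  obtain ⟨k, k0, hk⟩ := isOfFinOrder_iff_pow_eq_one.1 h
  have q0 : (Fintype.card F : ℂ) ≠ 0 := by simp
  rw [div_pow, div_eq_one_iff_eq (pow_ne_zero _ (pow_ne_zero _ q0))] at hk
  refine ⟨F, ‹_›, ‹_›, ‹_›, χ, ψ, ∑ i, N (f i), k, hψ, k0, fun z hz => ?_, ?_, ?_⟩
  · obtain ⟨i, -, hi⟩ := Multiset.mem_sum.1 hz
    revert hi
    obtain b | a := f i
    · simp [N]
    · intro hi
      obtain ⟨s, -, rfl⟩ := Multiset.mem_map.1 (show z ∈ univ.val.map fun s => (a.1 s : ℤ) from hi)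
      exact_mod_cast ne_one hm a s
  · rw [mp]
    refine sum_congr rfl fun i _ => ?_
    obtain b | a := f i <;> simp [N, frac, hm]
  · rw [mp, Multiset.prod_sum, Multiset.card_sum,
      sum_congr rfl (g := fun i => if (f i).isRight then 3 else 0) fun i _ => by
        obtain b | a := f i <;> simp [N], ← sum_filter, sum_const,
      prod_congr rfl (g := fun i => (if (f i).isRight then -(Fintype.card F : ℂ) else 1) *
        (f i).elim (fun _ => 1) fun a => lam χ ψ a.1) fun i _ => by
          obtain b | a := f i <;> simp [N, lam, Fin.prod_univ_three]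
          field_simp, prod_mul_distrib, ← prod_filter, prod_const]
    rw [prod_ev] at hk
    generalize (∏ i, (f i).elim (fun _ => 1) fun a => lam χ ψ a.1) = L at hk ⊢
    generalize #{i | (f i).isRight} = u at w ⊢
    generalize #{i | f i = .inl true} = v at w hk
    generalize (Fintype.card F : ℂ) = q at q0 hk ⊢
    refine mul_left_cancel₀ (pow_ne_zero (v * k * 2) q0) ?_
    have e : ∀ z : ℂ, q ^ (v * k * 2) * (z ^ u * L) ^ (2 * k) = (z ^ 2) ^ (u * k) * ((q ^ v * L) ^ k) ^ 2 :=
      fun z => by ring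
    rw [e, hk, neg_sq]
    simp only [← pow_mul, ← pow_add, smul_eq_mul]
    congr 1
    have : r * k * 2 = (u + 2 * v) * k := by rw [w]; ring
    rw [this]
    ring

theorem exists_chi (p f m : ℕ) [Fact p.Prime] (hf : 0 < f) (hm : m ∣ p ^ f - 1) :
    ∃ (F : Type) (_ : Field F) (_ : Fintype F) (_ : CharP F p) (χ : MulChar F ℂ) (ψ : AddChar F ℂ),
      Fintype.card F = p ^ f ∧ orderOf χ = m ∧ ψ ≠ 1 := by
  let F := GaloisField p f
  let _ : Fintype F := Fintype.ofFinite F
  have hc : Fintype.card F = p ^ f := by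
    rw [← Nat.card_eq_fintype_card]; exact GaloisField.card p f hf.ne'
  have h1 := Fintype.one_lt_card (α := F)
  have m0 : m ≠ 0 := fun e => by
    rw [e, zero_dvd_iff] at hm
    omega
  obtain ⟨χ, hχ⟩ := MulChar.exists_mulChar_orderOf F (hc ▸ hm) (Complex.isPrimitiveRoot_exp m m0)
  refine ⟨F, inferInstance, inferInstance, inferInstance, χ, AddChar.FiniteField.primitiveChar_to_Complex F,
    hc, hχ, ?_⟩
  have := AddChar.FiniteField.primitiveChar_to_Complex_isPrimitive F (one_ne_zero (α := F))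
  rwa [AddChar.mulShift_one] at this

end Pool.Agent.Lib.MP_40dc3c_ag.HD
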