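import Pool.Agent.Lib.MP_40dc3c_ag.T.O4
import Pool.Agent.Lib.MP_40dc3c_ag.T.FDefs
import Pool.Agent.Lib.MP_40dc3c_ag.T.KDim

/-! General steps for the Frobenius map of a product of curves. -/

namespace Pool.Agent.Lib.MP_40dc3c_ag.T

open scoped TensorProduct
open Function

open MvPolynomial

section gen

variable {k : Type} [Field k] {σ R : Type} [CommRing R] [Algebra k R] {x : σ → R} {Q : ℕ}
  {φ : R →ₐ[k] R}

theorem e2_fin [Algebra.FiniteType k R] (hx : Algebra.adjoin k (Set.range x) = ⊤) (hQ : 0 < Q)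
    {S : Type} [CommRing S] [Algebra k S] {g : S →ₐ[k] R} (h : ∀ i, ∃ n, 0 < n ∧ x i ^ n ∈ g.range) :
    g.toRingHom.Finite := by
  refine RingHom.IsIntegral.to_finite (fun a => ?_) (RingHom.FiniteType.of_comp_finiteType
    (f := algebraMap k S) (by
      rw [show g.toRingHom.comp (algebraMap k S) = algebraMap k R from g.comp_algebraMap]
      exact RingHom.finiteType_algebraMap.2 inferInstance))
  have ha : a ∈ Algebra.adjoin k (Set.range x) := hx ▸ Algebra.mem_top
  have _ := hQ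
  induction ha using Algebra.adjoin_induction with
  | mem a ha =>
    obtain ⟨i, rfl⟩ := ha
    obtain ⟨n, hn, b, hb⟩ := h i
    exact ⟨Polynomial.X ^ n - Polynomial.C b, Polynomial.monic_X_pow_sub_C b hn.ne', by
      rw [Polynomial.eval₂_sub, Polynomial.eval₂_X_pow, Polynomial.eval₂_C, hb, sub_self]⟩
  | algebraMap c => rw [← g.commutes]; exact g.toRingHom.isIntegralElem_map
  | add _ _ _ _ a b => exact a.add _ b
  | mul _ _ _ _ a b => exact a.mul _ b

variable (p : ℕ) [Fact p.Prime] [CharP k p]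

theorem e2_const (halg : ∀ x : kˣ, IsOfFinOrder x) (f : ℕ) (c : k) :
    ∃ s, 0 < s ∧ c ^ (p ^ f) ^ s = c := by
  have hp : p.Prime := Fact.out
  rcases eq_or_ne c 0 with rfl | hc
  · exact ⟨1, one_pos, zero_pow (pow_pos (pow_pos hp.pos _) _).ne'⟩
  have := (halg (Units.mk0 c hc)).finite_powers.to_subtype
  have key : ∀ a b : ℕ, a < b → c ^ (p ^ f) ^ a = c ^ (p ^ f) ^ b →
      ∃ s, 0 < s ∧ c ^ (p ^ f) ^ s = c := fun a b hab e => by
    refine ⟨b - a, Nat.sub_pos_of_lt hab, (iterateFrobenius k p (f * a)).injective ?_⟩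
    rw [iterateFrobenius_def, iterateFrobenius_def, pow_mul, ← pow_mul c, ← pow_add,
      Nat.sub_add_cancel hab.le, e]
  obtain ⟨a, b, hab, e⟩ := Finite.exists_ne_map_eq_of_infinite fun s : ℕ =>
    (⟨Units.mk0 c hc ^ (p ^ f) ^ s, _, rfl⟩ : (Submonoid.powers (Units.mk0 c hc) : Set kˣ))
  have e' : c ^ (p ^ f) ^ a = c ^ (p ^ f) ^ b := by
    simpa using congrArg (fun u => ((u.1 : kˣ) : k)) e
  exact hab.lt_or_gt.elim (fun h => key a b h e') fun h => key b a h e'.symm

theorem e2_pow (halg : ∀ x : kˣ, IsOfFinOrder x) {f : ℕ}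
    (hx : Algebra.adjoin k (Set.range x) = ⊤) (h : ∀ i, φ (x i) = x i ^ p ^ f) (a : R) :
    ∃ s, 0 < s ∧ (φ ^ s) a = a ^ (p ^ f) ^ s := by
  rcases subsingleton_or_nontrivial R with _ | _
  · exact ⟨1, one_pos, Subsingleton.elim _ _⟩
  have : CharP R p := charP_of_injective_algebraMap (algebraMap k R).injective p
  have ha : a ∈ Algebra.adjoin k (Set.range x) := hx ▸ Algebra.mem_top
  induction ha using Algebra.adjoin_induction with
  | mem a ha => obtain ⟨i, rfl⟩ := ha; exact ⟨1, one_pos, by simpa using h i⟩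
  | algebraMap c =>
    obtain ⟨s, hs, e⟩ := e2_const p halg f c
    exact ⟨s, hs, by rw [AlgHom.commutes, ← map_pow, e]⟩
  | add a b _ _ ha hb =>
    obtain ⟨s, hs, e⟩ := ha
    obtain ⟨t, ht, e'⟩ := hb
    refine ⟨s * t, Nat.mul_pos hs ht, ?_⟩
    rw [map_add, frob_mul e, mul_comm s t, frob_mul e', ← pow_mul, add_pow_char_pow]
  | mul a b _ _ ha hb =>
    obtain ⟨s, hs, e⟩ := ha
    obtain ⟨t, ht, e'⟩ := hb
    refine ⟨s * t, Nat.mul_pos hs ht, ?_⟩
    rw [map_mul, frob_mul e, mul_comm s t, frob_mul e', mul_pow]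

omit [Fact p.Prime] [CharP k p] in
theorem e2_adj (I : Ideal (MvPolynomial σ k)) :
    Algebra.adjoin k (Set.range fun i => Ideal.Quotient.mk I (X i)) = ⊤ := by
  have := congrArg (Subalgebra.map (Ideal.Quotient.mkₐ k I)) (adjoin_range_X (σ := σ) (R := k))
  rwa [AlgHom.map_adjoin, ← Set.range_comp, Algebra.map_top, (AlgHom.range_eq_top _).2
    (Ideal.Quotient.mkₐ_surjective k I)] at this

end gen

section good

variable {k : Type} [Field k] {ι κ μ : Type}

/-- classes that lie over a point of one factor. -/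
noncomputable def e2T (A : Alg k) (x : ι × Fin 2 → A.R) : Submodule ℂ (K A.R) :=
  Submodule.span ℂ {v | ∃ (I : Ideal A.R) (i : ι) (α : Fin 2 → k),
    (∀ s, x (i, s) - algebraMap k A.R (α s) ∈ I) ∧ v = q I}

theorem e2T_map {A : Alg k} {x : ι × Fin 2 → A.R} {V : Type*} [AddCommGroup V] [Module ℂ V]
    (L : K A.R →ₗ[ℂ] V) {T : Submodule ℂ V} (h : ∀ (I : Ideal A.R) (i : ι) (α : Fin 2 → k),
      (∀ s, x (i, s) - algebraMap k A.R (α s) ∈ I) → L (q I) ∈ T) {v} (hv : v ∈ e2T A x) :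
    L v ∈ T := by
  refine (Submodule.span_le.2 ?_ : e2T A x ≤ T.comap L) hv
  rintro _ ⟨I, i, α, hI, rfl⟩
  exact h I i α hI

theorem e2_transport {A A' : Alg k} {x : ι × Fin 2 → A.R} {x' : κ × Fin 2 → A'.R}
    (e : A.R →ₐ[k] A'.R) (he : Bijective e) (hx : ∀ j, ∃ i, ∀ s, e (x (i, s)) = x' (j, s))
    {φ : A.R →ₐ[k] A.R} (hφ : φ.toRingHom.Finite) {φ' : A'.R →ₐ[k] A'.R}
    (hφ' : φ'.toRingHom.Finite) (hc : e.comp φ = φ'.comp e) {N : ℂ}
    (h : push _ hφ' (q ⊥) - N • q ⊥ ∈ e2T A' x') : push _ hφ (q ⊥) - N • q ⊥ ∈ e2T A x := by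
  have hf : e.toRingHom.Finite := RingHom.Finite.of_surjective _ he.2
  have e0 : push _ hf (q ⊥) = q ⊥ := by
    rw [push_q _ hf he.2, ← RingHom.ker_eq_comap_bot, (RingHom.injective_iff_ker_eq_bot e.toRingHom).1 he.1]
  have := e2T_map (T := e2T A x) (push _ hf) (fun I j α hI => by
    obtain ⟨i, hi⟩ := hx j
    rw [push_q _ hf he.2]
    refine Submodule.subset_span ⟨_, i, α, fun s => ?_, rfl⟩
    change e _ ∈ I
    rw [map_sub, hi, e.commutes]
    exact hI s) h
  have e1 : push _ hf (push _ hφ' (q ⊥)) = push _ hφ (q ⊥) := by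
    rw [← e0, push_push, push_push]
    exact LinearMap.congr_fun (push_congr _ _ (RingHom.ext fun a => (AlgHom.congr_fun hc a).symm)) _
  rwa [map_sub, map_smul, e0, e1] at this

theorem e2_ten {A B : Alg k} {x : ι × Fin 2 → A.R} {y : κ × Fin 2 → B.R}
    {z : μ × Fin 2 → (A.ten B).R} (h1 : ∀ i, ∃ j, ∀ s, z (j, s) = x (i, s) ⊗ₜ 1)
    (h2 : ∀ i, ∃ j, ∀ s, z (j, s) = 1 ⊗ₜ y (i, s)) {φ : A.R →ₐ[k] A.R} (hφ : φ.toRingHom.Finite)
    {ψ : B.R →ₐ[k] B.R} (hψ : ψ.toRingHom.Finite) {N M : ℂ}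
    (hA : push _ hφ (q ⊥) - N • q ⊥ ∈ e2T A x) (hB : push _ hψ (q ⊥) - M • q ⊥ ∈ e2T B y)
    (h : (Algebra.TensorProduct.map φ ψ).toRingHom.Finite) :
    push _ h (q ⊥) - (N * M) • q ⊥ ∈ e2T (A.ten B) z := by
  have e0 : box A B (q ⊥) (q ⊥) = q ⊥ := by rw [box_q, Ideal.map_bot, Ideal.map_bot, sup_bot_eq]
  have e1 : push _ h (q ⊥) = box A B (push _ hφ (q ⊥)) (push _ hψ (q ⊥)) := by
    rw [← pushL_box, ← pushR_box, e0, pushL, pushR, push_push]
    refine LinearMap.congr_fun (push_congr _ _ ?_) _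
    refine RingHom.ext fun a => ?_
    induction a with
    | zero => simp
    | tmul a b => rfl
    | add a b ha hb => rw [map_add, map_add, ha, hb]
  have a1 : ∀ v ∈ e2T A x, ∀ w, box A B v w ∈ e2T (A.ten B) z := fun v hv w =>
    e2T_map ((box A B).flip w) (fun I i α hI => by
      obtain ⟨j, hj⟩ := h1 i
      have : (e2T (A.ten B) z).comap (box A B (q I)) = ⊤ := eq_top_of_q fun P _ => by
        rw [Submodule.mem_comap, box_q]
        refine Submodule.subset_span ⟨_, j, α, fun s => Ideal.mem_sup_left ?_, rfl⟩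
        have := Ideal.mem_map_of_mem
          (Algebra.TensorProduct.includeLeftRingHom : A.R →+* A.R ⊗[k] B.R) (hI s)
        rw [map_sub] at this
        rw [hj]
        exact this
      exact (this.ge Submodule.mem_top : w ∈ _)) hv
  have a2 : ∀ w ∈ e2T B y, box A B (q ⊥) w ∈ e2T (A.ten B) z := fun w hw =>
    e2T_map (box A B (q ⊥)) (fun I i α hI => by
      obtain ⟨j, hj⟩ := h2 i
      rw [box_q]
      refine Submodule.subset_span ⟨_, j, α, fun s => Ideal.mem_sup_right ?_, rfl⟩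
      have := Ideal.mem_map_of_mem
        (Algebra.TensorProduct.includeRight : B.R →ₐ[k] A.R ⊗[k] B.R) (hI s)
      rw [map_sub, AlgHom.commutes] at this
      rw [hj]
      exact this) hw
  have := add_mem (a1 _ hA (push _ hψ (q ⊥))) (Submodule.smul_mem _ N (a2 _ hB))
  simp only [map_sub, map_smul, LinearMap.sub_apply, LinearMap.smul_apply, e0, smul_sub,
    sub_add_sub_cancel, smul_smul] at this
  rwa [e1]

theorem e2_relQ {R : Type} [CommRing R] [Algebra k R] (p : ℕ) [Fact p.Prime] [CharP k p] (f : ℕ)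
    {m : ℕ} {x : Fin 2 → R} (h : ∑ s, x s ^ m + 1 = 0) : ∑ s, (x s ^ p ^ f) ^ m + 1 = 0 := by
  rcases subsingleton_or_nontrivial R with _ | _
  · exact Subsingleton.elim _ _
  have : CharP R p := charP_of_injective_algebraMap (algebraMap k R).injective p
  have := congrArg (iterateFrobenius R p f) h
  rw [map_add, map_sum, map_one, map_zero] at this
  simpa only [map_pow, iterateFrobenius_def] using this

/-- the last step: a functional on the square sees the degree. -/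
theorem e2_last {A : Alg k} {x : ι × Fin 2 → A.R} {φ : A.R →ₐ[k] A.R} (hφ : φ.toRingHom.Finite)
    {N : ℂ} (h : push _ hφ (q ⊥) - N • q ⊥ ∈ e2T A x) (Λ : KK A A →ₗ[ℂ] ℂ)
    (hΛ : ∀ (J : Ideal (A.R ⊗[k] A.R)) (i : ι) (α : Fin 2 → k),
      RingHom.ker (Algebra.TensorProduct.lmul' k) ≤ J →
      (∀ s, (x (i, s) - algebraMap k A.R (α s)) ⊗ₜ 1 ∈ J) → Λ (q J) = 0) :
    Λ (pushL φ hφ _ (pushR _ φ hφ (diag A))) = N * Λ (diag A) := by
  let μ : A.R ⊗[k] A.R →ₐ[k] A.R := Algebra.TensorProduct.lmul' k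
  have hs : Surjective μ := fun a => ⟨a ⊗ₜ 1, by simp [μ]⟩
  have hμ : μ.toRingHom.Finite := RingHom.Finite.of_surjective _ hs
  have e0 : diag A = push _ hμ (q ⊥) := (push_q _ hμ hs ⊥).symm
  have e1 : pushL φ hφ _ (pushR _ φ hφ (diag A)) = push _ hμ (push _ hφ (q ⊥)) := by
    rw [e0, pushL, pushR, push_push, push_push, push_push]
    refine LinearMap.congr_fun (push_congr _ _ (RingHom.ext fun a => ?_)) _
    induction a with
    | zero => simp
    | tmul a b => simp [μ]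
    | add a b ha hb => rw [map_add, map_add, ha, hb]
  have := e2T_map (T := ⊥) (Λ ∘ₗ push _ hμ) (fun I i α hI => by
    rw [LinearMap.comp_apply, push_q _ hμ hs]
    refine hΛ _ i α (fun a ha => ?_) fun s => ?_
    · change μ a ∈ I
      rw [show μ a = 0 from ha]; exact zero_mem _
    · change μ _ ∈ I
      simpa [μ] using hI s) h
  rw [map_sub, map_smul, Submodule.mem_bot, sub_eq_zero] at this
  rw [e1, e0]
  exact this

end good

end Pool.Agent.Lib.MP_40dc3c_ag.T
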