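import Pool.Agent.Lib.MP_40dc3c_ag.T.CV
import Pool.Agent.Lib.MP_40dc3c_ag.T.E1
import Pool.Agent.Lib.MP_40dc3c_ag.T.E2
import Pool.Agent.Lib.MP_40dc3c_ag.T.B6
import Pool.Agent.Lib.MP_40dc3c_ag.T.B7

/-! From a Tate tuple to a subvariety of the middle dimension. -/

namespace Pool.Agent.Lib.MP_40dc3c_ag.T

open scoped TensorProduct
open Function Filter MvPolynomial

variable {k : Type} [Field k]

theorem box_ibox (A S : Alg k) (I : Ideal A.R) (J : Ideal S.R) :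
    box A S (q I) (q J) = q (ibox (k := k) I J) := box_q A S I J

theorem diag_grf (A : Alg k) : diag A = q (grf (AlgHom.id k A.R)) := by
  have : Algebra.TensorProduct.lmul' k (S := A.R) =
      Algebra.TensorProduct.productMap (AlgHom.id k A.R) (AlgHom.id k A.R) := by
    ext <;> simp
  rw [diag, grf, this]

theorem IsFun.left {X : Obj k} {lam : KK X.A X.A →ₗ[ℂ] ℂ} (h : IsFun X lam) (g x) :
    lam (X.aut g X.A x) = X.χ g * lam x := by
  refine LinearMap.congr_fun (f := lam ∘ₗ X.aut g X.A) (g := X.χ g • lam) (ext_q fun J _ => ?_) x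
  have e := h.equi g 1 J
  rw [inv_one, map_one X.χ, mul_one, map_one X.act] at e
  rw [LinearMap.comp_apply, Obj.aut, pullL, pull_q]
  exact e

theorem IsFun.right {X : Obj k} {lam : KK X.A X.A →ₗ[ℂ] ℂ} (h : IsFun X lam) (g x) :
    lam (X.autR g X.A x) = X.χ g⁻¹ * lam x := by
  refine LinearMap.congr_fun (f := lam ∘ₗ X.autR g X.A) (g := X.χ g⁻¹ • lam) (ext_q fun J _ => ?_) x
  have e := h.equi 1 g J
  rw [map_one X.χ, one_mul, map_one X.act] at e
  rw [LinearMap.comp_apply, Obj.autR, pullR, pull_q]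
  exact e

variable [IsAlgClosed k] (ω : kˣ →* ℂˣ) (p : ℕ) [Fact p.Prime] [CharP k p]

omit [IsAlgClosed k] in
theorem chis_neg {ι : Type} [Fintype ι] (m : ℕ) (c : ι → ℤ) (g) :
    chis ω m (-c) g = chis ω m c g⁻¹ := by
  simp [chis_apply, chi_apply]

theorem mid_of_ge (hω : Injective ω) (halg : ∀ x : kˣ, IsOfFinOrder x) {ι : Type} [Fintype ι]
    {m : ℕ} [NeZero m] {f : ℕ} (hf : 0 < f) (hm : m ∣ p ^ f - 1) (hk : (m : k) ≠ 0)
    {c : ι × Fin 2 → ℤ} (hc : Prim m c) (h1 : Ge (Obj.one k) (ferN ω ι m c))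
    (h2 : Ge (Obj.one k) (ferN ω ι m (-c))) : Mid ω ι m c := by
  obtain ⟨lam, hF, hH, hD⟩ := fers_fun hω hk hc
  obtain ⟨φ, hφ, a1, a2, a3⟩ := exists_frob ω p halg ι m f hf hm
  obtain ⟨P, j, hP, ht, hj, hz⟩ := core (ferN ω ι m c) (chis ω m (-c)) (chis_neg ω m c) mul_comm
    h1 h2 lam hF.left (fun g x => (hF.right g x).trans (by rw [chis_neg]))
    (by rwa [diag_grf]) φ hφ (a1 c) (p ^ f) (Nat.one_lt_pow hf.ne' (Fact.out : p.Prime).one_lt) a2
    (Fintype.card ι) (a3 lam (lam_van hk hH))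
  rw [box_ibox] at hz
  exact ⟨P, P, j, _, hP, hP, hj, ht, ht, hz, hH _⟩

theorem mid_of_tate (hω : Injective ω) (halg : ∀ x : kˣ, IsOfFinOrder x) {ι : Type} [Fintype ι]
    {m : ℕ} [NeZero m] {f : ℕ} (hf : 0 < f) (hm : m ∣ p ^ f - 1) (hg : Good p m)
    (a : ι → Fin 3 → ℤ) (ha : ∀ i s, ¬(m : ℤ) ∣ a i s) (hs : ∀ i, (m : ℤ) ∣ ∑ s, a i s)
    (he : Even (Fintype.card ι))
    (hT : Fe.Tate p (∑ i, Finset.univ.val.map fun s => (a i s : ℚ) / m)) :
    Mid ω ι m fun v => a v.1 v.2.castSucc := by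
  have hp : p.Prime := Fact.out
  have hpm : ¬p ∣ m := fun h => by
    have h1 : p ∣ p ^ f - (p ^ f - 1) := Nat.dvd_sub (dvd_pow_self p hf.ne') (h.trans hm)
    rw [Nat.sub_sub_self (Nat.one_le_pow _ _ hp.pos)] at h1
    exact hp.one_lt.ne' (Nat.dvd_one.1 h1)
  have hk : (m : k) ≠ 0 := by rwa [Ne, CharP.cast_eq_zero_iff k p]
  have h3 : ∀ i, (m : ℤ) ∣ a i 0 + a i 1 + a i 2 := fun i => by
    simpa [Fin.sum_univ_three] using hs i
  have key : ∀ b : ι → Fin 3 → ℤ, (∀ i s, ¬(m : ℤ) ∣ b i s) →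
      (∀ i, (m : ℤ) ∣ b i 0 + b i 1 + b i 2) →
      ∏ v : ι × Fin 3, (U ω p m (b v.1 v.2)).cls = 1 →
      Ge (Obj.one k) (ferN ω ι m fun v => b v.1 v.2.castSucc) := fun b hb h3 h =>
    one_ge_ferN ω p hω ι m hpm _ (fun i => b i 2) (fun i => hb i 2) (fun i => by
      rw [cls_U_congr ω p m (c' := -b i 2) (by simpa using h3 i), mul_comm]
      exact cls_U_mul_neg ω p hω m hpm (hb i 2)) (by
      rw [← h, Fintype.prod_prod_type, Fintype.prod_prod_type, ← Finset.prod_mul_distrib]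
      exact Finset.prod_congr rfl fun i _ => by simp [Fin.prod_univ_three, Fin.prod_univ_two]) h3
  have e1 : ∏ v : ι × Fin 3, (U ω p m (a v.1 v.2)).cls = 1 :=
    prod_U_eq_one ω p hω m hpm hg (fun v : ι × Fin 3 => a v.1 v.2) (by simp [he.mul_right]) (by
      convert hT using 1
      have : ∀ {α : Type} [Fintype α] (g : α → ℚ), Finset.univ.val.map g = ∑ x, {g x} :=
        fun g => by rw [Finset.sum, ← Multiset.sum_map_singleton (Multiset.map g _), Multiset.map_map]; rfl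
      simp only [this, Fintype.sum_prod_type])
  have e2 : ∏ v : ι × Fin 3, (U ω p m (-a v.1 v.2)).cls = 1 := by
    rw [← one_mul (∏ v : ι × Fin 3, _), ← e1, ← Finset.prod_mul_distrib, e1]
    exact Finset.prod_eq_one fun v _ => cls_U_mul_neg ω p hω m hpm (ha v.1 v.2)
  refine mid_of_ge ω p hω halg hf hm hk (fun i => ⟨ha i 0, ha i 1, fun h => ha i 2 ?_⟩)
    (key a ha h3 e1) (key (-a) (fun i s => by simpa using ha i s) (fun i => ?_) e2)
  · exact (dvd_add_right h).1 (h3 i)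
  · have := (h3 i).neg_right
    simpa [add_comm, add_left_comm, add_assoc] using this

end Pool.Agent.Lib.MP_40dc3c_ag.T
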