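import Mathlib

/-! The Grothendieck group of finite modules with complex coefficients: classes, push forward
along finite maps, pull back along flat maps. -/

namespace Pool.Agent.Lib.MP_40dc3c_ag.T

open scoped TensorProduct
open Function

set_option linter.style.haveILetI false

/-- a bundled finite module. -/
structure FG (R : Type) [CommRing R] : Type 1 where
  /-- the carrier. -/
  M : Type
  [acg : AddCommGroup M]
  [mod : Module R M]
  [fin : Module.Finite R M]

attribute [instance] FG.acg FG.mod FG.fin

/-- the relations given by short exact sequences. -/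
def rel (R : Type) [CommRing R] : Set (FG R →₀ ℂ) :=
  {x | ∃ (A B C : FG R) (f : A.M →ₗ[R] B.M) (g : B.M →ₗ[R] C.M), Injective f ∧ Exact f g ∧
    Surjective g ∧ x = Finsupp.single B 1 - Finsupp.single A 1 - Finsupp.single C 1}

/-- the Grothendieck group of finite modules, with complex coefficients. -/
def K (R : Type) [CommRing R] : Type 1 := (FG R →₀ ℂ) ⧸ Submodule.span ℂ (rel R)

noncomputable instance (R : Type) [CommRing R] : AddCommGroup (K R) :=
  inferInstanceAs (AddCommGroup ((FG R →₀ ℂ) ⧸ Submodule.span ℂ (rel R)))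

noncomputable instance (R : Type) [CommRing R] : Module ℂ (K R) :=
  inferInstanceAs (Module ℂ ((FG R →₀ ℂ) ⧸ Submodule.span ℂ (rel R)))

/-- the quotient map. -/
noncomputable def K.mk (R : Type) [CommRing R] : (FG R →₀ ℂ) →ₗ[ℂ] K R :=
  (Submodule.span ℂ (rel R)).mkQ

/-- the class of a finite module. -/
noncomputable def cl (R : Type) [CommRing R] (M : Type) [AddCommGroup M] [Module R M]
    [Module.Finite R M] : K R := K.mk R (Finsupp.single ⟨M⟩ 1)

/-- the class of a cyclic module. -/
noncomputable def q {R : Type} [CommRing R] (I : Ideal R) : K R := cl R (R ⧸ I)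

section basic

variable {R : Type} [CommRing R]

theorem cl_exact {A B C : Type} [AddCommGroup A] [Module R A] [Module.Finite R A]
    [AddCommGroup B] [Module R B] [Module.Finite R B] [AddCommGroup C] [Module R C]
    [Module.Finite R C] (f : A →ₗ[R] B) (g : B →ₗ[R] C) (hf : Injective f) (hfg : Exact f g)
    (hg : Surjective g) : cl R B = cl R A + cl R C := by
  have h : K.mk R (Finsupp.single (⟨B⟩ : FG R) 1 - Finsupp.single ⟨A⟩ 1 -
      Finsupp.single ⟨C⟩ 1) = 0 :=
    (Submodule.Quotient.mk_eq_zero _).2
      (Submodule.subset_span ⟨⟨A⟩, ⟨B⟩, ⟨C⟩, f, g, hf, hfg, hg, rfl⟩)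
  rw [map_sub, map_sub, sub_sub, sub_eq_zero] at h
  exact h

theorem cl_zero (A : Type) [AddCommGroup A] [Module R A] [Module.Finite R A] [Subsingleton A] :
    cl R A = 0 := by
  have h := cl_exact (R := R) (0 : A →ₗ[R] A) (0 : A →ₗ[R] A)
    (fun _ _ _ => Subsingleton.elim _ _)
    (fun x => ⟨fun _ => ⟨0, Subsingleton.elim _ _⟩, fun _ => rfl⟩)
    (fun x => ⟨0, Subsingleton.elim _ _⟩)
  simpa using h

theorem cl_equiv {A B : Type} [AddCommGroup A] [Module R A] [Module.Finite R A]
    [AddCommGroup B] [Module R B] [Module.Finite R B] (e : A ≃ₗ[R] B) : cl R A = cl R B := by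
  have h := cl_exact (R := R) e.toLinearMap (0 : B →ₗ[R] PUnit) e.injective
    (fun x => ⟨fun _ => e.surjective x, fun _ => rfl⟩) (fun x => ⟨0, Subsingleton.elim _ _⟩)
  rw [h, cl_zero PUnit, add_zero]

theorem cl_quot [IsNoetherianRing R] {A : Type} [AddCommGroup A] [Module R A] [Module.Finite R A]
    (N : Submodule R A) : cl R A = cl R N + cl R (A ⧸ N) :=
  cl_exact N.subtype N.mkQ N.injective_subtype (LinearMap.exact_subtype_mkQ N) N.mkQ_surjective

theorem q_top : q (⊤ : Ideal R) = 0 := by
  have : Subsingleton (R ⧸ (⊤ : Ideal R)) := Ideal.Quotient.subsingleton_iff.2 rfl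
  exact cl_zero _

/-- an additive invariant of finite modules gives a linear map on `K`. -/
noncomputable def lift {V : Type*} [AddCommGroup V] [Module ℂ V] (φ : FG R → V)
    (h : ∀ (A B C : FG R) (f : A.M →ₗ[R] B.M) (g : B.M →ₗ[R] C.M), Injective f → Exact f g →
      Surjective g → φ B = φ A + φ C) : K R →ₗ[ℂ] V :=
  (Submodule.span ℂ (rel R)).liftQ (Finsupp.linearCombination ℂ φ) (by
    rw [Submodule.span_le]
    rintro _ ⟨A, B, C, f, g, hf, hfg, hg, rfl⟩
    simp [h A B C f g hf hfg hg])

theorem lift_cl {V : Type*} [AddCommGroup V] [Module ℂ V] (φ : FG R → V) (h)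
    (M : Type) [AddCommGroup M] [Module R M] [Module.Finite R M] :
    lift φ h (cl R M) = φ ⟨M⟩ := by
  change Finsupp.linearCombination ℂ φ (Finsupp.single ⟨M⟩ 1) = _
  simp

theorem span_cl : Submodule.span ℂ (Set.range fun M : FG R => cl R M.M) = ⊤ := by
  rw [eq_top_iff]
  rintro x -
  obtain ⟨y, rfl⟩ : ∃ y, K.mk R y = x := (Submodule.span ℂ (rel R)).mkQ_surjective x
  induction y using Finsupp.induction_linear with
  | zero => simp
  | add a b ha hb => rw [map_add]; exact add_mem ha hb
  | single M c =>
    rw [← mul_one c, ← smul_eq_mul, ← Finsupp.smul_single, map_smul]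
    exact Submodule.smul_mem _ _ (Submodule.subset_span ⟨M, rfl⟩)

theorem ext_cl {V : Type*} [AddCommGroup V] [Module ℂ V] {f g : K R →ₗ[ℂ] V}
    (h : ∀ M : FG R, f (cl R M.M) = g (cl R M.M)) : f = g :=
  LinearMap.ext_on_range span_cl h

theorem cl_mem_span_prime [IsNoetherianRing R] (M : Type) [AddCommGroup M] [Module R M]
    [Module.Finite R M] : cl R M ∈ Submodule.span ℂ {x | ∃ P : Ideal R, P.IsPrime ∧ x = q P} := by
  induction ‹Module.Finite R M› using
    IsNoetherianRing.induction_on_isQuotientEquivQuotientPrime R with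
  | subsingleton N => rw [cl_zero]; exact zero_mem _
  | quotient N p f => rw [cl_equiv f]; exact Submodule.subset_span ⟨p.1, p.2, rfl⟩
  | exact N₁ N₂ N₃ f g hf hg hfg h₁ h₃ => rw [cl_exact f g hf hfg hg]; exact add_mem h₁ h₃

theorem span_prime [IsNoetherianRing R] :
    Submodule.span ℂ {x : K R | ∃ P : Ideal R, P.IsPrime ∧ x = q P} = ⊤ := by
  rw [eq_top_iff, ← span_cl, Submodule.span_le]
  rintro _ ⟨M, rfl⟩
  exact cl_mem_span_prime M.M

theorem ext_q [IsNoetherianRing R] {V : Type*} [AddCommGroup V] [Module ℂ V] {f g : K R →ₗ[ℂ] V}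
    (h : ∀ P : Ideal R, P.IsPrime → f (q P) = g (q P)) : f = g :=
  LinearMap.ext_on span_prime (by rintro _ ⟨P, hP, rfl⟩; exact h P hP)

end basic

section maps

variable {R R' R'' : Type} [CommRing R] [CommRing R'] [CommRing R'']

/-- restriction of scalars along a finite map. -/
def FG.res (f : R →+* R') (hf : f.Finite) (M : FG R') : FG R :=
  letI := Module.compHom M.M f
  letI := f.toAlgebra
  haveI : IsScalarTower R R' M.M := IsScalarTower.of_algebraMap_smul fun _ _ => rfl
  haveI : Module.Finite R R' := hf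
  haveI : Module.Finite R M.M := Module.Finite.trans R' M.M
  ⟨M.M⟩

/-- restriction of scalars for linear maps. -/
def FG.resMap (f : R →+* R') (hf : f.Finite) {A B : FG R'} (g : A.M →ₗ[R'] B.M) :
    (A.res f hf).M →ₗ[R] (B.res f hf).M where
  toFun := g
  map_add' := g.map_add
  map_smul' r x := g.map_smul (f r) x

/-- push forward along a finite map. -/
noncomputable def push (f : R →+* R') (hf : f.Finite) : K R' →ₗ[ℂ] K R :=
  lift (fun M => cl R (M.res f hf).M) fun _ _ _ a b ha hab hb =>
    cl_exact (FG.resMap f hf a) (FG.resMap f hf b) ha hab hb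

theorem push_cl (f : R →+* R') (hf : f.Finite) (M : Type) [AddCommGroup M] [Module R' M]
    [Module.Finite R' M] [Module R M] [Module.Finite R M] (h : ∀ (r : R) (x : M), r • x = f r • x) :
    push f hf (cl R' M) = cl R M := by
  rw [push, lift_cl]
  refine (cl_equiv (A := M) (B := ((⟨M⟩ : FG R').res f hf).M) ?_).symm
  exact { toFun := fun x => x, invFun := fun x => x, map_add' := fun _ _ => rfl
          map_smul' := h, left_inv := fun _ => rfl, right_inv := fun _ => rfl }

/-- extension of scalars. -/
noncomputable def FG.ext (f : R →+* R') (M : FG R) : FG R' :=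
  letI := f.toAlgebra
  ⟨R' ⊗[R] M.M⟩

/-- pull back along a flat map. -/
noncomputable def pull (f : R →+* R') (hf : f.Flat) : K R →ₗ[ℂ] K R' :=
  lift (fun M => cl R' (M.ext f).M) fun A B C a b ha hab hb => by
    letI := f.toAlgebra
    haveI : Module.Flat R R' := hf
    exact cl_exact (a.baseChange R') (b.baseChange R')
      (Module.Flat.lTensor_preserves_injective_linearMap a ha)
      (lTensor_exact R' hab hb) (LinearMap.lTensor_surjective R' hb)

theorem pull_cl [Algebra R R'] (f : R →+* R') (hf : f.Flat) (h : f = algebraMap R R') (M : Type)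
    [AddCommGroup M] [Module R M] [Module.Finite R M] :
    pull f hf (cl R M) = cl R' (R' ⊗[R] M) := by
  have e : ‹Algebra R R'› = f.toAlgebra := Algebra.algebra_ext _ _ fun r => by rw [← h]; rfl
  subst e
  rw [pull, lift_cl]
  rfl

theorem pull_q (f : R →+* R') (hf : f.Flat) (I : Ideal R) : pull f hf (q I) = q (I.map f) := by
  letI := f.toAlgebra
  rw [q, pull_cl f hf rfl]
  exact cl_equiv (Algebra.TensorProduct.quotIdealMapEquivTensorQuot R' I).symm.toLinearEquiv

theorem push_q (f : R →+* R') (hf : f.Finite) (hs : Surjective f) (I : Ideal R') :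
    push f hf (q I) = q (I.comap f) := by
  letI := f.toAlgebra
  haveI : Module.Finite R R' := hf
  haveI : Module.Finite R (R' ⧸ I) := Module.Finite.trans R' _
  rw [q, push_cl f hf (R' ⧸ I) (fun r x => (algebraMap_smul R' r x).symm)]
  refine (cl_equiv (LinearEquiv.ofBijective (Ideal.quotientMapₐ I (Algebra.ofId R R') le_rfl :
    (R ⧸ I.comap f) →ₐ[R] R' ⧸ I).toLinearMap ⟨?_, ?_⟩)).symm
  · exact Ideal.quotientMap_injective
  · exact Ideal.quotientMap_surjective (H := le_rfl) hs

theorem push_congr {f g : R →+* R'} (hf : f.Finite) (hg : g.Finite) (h : f = g) :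
    push f hf = push g hg := by subst h; rfl

theorem pull_congr {f g : R →+* R'} (hf : f.Flat) (hg : g.Flat) (h : f = g) :
    pull f hf = pull g hg := by subst h; rfl

theorem push_id (h : (RingHom.id R).Finite) (x : K R) : push (RingHom.id R) h x = x := by
  have : push (RingHom.id R) h = LinearMap.id :=
    ext_cl fun M => push_cl _ _ _ fun _ _ => rfl
  rw [this]; rfl

theorem push_push (f : R →+* R') (hf : f.Finite) (g : R' →+* R'') (hg : g.Finite) (x : K R'') :
    push f hf (push g hg x) = push (g.comp f) (hg.comp hf) x := by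
  have : push f hf ∘ₗ push g hg = push (g.comp f) (hg.comp hf) := ext_cl fun M => by
    rw [LinearMap.comp_apply, push, push, push, lift_cl, lift_cl, lift_cl]
    rfl
  exact LinearMap.congr_fun this x

theorem pull_id (h : (RingHom.id R).Flat) (x : K R) : pull (RingHom.id R) h x = x := by
  have : pull (RingHom.id R) h = LinearMap.id := ext_cl fun M => by
    rw [pull_cl (RingHom.id R) h rfl]
    exact cl_equiv (TensorProduct.lid R M.M)
  rw [this]; rfl

theorem pull_pull (f : R →+* R') (hf : f.Flat) (g : R' →+* R'') (hg : g.Flat) (x : K R) :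
    pull g hg (pull f hf x) = pull (g.comp f) (hf.comp hg) x := by
  letI := f.toAlgebra
  letI := g.toAlgebra
  letI := (g.comp f).toAlgebra
  haveI : IsScalarTower R R' R'' := IsScalarTower.of_algebraMap_eq' rfl
  have : pull g hg ∘ₗ pull f hf = pull (g.comp f) (hf.comp hg) := ext_cl fun M => by
    rw [LinearMap.comp_apply, pull_cl f hf rfl, pull_cl g hg rfl,
      pull_cl (g.comp f) (hf.comp hg) rfl]
    exact cl_equiv (TensorProduct.AlgebraTensorModule.cancelBaseChange R R' R'' R'' M.M)
  exact LinearMap.congr_fun this x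

theorem push_eq_pull [IsNoetherianRing R'] (f : R →+* R') (g : R' →+* R) (hf : f.Finite)
    (hg : g.Flat) (h1 : ∀ x, f (g x) = x) (h2 : ∀ x, g (f x) = x) : push f hf = pull g hg := by
  refine ext_q fun P _ => ?_
  rw [push_q f hf (fun x => ⟨g x, h1 x⟩), pull_q]
  congr 1
  apply le_antisymm
  · intro x hx
    rw [← h2 x]
    exact Ideal.mem_map_of_mem g hx
  · rw [Ideal.map_le_iff_le_comap]
    intro x hx
    simpa [Ideal.mem_comap, h1] using hx

/-- base change: `R → R'` finite, `R → A` flat, `A'` the pushout. -/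
theorem pull_push {A A' : Type} [CommRing A] [CommRing A'] [Algebra R R'] [Algebra R A]
    [Algebra R A'] [Algebra R' A'] [Algebra A A'] [IsScalarTower R R' A'] [IsScalarTower R A A']
    [Algebra.IsPushout R A R' A'] (f : R →+* R') (hf : f.Finite) (g : R →+* A) (hg : g.Flat)
    (f' : A →+* A') (hf' : f'.Finite) (g' : R' →+* A') (hg' : g'.Flat)
    (e1 : f = algebraMap R R') (e2 : g = algebraMap R A) (e3 : f' = algebraMap A A')
    (e4 : g' = algebraMap R' A') (x : K R') :
    pull g hg (push f hf x) = push f' hf' (pull g' hg' x) := by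
  have : pull g hg ∘ₗ push f hf = push f' hf' ∘ₗ pull g' hg' := ext_cl fun M => by
    letI : Module R M.M := Module.compHom M.M (algebraMap R R')
    haveI : IsScalarTower R R' M.M := IsScalarTower.of_algebraMap_smul fun _ _ => rfl
    haveI : Module.Finite R R' := by
      have := hf
      rwa [e1, RingHom.finite_algebraMap] at this
    haveI : Module.Finite A A' := by
      have := hf'
      rwa [e3, RingHom.finite_algebraMap] at this
    haveI : Module.Finite R M.M := Module.Finite.trans R' _
    haveI : Module.Finite A (A' ⊗[R'] M.M) := Module.Finite.trans A' _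
    rw [LinearMap.comp_apply, LinearMap.comp_apply, push_cl f hf M.M (fun r x => by rw [e1]; rfl),
      pull_cl g hg e2, pull_cl g' hg' e4,
      push_cl f' hf' (A' ⊗[R'] M.M) (fun r x => by rw [e3, algebraMap_smul])]
    exact (cl_equiv (Algebra.IsPushout.cancelBaseChange R A R' A' M.M)).symm
  exact LinearMap.congr_fun this x

end maps

end Pool.Agent.Lib.MP_40dc3c_ag.T
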