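import Pool.Agent.Lib.MP_40dc3c_ag.T.E3
import Pool.Agent.Lib.MP_40dc3c_ag.T.CN
import Pool.Agent.Lib.MP_40dc3c_ag.T.D2
import Pool.Agent.Lib.MP_40dc3c_ag.Fe.GIff

/-! The rank of numerical equivalence on a power of the Fermat curve is the order of the pole. -/

namespace Pool.Agent.Lib.MP_40dc3c_ag.T

open Function Finset
open scoped LinearAlgebra.Projectivization

theorem closure_finOrder (p : ℕ) [Fact p.Prime] (x : (AlgebraicClosure (ZMod p))ˣ) :
    IsOfFinOrder x := by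
  have hi : IsIntegral (ZMod p) (x : AlgebraicClosure (ZMod p)) := Algebra.IsIntegral.isIntegral _
  have := IntermediateField.adjoin.finiteDimensional hi
  have : Finite (IntermediateField.adjoin (ZMod p) {(x : AlgebraicClosure (ZMod p))}) :=
    Module.finite_of_finite (ZMod p)
  have h0 : IntermediateField.AdjoinSimple.gen (ZMod p) (x : AlgebraicClosure (ZMod p)) ≠ 0 :=
    fun h => x.ne_zero (congrArg Subtype.val h)
  obtain ⟨n, hn, h⟩ := isOfFinOrder_iff_pow_eq_one.1 (isOfFinOrder_of_finite (Units.mk0 _ h0))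
  exact isOfFinOrder_iff_pow_eq_one.2 ⟨n, hn, Units.ext
    (congrArg Subtype.val (congrArg Units.val h))⟩

theorem sum_frac {n m : ℕ} (f : Fin n → Bool ⊕ HD.Tri m) :
    ∑ i, HD.frac m (f i) = ∑ i : {i // (f i).isRight}, univ.val.map fun s =>
      (((((f i.1).getRight i.2).1 s : ℕ) : ℤ) : ℚ) / m := by
  classical
  rw [← Finset.sum_filter_of_ne (p := fun i => (f i).isRight) (fun i _ h => by
    revert h
    obtain b | a := f i <;> simp [HD.frac]),
    Finset.sum_subtype (p := fun i => (f i).isRight) _ (fun i => by simp)]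
  refine Finset.sum_congr rfl fun i _ => ?_
  obtain ⟨i, hi⟩ := i
  obtain ⟨a, ha⟩ := Sum.isRight_iff.1 hi
  simp [HD.frac, ha]

theorem mid_pat {k : Type} [Field k] [IsAlgClosed k] (ω : kˣ →* ℂˣ) (p : ℕ) [Fact p.Prime]
    [CharP k p] (hω : Injective ω) (halg : ∀ x : kˣ, IsOfFinOrder x) {m : ℕ} [NeZero m] {f : ℕ}
    (hf : 0 < f) (hm : m ∣ p ^ f - 1) (hg : Good p m) {n : ℕ} (g : Fin n → Bool ⊕ HD.Tri m)
    (he : Even (Fintype.card {i // (g i).isRight})) (hT : Fe.Tate p (∑ i, HD.frac m (g i))) :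
    Mid ω {i // (g i).isRight} m (patc g) := by
  obtain ⟨a, h1, h2, h3, h4⟩ : ∃ a : {i // (g i).isRight} → Fin 3 → ℤ,
      (∀ i s, ¬(m : ℤ) ∣ a i s) ∧ (∀ i, (m : ℤ) ∣ ∑ s, a i s) ∧
      (∑ i, HD.frac m (g i) = ∑ i, univ.val.map fun s => (a i s : ℚ) / m) ∧
      patc g = fun v => a v.1 v.2.castSucc :=
    ⟨fun i s => (((g i.1).getRight i.2).1 s : ℕ), fun i s => tri_not_dvd _ s, fun i => by
      simp only [Fin.sum_univ_three]
      exact_mod_cast tri_dvd ((g i.1).getRight i.2), sum_frac g, rfl⟩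
  rw [h4]
  exact mid_of_tate ω p hω halg hf hm hg a h1 h2 he (h3 ▸ hT)

open Classical in
theorem main (p f m n : ℕ) [Fact p.Prime] (hf : 0 < f) (hm : m ∣ p ^ f - 1) (hg : Good p m) :
    ∃ μ : ℂ →₀ ℤ,
      (∀ (j : ℕ) (F : Type) [Field F] [Fintype F], Fintype.card F = (p ^ f) ^ j →
        (Nat.card {x : Fin n → ℙ F (Fin 3 → F) // ∀ i, ∑ s, (x i).rep s ^ m = 0} : ℂ) =
          μ.sum fun t c => c * t ^ j) ∧
      ∀ r : ℕ, ∃ (N : ℕ) (V W : Fin N → Ideal (Pl (AlgebraicClosure (ZMod p)) (Fin n)))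
        (M : Matrix (Fin N) (Fin N) ℚ),
        (μ.sum fun t c => if IsOfFinOrder (t / ((p : ℂ) ^ f) ^ r) then c else 0) = N ∧
        (∀ a, Subv m (V a) (n - r)) ∧ (∀ b, Subv m (W b) r) ∧
        (∀ a b, Inter m (V a) (W b) (M a b)) ∧ M.det ≠ 0 := by
  have hp : p.Prime := Fact.out
  obtain ⟨F, _, _, _, χ, ψ, hF, hχ, hψ⟩ := HD.exists_chi p f m hf hm
  have : NeZero m := ⟨hχ ▸ (orderOf_pos χ).ne'⟩
  have hpm : ¬p ∣ m := fun h => by
    have h1 : p ∣ p ^ f - (p ^ f - 1) := Nat.dvd_sub (dvd_pow_self p hf.ne') (h.trans hm)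
    rw [Nat.sub_sub_self (Nat.one_le_pow _ _ hp.pos)] at h1
    exact hp.one_lt.ne' (Nat.dvd_one.1 h1)
  have hk : (m : AlgebraicClosure (ZMod p)) ≠ 0 := by rwa [Ne, CharP.cast_eq_zero_iff _ p]
  obtain ⟨ω, hω⟩ := exists_omega (closure_finOrder p)
  refine ⟨HD.mu χ ψ m n, fun j E _ _ h => HD.power_count hχ hψ (by rw [h, hF]), fun r => ?_⟩
  obtain ⟨T, hT', hs⟩ : ∃ T : Finset (Fin n → Bool ⊕ HD.Tri m),
      (∀ g ∈ T, IsOfFinOrder ((∏ i, HD.ev χ ψ (g i)) / (Fintype.card F : ℂ) ^ r)) ∧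
      ((HD.mu χ ψ m n).sum fun t c =>
        if IsOfFinOrder (t / (Fintype.card F : ℂ) ^ r) then c else 0) = T.card :=
    ⟨_, fun g h => (mem_filter.1 h).2, HD.mu_sum hχ hψ⟩
  have hw := fun g h => HD.weight' hχ hψ (hT' g h)
  have hM : ∀ g ∈ T, Mid ω {i // (g i).isRight} m (patc g) := fun g h =>
    mid_pat ω p hω (closure_finOrder p) hf hm hg g (by
      have := hw g h
      rw [Fintype.card_subtype]
      exact ⟨r - #{i | g i = .inl true}, by omega⟩) ((Fe.gtate_iff hp _).1 (HD.gtate' hχ hψ (hT' g h)))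
  obtain ⟨V, W, M, h1, h2⟩ := gram hω hk T r (fun g h => by convert hw g h) hM
  rw [Fintype.card_fin] at h1
  rw [hF, Nat.cast_pow] at hs
  exact ⟨_, V, W, M, hs, h1, h2⟩

end Pool.Agent.Lib.MP_40dc3c_ag.T
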