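import Pool.Agent.Lib.MP_40dc3c_ag.T.Main

/-! The main theorem from the product formula for Tate tuples of level `m`. -/

namespace Pool.Agent.Lib.MP_40dc3c_ag.T

open Function Finset
open scoped LinearAlgebra.Projectivization

section
variable {k : Type} [Field k] [IsAlgClosed k] (ω : kˣ →* ℂˣ) (p : ℕ) [Fact p.Prime] [CharP k p]

/-- the product formula: even Tate tuples of level `m` have trivial product of Gauss classes. -/
def PF (m : ℕ) [NeZero m] : Prop :=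
  ∀ (ι : Type) [Fintype ι] (c : ι → ℤ), Even (Fintype.card ι) →
    Fe.Tate p (Finset.univ.val.map fun i => (c i : ℚ) / m) → ∏ i, (U ω p m (c i)).cls = 1

theorem not_dvd_level {m f : ℕ} (hf : 0 < f) (hm : m ∣ p ^ f - 1) : ¬p ∣ m := fun h => by
  have hp : p.Prime := Fact.out
  have h1 : p ∣ p ^ f - (p ^ f - 1) := Nat.dvd_sub (dvd_pow_self p hf.ne') (h.trans hm)
  rw [Nat.sub_sub_self (Nat.one_le_pow _ _ hp.pos)] at h1
  exact hp.one_lt.ne' (Nat.dvd_one.1 h1)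

theorem mid_of_pf (hω : Injective ω) (halg : ∀ x : kˣ, IsOfFinOrder x) {ι : Type} [Fintype ι]
    {m : ℕ} [NeZero m] {f : ℕ} (hf : 0 < f) (hm : m ∣ p ^ f - 1) (hg : PF ω p m)
    (a : ι → Fin 3 → ℤ) (ha : ∀ i s, ¬(m : ℤ) ∣ a i s) (hs : ∀ i, (m : ℤ) ∣ ∑ s, a i s)
    (he : Even (Fintype.card ι))
    (hT : Fe.Tate p (∑ i, Finset.univ.val.map fun s => (a i s : ℚ) / m)) :
    Mid ω ι m fun v => a v.1 v.2.castSucc := by
  have hpm : ¬p ∣ m := not_dvd_level p hf hm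
  have hk : (m : k) ≠ 0 := by rwa [Ne, CharP.cast_eq_zero_iff k p]
  have h3 : ∀ i, (m : ℤ) ∣ a i 0 + a i 1 + a i 2 := fun i => by
    simpa [Fin.sum_univ_three] using hs i
  have key : ∀ b : ι → Fin 3 → ℤ, (∀ i s, ¬(m : ℤ) ∣ b i s) →
      (∀ i, (m : ℤ) ∣ b i 0 + b i 1 + b i 2) →
      ∏ v : ι × Fin 3, (U ω p m (b v.1 v.2)).cls = 1 →
      Ge (Obj.one k) (ferN ω ι m fun v => b v.1 v.2.castSucc) := fun b hb h3 h =>
    one_ge_ferN ω p hω ι m hpm _ (fun i => b i 2) (fun i => hb i 2) (fun i => by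
      rw [cls_U_congr ω p m (c' := -b i 2) (by simpa using h3 i), mul_comm]
      exact cls_U_mul_neg ω p hω m hpm (hb i 2)) (by
      rw [← h, Fintype.prod_prod_type, Fintype.prod_prod_type, ← Finset.prod_mul_distrib]
      exact Finset.prod_congr rfl fun i _ => by simp [Fin.prod_univ_three, Fin.prod_univ_two]) h3
  have e1 : ∏ v : ι × Fin 3, (U ω p m (a v.1 v.2)).cls = 1 :=
    hg _ (fun v : ι × Fin 3 => a v.1 v.2) (by simp [he.mul_right]) (by
      have : ∀ {α : Type} [Fintype α] (g : α → ℚ), Finset.univ.val.map g = ∑ x, {g x} :=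
        fun g => by rw [Finset.sum, ← Multiset.sum_map_singleton (Multiset.map g _), Multiset.map_map]; rfl
      simp only [this] at hT
      rw [this, Fintype.sum_prod_type]
      exact hT)
  have e2 : ∏ v : ι × Fin 3, (U ω p m (-a v.1 v.2)).cls = 1 := by
    rw [← one_mul (∏ v : ι × Fin 3, _), ← e1, ← Finset.prod_mul_distrib, e1]
    exact Finset.prod_eq_one fun v _ => cls_U_mul_neg ω p hω m hpm (ha v.1 v.2)
  refine mid_of_ge ω p hω halg hf hm hk (fun i => ⟨ha i 0, ha i 1, fun h => ha i 2 ?_⟩)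
    (key a ha h3 e1) (key (-a) (fun i s => by simpa using ha i s) (fun i => ?_) e2)
  · exact (dvd_add_right h).1 (h3 i)
  · have := (h3 i).neg_right
    simpa [add_comm, add_left_comm, add_assoc] using this

theorem mid_pat_pf (hω : Injective ω) (halg : ∀ x : kˣ, IsOfFinOrder x) {m : ℕ} [NeZero m] {f : ℕ}
    (hf : 0 < f) (hm : m ∣ p ^ f - 1) (hg : PF ω p m) {n : ℕ} (g : Fin n → Bool ⊕ HD.Tri m)
    (he : Even (Fintype.card {i // (g i).isRight})) (hT : Fe.Tate p (∑ i, HD.frac m (g i))) :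
    Mid ω {i // (g i).isRight} m (patc g) := by
  obtain ⟨a, h1, h2, h3, h4⟩ : ∃ a : {i // (g i).isRight} → Fin 3 → ℤ,
      (∀ i s, ¬(m : ℤ) ∣ a i s) ∧ (∀ i, (m : ℤ) ∣ ∑ s, a i s) ∧
      (∑ i, HD.frac m (g i) = ∑ i, univ.val.map fun s => (a i s : ℚ) / m) ∧
      patc g = fun v => a v.1 v.2.castSucc :=
    ⟨fun i s => (((g i.1).getRight i.2).1 s : ℕ), fun i s => tri_not_dvd _ s, fun i => by
      simp only [Fin.sum_univ_three]
      exact_mod_cast tri_dvd ((g i.1).getRight i.2), sum_frac g, rfl⟩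
  rw [h4]
  exact mid_of_pf ω p hω halg hf hm hg a h1 h2 he (h3 ▸ hT)

end

open Classical in
theorem main_pf (p f m n : ℕ) [Fact p.Prime] (hf : 0 < f) (hm : m ∣ p ^ f - 1)
    (hg : ∀ [NeZero m] (ω : (AlgebraicClosure (ZMod p))ˣ →* ℂˣ), Injective ω → ¬p ∣ m →
      PF ω p m) :
    ∃ μ : ℂ →₀ ℤ,
      (∀ (j : ℕ) (F : Type) [Field F] [Fintype F], Fintype.card F = (p ^ f) ^ j →
        (Nat.card {x : Fin n → ℙ F (Fin 3 → F) // ∀ i, ∑ s, (x i).rep s ^ m = 0} : ℂ) =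
          μ.sum fun t c => c * t ^ j) ∧
      ∀ r : ℕ, ∃ (N : ℕ) (V W : Fin N → Ideal (Pl (AlgebraicClosure (ZMod p)) (Fin n)))
        (M : Matrix (Fin N) (Fin N) ℚ),
        (μ.sum fun t c => if IsOfFinOrder (t / ((p : ℂ) ^ f) ^ r) then c else 0) = N ∧
        (∀ a, Subv m (V a) (n - r)) ∧ (∀ b, Subv m (W b) r) ∧
        (∀ a b, Inter m (V a) (W b) (M a b)) ∧ M.det ≠ 0 := by
  have hp : p.Prime := Fact.out
  obtain ⟨F, _, _, _, χ, ψ, hF, hχ, hψ⟩ := HD.exists_chi p f m hf hm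
  have : NeZero m := ⟨hχ ▸ (orderOf_pos χ).ne'⟩
  have hpm : ¬p ∣ m := not_dvd_level p hf hm
  have hk : (m : AlgebraicClosure (ZMod p)) ≠ 0 := by rwa [Ne, CharP.cast_eq_zero_iff _ p]
  obtain ⟨ω, hω⟩ := exists_omega (closure_finOrder p)
  refine ⟨HD.mu χ ψ m n, fun j E _ _ h => HD.power_count hχ hψ (by rw [h, hF]), fun r => ?_⟩
  obtain ⟨T, hT', hs⟩ : ∃ T : Finset (Fin n → Bool ⊕ HD.Tri m),
      (∀ g ∈ T, IsOfFinOrder ((∏ i, HD.ev χ ψ (g i)) / (Fintype.card F : ℂ) ^ r)) ∧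
      ((HD.mu χ ψ m n).sum fun t c =>
        if IsOfFinOrder (t / (Fintype.card F : ℂ) ^ r) then c else 0) = T.card :=
    ⟨_, fun g h => (mem_filter.1 h).2, HD.mu_sum hχ hψ⟩
  have hw := fun g h => HD.weight' hχ hψ (hT' g h)
  have hM : ∀ g ∈ T, Mid ω {i // (g i).isRight} m (patc g) := fun g h =>
    mid_pat_pf ω p hω (closure_finOrder p) hf hm (hg ω hω hpm) g (by
      have := hw g h
      rw [Fintype.card_subtype]
      exact ⟨r - #{i | g i = .inl true}, by omega⟩) ((Fe.gtate_iff hp _).1 (HD.gtate' hχ hψ (hT' g h)))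
  obtain ⟨V, W, M, h1, h2⟩ := gram hω hk T r (fun g h => by convert hw g h) hM
  rw [Fintype.card_fin] at h1
  rw [hF, Nat.cast_pow] at hs
  exact ⟨_, V, W, M, hs, h1, h2⟩

end Pool.Agent.Lib.MP_40dc3c_ag.T
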