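import Pool.Agent.Lib.MP_40dc3c_ag.T.ODefs

/-! Basic calculus of natural families, actions and projectors. -/

namespace Pool.Agent.Lib.MP_40dc3c_ag.T

open scoped TensorProduct
open Function

set_option linter.style.haveILetI false

variable {k : Type} [Field k]

section square

open CategoryTheory

theorem o1_ext {A S : Alg k} {T : Type} [CommRing T] {f g : A.R ⊗[k] S.R →+* T}
    (h : ∀ a s, f (a ⊗ₜ s) = g (a ⊗ₜ s)) : f = g := by
  refine RingHom.ext fun x => ?_
  induction x using TensorProduct.induction_on with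
  | zero => rw [map_zero, map_zero]
  | tmul a s => exact h a s
  | add x y hx hy => rw [map_add, map_add, hx, hy]

theorem mapL_comp {A B C : Alg k} (φ : A.R →ₐ[k] B.R) (ψ : B.R →ₐ[k] C.R) (S : Alg k) :
    (mapL ψ S).comp (mapL φ S) = mapL (ψ.comp φ) S := o1_ext fun _ _ => rfl

theorem mapL_id (A S : Alg k) : mapL (AlgHom.id k A.R) S = RingHom.id _ := o1_ext fun _ _ => rfl

theorem mapL_mapR {A B : Alg k} (φ : A.R →ₐ[k] B.R) {S S' : Alg k} (g : S.R →ₐ[k] S'.R) :
    (mapL φ S').comp (mapR A g) = (mapR B g).comp (mapL φ S) := o1_ext fun _ _ => rfl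

/-- the square `A → B`, `A ⊗ S → B ⊗ S` is a pushout. -/
theorem o1_po {A B : Alg k} (φ : A.R →ₐ[k] B.R) (S : Alg k) :
    IsPushout (CommRingCat.ofHom φ.toRingHom)
      (CommRingCat.ofHom (Algebra.TensorProduct.includeLeftRingHom : A.R →+* A.R ⊗[k] S.R))
      (CommRingCat.ofHom (Algebra.TensorProduct.includeLeftRingHom : B.R →+* B.R ⊗[k] S.R))
      (CommRingCat.ofHom (mapL φ S)) := by
  refine IsPushout.of_left ?_ ?_ (CommRingCat.isPushout_tensorProduct k A.R S.R)
  · have h := CommRingCat.isPushout_tensorProduct k B.R S.R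
    convert h using 1
    · ext x
      exact φ.commutes x
    · ext x
      change φ 1 ⊗ₜ[k] x = 1 ⊗ₜ[k] x
      rw [map_one]
  · ext x
    rfl

/-- the square of tensor products is a pushout. -/
theorem o1_sq {A B : Alg k} (φ : A.R →ₐ[k] B.R) {S S' : Alg k} (g : S.R →ₐ[k] S'.R) :
    IsPushout (CommRingCat.ofHom (mapL φ S)) (CommRingCat.ofHom (mapR A g))
      (CommRingCat.ofHom (mapR B g)) (CommRingCat.ofHom (mapL φ S')) := by
  refine IsPushout.of_top ?_ ?_ (o1_po φ S)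
  · have h := o1_po φ S'
    convert h using 1
    · ext x
      change x ⊗ₜ[k] g 1 = x ⊗ₜ[k] 1
      rw [map_one]
    · ext x
      change x ⊗ₜ[k] g 1 = x ⊗ₜ[k] 1
      rw [map_one]
  · rw [← CommRingCat.ofHom_comp, ← CommRingCat.ofHom_comp, mapL_mapR]

/-- base change along a pushout square of rings. -/
theorem pull_push_of_isPushout {R R' A A' : Type} [CommRing R] [CommRing R'] [CommRing A]
    [CommRing A'] (f : R →+* R') (hf : f.Finite) (g : R →+* A) (hg : g.Flat)
    (f' : A →+* A') (hf' : f'.Finite) (g' : R' →+* A') (hg' : g'.Flat)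
    (h : IsPushout (CommRingCat.ofHom g) (CommRingCat.ofHom f) (CommRingCat.ofHom f')
      (CommRingCat.ofHom g')) (x : K R') :
    pull g hg (push f hf x) = push f' hf' (pull g' hg' x) := by
  have w : f'.comp g = g'.comp f := congrArg CommRingCat.Hom.hom h.w
  letI := f.toAlgebra
  letI := g.toAlgebra
  letI := f'.toAlgebra
  letI := g'.toAlgebra
  letI := (g'.comp f).toAlgebra
  haveI : IsScalarTower R R' A' := IsScalarTower.of_algebraMap_eq' rfl
  haveI : IsScalarTower R A A' := IsScalarTower.of_algebraMap_eq' w.symm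
  haveI : Algebra.IsPushout R A R' A' := CommRingCat.isPushout_iff_isPushout.1 h
  exact pull_push f hf g hg f' hf' g' hg' rfl rfl rfl rfl x

end square

theorem IsTr.id (A : Alg k) : IsTr A A fun _ => LinearMap.id :=
  ⟨fun _ _ _ _ _ => rfl, fun _ _ _ _ _ => rfl⟩

theorem IsTr.comp {A B C : Alg k} {θ η} (h : IsTr B C θ) (h' : IsTr A B η) :
    IsTr A C fun S => θ S ∘ₗ η S :=
  ⟨fun S S' g hg x => by
    rw [LinearMap.comp_apply, LinearMap.comp_apply, h'.push_nat, h.push_nat],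
   fun S S' g hg x => by
    rw [LinearMap.comp_apply, LinearMap.comp_apply, h'.pull_nat, h.pull_nat]⟩

theorem IsTr.smul {A B : Alg k} {θ} (c : ℂ) (h : IsTr A B θ) : IsTr A B fun S => c • θ S :=
  ⟨fun S S' g hg x => by
    rw [LinearMap.smul_apply, LinearMap.smul_apply, h.push_nat, map_smul],
   fun S S' g hg x => by
    rw [LinearMap.smul_apply, LinearMap.smul_apply, h.pull_nat, map_smul]⟩

theorem IsTr.sum {A B : Alg k} {ι : Type} (s : Finset ι) {θ : ι → ∀ S : Alg k, KK A S →ₗ[ℂ] KK B S}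
    (h : ∀ i ∈ s, IsTr A B (θ i)) : IsTr A B fun S => ∑ i ∈ s, θ i S :=
  ⟨fun S S' g hg x => by
    rw [LinearMap.sum_apply, LinearMap.sum_apply, map_sum]
    exact Finset.sum_congr rfl fun i hi => (h i hi).push_nat S S' g hg x,
   fun S S' g hg x => by
    rw [LinearMap.sum_apply, LinearMap.sum_apply, map_sum]
    exact Finset.sum_congr rfl fun i hi => (h i hi).pull_nat S S' g hg x⟩

theorem isTr_pushL {A B : Alg k} (φ : A.R →ₐ[k] B.R) (h : φ.toRingHom.Finite) :
    IsTr B A (pushL φ h) :=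
  ⟨fun S S' g hg x => by
    rw [pushL, pushL, pushR, pushR, push_push, push_push,
      push_congr _ ((mapL_finite h S').comp (mapR_finite A hg)) (mapL_mapR φ g).symm],
   fun S S' g hg x =>
    (pull_push_of_isPushout (mapL φ S) (mapL_finite h S) (mapR A g) (mapR_flat A hg) (mapL φ S')
      (mapL_finite h S') (mapR B g) (mapR_flat B hg) (o1_sq φ g).flip x).symm⟩

theorem isTr_pullL {A B : Alg k} (φ : A.R →ₐ[k] B.R) (h : φ.toRingHom.Flat) :
    IsTr A B (pullL φ h) :=
  ⟨fun S S' g hg x =>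
    pull_push_of_isPushout (mapR A g) (mapR_finite A hg) (mapL φ S) (mapL_flat h S) (mapR B g)
      (mapR_finite B hg) (mapL φ S') (mapL_flat h S') (o1_sq φ g) x,
   fun S S' g hg x => by
    rw [pullL, pullL, pullR, pullR, pull_pull, pull_pull,
      pull_congr _ ((mapL_flat h S).comp (mapR_flat B hg)) (mapL_mapR φ g)]⟩

theorem Obj.act_flat (X : Obj k) (g : X.G) : (X.act g).toRingHom.Flat :=
  RingHom.Flat.of_bijective (hom_bij X.act g)

theorem Obj.aut_one (X : Obj k) (S : Alg k) (x) : X.aut 1 S x = x := by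
  have e : mapL (X.act 1) S = RingHom.id _ := by rw [map_one]; exact mapL_id _ _
  rw [Obj.aut, pullL, pull_congr _ (RingHom.Flat.id _) e, pull_id]

theorem Obj.aut_mul (X : Obj k) (g h : X.G) (S : Alg k) (x) :
    X.aut (g * h) S x = X.aut g S (X.aut h S x) := by
  have e : mapL (X.act (g * h)) S = (mapL (X.act g) S).comp (mapL (X.act h) S) := by
    rw [map_mul, mapL_comp]; rfl
  rw [Obj.aut, Obj.aut, Obj.aut, pullL, pullL, pullL, pull_pull]
  exact LinearMap.congr_fun (pull_congr _ _ e) x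

theorem Obj.aut_q (X : Obj k) (g : X.G) (S : Alg k) (I : Ideal (X.A.R ⊗[k] S.R)) :
    X.aut g S (q I) = q (I.map (mapL (X.act g) S)) := pull_q _ (mapL_flat (X.act_flat g) S) I

theorem Obj.isTr_aut (X : Obj k) (g : X.G) : IsTr X.A X.A (X.aut g) :=
  isTr_pullL _ (X.act_flat g)

theorem Obj.isTr_proj (X : Obj k) : IsTr X.A X.A X.proj :=
  (IsTr.sum Finset.univ (θ := fun g S => X.χ g⁻¹ • X.aut g S)
    fun g _ => (X.isTr_aut g).smul _).smul _

theorem Obj.proj_apply (X : Obj k) (S : Alg k) (x) :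
    X.proj S x = (Fintype.card X.G : ℂ)⁻¹ • ∑ g, X.χ g⁻¹ • X.aut g S x := by
  rw [Obj.proj, LinearMap.smul_apply, LinearMap.sum_apply]
  rfl

theorem Obj.proj_mem (X : Obj k) (S : Alg k) (x) : X.proj S x ∈ X.Phi S := by
  intro h
  rw [X.proj_apply, map_smul, smul_comm (X.χ h), map_sum,
    Finset.smul_sum (r := X.χ h)]
  congr 1
  refine Fintype.sum_equiv (Equiv.mulLeft h) (fun g => X.aut h S (X.χ g⁻¹ • X.aut g S x))
    (fun g => X.χ h • X.χ g⁻¹ • X.aut g S x) fun g => ?_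
  rw [Equiv.coe_mulLeft, map_smul, ← X.aut_mul, smul_smul, mul_inv_rev,
    map_mul, mul_comm (X.χ g⁻¹), ← mul_assoc, ← map_mul, mul_inv_cancel, map_one, one_mul]

theorem Obj.proj_of_mem (X : Obj k) (S : Alg k) {x} (h : x ∈ X.Phi S) : X.proj S x = x := by
  have e : ∀ g, X.χ g⁻¹ • X.aut g S x = x := fun g => by
    rw [h g, smul_smul, ← map_mul, inv_mul_cancel, map_one, one_smul]
  rw [X.proj_apply, Finset.sum_congr rfl fun g _ => e g, Finset.sum_const, Finset.card_univ,
    ← Nat.cast_smul_eq_nsmul ℂ, smul_smul,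
    inv_mul_cancel₀ (Nat.cast_ne_zero.2 Fintype.card_ne_zero), one_smul]

theorem Obj.proj_aut (X : Obj k) (g : X.G) (S : Alg k) (x) :
    X.proj S (X.aut g S x) = X.χ g • X.proj S x := by
  rw [X.proj_apply, X.proj_apply, smul_comm (X.χ g), Finset.smul_sum (r := X.χ g)]
  congr 1
  refine Fintype.sum_equiv (Equiv.mulRight g) (fun h => X.χ h⁻¹ • X.aut h S (X.aut g S x))
    (fun h => X.χ g • X.χ h⁻¹ • X.aut h S x) fun h => ?_
  rw [Equiv.coe_mulRight, ← X.aut_mul, smul_smul, ← map_mul, mul_inv_rev, mul_inv_cancel_left]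

theorem Obj.chi_ne_zero (X : Obj k) (g : X.G) : X.χ g ≠ 0 :=
  ((Group.isUnit g).map X.χ).ne_zero

theorem Obj.proj_eq_zero (X : Obj k) (g : X.G) (hg : X.χ g ≠ 1) (S : Alg k) {x}
    (h : X.aut g S x = x) : X.proj S x = 0 := by
  have e := X.proj_aut g S x
  rw [h] at e
  have : (X.χ g - 1) • X.proj S x = 0 := by rw [sub_smul, one_smul, ← e, sub_self]
  exact (smul_eq_zero.1 this).resolve_left (sub_ne_zero.2 hg)

theorem Obj.act_finite (X : Obj k) (g : X.G) : (X.act g).toRingHom.Finite :=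
  RingHom.Finite.of_surjective _ (hom_bij X.act g).2

/-- the action is the push forward along the inverse. -/
theorem Obj.aut_eq_push (X : Obj k) (g : X.G) (S : Alg k) :
    X.aut g S = pushL (X.act g⁻¹) (X.act_finite g⁻¹) S := by
  have e : ∀ a b : X.G, a * b = 1 → ∀ x, mapL (X.act a) S (mapL (X.act b) S x) = x :=
    fun a b hab x => by
      have : (X.act a).comp (X.act b) = AlgHom.id k _ := by
        have := map_mul X.act a b
        rw [hab, map_one] at this
        exact this.symm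
      rw [← RingHom.comp_apply, mapL_comp, this, mapL_id, RingHom.id_apply]
  exact (push_eq_pull _ _ (mapL_finite (X.act_finite g⁻¹) S) (mapL_flat (X.act_flat g) S)
    (e _ _ (inv_mul_cancel g)) (e _ _ (mul_inv_cancel g))).symm

theorem Eqv.mapL_comm {X Y : Obj k} (E : Eqv X Y) (g : Y.G) (S : Alg k) :
    (mapL E.φ S).comp (mapL (X.act (E.π g)) S) = (mapL (Y.act g) S).comp (mapL E.φ S) := by
  rw [mapL_comp, mapL_comp]
  congr 1
  exact AlgHom.ext fun a => E.comm g a

theorem Eqv.pushL_aut {X Y : Obj k} (E : Eqv X Y) (h : E.φ.toRingHom.Finite) (g : Y.G) (S : Alg k)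
    (y) : pushL E.φ h S (Y.aut g S y) = X.aut (E.π g) S (pushL E.φ h S y) := by
  have e := E.mapL_comm g⁻¹ S
  rw [map_inv] at e
  rw [Y.aut_eq_push, X.aut_eq_push, pushL, pushL, pushL, push_push, push_push]
  exact LinearMap.congr_fun (push_congr _ _ e.symm) y

theorem Eqv.pullL_aut {X Y : Obj k} (E : Eqv X Y) (h : E.φ.toRingHom.Flat) (g : Y.G) (S : Alg k)
    (x) : pullL E.φ h S (X.aut (E.π g) S x) = Y.aut g S (pullL E.φ h S x) := by
  rw [Obj.aut, Obj.aut, pullL, pullL, pullL, pull_pull, pull_pull]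
  exact LinearMap.congr_fun (pull_congr _ _ (E.mapL_comm g S)) x

theorem Ge.refl (X : Obj k) : Ge X X := ⟨_, IsTr.id X.A, fun _ => Submodule.map_id _⟩

theorem Ge.trans {X Y Z : Obj k} (h : Ge X Y) (h' : Ge Y Z) : Ge X Z := by
  obtain ⟨θ, h1, h2⟩ := h
  obtain ⟨η, h3, h4⟩ := h'
  exact ⟨_, h3.comp h1, fun S => by rw [Submodule.map_comp, h2, h4]⟩

/-- it is enough that every element of the target is hit after projection. -/
theorem Ge.of_proj {X Y : Obj k} {θ} (h : IsTr X.A Y.A θ)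
    (hs : ∀ S, ∀ y ∈ Y.Phi S, ∃ x ∈ X.Phi S, Y.proj S (θ S x) = y) : Ge X Y := by
  refine ⟨_, Y.isTr_proj.comp h, fun S => le_antisymm ?_ fun y hy => hs S y hy⟩
  rintro _ ⟨x, -, rfl⟩
  exact Y.proj_mem S _

theorem Obj.pushR_mem (X : Obj k) {S S' : Alg k} (g : S.R →ₐ[k] S'.R) (h : g.toRingHom.Finite) {x}
    (hx : x ∈ X.Phi S') : pushR X.A g h x ∈ X.Phi S := fun a => by
  rw [(X.isTr_aut a).push_nat, hx a, map_smul]

theorem Obj.pullR_mem (X : Obj k) {S S' : Alg k} (g : S.R →ₐ[k] S'.R) (h : g.toRingHom.Flat) {x}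
    (hx : x ∈ X.Phi S) : pullR X.A g h x ∈ X.Phi S' := fun a => by
  rw [(X.isTr_aut a).pull_nat, hx a, map_smul]

/-- a natural bijection of eigenspaces can be inverted. -/
theorem Ge.symm_of_inj {X Y : Obj k} {θ} (h : IsTr X.A Y.A θ)
    (hs : ∀ S, (X.Phi S).map (θ S) = Y.Phi S) (hi : ∀ S, ∀ x ∈ X.Phi S, θ S x = 0 → x = 0) :
    Ge Y X := by
  have inj : ∀ S, ∀ x ∈ X.Phi S, ∀ x' ∈ X.Phi S, θ S x = θ S x' → x = x' := fun S x hx x' hx' e =>
    sub_eq_zero.1 (hi S _ (sub_mem hx hx') (by rw [map_sub, e, sub_self]))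
  have ex : ∀ S (y : KK Y.A S), ∃ x ∈ X.Phi S, θ S x = Y.proj S y := fun S y => by
    have := Y.proj_mem S y
    rw [← hs S] at this
    exact this
  choose σ hσ hθ using ex
  let η : ∀ S, KK Y.A S →ₗ[ℂ] KK X.A S := fun S =>
    { toFun := σ S
      map_add' := fun a b => inj S _ (hσ S _) _ (add_mem (hσ S a) (hσ S b))
        (by rw [map_add, hθ, hθ, hθ, map_add])
      map_smul' := fun c a => inj S _ (hσ S _) _ (Submodule.smul_mem _ c (hσ S a))
        (by rw [map_smul, hθ, hθ, map_smul]; rfl) }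
  have hη : ∀ S y, θ S (η S y) = Y.proj S y := hθ
  refine ⟨η, ⟨fun S S' g hg y => ?_, fun S S' g hg y => ?_⟩, fun S => le_antisymm ?_ ?_⟩
  · refine inj S _ (hσ S _) _ (X.pushR_mem g hg (hσ S' y)) ?_
    rw [hθ, h.push_nat, hη, Y.isTr_proj.push_nat]
  · refine inj S' _ (hσ S' _) _ (X.pullR_mem g hg (hσ S y)) ?_
    rw [hθ, h.pull_nat, hη, Y.isTr_proj.pull_nat]
  · rintro _ ⟨y, -, rfl⟩
    exact hσ S y
  · intro x hx
    have hy : θ S x ∈ Y.Phi S := by
      rw [← hs S]
      exact Submodule.mem_map_of_mem hx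
    exact ⟨θ S x, hy, inj S _ (hσ S _) _ hx (by rw [hθ, Y.proj_of_mem S hy])⟩

theorem Van.of_ge {X Y : Obj k} (h : Van X) (h' : Ge X Y) : Van Y := by
  obtain ⟨θ, -, h2⟩ := h'
  intro S
  rw [← h2 S, h S, Submodule.map_bot]

end Pool.Agent.Lib.MP_40dc3c_ag.T
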