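import Pool.Agent.Lib.MP_40dc3c_ag.T.O1
import Pool.Agent.Lib.MP_40dc3c_ag.T.A1
import Pool.Agent.Lib.MP_40dc3c_ag.T.A2

/-! Push, cover, open and closed parts. -/

namespace Pool.Agent.Lib.MP_40dc3c_ag.T

open scoped TensorProduct
open Function

set_option linter.style.haveILetI false

variable {k : Type} [Field k] {X Y Z : Obj k}

/-- a prime is the kernel of a geometric point. -/
theorem o2_pt {R : Type} [CommRing R] [Algebra k R] (P : Ideal R) [P.IsPrime] :
    ∃ (Ω : Type) (_ : Field Ω) (_ : IsAlgClosed Ω) (_ : Algebra k Ω) (w : R →ₐ[k] Ω),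
      RingHom.ker w.toRingHom = P := by
  refine ⟨AlgebraicClosure P.ResidueField, inferInstance, inferInstance, inferInstance,
    IsScalarTower.toAlgHom k R _, Ideal.ext fun x => ?_⟩
  change algebraMap R (AlgebraicClosure P.ResidueField) x = 0 ↔ _
  rw [IsScalarTower.algebraMap_apply R P.ResidueField, map_eq_zero,
    Ideal.algebraMap_residueField_eq_zero]

/-- a geometric point extends along a finite map with a prescribed kernel. -/
theorem o2_ext {R R' Ω : Type} [CommRing R] [CommRing R'] [Field Ω] [IsAlgClosed Ω]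
    (f : R →+* R') (hf : f.Finite) (w : R →+* Ω) (Q : Ideal R') [Q.IsPrime]
    (h : RingHom.ker w = Q.comap f) : ∃ v : R' →+* Ω, v.comp f = w ∧ RingHom.ker v = Q := by
  letI := f.toAlgebra
  haveI : Module.Finite R R' := hf
  haveI : Q.LiesOver (Q.comap f) := ⟨rfl⟩
  let w0 : R ⧸ Q.comap f →+* Ω := Ideal.Quotient.lift _ w fun a ha => (h.ge ha :)
  have hw : Injective w0 := RingHom.lift_injective_of_ker_le_ideal _ _ h.le
  letI := w0.toAlgebra
  haveI : FaithfulSMul (R ⧸ Q.comap f) Ω := (faithfulSMul_iff_algebraMap_injective _ _).2 hw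
  let v : (R' ⧸ Q) →ₐ[R ⧸ Q.comap f] Ω := IsAlgClosed.lift
  have e : RingHom.ker v.toRingHom = ⊥ := by
    refine Ideal.eq_bot_of_comap_eq_bot (R := R ⧸ Q.comap f) ?_
    rw [RingHom.comap_ker, ← RingHom.injective_iff_ker_eq_bot]
    exact fun a b hab => hw ((v.commutes a).symm.trans (hab.trans (v.commutes b)))
  refine ⟨v.toRingHom.comp (Ideal.Quotient.mk Q), RingHom.ext fun a => ?_, ?_⟩
  · exact v.commutes (Ideal.Quotient.mk _ a)
  · rw [← RingHom.comap_ker, e, ← RingHom.ker_eq_comap_bot, Ideal.mk_ker]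

theorem o2_inv (X : Obj k) (g : X.G) (S : Alg k) (z) :
    mapL (X.act g⁻¹) S (mapL (X.act g) S z) = z := by
  induction z using TensorProduct.induction_on with
  | zero => simp
  | add a b ha hb => rw [map_add, map_add, ha, hb]
  | tmul a s =>
    rw [mapL_tmul, mapL_tmul, ← AlgHom.mul_apply, ← map_mul, inv_mul_cancel, map_one,
      AlgHom.one_apply]

/-- the action on `A ⊗ S` as an equivalence. -/
noncomputable def o2_eqv (X : Obj k) (g : X.G) (S : Alg k) :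
    X.A.R ⊗[k] S.R ≃+* X.A.R ⊗[k] S.R :=
  { mapL (X.act g) S with
    invFun := mapL (X.act g⁻¹) S
    left_inv := o2_inv X g S
    right_inv := fun z => by simpa using o2_inv X g⁻¹ S z }

theorem o2_comap (X : Obj k) (g : X.G) (S : Alg k) (P : Ideal (X.A.R ⊗[k] S.R)) :
    P.comap (mapL (X.act g) S) = P.map (mapL (X.act g⁻¹) S) :=
  (Ideal.map_symm (o2_eqv X g S)).symm

theorem o2_avg {G V : Type*} [Fintype G] [Nonempty G] [AddCommGroup V] [Module ℂ V] (v : V) :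
    (Fintype.card G : ℂ)⁻¹ • ∑ _g : G, v = v := by
  rw [Finset.sum_const, Finset.card_univ, ← Nat.cast_smul_eq_nsmul ℂ, smul_smul,
    inv_mul_cancel₀ (Nat.cast_ne_zero.2 Fintype.card_ne_zero), one_smul]

theorem o2_proj {V : Type*} [AddCommGroup V] [Module ℂ V] (X : Obj k) (S : Alg k)
    (T : KK X.A S →ₗ[ℂ] V) (x) (h : ∀ g, T (X.aut g S x) = X.χ g • T x) :
    T (X.proj S x) = T x := by
  rw [Obj.proj, LinearMap.smul_apply, LinearMap.sum_apply, map_smul, map_sum]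
  refine Eq.trans ?_ (o2_avg (G := X.G) (T x))
  congr 1
  refine Finset.sum_congr rfl fun g _ => ?_
  rw [LinearMap.smul_apply, map_smul, h, smul_smul, ← map_mul, inv_mul_cancel, map_one, one_smul]

theorem o2_orb (E : Eqv X Y) (hf : E.φ.toRingHom.Finite) (f : X.A.R)
    (h : ∀ (Ω : Type) [Field Ω] [IsAlgClosed Ω] [Algebra k Ω] (u : X.A.R →ₐ[k] Ω), u f = 0 →
      ∃ (g : X.G) (v : Y.A.R →ₐ[k] Ω), v.comp E.φ = u.comp (X.act g)) (S : Alg k) {x : KK X.A S}
    (hx : x ∈ Submodule.span ℂ {y | ∃ P : Ideal (X.A.R ⊗[k] S.R), P.IsPrime ∧ f ⊗ₜ 1 ∈ P ∧ y = q P}) :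
    ∃ y ∈ Y.Phi S, X.proj S (pushL E.φ hf S y) = X.proj S x := by
  have key : x ∈ (LinearMap.range (X.proj S ∘ₗ pushL E.φ hf S)).comap (X.proj S) := by
    refine Submodule.span_le.2 ?_ hx
    rintro _ ⟨P, hP, hfP, rfl⟩
    refine push_orbit (mapL E.φ S) (mapL_finite hf S) (X.proj S) (f ⊗ₜ 1) (fun P hP hfP => ?_)
      P hP hfP
    obtain ⟨Ω, _, _, _, w, hw⟩ := o2_pt (k := k) P
    obtain ⟨g, v, hv⟩ := h Ω (w.comp Algebra.TensorProduct.includeLeft) (hw.ge hfP)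
    let w' : Y.A.R ⊗[k] S.R →ₐ[k] Ω := Algebra.TensorProduct.lift v
      (w.comp Algebra.TensorProduct.includeRight) fun _ _ => Commute.all _ _
    have e : w'.toRingHom.comp (mapL E.φ S) = w.toRingHom.comp (mapL (X.act g) S) := by
      refine RingHom.ext fun z => ?_
      induction z using TensorProduct.induction_on with
      | zero => simp
      | add a b ha hb => rw [map_add, map_add, ha, hb]
      | tmul a s =>
        change v (E.φ a) * w (1 ⊗ₜ s) = w (X.act g a ⊗ₜ s)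
        rw [show v (E.φ a) = w (X.act g a ⊗ₜ 1) from AlgHom.congr_fun hv a, ← map_mul,
          Algebra.TensorProduct.tmul_mul_tmul, mul_one, one_mul]
    refine ⟨o2_eqv X g⁻¹ S, RingHom.ker w'.toRingHom, RingHom.ker_isPrime _, ?_, fun P' _ =>
      ⟨X.χ g⁻¹, X.chi_ne_zero _, ?_⟩⟩
    · rw [RingHom.comap_ker, e, ← RingHom.comap_ker, hw, o2_comap]
      rfl
    · rw [← X.proj_aut, X.aut_q]
      rfl
  obtain ⟨y, hy⟩ := key
  refine ⟨Y.proj S y, Y.proj_mem S y, Eq.trans ?_ hy⟩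
  refine o2_proj Y S (X.proj S ∘ₗ pushL E.φ hf S) y fun g => ?_
  rw [LinearMap.comp_apply, LinearMap.comp_apply, E.pushL_aut, X.proj_aut, E.chi]

/-- push forward; every geometric point has a translate that lifts. -/
theorem Eqv.push (E : Eqv X Y) (hf : E.φ.toRingHom.Finite)
    (h : ∀ (Ω : Type) [Field Ω] [IsAlgClosed Ω] [Algebra k Ω] (u : X.A.R →ₐ[k] Ω),
      ∃ (g : X.G) (v : Y.A.R →ₐ[k] Ω), v.comp E.φ = u.comp (X.act g)) : Ge Y X := by
  refine Ge.of_proj (isTr_pushL E.φ hf) fun S x hx => ?_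
  rw [← X.proj_of_mem S hx]
  refine o2_orb E hf 0 (fun Ω _ _ _ u _ => h Ω u) S ?_
  refine Submodule.span_mono ?_ (span_prime.ge Submodule.mem_top)
  rintro _ ⟨P, hP, rfl⟩
  exact ⟨P, hP, by rw [TensorProduct.zero_tmul]; exact zero_mem _, rfl⟩

theorem Eqv.push' (E : Eqv X Y) (hf : E.φ.toRingHom.Finite) (h : GeoSurj E.φ) : Ge Y X :=
  E.push hf fun Ω _ _ _ u => by
    obtain ⟨v, hv⟩ := h Ω u
    exact ⟨1, v, by rw [hv, map_one]; rfl⟩

/-- an equivariant isomorphism of algebras. -/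
theorem Eqv.iso (E : Eqv X Y) (h : Bijective E.φ) : Ge Y X :=
  E.push' (RingHom.Finite.of_surjective _ h.2) fun _ _ _ _ u =>
    ⟨u.comp (AlgEquiv.ofBijective E.φ h).symm.toAlgHom, AlgHom.ext fun a =>
      congrArg u ((AlgEquiv.ofBijective E.φ h).symm_apply_apply a)⟩

theorem o2_mem (E : Eqv X Y) (hfl : E.φ.toRingHom.Flat) (S : Alg k) {x} (hx : x ∈ X.Phi S) :
    pullL E.φ hfl S x ∈ Y.Phi S := fun g => by
  rw [← E.pullL_aut, hx, map_smul, E.chi]

theorem o2_map (E : Eqv X Y) (hfl : E.φ.toRingHom.Flat) (hπ : Surjective E.π) (S : Alg k)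
    (h : ∀ y ∈ Y.Phi S, ∃ x, pullL E.φ hfl S x = y) :
    (X.Phi S).map (pullL E.φ hfl S) = Y.Phi S := by
  refine le_antisymm (by rintro _ ⟨x, hx, rfl⟩; exact o2_mem E hfl S hx) fun y hy => ?_
  obtain ⟨x, rfl⟩ := h y hy
  refine ⟨X.proj S x, X.proj_mem S x, o2_proj X S _ x fun g => ?_⟩
  obtain ⟨g, rfl⟩ := hπ g
  rw [E.pullL_aut, hy, E.chi]

theorem o2_conj (E : Eqv X Y) (hf : E.φ.toRingHom.Finite)
    (h : GeoTrans E.φ {γ | ∃ g, E.π g = 1 ∧ γ = Y.act g}) (S : Alg k)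
    (Q Q' : Ideal (Y.A.R ⊗[k] S.R)) [Q.IsPrime] [Q'.IsPrime]
    (e : Q.comap (mapL E.φ S) = Q'.comap (mapL E.φ S)) :
    ∃ g, E.π g = 1 ∧ Q' = Q.map (mapL (Y.act g) S) := by
  obtain ⟨Ω, _, _, _, w, hw⟩ := o2_pt (k := k) (Q.comap (mapL E.φ S))
  obtain ⟨v, h1, h2⟩ := o2_ext _ (mapL_finite hf S) w.toRingHom Q hw
  obtain ⟨v', h3, h4⟩ := o2_ext _ (mapL_finite hf S) w.toRingHom Q' (hw.trans e)
  have al : ∀ v : Y.A.R ⊗[k] S.R →+* Ω, v.comp (mapL E.φ S) = w.toRingHom →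
      ∃ u : Y.A.R →ₐ[k] Ω, (∀ b, u b = v (b ⊗ₜ 1)) ∧ (∀ a, u (E.φ a) = w (a ⊗ₜ 1)) ∧
        ∀ s, v (1 ⊗ₜ s) = w (1 ⊗ₜ s) := fun v hv => by
    have e1 : ∀ a s, v (E.φ a ⊗ₜ s) = w (a ⊗ₜ s) := fun a s => RingHom.congr_fun hv (a ⊗ₜ s)
    refine ⟨{ v.comp Algebra.TensorProduct.includeLeftRingHom with commutes' := fun c => ?_ },
      fun _ => rfl, fun a => e1 a 1, fun s => by rw [← e1, map_one]⟩
    change v (algebraMap k Y.A.R c ⊗ₜ 1) = _
    rw [← E.φ.commutes, e1]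
    exact w.commutes c
  obtain ⟨u, a1, a2, a3⟩ := al v h1
  obtain ⟨u', b1, b2, b3⟩ := al v' h3
  obtain ⟨_, ⟨g, hg, rfl⟩, hu⟩ := h Ω u u' (AlgHom.ext fun a => (a2 a).trans (b2 a).symm)
  refine ⟨g⁻¹, by rw [map_inv, hg, inv_one], ?_⟩
  rw [← o2_comap, ← h2, ← h4, RingHom.comap_ker]
  congr 1
  refine RingHom.ext fun z => ?_
  induction z using TensorProduct.induction_on with
  | zero => simp
  | add a b ha hb => rw [map_add, map_add, ha, hb]
  | tmul b s =>
    have e2 : ∀ b : Y.A.R, b ⊗ₜ[k] s = b ⊗ₜ[k] 1 * 1 ⊗ₜ[k] s := fun b => by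
      rw [Algebra.TensorProduct.tmul_mul_tmul, mul_one, one_mul]
    rw [RingHom.comp_apply, mapL_tmul, e2, e2 (Y.act g b), map_mul, map_mul, a3, b3, ← a1, ← b1, hu]
    rfl

/-- Galois cover. -/
theorem Eqv.cover (E : Eqv X Y) (hf : E.φ.toRingHom.Finite) (hfl : E.φ.toRingHom.Flat)
    (hπ : Surjective E.π) (h : GeoTrans E.φ {γ | ∃ g, E.π g = 1 ∧ γ = Y.act g}) : Ge X Y := by
  classical
  refine ⟨_, isTr_pullL E.φ hfl, fun S => o2_map E hfl hπ S fun y hy => ?_⟩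
  let Y0 : Obj k := ⟨Y.A, E.π.ker, Y.act.comp E.π.ker.subtype, 1⟩
  have e0 : ∀ g : E.π.ker, Y0.aut g S = Y.aut g.1 S := fun _ => rfl
  have hy0 : y ∈ Y0.Phi S := fun g => by
    rw [e0, hy, E.chi, g.2, map_one]
    rfl
  rw [← Y0.proj_of_mem S hy0]
  refine gp (mapL E.φ S) (mapL_finite hf S) (mapL_flat hfl S) (Y0.proj S)
    (fun x => Y0.proj_of_mem S fun g => ?_) (fun Q Q' _ _ e => ?_) y
  · have := E.pullL_aut hfl g.1 S x
    rw [g.2, X.aut_one] at this
    exact this.symm.trans (one_smul _ _).symm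
  · obtain ⟨g, hg, rfl⟩ := o2_conj E hf h S Q Q' e
    rw [← Y.aut_q, ← e0 ⟨g, hg⟩, Y0.proj_aut]
    exact (one_smul _ _).symm

/-- restriction to an open part. -/
theorem Eqv.res (E : Eqv X Y) {f : X.A.R} (h : IsAway E.φ.toRingHom f) (hπ : Bijective E.π) :
    Ge X Y :=
  ⟨_, isTr_pullL E.φ h.flat, fun S => o2_map E h.flat hπ.2 S fun y _ => (h.mapL S).pull_surj y⟩

/-- the injectivity behind `Eqv.clean`. -/
theorem Eqv.clean_inj (E : Eqv X Y) {f : X.A.R} (h : IsAway E.φ.toRingHom f)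
    (hc : ∀ P : Ideal X.A.R, P.IsPrime → f ∈ P → ∃ g, X.χ g ≠ 1 ∧ ∀ a, X.act g a - a ∈ P)
    (S : Alg k) (x) (hx : x ∈ X.Phi S) (h0 : pullL E.φ h.flat S x = 0) : x = 0 := by
  rw [← X.proj_of_mem S hx]
  refine (Submodule.span_le (p := LinearMap.ker (X.proj S))).2 ?_ ((h.mapL S).pull_ker x h0)
  rintro _ ⟨P, hP, hfP, rfl⟩
  obtain ⟨g, hg, ha⟩ := hc (P.comap Algebra.TensorProduct.includeLeftRingHom) inferInstance hfP
  have e : ∀ z, mapL (X.act g) S z - z ∈ P := fun z => by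
    induction z using TensorProduct.induction_on with
    | zero => simp
    | add a b ha hb => rw [map_add, add_sub_add_comm]; exact add_mem ha hb
    | tmul a s =>
      have := P.mul_mem_right (1 ⊗ₜ s) (ha a)
      rwa [Algebra.TensorProduct.includeLeftRingHom_apply, Algebra.TensorProduct.tmul_mul_tmul,
        mul_one, one_mul, TensorProduct.sub_tmul] at this
  refine X.proj_eq_zero g⁻¹ (fun h1 => hg ?_) S ?_
  · have := map_mul X.χ g g⁻¹
    rw [h1, mul_one, mul_inv_cancel, map_one] at this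
    exact this.symm
  · rw [X.aut_q, ← o2_comap]
    congr 1
    refine Ideal.ext fun z => ⟨fun hz => ?_, fun hz => ?_⟩
    · simpa using sub_mem (Ideal.mem_comap.1 hz) (e z)
    · simpa using add_mem (e z) hz

/-- clean extension: on the boundary an element with non trivial character acts trivially. -/
theorem Eqv.clean (E : Eqv X Y) {f : X.A.R} (h : IsAway E.φ.toRingHom f) (hπ : Bijective E.π)
    (hc : ∀ P : Ideal X.A.R, P.IsPrime → f ∈ P → ∃ g, X.χ g ≠ 1 ∧ ∀ a, X.act g a - a ∈ P) :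
    Ge Y X :=
  Ge.symm_of_inj (isTr_pullL E.φ h.flat)
    (fun S => o2_map E h.flat hπ.2 S fun y _ => (h.mapL S).pull_surj y) (E.clean_inj h hc)

/-- if the open part vanishes, the closed part generates. -/
theorem Eqv.closed (E : Eqv X Y) {f : X.A.R} (h : IsAway E.φ.toRingHom f) (hπ : Bijective E.π)
    (hY : Van Y) (E' : Eqv X Z) (hf : E'.φ.toRingHom.Finite)
    (h' : ∀ (Ω : Type) [Field Ω] [IsAlgClosed Ω] [Algebra k Ω] (u : X.A.R →ₐ[k] Ω), u f = 0 →
      ∃ (g : X.G) (v : Z.A.R →ₐ[k] Ω), v.comp E'.φ = u.comp (X.act g)) : Ge Z X := by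
  refine Ge.of_proj (isTr_pushL E'.φ hf) fun S x hx => ?_
  have h0 := o2_mem E h.flat S hx
  rw [hY S] at h0
  obtain ⟨y, hy, e⟩ := o2_orb E' hf f h' S ((h.mapL S).pull_ker x h0)
  exact ⟨y, hy, e.trans (X.proj_of_mem S hx)⟩

/-- the canonical map to `X.away f`. -/
noncomputable def Eqv.toAway (X : Obj k) (f : X.A.R) (hf : ∀ g, X.act g f ∣ f) :
    Eqv X (X.away f hf) where
  φ := IsScalarTower.toAlgHom k X.A.R (Localization.Away f)
  π := MonoidHom.id _
  comm g a := (awayAct_algebraMap X f hf g a).symm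
  chi _ := rfl

theorem o2_poly (A B : Alg k) (e : Polynomial A.R ≃ₐ[k] B.R) :
    ∃ h : (e.toAlgHom.comp Polynomial.CAlgHom).toRingHom.Flat,
      ∀ S, Surjective (pullL (e.toAlgHom.comp Polynomial.CAlgHom) h S) := by
  have fl : ∀ (R : Type) [CommRing R], (Polynomial.C : R →+* Polynomial R).Flat := fun R _ =>
    RingHom.flat_algebraMap_iff.2 (inferInstance : Module.Flat R (Polynomial R))
  refine ⟨(fl A.R).comp (RingHom.Flat.of_bijective (f := e.toRingEquiv.toRingHom) e.bijective),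
    fun S y => ?_⟩
  let ψ : Polynomial (A.R ⊗[k] S.R) ≃ₐ[k] B.R ⊗[k] S.R :=
    (polyEquivTensor k _).trans ((Algebra.TensorProduct.assoc k k k A.R S.R (Polynomial k)).trans
      ((Algebra.TensorProduct.congr AlgEquiv.refl (Algebra.TensorProduct.comm k _ _)).trans
      ((Algebra.TensorProduct.assoc k k k A.R (Polynomial k) S.R).symm.trans
      (Algebra.TensorProduct.congr ((polyEquivTensor k A.R).symm.trans e) AlgEquiv.refl))))
  have h1 : ψ.toRingEquiv.toRingHom.Flat := RingHom.Flat.of_bijective ψ.bijective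
  have h2 : ψ.symm.toRingEquiv.toRingHom.Flat := RingHom.Flat.of_bijective ψ.symm.bijective
  obtain ⟨x, hx⟩ := pull_poly_surj (fl _) (pull _ h2 y)
  have e1 : mapL (e.toAlgHom.comp Polynomial.CAlgHom) S =
      ψ.toRingEquiv.toRingHom.comp Polynomial.C := by
    refine RingHom.ext fun z => ?_
    induction z using TensorProduct.induction_on with
    | zero => simp
    | add a b ha hb => rw [map_add, map_add, ha, hb]
    | tmul a s => simp [ψ, ← Polynomial.C_mul']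
  refine ⟨x, ?_⟩
  rw [pullL, pull_congr _ ((fl _).comp h1) e1, ← pull_pull _ (fl _) _ h1, hx, pull_pull,
    pull_congr _ (RingHom.Flat.id _) (RingHom.ext ψ.apply_symm_apply), pull_id]

/-- a polynomial ring over an algebra on which an element with non trivial character is trivial. -/
theorem van_of_poly (X : Obj k) (A : Alg k) (e : Polynomial A.R ≃ₐ[k] X.A.R) (g : X.G)
    (hg : X.χ g ≠ 1) (h : ∀ a, X.act g (e (Polynomial.C a)) = e (Polynomial.C a)) : Van X := by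
  obtain ⟨hfl, hs⟩ := o2_poly A X.A e
  refine fun S => (Submodule.eq_bot_iff _).2 fun x hx => ?_
  rw [← X.proj_of_mem S hx]
  obtain ⟨z, rfl⟩ := hs S x
  refine X.proj_eq_zero g hg S ?_
  rw [Obj.aut, pullL, pullL, pull_pull]
  refine LinearMap.congr_fun (pull_congr _ _ (RingHom.ext fun t => ?_)) z
  induction t using TensorProduct.induction_on with
  | zero => simp
  | add a b ha hb => rw [map_add, map_add, ha, hb]
  | tmul a s => exact congrArg (· ⊗ₜ[k] s) (h a)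

/-- homotopy. -/
theorem ge_poly (A B : Alg k) (e : Polynomial A.R ≃ₐ[k] B.R) : Ge (Obj.triv A) (Obj.triv B) := by
  obtain ⟨hfl, hs⟩ := o2_poly A B e
  let E : Eqv (Obj.triv A) (Obj.triv B) :=
    ⟨e.toAlgHom.comp Polynomial.CAlgHom, MonoidHom.id _, fun _ _ => rfl, fun _ => rfl⟩
  exact ⟨_, isTr_pullL E.φ hfl, fun S => o2_map E hfl surjective_id S fun y _ => hs S y⟩

/-- an eigenspace of a larger group or of a subgroup: `Y` has the same algebra. -/
theorem Ge.of_same (X : Obj k) (H : Type) [Group H] [Fintype H] (act : H →* (X.A.R →ₐ[k] X.A.R))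
    (χ : H →* ℂ) (h : ∀ S, ∀ y ∈ (⟨X.A, H, act, χ⟩ : Obj k).Phi S, ∃ x ∈ X.Phi S,
      (⟨X.A, H, act, χ⟩ : Obj k).proj S x = y) : Ge X ⟨X.A, H, act, χ⟩ :=
  Ge.of_proj (Y := ⟨X.A, H, act, χ⟩) (IsTr.id X.A) h

end Pool.Agent.Lib.MP_40dc3c_ag.T
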