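import Pool.Agent.Lib.MP_40dc3c_ag.T.O2

/-! Tensor products of objects. -/

namespace Pool.Agent.Lib.MP_40dc3c_ag.T

open scoped TensorProduct
open Function

variable {k : Type} [Field k]

/-- the associativity isomorphism. -/
noncomputable def o3_as (A W S : Alg k) :
    (A.R ⊗[k] W.R) ⊗[k] S.R ≃ₐ[k] A.R ⊗[k] (W.R ⊗[k] S.R) :=
  Algebra.TensorProduct.assoc k k k A.R W.R S.R

theorem o3_as_tmul (A W S : Alg k) (a : A.R) (w : W.R) (s : S.R) :
    o3_as A W S ((a ⊗ₜ w) ⊗ₜ s) = a ⊗ₜ (w ⊗ₜ s) := rfl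

theorem o3_as_symm (A W S : Alg k) (a : A.R) (w : W.R) (s : S.R) :
    (o3_as A W S).symm (a ⊗ₜ (w ⊗ₜ s)) = (a ⊗ₜ w) ⊗ₜ s := rfl

theorem o3_nat {A W S A' W' S' : Alg k} (f : A.R →ₐ[k] A'.R) (g : W.R →ₐ[k] W'.R)
    (h : S.R →ₐ[k] S'.R) (x : (A.R ⊗[k] W.R) ⊗[k] S.R) :
    o3_as A' W' S' (Algebra.TensorProduct.map (Algebra.TensorProduct.map f g) h x) =
      Algebra.TensorProduct.map f (Algebra.TensorProduct.map g h) (o3_as A W S x) := by
  induction x using TensorProduct.induction_on with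
  | zero => simp only [map_zero]
  | add x y hx hy => simp only [map_add, hx, hy]
  | tmul x s =>
    induction x using TensorProduct.induction_on with
    | zero => simp only [TensorProduct.zero_tmul, map_zero]
    | add x y hx hy => simp only [TensorProduct.add_tmul, map_add, hx, hy]
    | tmul a w => rfl

theorem o3_nat' {A W S A' W' S' : Alg k} (f : A.R →ₐ[k] A'.R) (g : W.R →ₐ[k] W'.R)
    (h : S.R →ₐ[k] S'.R) (x : A.R ⊗[k] (W.R ⊗[k] S.R)) :
    (o3_as A' W' S').symm (Algebra.TensorProduct.map f (Algebra.TensorProduct.map g h) x) =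
      Algebra.TensorProduct.map (Algebra.TensorProduct.map f g) h ((o3_as A W S).symm x) := by
  rw [AlgEquiv.symm_apply_eq, o3_nat, AlgEquiv.apply_symm_apply]

/-- the associativity isomorphism as a ring map. -/
noncomputable def o3_a (A W S : Alg k) : (A.ten W).R ⊗[k] S.R →+* A.R ⊗[k] (W.ten S).R :=
  (o3_as A W S).toRingEquiv.toRingHom

/-- the inverse of the associativity isomorphism as a ring map. -/
noncomputable def o3_b (A W S : Alg k) : A.R ⊗[k] (W.ten S).R →+* (A.ten W).R ⊗[k] S.R :=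
  (o3_as A W S).symm.toRingEquiv.toRingHom

theorem o3_a_bij (A W S : Alg k) : Bijective (o3_a A W S) := (o3_as A W S).bijective

theorem o3_b_bij (A W S : Alg k) : Bijective (o3_b A W S) := (o3_as A W S).symm.bijective

/-- the associativity isomorphism on `K`. -/
noncomputable def o3_e (A W S : Alg k) : KK (A.ten W) S →ₗ[ℂ] KK A (W.ten S) :=
  pull (o3_a A W S) (RingHom.Flat.of_bijective (o3_a_bij A W S))

/-- the inverse of the associativity isomorphism on `K`. -/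
noncomputable def o3_f (A W S : Alg k) : KK A (W.ten S) →ₗ[ℂ] KK (A.ten W) S :=
  pull (o3_b A W S) (RingHom.Flat.of_bijective (o3_b_bij A W S))

theorem o3_ab (A W S : Alg k) (x) : o3_a A W S (o3_b A W S x) = x :=
  (o3_as A W S).apply_symm_apply x

theorem o3_ba (A W S : Alg k) (x) : o3_b A W S (o3_a A W S x) = x :=
  (o3_as A W S).symm_apply_apply x

theorem o3_ef (A W S : Alg k) (x) : o3_e A W S (o3_f A W S x) = x := by
  rw [o3_e, o3_f, pull_pull, pull_congr _ (RingHom.Flat.id _) (RingHom.ext (o3_ab A W S)), pull_id]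

theorem o3_fe (A W S : Alg k) (x) : o3_f A W S (o3_e A W S x) = x := by
  rw [o3_e, o3_f, pull_pull, pull_congr _ (RingHom.Flat.id _) (RingHom.ext (o3_ba A W S)), pull_id]

theorem o3_f_push (A W S : Alg k) : o3_f A W S =
    push (o3_a A W S) (RingHom.Finite.of_surjective _ (o3_a_bij A W S).2) :=
  haveI : IsNoetherianRing (A.R ⊗[k] (W.ten S).R) := (A.ten (W.ten S)).ft.isNoetherianRing k _
  (push_eq_pull _ _ _ _ (o3_ab A W S) (o3_ba A W S)).symm

/-- the map `W ⊗ S → W ⊗ S'`. -/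
noncomputable def o3_r (W : Alg k) {S S' : Alg k} (g : S.R →ₐ[k] S'.R) :
    (W.ten S).R →ₐ[k] (W.ten S').R := Algebra.TensorProduct.map (AlgHom.id k W.R) g

/-- the map `W ⊗ S → W ⊗ S` given by the action. -/
noncomputable def o3_l (W : Obj k) (w : W.G) (S : Alg k) :
    (W.A.ten S).R →ₐ[k] (W.A.ten S).R := Algebra.TensorProduct.map (W.act w) (AlgHom.id k S.R)

theorem o3_l_flat (W : Obj k) (w : W.G) (S : Alg k) : (o3_l W w S).toRingHom.Flat :=
  mapL_flat (RingHom.Flat.of_bijective (hom_bij W.act w)) S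

theorem o3_r_flat (W : Alg k) {S S' : Alg k} {g : S.R →ₐ[k] S'.R} (h : g.toRingHom.Flat) :
    (o3_r W g).toRingHom.Flat := mapR_flat W h

theorem o3_r_fin (W : Alg k) {S S' : Alg k} {g : S.R →ₐ[k] S'.R} (h : g.toRingHom.Finite) :
    (o3_r W g).toRingHom.Finite := mapR_finite W h

theorem o3_ar (A W : Alg k) {S S' : Alg k} (g : S.R →ₐ[k] S'.R) :
    (o3_a A W S').comp (mapR (A.ten W) g) = (mapR A (o3_r W g)).comp (o3_a A W S) :=
  RingHom.ext fun x => by
    have := o3_nat (AlgHom.id k A.R) (AlgHom.id k W.R) g x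
    rw [Algebra.TensorProduct.map_id] at this
    exact this

theorem o3_e_pull (A W : Alg k) {S S' : Alg k} (g : S.R →ₐ[k] S'.R) (h : g.toRingHom.Flat) (x) :
    o3_e A W S' (pullR (A.ten W) g h x) = pullR A (o3_r W g) (o3_r_flat W h) (o3_e A W S x) := by
  rw [o3_e, o3_e, pullR, pullR, pull_pull, pull_pull, pull_congr _ _ (o3_ar A W g)]

theorem o3_f_pull (A W : Alg k) {S S' : Alg k} (g : S.R →ₐ[k] S'.R) (h : g.toRingHom.Flat) (x) :
    o3_f A W S' (pullR A (o3_r W g) (o3_r_flat W h) x) = pullR (A.ten W) g h (o3_f A W S x) := by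
  rw [← o3_fe A W S' (pullR (A.ten W) g h _), o3_e_pull, o3_ef]

theorem o3_f_pushR (A W : Alg k) {S S' : Alg k} (g : S.R →ₐ[k] S'.R) (h : g.toRingHom.Finite) (x) :
    o3_f A W S (pushR A (o3_r W g) (o3_r_fin W h) x) = pushR (A.ten W) g h (o3_f A W S' x) := by
  rw [o3_f_push, o3_f_push, pushR, pushR, push_push, push_push, push_congr _ _ (o3_ar A W g)]

theorem o3_e_push (A W : Alg k) {S S' : Alg k} (g : S.R →ₐ[k] S'.R) (h : g.toRingHom.Finite) (x) :
    o3_e A W S (pushR (A.ten W) g h x) = pushR A (o3_r W g) (o3_r_fin W h) (o3_e A W S' x) := by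
  rw [← o3_ef A W S (pushR A _ _ _), o3_f_pushR, o3_fe]

theorem o3_isTr {A B : Alg k} {θ} (h : IsTr A B θ) (W : Alg k) :
    IsTr (A.ten W) (B.ten W) fun S => o3_f B W S ∘ₗ θ (W.ten S) ∘ₗ o3_e A W S where
  push_nat S S' g hg x := by
    simp only [LinearMap.comp_apply]
    rw [o3_e_push, h.push_nat, o3_f_pushR]
  pull_nat S S' g hg x := by
    simp only [LinearMap.comp_apply]
    rw [o3_e_pull, h.pull_nat, o3_f_pull]

theorem o3_e_aut (X W : Obj k) (g : X.G) (w : W.G) (S : Alg k) (x) :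
    o3_e X.A W.A S ((X.ten W).aut (g, w) S x) =
      X.aut g (W.A.ten S) (pullR X.A (o3_l W w S) (o3_l_flat W w S) (o3_e X.A W.A S x)) := by
  rw [o3_e, Obj.aut, Obj.aut, pullL, pullL, pullR, pull_pull, pull_pull, pull_pull]
  refine LinearMap.congr_fun (pull_congr _ _ (RingHom.ext fun y => ?_)) x
  refine (o3_nat (X.act g) (W.act w) (AlgHom.id k S.R) y).trans ?_
  change _ = Algebra.TensorProduct.map (X.act g) (AlgHom.id k _)
    (Algebra.TensorProduct.map (AlgHom.id k _) (o3_l W w S) (o3_as X.A W.A S y))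
  rw [← AlgHom.comp_apply, ← Algebra.TensorProduct.map_comp]
  rfl

theorem o3_l_one (A : Alg k) (W : Obj k) (S : Alg k) (x) :
    pullR A (o3_l W 1 S) (o3_l_flat W 1 S) x = x := by
  have e : mapR A (o3_l W 1 S) = RingHom.id _ := by
    have e' : o3_l W 1 S = AlgHom.id k _ := by
      rw [o3_l, map_one]
      exact Algebra.TensorProduct.map_id
    rw [e', mapR]
    exact congrArg AlgHom.toRingHom Algebra.TensorProduct.map_id
  rw [pullR, pull_congr _ (RingHom.Flat.id _) e, pull_id]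

theorem o3_e_mem {X W : Obj k} {S : Alg k} {x} (hx : x ∈ (X.ten W).Phi S) :
    o3_e X.A W.A S x ∈ X.Phi (W.A.ten S) := fun g => by
  have := o3_e_aut X W g 1 S x
  rw [hx (g, 1), o3_l_one, map_smul] at this
  rw [← this]
  simp

theorem Ge.ten_right {X Y : Obj k} (h : Ge X Y) (W : Obj k) : Ge (X.ten W) (Y.ten W) := by
  obtain ⟨θ, hθ, hs⟩ := h
  refine Ge.of_proj (o3_isTr hθ W.A) fun S y hy => ?_
  have h1 := o3_e_mem hy
  rw [← hs] at h1
  obtain ⟨x, hx, e⟩ := h1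
  refine ⟨_, (X.ten W).proj_mem S (o3_f X.A W.A S x), ?_⟩
  have key : ∀ g : (X.ten W).G, (o3_f Y.A W.A S ∘ₗ θ (W.A.ten S) ∘ₗ o3_e X.A W.A S)
      ((X.ten W).aut g S (o3_f X.A W.A S x)) = (X.ten W).χ g • y := by
    rintro ⟨g, w⟩
    have h2 := o3_e_aut Y W 1 w S y
    rw [Obj.aut_one, hy (1, w), ← e, ← hθ.pull_nat] at h2
    simp only [LinearMap.comp_apply]
    rw [o3_e_aut, o3_ef, (X.isTr_aut g).pull_nat, hx g, map_smul, map_smul, ← h2, map_smul, o3_fe,
      smul_smul]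
    simp
  have h3 : (o3_f Y.A W.A S ∘ₗ θ (W.A.ten S) ∘ₗ o3_e X.A W.A S)
      ((X.ten W).proj S (o3_f X.A W.A S x)) = y := by
    rw [Obj.proj, LinearMap.smul_apply, LinearMap.sum_apply, map_smul, map_sum]
    simp only [LinearMap.smul_apply, map_smul, key, smul_smul, ← map_mul, inv_mul_cancel, map_one,
      Finset.sum_const, Finset.card_univ, one_smul]
    rw [← Nat.cast_smul_eq_nsmul ℂ, smul_smul, inv_mul_cancel₀ (Nat.cast_ne_zero.2
      Fintype.card_ne_zero), one_smul]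
  rw [h3]
  exact (Y.ten W).proj_of_mem S hy

theorem ge_comm (X Y : Obj k) : Ge (X.ten Y) (Y.ten X) :=
  Eqv.iso ⟨(Algebra.TensorProduct.comm k Y.A.R X.A.R).toAlgHom,
    (MulEquiv.prodComm : X.G × Y.G ≃* Y.G × X.G).toMonoidHom, fun h a => by
      induction a using TensorProduct.induction_on with
      | zero => simp only [map_zero]
      | add x y hx hy => simp only [map_add, hx, hy]
      | tmul a b => rfl,
    fun _ => mul_comm _ _⟩ (Algebra.TensorProduct.comm k Y.A.R X.A.R).bijective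

theorem ge_assoc (X Y Z : Obj k) : Ge ((X.ten Y).ten Z) (X.ten (Y.ten Z)) :=
  Eqv.iso ⟨(o3_as X.A Y.A Z.A).symm.toAlgHom,
    (MulEquiv.prodAssoc : (X.G × Y.G) × Z.G ≃* X.G × (Y.G × Z.G)).toMonoidHom,
    fun h a => o3_nat' (X.act h.1.1) (Y.act h.1.2) (Z.act h.2) a,
    fun _ => mul_assoc _ _ _⟩ (o3_as X.A Y.A Z.A).symm.bijective

theorem ge_assoc' (X Y Z : Obj k) : Ge (X.ten (Y.ten Z)) ((X.ten Y).ten Z) :=
  Eqv.iso ⟨(o3_as X.A Y.A Z.A).toAlgHom,
    (MulEquiv.prodAssoc : (X.G × Y.G) × Z.G ≃* X.G × (Y.G × Z.G)).symm.toMonoidHom,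
    fun h a => o3_nat (X.act h.1) (Y.act h.2.1) (Z.act h.2.2) a,
    fun _ => (mul_assoc _ _ _).symm⟩ (o3_as X.A Y.A Z.A).bijective

theorem ge_one_ten (X : Obj k) : Ge ((Obj.one k).ten X) X :=
  Eqv.iso ⟨(Algebra.TensorProduct.lid k X.A.R).symm.toAlgHom, MonoidHom.snd _ _, fun _ _ => rfl,
    fun _ => one_mul _⟩ (Algebra.TensorProduct.lid k X.A.R).symm.bijective

theorem ge_one_ten' (X : Obj k) : Ge X ((Obj.one k).ten X) :=
  Eqv.iso ⟨(Algebra.TensorProduct.lid k X.A.R).toAlgHom, MonoidHom.inr _ _, fun h a => by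
      induction a using TensorProduct.induction_on with
      | zero => simp only [map_zero]
      | add x y hx hy => simp only [map_add, hx, hy]
      | tmul a b => exact (map_smul (X.act h) a b).symm,
    fun _ => (one_mul _).symm⟩ (Algebra.TensorProduct.lid k X.A.R).bijective

theorem Ge.ten {X Y X' Y' : Obj k} (h : Ge X Y) (h' : Ge X' Y') : Ge (X.ten X') (Y.ten Y') :=
  (h.ten_right X').trans ((ge_comm Y X').trans ((h'.ten_right Y).trans (ge_comm Y' Y)))

theorem Van.ten {X : Obj k} (h : Van X) (W : Obj k) : Van (X.ten W) := fun S => by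
  rw [eq_bot_iff]
  intro x hx
  have h1 := o3_e_mem hx
  rw [h, Submodule.mem_bot] at h1
  rw [Submodule.mem_bot, ← o3_fe X.A W.A S x, h1, map_zero]

/-- classes of objects. -/
def Cls (k : Type) [Field k] : Type 1 :=
  Quotient (⟨fun X Y : Obj k => Ge X Y ∧ Ge Y X, ⟨fun X => ⟨Ge.refl X, Ge.refl X⟩,
    fun h => h.symm, fun h h' => ⟨h.1.trans h'.1, h'.2.trans h.2⟩⟩⟩ : Setoid (Obj k))

/-- the class of an object. -/
def Obj.cls (X : Obj k) : Cls k := Quotient.mk _ X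

theorem cls_eq {X Y : Obj k} : X.cls = Y.cls ↔ Ge X Y ∧ Ge Y X := Quotient.eq

noncomputable instance : CommMonoid (Cls k) where
  mul := Quotient.map₂ Obj.ten fun _ _ h _ _ h' => ⟨h.1.ten h'.1, h.2.ten h'.2⟩
  one := (Obj.one k).cls
  mul_assoc := by
    rintro ⟨X⟩ ⟨Y⟩ ⟨Z⟩
    exact cls_eq.2 ⟨ge_assoc X Y Z, ge_assoc' X Y Z⟩
  one_mul := by
    rintro ⟨X⟩
    exact cls_eq.2 ⟨ge_one_ten X, ge_one_ten' X⟩
  mul_one := by
    rintro ⟨X⟩
    exact cls_eq.2 ⟨(ge_comm _ _).trans (ge_one_ten X), (ge_one_ten' X).trans (ge_comm _ _)⟩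
  mul_comm := by
    rintro ⟨X⟩ ⟨Y⟩
    exact cls_eq.2 ⟨ge_comm X Y, ge_comm Y X⟩

theorem cls_ten (X Y : Obj k) : (X.ten Y).cls = X.cls * Y.cls := rfl

theorem cls_one : (Obj.one k).cls = 1 := rfl

end Pool.Agent.Lib.MP_40dc3c_ag.T
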