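import Pool.Agent.Lib.MP_40dc3c_ag.T.O5b

/-! Artin-Schreier twists: sums of potentials and linear potentials. -/

namespace Pool.Agent.Lib.MP_40dc3c_ag.T

open scoped TensorProduct
open Function

variable {k : Type} [Field k] (p : ℕ) [Fact p.Prime] [CharP k p] {X Y Z : Obj k}

section ten

variable (X Y : Obj k) {f : X.A.R} (hf : ∀ g, X.act g f = f) {f' : Y.A.R}
  (hf' : ∀ g, Y.act g f' = f')

/-- the map of algebras under the sum of two covers. -/
noncomputable def obT (f : X.A.R) (f' : Y.A.R) :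
    AdjoinRoot (asP p (f ⊗ₜ[k] (1 : Y.A.R) + 1 ⊗ₜ f')) →ₐ[k]
      AdjoinRoot (asP p f) ⊗[k] AdjoinRoot (asP p f') :=
  obLift p (Algebra.TensorProduct.map (AdjoinRoot.ofAlgHom k _) (AdjoinRoot.ofAlgHom k _)) _
    (AdjoinRoot.root _ ⊗ₜ 1 + 1 ⊗ₜ AdjoinRoot.root _) (by
      rw [ob_add_pow p k]
      simp only [Algebra.TensorProduct.tmul_pow, one_pow, map_add, Algebra.TensorProduct.map_tmul,
        map_one, AdjoinRoot.coe_ofAlgHom, ← asP_root p f, ← asP_root p f', TensorProduct.sub_tmul,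
        TensorProduct.tmul_sub]
      ring)

theorem obT_of (f : X.A.R) (f' : Y.A.R) (a : X.A.R) (b : Y.A.R) :
    obT p X Y f f' (AdjoinRoot.of _ (a ⊗ₜ b)) = AdjoinRoot.of _ a ⊗ₜ AdjoinRoot.of _ b := by
  simp [obT]

theorem obT_root (f : X.A.R) (f' : Y.A.R) : obT p X Y f f' (AdjoinRoot.root _) =
    AdjoinRoot.root _ ⊗ₜ 1 + 1 ⊗ₜ AdjoinRoot.root _ := by
  simp [obT]

theorem obT_fin_flat (f : X.A.R) (f' : Y.A.R) :
    (obT p X Y f f').toRingHom.Finite ∧ (obT p X Y f f').toRingHom.Flat := by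
  let V := AdjoinRoot (asP p (f ⊗ₜ[k] (1 : Y.A.R) + 1 ⊗ₜ f'))
  let o : X.A.R ⊗[k] Y.A.R →ₐ[k] V := AdjoinRoot.ofAlgHom k _
  let a : V := o (f ⊗ₜ 1)
  let T := AdjoinRoot (asP p a)
  let t : V →ₐ[k] T := AdjoinRoot.ofAlgHom k _
  have ho : ∀ x y, obT p X Y f f' (o (x ⊗ₜ y)) = AdjoinRoot.of _ x ⊗ₜ AdjoinRoot.of _ y :=
    obT_of p X Y f f'
  have hr : AdjoinRoot.root (asP p a) ^ p - AdjoinRoot.root _ = t (o (f ⊗ₜ 1)) := asP_root p a
  have hr' : t (AdjoinRoot.root _) ^ p - t (AdjoinRoot.root _) = t (o (f ⊗ₜ 1)) + t (o (1 ⊗ₜ f')) := by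
    rw [← map_pow, ← map_sub, asP_root, ← map_add, ← map_add]
    rfl
  let i : T →ₐ[k] AdjoinRoot (asP p f) ⊗[k] AdjoinRoot (asP p f') :=
    obLift p (obT p X Y f f') a (AdjoinRoot.root _ ⊗ₜ 1) (by
      rw [ho, Algebra.TensorProduct.tmul_pow, one_pow, ← TensorProduct.sub_tmul, asP_root, map_one])
  let j1 : AdjoinRoot (asP p f) →ₐ[k] T :=
    obLift p ((t.comp o).comp Algebra.TensorProduct.includeLeft) f (AdjoinRoot.root _) hr
  let j2 : AdjoinRoot (asP p f') →ₐ[k] T :=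
    obLift p ((t.comp o).comp Algebra.TensorProduct.includeRight) f'
      (t (AdjoinRoot.root _) - AdjoinRoot.root _) (by
        rw [ob_sub_pow p k]
        change _ = t (o (1 ⊗ₜ f'))
        linear_combination hr' - hr)
  let j := Algebra.TensorProduct.lift j1 j2 fun _ _ => Commute.all _ _
  have hi1 : ∀ v, i (t v) = obT p X Y f f' v := obLift_of p _ _ _ _
  have hi2 : i (AdjoinRoot.root _) = AdjoinRoot.root _ ⊗ₜ 1 := obLift_root p _ _ _ _
  have h11 : ∀ x, j1 (AdjoinRoot.of _ x) = t (o (x ⊗ₜ 1)) := obLift_of p _ _ _ _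
  have h12 : j1 (AdjoinRoot.root _) = AdjoinRoot.root _ := obLift_root p _ _ _ _
  have h21 : ∀ x, j2 (AdjoinRoot.of _ x) = t (o (1 ⊗ₜ x)) := obLift_of p _ _ _ _
  have h22 : j2 (AdjoinRoot.root _) = t (AdjoinRoot.root _) - AdjoinRoot.root _ :=
    obLift_root p _ _ _ _
  have hj : ∀ x y, j (x ⊗ₜ y) = j1 x * j2 y := fun _ _ => rfl
  have h1 : i.comp j = AlgHom.id k _ := by
    refine Algebra.TensorProduct.ext (AdjoinRoot.algHom_ext' (AlgHom.ext fun x => ?_) ?_)
      (AdjoinRoot.algHom_ext' (AlgHom.ext fun x => ?_) ?_)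
    · change i (j (AdjoinRoot.of _ x ⊗ₜ 1)) = AdjoinRoot.of _ x ⊗ₜ 1
      rw [hj, map_one, mul_one, h11, hi1, ho, map_one]
    · change i (j (AdjoinRoot.root _ ⊗ₜ 1)) = AdjoinRoot.root _ ⊗ₜ 1
      rw [hj, map_one, mul_one, h12, hi2]
    · change i (j (1 ⊗ₜ AdjoinRoot.of _ x)) = 1 ⊗ₜ AdjoinRoot.of _ x
      rw [hj, map_one, one_mul, h21, hi1, ho, map_one]
    · change i (j (1 ⊗ₜ AdjoinRoot.root _)) = 1 ⊗ₜ AdjoinRoot.root _
      rw [hj, map_one, one_mul, h22, map_sub, hi1, hi2, obT_root, add_sub_cancel_left]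
  have h3 : j.comp (obT p X Y f f') = t := by
    refine AdjoinRoot.algHom_ext' (Algebra.TensorProduct.ext' fun x y => ?_) ?_
    · change j (obT p X Y f f' (o (x ⊗ₜ y))) = t (o (x ⊗ₜ y))
      rw [ho, hj, h11, h21, ← map_mul, ← map_mul, Algebra.TensorProduct.tmul_mul_tmul, mul_one,
        one_mul]
    · rw [AlgHom.comp_apply, obT_root, map_add, hj, hj, map_one, map_one, h12, h22, mul_one,
        one_mul, add_sub_cancel]
  have h2 : j.comp i = AlgHom.id k _ := by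
    refine AdjoinRoot.algHom_ext' (AlgHom.ext fun v => ?_) ?_
    · change j (i (t v)) = t v
      rw [hi1]
      exact AlgHom.congr_fun h3 v
    · change j (i (AdjoinRoot.root _)) = AdjoinRoot.root _
      rw [hi2, hj, map_one, mul_one, h12]
  have hb : Bijective i := (AlgEquiv.ofAlgHom i j h1 h2).bijective
  have e : (obT p X Y f f').toRingHom = i.toRingHom.comp (AdjoinRoot.of (asP p a)) :=
    RingHom.ext fun v => (hi1 v).symm
  rw [e]
  exact ⟨(RingHom.Finite.of_surjective _ hb.2).comp (ob_of_finite p a),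
    (ob_of_flat p a).comp (RingHom.Flat.of_bijective hb)⟩

/-- the sum map as an equivariant map. -/
noncomputable def obE : Eqv ((X.ten Y).as p (f ⊗ₜ 1 + 1 ⊗ₜ f') (ten_inv X Y hf hf'))
    ((X.as p f hf).ten (Y.as p f' hf')) where
  φ := obT p X Y f f'
  π :=
    { toFun := fun g => ((g.1.1, g.2.1), g.1.2 * g.2.2)
      map_one' := Prod.ext rfl (one_mul _)
      map_mul' := fun _ _ => Prod.ext rfl (mul_mul_mul_comm _ _ _ _) }
  comm g := by
    refine AlgHom.congr_fun (φ₁ := (obT p X Y f f').comp (asAct p (X.ten Y) _ (ten_inv X Y hf hf')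
      ((g.1.1, g.2.1), g.1.2 * g.2.2))) (φ₂ := (Algebra.TensorProduct.map (asAct p X f hf g.1)
        (asAct p Y f' hf' g.2)).comp (obT p X Y f f')) ?_
    refine AdjoinRoot.algHom_ext' (Algebra.TensorProduct.ext' fun x y => ?_) ?_
    · refine (congrArg (obT p X Y f f')
        (asAct_of p (X.ten Y) _ (ten_inv X Y hf hf') _ (x ⊗ₜ y))).trans ?_
      refine (obT_of p X Y f f' (X.act g.1.1 x) (Y.act g.2.1 y)).trans ?_
      simp [obT_of]
    · refine (congrArg (obT p X Y f f') (asAct_root p (X.ten Y) _ (ten_inv X Y hf hf') _)).trans ?_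
      refine (map_add (obT p X Y f f') (AdjoinRoot.root _) (algebraMap k _ _)).trans ?_
      simp only [AlgHom.comp_apply, asAct_root, map_add, AlgHom.commutes, obT_root, toAdd_mul,
        Algebra.TensorProduct.map_tmul, map_one, TensorProduct.add_tmul, TensorProduct.tmul_add]
      rw [← Algebra.TensorProduct.algebraMap_apply, ← Algebra.TensorProduct.algebraMap_apply']
      ring
  chi g := by
    simp only [MonoidHom.coprod_apply, MonoidHom.coe_mk, OneHom.coe_mk, map_mul]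
    ring

end ten

theorem cls_as_ten_as (X Y : Obj k) {f : X.A.R} (hf : ∀ g, X.act g f = f) {f' : Y.A.R}
    (hf' : ∀ g, Y.act g f' = f') : (X.as p f hf).cls * (Y.as p f' hf').cls =
      ((X.ten Y).as p (f ⊗ₜ 1 + 1 ⊗ₜ f') (ten_inv X Y hf hf')).cls := by
  obtain ⟨hfin, hfl⟩ := obT_fin_flat p X Y f f'
  refine cls_eq.2 ⟨(obE p X Y hf hf').push' hfin fun Ω _ _ _ u => ?_,
    (obE p X Y hf hf').cover hfin hfl (fun g => ⟨((g.1.1, g.2), (g.1.2, 1)),
      Prod.ext rfl (mul_one _)⟩) fun Ω _ _ _ v v' hv => ?_⟩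
  · let w : X.A.R ⊗[k] Y.A.R →ₐ[k] Ω := u.comp (AdjoinRoot.ofAlgHom k _)
    obtain ⟨y, hy⟩ := ob_root p Ω (w (f ⊗ₜ 1))
    have hz : u (AdjoinRoot.root _) ^ p - u (AdjoinRoot.root _) = w (f ⊗ₜ 1) + w (1 ⊗ₜ f') := by
      rw [← map_add]
      exact pt_root p _ u
    obtain ⟨v1, h1, h2⟩ : ∃ v1 : AdjoinRoot (asP p f) →ₐ[k] Ω,
        (∀ a, v1 (AdjoinRoot.of _ a) = w (a ⊗ₜ 1)) ∧ v1 (AdjoinRoot.root _) = y :=
      ⟨obLift p (w.comp Algebra.TensorProduct.includeLeft) f y hy, obLift_of p _ _ _ _,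
        obLift_root p _ _ _ _⟩
    obtain ⟨v2, h3, h4⟩ : ∃ v2 : AdjoinRoot (asP p f') →ₐ[k] Ω,
        (∀ a, v2 (AdjoinRoot.of _ a) = w (1 ⊗ₜ a)) ∧
          v2 (AdjoinRoot.root _) = u (AdjoinRoot.root _) - y :=
      ⟨obLift p (w.comp Algebra.TensorProduct.includeRight) f' (u (AdjoinRoot.root _) - y) (by
        rw [ob_sub_pow p k]
        change _ = w (1 ⊗ₜ f')
        linear_combination hz - hy), obLift_of p _ _ _ _, obLift_root p _ _ _ _⟩
    let v := Algebra.TensorProduct.lift v1 v2 fun _ _ => Commute.all _ _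
    have hv : ∀ a b, v (a ⊗ₜ b) = v1 a * v2 b := fun _ _ => rfl
    refine ⟨v, AdjoinRoot.algHom_ext' (Algebra.TensorProduct.ext' fun a b => ?_) ?_⟩
    · change v (obT p X Y f f' (AdjoinRoot.of _ (a ⊗ₜ b))) = w (a ⊗ₜ b)
      rw [obT_of, hv, h1, h3, ← map_mul, Algebra.TensorProduct.tmul_mul_tmul, mul_one, one_mul]
    · change v (obT p X Y f f' (AdjoinRoot.root _)) = u (AdjoinRoot.root _)
      rw [obT_root, map_add, hv, hv, h2, h4, map_one, map_one, mul_one, one_mul, add_sub_cancel]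
  · have h0 : ∀ x, v (obT p X Y f f' x) = v' (obT p X Y f f' x) := AlgHom.congr_fun hv
    have h1 : ∀ a b, v (AdjoinRoot.of _ a ⊗ₜ AdjoinRoot.of _ b) =
        v' (AdjoinRoot.of _ a ⊗ₜ AdjoinRoot.of _ b) := fun a b => by
      rw [← obT_of]
      exact h0 _
    have h2 := h0 (AdjoinRoot.root _)
    rw [obT_root, map_add, map_add] at h2
    have h3 : v (AdjoinRoot.root _ ⊗ₜ 1) ^ p - v (AdjoinRoot.root _ ⊗ₜ 1) =
        v (AdjoinRoot.of _ f ⊗ₜ 1) := pt_root p f (v.comp Algebra.TensorProduct.includeLeft)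
    have h4 : v' (AdjoinRoot.root _ ⊗ₜ 1) ^ p - v' (AdjoinRoot.root _ ⊗ₜ 1) =
        v' (AdjoinRoot.of _ f ⊗ₜ 1) := pt_root p f (v'.comp Algebra.TensorProduct.includeLeft)
    have h5 : ∀ a, v (AdjoinRoot.of _ a ⊗ₜ 1) = v' (AdjoinRoot.of _ a ⊗ₜ 1) := fun a => by
      simpa using h1 a 1
    have h6 : ∀ b, v (1 ⊗ₜ AdjoinRoot.of _ b) = v' (1 ⊗ₜ AdjoinRoot.of _ b) := fun b => by
      simpa using h1 1 b
    obtain ⟨d, hd⟩ := ob_const (k := k) p Ω
      (v' (AdjoinRoot.root _ ⊗ₜ 1) - v (AdjoinRoot.root _ ⊗ₜ 1)) (by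
        rw [ob_sub_pow p k]
        linear_combination h4 - h3 - h5 f)
    refine ⟨_, ⟨((1, Multiplicative.ofAdd d), (1, Multiplicative.ofAdd (-d))),
      Prod.ext rfl (by simp [obE]), rfl⟩, ?_⟩
    refine Algebra.TensorProduct.ext (AdjoinRoot.algHom_ext' (AlgHom.ext fun x => ?_) ?_)
      (AdjoinRoot.algHom_ext' (AlgHom.ext fun x => ?_) ?_)
    · simp [tenAct, h5]
    · change v' (AdjoinRoot.root _ ⊗ₜ 1) = v (asAct p X f hf _ (AdjoinRoot.root _) ⊗ₜ
        asAct p Y f' hf' _ 1)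
      rw [asAct_root, map_one, TensorProduct.add_tmul, map_add,
        ← Algebra.TensorProduct.algebraMap_apply, AlgHom.commutes]
      exact eq_add_of_sub_eq' hd
    · simp [tenAct, h6]
    · change v' (1 ⊗ₜ AdjoinRoot.root _) = v (asAct p X f hf _ 1 ⊗ₜ
        asAct p Y f' hf' _ (AdjoinRoot.root _))
      rw [asAct_root, map_one, TensorProduct.tmul_add, map_add,
        ← Algebra.TensorProduct.algebraMap_apply', AlgHom.commutes, toAdd_ofAdd, map_neg, map_neg]
      linear_combination -h2 - hd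

theorem cls_as_ten (X Y : Obj k) {f : X.A.R} (hf : ∀ g, X.act g f = f)
    (h1 : ∀ g, (X.ten Y).act g (f ⊗ₜ 1) = f ⊗ₜ 1) :
    (X.as p f hf).cls * Y.cls = ((X.ten Y).as p (f ⊗ₜ 1) h1).cls := by
  rw [← cls_as_zero p Y fun _ => map_zero _, cls_as_ten_as]
  exact cls_as_eq p _ _ _ (a := 0) (fun _ => map_zero _)
    (by simp [(Fact.out : p.Prime).ne_zero])

attribute [local instance] Polynomial.algebra in
theorem ob_away_poly {A : Type} (L : Type) [CommRing A] [CommRing L] [Algebra A L] (u : A)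
    [IsLocalization.Away u L] :
    IsAway (Polynomial.mapRingHom (algebraMap A L)) (Polynomial.C u) := by
  have h := Polynomial.isLocalization (Submonoid.powers u) L
  rw [Submonoid.map_powers] at h
  exact isAway_of_isLoc (R' := Polynomial L) (Polynomial.C u)

/-- integration over a variable that occurs linearly. -/
theorem ge_as_lin (A B Z : Alg k) (e : Polynomial A.R ≃ₐ[k] B.R) (u f₀ : A.R) (φ : A.R →ₐ[k] Z.R)
    (hs : Surjective φ) (hk : ∀ a, φ a = 0 ↔ u ∣ a) {f : B.R}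
    (h : f = e (Polynomial.C u * Polynomial.X + Polynomial.C f₀)) :
    Ge ((Obj.triv Z).as p (φ f₀) fun _ => rfl) ((Obj.triv B).as p f fun _ => rfl) := by
  let L := Localization.Away u
  let m : A.R →ₐ[k] L := IsScalarTower.toAlgHom k A.R L
  let U : Alg k := ⟨Polynomial L⟩
  let P : Alg k := ⟨Polynomial k⟩
  let E : Eqv (Obj.triv B) (Obj.triv U) :=
    ⟨(Polynomial.mapAlgHom m).comp e.symm.toAlgHom, 1, fun _ _ => rfl, fun _ => rfl⟩
  let ψ : Polynomial A.R →ₐ[k] Z.R ⊗[k] Polynomial k :=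
    Polynomial.aevalTower (Algebra.TensorProduct.includeLeft.comp φ) (1 ⊗ₜ Polynomial.X)
  let E' : Eqv (Obj.triv B) ((Obj.triv Z).ten (Obj.triv P)) :=
    ⟨ψ.comp e.symm.toAlgHom, 1, fun _ a => by
      change _ = Algebra.TensorProduct.map (AlgHom.id k _) (AlgHom.id k _) _
      rw [Algebra.TensorProduct.map_id]
      rfl, fun _ => mul_one (1 : ℂ)⟩
  have hψC : ∀ a, ψ (Polynomial.C a) = φ a ⊗ₜ 1 := fun a => by simp [ψ]
  have hψX : ψ Polynomial.X = 1 ⊗ₜ Polynomial.X := by simp [ψ]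
  have hu : φ u = 0 := (hk u).2 dvd_rfl
  have hA : IsAway E.φ.toRingHom (e (Polynomial.C u)) := by
    have h0 := ob_away_poly L u
    have h1 : ∀ q, E.φ.toRingHom (e q) = Polynomial.mapRingHom (algebraMap A.R L) q := fun q => by
      change Polynomial.mapAlgHom m (e.symm (e q)) = _
      rw [e.symm_apply_apply]
      rfl
    refine ⟨by rw [h1]; exact h0.unit, fun b => ?_, fun a ha => ?_⟩
    · obtain ⟨n, a, ha⟩ := h0.surj b
      exact ⟨n, e a, by rw [h1, h1]; exact ha⟩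
    · obtain ⟨q, rfl⟩ := e.surjective a
      obtain ⟨n, hn⟩ := h0.ker q (by rw [← h1]; exact ha)
      exact ⟨n, by rw [← map_pow, ← map_mul, hn, map_zero]⟩
  have hV : Van ((Obj.triv U).as p (E.φ f) fun _ => rfl) := by
    have hm : IsUnit (m u) := IsLocalization.Away.algebraMap_isUnit u
    have := hm.invertible
    refine van_as_lin p (Obj.triv U) ⟨L⟩
      ((Polynomial.algEquivCMulXAddC (m u) 0).restrictScalars k) (m f₀) _ ?_
    simp [E, h]
  have hsψ : Surjective ψ := by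
    intro x
    induction x using TensorProduct.induction_on with
    | zero => exact ⟨0, map_zero _⟩
    | add x y hx hy =>
      obtain ⟨x, rfl⟩ := hx
      obtain ⟨y, rfl⟩ := hy
      exact ⟨x + y, map_add _ _ _⟩
    | tmul z q =>
      obtain ⟨a, rfl⟩ := hs z
      refine ⟨Polynomial.C a * Polynomial.aeval Polynomial.X q, ?_⟩
      rw [map_mul, hψC, ← Polynomial.aeval_algHom_apply, hψX]
      change _ * Polynomial.aeval (Algebra.TensorProduct.includeRight (R := k) (A := Z.R)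
        (Polynomial.X : Polynomial k)) q = _
      rw [Polynomial.aeval_algHom_apply]
      simp
  have h1 : ∀ g, ((Obj.triv Z).ten (Obj.triv P)).act g (φ f₀ ⊗ₜ 1) = φ f₀ ⊗ₜ 1 := fun _ => rfl
  have h2 := E.as_closed p (fun _ => rfl) (fun _ => rfl) rfl hA
    ⟨fun _ _ _ => rfl, fun _ => ⟨1, rfl⟩⟩ hV E' h1 (by simp [E', h, hψC, hu])
    (RingHom.Finite.of_surjective _ (hsψ.comp e.symm.surjective)) fun Ω _ _ _ w hw => by
      let g : A.R →ₐ[k] Ω := (w.comp e.toAlgHom).comp Polynomial.CAlgHom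
      have H : RingHom.ker φ.toRingHom ≤ RingHom.ker g.toRingHom := fun a ha => by
        obtain ⟨b, rfl⟩ := (hk a).1 ha
        change w (e (Polynomial.C (u * b))) = 0
        rw [map_mul, map_mul, map_mul, hw, zero_mul]
      refine ⟨1, Algebra.TensorProduct.lift (AlgHom.liftOfSurjective φ hs g H)
        (Polynomial.aeval (w (e Polynomial.X))) fun _ _ => Commute.all _ _, ?_⟩
      rw [← AlgHom.cancel_right (f := e.toAlgHom) e.surjective]
      refine Polynomial.algHom_ext' (AlgHom.ext fun a => ?_) ?_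
      · simp [E', hψC, g]
      · simp only [E', AlgHom.comp_apply, AlgEquiv.coe_toAlgHom, AlgEquiv.symm_apply_apply, hψX,
          Algebra.TensorProduct.lift_tmul, map_one, one_mul]
        exact Polynomial.aeval_X _
  exact ((ge_one_ten' _).trans (((ge_poly (Alg.pt k) P AlgEquiv.refl).ten_right _).trans
    ((ge_comm _ _).trans (cls_eq.1 (cls_as_ten p (Obj.triv Z) (Obj.triv P) _ h1)).1))).trans h2

end Pool.Agent.Lib.MP_40dc3c_ag.T
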