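import Pool.Agent.Lib.MP_40dc3c_ag.T.O5a
import Pool.Agent.Lib.MP_40dc3c_ag.T.O5c

/-! Artin-Schreier twists: all the lemmas. -/
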