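import Pool.Agent.Lib.MP_40dc3c_ag.T.O2
import Pool.Agent.Lib.MP_40dc3c_ag.T.AsL

/-! Artin-Schreier twists: push, cover, open and closed parts. -/

namespace Pool.Agent.Lib.MP_40dc3c_ag.T

open scoped TensorProduct
open Function

variable {k : Type} [Field k] (p : ℕ) [Fact p.Prime] [CharP k p] {X Y Z : Obj k}

omit [Fact p.Prime] in
theorem asP_eval {A B : Type} [CommRing A] [CommRing B] (i : A →+* B) (f : A) (y : B)
    (hy : y ^ p - y = i f) : (asP p f).eval₂ i y = 0 := by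
  rw [asP, Polynomial.eval₂_sub, Polynomial.eval₂_sub, Polynomial.eval₂_pow, Polynomial.eval₂_X,
    Polynomial.eval₂_C, hy, sub_self]

/-- the lift of an equivariant map to the twists. -/
noncomputable def Eqv.as (E : Eqv X Y) {f : X.A.R} (hf : ∀ g, X.act g f = f) {f' : Y.A.R}
    (hf' : ∀ g, Y.act g f' = f') (h : E.φ f = f') : Eqv (X.as p f hf) (Y.as p f' hf') where
  φ := AdjoinRoot.liftAlgHom _ ((AdjoinRoot.ofAlgHom k (asP p f')).comp E.φ) (AdjoinRoot.root _)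
    (asP_eval p _ _ _ (by rw [asP_root]; simp [h]))
  π := E.π.prodMap (MonoidHom.id _)
  comm g a := by
    rw [← AlgHom.comp_apply, ← AlgHom.comp_apply ((Y.as p f' hf').act g)]
    refine AlgHom.congr_fun (AdjoinRoot.algHom_ext' ?_ ?_) a
    · ext b
      simp [E.comm]
    · simp only [AlgHom.comp_apply, asAct_root, map_add, AdjoinRoot.liftAlgHom_root,
        AlgHom.commutes]
      rfl
  chi g := by simp [E.chi]

@[simp] theorem Eqv.as_of (E : Eqv X Y) {f : X.A.R} (hf : ∀ g, X.act g f = f) {f' : Y.A.R}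
    (hf' : ∀ g, Y.act g f' = f') (h : E.φ f = f') (a : X.A.R) :
    (E.as p hf hf' h).φ (AdjoinRoot.of _ a) = AdjoinRoot.of _ (E.φ a) := by simp [Eqv.as]

@[simp] theorem Eqv.as_root (E : Eqv X Y) {f : X.A.R} (hf : ∀ g, X.act g f = f) {f' : Y.A.R}
    (hf' : ∀ g, Y.act g f' = f') (h : E.φ f = f') :
    (E.as p hf hf' h).φ (AdjoinRoot.root _) = AdjoinRoot.root _ := by simp [Eqv.as]

section shift

variable (E : Eqv X Y) {f : X.A.R} (hf : ∀ g, X.act g f = f) {f' : Y.A.R}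
  (hf' : ∀ g, Y.act g f' = f') {c : Y.A.R} (hc : ∀ g, Y.act g c = c)
  (h : E.φ f = f' + c ^ p - c)

include hc h

theorem Eqv.sh_push (hfin : E.φ.toRingHom.Finite)
    (hs : ∀ (Ω : Type) [Field Ω] [IsAlgClosed Ω] [Algebra k Ω] (u : X.A.R →ₐ[k] Ω),
      ∃ (g : X.G) (v : Y.A.R →ₐ[k] Ω), v.comp E.φ = u.comp (X.act g)) :
    Ge (Y.as p f' hf') (X.as p f hf) :=
  (E.asL p f hf f' hf' c hc h).push (asMap_finite p E.φ f f' c h hfin)
    (E.asL_push p f hf f' hf' c hc h hs)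

theorem Eqv.sh_iso (hb : Bijective E.φ) : Ge (Y.as p f' hf') (X.as p f hf) :=
  (E.asL p f hf f' hf' c hc h).iso (asMap_bijective p E.φ f f' c h hb)

theorem Eqv.sh_cover (hfin : E.φ.toRingHom.Finite) (hfl : E.φ.toRingHom.Flat)
    (hπ : Surjective E.π) (ht : GeoTrans E.φ {γ | ∃ g, E.π g = 1 ∧ γ = Y.act g}) :
    Ge (X.as p f hf) (Y.as p f' hf') :=
  (E.asL p f hf f' hf' c hc h).cover (asMap_finite p E.φ f f' c h hfin)
    (asMap_flat p E.φ f f' c h hfl) (E.asL_pi_surjective p f hf f' hf' c hc h hπ)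
    (E.asL_geoTrans p f hf f' hf' c hc h ht)

theorem Eqv.sh_res {a : X.A.R} (ha : IsAway E.φ.toRingHom a) (hπ : Bijective E.π) :
    Ge (X.as p f hf) (Y.as p f' hf') :=
  (E.asL p f hf f' hf' c hc h).res (asMap_isAway p E.φ f f' c h ha)
    (E.asL_pi_bijective p f hf f' hf' c hc h hπ)

theorem Eqv.sh_clean {a : X.A.R} (ha : IsAway E.φ.toRingHom a) (hπ : Bijective E.π)
    (hcl : ∀ P : Ideal X.A.R, P.IsPrime → a ∈ P → ∃ g, X.χ g ≠ 1 ∧ ∀ b, X.act g b - b ∈ P) :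
    Ge (Y.as p f' hf') (X.as p f hf) :=
  (E.asL p f hf f' hf' c hc h).clean (asMap_isAway p E.φ f f' c h ha)
    (E.asL_pi_bijective p f hf f' hf' c hc h hπ) (Obj.as_clean p f hf a hcl)

theorem Eqv.sh_closed {a : X.A.R} (ha : IsAway E.φ.toRingHom a) (hπ : Bijective E.π)
    (hY : Van (Y.as p f' hf')) (E' : Eqv X Z) {f'' : Z.A.R} (hf'' : ∀ g, Z.act g f'' = f'')
    {c' : Z.A.R} (hc' : ∀ g, Z.act g c' = c') (h' : E'.φ f = f'' + c' ^ p - c')
    (hfin : E'.φ.toRingHom.Finite)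
    (hs : ∀ (Ω : Type) [Field Ω] [IsAlgClosed Ω] [Algebra k Ω] (u : X.A.R →ₐ[k] Ω), u a = 0 →
      ∃ (g : X.G) (v : Z.A.R →ₐ[k] Ω), v.comp E'.φ = u.comp (X.act g)) :
    Ge (Z.as p f'' hf'') (X.as p f hf) :=
  (E.asL p f hf f' hf' c hc h).closed (asMap_isAway p E.φ f f' c h ha)
    (E.asL_pi_bijective p f hf f' hf' c hc h hπ) hY (E'.asL p f hf f'' hf'' c' hc' h')
    (asMap_finite p E'.φ f f'' c' h' hfin) (E'.asL_closed p f hf f'' hf'' c' hc' h' a hs)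

end shift

theorem shift_zero {B : Type} [CommRing B] {x y : B} (h : x = y) : x = y + 0 ^ p - 0 := by
  rw [zero_pow (Fact.out : p.Prime).ne_zero, add_zero, sub_zero, h]

variable (E : Eqv X Y) {f : X.A.R} (hf : ∀ g, X.act g f = f) {f' : Y.A.R}
  (hf' : ∀ g, Y.act g f' = f') (h : E.φ f = f')

include h in
theorem Eqv.as_push (hfin : E.φ.toRingHom.Finite)
    (hs : ∀ (Ω : Type) [Field Ω] [IsAlgClosed Ω] [Algebra k Ω] (u : X.A.R →ₐ[k] Ω),
      ∃ (g : X.G) (v : Y.A.R →ₐ[k] Ω), v.comp E.φ = u.comp (X.act g)) :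
    Ge (Y.as p f' hf') (X.as p f hf) :=
  E.sh_push p hf hf' (fun _ => map_zero _) (shift_zero p h) hfin hs

include h in
theorem Eqv.as_iso (hb : Bijective E.φ) : Ge (Y.as p f' hf') (X.as p f hf) :=
  E.sh_iso p hf hf' (fun _ => map_zero _) (shift_zero p h) hb

include h in
theorem Eqv.as_cover (hfin : E.φ.toRingHom.Finite) (hfl : E.φ.toRingHom.Flat)
    (hπ : Surjective E.π) (ht : GeoTrans E.φ {γ | ∃ g, E.π g = 1 ∧ γ = Y.act g}) :
    Ge (X.as p f hf) (Y.as p f' hf') :=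
  E.sh_cover p hf hf' (fun _ => map_zero _) (shift_zero p h) hfin hfl hπ ht

include h in
theorem Eqv.as_res {a : X.A.R} (ha : IsAway E.φ.toRingHom a) (hπ : Bijective E.π) :
    Ge (X.as p f hf) (Y.as p f' hf') :=
  E.sh_res p hf hf' (fun _ => map_zero _) (shift_zero p h) ha hπ

include h in
theorem Eqv.as_clean {a : X.A.R} (ha : IsAway E.φ.toRingHom a) (hπ : Bijective E.π)
    (hc : ∀ P : Ideal X.A.R, P.IsPrime → a ∈ P → ∃ g, X.χ g ≠ 1 ∧ ∀ b, X.act g b - b ∈ P) :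
    Ge (Y.as p f' hf') (X.as p f hf) :=
  E.sh_clean p hf hf' (fun _ => map_zero _) (shift_zero p h) ha hπ hc

include h in
theorem Eqv.as_closed {a : X.A.R} (ha : IsAway E.φ.toRingHom a) (hπ : Bijective E.π)
    (hY : Van (Y.as p f' hf')) (E' : Eqv X Z) {f'' : Z.A.R} (hf'' : ∀ g, Z.act g f'' = f'')
    (h' : E'.φ f = f'') (hfin : E'.φ.toRingHom.Finite)
    (hs : ∀ (Ω : Type) [Field Ω] [IsAlgClosed Ω] [Algebra k Ω] (u : X.A.R →ₐ[k] Ω), u a = 0 →
      ∃ (g : X.G) (v : Z.A.R →ₐ[k] Ω), v.comp E'.φ = u.comp (X.act g)) :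
    Ge (Z.as p f'' hf'') (X.as p f hf) :=
  E.sh_closed p hf hf' (fun _ => map_zero _) (shift_zero p h) ha hπ hY E' hf''
    (fun _ => map_zero _) (shift_zero p h') hfin hs

end Pool.Agent.Lib.MP_40dc3c_ag.T
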