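import Pool.Agent.Lib.MP_40dc3c_ag.T.O3
import Pool.Agent.Lib.MP_40dc3c_ag.T.O5a

/-! Artin-Schreier twists: sums of potentials, coboundaries, linear potentials. -/

namespace Pool.Agent.Lib.MP_40dc3c_ag.T

open scoped TensorProduct
open Function

variable {k : Type} [Field k] (p : ℕ) [Fact p.Prime] [CharP k p] {X Y Z : Obj k}

section aux

variable {A B : Type} [CommRing A] [CommRing B] [Algebra k A] [Algebra k B]

theorem ob_add_pow (k : Type) [Field k] [CharP k p] [Algebra k B] (x y : B) :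
    (x + y) ^ p = x ^ p + y ^ p := by
  rcases subsingleton_or_nontrivial B with _ | _
  · exact Subsingleton.elim _ _
  have : CharP B p := charP_of_injective_algebraMap (algebraMap k B).injective p
  exact add_pow_char x y p

theorem ob_sub_pow (k : Type) [Field k] [CharP k p] [Algebra k B] (x y : B) :
    (x - y) ^ p = x ^ p - y ^ p := by
  rw [eq_sub_iff_add_eq, ← ob_add_pow p k, sub_add_cancel]

/-- the constants. -/
noncomputable abbrev obc (k : Type) [Field k] [CharP k p] (B : Type) [CommRing B] [Algebra k B]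
    (c : ZMod p) : B := algebraMap k B (ZMod.castHom (dvd_refl p) k c)

theorem ob_const (Ω : Type) [Field Ω] [Algebra k Ω] (x : Ω) (hx : x ^ p = x) :
    ∃ c : ZMod p, x = obc p k Ω c := by
  have : CharP Ω p := charP_of_injective_algebraMap (algebraMap k Ω).injective p
  obtain ⟨n, hn⟩ := (mem_bot_iff_intCast p Ω).1 ((Subfield.mem_bot_iff_pow_eq_self Ω p).2 hx)
  exact ⟨n, by rw [obc, map_intCast, map_intCast, hn]⟩

/-- a map out of an Artin-Schreier cover. -/
noncomputable def obLift (φ : A →ₐ[k] B) (a : A) (y : B) (h : y ^ p - y = φ a) :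
    AdjoinRoot (asP p a) →ₐ[k] B := AdjoinRoot.liftAlgHom _ φ y (asP_eval p _ _ _ h)

omit [Fact p.Prime] [CharP k p] in
@[simp] theorem obLift_of (φ : A →ₐ[k] B) (a : A) (y : B) (h : y ^ p - y = φ a) (x : A) :
    obLift p φ a y h (AdjoinRoot.of _ x) = φ x := by simp [obLift]

omit [Fact p.Prime] [CharP k p] in
@[simp] theorem obLift_root (φ : A →ₐ[k] B) (a : A) (y : B) (h : y ^ p - y = φ a) :
    obLift p φ a y h (AdjoinRoot.root _) = y := by simp [obLift]

omit [CharP k p] in
theorem ob_of_finite (a : A) : (AdjoinRoot.of (asP p a)).Finite := by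
  rcases subsingleton_or_nontrivial A with _ | _
  · exact RingHom.Finite.of_surjective _ fun x =>
      ⟨0, by have := (AdjoinRoot.of (asP p a)).codomain_trivial; exact Subsingleton.elim _ _⟩
  · exact RingHom.finite_algebraMap.2 (asP_monic p a).finite_adjoinRoot

omit [CharP k p] in
theorem ob_of_flat (a : A) : (AdjoinRoot.of (asP p a)).Flat := by
  rcases subsingleton_or_nontrivial A with _ | _
  · have := (AdjoinRoot.of (asP p a)).codomain_trivial
    exact RingHom.Flat.of_bijective ⟨fun _ _ _ => Subsingleton.elim _ _,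
      fun x => ⟨0, Subsingleton.elim _ _⟩⟩
  · have := (asP_monic p a).free_adjoinRoot
    exact RingHom.flat_algebraMap_iff.2 (inferInstance : Module.Flat A (AdjoinRoot (asP p a)))

theorem ob_root (Ω : Type) [Field Ω] [IsAlgClosed Ω] (a : Ω) : ∃ y : Ω, y ^ p - y = a := by
  have hp : p.Prime := Fact.out
  obtain ⟨y, hy⟩ := IsAlgClosed.exists_root (asP p a) (by
    rw [asP, sub_sub, Polynomial.degree_sub_eq_left_of_degree_lt, Polynomial.degree_X_pow]
    · exact_mod_cast hp.ne_zero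
    · rw [Polynomial.degree_X_pow, Polynomial.degree_X_add_C]
      exact_mod_cast hp.one_lt)
  refine ⟨y, ?_⟩
  simpa [asP, sub_eq_zero] using hy

theorem psi0_ne : psi0 p (Multiplicative.ofAdd 1) ≠ 1 := by
  intro h
  have h' : ZMod.stdAddChar (N := p) 1 = ZMod.stdAddChar (N := p) 0 := by
    rw [AddChar.map_zero_eq_one]; exact h
  exact one_ne_zero (ZMod.injective_stdAddChar h')

end aux

omit [Fact p.Prime] [CharP k p] in
theorem ten_inv (X Y : Obj k) {f : X.A.R} (hf : ∀ g, X.act g f = f) {f' : Y.A.R}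
    (hf' : ∀ g, Y.act g f' = f') (g) :
    (X.ten Y).act g (f ⊗ₜ 1 + 1 ⊗ₜ f') = f ⊗ₜ 1 + 1 ⊗ₜ f' := by
  simp [tenAct, hf, hf']

/-- a potential that is a coordinate. -/
theorem van_as_lin (X : Obj k) (A : Alg k) (e : Polynomial A.R ≃ₐ[k] X.A.R) (f₀ : A.R) {f : X.A.R}
    (hf : ∀ g, X.act g f = f) (h : f = e (Polynomial.X + Polynomial.C f₀)) : Van (X.as p f hf) := by
  let i : Polynomial A.R →ₐ[k] AdjoinRoot (asP p f) := Polynomial.aevalTower
    (((AdjoinRoot.ofAlgHom k (asP p f)).comp e.toAlgHom).comp Polynomial.CAlgHom) (AdjoinRoot.root _)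
  let j : AdjoinRoot (asP p f) →ₐ[k] Polynomial A.R := obLift p
    ((Polynomial.aevalTower Polynomial.CAlgHom (asP p f₀)).comp e.symm.toAlgHom) f Polynomial.X
    (by simp [h, asP])
  have h1 : j.comp i = AlgHom.id k _ := by
    refine Polynomial.algHom_ext' (by ext a; simp [i, j]) (by simp [i, j])
  have h2 : i.comp j = AlgHom.id k _ := by
    refine AdjoinRoot.algHom_ext' ?_ (by simp [i, j])
    rw [← AlgHom.cancel_right (f := e.toAlgHom) e.surjective]
    refine Polynomial.algHom_ext' (by ext a; simp [i, j]) ?_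
    have := asP_root p f
    have h' : e Polynomial.X = f - e (Polynomial.C f₀) := by rw [h, map_add, add_sub_cancel_right]
    have h3 : j (AdjoinRoot.of _ (e Polynomial.X)) = asP p f₀ := by simp [j]
    simp only [AlgHom.comp_apply, AlgEquiv.coe_toAlgHom, AdjoinRoot.coe_ofAlgHom, AlgHom.id_apply]
    rw [h3, h', map_sub, ← this,
      show asP p f₀ = Polynomial.X ^ p - Polynomial.X - Polynomial.C f₀ from rfl]
    simp [i]
  exact van_of_poly (X.as p f hf) A (AlgEquiv.ofAlgHom i j h2 h1) (1, Multiplicative.ofAdd 1)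
    (by simpa using psi0_ne p) (fun a => by simp [i])

theorem ge_as_eq (X : Obj k) {f f' a : X.A.R} (hf : ∀ g, X.act g f = f)
    (hf' : ∀ g, X.act g f' = f') (ha : ∀ g, X.act g a = a) (h : f' = f + (a ^ p - a)) :
    Ge (X.as p f hf) (X.as p f' hf') := by
  let i : AdjoinRoot (asP p f') →ₐ[k] AdjoinRoot (asP p f) := obLift p (AdjoinRoot.ofAlgHom k _) f'
    (AdjoinRoot.root _ + AdjoinRoot.of _ a) (by
      rw [ob_add_pow p k, h]
      simp only [AdjoinRoot.coe_ofAlgHom, map_add, map_sub, map_pow, ← asP_root p f]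
      ring)
  let j : AdjoinRoot (asP p f) →ₐ[k] AdjoinRoot (asP p f') := obLift p (AdjoinRoot.ofAlgHom k _) f
    (AdjoinRoot.root _ - AdjoinRoot.of _ a) (by
      rw [ob_sub_pow p k, eq_sub_of_add_eq h.symm]
      simp only [AdjoinRoot.coe_ofAlgHom, map_sub, map_pow, ← asP_root p f']
      ring)
  have h1 : j.comp i = AlgHom.id k _ := AdjoinRoot.algHom_ext' (by ext; simp [i, j]) (by simp [i, j])
  have h2 : i.comp j = AlgHom.id k _ := AdjoinRoot.algHom_ext' (by ext; simp [i, j]) (by simp [i, j])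
  refine Eqv.iso (X := X.as p f' hf') (Y := X.as p f hf) ⟨i, MonoidHom.id _, fun g => ?_, fun _ => rfl⟩
    (AlgEquiv.ofAlgHom i j h2 h1).bijective
  refine AlgHom.congr_fun (φ₁ := i.comp (asAct p X f' hf' g)) (φ₂ := (asAct p X f hf g).comp i) ?_
  refine AdjoinRoot.algHom_ext' (by ext; simp [i]) ?_
  simp only [AlgHom.comp_apply, asAct_root, map_add, AlgHom.commutes, i, obLift_root, asAct_of, ha]
  ring

/-- changing the potential by an Artin-Schreier coboundary. -/
theorem cls_as_eq (X : Obj k) {f f' a : X.A.R} (hf : ∀ g, X.act g f = f)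
    (hf' : ∀ g, X.act g f' = f') (ha : ∀ g, X.act g a = a) (h : f' = f + (a ^ p - a)) :
    (X.as p f hf).cls = (X.as p f' hf').cls := by
  refine cls_eq.2 ⟨ge_as_eq p X hf hf' ha h, ge_as_eq p X hf' hf (a := 0 - a) (by simp [ha]) ?_⟩
  rw [ob_sub_pow p k, h, zero_pow (Fact.out : p.Prime).ne_zero]
  ring

theorem cls_as_zero (X : Obj k) (h0 : ∀ g, X.act g 0 = 0) : (X.as p 0 h0).cls = X.cls := by
  have hp : p.Prime := Fact.out
  obtain ⟨φ, hφ1, hφ2⟩ : ∃ φ : AdjoinRoot (asP p (0 : X.A.R)) →ₐ[k] X.A.R,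
      (∀ a, φ (AdjoinRoot.of _ a) = a) ∧ φ (AdjoinRoot.root _) = 0 :=
    ⟨obLift p (AlgHom.id k _) 0 0 (by simp [hp.ne_zero]), obLift_of p _ _ _ _,
      obLift_root p _ _ _ _⟩
  have hs : Surjective φ := fun a => ⟨AdjoinRoot.of _ a, hφ1 a⟩
  have hfin : φ.toRingHom.Finite := RingHom.Finite.of_surjective _ hs
  have hr : AdjoinRoot.root (asP p (0 : X.A.R)) ^ p = AdjoinRoot.root _ := by
    have := asP_root p (0 : X.A.R)
    rwa [map_zero, sub_eq_zero] at this
  let E : Eqv (X.as p 0 h0) X := ⟨φ, MonoidHom.inl _ _, fun g =>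
    AlgHom.congr_fun (φ₁ := φ.comp (asAct p X 0 h0 (g, 1))) (φ₂ := (X.act g).comp φ)
      (AdjoinRoot.algHom_ext' (by ext; simp [hφ1]) (by simp [hφ2])), fun g => by simp⟩
  have hA : IsAway φ.toRingHom (1 - AdjoinRoot.root _ ^ (p - 1)) := by
    refine ⟨by simp [hφ2, Nat.sub_ne_zero_of_lt hp.one_lt], fun b => ?_, fun a ha => ⟨1, ?_⟩⟩
    · obtain ⟨a, rfl⟩ := hs b
      exact ⟨0, a, by simp⟩
    · obtain ⟨a, rfl⟩ := AdjoinRoot.mk_surjective a
      rw [← Polynomial.X_mul_divX_add a, map_add, map_mul, AdjoinRoot.mk_X, AdjoinRoot.mk_C] at ha ⊢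
      have h1 : a.coeff 0 = 0 := by simpa [hφ1, hφ2] using ha
      rw [h1, map_zero, add_zero, pow_one, ← mul_assoc, sub_mul, ← pow_succ,
        Nat.sub_add_cancel hp.one_le, hr, one_mul, sub_self, zero_mul]
  refine cls_eq.2 ⟨Ge.of_proj (isTr_pullL φ hA.flat) fun S y hy => ?_,
    E.push hfin fun Ω _ _ _ u => ?_⟩
  · have hS : Surjective (mapL (A := (X.as p 0 h0).A) (B := X.A) φ S) :=
      Algebra.TensorProduct.map_surjective φ (AlgHom.id k S.R) hs surjective_id
    have key : ∀ c : Multiplicative (ZMod p), pullL (A := (X.as p 0 h0).A) φ hA.flat S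
        ((X.as p 0 h0).aut (1, c) S (pushL (A := (X.as p 0 h0).A) φ hfin S y)) =
        if c = 1 then y else 0 := by
      intro c
      refine LinearMap.congr_fun (f := pullL (A := (X.as p 0 h0).A) φ hA.flat S ∘ₗ
        (X.as p 0 h0).aut (1, c) S ∘ₗ pushL (A := (X.as p 0 h0).A) φ hfin S)
        (g := if c = 1 then LinearMap.id else 0) (ext_q fun P _ => ?_) y |>.trans (by split <;> rfl)
      simp only [LinearMap.comp_apply]
      rw [pushL, push_q _ _ hS]
      split
      · next h =>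
        rw [h, show ((1, 1) : (X.as p 0 h0).G) = 1 from rfl, Obj.aut_one, pullL, pull_q,
          Ideal.map_comap_of_surjective _ hS]
        rfl
      · next h =>
        rw [Obj.aut_q, pullL, pull_q, LinearMap.zero_apply, ← q_top]
        congr 1
        refine Ideal.eq_top_of_isUnit_mem _ (Ideal.mem_map_of_mem _ (Ideal.mem_map_of_mem _
          (x := AdjoinRoot.root _ ⊗ₜ 1) (Ideal.mem_comap.2 ?_))) ?_
        · change φ (AdjoinRoot.root _) ⊗ₜ[k] (1 : S.R) ∈ P
          rw [hφ2, TensorProduct.zero_tmul]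
          exact P.zero_mem
        have hc : ZMod.castHom (dvd_refl p) k c.toAdd ≠ 0 := by
          rw [map_ne_zero]
          exact fun h' => h (toAdd_eq_zero.1 h')
        change IsUnit (φ (asAct p X 0 h0 (1, c) (AdjoinRoot.root _)) ⊗ₜ[k] (1 : S.R))
        simp only [asAct_root, map_add, AlgHom.commutes, hφ2, zero_add]
        exact ((IsUnit.mk0 _ hc).map (algebraMap k X.A.R)).map
          (Algebra.TensorProduct.includeLeft : X.A.R →ₐ[k] X.A.R ⊗[k] S.R)
    refine ⟨(p : ℂ) • (X.as p 0 h0).proj S (pushL (A := (X.as p 0 h0).A) φ hfin S y),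
      Submodule.smul_mem _ _ (Obj.proj_mem _ _ _), ?_⟩
    have h2 : ∀ g : (X.as p 0 h0).G, (X.as p 0 h0).χ g⁻¹ • pullL (A := (X.as p 0 h0).A) φ hA.flat S
        ((X.as p 0 h0).aut g S (pushL (A := (X.as p 0 h0).A) φ hfin S y)) =
        if g.2 = 1 then y else 0 := by
      rintro ⟨g, c⟩
      rw [show ((g, c) : (X.as p 0 h0).G) = (1, c) * E.π g by simp [E], Obj.aut_mul,
        ← E.pushL_aut hfin, hy g, map_smul, map_smul, map_smul]
      erw [key]
      by_cases h : c = 1
      · subst h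
        simp [E, smul_smul, inv_mul_cancel₀ (X.chi_ne_zero g)]
      · simp [E, h]
    rw [← X.proj_of_mem S hy]
    congr 1
    rw [X.proj_of_mem S hy, Obj.proj]
    simp only [map_smul, LinearMap.smul_apply, LinearMap.sum_apply, map_sum, h2]
    rw [Fintype.sum_prod_type]
    simp only [Finset.sum_ite_eq', Finset.mem_univ, if_true, Finset.sum_const, Finset.card_univ,
      Fintype.card_prod, Fintype.card_multiplicative, ZMod.card, Nat.cast_mul,
      ← Nat.cast_smul_eq_nsmul ℂ, smul_smul]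
    have h3 : (p : ℂ) ≠ 0 := by exact_mod_cast hp.ne_zero
    have h4 : (Fintype.card X.G : ℂ) ≠ 0 := by exact_mod_cast Fintype.card_ne_zero
    rw [show (p : ℂ) * (((Fintype.card X.G : ℂ) * p)⁻¹ * Fintype.card X.G) = 1 by field_simp, one_smul]
  · obtain ⟨c, hc⟩ := ob_const (k := k) p Ω (u (AdjoinRoot.root _)) (by rw [← map_pow, hr])
    refine ⟨(1, Multiplicative.ofAdd (-c)), u.comp (AdjoinRoot.ofAlgHom k _), ?_⟩
    exact AdjoinRoot.algHom_ext' (by ext; simp [E, hφ1]) (by simp [E, hφ2, hc, obc])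

end Pool.Agent.Lib.MP_40dc3c_ag.T
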