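import Pool.Agent.Lib.MP_40dc3c_ag.T.KDefs

/-! Algebras with a finite group action and a character, their eigenspace functors and natural
surjections between them. -/

namespace Pool.Agent.Lib.MP_40dc3c_ag.T

open scoped TensorProduct
open Function Polynomial

/-- a bundled algebra of finite type. -/
structure Alg (k : Type) [Field k] : Type 1 where
  /-- the carrier. -/
  R : Type
  [cr : CommRing R]
  [alg : Algebra k R]
  [ft : Algebra.FiniteType k R]

attribute [instance] Alg.cr Alg.alg Alg.ft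

variable {k : Type} [Field k]

instance (A : Alg k) : IsNoetherianRing A.R := Algebra.FiniteType.isNoetherianRing k A.R

instance (A B : Alg k) : Algebra.FiniteType k (A.R ⊗[k] B.R) :=
  Algebra.FiniteType.trans (S := A.R) inferInstance inferInstance

instance (A B : Alg k) : IsNoetherianRing (A.R ⊗[k] B.R) :=
  Algebra.FiniteType.isNoetherianRing k _

/-- tensor product. -/
@[reducible] noncomputable def Alg.ten (A B : Alg k) : Alg k := ⟨A.R ⊗[k] B.R⟩

/-- the point. -/
@[reducible] def Alg.pt (k : Type) [Field k] : Alg k := ⟨k⟩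

/-- `K (A ⊗ S)`. -/
abbrev KK (A S : Alg k) : Type 1 := K (A.R ⊗[k] S.R)

/-- a map in the left factor. -/
noncomputable def mapL {A B : Alg k} (φ : A.R →ₐ[k] B.R) (S : Alg k) :
    A.R ⊗[k] S.R →+* B.R ⊗[k] S.R :=
  (Algebra.TensorProduct.map φ (AlgHom.id k S.R)).toRingHom

/-- a map in the right factor. -/
noncomputable def mapR (A : Alg k) {S S' : Alg k} (g : S.R →ₐ[k] S'.R) :
    A.R ⊗[k] S.R →+* A.R ⊗[k] S'.R :=
  (Algebra.TensorProduct.map (AlgHom.id k A.R) g).toRingHom

@[simp] theorem mapL_tmul {A B : Alg k} (φ : A.R →ₐ[k] B.R) (S : Alg k) (a : A.R) (s : S.R) :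
    mapL φ S (a ⊗ₜ s) = φ a ⊗ₜ s := rfl

@[simp] theorem mapR_tmul (A : Alg k) {S S' : Alg k} (g : S.R →ₐ[k] S'.R) (a : A.R) (s : S.R) :
    mapR A g (a ⊗ₜ s) = a ⊗ₜ g s := rfl

theorem mapL_finite {A B : Alg k} {φ : A.R →ₐ[k] B.R} (h : φ.toRingHom.Finite) (S : Alg k) :
    (mapL φ S).Finite :=
  RingHom.Finite.tensorProductMap h (RingHom.Finite.id _)

theorem mapR_finite (A : Alg k) {S S' : Alg k} {g : S.R →ₐ[k] S'.R} (h : g.toRingHom.Finite) :
    (mapR A g).Finite :=
  RingHom.Finite.tensorProductMap (f := AlgHom.id k A.R) (RingHom.Finite.id _) h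

theorem mapL_flat {A B : Alg k} {φ : A.R →ₐ[k] B.R} (h : φ.toRingHom.Flat) (S : Alg k) :
    (mapL φ S).Flat :=
  RingHom.Flat.tensorProductMap h (RingHom.Flat.id _)

theorem mapR_flat (A : Alg k) {S S' : Alg k} {g : S.R →ₐ[k] S'.R} (h : g.toRingHom.Flat) :
    (mapR A g).Flat :=
  RingHom.Flat.tensorProductMap (RingHom.Flat.id _) h

/-- push forward in the left factor. -/
noncomputable def pushL {A B : Alg k} (φ : A.R →ₐ[k] B.R) (h : φ.toRingHom.Finite) (S : Alg k) :
    KK B S →ₗ[ℂ] KK A S := push (mapL φ S) (mapL_finite h S)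

/-- pull back in the left factor. -/
noncomputable def pullL {A B : Alg k} (φ : A.R →ₐ[k] B.R) (h : φ.toRingHom.Flat) (S : Alg k) :
    KK A S →ₗ[ℂ] KK B S := pull (mapL φ S) (mapL_flat h S)

/-- push forward in the right factor. -/
noncomputable def pushR (A : Alg k) {S S' : Alg k} (g : S.R →ₐ[k] S'.R)
    (h : g.toRingHom.Finite) : KK A S' →ₗ[ℂ] KK A S := push (mapR A g) (mapR_finite A h)

/-- pull back in the right factor. -/
noncomputable def pullR (A : Alg k) {S S' : Alg k} (g : S.R →ₐ[k] S'.R)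
    (h : g.toRingHom.Flat) : KK A S →ₗ[ℂ] KK A S' := pull (mapR A g) (mapR_flat A h)

/-- families of linear maps that are natural in the parameter algebra. -/
structure IsTr (A B : Alg k) (θ : ∀ S : Alg k, KK A S →ₗ[ℂ] KK B S) : Prop where
  push_nat : ∀ (S S' : Alg k) (g : S.R →ₐ[k] S'.R) (h : g.toRingHom.Finite) (x : KK A S'),
    θ S (pushR A g h x) = pushR B g h (θ S' x)
  pull_nat : ∀ (S S' : Alg k) (g : S.R →ₐ[k] S'.R) (h : g.toRingHom.Flat) (x : KK A S),
    θ S' (pullR A g h x) = pullR B g h (θ S x)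

/-- an algebra with an action of a finite group and a character of the group. -/
structure Obj (k : Type) [Field k] : Type 1 where
  /-- the algebra. -/
  A : Alg k
  /-- the group. -/
  G : Type
  [grp : Group G]
  [fin : Fintype G]
  /-- the action. -/
  act : G →* (A.R →ₐ[k] A.R)
  /-- the character. -/
  χ : G →* ℂ

attribute [instance] Obj.grp Obj.fin

theorem hom_bij {A G : Type} [CommRing A] [Algebra k A] [Group G] (act : G →* (A →ₐ[k] A))
    (g : G) : Bijective (act g) := by
  refine bijective_iff_has_inverse.2 ⟨act g⁻¹, fun x => ?_, fun x => ?_⟩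
  · rw [← AlgHom.mul_apply, ← map_mul, inv_mul_cancel, map_one, AlgHom.one_apply]
  · rw [← AlgHom.mul_apply, ← map_mul, mul_inv_cancel, map_one, AlgHom.one_apply]

/-- the action on `K (A ⊗ S)`. -/
noncomputable def Obj.aut (X : Obj k) (g : X.G) (S : Alg k) : KK X.A S →ₗ[ℂ] KK X.A S :=
  pullL (X.act g) (RingHom.Flat.of_bijective (hom_bij X.act g)) S

/-- the eigenspace. -/
noncomputable def Obj.Phi (X : Obj k) (S : Alg k) : Submodule ℂ (KK X.A S) where
  carrier := {x | ∀ g, X.aut g S x = X.χ g • x}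
  add_mem' ha hb g := by rw [map_add, ha g, hb g, smul_add]
  zero_mem' g := by simp
  smul_mem' c x hx g := by rw [map_smul, hx g, smul_comm]

/-- the projector on the eigenspace. -/
noncomputable def Obj.proj (X : Obj k) (S : Alg k) : KK X.A S →ₗ[ℂ] KK X.A S :=
  (Fintype.card X.G : ℂ)⁻¹ • ∑ g, X.χ g⁻¹ • X.aut g S

/-- there is a natural surjection from the eigenspaces of `X` on those of `Y`. -/
def Ge (X Y : Obj k) : Prop :=
  ∃ θ, IsTr X.A Y.A θ ∧ ∀ S, (X.Phi S).map (θ S) = Y.Phi S

/-- all eigenspaces vanish. -/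
def Van (X : Obj k) : Prop := ∀ S, X.Phi S = ⊥

/-- the point. -/
@[reducible] def Obj.one (k : Type) [Field k] : Obj k := ⟨Alg.pt k, PUnit, 1, 1⟩

/-- the trivial group on an algebra. -/
@[reducible] def Obj.triv (A : Alg k) : Obj k := ⟨A, PUnit, 1, 1⟩

/-- the action on a tensor product. -/
noncomputable def tenAct (X Y : Obj k) :
    X.G × Y.G →* (X.A.R ⊗[k] Y.A.R →ₐ[k] X.A.R ⊗[k] Y.A.R) where
  toFun g := Algebra.TensorProduct.map (X.act g.1) (Y.act g.2)
  map_one' := by
    simp only [Prod.fst_one, Prod.snd_one, map_one]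
    exact Algebra.TensorProduct.map_id
  map_mul' g h := by
    simp only [Prod.fst_mul, Prod.snd_mul, map_mul]
    exact Algebra.TensorProduct.map_comp _ _ _ _

/-- tensor product of objects. -/
@[reducible] noncomputable def Obj.ten (X Y : Obj k) : Obj k :=
  ⟨X.A.ten Y.A, X.G × Y.G, tenAct X Y, X.χ.coprod Y.χ⟩

/-- the action on a localisation. -/
noncomputable def awayAct (X : Obj k) (f : X.A.R) (hf : ∀ g, X.act g f ∣ f) :
    X.G →* (Localization.Away f →ₐ[k] Localization.Away f) where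
  toFun g := IsLocalization.Away.liftAlgHom
    (f := (IsScalarTower.toAlgHom k X.A.R (Localization.Away f)).comp (X.act g)) f
    (isUnit_of_dvd_unit (map_dvd (algebraMap X.A.R (Localization.Away f)) (hf g))
      (IsLocalization.Away.algebraMap_isUnit f))
  map_one' := IsLocalization.algHom_ext (Submonoid.powers f) (by ext; simp [Algebra.algHom])
  map_mul' g h := IsLocalization.algHom_ext (Submonoid.powers f) (by ext; simp [Algebra.algHom])

@[simp] theorem awayAct_algebraMap (X : Obj k) (f : X.A.R) (hf : ∀ g, X.act g f ∣ f) (g : X.G)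
    (a : X.A.R) : awayAct X f hf g (algebraMap X.A.R _ a) = algebraMap X.A.R _ (X.act g a) := by
  simp [awayAct]

/-- the open part where `f` is invertible. -/
@[reducible] noncomputable def Obj.away (X : Obj k) (f : X.A.R) (hf : ∀ g, X.act g f ∣ f) :
    Obj k := ⟨⟨Localization.Away f⟩, X.G, awayAct X f hf, X.χ⟩

/-- every geometric point lifts. -/
def GeoSurj {A B : Alg k} (φ : A.R →ₐ[k] B.R) : Prop :=
  ∀ (Ω : Type) [Field Ω] [IsAlgClosed Ω] [Algebra k Ω] (u : A.R →ₐ[k] Ω),
    ∃ v : B.R →ₐ[k] Ω, v.comp φ = u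

/-- two geometric points in the same fibre differ by one of the given maps. -/
def GeoTrans {A B : Alg k} (φ : A.R →ₐ[k] B.R) (Γ : Set (B.R →ₐ[k] B.R)) : Prop :=
  ∀ (Ω : Type) [Field Ω] [IsAlgClosed Ω] [Algebra k Ω] (v v' : B.R →ₐ[k] Ω),
    v.comp φ = v'.comp φ → ∃ γ ∈ Γ, v' = v.comp γ

/-- `φ` is the localisation away from `f`. -/
structure IsAway {A B : Type} [CommRing A] [CommRing B] (φ : A →+* B) (f : A) : Prop where
  unit : IsUnit (φ f)
  surj : ∀ b, ∃ (n : ℕ) (a : A), b * φ f ^ n = φ a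
  ker : ∀ a, φ a = 0 → ∃ n : ℕ, f ^ n * a = 0

/-- an equivariant map of algebras, compatible with the characters. -/
structure Eqv (X Y : Obj k) where
  /-- the map of algebras. -/
  φ : X.A.R →ₐ[k] Y.A.R
  /-- the map of groups. -/
  π : Y.G →* X.G
  comm : ∀ h a, φ (X.act (π h) a) = Y.act h (φ a)
  chi : ∀ h, Y.χ h = X.χ (π h)

/-- the action on a quotient. -/
noncomputable def quotAct (X : Obj k) (I : Ideal X.A.R) (hI : ∀ g, ∀ a ∈ I, X.act g a ∈ I) :
    X.G →* ((X.A.R ⧸ I) →ₐ[k] (X.A.R ⧸ I)) where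
  toFun g := Ideal.quotientMapₐ I (X.act g) (hI g)
  map_one' := Ideal.Quotient.algHom_ext k (by ext; simp)
  map_mul' g h := Ideal.Quotient.algHom_ext k (by
    ext a
    exact congrArg (Ideal.Quotient.mk I) (by rw [map_mul]; rfl : X.act (g * h) a = X.act g (X.act h a)))

@[simp] theorem quotAct_mk (X : Obj k) (I : Ideal X.A.R) (hI : ∀ g, ∀ a ∈ I, X.act g a ∈ I)
    (g : X.G) (a : X.A.R) :
    quotAct X I hI g (Ideal.Quotient.mk I a) = Ideal.Quotient.mk I (X.act g a) := rfl

/-- the closed part given by an invariant ideal. -/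
@[reducible] noncomputable def Obj.quot (X : Obj k) (I : Ideal X.A.R)
    (hI : ∀ g, ∀ a ∈ I, X.act g a ∈ I) : Obj k := ⟨⟨X.A.R ⧸ I⟩, X.G, quotAct X I hI, X.χ⟩

/-- invertible objects. -/
def IsU (X : Obj k) : Prop := ∃ Y, Ge (X.ten Y) (Obj.one k) ∧ Ge (Obj.one k) (X.ten Y)

section as

variable (p : ℕ) [Fact p.Prime] [CharP k p]

/-- the Artin-Schreier polynomial. -/
noncomputable def asP {A : Type} [CommRing A] (f : A) : A[X] := X ^ p - X - C f

omit [CharP k p] in
theorem asP_monic {A : Type} [CommRing A] [Nontrivial A] (f : A) : (asP p f).Monic := by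
  have hp : p.Prime := Fact.out
  rw [asP, sub_sub]
  refine Monic.sub_of_left (monic_X_pow p) ?_
  rw [degree_X_pow, degree_X_add_C]
  exact_mod_cast hp.one_lt

theorem asP_shift {A B : Type} [CommRing A] [CommRing B] [Algebra k B] (i : A →+* B) (f : A)
    (y : B) (hy : y ^ p - y = i f) (c : ZMod p) :
    (asP p f).eval₂ i (y + algebraMap k B (ZMod.castHom (dvd_refl p) k c)) = 0 := by
  rcases subsingleton_or_nontrivial B with _ | _
  · exact Subsingleton.elim _ _
  have : CharP B p := charP_of_injective_algebraMap (algebraMap k B).injective p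
  rw [asP, eval₂_sub, eval₂_sub, eval₂_pow, eval₂_X, eval₂_C, add_pow_char, ← map_pow, ← map_pow,
    ZMod.pow_card, ← hy]
  ring

omit [Fact p.Prime] [CharP k p] in
theorem asP_root {A : Type} [CommRing A] (f : A) :
    AdjoinRoot.root (asP p f) ^ p - AdjoinRoot.root (asP p f) = AdjoinRoot.of (asP p f) f := by
  have := AdjoinRoot.eval₂_root (asP p f)
  rw [asP, eval₂_sub, eval₂_sub, eval₂_pow, eval₂_X, eval₂_C] at this
  exact sub_eq_zero.1 this

/-- the action on an Artin-Schreier cover. -/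
noncomputable def asAct (X : Obj k) (f : X.A.R) (hf : ∀ g, X.act g f = f) :
    X.G × Multiplicative (ZMod p) →* (AdjoinRoot (asP p f) →ₐ[k] AdjoinRoot (asP p f)) where
  toFun g := AdjoinRoot.liftAlgHom _ ((AdjoinRoot.ofAlgHom k (asP p f)).comp (X.act g.1))
    (AdjoinRoot.root _ + algebraMap k _ (ZMod.castHom (dvd_refl p) k g.2.toAdd))
    (asP_shift p _ f _ (by rw [asP_root]; simp [hf]) _)
  map_one' := AdjoinRoot.algHom_ext' (by ext; simp) (by simp)
  map_mul' g h := AdjoinRoot.algHom_ext' (by ext; simp) (by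
    simp only [AdjoinRoot.liftAlgHom_root, AlgHom.mul_apply, map_add, AlgHom.commutes,
      Prod.snd_mul, toAdd_mul]
    ring)

@[simp] theorem asAct_of (X : Obj k) (f : X.A.R) (hf : ∀ g, X.act g f = f)
    (g : X.G × Multiplicative (ZMod p)) (a : X.A.R) :
    asAct p X f hf g (AdjoinRoot.of _ a) = AdjoinRoot.of _ (X.act g.1 a) := by
  simp [asAct]

@[simp] theorem asAct_root (X : Obj k) (f : X.A.R) (hf : ∀ g, X.act g f = f)
    (g : X.G × Multiplicative (ZMod p)) :
    asAct p X f hf g (AdjoinRoot.root _) =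
      AdjoinRoot.root _ + algebraMap k _ (ZMod.castHom (dvd_refl p) k g.2.toAdd) := by
  simp [asAct]

/-- the standard additive character. -/
noncomputable def psi0 : Multiplicative (ZMod p) →* ℂ := (ZMod.stdAddChar (N := p)).toMonoidHom

/-- the Artin-Schreier twist `y ^ p - y = f` with the standard additive character. -/
@[reducible] noncomputable def Obj.as (X : Obj k) (f : X.A.R) (hf : ∀ g, X.act g f = f) : Obj k :=
  ⟨⟨AdjoinRoot (asP p f)⟩, X.G × Multiplicative (ZMod p), asAct p X f hf, X.χ.coprod (psi0 p)⟩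

end as

end Pool.Agent.Lib.MP_40dc3c_ag.T
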