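import Pool.Agent.Lib.MP_40dc3c_ag.T.B2

/-! Two abelian groups on the same algebra. -/

namespace Pool.Agent.Lib.MP_40dc3c_ag.T

open Function

variable {k : Type} [Field k]

/-- anticommuting conjugates of an involution. -/
theorem q_lin {V : Type*} [AddCommGroup V] [Module ℂ V] (W : Submodule ℂ V) (g t : V →ₗ[ℂ] V)
    (hg : ∀ v ∈ W, g v ∈ W) (ht : ∀ v ∈ W, t v ∈ W) (g3 : ∀ v, g (g (g v)) = v)
    (t2 : ∀ v, t (t v) = v) {y : V} (hy : y ∈ W) {l : ℂ} (hl : l ^ 3 = 1) (e : g y = l • y)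
    (h : g (t (g (g (t y)))) = -t (g (t (g (g y))))) :
    ∃ x ∈ W, t x = x ∧ x + l ^ 2 • g x + l • g (g x) = (6 : ℂ) • y := by
  have a := ht y hy
  have b := hg _ a
  have c := hg _ b
  refine ⟨(3 : ℂ) • y - (t y + l ^ 2 • g (t y) + l • g (g (t y))) +
    t ((3 : ℂ) • y - (t y + l ^ 2 • g (t y) + l • g (g (t y)))), ?_, ?_, ?_⟩
  · have : (3 : ℂ) • y - (t y + l ^ 2 • g (t y) + l • g (g (t y))) ∈ W :=
      sub_mem (W.smul_mem _ hy) (add_mem (add_mem a (W.smul_mem _ b)) (W.smul_mem _ c))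
    exact add_mem this (ht _ this)
  · rw [map_add, t2, add_comm]
  · simp only [e, map_smul, smul_smul] at h
    have h0 : (l * l) • t (g (t y)) = -g (t (g (g (t y)))) := by rw [h, neg_neg]
    have h1 := congrArg g h0
    have h2 := congrArg g h1
    simp only [map_smul, map_neg, g3] at h1 h2
    simp only [map_add, map_sub, map_smul, t2, e, g3]
    generalize t (g (g (t y))) = C at *
    generalize t (g (t y)) = B at *
    generalize t y = A at *
    linear_combination (norm := skip) (-1 : ℂ) • h0 - l ^ 2 • h1 - l • h2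
    match_scalars
    all_goals first | ring1 | linear_combination (4 : ℂ) * hl | linear_combination (-2 : ℂ) * hl |
      linear_combination (-l ^ 2 - l ^ 2) * hl | linear_combination (-l) * hl |
      linear_combination hl | linear_combination -hl

open Classical in
/-- the operator of an automorphism. -/
noncomputable def op (A : Alg k) (φ : A.R →ₐ[k] A.R) (S : Alg k) : KK A S →ₗ[ℂ] KK A S :=
  if h : Bijective φ then pullL φ (RingHom.Flat.of_bijective h) S else 0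

theorem Obj.aut_op (X : Obj k) (g : X.G) (S : Alg k) : X.aut g S = op X.A (X.act g) S := by
  rw [op, dif_pos (hom_bij X.act g)]
  rfl

theorem op_mul {A : Alg k} {φ ψ : A.R →ₐ[k] A.R} (h : Bijective φ) (h' : Bijective ψ) (S : Alg k)
    (x) : op A (φ * ψ) S x = op A φ S (op A ψ S x) := by
  have e : mapL (φ * ψ) S = (mapL φ S).comp (mapL ψ S) := by rw [mapL_comp]; rfl
  rw [op, op, op, dif_pos h, dif_pos h', dif_pos (show Bijective (φ * ψ) from h.comp h'), pullL,
    pullL, pullL, pull_pull]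
  exact LinearMap.congr_fun (pull_congr _ _ e) x

theorem op_one (A S : Alg k) (x) : op A 1 S x = x :=
  (LinearMap.congr_fun ((Obj.triv A).aut_op 1 S) x).symm.trans ((Obj.triv A).aut_one S x)

theorem Obj.mem_Phi_gen (X : Obj k) {H : Type} (ι : H → X.G) (t : X.G)
    (h : ∀ g, ∃ (a : H) (n : ℕ), g = ι a * t ^ n) (S : Alg k) {x : KK X.A S}
    (h1 : ∀ a, X.aut (ι a) S x = X.χ (ι a) • x) (h2 : X.aut t S x = X.χ t • x) :
    x ∈ X.Phi S := fun g => by
  obtain ⟨a, n, rfl⟩ := h g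
  have : X.aut (t ^ n) S x = X.χ (t ^ n) • x := by
    induction n with
    | zero => rw [pow_zero, X.aut_one, map_one, one_smul]
    | succ n ih => rw [pow_succ, X.aut_mul, h2, map_smul, ih, smul_smul, map_mul, mul_comm]
  rw [X.aut_mul, this, map_smul, h1, smul_smul, map_mul, mul_comm]

variable {A : Alg k} {G G' H : Type} [Group G] [Fintype G] [Group G'] [Fintype G']
  {a : G →* (A.R →ₐ[k] A.R)} {a' : G' →* (A.R →ₐ[k] A.R)} {χ : G →* ℂ} {χ' : G' →* ℂ}
  (ι : H → G) (ι' : H → G') (h1 : ∀ h, a (ι h) = a' (ι' h)) (h2 : ∀ h, χ (ι h) = χ' (ι' h))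
  (t : G) (hG : ∀ g, ∃ (h : H) (n : ℕ), g = ι h * t ^ n) (c1 : ∀ h, ι h * t = t * ι h)
  (t2 : a t * a t = 1)

include h1 h2 hG c1 t2

/-- from the invariants of an involution to an eigenspace of an element of order three. -/
theorem ge_anti (ht : χ t = 1) (g : G') (c2 : ∀ h, ι' h * g = g * ι' h) (g3 : g ^ 3 = 1) (n : G')
    (hn : χ' n = -1)
    (r : a' g * a t * a' g * a' g * a t = a t * a' g * a t * a' g * a' g * a' n) :
    Ge ⟨A, G, a, χ⟩ ⟨A, G', a', χ'⟩ := by
  refine Ge.of_same ⟨A, G, a, χ⟩ G' a' χ' fun S y hy => ?_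
  let X : Obj k := ⟨A, G, a, χ⟩
  let Y : Obj k := ⟨A, G', a', χ'⟩
  have e1 (h) : X.aut (ι h) S = Y.aut (ι' h) S := by
    rw [X.aut_op, Y.aut_op]
    exact congrArg (op A · S) (h1 h)
  let W : Submodule ℂ (KK A S) := ⨅ h, LinearMap.eqLocus (X.aut (ι h) S) (χ (ι h) • LinearMap.id)
  have hW {v} : v ∈ W ↔ ∀ h, X.aut (ι h) S v = χ (ι h) • v := Submodule.mem_iInf _
  have b := hom_bij a t
  have b' := hom_bij a' g
  obtain ⟨x, x1, x2, x3⟩ := q_lin W (Y.aut g S) (X.aut t S)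
    (fun v hv => hW.2 fun h => by
      rw [e1, ← Y.aut_mul, c2, Y.aut_mul, ← e1, hW.1 hv, map_smul])
    (fun v hv => hW.2 fun h => by rw [← X.aut_mul, c1, X.aut_mul, hW.1 hv, map_smul])
    (fun v => by rw [← Y.aut_mul, ← Y.aut_mul, ← pow_three', g3, Y.aut_one])
    (fun v => by rw [X.aut_op, ← op_mul b b, t2, op_one])
    (hW.2 fun h => by rw [e1, h2]; exact hy _) (l := χ' g) (by rw [← map_pow, g3, map_one]) (hy g)
    (by
      have e : Y.aut n S y = -y := by rw [hy n]; change χ' n • y = _; rw [hn, neg_one_smul]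
      have m {φ ψ : A.R →ₐ[k] A.R} (h : Bijective φ) (h' : Bijective ψ) : Bijective (φ * ψ) :=
        h.comp h'
      have r' : op A _ S y = op A _ S y := congrArg (op A · S y) r
      rw [op_mul (m (m (m b' b) b') b') b, op_mul (m (m b' b) b') b', op_mul (m b' b) b',
        op_mul b' b, op_mul (m (m (m (m b b') b) b') b') (hom_bij a' n),
        op_mul (m (m (m b b') b) b') b', op_mul (m (m b b') b) b', op_mul (m b b') b,
        op_mul b b'] at r'
      rw [← map_neg, ← map_neg, ← map_neg, ← map_neg, ← map_neg, ← e, X.aut_op, Y.aut_op,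
        Y.aut_op]
      exact r')
  refine ⟨(1 / 2 : ℂ) • x, Submodule.smul_mem _ _ (X.mem_Phi_gen ι t hG S (hW.1 x1)
    (x2.trans (by change _ = χ t • x; rw [ht, one_smul]))), ?_⟩
  have p := congrArg (Y.proj S) x3
  have l3 : χ' g ^ 3 = 1 := by rw [← map_pow, g3, map_one]
  simp only [map_add, map_smul, Y.proj_aut, Y.proj_of_mem S hy, smul_smul] at p
  change Y.proj S x + (χ' g ^ 2 * χ' g) • Y.proj S x + (χ' g * (χ' g * χ' g)) • Y.proj S x = _ at p
  rw [← pow_succ, ← pow_three, l3, one_smul] at p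
  rw [map_smul]
  linear_combination (norm := module) (1 / 6 : ℂ) • p

/-- the odd part is everything if the even part vanishes. -/
theorem ge_odd (ht : χ t = -1) (ψ : G →* ℂ) (h3 : ∀ h, ψ (ι h) = χ (ι h))
    (h4 : ψ t = 1) (hV : Van ⟨A, G, a, ψ⟩) : Ge ⟨A, G, a, χ⟩ ⟨A, G', a', χ'⟩ := by
  refine Ge.of_same ⟨A, G, a, χ⟩ G' a' χ' fun S y hy => ⟨y, ?_, Obj.proj_of_mem _ S hy⟩
  let X : Obj k := ⟨A, G, a, χ⟩
  let Y : Obj k := ⟨A, G', a', χ'⟩
  have e1 (h) : X.aut (ι h) S y = χ (ι h) • y := by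
    rw [X.aut_op, h2, ← show Y.aut (ι' h) S y = _ from hy _, Y.aut_op]
    exact congrArg (op A · S y) (h1 h)
  have b := hom_bij a t
  have e2 : X.aut t S (X.aut t S y) = y := by rw [X.aut_op, ← op_mul b b, t2, op_one]
  have z : y + X.aut t S y ∈ (⟨A, G, a, ψ⟩ : Obj k).Phi S :=
    Obj.mem_Phi_gen ⟨A, G, a, ψ⟩ ι t hG S (fun h => by
      change X.aut (ι h) S _ = ψ (ι h) • _
      rw [map_add, ← X.aut_mul, c1, X.aut_mul, e1, map_smul, h3, smul_add]) (by
      change X.aut t S _ = ψ t • _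
      rw [map_add, e2, h4, one_smul, add_comm])
  rw [hV S, Submodule.mem_bot] at z
  refine X.mem_Phi_gen ι t hG S e1 ?_
  change _ = χ t • y
  rw [ht, neg_one_smul]
  exact eq_neg_of_add_eq_zero_right z

variable (p : ℕ) [Fact p.Prime] [CharP k p] {f : A.R} (hf : ∀ g, a g f = f)
  (hf' : ∀ g, a' g f = f)

omit h1 h2 hG c1 t2 [CharP k p] [Fact p.Prime] in
theorem as_ext {B : Type} [CommRing B] [Algebra k B] {u v : AdjoinRoot (asP p f) →ₐ[k] B}
    (h : ∀ x, u (AdjoinRoot.of _ x) = v (AdjoinRoot.of _ x))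
    (h' : u (AdjoinRoot.root _) = v (AdjoinRoot.root _)) : u = v :=
  AdjoinRoot.algHom_ext' (AlgHom.ext h) h'

omit h1 h2 hG c1 t2 in
/-- the lifted action. -/
noncomputable def asH : G × Multiplicative (ZMod p) →*
    (AdjoinRoot (asP p f) →ₐ[k] AdjoinRoot (asP p f)) := asAct p ⟨A, G, a, 1⟩ f hf

omit h1 h2 hG c1 t2 in
theorem asH_of (g) (x : A.R) :
    asH p hf g (AdjoinRoot.of _ x) = AdjoinRoot.of _ (a g.1 x) := asAct_of p ⟨A, G, a, 1⟩ f hf g x

omit h1 h2 hG c1 t2 in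
theorem asH_root (g) : asH p hf g (AdjoinRoot.root _) =
    AdjoinRoot.root _ + algebraMap k _ (ZMod.castHom (dvd_refl p) k g.2.toAdd) :=
  asAct_root p ⟨A, G, a, 1⟩ f hf g

theorem ge_anti_as (ht : χ t = 1) (g : G') (c2 : ∀ h, ι' h * g = g * ι' h) (g3 : g ^ 3 = 1)
    (n : G') (hn : χ' n = -1)
    (r : a' g * a t * a' g * a' g * a t = a t * a' g * a t * a' g * a' g * a' n) :
    Ge ((⟨A, G, a, χ⟩ : Obj k).as p f hf) ((⟨A, G', a', χ'⟩ : Obj k).as p f hf') := by
  refine ge_anti (A := ⟨AdjoinRoot (asP p f)⟩) (a := asH p hf) (a' := asH p hf')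
    (H := H × Multiplicative (ZMod p)) (fun h => (ι h.1, h.2))
    (fun h => (ι' h.1, h.2)) (fun h => as_ext p (fun x => ?_) ?_) (fun h => by simp [h2]) (t, 1)
    (fun g => ?_) (fun h => Prod.ext (c1 _) (by simp)) (as_ext p (fun x => ?_) ?_) (by simp [ht])
    (g, 1) (fun h => Prod.ext (c2 _) (by simp)) (Prod.ext g3 (by simp)) (n, 1) (by simp [hn])
    (as_ext p (fun x => ?_) ?_)
  · simp only [asH_of, h1]
  · simp only [asH_root]
  · obtain ⟨h, n, e⟩ := hG g.1
    exact ⟨(h, g.2), n, Prod.ext e (by simp)⟩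
  · simp only [AlgHom.mul_apply, asH_of]
    exact congrArg _ (DFunLike.congr_fun t2 x)
  · simp [asH_root]
  · simp only [AlgHom.mul_apply, asH_of]
    exact congrArg _ (DFunLike.congr_fun r x)
  · simp [asH_root]

theorem ge_odd_as (ht : χ t = -1) (ψ : G →* ℂ) (h3 : ∀ h, ψ (ι h) = χ (ι h)) (h4 : ψ t = 1)
    (hV : Van ((⟨A, G, a, ψ⟩ : Obj k).as p f hf)) :
    Ge ((⟨A, G, a, χ⟩ : Obj k).as p f hf) ((⟨A, G', a', χ'⟩ : Obj k).as p f hf') := by
  refine ge_odd (A := ⟨AdjoinRoot (asP p f)⟩) (a := asH p hf) (a' := asH p hf')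
    (H := H × Multiplicative (ZMod p)) (fun h => (ι h.1, h.2))
    (fun h => (ι' h.1, h.2)) (fun h => as_ext p (fun x => ?_) ?_) (fun h => by simp [h2]) (t, 1)
    (fun g => ?_) (fun h => Prod.ext (c1 _) (by simp)) (as_ext p (fun x => ?_) ?_) (by simp [ht])
    _ (fun h => by simp [h3]) (by simp [h4]) hV
  · simp only [asH_of, h1]
  · simp only [asH_root]
  · obtain ⟨h, n, e⟩ := hG g.1
    exact ⟨(h, g.2), n, Prod.ext e (by simp)⟩
  · simp only [AlgHom.mul_apply, asH_of]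
    exact congrArg _ (DFunLike.congr_fun t2 x)
  · simp [asH_root]

end Pool.Agent.Lib.MP_40dc3c_ag.T
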