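import Pool.Agent.Lib.MP_40dc3c_ag.T.Q1

/-! The binary quartic with tetrahedral symmetry in two systems of coordinates. -/

namespace Pool.Agent.Lib.MP_40dc3c_ag.T

open Function MvPolynomial

variable {k : Type} [Field k]

/-- a diagonal substitution. -/
noncomputable def sc2 (c d : k) : MvPolynomial (Fin 2) k →ₐ[k] MvPolynomial (Fin 2) k :=
  aeval ![c • X 0, d • X 1]

@[simp] theorem sc2_X0 (c d : k) : sc2 c d (X 0) = c • X 0 := by simp [sc2]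

@[simp] theorem sc2_X1 (c d : k) : sc2 c d (X 1) = d • X 1 := by simp [sc2]

theorem ext2 {B : Type} [CommRing B] [Algebra k B] {u v : MvPolynomial (Fin 2) k →ₐ[k] B}
    (h : u (X 0) = v (X 0)) (h' : u (X 1) = v (X 1)) : u = v :=
  algHom_ext (Fin.forall_fin_two.2 ⟨h, h'⟩)

theorem q_const [IsAlgClosed k] (h2 : (2 : k) ≠ 0) (h3 : (3 : k) ≠ 0) : ∃ r β γ b : k,
    r ^ 2 = 3 ∧ β ≠ 0 ∧ γ ≠ 0 ∧ 144 * γ ^ 4 = -(6 * r + 9) ∧ 16 * (b * γ ^ 2 * β ^ 2) = 1 ∧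
      144 * ((b ^ 2 + 1) * β ^ 4) = 6 * r - 9 := by
  have h144 : (144 : k) ≠ 0 := by
    rw [show (144 : k) = 2 ^ 4 * 3 ^ 2 by norm_num]
    exact mul_ne_zero (pow_ne_zero _ h2) (pow_ne_zero _ h3)
  have h16 : (16 : k) ≠ 0 := by
    rw [show (16 : k) = 2 ^ 4 by norm_num]
    exact pow_ne_zero _ h2
  obtain ⟨r, hr⟩ := IsAlgClosed.exists_pow_nat_eq (3 : k) two_pos
  obtain ⟨γ, hγ⟩ := IsAlgClosed.exists_pow_nat_eq (-(6 * r + 9) / 144 : k) four_pos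
  have e1 : 144 * γ ^ 4 = -(6 * r + 9) := by rw [hγ, mul_div_cancel₀ _ h144]
  have g0 : γ ≠ 0 := by
    rintro rfl
    refine pow_ne_zero 3 h3 ?_
    linear_combination (6 * r - 9) * e1 - 36 * hr
  obtain ⟨β, hβ⟩ := IsAlgClosed.exists_pow_nat_eq ((6 * r - 9) / 144 - (16 * γ ^ 2)⁻¹ ^ 2) four_pos
  have i1 : 16 * γ ^ 2 * (16 * γ ^ 2)⁻¹ = 1 := mul_inv_cancel₀ (mul_ne_zero h16 (pow_ne_zero _ g0))
  have i2 : 144 * ((6 * r - 9) / 144) = 6 * r - 9 := mul_div_cancel₀ _ h144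
  generalize (16 * γ ^ 2)⁻¹ = u at hβ i1
  generalize (6 * r - 9) / 144 = v at hβ i2
  have b0 : β ≠ 0 := by
    rintro rfl
    refine mul_ne_zero h144 (mul_ne_zero h144 (mul_ne_zero h2 h2)) (mul_right_cancel₀ h3
      (mul_right_cancel₀ h3 (mul_right_cancel₀ h3 ?_)))
    have a1 : 256 * γ ^ 4 * v = 1 := by
      linear_combination (16 * γ ^ 2 * u + 1) * i1 - 256 * γ ^ 4 * hβ
    linear_combination (-81 * 144 * 144) * a1 + (81 * 256 * 144 * v) * e1 -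
      81 * 256 * (6 * r + 9) * i2 - 81 * 256 * 36 * hr
  refine ⟨r, β, γ, u * (β ^ 2)⁻¹, hr, b0, g0, e1, ?_, ?_⟩
  · field_simp
    linear_combination i1
  · field_simp
    linear_combination 144 * hβ + i2

theorem q_coord [IsAlgClosed k] (h2 : (2 : k) ≠ 0) (h3 : (3 : k) ≠ 0) :
    ∃ (L L' : MvPolynomial (Fin 2) k →ₐ[k] MvPolynomial (Fin 2) k) (b r : k),
      L * L' = 1 ∧ L' * L = 1 ∧ L ((X 1 ^ 2 + b • X 0 ^ 2) ^ 2 + X 0 ^ 4) = X 0 ^ 3 * X 1 + X 1 ^ 4 ∧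
      (∀ c, L * sc2 c c * L' = sc2 c c) ∧
      L (sc2 1 (-1) (L' (X 0))) = r⁻¹ • ((2 : k) • X 1 - X 0) ∧
      L (sc2 1 (-1) (L' (X 1))) = r⁻¹ • (X 0 + X 1) := by
  obtain ⟨r, β, γ, b, hr, b0, g0, e1, e2, e3⟩ := q_const h2 h3
  have r0 : r ≠ 0 := by
    rintro rfl
    exact h3 (by rw [← hr]; ring)
  refine ⟨aeval ![β • (X 0 + (1 + r) • X 1), γ • (X 0 + (1 - r) • X 1)],
    aeval ![(2 * r)⁻¹ • ((r - 1) • β⁻¹ • X 0 + (r + 1) • γ⁻¹ • X 1),
      (2 * r)⁻¹ • (β⁻¹ • X 0 - γ⁻¹ • X 1)], b, r, ext2 ?_ ?_, ext2 ?_ ?_, ?_,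
    fun c => ext2 ?_ ?_, ?_, ?_⟩
  pick_goal 5
  · have h144 : (144 : MvPolynomial (Fin 2) k) ≠ 0 := by
      rw [show (144 : MvPolynomial (Fin 2) k) = C (2 ^ 4 * 3 ^ 2) by
        simp only [map_mul, map_pow, map_ofNat]; norm_num]
      exact C_ne_zero.2 (mul_ne_zero (pow_ne_zero _ h2) (pow_ne_zero _ h3))
    have f0 := congrArg (C : k →+* MvPolynomial (Fin 2) k) hr
    have f1 := congrArg (C : k →+* MvPolynomial (Fin 2) k) e1
    have f2 := congrArg (C : k →+* MvPolynomial (Fin 2) k) e2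
    have f3 := congrArg (C : k →+* MvPolynomial (Fin 2) k) e3
    simp only [map_mul, map_pow, map_ofNat, map_neg, map_add, map_sub, map_one] at f0 f1 f2 f3
    simp only [map_add, map_pow, aeval_X, Matrix.cons_val_zero, Matrix.cons_val_one,
      smul_eq_C_mul, map_sub, map_one, map_mul, algHom_C, algebraMap_eq]
    refine mul_left_cancel₀ h144 ?_
    linear_combination (X 0 + (1 - C r) * X 1) ^ 4 * f1 +
      18 * (X 0 + (1 - C r) * X 1) ^ 2 * (X 0 + (1 + C r) * X 1) ^ 2 * f2 +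
      (X 0 + (1 + C r) * X 1) ^ 4 * f3 +
      48 * (X 0 * X 1 ^ 3 * C r ^ 2 + X 1 ^ 4 * C r ^ 2 + X 0 ^ 3 * X 1 + X 1 ^ 4) * f0
  all_goals
    simp only [AlgHom.mul_apply, AlgHom.one_apply, map_add, map_sub, map_smul, aeval_X, sc2_X0,
      sc2_X1, Matrix.cons_val_zero, Matrix.cons_val_one]
    match_scalars <;> field_simp <;> first | ring1 | linear_combination 2 * hr

/-- the relation between the involution and the element of order three. -/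
theorem q_rel {r w : k} (hw : w ^ 2 + w + 1 = 0)
    {T : MvPolynomial (Fin 2) k →ₐ[k] MvPolynomial (Fin 2) k}
    (h0 : T (X 0) = r⁻¹ • ((2 : k) • X 1 - X 0)) (h1 : T (X 1) = r⁻¹ • (X 0 + X 1)) :
    sc2 w 1 * T * sc2 w 1 * sc2 w 1 * T = T * sc2 w 1 * T * sc2 w 1 * sc2 w 1 * sc2 (-1) (-1) := by
  refine ext2 ?_ ?_
  all_goals
    simp only [AlgHom.mul_apply, map_add, map_sub, map_smul, sc2_X0, sc2_X1, h0, h1]
    match_scalars
    all_goals first | linear_combination r⁻¹ ^ 2 * 2 * w * hw |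
      linear_combination r⁻¹ ^ 2 * 2 * (1 - w) * hw | linear_combination r⁻¹ ^ 2 * 2 * hw |
      linear_combination r⁻¹ ^ 2 * (1 - w) * hw

/-- conjugation of an action. -/
def cjAct {G M : Type} [Group G] [Monoid M] {L L' : M} (h : L * L' = 1) (h' : L' * L = 1)
    (a : G →* M) : G →* M where
  toFun g := L * a g * L'
  map_one' := by rw [map_one, mul_one, h]
  map_mul' g g' := by
    rw [map_mul, mul_assoc _ L', ← mul_assoc L', ← mul_assoc L', h', one_mul]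
    simp only [mul_assoc]

theorem sc2_mul (a b c d : k) : sc2 a b * sc2 c d = sc2 (c * a) (d * b) :=
  ext2 (by simp [smul_smul]) (by simp [smul_smul])

theorem sc2_one : sc2 (1 : k) 1 = 1 := ext2 (by simp) (by simp)

/-- a diagonal action on the plane. -/
noncomputable def dg2 {G : Type} [Group G] (u v : G →* k) :
    G →* (MvPolynomial (Fin 2) k →ₐ[k] MvPolynomial (Fin 2) k) where
  toFun g := sc2 (u g) (v g)
  map_one' := by rw [map_one, map_one, sc2_one]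
  map_mul' g h := by rw [map_mul, map_mul, sc2_mul, mul_comm (u g), mul_comm (v g)]

theorem dg2_eq {G : Type} [Group G] (u v : G →* k) (g : G) : dg2 u v g = sc2 (u g) (v g) := rfl

theorem kum_sq : Kum (aeval ![X 0 ^ 2, X 1] : MvPolynomial (Fin 2) k →ₐ[k] MvPolynomial (Fin 2) k)
    2 (X 0) (X 0) :=
  ⟨by simp, fun _ _ _ v v' h h' => ext2 h' (by simpa using DFunLike.congr_fun h (X 1)),
    fun _ _ _ u z hz => ⟨aeval ![z, u (X 1)], ext2 (by simp [hz]) (by simp), by simp⟩⟩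

theorem kum_cov (b : k) : Kum (aeval ![X 1 ^ 2 + b • X 0 ^ 2, X 0] :
    MvPolynomial (Fin 2) k →ₐ[k] MvPolynomial (Fin 2) k) 2 (X 0 - b • X 1 ^ 2) (X 1) :=
  ⟨by simp, fun _ _ _ v v' h h' => ext2 (by simpa using DFunLike.congr_fun h (X 1)) h',
    fun _ _ _ u z hz => ⟨aeval ![u (X 1), z], ext2 (by simp [hz]) (by simp), by simp⟩⟩

/-- the cover of the torus given by `y = u ^ 4 / w`, `z = w ^ 3`. -/
theorem kum_tor {A B : Type} [CommRing A] [CommRing B] [Algebra k A] [Algebra k B]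
    {y : Fin 2 → A} {x : Fin 2 → B} (hA : Pres k y fun _ _ z => IsUnit (z 0 * z 1))
    (hB : Pres k x fun _ _ z => IsUnit (z 0 * z 1)) : ∃ φ : A →ₐ[k] B,
      φ (y 0) * x 1 = x 0 ^ 4 ∧ φ (y 1) = x 1 ^ 3 ∧ Kum φ 12 (y 0 ^ 3 * y 1) (x 0) := by
  obtain ⟨u0, u1⟩ := IsUnit.mul_iff.1 hB.self
  obtain ⟨w, hw⟩ := u1.exists_left_inv
  obtain ⟨φ, hφ⟩ := hA.lift B ![x 0 ^ 4 * w, x 1 ^ 3]
    (((u0.pow 4).mul (IsUnit.of_mul_eq_one _ hw)).mul (u1.pow 3))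
  have e1 : φ (y 1) = x 1 ^ 3 := hφ 1
  have e0 : φ (y 0) * x 1 = x 0 ^ 4 := by
    rw [show φ (y 0) = x 0 ^ 4 * w from hφ 0, mul_assoc, hw, mul_one]
  have uy := (IsUnit.mul_iff.1 hA.self).1
  refine ⟨φ, e0, e1, by rw [map_mul, map_pow, e1, ← mul_pow, e0, ← pow_mul],
    fun T _ _ v v' h h' => hB.ext _ _ _ (Fin.forall_fin_two.2 ⟨h', ?_⟩), fun T _ _ u z hz => ?_⟩
  · refine ((uy.map φ).map v).mul_left_cancel ?_
    rw [← map_mul, e0, show v (φ (y 0)) = v' (φ (y 0)) from DFunLike.congr_fun h _, ← map_mul, e0,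
      map_pow, map_pow, h']
  · obtain ⟨s, hs⟩ := (uy.map u).exists_right_inv
    have uz : IsUnit z := (isUnit_pow_iff (by norm_num)).1
      (hz ▸ ((uy.pow 3).mul (IsUnit.mul_iff.1 hA.self).2).map u)
    have us : IsUnit s := IsUnit.of_mul_eq_one_right _ hs
    obtain ⟨v, hv⟩ := hB.lift T ![z, z ^ 4 * s] (uz.mul ((uz.pow 4).mul us))
    have v0 : v (x 0) = z := hv 0
    have v1 : v (x 1) = z ^ 4 * s := hv 1
    refine ⟨v, hA.ext _ _ _ (Fin.forall_fin_two.2 ⟨?_, ?_⟩), v0⟩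
    · refine ((uz.pow 4).mul us).mul_right_cancel ?_
      rw [AlgHom.comp_apply, ← v1, ← map_mul, e0, map_pow, v0, v1]
      linear_combination (-z ^ 4) * hs
    · rw [map_mul, map_pow] at hz
      rw [AlgHom.comp_apply, e1, map_pow, v1]
      linear_combination s ^ 3 * hz +
        u (y 1) * ((u (y 0) * s) ^ 2 + u (y 0) * s + 1) * hs

end Pool.Agent.Lib.MP_40dc3c_ag.T
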