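import Pool.Agent.Lib.MP_40dc3c_ag.T.Q2
import Pool.Agent.Lib.MP_40dc3c_ag.T.B6a

/-! The exceptional relation of level twelve between Gauss objects. -/

namespace Pool.Agent.Lib.MP_40dc3c_ag.T

open Function MvPolynomial

variable {k : Type} [Field k]

/-- the value of a root of unity. -/
def rv (k : Type) [Field k] (m : ℕ) : rootsOfUnity m k →* k :=
  (Units.coeHom k).comp (rootsOfUnity m k).subtype

theorem rv_pow {m : ℕ} (ζ : rootsOfUnity m k) : rv k m ζ ^ m = 1 := (mem_rootsOfUnity' _ _).1 ζ.2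

theorem rv_inj {m : ℕ} : Injective (rv k m) := fun _ _ h => Subtype.ext (Units.ext h)

/-- the plane with a diagonal action. -/
@[reducible] noncomputable def pln (G : Type) [Group G] [Fintype G] (u v : G →* k) (χ : G →* ℂ) :
    Obj k := ⟨⟨MvPolynomial (Fin 2) k⟩, G, dg2 u v, χ⟩

/-- an equivariant map to the plane. -/
@[reducible] noncomputable def plnE {G : Type} [Group G] [Fintype G] {u v : G →* k} {χ : G →* ℂ}
    {Y : Obj k} (φ : MvPolynomial (Fin 2) k →ₐ[k] Y.A.R) (π : Y.G →* G)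
    (h0 : ∀ g, Y.act g (φ (X 0)) = u (π g) • φ (X 0))
    (h1 : ∀ g, Y.act g (φ (X 1)) = v (π g) • φ (X 1)) (hc : ∀ g, Y.χ g = χ (π g)) :
    Eqv (pln G u v χ) Y where
  φ := φ
  π := π
  comm g a := DFunLike.congr_fun (ext2 (u := φ.comp (sc2 (u (π g)) (v (π g))))
    (v := (Y.act g).comp φ) (by simp [h0]) (by simp [h1])) a
  chi := hc

variable (k) in
/-- the first coordinate. -/
def rv1 : rootsOfUnity 4 k × rootsOfUnity 4 k →* k := (rv k 4).comp (MonoidHom.fst _ _)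

variable (k) in
/-- the second coordinate. -/
def rv2 : rootsOfUnity 4 k × rootsOfUnity 4 k →* k := (rv k 4).comp (MonoidHom.snd _ _)

@[simp] theorem rv1_apply (g) : rv1 k g = rv k 4 g.1 := rfl

@[simp] theorem rv2_apply (g) : rv2 k g = rv k 4 g.2 := rfl

theorem q_invY (g) : dg2 ((rv1 k * rv2 k) ^ 2) (rv1 k) g (X 0 ^ 2 + X 1 ^ 4) = X 0 ^ 2 + X 1 ^ 4 := by
  have a := rv_pow g.1
  have b := rv_pow g.2
  simp only [dg2_eq, map_add, map_pow, sc2_X0, sc2_X1, smul_pow, MonoidHom.pow_apply,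
    MonoidHom.mul_apply, rv1_apply, rv2_apply, ← pow_mul, mul_pow, a, b, one_mul, one_smul]

theorem q_invS (g) : dg2 (rv k 4 ^ 2) (rv k 4) g (X 0 ^ 2 + X 1 ^ 4) = X 0 ^ 2 + X 1 ^ 4 := by
  have a := rv_pow g
  simp only [dg2_eq, map_add, map_pow, sc2_X0, sc2_X1, smul_pow, MonoidHom.pow_apply,
    ← pow_mul, a, one_smul]

theorem q_cov (b : k) (g) : dg2 (rv1 k) (rv1 k * rv2 k ^ 2) g (X 1 ^ 2 + b • X 0 ^ 2) =
    rv k 4 g.1 ^ 2 • (X 1 ^ 2 + b • X 0 ^ 2) := by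
  have a := rv_pow g.2
  simp only [dg2_eq, map_add, map_pow, map_smul, sc2_X0, sc2_X1, smul_pow, MonoidHom.pow_apply,
    MonoidHom.mul_apply, rv1_apply, rv2_apply, ← pow_mul, mul_pow, a, mul_one, smul_add,
    smul_comm b]

theorem q_invZ (b : k) (g) : dg2 (rv1 k) (rv1 k * rv2 k ^ 2) g
    ((X 1 ^ 2 + b • X 0 ^ 2) ^ 2 + X 0 ^ 4) = (X 1 ^ 2 + b • X 0 ^ 2) ^ 2 + X 0 ^ 4 := by
  have a := rv_pow g.1
  rw [map_add, map_pow, q_cov]
  simp only [dg2_eq, map_pow, sc2_X0, smul_pow, rv1_apply, ← pow_mul, a, one_smul]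

theorem q_invH (g) : dg2 (rv k 12) (rv k 12 ^ 9) g (X 0 ^ 3 * X 1 + X 1 ^ 4) =
    X 0 ^ 3 * X 1 + X 1 ^ 4 := by
  have a := rv_pow g
  have b : rv k 12 g ^ (9 * 4) = 1 := by rw [show 9 * 4 = 12 * 3 from rfl, pow_mul, a, one_pow]
  simp only [dg2_eq, map_add, map_mul, map_pow, sc2_X0, sc2_X1, smul_pow, MonoidHom.pow_apply,
    ← pow_mul, smul_mul_smul_comm, ← pow_add, a, b, one_smul]

variable (ω : kˣ →* ℂˣ)

theorem chi_of_neg (hω : Injective ω) (h2 : (2 : k) ≠ 0) {m : ℕ} {ζ : rootsOfUnity m k}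
    (h : rv k m ζ = -1) {c : ℤ} (hc : Odd c) : chi ω m c ζ = -1 := by
  have e : ζ.1 = -1 := Units.ext h
  have a : ω (-1) = -1 := by
    refine ((Units.inv_eq_self_iff _).1 ?_).resolve_left fun h => ?_
    · rw [← map_inv, inv_neg_one]
    · have := congrArg Units.val ((map_eq_one_iff ω hω).1 h)
      exact h2 (by simp only [Units.val_neg, Units.val_one] at this; linear_combination -this)
  rw [chi_apply, e, a, Units.val_neg, Units.val_one, hc.neg_one_zpow]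

variable [IsAlgClosed k] (p : ℕ) [Fact p.Prime] [CharP k p] [Fintype (rootsOfUnity 4 k)]

omit [IsAlgClosed k] in
theorem q_stepA (a b : ℤ) : Ge (gau ω p (Fin 2) 4 ![b, a - b])
    ((pln _ ((rv1 k * rv2 k) ^ 2) (rv1 k) ((chi ω 4 a).coprod (chi ω 4 b))).as p _ q_invY) := by
  let E : Eqv (pln _ ((rv1 k * rv2 k) ^ 2) (rv1 k) ((chi ω 4 a).coprod (chi ω 4 b)))
      (aff ω (Fin 2) 4 ![b, a - b]) :=
    plnE (aeval ![X 0 ^ 2, X 1])
      { toFun := fun g => (g 1, g 0 / g 1)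
        map_one' := Prod.ext rfl (div_self' _)
        map_mul' := fun _ _ => Prod.ext rfl (mul_div_mul_comm _ _ _ _) }
      (fun g => by
        simp [rv, smul_eq_C_mul, mul_pow]
        rw [← mul_pow, ← map_mul, mul_div_cancel₀ _ (Units.ne_zero _)])
      (fun g => by simp [rv, smul_eq_C_mul])
      fun g => by
        have : ((ω (g 1).1 : ℂˣ) : ℂ) ≠ 0 := Units.ne_zero _
        change chis ω 4 _ g = chi ω 4 a (g 1) * chi ω 4 b (g 0 / g 1)
        simp only [chis_apply, Fin.prod_univ_two, chi_apply, Matrix.cons_val_zero,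
          Matrix.cons_val_one, map_div, zpow_sub₀ this]
        ring
  have K : Kum E.φ 2 (X 0) (X 0) := kum_sq
  refine E.as_push p _ (aff_inv _ 4) ?_ K.ff.1 fun Ω _ _ _ u => ?_
  · change aeval ![X 0 ^ 2, X 1] (X 0 ^ 2 + X 1 ^ 4 : MvPolynomial (Fin 2) k) = _
    simp [Fin.sum_univ_two, ← pow_mul]
  · obtain ⟨v, hv⟩ := K.surj Ω u
    exact ⟨1, v, by rw [hv, map_one]; rfl⟩

omit [IsAlgClosed k] [Fintype (rootsOfUnity 4 k)] in
theorem q_gen {j : rootsOfUnity 4 k} (hj : IsPrimitiveRoot j.1 4)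
    (g : rootsOfUnity 4 k × rootsOfUnity 4 k) : ∃ (h : rootsOfUnity 4 k) (n : ℕ),
      g = (h, 1) * (1, j) ^ n := by
  obtain ⟨n, -, e⟩ := hj.eq_pow_of_mem_rootsOfUnity g.2.2
  exact ⟨g.1, n, Prod.ext (by simp) (Subtype.ext (by simp [e]))⟩

theorem q_stepB (hω : Injective ω) (h2 : (2 : k) ≠ 0) (hp : ¬p ∣ 4) {j : rootsOfUnity 4 k}
    (hj : IsPrimitiveRoot j.1 4) (j2 : rv k 4 j ^ 2 = -1) : Ge (gau ω p (Fin 2) 4 ![2, -1 - 2])
      ((pln _ (rv k 4 ^ 2) (rv k 4) (chi ω 4 (-1))).as p _ q_invS) := by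
  refine (q_stepA ω p (-1) 2).trans (ge_odd_as (fun h => (h, 1)) id
    (fun h => by simp [dg2_eq]) (fun h => by simp) (1, j) (q_gen hj) (fun h => by simp)
    (by simp [dg2_eq, sc2_mul, j2, sc2_one]) p _ _ ?_ ((chi ω 4 (-1)).coprod (chi ω 4 0))
    (fun h => by simp) (by simp [chi_apply]) (Van.of_ge (Van.of_ge ((van_U_zero ω p 4 hp).ten _)
      (cls_eq.1 (b2_gau ω p 4 ![0, -1 - 0])).2) (q_stepA ω p (-1) 0)))
  have := chi_of_neg ω hω h2 (ζ := j ^ 2) (by rw [map_pow, j2]) odd_one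
  simp only [chi_apply, zpow_one, map_pow] at this
  simpa [chi_apply] using this

theorem q_stepC (b : k) {j : rootsOfUnity 4 k} (j2 : rv k 4 j ^ 2 = -1) :
    Ge ((pln _ (rv k 4 ^ 2) (rv k 4) (chi ω 4 (-1))).as p _ q_invS)
      ((pln _ (rv1 k) (rv1 k * rv2 k ^ 2) ((chi ω 4 (-1)).comp (MonoidHom.fst _ _))).as p _
        (q_invZ b)) := by
  let E : Eqv (pln _ (rv k 4 ^ 2) (rv k 4) (chi ω 4 (-1)))
      (pln _ (rv1 k) (rv1 k * rv2 k ^ 2) ((chi ω 4 (-1)).comp (MonoidHom.fst _ _))) :=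
    plnE (aeval ![X 1 ^ 2 + b • X 0 ^ 2, X 0]) (MonoidHom.fst _ _)
      (fun g => by rw [aeval_X]; exact q_cov b g) (fun g => by simp [dg2_eq]) fun _ => rfl
  have K : Kum E.φ 2 (X 0 - b • X 1 ^ 2) (X 1) := kum_cov b
  refine E.as_cover p _ _ ?_ K.ff.1 K.ff.2 Prod.fst_surjective (K.trans _ fun ζ => ?_)
  · change aeval ![X 1 ^ 2 + b • X 0 ^ 2, X 0] (X 0 ^ 2 + X 1 ^ 4 : MvPolynomial (Fin 2) k) = _
    simp
  · rcases sq_eq_one_iff.1 (rv_pow ζ) with h | h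
    · refine ⟨1, rfl, ?_⟩
      rw [map_one, show (ζ.1 : k) = 1 from h, map_one, one_mul]
      rfl
    · refine ⟨(1, j), rfl, ?_⟩
      rw [show (ζ.1 : k) = -1 from h]
      change dg2 _ _ _ (X 1 : MvPolynomial (Fin 2) k) = C (-1) * X 1
      simp [dg2_eq, j2]

end Pool.Agent.Lib.MP_40dc3c_ag.T
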