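import Pool.Agent.Lib.MP_40dc3c_ag.T.Q3

/-! The exceptional relation of level twelve between Gauss objects, concluded. -/

namespace Pool.Agent.Lib.MP_40dc3c_ag.T

open Function MvPolynomial

variable {k : Type} [Field k] (ω : kˣ →* ℂˣ)

theorem q_dvd (g) : dg2 (rv k 12) (rv k 12 ^ 9) g (X 0 * X 1) ∣ X 0 * X 1 := by
  have a := rv_pow g
  refine Dvd.intro (C (rv k 12 g ^ 2)) ?_
  simp only [dg2_eq, map_mul, sc2_X0, sc2_X1, MonoidHom.pow_apply, smul_eq_C_mul, map_pow]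
  have := congrArg (C : k →+* MvPolynomial (Fin 2) k) a
  rw [map_pow, map_one] at this
  linear_combination X 0 * X 1 * this

variable [IsAlgClosed k] (p : ℕ) [Fact p.Prime] [CharP k p]

theorem q_obj {O T : Obj k} {y : Fin 2 → O.A.R} {x : Fin 2 → T.A.R}
    (hA : Pres k y fun _ _ z => IsUnit (z 0 * z 1)) (hB : Pres k x fun _ _ z => IsUnit (z 0 * z 1))
    (π : T.G →* O.G) (hπ : Surjective π) (hχ : ∀ g, T.χ g = O.χ (π g)) {c d : T.G → Fin 2 → k}
    (hx : ∀ g i, T.act g (x i) = c g i • x i) (hy : ∀ g i, O.act (π g) (y i) = d g i • y i)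
    (h0 : ∀ g, c g 1 ≠ 0 ∧ d g 0 * c g 1 = c g 0 ^ 4 ∧ d g 1 = c g 1 ^ 3)
    (hζ : ∀ ζ : rootsOfUnity 12 k, ∃ g, π g = 1 ∧ c g 0 = ζ.1) {f : O.A.R}
    (hf : ∀ g, O.act g f = f) (ef : f = y 0 ^ 3 * y 1 + y 1 ^ 4) {f' : T.A.R}
    (hf' : ∀ g, T.act g f' = f') (ef' : f' = x 0 ^ 12 + x 1 ^ 12) :
    Ge (O.as p f hf) (T.as p f' hf') := by
  obtain ⟨φ, e0, e1, K⟩ := kum_tor hA hB
  let E : Eqv O T := ⟨φ, π, fun g a => DFunLike.congr_fun (hA.ext _ (φ.comp (O.act (π g)))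
    ((T.act g).comp φ) (Fin.forall_fin_two.2 ⟨by
      have := congrArg (T.act g) e0
      rw [map_mul, map_pow, hx, hx, smul_pow, ← (h0 g).2.1, ← e0] at this
      refine (IsUnit.mul_iff.1 hB.self).2.mul_right_cancel (smul_right_injective _ (h0 g).1 ?_)
      simp only [AlgHom.comp_apply, hy, map_smul, smul_mul_assoc, smul_smul]
      rw [mul_comm, ← this, mul_smul_comm], by
      simp only [AlgHom.comp_apply, hy, map_smul, e1, map_pow, hx, smul_pow, (h0 g).2.2]⟩)) a, hχ⟩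
  refine E.as_cover p hf hf' ?_ K.ff.1 K.ff.2 hπ (K.trans E fun ζ => ?_)
  · change φ f = f'
    rw [ef, ef', map_add, map_mul, map_pow, map_pow, e1, ← mul_pow, e0, ← pow_mul, ← pow_mul]
  · obtain ⟨g, h1, h2⟩ := hζ ζ
    exact ⟨g, h1, by rw [hx, h2, Algebra.smul_def]⟩

omit [IsAlgClosed k] in
theorem q_chi (a b : rootsOfUnity 12 k) :
    chi ω 12 (-4) a * chi ω 12 1 b = chi ω 12 (-1) (a ^ 4 / b) := by
  have e (c : ℤ) : chi ω 12 c a = ((ω a.1 : ℂˣ) : ℂ) ^ c := chi_apply ω 12 c a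
  rw [map_div, map_pow, e, e, chi_apply, chi_apply, zpow_one, zpow_neg_one, zpow_neg_one,
    div_inv_eq_mul, zpow_neg, inv_pow, zpow_ofNat]

/-- the map of groups of the cover. -/
def qpi (G : Type) [CommGroup G] : (Fin 2 → G) →* G where
  toFun g := g 0 ^ 4 / g 1
  map_one' := by simp
  map_mul' _ _ := by simp [mul_pow, mul_div_mul_comm]

variable [Fintype (rootsOfUnity 12 k)]

theorem q_stepF (hω : Injective ω) (hp : ¬p ∣ 12) :
    Ge ((pln _ (rv k 12) (rv k 12 ^ 9) (chi ω 12 (-1))).as p _ q_invH)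
      (gau ω p (Fin 2) 12 ![-4, 1]) := by
  let W : Obj k := pln _ (rv k 12) (rv k 12 ^ 9) (chi ω 12 (-1))
  have inv (g) : (W.away (X 0 * X 1) q_dvd).act g
      (algebraMap (MvPolynomial (Fin 2) k) _ (X 0 ^ 3 * X 1 + X 1 ^ 4)) =
      algebraMap (MvPolynomial (Fin 2) k) _ (X 0 ^ 3 * X 1 + X 1 ^ 4) :=
    (awayAct_algebraMap W _ q_dvd g _).trans (congrArg _ (q_invH g))
  refine ((Eqv.toAway W _ q_dvd).as_res p _ inv rfl (isAway_localization _) bijective_id).trans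
    ((q_obj p (O := W.away (X 0 * X 1) q_dvd) (T := tor ω (Fin 2) 12 ![-4, 1])
      (b2_pres_away _ _ fun _ _ _ z => by simp)
      (b2_pres_away _ _ fun _ _ _ z => by simp [Fin.prod_univ_two])
      (qpi (rootsOfUnity 12 k)) (fun g => ⟨![1, g⁻¹], ?_⟩) (fun g => ?_) (b2_act_away ω 12 _ _ _)
      (d := fun g => ![rv k 12 (g 0 ^ 4 / g 1), rv k 12 (g 0 ^ 4 / g 1) ^ 9])
      (fun g i => (awayAct_algebraMap W _ q_dvd _ _).trans ((congrArg _ ?_).trans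
        (map_smul (IsScalarTower.toAlgHom k (MvPolynomial (Fin 2) k) _) _ _)))
      (fun g => ⟨Units.ne_zero _, ?_, ?_⟩) (fun ζ => ⟨![ζ, ζ ^ 4], div_self' _, rfl⟩) inv
      (by rw [map_add, map_mul, map_pow, map_pow]) (tor_inv ω _ 12 _)
      (by rw [Fin.sum_univ_two, map_add, map_pow, map_pow])).trans
      (gauT_ge ω p hω _ 12 hp _ (by decide)))
  · change (1 : rootsOfUnity 12 k) ^ 4 / g⁻¹ = g
    simp
  · exact ((chis_apply ω 12 _ g).trans (Fin.prod_univ_two _)).trans (q_chi ω (g 0) (g 1))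
  · revert i
    exact Fin.forall_fin_two.2 ⟨sc2_X0 _ _, sc2_X1 _ _⟩
  · change rv k 12 (g 0 ^ 4 / g 1) * rv k 12 (g 1) = rv k 12 (g 0) ^ 4
    rw [← map_mul, div_mul_cancel, map_pow]
  · change rv k 12 (g 0 ^ 4 / g 1) ^ 9 = rv k 12 (g 1) ^ 3
    have e (a : rootsOfUnity 12 k) : a ^ 12 = 1 := rv_inj (by rw [map_pow, rv_pow, map_one])
    rw [← map_pow, ← map_pow, div_pow, ← pow_mul, show 4 * 9 = 12 * 3 from rfl, pow_mul, e, one_pow,
      eq_comm, eq_div_iff_mul_eq'.2 ((pow_add _ 3 9).symm.trans (e _))]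

variable [Fintype (rootsOfUnity 4 k)]

theorem q_stepE (hω : Injective ω) (h2 : (2 : k) ≠ 0) (h3 : (3 : k) ≠ 0) {j : rootsOfUnity 4 k}
    (hj : IsPrimitiveRoot j.1 4) (j2 : rv k 4 j ^ 2 = -1) {α n : rootsOfUnity 12 k}
    (hα : rv k 12 α ^ 2 + rv k 12 α + 1 = 0) (hn : rv k 12 n = -1) : ∃ b : k,
    Ge ((pln _ (rv1 k) (rv1 k * rv2 k ^ 2) ((chi ω 4 (-1)).comp (MonoidHom.fst _ _))).as p _
        (q_invZ b)) ((pln _ (rv k 12) (rv k 12 ^ 9) (chi ω 12 (-1))).as p _ q_invH) := by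
  obtain ⟨L, L', b, r, h, h', hP, hc, t0, t1⟩ := q_coord h2 h3
  have l' (x) : L' (L x) = x := DFunLike.congr_fun h' x
  have a3 : rv k 12 α ^ 3 = 1 := by linear_combination (rv k 12 α - 1) * hα
  have inv (g) : cjAct h h' (dg2 (rv1 k) (rv1 k * rv2 k ^ 2)) g (X 0 ^ 3 * X 1 + X 1 ^ 4) =
      X 0 ^ 3 * X 1 + X 1 ^ 4 := by
    change L (dg2 _ _ g (L' _)) = _
    rw [← hP, l', q_invZ]
  let E : Eqv (⟨⟨MvPolynomial (Fin 2) k⟩, _, cjAct h h' (dg2 (rv1 k) (rv1 k * rv2 k ^ 2)),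
      (chi ω 4 (-1)).comp (MonoidHom.fst _ _)⟩ : Obj k)
      (pln _ (rv1 k) (rv1 k * rv2 k ^ 2) ((chi ω 4 (-1)).comp (MonoidHom.fst _ _))) :=
    ⟨L', MonoidHom.id _, fun g a => l' _, fun _ => rfl⟩
  have ta : cjAct h h' (dg2 (rv1 k) (rv1 k * rv2 k ^ 2)) (1, j) = L * sc2 1 (-1) * L' := by
    change L * dg2 _ _ _ * L' = _
    simp [dg2_eq, j2]
  refine ⟨b, (E.as_iso p inv _ (by rw [← hP]; exact l' _) (bijective_iff_has_inverse.2
    ⟨L, fun x => DFunLike.congr_fun h x, l'⟩)).trans (ge_anti_as (fun h => (h, 1))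
      (Subgroup.inclusion (rootsOfUnity_le_of_dvd (by decide : 4 ∣ 12))) (fun g => ?_)
      (fun _ => rfl) (1, j) (q_gen hj) (fun h => by simp) ?_ p _ _ (by simp) α
      (fun _ => mul_comm _ _) (rv_inj (by rw [map_pow, a3, map_one])) n
      (chi_of_neg ω hω h2 hn (by decide)) ?_)⟩
  · have a := rv_pow g
    have a9 : rv k 4 g ^ 9 = rv k 4 g := by linear_combination (rv k 4 g ^ 5 + rv k 4 g) * a
    change L * dg2 _ _ _ * L' = sc2 (rv k 4 g) (rv k 4 g ^ 9)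
    rw [a9, ← hc]
    simp [dg2_eq]
  · rw [← map_mul, ← pow_two]
    change L * dg2 _ _ _ * L' = _
    simp [dg2_eq, ← pow_mul, rv_pow, sc2_one, h]
  · have a9 : rv k 12 α ^ 9 = 1 := by rw [show 9 = 3 * 3 from rfl, pow_mul, a3, one_pow]
    have n9 : (-1 : k) ^ 9 = -1 := by norm_num
    rw [ta]
    simp only [dg2_eq, MonoidHom.pow_apply, a9, hn, n9]
    exact q_rel hα t0 t1

omit [Fintype (rootsOfUnity 4 k)] [Fintype (rootsOfUnity 12 k)] in
/-- the exceptional relation. -/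
theorem cls_U_exc (hω : Injective ω) (hp : ¬p ∣ 12) :
    (U ω p 4 2).cls * (U ω p 4 (-3)).cls = (U ω p 12 (-4)).cls * (U ω p 12 1).cls := by
  have h12 : ((12 : ℕ) : k) ≠ 0 := by rwa [Ne, CharP.cast_eq_zero_iff k p]
  have h2 : (2 : k) ≠ 0 := fun h => h12 (by linear_combination (exp := 1) 6 * h)
  have h3 : (3 : k) ≠ 0 := fun h => h12 (by linear_combination (exp := 1) 4 * h)
  have hp4 : ¬p ∣ 4 := fun h => hp (h.trans (by decide))
  have : NeZero ((12 : ℕ) : k) := ⟨h12⟩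
  obtain ⟨z, hz⟩ := HasEnoughRootsOfUnity.exists_primitiveRoot k 12
  have z4 : IsPrimitiveRoot (z ^ 3) 4 := hz.pow (by decide) (by decide)
  have z3 : IsPrimitiveRoot (z ^ 4) 3 := hz.pow (by decide) (by decide)
  have z2 : z ^ 6 = -1 := (hz.pow (by decide) (by decide)).eq_neg_one_of_two_right
  let _ := Fintype.ofFinite (rootsOfUnity 4 k)
  let _ := Fintype.ofFinite (rootsOfUnity 12 k)
  have hj : IsPrimitiveRoot z4.toRootsOfUnity.1 4 := IsPrimitiveRoot.coe_units_iff.1 z4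
  have j2 : rv k 4 z4.toRootsOfUnity ^ 2 = -1 := by
    rw [← z2]
    exact (pow_mul z 3 2).symm
  obtain ⟨b, H⟩ := q_stepE ω p hω h2 h3 hj j2 (α := hz.toRootsOfUnity ^ 4)
    (n := hz.toRootsOfUnity ^ 6) (by
      have := z3.geom_sum_eq_zero (by decide)
      simp only [Finset.sum_range_succ, Finset.sum_range_zero] at this
      rw [map_pow]
      change (z ^ 4) ^ 2 + z ^ 4 + 1 = 0
      linear_combination this) (by rw [map_pow]; exact z2)
  have G := (q_stepB ω p hω h2 hp4 hj j2).trans ((q_stepC ω p b j2).trans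
    (H.trans (q_stepF ω p hω hp)))
  have G' := cge_iff.2 G
  rw [b2_gau, b2_gau, cls_ten, cls_ten] at G'
  exact G'.eq ((isUnit_U ω p hω 4 hp4 (by decide)).mul (isUnit_U ω p hω 4 hp4 (by decide)))
    ((isUnit_U ω p hω 12 hp (by decide)).mul (isUnit_U ω p hω 12 hp (by decide)))

end Pool.Agent.Lib.MP_40dc3c_ag.T
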