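import Pool.Agent.Lib.MP_40dc3c_ag.Fe.Abs

/-! The theorem on Tate tuples for an abstract system of symbols with the relation of level
twelve. -/

namespace Pool.Agent.Lib.MP_40dc3c_ag.Fe

open Finset

variable {p : ℕ} {B : Type} [AddCommGroup B] {g : ℚ → B} {L s : B}

/-- Tate tuples with harmless parities vanish in every abstract system of symbols. -/
theorem main_abs3 (H : Sys p g L s) (hp : p.Prime) (a : Multiset ℚ) (r : ℕ) (hr : a.card = 2 * r)
    (ha : Tate p a) (h : ∀ n : ℕ, Odd n → Squarefree n →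
      Even (a.countP fun x => x.den.primeFactors = n.primeFactors) ∨
      ((∃ v, n ∣ p ^ v + 1) ∧ (n ≠ 1 → g (1 / n) = s)) ∨
      (n = 3 ∧ p ≠ 2 ∧ g (2 / 3) + (g (1 / 12) + (g (3 / 4) + g (1 / 2))) = 2 • L) ∨
      ∃ χ : DirichletCharacter ℂ n, χ.IsPrimitive ∧ χ.Odd ∧ (∃ k, χ ^ 2 ^ k = 1) ∧ χ p = 1 ∧
        (χ 2 = 1 ∨ ∀ x ∈ a, ¬4 ∣ x.den) ∧
        ∀ x ∈ a, ∀ l : ℕ, l.Prime → l ∣ x.den → ¬l ∣ 2 * n → χ l = 1) :
    (a.map g).sum = r • L := by
  classical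
  obtain ⟨a1, a2, N, a3, a4⟩ := ha.tors hp
  set c : ℕ → ℕ := fun n => a.countP fun x => x.den.primeFactors = n.primeFactors with hc
  have dv : ∀ n, Squarefree n → ¬Even (c n) → n ∣ (a.map Rat.den).prod := by
    intro n hn he
    obtain ⟨x, hx, e⟩ := Multiset.countP_pos.1 (Nat.not_even_iff_odd.1 he).pos
    rw [← Nat.prod_primeFactors_of_squarefree hn, ← e]
    exact (Nat.prod_primeFactors_dvd _).trans (Multiset.dvd_prod (Multiset.mem_map_of_mem _ hx))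
  have ex : ∀ n, Odd n ∧ Squarefree n ∧ ¬Even (c n) → ∃ ρ,
      ((∃ m N, 0 < m ∧ m.Coprime p ∧ 0 < N ∧ Tors p m N ρ) ∧ ev (ua g s) ρ = 0) ∧
      ∀ n' : ℕ, Odd n' → Squarefree n' →
        (ρ.countP fun a => a.den.primeFactors = n'.primeFactors) = if n' = n then 1 else 0 := by
    rintro n ⟨h1, h2, h3⟩
    have hnp := a2.coprime_dvd_left (dv n h2 h3)
    rcases h n h1 h2 with h | ⟨⟨v, hv⟩, h⟩ | ⟨rfl, p2, h⟩ | ⟨χ, b1, b2, ⟨k, b3⟩, b4, b5, b6⟩
    · exact absurd h h3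
    · have hd : (1 / n : ℚ).den = n := by rw [one_div, Rat.inv_natCast_den_of_pos h1.pos]
      have lv := lv_one_div n
      refine ⟨{(1 / n : ℚ)},
        ⟨⟨n, 2, h1.pos, hnp, two_pos, by simpa using lv, fun B _ g hg => ?_⟩, ?_⟩,
        fun n' h1 h' => ?_⟩
      · obtain ⟨j, hj⟩ := lv.mono hv
        rw [ev_singleton, two_nsmul, add_eq_zero_iff_eq_neg, ← hg.odd _ lv, ← hg.frob_pow lv v]
        refine hg.congr_int lv.neg j ?_
        rw [← hj]
        push_cast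
        ring
      · rw [ev_singleton, ua, hd]
        split_ifs with c
        · rfl
        · rw [h c, sub_self]
      · exact count_one (x := 0) h2 h1 h' ⟨hd, by simp⟩
    · have c2 : Nat.Coprime 4 p :=
        ((Nat.coprime_primes Nat.prime_two hp).2 (Ne.symm p2)).pow_left 2
      have ht : Tate p (2 / 3 ::ₘ {1 / 12, 3 / 4, 1 / 2}) := tate_hodge hp (m := 12) (by norm_num)
        (Nat.Coprime.mul_left c2 hnp) (by decide +kernel) (by decide +kernel)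
        ⟨1 / 12, by simp, by decide +kernel⟩ (by decide +kernel)
      obtain ⟨d1, d2, M, d3, d4⟩ := ht.tors hp
      refine ⟨_, ⟨⟨_, M, d1, d2, d3, d4⟩, ?_⟩,
        fun n' h1 h' => count_one h2 h1 h' (by decide +kernel)⟩
      rw [ev_ua ht.1, sub_eq_zero, show Multiset.card _ = 2 * 2 from rfl, mul_nsmul, H.two, ← h]
      simp only [ev, Multiset.insert_eq_cons, Multiset.map_cons, Multiset.sum_cons,
        Multiset.map_singleton, Multiset.sum_singleton]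
    have b7 : ∀ x ∈ a, ∀ l : ℕ, l.Prime → l ∣ x.den → ¬l ∣ n → l ≠ 2 → χ l = 1 :=
      fun x hx l hl c1 c2 c3 => b6 x hx l hl c1 fun c4 => (hl.dvd_mul.1 c4).elim
        (fun c5 => c3 ((Nat.prime_dvd_prime_iff_eq hl Nat.prime_two).1 c5)) c2
    rcases b5 with b5 | b5
    · refine absurd (char_even a1 a2 a3 a4 h2 h1 b1 b2 b3 b4 fun l hl hd hln => ?_) h3
      obtain ⟨d, hd, h⟩ := hl.prime.exists_mem_multiset_dvd hd
      obtain ⟨x, hx, rfl⟩ := Multiset.mem_map.1 hd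
      by_cases c : l = 2
      · rw [c]
        exact_mod_cast b5
      · exact b7 x hx l hl h hln c
    · exact absurd (char_even' hp ha b5 h2 h1 b1 b2 b3 b4 b7) h3
  choose! ρ hρ using ex
  set O := (a.map Rat.den).prod.divisors.filter fun n => Odd n ∧ Squarefree n ∧ ¬Even (c n)
    with hO
  have gd : (∃ m N, 0 < m ∧ m.Coprime p ∧ 0 < N ∧ Tors p m N (∑ n ∈ O, ρ n)) ∧
      ev (ua g s) (∑ n ∈ O, ρ n) = 0 := sum_induction _
    (fun x => (∃ m N, 0 < m ∧ m.Coprime p ∧ 0 < N ∧ Tors p m N x) ∧ ev (ua g s) x = 0)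
    (fun x y hx hy => ⟨tors_add hx.1 hy.1, by rw [ev_add, hx.2, hy.2, add_zero]⟩)
    ⟨⟨1, 1, one_pos, by simp, one_pos, by simp, fun B _ g _ => by simp⟩, by simp⟩
    fun n hn => (hρ n (mem_filter.1 hn).2).1
  obtain ⟨m, M, b1, b2, b3, b4⟩ := tors_add ⟨_, N, a1, a2, a3, a4⟩ gd.1
  have v := vanish hp (gd_ua H hp) b1 b2 b3 b4 fun n h1 h2 => by
    have e := map_sum (Multiset.countPAddMonoidHom
      fun x : ℚ => x.den.primeFactors = n.primeFactors) ρ O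
    simp only [Multiset.coe_countPAddMonoidHom] at e
    rw [Multiset.countP_add, e, sum_congr rfl fun n' hn => (hρ n' (mem_filter.1 hn).2).2 n h1 h2,
      sum_ite_eq]
    split_ifs with hn
    · exact (Nat.not_even_iff_odd.1 (mem_filter.1 hn).2.2.2).add_one
    · by_contra he
      exact hn (mem_filter.2 ⟨Nat.mem_divisors.2 ⟨dv n h2 he, a1.ne'⟩, h1, h2, he⟩)
  rw [ev_add, gd.2, add_zero, ev_ua ha.1, hr, mul_nsmul, H.two, sub_eq_zero] at v
  exact v

/-- the same for an abstract subgroup of relations between the symbols. -/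
theorem main_sub3 (hp : p.Prime) (R : AddSubgroup (FreeAbelianGroup (Option ℚ)))
    (h1 : ∀ a : ℚ, a.den ≠ 1 → a.den.Coprime p → sym a + sym (-a) - Lef ∈ R)
    (h2 : ∀ a : ℚ, a.den ≠ 1 → a.den.Coprime p → sym (p * a) - sym a ∈ R)
    (h3 : ∀ a : ℚ, a.den ≠ 1 → a.den.Coprime p → ∀ l : ℕ, l.Prime → l ≠ p →
      ∑ k ∈ range l, sym ((a + k) / l) - sym a - ∑ k ∈ Ico 1 l, sym (k / l) ∈ R)
    {b : ℚ} (hb : 2 • sym b - Lef ∈ R) (hb2 : p ≠ 2 → sym (1 / 2) - sym b ∈ R)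
    (a : Multiset ℚ) (r : ℕ) (hr : a.card = 2 * r)
    (ha : Tate p a) (h : ∀ n : ℕ, Odd n → Squarefree n →
      Even (a.countP fun x => x.den.primeFactors = n.primeFactors) ∨
      ((∃ v, n ∣ p ^ v + 1) ∧ (n ≠ 1 → sym (1 / n) - sym b ∈ R)) ∨
      (n = 3 ∧ p ≠ 2 ∧
        sym (2 / 3) + (sym (1 / 12) + (sym (3 / 4) + sym (1 / 2))) - 2 • Lef ∈ R) ∨
      ∃ χ : DirichletCharacter ℂ n, χ.IsPrimitive ∧ χ.Odd ∧ (∃ k, χ ^ 2 ^ k = 1) ∧ χ p = 1 ∧
        (χ 2 = 1 ∨ ∀ x ∈ a, ¬4 ∣ x.den) ∧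
        ∀ x ∈ a, ∀ l : ℕ, l.Prime → l ∣ x.den → ¬l ∣ 2 * n → χ l = 1) :
    (a.map sym).sum - r • Lef ∈ R := by
  have mk : ∀ {z w : FreeAbelianGroup (Option ℚ)}, z - w ∈ R →
      QuotientAddGroup.mk' R z = QuotientAddGroup.mk' R w := fun h => by
    rw [← sub_eq_zero, ← map_sub]
    exact (QuotientAddGroup.eq_zero_iff _).2 h
  have H : Sys p (fun a => QuotientAddGroup.mk' R (sym a)) (QuotientAddGroup.mk' R Lef)
      (QuotientAddGroup.mk' R (sym b)) :=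
    ⟨fun a n => by simp [sym], fun a c1 c2 => (map_add _ _ _).symm.trans (mk (h1 a c1 c2)),
      fun a c1 c2 => mk (h2 a c1 c2), fun a c1 c2 l c3 c4 => by
        rw [← map_sum, ← map_sum, ← map_add]
        exact mk (by rw [← sub_sub]; exact h3 a c1 c2 l c3 c4),
      (map_nsmul _ _ _).symm.trans (mk hb), fun c => mk (hb2 c)⟩
  have v := main_abs3 H hp a r hr ha fun n c1 c2 => (h n c1 c2).imp_right fun c =>
    c.imp (fun c => ⟨c.1, fun e => mk (c.2 e)⟩) fun c => c.imp_left fun c => ⟨c.1, c.2.1, by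
      rw [← map_add, ← map_add, ← map_add, ← map_nsmul]
      exact mk c.2.2⟩
  rw [← QuotientAddGroup.eq_zero_iff]
  refine (map_sub (QuotientAddGroup.mk' R) _ _).trans ?_
  rw [map_nsmul, ← v, sub_eq_zero]
  exact map_ev (g := sym) _ a

end Pool.Agent.Lib.MP_40dc3c_ag.Fe
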