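import Pool.Agent.Lib.MP_40dc3c_ag.T.B6
import Pool.Agent.Lib.MP_40dc3c_ag.T.Q4
import Pool.Agent.Lib.MP_40dc3c_ag.T.Q5

/-! Tate tuples give trivial products of Gauss objects, with the clause for the divisor three. -/

namespace Pool.Agent.Lib.MP_40dc3c_ag.T

open Function

variable {k : Type} [Field k] (ω : kˣ →* ℂˣ) (p : ℕ) [Fact p.Prime] [CharP k p] [IsAlgClosed k]

/-- the good pairs, with the divisor three allowed. -/
def Good3 (p m : ℕ) : Prop :=
  ∀ n : ℕ, Odd n → Squarefree n → n ∣ m → (∃ v, n ∣ p ^ v + 1) ∨ n = 3 ∨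
    ∃ χ : DirichletCharacter ℂ n, χ.IsPrimitive ∧ χ.Odd ∧ (∃ j, χ ^ 2 ^ j = 1) ∧ χ p = 1 ∧
      (χ 2 = 1 ∨ ¬4 ∣ m) ∧ ∀ l : ℕ, l.Prime → l ∣ m → ¬l ∣ 2 * n → χ l = 1

theorem q_sym (hω : Injective ω) (hp : ¬p ∣ 12) :
    b6v ω p (Fe.sym (2 / 3) + (Fe.sym (1 / 12) + (Fe.sym (3 / 4) + Fe.sym (1 / 2)))) =
      b6v ω p (2 • Fe.Lef) := by
  have hp4 : ¬p ∣ 4 := fun h => hp (h.trans (by decide))
  rw [two_nsmul, b6v_add, b6v_add, b6v_add, b6v_add, b6v_lef,
    b6v_sym ω p hω 12 hp (c := 8) (by decide) (by norm_num),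
    b6v_sym ω p hω 12 hp (c := 1) (by decide) (by norm_num),
    b6v_sym ω p hω 4 hp4 (c := 3) (by decide) (by norm_num),
    b6v_sym ω p hω 4 hp4 (c := 2) (by decide) (by norm_num),
    cls_U_congr ω p 12 (c := 8) (c' := -4) (by decide), ← mul_assoc, ← cls_U_exc ω p hω hp,
    mul_comm (U ω p 4 3).cls, mul_mul_mul_comm, mul_comm (U ω p 4 (-3)).cls,
    cls_U_mul_neg ω p hω 4 hp4 (c := 3) (by decide)]
  nth_rewrite 2 [cls_U_congr ω p 4 (c := 2) (c' := -2) (by decide)]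
  rw [cls_U_mul_neg ω p hω 4 hp4 (c := 2) (by decide)]

theorem prod_U_eq_one3 (hω : Injective ω) (m : ℕ) [NeZero m] (hm : ¬p ∣ m) (hg : Good3 p m)
    {ι : Type} [Fintype ι] (c : ι → ℤ) (he : Even (Fintype.card ι))
    (hT : Fe.Tate p (Finset.univ.val.map fun i => (c i : ℚ) / m)) :
    ∏ i, (U ω p m (c i)).cls = 1 := by
  have hp : p.Prime := Fact.out
  obtain ⟨r, hr⟩ := he
  obtain ⟨b, b1, b2, b3⟩ := b6_base ω p hω
  have nd : ∀ {a : ℚ}, a.den.Coprime p → ¬p ∣ a.den := fun h =>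
    (Nat.Prime.coprime_iff_not_dvd hp).1 h.symm
  have dv : ∀ x ∈ Finset.univ.val.map fun i => (c i : ℚ) / m, x.den ∣ m := fun x hx => by
    obtain ⟨i, -, rfl⟩ := Multiset.mem_map.1 hx
    exact b6_den_dvd _ _
  have key := Fe.main_sub3 hp (b6m ω p).ker (fun a h1 h2 => ?_) (fun a h1 h2 => ?_)
    (fun a h1 h2 l hl hlp => ?_) (b := b) ?_ (fun h => ?_) _ r ?_ hT fun n c1 c2 => ?_
  · rw [b6v_ker, Multiset.map_map] at key
    have e : b6v ω p (r • Fe.Lef) = 1 := by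
      rw [← Finset.card_range r, ← Finset.sum_const, b6v_sum]
      exact Finset.prod_eq_one fun _ _ => b6v_lef ω p
    rw [← e, ← key]
    refine ((b6v_sum ω p Finset.univ fun i => Fe.sym ((c i : ℚ) / m)).trans
      (Finset.prod_congr rfl fun i _ => b6v_sym ω p hω m hm ?_ rfl)).symm
    rintro ⟨z, hz⟩
    refine hT.1 _ (Multiset.mem_map_of_mem _ (Finset.mem_univ_val i)) ?_
    rw [hz, Int.cast_mul, Int.cast_natCast,
      mul_div_cancel_left₀ _ (Nat.cast_ne_zero.2 (NeZero.ne m)), Rat.den_intCast]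
  · have : NeZero a.den := ⟨a.den_nz⟩
    rw [b6v_ker, b6v_add, b6v_lef,
      b6v_sym ω p hω a.den (nd h2) (b6_ndvd h1) (Rat.num_div_den a).symm,
      b6v_sym ω p hω a.den (nd h2) (c := -a.num) (fun h => b6_ndvd h1 (dvd_neg.1 h))
        (by rw [Int.cast_neg, neg_div, Rat.num_div_den])]
    exact cls_U_mul_neg ω p hω _ (nd h2) (b6_ndvd h1)
  · have : NeZero a.den := ⟨a.den_nz⟩
    rw [b6v_ker, b6v_sym ω p hω a.den (nd h2) (b6_ndvd h1) (Rat.num_div_den a).symm,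
      b6v_sym ω p hω a.den (nd h2) (c := p * a.num)
        (fun h => b6_ndvd h1 ((Nat.isCoprime_iff_coprime.2 h2).dvd_of_dvd_mul_left h))
        (by rw [Int.cast_mul, mul_div_assoc, Rat.num_div_den, Int.cast_natCast])]
    exact cls_U_frob ω p hω _ (nd h2) (b6_ndvd h1)
  · have : NeZero a.den := ⟨a.den_nz⟩
    have : NeZero l := ⟨hl.ne_zero⟩
    have hpl : ¬p ∣ l := fun h => hlp ((Nat.prime_dvd_prime_iff_eq hp hl).1 h).symm
    rw [sub_sub, b6v_ker, b6v_add, b6v_sum, b6v_sum,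
      b6v_sym ω p hω a.den (nd h2) (b6_ndvd h1) (Rat.num_div_den a).symm,
      Finset.prod_congr (s₁ := Finset.Ico 1 l) rfl fun i hi =>
        b6v_sym ω p hω l hpl (c := (i : ℕ)) (a := (i : ℚ) / l) (fun h => by
        have := Finset.mem_Ico.1 hi
        have := Nat.le_of_dvd (by omega) (Int.natCast_dvd_natCast.1 h)
        omega) (by rw [Int.cast_natCast]), ← cls_U_mult ω p hω l hl hlp a.den (nd h2) (b6_ndvd h1)]
    refine Finset.prod_congr rfl fun i _ => b6v_sym ω p hω _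
      (fun h => (hp.dvd_mul.1 h).elim (nd h2) hpl) (fun h => b6_ndvd h1
        ((dvd_add_left (dvd_mul_left _ _)).1
          ((Int.natCast_dvd_natCast.2 (dvd_mul_right a.den l)).trans h))) ?_
    have d0 : (a.den : ℚ) ≠ 0 := Nat.cast_ne_zero.2 a.den_nz
    push_cast
    rw [← Rat.mul_den_eq_num, ← add_mul, mul_comm (a.den : ℚ), mul_div_mul_right _ _ d0]
  · rw [b6v_ker, two_nsmul, b6v_add, b1, b6v_lef]
  · rw [b2 h, sub_self]
    exact zero_mem _
  · rw [Multiset.card_map, two_mul, ← hr]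
    rfl
  · by_cases hn : n ∣ m
    · refine Or.inr ?_
      rcases hg n c1 c2 hn with ⟨v, hv⟩ | rfl | ⟨χ, a1, a2, a3, a4, a5, a6⟩
      · exact Or.inl ⟨⟨v, hv⟩, fun h => (b6v_ker ω p).2 (b3 n v c1 h hv)⟩
      · by_cases h2 : p = 2
        · have hv : 3 ∣ p ^ 1 + 1 := by rw [h2]; decide
          exact Or.inl ⟨⟨1, hv⟩, fun h => (b6v_ker ω p).2 (b3 3 1 c1 h hv)⟩
        · refine Or.inr (Or.inl ⟨rfl, h2, (b6v_ker ω p).2 (q_sym ω p hω fun h => ?_)⟩)
          rcases (hp.dvd_mul (m := 3) (n := 2 ^ 2)).1 h with h | h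
          · exact hm (h.trans hn)
          · exact h2 ((Nat.prime_dvd_prime_iff_eq hp Nat.prime_two).1 (hp.dvd_of_dvd_pow h))
      · exact Or.inr (Or.inr ⟨χ, a1, a2, a3, a4, a5.imp_right fun h x hx e => h (e.trans (dv x hx)),
          fun x hx l hl e => a6 l hl (e.trans (dv x hx))⟩)
    · left
      rw [Multiset.countP_eq_zero.2 fun x hx e => hn ?_]
      · exact Even.zero
      · rw [← Nat.prod_primeFactors_of_squarefree c2, ← e]
        exact (Nat.prod_primeFactors_dvd _).trans (dv x hx)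

end Pool.Agent.Lib.MP_40dc3c_ag.T
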