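import Mathlib

/-! The map given by the elementary symmetric polynomials is finite and flat; its geometric fibres
are orbits of the symmetric group. -/

namespace Pool.Agent.Lib.MP_40dc3c_ag.T.Sym

open Function MvPolynomial
open scoped TensorProduct

variable (R : Type) [CommRing R]

theorem ms_cons {S : Type} [CommRing S] (a : S) (s : Multiset S) (j : ℕ) :
    (a ::ₘ s).esymm (j + 1) = s.esymm (j + 1) + a * s.esymm j := by
  simp [Multiset.esymm, Multiset.powersetCard_cons, Multiset.sum_map_mul_left]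

theorem ms_zero {S : Type} [CommRing S] (s : Multiset S) : s.esymm 0 = 1 := by
  simp [Multiset.esymm]

theorem ms_big {S : Type} [CommRing S] (s : Multiset S) {j : ℕ} (h : s.card < j) :
    s.esymm j = 0 := by
  simp [Multiset.esymm, Multiset.powersetCard_eq_empty j h]

/-- `X i ↦ e (i + 1)`. -/
noncomputable def symMap (n : ℕ) : MvPolynomial (Fin n) R →ₐ[R] MvPolynomial (Fin n) R :=
  aeval fun i => esymm (Fin n) R (i + 1)

/-- the variables, numbered from one, with `1` before and `0` behind. -/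
noncomputable def ev (n : ℕ) : ℕ → MvPolynomial (Fin n) R
  | 0 => 1
  | j + 1 => if h : j < n then X ⟨j, h⟩ else 0

theorem symMap_ev (n j : ℕ) : symMap R n (ev R n j) = esymm (Fin n) R j := by
  cases j with
  | zero => simp [ev]
  | succ j =>
    rw [ev]
    split_ifs with h
    · simp [symMap]
    · rw [map_zero, esymm_eq_multiset_esymm, ms_big]
      simp; omega

/-- one step of the tower. -/
noncomputable def stepMap (n : ℕ) :
    MvPolynomial (Fin (n + 1)) R →ₐ[R] Polynomial (MvPolynomial (Fin n) R) :=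
  aeval fun i => Polynomial.C (ev R n (i + 1)) + Polynomial.X * Polynomial.C (ev R n i)

theorem stepMap_ev (n j : ℕ) : stepMap R n (ev R (n + 1) (j + 1)) =
    Polynomial.C (ev R n (j + 1)) + Polynomial.X * Polynomial.C (ev R n j) := by
  rw [ev]
  split_ifs with h
  · simp [stepMap]
  · obtain ⟨j, rfl⟩ : ∃ i, j = i + 1 := ⟨j - 1, by omega⟩
    rw [map_zero, ev, ev, dif_neg (by omega), dif_neg (by omega)]
    simp

/-- the partial quotients of the universal polynomial. -/
noncomputable def bq (n : ℕ) : ℕ → Polynomial (MvPolynomial (Fin n) R)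
  | 0 => 1
  | j + 1 => Polynomial.X * bq n j + Polynomial.C (ev R n (j + 1))

theorem bq_monic (n j : ℕ) : (bq R n j).Monic := by
  induction j with
  | zero => exact Polynomial.monic_one
  | succ j ih =>
    rcases subsingleton_or_nontrivial (MvPolynomial (Fin n) R) with _ | _
    · exact Polynomial.monic_of_subsingleton _
    rw [bq]
    refine (Polynomial.monic_X.mul ih).add_of_left (Polynomial.degree_C_le.trans_lt ?_)
    rw [mul_comm, Polynomial.degree_mul_X, Polynomial.degree_eq_natDegree ih.ne_zero]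
    exact_mod_cast Nat.succ_pos _

theorem bq_eval (n j : ℕ) : (bq R (n + 1) j).eval₂ (stepMap R n).toRingHom (-Polynomial.X) =
    Polynomial.C (ev R n j) := by
  induction j with
  | zero => simp [bq, ev]
  | succ j ih =>
    rw [bq, Polynomial.eval₂_add, Polynomial.eval₂_mul, Polynomial.eval₂_X, ih,
      Polynomial.eval₂_C]
    change _ + stepMap R n _ = _
    rw [stepMap_ev]
    ring

theorem step_bij (n : ℕ) (P : Polynomial (MvPolynomial (Fin (n + 1)) R))
    (hP : bq R (n + 1) (n + 1) = P) : ∃ α : AdjoinRoot P →+* Polynomial (MvPolynomial (Fin n) R),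
      Bijective α ∧ α.comp (AdjoinRoot.of _) = (stepMap R n).toRingHom := by
  have h0 : P.eval₂ (stepMap R n).toRingHom (-Polynomial.X) = 0 := by
    rw [← hP, bq_eval, ev, dif_neg (lt_irrefl n), map_zero]
  obtain ⟨α, a1, a2, a3⟩ : ∃ α : AdjoinRoot P →+* Polynomial (MvPolynomial (Fin n) R),
      (∀ x, α (AdjoinRoot.of P x) = stepMap R n x) ∧ α (AdjoinRoot.root P) = -Polynomial.X ∧
      ∀ g, α (AdjoinRoot.mk P g) = g.eval₂ (stepMap R n).toRingHom (-Polynomial.X) :=
    ⟨AdjoinRoot.lift _ _ h0, fun _ => AdjoinRoot.lift_of h0, AdjoinRoot.lift_root h0,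
      fun g => AdjoinRoot.lift_mk h0 g⟩
  obtain ⟨β, b1, b2, b3⟩ : ∃ β : Polynomial (MvPolynomial (Fin n) R) →+* AdjoinRoot P,
      (∀ r, β (Polynomial.C (C r)) = AdjoinRoot.of P (C r)) ∧
      (∀ i : Fin n, β (Polynomial.C (X i)) = AdjoinRoot.mk P (bq R (n + 1) (i + 1))) ∧
      β Polynomial.X = -AdjoinRoot.root P :=
    ⟨Polynomial.eval₂RingHom (eval₂Hom ((AdjoinRoot.of P).comp C)
      fun i : Fin n => AdjoinRoot.mk P (bq R (n + 1) (i + 1))) (-AdjoinRoot.root P),
      fun r => by simp, fun i => by simp, by simp⟩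
  have hβ : ∀ j, j ≤ n + 1 → β (Polynomial.C (ev R n j)) = AdjoinRoot.mk P (bq R (n + 1) j) := by
    intro j hj
    cases j with
    | zero => rw [ev, bq, map_one, map_one, map_one]
    | succ j =>
      rw [ev]
      split_ifs with h
      · exact b2 ⟨j, h⟩
      · obtain rfl : j = n := by omega
        rw [hP, map_zero, map_zero, AdjoinRoot.mk_self]
  have hC : ∀ r, stepMap R n (C r) = Polynomial.C (C r) := fun r => (stepMap R n).commutes r
  have h1 : β.comp α = RingHom.id _ := by
    refine AdjoinRoot.ringHom_ext (MvPolynomial.ringHom_ext (fun r => ?_) fun i => ?_) ?_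
    · simp only [RingHom.comp_apply, RingHom.id_apply, a1, hC, b1]
    · have hi := i.2
      simp only [RingHom.comp_apply, RingHom.id_apply, a1, stepMap, aeval_X, map_add, map_mul, b3,
        hβ _ (by omega : (i : ℕ) + 1 ≤ n + 1), hβ _ hi.le]
      rw [bq, ev, dif_pos hi, map_add, map_mul, AdjoinRoot.mk_X, AdjoinRoot.mk_C]
      ring
    · simp only [RingHom.comp_apply, RingHom.id_apply, a2, map_neg, b3, neg_neg]
  have h2 : α.comp β = RingHom.id _ := by
    refine Polynomial.ringHom_ext' (MvPolynomial.ringHom_ext (fun r => ?_) fun i => ?_) ?_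
    · simp only [RingHom.comp_apply, RingHom.id_apply, a1, hC, b1]
    · simp only [RingHom.comp_apply, RingHom.id_apply, b2, a3, bq_eval]
      rw [ev, dif_pos i.2]
    · simp only [RingHom.comp_apply, RingHom.id_apply, a2, map_neg, b3, neg_neg]
  exact ⟨α, bijective_iff_has_inverse.2 ⟨β, fun x => RingHom.congr_fun h1 x,
    fun x => RingHom.congr_fun h2 x⟩, RingHom.ext a1⟩

theorem step_ff (n : ℕ) : (stepMap R n).toRingHom.Finite ∧ (stepMap R n).toRingHom.Flat := by
  obtain ⟨P, hP⟩ : ∃ P, bq R (n + 1) (n + 1) = P := ⟨_, rfl⟩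
  obtain ⟨α, hα, e⟩ := step_bij R n P hP
  rw [← e]
  have hm : P.Monic := hP ▸ bq_monic R (n + 1) (n + 1)
  have := hm.finite_adjoinRoot
  have := hm.free_adjoinRoot
  exact ⟨(RingHom.Finite.of_surjective α hα.2).comp (RingHom.finite_algebraMap.2 inferInstance),
    RingHom.Flat.comp (RingHom.flat_algebraMap_iff.2 inferInstance)
      (RingHom.Flat.of_bijective hα)⟩

theorem symMap_succ (n : ℕ) : (finSuccEquiv R n).toAlgHom.comp (symMap R (n + 1)) =
    (Polynomial.mapAlgHom (symMap R n)).comp (stepMap R n) := by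
  refine MvPolynomial.algHom_ext fun i => ?_
  have h : ∀ j, Polynomial.C (esymm (Fin n) R j) = (Finset.univ.val.map fun i : Fin n =>
      (Polynomial.C (X i) : Polynomial (MvPolynomial (Fin n) R))).esymm j := fun j => by
    rw [← aeval_esymm_eq_multiset_esymm (Fin n) R]
    have : (aeval fun i : Fin n => (Polynomial.C (X i) : Polynomial (MvPolynomial (Fin n) R))) =
        (Polynomial.CAlgHom : MvPolynomial (Fin n) R →ₐ[R] _) := by ext; simp
    rw [this]; rfl
  have e : (finSuccEquiv R n).toAlgHom = aeval (Fin.cases Polynomial.X fun i =>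
      Polynomial.C (X i)) := by
    refine MvPolynomial.algHom_ext fun i => ?_
    refine Fin.cases ?_ (fun j => ?_) i
    · simpa using finSuccEquiv_X_zero
    · simpa using finSuccEquiv_X_succ
  simp only [AlgHom.comp_apply, stepMap, aeval_X, map_add, map_mul, Polynomial.coe_mapAlgHom,
    Polynomial.map_C, Polynomial.map_X, RingHom.coe_coe, symMap_ev]
  rw [symMap, aeval_X, e, aeval_esymm_eq_multiset_esymm, Fin.univ_val_map, List.ofFn_succ,
    ← Multiset.cons_coe, ms_cons, h, h, Fin.univ_val_map]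
  simp

theorem polyMap_ff {A B : Type} [CommRing A] [CommRing B] (f : A →+* B) :
    (f.Finite → (Polynomial.mapRingHom f).Finite) ∧ (f.Flat → (Polynomial.mapRingHom f).Flat) := by
  let := f.toAlgebra
  let := Polynomial.algebra A B
  exact ⟨fun h => RingHom.finite_isStableUnderBaseChange A B (Polynomial A) (Polynomial B) h,
    fun h => RingHom.Flat.isStableUnderBaseChange A B (Polynomial A) (Polynomial B) h⟩

theorem symMap_ff (n : ℕ) : (symMap R n).toRingHom.Finite ∧ (symMap R n).toRingHom.Flat := by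
  induction n with
  | zero =>
    have : (symMap R 0).toRingHom = RingHom.id _ := by
      have : symMap R 0 = AlgHom.id R _ := MvPolynomial.algHom_ext fun i => i.elim0
      rw [this]; rfl
    rw [this]
    exact ⟨RingHom.Finite.id _, RingHom.Flat.id _⟩
  | succ n ih =>
    have e : (symMap R (n + 1)).toRingHom = (finSuccEquiv R n).symm.toAlgHom.toRingHom.comp
        ((Polynomial.mapRingHom (symMap R n).toRingHom).comp (stepMap R n).toRingHom) := by
      refine RingHom.ext fun x => ?_
      have := AlgHom.congr_fun (symMap_succ R n) x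
      exact (finSuccEquiv R n).eq_symm_apply.2 this
    rw [e]
    have hb := (finSuccEquiv R n).symm.bijective
    exact ⟨(RingHom.Finite.of_surjective _ hb.2).comp (((polyMap_ff _).1 ih.1).comp (step_ff R n).1),
      RingHom.Flat.comp (RingHom.Flat.comp (step_ff R n).2 ((polyMap_ff _).2 ih.2))
        (RingHom.Flat.of_bijective hb)⟩

/-- two tuples with the same elementary symmetric functions differ by a permutation. -/
theorem exists_perm {Ω ι : Type} [CommRing Ω] [IsDomain Ω] [Fintype ι] (a b : ι → Ω)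
    (h : ∀ j, 0 < j → j ≤ Fintype.card ι →
      (Finset.univ.val.map a).esymm j = (Finset.univ.val.map b).esymm j) :
    ∃ σ : Equiv.Perm ι, ∀ i, b i = a (σ i) := by
  classical
  have h1 : Finset.univ.val.map a = Finset.univ.val.map b := by
    rw [← Polynomial.roots_multiset_prod_X_sub_C (Finset.univ.val.map a),
      ← Polynomial.roots_multiset_prod_X_sub_C (Finset.univ.val.map b),
      Multiset.prod_X_sub_X_eq_sum_esymm, Multiset.prod_X_sub_X_eq_sum_esymm]
    congr 1
    simp only [Multiset.card_map, Finset.card_val, Finset.card_univ]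
    refine Finset.sum_congr rfl fun j hj => ?_
    rcases Nat.eq_zero_or_pos j with rfl | h0
    · rw [ms_zero, ms_zero]
    · rw [h j h0 (Nat.lt_succ_iff.1 (Finset.mem_range.1 hj))]
  have h2 : ∀ c, Nonempty ({i // b i = c} ≃ {i // a i = c}) := fun c => by
    have := congrArg (Multiset.count c) h1
    rw [Multiset.count_map, Multiset.count_map] at this
    refine ⟨Fintype.equivOfCardEq ?_⟩
    rw [Fintype.card_subtype, Fintype.card_subtype]
    simp only [eq_comm (b := c)]
    exact this.symm
  let e := fun c => (h2 c).some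
  exact ⟨Equiv.ofFiberEquiv e, fun i => (Equiv.ofFiberEquiv_map e i).symm⟩

section newton

variable {S S' : Type} [CommRing S] [CommRing S']

/-- the power sums in terms of the elementary symmetric functions. -/
noncomputable def nw (e : ℕ → S) (n : ℕ) : S :=
  (-1) ^ (n + 1) * n * e n - ∑ a : Fin n, if 0 < (a : ℕ) then
    (-1) ^ (n - a) * e (n - a) * nw e a else 0
termination_by n
decreasing_by exact a.2

theorem nw_eq (e : ℕ → S) (n : ℕ) : nw e n = (-1) ^ (n + 1) * n * e n -
    ∑ a ∈ Finset.Ioo 0 n, (-1) ^ (n - a) * e (n - a) * nw e a := by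
  rw [nw, Fin.sum_univ_eq_sum_range
    (fun a => if 0 < a then (-1) ^ (n - a) * e (n - a) * nw e a else 0) n, ← Finset.sum_filter]
  congr 2
  ext a
  simp [and_comm]

theorem map_nw {F : Type} [FunLike F S S'] [RingHomClass F S S'] (f : F) (e : ℕ → S) (n : ℕ) :
    f (nw e n) = nw (fun i => f (e i)) n := by
  induction n using Nat.strong_induction_on with
  | _ n ih =>
  rw [nw_eq, nw_eq, map_sub, map_sum]
  simp only [map_mul, map_pow, map_neg, map_one, map_natCast]
  congr 1
  exact Finset.sum_congr rfl fun a ha => by rw [ih a (Finset.mem_Ioo.1 ha).2]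

theorem nw_congr {e e' : ℕ → S} (n : ℕ) (h : ∀ i, 0 < i → i ≤ n → e i = e' i) :
    nw e n = nw e' n := by
  induction n using Nat.strong_induction_on with
  | _ n ih =>
  rw [nw_eq, nw_eq]
  congr 1
  · rcases Nat.eq_zero_or_pos n with rfl | h0
    · simp
    · rw [h n h0 le_rfl]
  · refine Finset.sum_congr rfl fun a ha => ?_
    have := Finset.mem_Ioo.1 ha
    rw [ih a this.2 fun i h1 h2 => h i h1 (by omega), h (n - a) (by omega) (by omega)]

/-- the top variable enters linearly. -/
theorem nw_top {e e' : ℕ → S} (n : ℕ) (h : ∀ i, 0 < i → i < n → e i = e' i) :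
    nw e n = nw e' n + (-1) ^ (n + 1) * n * (e n - e' n) := by
  rw [nw_eq e, nw_eq e', Finset.sum_congr rfl (g := fun a => (-1) ^ (n - a) * e' (n - a) * nw e' a)
    fun a ha => by
      have := Finset.mem_Ioo.1 ha
      rw [nw_congr a fun i h1 h2 => h i h1 (by omega), h (n - a) (by omega) (by omega)]]
  ring

theorem psum_eq_nw (ι : Type) [Fintype ι] (n : ℕ) (hn : 0 < n) :
    psum ι S n = nw (esymm ι S) n := by
  induction n using Nat.strong_induction_on with
  | _ n ih =>
  rw [psum_eq_mul_esymm_sub_sum ι S n hn, nw_eq]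
  congr 1
  refine Finset.sum_bij' (fun a _ => a.2) (fun a _ => (n - a, a)) ?_ ?_ ?_ ?_ ?_
  · intro a ha
    simp only [Finset.mem_filter, Finset.HasAntidiagonal.mem_antidiagonal, Set.mem_Ioo, Finset.mem_Ioo] at ha ⊢
    omega
  · intro a ha
    simp only [Finset.mem_filter, Finset.HasAntidiagonal.mem_antidiagonal, Set.mem_Ioo, Finset.mem_Ioo] at ha ⊢
    omega
  · intro a ha
    simp only [Finset.mem_filter, Finset.HasAntidiagonal.mem_antidiagonal, Set.mem_Ioo] at ha
    ext <;> simp; omega
  · intro a _; rfl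
  · intro a ha
    simp only [Finset.mem_filter, Finset.HasAntidiagonal.mem_antidiagonal, Set.mem_Ioo] at ha
    rw [ih a.2 (by omega) (by omega), (by omega : n - a.2 = a.1)]

/-- Newton's formula for a tuple in any ring. -/
theorem sum_pow_eq_nw {ι : Type} [Fintype ι] (t : ι → S) (n : ℕ) (hn : 0 < n) :
    ∑ i, t i ^ n = nw (Finset.univ.val.map t).esymm n := by
  have := congrArg (aeval t : MvPolynomial ι S →ₐ[S] S) (psum_eq_nw (S := S) ι n hn)
  rw [map_nw] at this
  simpa [psum, aeval_esymm_eq_multiset_esymm] using this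

end newton

/-- flatness descends along a separable radical extension. -/
theorem flat_of_root {A A' B : Type} [CommRing A] [CommRing A'] [CommRing B] (i : A →+* A')
    (φ : A' →+* B) (w : A') (d : ℕ) (a : A) (ha : i a = w ^ d) (hd : IsUnit (d : B))
    (hw : IsUnit (φ w)) (hg : Subring.closure (insert w (Set.range i)) = ⊤)
    (h : (φ.comp i).Flat) : φ.Flat := by
  let := i.toAlgebra
  let := φ.toAlgebra
  let := (φ.comp i).toAlgebra
  have : IsScalarTower A A' B := IsScalarTower.of_algebraMap_eq' rfl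
  have : Module.Flat A B := h
  obtain ⟨u, hu⟩ := hw
  obtain ⟨v, hv⟩ := hd
  let e : A' ⊗[A] B := ∑ j ∈ Finset.range d, (w ^ j) ⊗ₜ (((v⁻¹ : Bˣ) : B) * ((u⁻¹ : Bˣ) : B) ^ j)
  have he : (w ⊗ₜ 1) * e = ((1 : A') ⊗ₜ φ w) * e := by
    have h1 : ∀ j, ((1 : A') ⊗ₜ[A] φ w) * ((w ^ (j + 1)) ⊗ₜ (((v⁻¹ : Bˣ) : B) *
        ((u⁻¹ : Bˣ) : B) ^ (j + 1))) =
        (w ⊗ₜ 1) * ((w ^ j) ⊗ₜ (((v⁻¹ : Bˣ) : B) * ((u⁻¹ : Bˣ) : B) ^ j)) := fun j => by
      simp only [Algebra.TensorProduct.tmul_mul_tmul, one_mul, ← hu]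
      rw [pow_succ' w, pow_succ ((u⁻¹ : Bˣ) : B)]
      congr 1
      linear_combination (((v⁻¹ : Bˣ) : B) * ((u⁻¹ : Bˣ) : B) ^ j) * u.mul_inv
    have h2 : (w ^ d) ⊗ₜ[A] (((v⁻¹ : Bˣ) : B) * ((u⁻¹ : Bˣ) : B) ^ d) =
        (w ^ 0) ⊗ₜ (((v⁻¹ : Bˣ) : B) * ((u⁻¹ : Bˣ) : B) ^ 0) := by
      have : w ^ d = a • (1 : A') := by rw [Algebra.smul_def, mul_one]; exact ha.symm
      rw [this, TensorProduct.smul_tmul, pow_zero, pow_zero, Algebra.smul_def]
      congr 1
      change φ (i a) * _ = _
      rw [ha, map_pow, ← hu, mul_left_comm, ← mul_pow, u.mul_inv, one_pow]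
    have h3 := Finset.sum_range_succ' (fun j => (w ^ j) ⊗ₜ[A] (((v⁻¹ : Bˣ) : B) *
      ((u⁻¹ : Bˣ) : B) ^ j)) d
    rw [Finset.sum_range_succ, h2, add_left_inj] at h3
    conv_rhs => rw [show e = _ from h3]
    simp only [e, Finset.mul_sum, h1]
  have hall : ∀ c : A', (c ⊗ₜ 1) * e = ((1 : A') ⊗ₜ φ c) * e := fun c => by
    have hc : c ∈ Subring.closure (insert w (Set.range i)) := hg ▸ Subring.mem_top c
    induction hc using Subring.closure_induction with
    | mem x hx =>
      rcases hx with rfl | ⟨y, rfl⟩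
      · exact he
      · congr 1
        exact (Algebra.TensorProduct.algebraMap_apply (R := A) (S := A) y).symm.trans
          (Algebra.TensorProduct.algebraMap_apply' y)
    | zero => simp
    | one => simp
    | add x y _ _ hx hy => rw [map_add, TensorProduct.add_tmul, TensorProduct.tmul_add, add_mul,
        add_mul, hx, hy]
    | neg x _ hx => rw [map_neg, TensorProduct.neg_tmul, TensorProduct.tmul_neg, neg_mul, neg_mul,
        hx]
    | mul x y _ _ hx hy =>
      have e1 : (x * y) ⊗ₜ[A] (1 : B) = (x ⊗ₜ 1) * (y ⊗ₜ 1) := by simp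
      have e2 : (1 : A') ⊗ₜ[A] φ (x * y) = (1 ⊗ₜ φ y) * (1 ⊗ₜ φ x) := by simp [mul_comm]
      rw [e1, e2, mul_assoc, hy, mul_left_comm, hx, mul_assoc]
  let s : B →ₗ[A'] A' ⊗[A] B :=
    { toFun := fun b => ((1 : A') ⊗ₜ b) * e
      map_add' := fun x y => by rw [TensorProduct.tmul_add, add_mul]
      map_smul' := fun c b => by
        have e1 : (1 : A') ⊗ₜ[A] (c • b) = (1 ⊗ₜ b) * (1 ⊗ₜ φ c) := by
          rw [Algebra.TensorProduct.tmul_mul_tmul, one_mul, mul_comm]; rfl
        rw [e1, mul_assoc, ← hall, mul_left_comm, RingHom.id_apply, Algebra.smul_def]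
        rfl }
  let r : A' ⊗[A] B →ₐ[A'] B := Algebra.TensorProduct.lift (Algebra.ofId A' B) (AlgHom.id A B)
    fun _ _ => Commute.all _ _
  refine Module.Flat.of_retract s r.toLinearMap (LinearMap.ext fun b => ?_)
  have : r e = 1 := by
    simp only [e, map_sum, r, Algebra.TensorProduct.lift_tmul, map_pow, AlgHom.id_apply]
    rw [Finset.sum_congr rfl (g := fun _ => ((v⁻¹ : Bˣ) : B)) fun j _ => by
      change φ w ^ j * _ = _
      rw [← hu, mul_left_comm, ← mul_pow, u.mul_inv, one_pow, mul_one]]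
    rw [Finset.sum_const, Finset.card_range, nsmul_eq_mul, ← hv, v.mul_inv]
  change r ((1 ⊗ₜ b) * e) = b
  rw [map_mul, this, mul_one]
  simp [r]

end Pool.Agent.Lib.MP_40dc3c_ag.T.Sym
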